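import Pool.Agent.Lib.MP_cc2426_co.Phase

/-! Cheap slides. -/

set_option autoImplicit false
set_option linter.unusedSectionVars false

namespace Pool.Agent.Lib.MP_cc2426_co

open Finset

variable {E L R K : Type*} [DecidableEq E] [DecidableEq L] [DecidableEq R] [DecidableEq K]
  [Fintype L] [Fintype R]

namespace Sys

variable {S : Sys E L R K} {s u t : K} {x : L} {y : R}

theorem admG (tri : ∀ k, k = s ∨ k = u ∨ k = t) (hsu : s ≠ u) (hs : s ≠ t) (hu : u ≠ t)
    (sim : ∀ e e', S.lf e = S.lf e' → S.rt e = S.rt e' → e = e')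
    (con : ∀ q, ∃ i, S.Rch s y i q) (hn : Fintype.card L = Fintype.card R) {τ : ℕ}
    (hx : ¬ S.RchL t y τ x) :
    ∃ n : ℕ, S.Adm x y t τ u s n ∧ 2 * n + 1 ≤ (S.near x y t τ).card := by
  classical
  set b : R → ℤ := fun q => (S.lev s y q : ℤ) with hb
  set a : L → ℤ := fun r => b (S.rt (S.eL u r)) with ha
  have us : ∀ r, S.col (S.eL u r) ≠ s := fun r => by rw [S.col_eL]; exact hsu.symm
  have flat : ∀ e, S.col e ≠ s → b (S.rt e) = a (S.lf e) := fun e he => by
    simp only [ha, hb]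
    rw [lev_flat con (us (S.lf e)) he (S.lf_eL _ _).symm]
  have h1 : ∀ e, b (S.rt e) ≤ a (S.lf e) + if S.col e = s then 1 else 0 := by
    intro e
    split_ifs with he
    · simp only [ha, hb]
      exact_mod_cast lev_arc con (us (S.lf e)) (S.lf_eL _ _).symm
    · rw [flat e he, add_zero]
  have p0 : b y = 0 := by
    simp only [hb]
    exact_mod_cast Nat.le_zero.1 (lev_le (Rch.refl 0))
  obtain ⟨P, hP, cP, vP⟩ := minhub (S := S) (x := x) (y := y) (s := u) (u := t) (t := s)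
    (fun k => by have := tri k; tauto) hsu.symm hs.symm
    ⟨S.eL u x, S.lf_eL _ _, us x, lev_spec (con _)⟩
  have ti := (tight (s := u) (t := s) hP (hn ▸ cP) cP a b (fun _ => rfl) h1).2
    (by rw [p0, sub_zero]; exact vP)
  obtain ⟨N, r, cnt, H, -, h2, h3, h4⟩ := phase1 (o := s) (a := a) (b := b) hu hx le_rfl hP
    (hn ▸ cP) p0 (fun e he => flat e (by rw [he]; exact hsu.symm)) (fun e he _ => ti e he)
  have vs : S.vec N s = cnt s := by
    rw [H.vec s hsu, vec_zero (fun e he => (mem_base.1 he).1 ▸ hsu.symm), zero_add]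
  refine ⟨cnt s, ⟨N, P, h3, hP, cP, fun e he h => (h4 e he).resolve_left
    (fun hh => hu (hh.symm.trans h)), h2, vs.le⟩, ?_⟩
  set F := N.filter (fun e => S.col e = s) with hF
  have cF : F.card = cnt s := by
    rw [vec_apply] at vs
    exact_mod_cast vs
  have nb : ∀ e ∈ F, e ∉ S.base x y u (S.near x y t τ) := fun e he hh =>
    hsu ((mem_filter.1 he).2.symm.trans (mem_base.1 hh).1)
  have inj : ∀ e ∈ F, ∀ e' ∈ F, a (S.lf e) = a (S.lf e') → e = e' := fun e he e' he' =>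
    H.inj e (mem_filter.1 he).1 (nb e he) e' (mem_filter.1 he').1 (nb e' he')
      (mem_filter.1 he).2 (mem_filter.1 he').2
  set pr : E → L := fun e => S.lf (S.eR u (S.rt (S.eL t (S.lf e)))) with hpr
  have lv : ∀ e, a (pr e) = a (S.lf e) := by
    intro e
    have e1 := flat (S.eR u (S.rt (S.eL t (S.lf e)))) (by rw [S.col_eR]; exact hsu.symm)
    have e2 := flat (S.eL t (S.lf e)) (by rw [S.col_eL]; exact hs.symm)
    rw [S.rt_eR] at e1
    rw [S.lf_eL] at e2
    exact e1.symm.trans e2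
  have ne : ∀ e, S.lf e ≠ pr e := by
    intro e hh
    have := congrArg S.col (sim (S.eL t (S.lf e)) (S.eR u (S.rt (S.eL t (S.lf e))))
      ((S.lf_eL _ _).trans hh) (S.rt_eR _ _).symm)
    rw [S.col_eL, S.col_eR] at this
    exact hu this.symm
  have r1 : ∀ e ∈ F, S.RchL t y τ (S.lf e) ∧ S.RchL t y τ (pr e) := by
    intro e he
    obtain ⟨j, j1, j2⟩ := (H.new e (mem_filter.1 he).1 (nb e he)).2.1 t rfl
    refine ⟨j2.mono j1.le, RchL.mono (i := j + 1) (Rch.row ?_ ?_) j1⟩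
    · rw [S.rt_eR]
      exact RchL.arc (by rwa [S.lf_eL])
    · rwa [S.col_eR]
  have c1 : (F.image S.lf).card = F.card :=
    card_image_of_injOn (fun e he e' he' h => inj e he e' he' (by rw [h]))
  have c2 : (F.image pr).card = F.card :=
    card_image_of_injOn (fun e he e' he' h => inj e he e' he' (by rw [← lv, h, lv]))
  have dj : Disjoint (F.image S.lf) (F.image pr) := by
    rw [Finset.disjoint_left]
    intro z z1 z2
    obtain ⟨e, he, rfl⟩ := mem_image.1 z1
    obtain ⟨e', he', h⟩ := mem_image.1 z2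
    obtain rfl : e = e' := inj e he e' he' (by rw [← h, lv])
    exact ne e h.symm
  have rr : ∀ z ∈ F.image S.lf ∪ F.image pr, S.RchL t y τ z := by
    intro z hz
    rcases mem_union.1 hz with hz | hz
    · obtain ⟨e, he, rfl⟩ := mem_image.1 hz
      exact (r1 e he).1
    · obtain ⟨e, he, rfl⟩ := mem_image.1 hz
      exact (r1 e he).2
  have sub : insert x (F.image S.lf ∪ F.image pr) ⊆ S.near x y t τ :=
    insert_subset (mem_near.2 (Or.inr (Rch.refl _))) (fun z hz => mem_near.2 (Or.inl (rr z hz)))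
  have := card_le_card sub
  rw [card_insert_of_notMem (fun hh => hx (rr x hh)), card_union_of_disjoint dj, c1, c2, cF] at this
  omega

theorem admS1 {D : K → Prop} {tg : K → ℕ} (hD : ∀ d, D d → s ≠ d) (dt : D t) (du : D u)
    {Z : Finset L} (hZ : ∀ r, r ∈ Z ↔ ∀ d, D d → S.RchL d y (tg d) r) {P : Finset E}
    (hP : S.Av x y P) (cP : P.card + 1 = Fintype.card R) {r0 r : L} {N : Finset E} {cnt : K → ℕ}
    (H : S.Ph x y s s D tg (fun _ => 0) P (S.base x y s Z) r0 N r cnt) (h : cnt t = tg t) :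
    S.Adm x y t (tg t) s u (tg u) := by
  have hs := hD t dt
  have v0 : ∀ (W : Finset L) d, D d → S.vec (S.base x y s W) d = 0 := fun W d hd =>
    vec_zero (fun e he => (mem_base.1 he).1 ▸ hD d hd)
  have key : ∀ M : Finset E, ((∀ d, D d → S.vec M d ≤ S.vec (S.base x y s Z) d + tg d) ∧
      ∀ e ∈ M, e ∈ S.base x y s Z ∨
        ∀ d, D d → S.RchL d y (tg d) (S.lf e) ∧ S.Rch d y (tg d) (S.rt e)) →
      (∀ e ∈ M, ∀ f ∈ S.base x y s (S.near x y t (tg t) \ Z),
        S.lf e ≠ S.lf f ∧ S.rt e ≠ S.rt f) ∧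
      S.vec (M ∪ S.base x y s (S.near x y t (tg t) \ Z)) t ≤ tg t ∧
      ∀ e ∈ M ∪ S.base x y s (S.near x y t (tg t) \ Z), S.Nb x y t (tg t) e := by
    intro M hM
    have both : ∀ e ∈ M, ∀ d, D d →
        S.RchL d y (tg d) (S.lf e) ∧ S.Rch d y (tg d) (S.rt e) := by
      intro e he d hd
      rcases hM.2 e he with a | a
      · have := mem_base.1 a
        exact ⟨(hZ _).1 this.2.1 d hd, ((hZ _).1 this.2.1 d hd).flat (this.1 ▸ hD d hd)⟩
      · exact a d hd
    have dj : ∀ e ∈ M, ∀ f ∈ S.base x y s (S.near x y t (tg t) \ Z),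
        S.lf e ≠ S.lf f ∧ S.rt e ≠ S.rt f := by
      intro e he f hf
      have := mem_base.1 hf
      have nz := (mem_sdiff.1 this.2.1).2
      exact ⟨fun hh => nz ((hZ _).2 (fun d hd => hh ▸ (both e he d hd).1)),
        fun hh => nz ((hZ _).2 (fun d hd =>
          Rch.row (hh ▸ (both e he d hd).2) (this.1 ▸ hD d hd)))⟩
    refine ⟨dj, ?_, fun e he => ?_⟩
    · have := hM.1 t dt
      rw [vec_union (disj_of dj), Pi.add_apply, v0 _ t dt]
      rw [v0 _ t dt] at this
      omega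
    · rcases mem_union.1 he with he | he
      · exact ⟨mem_near.2 (Or.inl (both e he t dt).1), Or.inl (both e he t dt).2⟩
      · have := mem_base.1 he
        exact ⟨(mem_sdiff.1 this.2.1).1, (nb_iff (this.1 ▸ hs)).1 (mem_sdiff.1 this.2.1).1⟩
  have c := Ch.lift (Q' := fun N => S.vec N t ≤ tg t ∧ ∀ e ∈ N, S.Nb x y t (tg t) e) av_base key
    H.ch
  have e0 : S.base x y s Z ∪ S.base x y s (S.near x y t (tg t) \ Z) =
      S.base x y s (S.near x y t (tg t)) := by
    ext e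
    rw [mem_union, mem_base, mem_base, mem_base, mem_sdiff]
    have : S.lf e ∈ Z → S.lf e ∈ S.near x y t (tg t) := fun a =>
      mem_near.2 (Or.inl ((hZ _).1 a t dt))
    tauto
  rw [e0] at c
  have dj := (key N (H.ch.last ⟨fun d _ => by omega, fun e he => Or.inl he⟩)).1
  have vv : ∀ d, D d → S.vec (N ∪ S.base x y s (S.near x y t (tg t) \ Z)) d = cnt d := by
    intro d hd
    rw [vec_union (disj_of dj), Pi.add_apply, v0 _ d hd, H.vec d (hD d hd).symm, v0 _ d hd]
    omega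
  refine ⟨_, P, c, hP, cP, fun e he ec => ?_, by rw [vv t dt, h], ?_⟩
  · rcases mem_union.1 he with he | he
    · exact (H.new e he (fun hh => hs ((mem_base.1 hh).1.symm.trans ec))).1
    · exact absurd ((mem_base.1 he).1.symm.trans ec) hs
  · rw [vv u du]
    exact_mod_cast (H.le u du).1

theorem admS (hs : s ≠ t) (hsu : s ≠ u) (hn : Fintype.card L = Fintype.card R)
    {τ τ' : ℕ} (hx : ¬ S.RchL t y τ x) (hx' : ¬ S.RchL u y τ' x) {P : Finset E}
    (hP : S.Av x y P) (cP : P.card + 1 = Fintype.card R) :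
    S.Adm x y t τ s u τ' ∨ S.Adm x y u τ' s t τ := by
  classical
  by_cases htu : t = u
  · subst htu
    rcases le_total τ τ' with h | h
    · obtain ⟨X, P, a1, a2, a3, a4, a5, -⟩ := admA (o := t) hs hs.symm hx hn hP cP
      exact Or.inl ⟨X, P, a1, a2, a3, a4, a5, by rw [a5]; exact_mod_cast h⟩
    · obtain ⟨X, P, a1, a2, a3, a4, a5, -⟩ := admA (o := t) hs hs.symm hx' hn hP cP
      exact Or.inr ⟨X, P, a1, a2, a3, a4, a5, by rw [a5]; exact_mod_cast h⟩
  set tg : K → ℕ := fun d => if d = t then τ else τ' with htg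
  have g1 : tg t = τ := if_pos rfl
  have g2 : tg u = τ' := if_neg (Ne.symm htu)
  have hD : ∀ d, (d = t ∨ d = u) → s ≠ d := by
    rintro d (rfl | rfl)
    · exact hs
    · exact hsu
  set Z : Finset L := univ.filter (fun r => ∀ d, (d = t ∨ d = u) → S.RchL d y (tg d) r) with hZ0
  have hZ : ∀ r, r ∈ Z ↔ ∀ d, (d = t ∨ d = u) → S.RchL d y (tg d) r := fun r => by
    rw [hZ0, mem_filter]; exact ⟨fun h => h.2, fun h => ⟨mem_univ _, h⟩⟩
  have l0 : ∀ d, (d = t ∨ d = u) → S.RchL d y 0 (S.lf (S.eR s y)) := fun d hd =>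
    ⟨_, rfl, by rw [S.col_eR]; exact hD d hd, by rw [S.rt_eR]; exact Rch.refl 0⟩
  obtain ⟨N, r, cnt, H, d, d1, d2⟩ := phase (c := s) (o := s) (D := fun d => d = t ∨ d = u)
    (tg := tg) (a := fun _ => 0) (b := fun _ => 0) (N0 := S.base x y s Z)
    (r0 := S.lf (S.eR s y)) hP (hP.cov (hn ▸ cP)) hD av_base
    (fun e he => Or.inl (mem_base.1 he).1)
    (fun e he hh => (mem_base.1 he).2.2.2 (by
      rw [S.eq_of_lf hh ((mem_base.1 he).1.trans (S.col_eR _ _).symm), S.rt_eR]))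
    (fun hh => hx (hh ▸ (l0 t (Or.inl rfl)).mono (Nat.zero_le _))) l0 rfl (fun _ _ => rfl)
    (fun e _ h => by rw [if_neg h]; rfl) (fun q h1 _ h3 => by
      have h4 : ∀ d, (d = t ∨ d = u) → S.RchL d y (tg d) (S.lf (S.eR s q)) := fun d hd =>
        Rch.row (by rw [S.rt_eR]; exact h1 d hd) (by rw [S.col_eR]; exact hD d hd)
      exact ⟨S.eR s q, mem_base.2 ⟨S.col_eR _ _, (hZ _).2 h4,
        fun hh => hx (hh ▸ g1 ▸ h4 t (Or.inl rfl)), by rwa [S.rt_eR]⟩, S.rt_eR _ _⟩)
  rcases d1 with rfl | rfl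
  · have := admS1 hD (Or.inl rfl) (Or.inr rfl) hZ hP cP H d2
    rw [g1, g2] at this
    exact Or.inl this
  · have := admS1 hD (Or.inr rfl) (Or.inl rfl) hZ hP cP H d2
    rw [g1, g2] at this
    exact Or.inr this

end Sys

end Pool.Agent.Lib.MP_cc2426_co
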