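import Mathlib

/-! Near-perfect matchings with prescribed colour counts close to a base matching:
a maximal family of cycles over the base matching and a walk along a word. -/

set_option autoImplicit false
set_option linter.unusedSectionVars false

namespace Pool.Agent.Lib.MP_cc2426_co.Vertex

open Finset

variable {V K : Type*} [Fintype V] [DecidableEq V] [Fintype K] [DecidableEq K]

/-- a multi-affine function on a box is largest at a vertex. -/
theorem box (u v : K → ℕ) (A : Finset K) : ∀ p q : ℕ, ∃ T ⊆ A,
    (p + ∑ t ∈ A, v t) * (q + ∑ t ∈ A, u t) ≤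
      (p + ∑ t ∈ T, (u t + v t)) * (q + ∑ t ∈ A \ T, (u t + v t)) + ∑ t ∈ A, u t * v t := by
  induction A using Finset.induction_on with
  | empty => intro p q; exact ⟨∅, Subset.refl _, by simp⟩
  | insert t A ht ih =>
    intro p q
    rw [sum_insert ht, sum_insert ht, sum_insert ht]
    rcases le_total (p + ∑ t ∈ A, v t) (q + ∑ t ∈ A, u t) with h | h
    · obtain ⟨T, hT, h1⟩ := ih (p + (u t + v t)) q
      have htT : t ∉ T := fun h' => ht (hT h')
      refine ⟨insert t T, insert_subset_insert _ hT, ?_⟩
      have e : insert t A \ insert t T = A \ T := by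
        ext x
        simp only [mem_sdiff, mem_insert, not_or]
        constructor
        · rintro ⟨h2 | h2, h3, h4⟩
          · exact absurd h2 h3
          · exact ⟨h2, h4⟩
        · rintro ⟨h2, h3⟩
          exact ⟨Or.inr h2, fun h4 => ht (h4 ▸ h2), h3⟩
      rw [e, sum_insert htT, ← add_assoc p (u t + v t)]
      have := Nat.mul_le_mul_left (u t) h
      nlinarith
    · obtain ⟨T, hT, h1⟩ := ih p (q + (u t + v t))
      have htT : t ∉ T := fun h' => ht (hT h')
      refine ⟨T, hT.trans (subset_insert _ _), ?_⟩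
      have e : insert t A \ T = insert t (A \ T) := insert_sdiff_of_notMem _ htT
      have ht' : t ∉ A \ T := fun h' => ht (mem_sdiff.1 h').1
      rw [e, sum_insert ht', ← add_assoc q (u t + v t)]
      have := Nat.mul_le_mul_left (v t) h
      nlinarith

/-- a word with prescribed letter counts. -/
theorem word (m : ℕ) [Nonempty K] : ∀ u : K → ℕ, ∑ t, u t = m →
    ∃ w : ℕ → K, ∀ t, ((range m).filter (fun l => w l = t)).card = u t := by
  induction m with
  | zero =>
    intro u h
    refine ⟨fun _ => Classical.arbitrary K, fun t => ?_⟩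
    rw [sum_eq_zero_iff] at h
    simp [h t (mem_univ _)]
  | succ m ih =>
    intro u h
    obtain ⟨t0, h0⟩ : ∃ t0, 0 < u t0 := by
      by_contra h'
      push Not at h'
      have : ∑ t, u t = 0 := sum_eq_zero (fun t _ => by have := h' t; omega)
      omega
    obtain ⟨w, hw⟩ := ih (Function.update u t0 (u t0 - 1)) (by
      rw [sum_update_of_mem (mem_univ _)]
      have := add_sum_erase univ u (mem_univ t0)
      rw [sdiff_singleton_eq_erase]
      omega)
    refine ⟨Function.update w m t0, fun t => ?_⟩
    have e : (range m).filter (fun l => Function.update w m t0 l = t) =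
        (range m).filter (fun l => w l = t) := by
      apply filter_congr
      intro l hl
      rw [Function.update_of_ne (mem_range.1 hl).ne]
    rw [range_add_one, filter_insert, Function.update_self, e]
    have h1 := hw t
    by_cases ht : t0 = t
    · subst ht
      rw [if_pos rfl, card_insert_of_notMem (by simp), h1, Function.update_self]
      omega
    · rw [if_neg ht, h1, Function.update_of_ne (Ne.symm ht)]

/-- recolour the rows of an injective stretch of a walk. -/
theorem recolour (col : V → K) (X : ℕ → V) (w : ℕ → K) (I : Finset ℕ)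
    (hX : Set.InjOn X I) : ∃ c : V → K, (∀ l ∈ I, c (X l) = w l) ∧
      ∀ y, (∀ l ∈ I, X l ≠ y) → c y = col y := by
  classical
  refine ⟨fun y => if h : ∃ l, l ∈ I ∧ X l = y then w h.choose else col y, ?_, ?_⟩
  · intro l hl
    have h : ∃ l', l' ∈ I ∧ X l' = X l := ⟨l, hl, rfl⟩
    simp only [dif_pos h]
    rw [hX h.choose_spec.1 hl h.choose_spec.2]
  · intro y hy
    have h : ¬ ∃ l, l ∈ I ∧ X l = y := fun ⟨l, h1, h2⟩ => hy l h1 h2
    simp only [dif_neg h]

/-- what the recoloured rows cover. -/
theorem cover {π : K → Equiv.Perm V} {col c : V → K} {X : ℕ → V} {w : ℕ → K} {i j : ℕ}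
    (hs : Function.Surjective (fun x => π (col x) x))
    (hfix : ∀ l ∈ Icc i j, π (col (X l)) (X l) = X l)
    (hw : ∀ l, X (l + 1) = π (w l) (X l))
    (h1 : ∀ l ∈ Ico i j, c (X l) = w l) (h2 : ∀ y, (∀ l ∈ Ico i j, X l ≠ y) → c y = col y)
    (y : V) (hy : (∃ l ∈ Ioc i j, X l = y) ∨ ∀ l ∈ Icc i j, X l ≠ y) :
    ∃ x, π (c x) x = y ∧ ((∃ l ∈ Ico i j, X l = x) ∨ ∀ l ∈ Icc i j, X l ≠ x) := by
  rcases hy with ⟨l, hl, rfl⟩ | hy
  · rw [mem_Ioc] at hl
    obtain ⟨l, rfl⟩ : ∃ l', l = l' + 1 := ⟨l - 1, by omega⟩
    have hl' : l ∈ Ico i j := mem_Ico.2 ⟨by omega, by omega⟩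
    exact ⟨X l, by rw [h1 l hl', hw], Or.inl ⟨l, hl', rfl⟩⟩
  · obtain ⟨x, hx⟩ := hs y
    have hx' : ∀ l ∈ Icc i j, X l ≠ x := by
      intro l hl h
      apply hy l hl
      rw [← hx, ← h]
      exact (hfix l hl).symm
    refine ⟨x, ?_, Or.inr hx'⟩
    rw [h2 x (fun l hl => hx' l (Ico_subset_Icc_self hl))]
    exact hx

/-- some start of the walk avoids the moved rows. -/
theorem start {π : K → Equiv.Perm V} {β : K} (hβ : π β = 1) {col : V → K}
    (hi : Function.Injective (fun x => π (col x) x)) (w : ℕ → K) (P : ℕ → Equiv.Perm V)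
    (hP : ∀ l, P (l + 1) = π (w l) * P l) (m : ℕ) (hm : ∀ l < m, w l ≠ β) :
    Fintype.card V + ∑ l ∈ range m, (univ.filter (fun x => col x = w l)).card ≤
      (univ.filter (fun x => ∀ l ≤ m, col (P l x) = β)).card +
        (univ.filter (fun x => col x ≠ β)).card * (1 + m) := by
  induction m with
  | zero =>
    have h1 := card_filter_add_card_filter_not (s := (univ : Finset V)) (fun x => col x = β)
    have h2 : (univ.filter (fun x => col x = β)).card ≤
        (univ.filter (fun x => ∀ l ≤ (0 : ℕ), col (P l x) = β)).card := by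
      apply card_le_card_of_injOn (fun y => (P 0).symm y)
      · intro y hy
        simp only [coe_filter, mem_univ, true_and, Set.mem_ofPred_eq] at hy ⊢
        intro l hl
        obtain rfl : l = 0 := by omega
        simpa using hy
      · exact (P 0).symm.injective.injOn
    rw [card_univ] at h1
    simp only [range_zero, sum_empty, add_zero, mul_one, ne_eq]
    omega
  | succ m ih =>
    have ih' := ih (fun l hl => hm l (by omega))
    set F := univ.filter (fun x => col x ≠ β) with hF
    set G := univ.filter (fun x => ∀ l ≤ m, col (P l x) = β) with hG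
    set G' := univ.filter (fun x => ∀ l ≤ m + 1, col (P l x) = β) with hG'
    set W := (univ.filter (fun x => col x = w m)).image (π (w m)) with hW
    have hWc : W.card = (univ.filter (fun x => col x = w m)).card :=
      card_image_of_injective _ (π (w m)).injective
    have hWF : W ⊆ F := by
      intro z hz
      obtain ⟨y, hy, rfl⟩ := mem_image.1 hz
      have hy' : col y = w m := (mem_filter.1 hy).2
      refine mem_filter.2 ⟨mem_univ _, fun h => ?_⟩
      have : π (w m) y = y := hi (by simp only [h, hβ, hy']; rfl)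
      rw [this, hy'] at h
      exact hm m (by omega) h
    have h3 : (G \ G').card ≤ (F \ W).card := by
      apply card_le_card_of_injOn (fun x => P (m + 1) x)
      · intro x hx
        rw [mem_coe, mem_sdiff] at hx
        obtain ⟨x1, x2⟩ := hx
        have x3 := (mem_filter.1 x1).2
        rw [mem_coe, mem_sdiff]
        constructor
        · refine mem_filter.2 ⟨mem_univ _, fun h => x2 (mem_filter.2 ⟨mem_univ _, ?_⟩)⟩
          intro l hl
          rcases Nat.lt_or_ge m l with h' | h'
          · obtain rfl : l = m + 1 := by omega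
            exact h
          · exact x3 l h'
        · intro h
          obtain ⟨y, hy, e⟩ := mem_image.1 h
          have hy' : col y = w m := (mem_filter.1 hy).2
          rw [hP] at e
          have : y = P m x := (π (w m)).injective e
          rw [this, x3 m le_rfl] at hy'
          exact hm m (by omega) hy'.symm
      · exact (P (m + 1)).injective.injOn
    have h4 := card_sdiff_add_card_eq_card hWF
    have h5 := le_card_sdiff G' G
    rw [sum_range_succ, ← add_assoc 1 m 1, mul_add, mul_one]
    omega

/-- the exact statement over a base colour that acts as the identity. -/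
theorem main (π : K → Equiv.Perm V) (β : K) (hβ : π β = 1) (a : K → ℕ)
    (hs : ∑ t, a t + 1 = Fintype.card V)
    (hT : ∀ T : Finset K, β ∉ T →
      (∑ t ∈ T, a t) * (1 + ∑ t ∈ (insert β T)ᶜ, a t) < Fintype.card V) :
    ∃ S : Finset V, ∃ c : V → K, Set.InjOn (fun x => π (c x) x) (S : Set V) ∧
      ∀ t, (S.filter (fun x => c x = t)).card = a t := by
  classical
  have : Nonempty K := ⟨β⟩
  obtain ⟨col, hc, hmax⟩ := exists_max_image
    (univ.filter (fun c : V → K => Function.Injective (fun x => π (c x) x) ∧
      ∀ t, t ≠ β → (univ.filter (fun x => c x = t)).card ≤ a t))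
    (fun c => (univ.filter (fun x => c x ≠ β)).card)
    ⟨fun _ => β, mem_filter.2 ⟨mem_univ _, (π β).injective, fun t ht => by simp [ht.symm]⟩⟩
  obtain ⟨hi, hv⟩ := (mem_filter.1 hc).2
  have hsurj : Function.Surjective (fun x => π (col x) x) := Finite.surjective_of_injective hi
  set v : K → ℕ := fun t => (univ.filter (fun x => col x = t)).card with hvd
  set u : K → ℕ := fun t => if t = β then 0 else a t - v t with hud
  have huv : ∀ t, t ≠ β → u t + v t = a t := by
    intro t ht
    have := hv t ht
    simp only [hud, if_neg ht, hvd]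
    omega
  have huβ : u β = 0 := by simp [hud]
  obtain ⟨w, hw⟩ := word (∑ t, u t) u rfl
  set m := ∑ t, u t with hm
  have hwβ : ∀ l < m, w l ≠ β := by
    intro l hl h
    have := hw β
    rw [huβ, card_eq_zero, filter_eq_empty_iff] at this
    exact this (mem_range.2 hl) h
  let P : ℕ → Equiv.Perm V := fun l => Nat.rec 1 (fun l p => π (w l) * p) l
  have hP : ∀ l, P (l + 1) = π (w l) * P l := fun _ => rfl
  have h1 := start hβ hi w P hP m hwβ
  have e1 : ∑ l ∈ range m, (univ.filter (fun x => col x = w l)).card =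
      ∑ t ∈ univ.erase β, u t * v t := by
    rw [← sum_fiberwise_of_maps_to (g := w) (t := univ.erase β)
      (fun l hl => mem_erase.2 ⟨hwβ l (mem_range.1 hl), mem_univ _⟩)]
    apply sum_congr rfl
    intro t _
    rw [sum_congr rfl (g := fun _ => v t) (fun l hl => by rw [(mem_filter.1 hl).2]), sum_const,
      hw t, smul_eq_mul]
  have e2 : (univ.filter (fun x => col x ≠ β)).card = ∑ t ∈ univ.erase β, v t := by
    rw [card_eq_sum_card_fiberwise (f := col) (t := univ.erase β)
      (fun x hx => mem_erase.2 ⟨(mem_filter.1 hx).2, mem_univ _⟩)]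
    apply sum_congr rfl
    intro t ht
    congr 1
    ext x
    simp only [mem_filter, mem_univ, true_and]
    exact ⟨fun h => h.2, fun h => ⟨h ▸ (mem_erase.1 ht).1, h⟩⟩
  have e3 : m = ∑ t ∈ univ.erase β, u t := by
    rw [hm, ← add_sum_erase univ u (mem_univ β), huβ, zero_add]
  obtain ⟨T, T1, T2⟩ := box u v (univ.erase β) 0 1
  have hβT : β ∉ T := fun h => (mem_erase.1 (T1 h)).1 rfl
  have e4 : ∑ t ∈ T, (u t + v t) = ∑ t ∈ T, a t :=
    sum_congr rfl (fun t ht => huv t (mem_erase.1 (T1 ht)).1)
  have e5 : ∑ t ∈ univ.erase β \ T, (u t + v t) = ∑ t ∈ (insert β T)ᶜ, a t := by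
    apply sum_congr
    · ext t
      simp
    · intro t ht
      exact huv t (fun h => (mem_compl.1 ht) (h ▸ mem_insert_self _ _))
  have h2 := hT T hβT
  rw [e4, e5, zero_add, zero_add, ← e2, ← e3] at T2
  rw [e1] at h1
  obtain ⟨x0, hx0⟩ : (univ.filter (fun x => ∀ l ≤ m, col (P l x) = β)).Nonempty := by
    rw [← card_pos]
    omega
  set X : ℕ → V := fun l => P l x0 with hXd
  have hX : ∀ l ≤ m, col (X l) = β := (mem_filter.1 hx0).2
  have hXs : ∀ l, X (l + 1) = π (w l) (X l) := fun l => rfl
  have hfix : ∀ i j, j ≤ m → ∀ l ∈ Icc i j, π (col (X l)) (X l) = X l := by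
    intro i j hj l hl
    rw [hX l ((mem_Icc.1 hl).2.trans hj), hβ]
    rfl
  have hinj : ∀ j ≤ m, ∀ i < j, X i ≠ X j := by
    intro j
    induction j using Nat.strong_induction_on with
    | _ j ih =>
      intro hj i hij e
      have hI : Set.InjOn X (Ico i j : Finset ℕ) := by
        intro l hl l' hl' h
        rw [mem_coe, mem_Ico] at hl hl'
        rcases lt_trichotomy l l' with h' | h' | h'
        · exact absurd h (ih l' hl'.2 (by omega) l h')
        · exact h'
        · exact absurd h.symm (ih l hl.2 (by omega) l' h')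
      obtain ⟨c, c1, c2⟩ := recolour col X w (Ico i j) hI
      have hsc : Function.Surjective (fun x => π (c x) x) := by
        intro y
        have hy : (∃ l ∈ Ioc i j, X l = y) ∨ ∀ l ∈ Icc i j, X l ≠ y := by
          by_cases h : ∃ l ∈ Icc i j, X l = y
          · obtain ⟨l, hl, rfl⟩ := h
            rw [mem_Icc] at hl
            rcases Nat.eq_or_lt_of_le hl.1 with h' | h'
            · exact Or.inl ⟨j, mem_Ioc.2 ⟨hij, le_rfl⟩, by rw [← e, h']⟩
            · exact Or.inl ⟨l, mem_Ioc.2 ⟨h', hl.2⟩, rfl⟩
          · push Not at h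
            exact Or.inr h
        obtain ⟨x, hx, _⟩ := cover hsurj (hfix i j hj) hXs c1 c2 y hy
        exact ⟨x, hx⟩
      have hle := hmax c (mem_filter.2 ⟨mem_univ _, Finite.injective_iff_surjective.2 hsc, ?_⟩)
      · apply absurd hle
        apply not_le.2
        apply card_lt_card
        refine ⟨fun y hy => mem_filter.2 ⟨mem_univ _, ?_⟩, fun h => ?_⟩
        · have hy' := (mem_filter.1 hy).2
          rw [c2 y (fun l hl h => hy' (h ▸ hX l (by have := (mem_Ico.1 hl).2; omega)))]
          exact hy'
        · have : X i ∈ univ.filter (fun x => c x ≠ β) := mem_filter.2 ⟨mem_univ _, by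
            rw [c1 i (mem_Ico.2 ⟨le_rfl, hij⟩)]; exact hwβ i (by omega)⟩
          exact (mem_filter.1 (h this)).2 (hX i (by omega))
      · intro t ht
        rw [← huv t ht, ← hw t, add_comm]
        refine le_trans (card_le_card (t := univ.filter (fun x => col x = t) ∪
          ((range m).filter (fun l => w l = t)).image X) ?_)
          ((card_union_le _ _).trans (Nat.add_le_add_left card_image_le _))
        intro y hy
        have hy' := (mem_filter.1 hy).2
        by_cases h : ∃ l ∈ Ico i j, X l = y
        · obtain ⟨l, hl, rfl⟩ := h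
          refine mem_union_right _ (mem_image_of_mem _ (mem_filter.2 ⟨mem_range.2 ?_, ?_⟩))
          · have := (mem_Ico.1 hl).2
            omega
          · rw [← c1 l hl, hy']
        · push Not at h
          exact mem_union_left _ (mem_filter.2 ⟨mem_univ _, by rw [← c2 y h, hy']⟩)
  have hI : ∀ l ≤ m, ∀ l' ≤ m, X l = X l' → l = l' := by
    intro l hl l' hl' h
    rcases lt_trichotomy l l' with h' | h' | h'
    · exact absurd h (hinj l' hl' l h')
    · exact h'
    · exact absurd h.symm (hinj l hl l' h')
  obtain ⟨c, c1, c2⟩ := recolour col X w (Ico 0 m) (fun l hl l' hl' h =>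
    hI l (mem_Ico.1 (mem_coe.1 hl)).2.le l' (mem_Ico.1 (mem_coe.1 hl')).2.le h)
  have hcnt : ∀ t, t ≠ β → ((univ.erase (X m)).filter (fun x => c x = t)).card = a t := by
    intro t ht
    have e : (univ.erase (X m)).filter (fun x => c x = t) = univ.filter (fun x => col x = t) ∪
        ((range m).filter (fun l => w l = t)).image X := by
      ext y
      simp only [mem_filter, mem_erase, mem_univ, and_true, true_and, mem_union, mem_image,
        mem_range]
      constructor
      · rintro ⟨_, hy⟩
        by_cases h : ∃ l ∈ Ico 0 m, X l = y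
        · obtain ⟨l, hl, rfl⟩ := h
          exact Or.inr ⟨l, ⟨(mem_Ico.1 hl).2, by rw [← c1 l hl, hy]⟩, rfl⟩
        · push Not at h
          exact Or.inl (by rw [← c2 y h, hy])
      · rintro (hy | ⟨l, ⟨l1, l2⟩, rfl⟩)
        · have : ∀ l ≤ m, X l ≠ y := fun l hl h => ht (by rw [← hy, ← h, hX l hl])
          exact ⟨(this m le_rfl).symm,
            by rw [c2 y (fun l hl => this l (mem_Ico.1 hl).2.le), hy]⟩
        · exact ⟨hinj m le_rfl l l1, by rw [c1 l (mem_Ico.2 ⟨Nat.zero_le _, l1⟩), l2]⟩
    rw [e, card_union_of_disjoint, card_image_of_injOn, hw t, add_comm]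
    · exact huv t ht
    · intro l hl l' hl' h
      exact hI l (mem_range.1 (mem_filter.1 hl).1).le l' (mem_range.1 (mem_filter.1 hl').1).le h
    · rw [disjoint_left]
      intro y hy hy'
      obtain ⟨l, hl, rfl⟩ := mem_image.1 hy'
      exact ht (by rw [← (mem_filter.1 hy).2, hX l (mem_range.1 (mem_filter.1 hl).1).le])
  refine ⟨univ.erase (X m), c, ?_, ?_⟩
  · rw [← card_image_iff]
    apply le_antisymm card_image_le
    rw [card_erase_of_mem (mem_univ _), ← card_erase_of_mem (mem_univ (X 0))]
    apply card_le_card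
    intro y hy
    have hy0 := (mem_erase.1 hy).1
    have hy' : (∃ l ∈ Ioc 0 m, X l = y) ∨ ∀ l ∈ Icc 0 m, X l ≠ y := by
      by_cases h : ∃ l ∈ Icc 0 m, X l = y
      · obtain ⟨l, hl, rfl⟩ := h
        rw [mem_Icc] at hl
        rcases Nat.eq_or_lt_of_le hl.1 with h' | h'
        · exact absurd (by rw [← h']) hy0
        · exact Or.inl ⟨l, mem_Ioc.2 ⟨h', hl.2⟩, rfl⟩
      · push Not at h
        exact Or.inr h
    obtain ⟨x, hx, hx'⟩ := cover hsurj (hfix 0 m le_rfl) hXs c1 c2 y hy'
    refine mem_image.2 ⟨x, mem_erase.2 ⟨?_, mem_univ _⟩, hx⟩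
    rcases hx' with ⟨l, hl, rfl⟩ | h
    · exact hinj m le_rfl l (mem_Ico.1 hl).2
    · exact (h m (mem_Icc.2 ⟨Nat.zero_le _, le_rfl⟩)).symm
  · intro t
    by_cases ht : t = β
    · subst ht
      have e := card_eq_sum_card_fiberwise (f := c) (s := univ.erase (X m)) (t := univ)
        (fun x _ => mem_univ _)
      rw [card_erase_of_mem (mem_univ _), card_univ, ← add_sum_erase univ _ (mem_univ t),
        sum_congr rfl (fun t' ht' => hcnt t' (mem_erase.1 ht').1)] at e
      have : a t + (univ.erase t).sum a = ∑ x, a x := add_sum_erase univ a (mem_univ t)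
      omega
    · exact hcnt t ht

end Pool.Agent.Lib.MP_cc2426_co.Vertex
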