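import Mathlib
import Pool.Agent.Lib.MP_cc2426_co.Vertex

/-! Four colours, two of them wanted exactly once: chains of exchanges over a perfect matching. -/

set_option autoImplicit false
set_option linter.unusedSectionVars false

namespace Pool.Agent.Lib.MP_cc2426_co.Single

open Finset Function

variable {V K : Type*} [Fintype V] [DecidableEq V] [Fintype K] [DecidableEq K]

/-- number of rows with colour `t`. -/
def cnt (c : V → K) (t : K) : ℕ := (univ.filter (fun x => c x = t)).card

/-- number of positions below `m` with letter `t`. -/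
def num (g : ℕ → K) (m : ℕ) (t : K) : ℕ := ((range m).filter (fun l => g l = t)).card

/-- the conclusion. -/
def Sol (π : K → Equiv.Perm V) (a : K → ℕ) : Prop :=
  ∃ S : Finset V, ∃ c : V → K, Set.InjOn (fun x => π (c x) x) (S : Set V) ∧
    ∀ t, (S.filter (fun x => c x = t)).card = a t

theorem num_succ (g : ℕ → K) (m : ℕ) (t : K) :
    num g (m + 1) t = num g m t + if g m = t then 1 else 0 := by
  unfold num
  rw [card_filter, card_filter, sum_range_succ]

theorem num_two (g : ℕ → K) (m : ℕ) (t : K) :
    num g (m + 2) t = (if g 0 = t then 1 else 0) + (if g 1 = t then 1 else 0) +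
      num (fun l => g (l + 2)) m t := by
  unfold num
  rw [card_filter, card_filter, sum_range_succ', sum_range_succ']
  simp only [zero_add, add_assoc, Nat.reduceAdd]
  omega

theorem num_const {g : ℕ → K} {m : ℕ} {s : K} (h : ∀ l < m, g l = s) (t : K) :
    num g m t = if s = t then m else 0 := by
  unfold num
  rw [card_filter, sum_congr rfl (g := fun _ => if s = t then 1 else 0)
    (fun l hl => by rw [h l (mem_range.1 hl)])]
  split_ifs <;> simp

theorem chain {π : K → Equiv.Perm V} {col : V → K} (hi : Injective (fun x => π (col x) x))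
    (X : ℕ → V) (w : ℕ → K) (m : ℕ) (hX : ∀ l < m, ∀ l' < m, X l = X l' → l = l')
    (hX' : ∀ l < m, ∀ l' < m, X (l + 1) = X (l' + 1) → l = l')
    (hw : ∀ l < m, π (w l) (X l) = π (col (X (l + 1))) (X (l + 1))) :
    ∃ c : V → K, (∀ l < m, c (X l) = w l) ∧ (∀ y, (∀ l < m, X l ≠ y) → c y = col y) ∧
      (∀ t, cnt c t + num (fun l => col (X l)) m t = cnt col t + num w m t) ∧
      ∀ x y, (x = X m → ∃ l < m, X l = x) → (y = X m → ∃ l < m, X l = y) →
        π (c x) x = π (c y) y → x = y := by
  have hI : Set.InjOn X (range m : Finset ℕ) := fun l hl l' hl' h =>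
    hX l (mem_range.1 (mem_coe.1 hl)) l' (mem_range.1 (mem_coe.1 hl')) h
  obtain ⟨c, c1, c2⟩ := Vertex.recolour col X w (range m) hI
  have d1 : ∀ l < m, c (X l) = w l := fun l hl => c1 l (mem_range.2 hl)
  have d2 : ∀ y, (∀ l < m, X l ≠ y) → c y = col y :=
    fun y hy => c2 y (fun l hl => hy l (mem_range.1 hl))
  refine ⟨c, d1, d2, ?_, ?_⟩
  · intro t
    have key : ∀ (g : V → K), cnt g t = num (fun l => g (X l)) m t +
        (univ.filter (fun y => (∀ l < m, X l ≠ y) ∧ g y = t)).card := by
      intro g
      unfold cnt num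
      rw [← card_image_of_injOn (f := X) (hI.mono (coe_subset.2 (filter_subset _ _))),
        ← card_union_of_disjoint]
      · congr 1
        ext y
        simp only [mem_filter, mem_univ, true_and, mem_union, mem_image, mem_range]
        constructor
        · intro hy
          by_cases h : ∃ l < m, X l = y
          · obtain ⟨l, hl, rfl⟩ := h
            exact Or.inl ⟨l, ⟨hl, hy⟩, rfl⟩
          · push Not at h
            exact Or.inr ⟨h, hy⟩
        · rintro (⟨l, ⟨_, h⟩, rfl⟩ | h)
          · exact h
          · exact h.2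
      · rw [disjoint_left]
        intro y hy hy'
        obtain ⟨l, hl, rfl⟩ := mem_image.1 hy
        exact (mem_filter.1 hy').2.1 l (mem_range.1 (mem_filter.1 hl).1) rfl
    have e1 : num (fun l => c (X l)) m t = num w m t := by
      unfold num
      congr 1
      exact filter_congr (fun l hl => by simp only [d1 l (mem_range.1 hl)])
    have e2 : univ.filter (fun y => (∀ l < m, X l ≠ y) ∧ c y = t) =
        univ.filter (fun y => (∀ l < m, X l ≠ y) ∧ col y = t) :=
      filter_congr (fun y _ => and_congr_right (fun h => by rw [d2 y h]))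
    rw [key c, key col, e1, e2]
    omega
  · have off : ∀ l < m, ∀ y, (y = X m → ∃ l < m, X l = y) → (∀ l < m, X l ≠ y) →
        X (l + 1) ≠ y := by
      intro l hl y h1 h2 e
      rcases Nat.lt_or_ge (l + 1) m with h | h
      · exact h2 _ h e
      · obtain rfl : m = l + 1 := by omega
        obtain ⟨l', hl', e'⟩ := h1 e.symm
        exact h2 l' hl' e'
    intro x y hx hy e
    by_cases h1 : ∃ l < m, X l = x
    · obtain ⟨l, hl, rfl⟩ := h1
      rw [d1 l hl, hw l hl] at e
      by_cases h2 : ∃ l < m, X l = y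
      · obtain ⟨l', hl', rfl⟩ := h2
        rw [d1 l' hl', hw l' hl'] at e
        rw [hX' l hl l' hl' (hi e)]
      · push Not at h2
        rw [d2 y h2] at e
        exact absurd (hi e) (off l hl y hy h2)
    · push Not at h1
      rw [d2 x h1] at e
      by_cases h2 : ∃ l < m, X l = y
      · obtain ⟨l', hl', rfl⟩ := h2
        rw [d1 l' hl', hw l' hl'] at e
        exact absurd (hi e).symm (off l' hl' x hx h1)
      · push Not at h2
        rw [d2 y h2] at e
        exact hi e

theorem cycle {π : K → Equiv.Perm V} {col : V → K} (hi : Injective (fun x => π (col x) x))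
    (X : ℕ → V) (w : ℕ → K) (m : ℕ) (hm : 0 < m) (hX : ∀ l < m, ∀ l' < m, X l = X l' → l = l')
    (h0 : X m = X 0) (hw : ∀ l < m, π (w l) (X l) = π (col (X (l + 1))) (X (l + 1))) :
    ∃ c : V → K, Injective (fun x => π (c x) x) ∧ (∀ l < m, c (X l) = w l) ∧
      (∀ y, (∀ l < m, X l ≠ y) → c y = col y) ∧
      ∀ t, cnt c t + num (fun l => col (X l)) m t = cnt col t + num w m t := by
  obtain ⟨c, c1, c2, c3, c4⟩ := chain hi X w m hX (by
    intro l hl l' hl' e
    rcases Nat.lt_or_ge (l + 1) m with h | h <;> rcases Nat.lt_or_ge (l' + 1) m with h' | h'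
    · have := hX _ h _ h' e
      omega
    · obtain rfl : m = l' + 1 := by omega
      have := hX _ h 0 hm (e.trans h0)
      omega
    · obtain rfl : m = l + 1 := by omega
      have := hX _ h' 0 hm (e.symm.trans h0)
      omega
    · omega) hw
  exact ⟨c, fun x y e => c4 x y (fun h => ⟨0, hm, by rw [h, h0]⟩) (fun h => ⟨0, hm, by rw [h, h0]⟩) e,
    c1, c2, c3⟩

theorem path {π : K → Equiv.Perm V} {col : V → K} (hi : Injective (fun x => π (col x) x))
    (X : ℕ → V) (w : ℕ → K) (m : ℕ) (hX : ∀ l ≤ m, ∀ l' ≤ m, X l = X l' → l = l')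
    (hw : ∀ l < m, π (w l) (X l) = π (col (X (l + 1))) (X (l + 1))) {α : K} {a : K → ℕ}
    (hs : ∑ t, a t + 1 = Fintype.card V)
    (hc : ∀ t, t ≠ α → cnt col t + num w m t = a t + num (fun l => col (X l)) (m + 1) t) :
    Sol π a := by
  obtain ⟨c, c1, c2, c3, c4⟩ := chain hi X w m (fun l hl l' hl' => hX l hl.le l' hl'.le)
    (fun l hl l' hl' e => by have := hX _ hl _ hl' e; omega) hw
  have hm : c (X m) = col (X m) := c2 _ (fun l hl e => by have := hX l hl.le m le_rfl e; omega)
  have hcnt : ∀ t, t ≠ α → ((univ.erase (X m)).filter (fun x => c x = t)).card = a t := by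
    intro t ht
    have h1 := c3 t
    have h2 := hc t ht
    rw [num_succ] at h2
    rw [filter_erase]
    unfold cnt at h1 h2
    by_cases h : col (X m) = t
    · have h3 := card_erase_add_one (s := univ.filter (fun x => c x = t)) (a := X m)
        (mem_filter.2 ⟨mem_univ _, hm.trans h⟩)
      rw [if_pos h] at h2
      omega
    · have h3 : X m ∉ univ.filter (fun x => c x = t) :=
        fun h' => h (hm.symm.trans (mem_filter.1 h').2)
      rw [erase_eq_of_notMem h3]
      rw [if_neg h] at h2
      omega
  refine ⟨univ.erase (X m), c, fun x hx y hy e => c4 x y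
    (fun h => absurd h (mem_erase.1 (mem_coe.1 hx)).1)
    (fun h => absurd h (mem_erase.1 (mem_coe.1 hy)).1) e, fun t => ?_⟩
  by_cases ht : t = α
  · subst ht
    have e := card_eq_sum_card_fiberwise (f := c) (s := univ.erase (X m)) (t := univ)
      (fun x _ => mem_univ _)
    rw [card_erase_of_mem (mem_univ _), card_univ, ← add_sum_erase univ _ (mem_univ t),
      sum_congr rfl (fun t' ht' => hcnt t' (mem_erase.1 ht').1)] at e
    have : a t + (univ.erase t).sum a = ∑ x, a x := add_sum_erase univ a (mem_univ t)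
    omega
  · exact hcnt t ht

/-- a perfect matching within the budget that uses the base colour as little as possible. -/
structure Best (π : K → Equiv.Perm V) (α : K) (a : K → ℕ) (col : V → K) : Prop where
  inj : Injective (fun x => π (col x) x)
  le : ∀ t, t ≠ α → cnt col t ≤ a t
  min : ∀ c : V → K, Injective (fun x => π (c x) x) → (∀ t, t ≠ α → cnt c t ≤ a t) →
    cnt col α ≤ cnt c α

theorem exists_best (π : K → Equiv.Perm V) (α : K) (a : K → ℕ) : ∃ col, Best π α a col := by
  classical
  obtain ⟨col, hc, hmin⟩ := exists_min_image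
    (univ.filter (fun c : V → K => Injective (fun x => π (c x) x) ∧ ∀ t, t ≠ α → cnt c t ≤ a t))
    (fun c => cnt c α)
    ⟨fun _ => α, mem_filter.2 ⟨mem_univ _, (π α).injective, fun t ht => by simp [cnt, ht.symm]⟩⟩
  exact ⟨col, (mem_filter.1 hc).2.1, (mem_filter.1 hc).2.2,
    fun c h1 h2 => hmin c (mem_filter.2 ⟨mem_univ _, h1, h2⟩)⟩

theorem num_shift (g : ℕ → K) (t : K) {i j m : ℕ} (h : i + j ≤ m) :
    num (fun l => g (i + l)) j t ≤ num g m t := by
  unfold num
  apply card_le_card_of_injOn (fun l => i + l)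
  · intro l hl
    rw [mem_coe, mem_filter, mem_range] at hl ⊢
    exact ⟨show i + l < m by omega, hl.2⟩
  · intro l _ l' _ e
    exact Nat.add_left_cancel e

/-- a walk in the base-coloured part with the missing letters gives a solution. -/
theorem finish {π : K → Equiv.Perm V} {α : K} (hα : π α = 1) {a : K → ℕ} {col : V → K}
    (hb : Best π α a col) (hs : ∑ t, a t + 1 = Fintype.card V) (X : ℕ → V) (w : ℕ → K) (m : ℕ)
    (hX : ∀ l ≤ m, col (X l) = α) (hw : ∀ l < m, X (l + 1) = π (w l) (X l))
    (hwα : ∀ l < m, w l ≠ α) (hc : ∀ t, t ≠ α → cnt col t + num w m t = a t) : Sol π a := by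
  have hw' : ∀ l < m, π (w l) (X l) = π (col (X (l + 1))) (X (l + 1)) := by
    intro l hl
    rw [hX (l + 1) hl, hα, hw l hl]
    rfl
  have hinj : ∀ j ≤ m, ∀ i < j, X i ≠ X j := by
    intro j
    induction j using Nat.strong_induction_on with
    | _ j ih =>
      intro hj i hij e
      obtain ⟨c, c0, _, _, c3⟩ := cycle hb.inj (fun l => X (i + l)) (fun l => w (i + l)) (j - i)
        (by omega) (by
          intro l hl l' hl' h
          rcases lt_trichotomy l l' with h' | h' | h'
          · exact absurd h (ih (i + l') (by omega) (by omega) (i + l) (by omega))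
          · exact h'
          · exact absurd h.symm (ih (i + l) (by omega) (by omega) (i + l') (by omega)))
        (by rw [show i + (j - i) = j by omega]; exact e.symm)
        (fun l hl => hw' (i + l) (by omega))
      have h1 : ∀ t, num (fun l => col (X (i + l))) (j - i) t = if α = t then j - i else 0 :=
        num_const (fun l hl => hX _ (by omega))
      have h2 := hb.min c c0 (fun t ht => by
        have := c3 t
        rw [h1, if_neg ht.symm] at this
        have := hc t ht
        have := num_shift w t (i := i) (j := j - i) (m := m) (by omega)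
        omega)
      have h3 := c3 α
      rw [h1, if_pos rfl] at h3
      have h4 : num (fun l => w (i + l)) (j - i) α = 0 := by
        unfold num
        rw [card_eq_zero, filter_eq_empty_iff]
        exact fun l hl => hwα _ (by have := mem_range.1 hl; omega)
      omega
  refine path hb.inj X w m ?_ hw' (α := α) hs ?_
  · intro l hl l' hl' h
    rcases lt_trichotomy l l' with h' | h' | h'
    · exact absurd h (hinj l' hl' l h')
    · exact h'
    · exact absurd h.symm (hinj l hl l' h')
  · intro t ht
    rw [num_const (s := α) (fun l hl => hX l (by omega)), if_neg ht.symm, add_zero, hc t ht]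

/-- the counting bound. -/
theorem counted {π : K → Equiv.Perm V} {α : K} (hα : π α = 1) {a : K → ℕ} {col : V → K}
    (hb : Best π α a col) (hs : ∑ t, a t + 1 = Fintype.card V)
    (h : (∑ t ∈ univ.erase α, cnt col t) * (1 + ∑ t ∈ univ.erase α, (a t - cnt col t)) <
      Fintype.card V + ∑ t ∈ univ.erase α, (a t - cnt col t) * cnt col t) : Sol π a := by
  have : Nonempty K := ⟨α⟩
  set u : K → ℕ := fun t => if t = α then 0 else a t - cnt col t with hud
  have hu : ∀ t ∈ univ.erase α, u t = a t - cnt col t :=
    fun t ht => if_neg (mem_erase.1 ht).1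
  have huα : u α = 0 := by simp [hud]
  obtain ⟨w, hw⟩ := Vertex.word (∑ t, u t) u rfl
  set m := ∑ t, u t with hm
  have hwα : ∀ l < m, w l ≠ α := by
    intro l hl h
    have := hw α
    rw [huα, card_eq_zero, filter_eq_empty_iff] at this
    exact this (mem_range.2 hl) h
  let P : ℕ → Equiv.Perm V := fun l => Nat.rec 1 (fun l p => π (w l) * p) l
  have hP : ∀ l, P (l + 1) = π (w l) * P l := fun _ => rfl
  have h1 := Vertex.start hα hb.inj w P hP m hwα
  have e1 : ∑ l ∈ range m, (univ.filter (fun x => col x = w l)).card =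
      ∑ t ∈ univ.erase α, (a t - cnt col t) * cnt col t := by
    rw [← sum_fiberwise_of_maps_to (g := w) (t := univ.erase α)
      (fun l hl => mem_erase.2 ⟨hwα l (mem_range.1 hl), mem_univ _⟩)]
    apply sum_congr rfl
    intro t ht
    rw [sum_congr rfl (g := fun _ => cnt col t) (fun l hl => by rw [(mem_filter.1 hl).2]; rfl),
      sum_const, hw t, smul_eq_mul, hu t ht]
  have e2 : (univ.filter (fun x => col x ≠ α)).card = ∑ t ∈ univ.erase α, cnt col t := by
    rw [card_eq_sum_card_fiberwise (f := col) (t := univ.erase α)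
      (fun x hx => mem_erase.2 ⟨(mem_filter.1 hx).2, mem_univ _⟩)]
    apply sum_congr rfl
    intro t ht
    unfold cnt
    congr 1
    ext x
    simp only [mem_filter, mem_univ, true_and]
    exact ⟨fun h => h.2, fun h => ⟨h ▸ (mem_erase.1 ht).1, h⟩⟩
  have e3 : m = ∑ t ∈ univ.erase α, (a t - cnt col t) := by
    rw [hm, ← add_sum_erase univ u (mem_univ α), huα, zero_add]
    exact sum_congr rfl hu
  rw [e1, e2] at h1
  rw [← e3] at h
  obtain ⟨x0, hx0⟩ : (univ.filter (fun x => ∀ l ≤ m, col (P l x) = α)).Nonempty := by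
    rw [← card_pos]
    omega
  refine finish hα hb hs (fun l => P l x0) w m (mem_filter.1 hx0).2 (fun l _ => rfl) hwα ?_
  intro t ht
  have h2 := hw t
  have h3 := hb.le t ht
  rw [hu t (mem_erase.2 ⟨ht, mem_univ _⟩)] at h2
  unfold num
  omega

/-- four distinct colours, base colour acting as the identity. -/
structure Four (π : K → Equiv.Perm V) (α β γ δ : K) (a : K → ℕ) : Prop where
  all : ∀ t, t = α ∨ t = β ∨ t = γ ∨ t = δ
  ab : α ≠ β
  ac : α ≠ γ
  ad : α ≠ δ
  bc : β ≠ γ
  bd : β ≠ δ
  cd : γ ≠ δ
  one : π α = 1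
  s1 : ∀ x, π β x ≠ x
  s2 : ∀ x, π γ x ≠ π β x
  a3 : a γ = 1
  a4 : a δ = 1
  le : a β ≤ a α
  sum : ∑ t, a t + 1 = Fintype.card V

variable {π : K → Equiv.Perm V} {α β γ δ : K} {a : K → ℕ}

theorem Four.erase (H : Four π α β γ δ a) (f : K → ℕ) :
    ∑ t ∈ univ.erase α, f t = f β + f γ + f δ := by
  have e : univ.erase α = {β, γ, δ} := by
    ext t
    simp only [mem_erase, mem_univ, and_true, mem_insert, mem_singleton]
    constructor
    · intro h
      exact (H.all t).resolve_left h
    · rintro (rfl | rfl | rfl)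
      · exact H.ab.symm
      · exact H.ac.symm
      · exact H.ad.symm
  rw [e, sum_insert (by simp [H.bc, H.bd]), sum_insert (by simp [H.cd]), sum_singleton, add_assoc]

theorem Four.total (H : Four π α β γ δ a) (c : V → K) :
    cnt c α + cnt c β + cnt c γ + cnt c δ = Fintype.card V := by
  have e := card_eq_sum_card_fiberwise (f := c) (s := univ) (t := univ) (fun x _ => mem_univ _)
  rw [card_univ, ← add_sum_erase univ _ (mem_univ α), H.erase] at e
  unfold cnt
  omega

theorem Four.card (H : Four π α β γ δ a) : a α + a β + 3 = Fintype.card V := by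
  have h1 := H.sum
  rw [← add_sum_erase univ _ (mem_univ α), H.erase, H.a3, H.a4] at h1
  omega

theorem Four.cases (H : Four π α β γ δ a) {P : K → Prop} (h2 : P β) (h3 : P γ) (h4 : P δ) :
    ∀ t, t ≠ α → P t := by
  intro t ht
  rcases (H.all t).resolve_left ht with rfl | rfl | rfl
  · exact h2
  · exact h3
  · exact h4

theorem Four.closed (H : Four π α β γ δ a) {col : V → K}
    (hi : Injective (fun x => π (col x) x)) (hp : ∀ x, col x = α ∨ col x = β) {x : V}
    (hx : col x = α) (l : ℕ) : col ((π β)^[l] x) = α := by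
  induction l with
  | zero => exact hx
  | succ l ih =>
    rw [iterate_succ_apply']
    obtain ⟨y, hy⟩ := Finite.surjective_of_injective hi (π β ((π β)^[l] x))
    rcases hp y with h | h
    · simp only [h, H.one] at hy
      rw [← hy]
      exact h
    · simp only [h] at hy
      rw [(π β).injective hy, ih] at h
      exact absurd h H.ab

/-- the walk `xa, xb, xc, p xc, p p xc, ...`. -/
def wk (p : V → V) (xa xb xc : V) : ℕ → V
  | 0 => xa
  | 1 => xb
  | l + 2 => p^[l] xc

/-- the word `s, s', b, b, ...`. -/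
def wd (s s' b : K) : ℕ → K
  | 0 => s
  | 1 => s'
  | _ + 2 => b

theorem num_wd (s s' b : K) (r : ℕ) (t : K) : num (wd s s' b) (r + 2) t =
    (if s = t then 1 else 0) + (if s' = t then 1 else 0) + if b = t then r else 0 := by
  rw [num_two, num_const (g := fun l => wd s s' b (l + 2)) (s := b) (fun _ _ => rfl)]
  rfl

theorem wk_inj {p : V → V} {xa xb xc : V} {r : ℕ} (h1 : xa ≠ xb) (h2 : ∀ l < r, p^[l] xc ≠ xa)
    (h3 : ∀ l < r, p^[l] xc ≠ xb) (h4 : r ≤ minimalPeriod p xc) :
    ∀ l < r + 2, ∀ l' < r + 2, wk p xa xb xc l = wk p xa xb xc l' → l = l' := by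
  intro l hl l' hl' e
  match l, l', hl, hl', e with
  | 0, 0, _, _, _ => rfl
  | 0, 1, _, _, e => exact absurd e h1
  | 0, l' + 2, _, hl', e => exact absurd e.symm (h2 l' (by omega))
  | 1, 0, _, _, e => exact absurd e.symm h1
  | 1, 1, _, _, _ => rfl
  | 1, l' + 2, _, hl', e => exact absurd e.symm (h3 l' (by omega))
  | l + 2, 0, hl, _, e => exact absurd e (h2 l (by omega))
  | l + 2, 1, hl, _, e => exact absurd e (h3 l (by omega))
  | l + 2, l' + 2, hl, hl', e =>
    have := iterate_injOn_Iio_minimalPeriod (f := p) (x := xc)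
      (show l < _ by omega) (show l' < _ by omega) e
    omega

theorem Four.steps (H : Four π α β γ δ a) {col : V → K}
    (hi : Injective (fun x => π (col x) x)) (hp : ∀ x, col x = α ∨ col x = β) {xa xb xc : V}
    (hb : col xb = β) (hc : col xc = α) (e1 : π γ xa = π β xb) (e2 : π δ xb = xc) (l : ℕ) :
    π (wd γ δ β l) (wk (π β) xa xb xc l) =
      π (col (wk (π β) xa xb xc (l + 1))) (wk (π β) xa xb xc (l + 1)) := by
  match l with
  | 0 =>
    show π γ xa = π (col xb) xb
    rw [hb, e1]
  | 1 =>
    show π δ xb = π (col xc) xc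
    rw [hc, H.one, e2]
    rfl
  | l + 2 =>
    show π β ((π β)^[l] xc) = π (col ((π β)^[l + 1] xc)) ((π β)^[l + 1] xc)
    rw [H.closed hi hp hc, H.one, iterate_succ_apply']
    rfl

theorem Four.numcol (H : Four π α β γ δ a) {col : V → K}
    (hi : Injective (fun x => π (col x) x)) (hp : ∀ x, col x = α ∨ col x = β) {xa xb xc : V}
    (hb : col xb = β) (hc : col xc = α) (r : ℕ) (t : K) :
    num (fun l => col (wk (π β) xa xb xc l)) (r + 2) t =
      (if col xa = t then 1 else 0) + (if β = t then 1 else 0) + if α = t then r else 0 := by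
  rw [num_two, num_const (g := fun l => col (wk (π β) xa xb xc (l + 2))) (s := α)
    (fun l _ => H.closed hi hp hc l)]
  show (if col xa = t then 1 else 0) + (if col xb = t then 1 else 0) + _ = _
  rw [hb]

theorem cnt_zero {col : V → K} {t : K} (h : ∀ x, col x ≠ t) : cnt col t = 0 := by
  unfold cnt
  rw [card_eq_zero, filter_eq_empty_iff]
  exact fun x _ => h x

/-- enter through the part coloured `β` and pay with a longer run. -/
theorem Four.absorb (H : Four π α β γ δ a) {col : V → K}
    (hi : Injective (fun x => π (col x) x)) (hp : ∀ x, col x = α ∨ col x = β) {xa xb xc : V}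
    (hb : col xb = β) (hc : col xc = α) (e1 : π γ xa = π β xb) (e2 : π δ xb = xc) {r : ℕ}
    (hr : r < minimalPeriod (π β) xc) (hn : col xa = α → ∀ l ≤ r, (π β)^[l] xc ≠ xa)
    (hv : cnt col β + r = a β + 1 + if col xa = β then 1 else 0) : Sol π a := by
  have h3 : cnt col γ = 0 := cnt_zero (fun x h => by
    rcases hp x with h' | h'
    · exact H.ac (h'.symm.trans h)
    · exact H.bc (h'.symm.trans h))
  have h4 : cnt col δ = 0 := cnt_zero (fun x h => by
    rcases hp x with h' | h'
    · exact H.ad (h'.symm.trans h)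
    · exact H.bd (h'.symm.trans h))
  have n3 : col xa ≠ γ := fun h => by
    rcases hp xa with h' | h'
    · exact H.ac (h'.symm.trans h)
    · exact H.bc (h'.symm.trans h)
  have n4 : col xa ≠ δ := fun h => by
    rcases hp xa with h' | h'
    · exact H.ad (h'.symm.trans h)
    · exact H.bd (h'.symm.trans h)
  refine path hi (wk (π β) xa xb xc) (wd γ δ β) (r + 2) ?_
    (fun l _ => H.steps hi hp hb hc e1 e2 l) (α := α) H.sum ?_
  · intro l hl l' hl'
    refine wk_inj (r := r + 1) (fun h => H.s2 xb (by rw [← e1, h])) ?_ ?_ hr l (by omega) l'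
      (by omega)
    · intro l hl e
      rcases hp xa with h | h
      · exact hn h l (by omega) e
      · exact H.ab (by rw [← H.closed hi hp hc l, e, h])
    · intro l _ e
      exact H.ab (by rw [← H.closed hi hp hc l, e, hb])
  · refine H.cases ?_ ?_ ?_
    · rw [num_wd, show r + 2 + 1 = r + 1 + 2 from rfl, H.numcol hi hp hb hc, if_neg H.bc.symm,
        if_neg H.bd.symm, if_pos rfl, if_pos rfl, if_neg H.ab]
      omega
    · rw [num_wd, show r + 2 + 1 = r + 1 + 2 from rfl, H.numcol hi hp hb hc, if_pos rfl,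
        if_neg H.cd.symm, if_neg H.bc, if_neg n3, if_neg H.bc, if_neg H.ac, h3, H.a3]
    · rw [num_wd, show r + 2 + 1 = r + 1 + 2 from rfl, H.numcol hi hp hb hc, if_neg H.cd,
        if_pos rfl, if_neg H.bd, if_neg n4, if_neg H.bd, if_neg H.ad, h4, H.a4]

/-- the run does not come back to the first row. -/
theorem Four.noreturn (H : Four π α β γ δ a) {col : V → K} (hb' : Best π α a col)
    (hp : ∀ x, col x = α ∨ col x = β) (h3 : cnt col γ = 0) (h4 : cnt col δ = 0) {xa xb xc : V}
    (ha : col xa = α) (hb : col xb = β) (hc : col xc = α) (e1 : π γ xa = π β xb)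
    (e2 : π δ xb = xc) {j : ℕ} (hj : j < minimalPeriod (π β) xc)
    (hv : cnt col β + j ≤ a β + 1) : (π β)^[j] xc ≠ xa := by
  intro e
  have hi := hb'.inj
  obtain ⟨c, c0, _, _, c3⟩ := cycle hi (wk (π β) xa xb xc) (wd γ δ β) (j + 2) (by omega)
    (wk_inj (fun h => H.ab (by rw [← ha, h, hb]))
      (fun l hl e' => by
        have := iterate_injOn_Iio_minimalPeriod (f := π β) (x := xc)
          (show l < _ by omega) hj (e'.trans e.symm)
        omega)
      (fun l _ e' => H.ab (by rw [← H.closed hi hp hc l, e', hb])) hj.le)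
    e (fun l _ => H.steps hi hp hb hc e1 e2 l)
  have h1 := hb'.min c c0 (by
    refine H.cases ?_ ?_ ?_
    · have := c3 β
      rw [num_wd, H.numcol hi hp hb hc, ha, if_neg H.ab, if_pos rfl, if_neg H.ab,
        if_neg H.bc.symm, if_neg H.bd.symm, if_pos rfl] at this
      omega
    · have := c3 γ
      rw [num_wd, if_pos rfl, if_neg H.cd.symm, if_neg H.bc, h3] at this
      have := H.a3
      omega
    · have := c3 δ
      rw [num_wd, if_neg H.cd, if_pos rfl, if_neg H.bd, h4] at this
      have := H.a4
      omega)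
  have h2 := c3 α
  rw [num_wd, H.numcol hi hp hb hc, ha, if_pos rfl, if_neg H.ac.symm, if_neg H.ad.symm,
    if_neg H.ab.symm, if_neg H.ab.symm] at h2
  omega

theorem Four.pure (H : Four π α β γ δ a) {col : V → K} (hb' : Best π α a col)
    (h3 : cnt col γ = 0) (h4 : cnt col δ = 0) : Sol π a := by
  have hi := hb'.inj
  have hp : ∀ x, col x = α ∨ col x = β := by
    intro x
    unfold cnt at h3 h4
    rw [card_eq_zero, filter_eq_empty_iff] at h3 h4
    rcases H.all (col x) with h | h | h | h
    · exact Or.inl h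
    · exact Or.inr h
    · exact absurd h (h3 (mem_univ x))
    · exact absurd h (h4 (mem_univ x))
  have hle := hb'.le β H.ab.symm
  obtain ⟨u, hu⟩ : ∃ u, cnt col β + u = a β := ⟨a β - cnt col β, by omega⟩
  by_cases easy : ∃ x, col x = α ∧ col ((π δ).symm x) = α ∧ col (π γ x) = α
  · obtain ⟨x, x1, x2, x3⟩ := easy
    refine finish H.one hb' H.sum (wk (π β) ((π δ).symm x) x (π γ x)) (wd δ γ β) (u + 2) ?_ ?_ ?_ ?_
    · intro l _
      match l with
      | 0 => exact x2
      | 1 => exact x1
      | l + 2 => exact H.closed hi hp x3 l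
    · intro l _
      match l with
      | 0 => exact ((π δ).apply_symm_apply x).symm
      | 1 => rfl
      | l + 2 => exact iterate_succ_apply' _ _ _
    · intro l _
      match l with
      | 0 => exact H.ad.symm
      | 1 => exact H.ac.symm
      | l + 2 => exact H.ab.symm
    · refine H.cases ?_ ?_ ?_
      · rw [num_wd, if_neg H.bd.symm, if_neg H.bc.symm, if_pos rfl]
        omega
      · rw [num_wd, if_neg H.cd.symm, if_pos rfl, if_neg H.bc, h3, H.a3]
      · rw [num_wd, if_pos rfl, if_neg H.cd, if_neg H.bd, h4, H.a4]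
  set Z := univ.filter (fun x => col x = α ∧ col ((π δ).symm x) = β) with hZ
  have hZc : 2 * u + 3 ≤ Z.card := by
    have b1 : (univ.filter (fun x => col x = α) \ Z).card ≤ cnt col β := by
      apply card_le_card_of_injOn (fun x => π γ x)
      · intro x hx
        rw [mem_coe, mem_sdiff] at hx
        have x1 := (mem_filter.1 hx.1).2
        refine mem_coe.2 (mem_filter.2 ⟨mem_univ _, ?_⟩)
        rcases hp (π γ x) with h | h
        · rcases hp ((π δ).symm x) with h' | h'
          · exact absurd ⟨x, x1, h', h⟩ easy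
          · exact absurd (mem_filter.2 ⟨mem_univ _, x1, h'⟩) hx.2
        · exact h
      · exact (π γ).injective.injOn
    have b2 := le_card_sdiff Z (univ.filter (fun x => col x = α))
    have b3 := H.total col
    have b4 := H.card
    have b5 := H.le
    unfold cnt at *
    omega
  obtain ⟨xc, hxc, hmax⟩ := exists_max_image Z (fun x => minimalPeriod (π β) x)
    (by rw [← card_pos]; omega)
  obtain ⟨hc, hb⟩ := (mem_filter.1 hxc).2
  set xb := (π δ).symm xc with hxb
  set xa := (π γ).symm (π β xb) with hxa
  have e1 : π γ xa = π β xb := (π γ).apply_symm_apply _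
  have e2 : π δ xb = xc := (π δ).apply_symm_apply _
  have pos : ∀ x, 0 < minimalPeriod (π β) x := fun x =>
    minimalPeriod_pos_of_mem_periodicPts ((π β).injective.mem_periodicPts x)
  by_cases long : u + 1 + (if col xa = β then 1 else 0) < minimalPeriod (π β) xc
  · refine H.absorb hi hp hb hc e1 e2 long (fun ha l hl => ?_) (by omega)
    rw [if_neg (fun h => H.ab (ha.symm.trans h))] at hl long
    exact H.noreturn hb' hp h3 h4 ha hb hc e1 e2 (by omega) (by omega)
  have short : minimalPeriod (π β) xc ≤ u + 2 := by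
    split_ifs at long <;> omega
  obtain ⟨z, hz, hz'⟩ := exists_mem_notMem_of_card_lt_card (t := Z)
    (s := (range (minimalPeriod (π β) xc)).image (fun l => (π β)^[l] xc))
    (lt_of_le_of_lt card_image_le (by rw [card_range]; omega))
  have hzα := (mem_filter.1 hz).2.1
  have hl1 := hmax z hz
  obtain ⟨c, c0, c1, c2, c3⟩ := cycle hi (fun l => (π β)^[l] z) (fun _ => β)
    (minimalPeriod (π β) z) (pos z)
    (fun l hl l' hl' e => iterate_injOn_Iio_minimalPeriod (f := π β) (x := z) hl hl' e)
    iterate_minimalPeriod (fun l _ => by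
      rw [H.closed hi hp hzα, H.one, iterate_succ_apply']
      rfl)
  have d1 : ∀ t, num (fun l => col ((π β)^[l] z)) (minimalPeriod (π β) z) t =
      if α = t then minimalPeriod (π β) z else 0 := num_const (fun l _ => H.closed hi hp hzα l)
  have d2 : ∀ t, num (fun _ => β) (minimalPeriod (π β) z) t =
      if β = t then minimalPeriod (π β) z else 0 := num_const (fun _ _ => rfl)
  have v1 := c3 α
  have v2 := c3 β
  have v3 := c3 γ
  have v4 := c3 δ
  rw [d1, d2, if_pos rfl, if_neg H.ab.symm] at v1
  rw [d1, d2, if_neg H.ab, if_pos rfl] at v2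
  rw [d1, d2, if_neg H.ac, if_neg H.bc] at v3
  rw [d1, d2, if_neg H.ad, if_neg H.bd] at v4
  have big : u < minimalPeriod (π β) z := by
    by_contra h
    have := hb'.min c c0 (H.cases (by omega) (by omega) (by omega))
    have := pos z
    omega
  have keep : ∀ y, col y = β → c y = β := fun y hy =>
    (c2 y (fun l _ e => H.ab (by rw [← H.closed hi hp hzα l, e, hy]))).trans hy
  have hp' : ∀ x, c x = α ∨ c x = β := by
    intro x
    by_cases h : ∃ l < minimalPeriod (π β) z, (π β)^[l] z = x
    · obtain ⟨l, hl, rfl⟩ := h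
      exact Or.inr (c1 l hl)
    · push Not at h
      rw [c2 x h]
      exact hp x
  have hc' : c xc = α := by
    refine (c2 xc (fun l hl e => hz' (mem_image.2
      ⟨(minimalPeriod (π β) z - l) % minimalPeriod (π β) xc,
        mem_range.2 (Nat.mod_lt _ (pos xc)), ?_⟩))).trans hc
    rw [iterate_mod_minimalPeriod_eq, ← e, ← iterate_add_apply, Nat.sub_add_cancel hl.le]
    exact iterate_minimalPeriod
  have two : 1 < minimalPeriod (π β) xc := by
    have h1 := pos xc
    have h2 : minimalPeriod (π β) xc ≠ 1 :=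
      fun h => H.s1 xc (minimalPeriod_eq_one_iff_isFixedPt.1 h)
    omega
  by_cases ha : c xa = β
  · refine H.absorb c0 hp' (keep _ hb) hc' e1 e2 (r := u + 2 - minimalPeriod (π β) z)
      (by omega) (fun h => absurd (h.symm.trans ha) H.ab) ?_
    rw [if_pos ha]
    omega
  · have ha' : col xa = α := (hp xa).resolve_right (fun h => ha (keep _ h))
    rw [if_neg (fun h => H.ab (ha'.symm.trans h))] at long
    refine H.absorb c0 hp' (keep _ hb) hc' e1 e2 (r := 0) (by omega) (fun _ l hl => ?_) ?_
    · exact H.noreturn hb' hp h3 h4 ha' hb hc e1 e2 (by omega) (by omega)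
    · rw [if_neg ha]
      omega

theorem Four.main (H : Four π α β γ δ a) : Sol π a := by
  obtain ⟨col, hb⟩ := exists_best π α a
  have h2 := hb.le β H.ab.symm
  have h3 := hb.le γ H.ac.symm
  have h4 := hb.le δ H.ad.symm
  have b4 := H.card
  have b5 := H.le
  rw [H.a3] at h3
  rw [H.a4] at h4
  by_cases h : cnt col γ = 0 ∧ cnt col δ = 0
  · exact H.pure hb h.1 h.2
  apply counted H.one hb H.sum
  rw [H.erase, H.erase, H.erase, H.a3, H.a4]
  obtain ⟨u, hu⟩ : ∃ u, a β = cnt col β + u := ⟨a β - cnt col β, by omega⟩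
  rw [show a β - cnt col β = u by omega]
  have : (cnt col γ = 1 ∧ cnt col δ = 1) ∨ (cnt col γ = 1 ∧ cnt col δ = 0) ∨
      (cnt col γ = 0 ∧ cnt col δ = 1) := by omega
  rcases this with ⟨e, e'⟩ | ⟨e, e'⟩ | ⟨e, e'⟩ <;> rw [e, e'] <;> norm_num <;> nlinarith

end Pool.Agent.Lib.MP_cc2426_co.Single
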