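import Mathlib
import Pool.Agent.Lib.MP_cc2426_co.Single

/-! Two colours whose union has only short cycles, few edges wanted from the other colours. -/

set_option autoImplicit false
set_option linter.unusedSectionVars false

namespace Pool.Agent.Lib.MP_cc2426_co.Short

open Finset Function Single

variable {V K : Type*} [Fintype V] [DecidableEq V] [Fintype K] [DecidableEq K]

/-- the cycle of `x`. -/
noncomputable def orb (p : Equiv.Perm V) (x : V) : Finset V :=
  (range (minimalPeriod p x)).image (fun l => p^[l] x)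

variable {p : Equiv.Perm V}

theorem per_pos (p : Equiv.Perm V) (x : V) : 0 < minimalPeriod p x :=
  minimalPeriod_pos_of_mem_periodicPts (p.injective.mem_periodicPts x)

theorem mem_orb {x y : V} : y ∈ orb p x ↔ ∃ l, p^[l] x = y := by
  unfold orb
  rw [mem_image]
  exact ⟨fun ⟨l, _, h⟩ => ⟨l, h⟩, fun ⟨l, h⟩ => ⟨l % minimalPeriod p x,
    mem_range.2 (Nat.mod_lt _ (per_pos p x)), by rw [iterate_mod_minimalPeriod_eq, h]⟩⟩

theorem card_orb (p : Equiv.Perm V) (x : V) : (orb p x).card = minimalPeriod p x := by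
  unfold orb
  rw [card_image_of_injOn, card_range]
  intro l hl l' hl' h
  exact iterate_injOn_Iio_minimalPeriod (f := p) (x := x) (mem_range.1 (mem_coe.1 hl))
    (mem_range.1 (mem_coe.1 hl')) h

theorem self_orb (x : V) : x ∈ orb p x := mem_orb.2 ⟨0, rfl⟩

theorem orb_symm {x y : V} (h : y ∈ orb p x) : x ∈ orb p y := by
  obtain ⟨l, hl, rfl⟩ := mem_image.1 h
  refine mem_orb.2 ⟨minimalPeriod p x - l, ?_⟩
  rw [← iterate_add_apply, Nat.sub_add_cancel (mem_range.1 hl).le]
  exact iterate_minimalPeriod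

theorem orb_trans {x y z : V} (h : y ∈ orb p x) (h' : z ∈ orb p y) : z ∈ orb p x := by
  obtain ⟨l, rfl⟩ := mem_orb.1 h
  obtain ⟨l', rfl⟩ := mem_orb.1 h'
  exact mem_orb.2 ⟨l' + l, iterate_add_apply _ _ _ _⟩

theorem step_orb (x : V) : p x ∈ orb p x := mem_orb.2 ⟨1, rfl⟩

theorem per_eq {x y : V} (h : y ∈ orb p x) : minimalPeriod p y = minimalPeriod p x := by
  obtain ⟨l, rfl⟩ := mem_orb.1 h
  exact minimalPeriod_apply_iterate (p.injective.mem_periodicPts x) l

theorem orb_sub {W : Finset V} (hW : ∀ x ∈ W, p x ∈ W) {x : V} (hx : x ∈ W) : orb p x ⊆ W := by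
  intro y hy
  obtain ⟨l, rfl⟩ := mem_orb.1 hy
  clear hy
  induction l with
  | zero => exact hx
  | succ l ih => rw [iterate_succ_apply']; exact hW _ ih

/-- whole cycles fill a budget up to less than `c`. -/
theorem alloc (c : ℕ) (N : ℕ) : ∀ W : Finset V, W.card ≤ N → (∀ x ∈ W, p x ∈ W) →
    (∀ x ∈ W, minimalPeriod p x ≤ c ∨
      minimalPeriod p x ≤ c + (W.filter (fun y => minimalPeriod p y ≤ c)).card) →
    ∀ b, b < W.card + c → ∃ U ⊆ W, (∀ x ∈ U, p x ∈ U) ∧ U.card ≤ b ∧ b < U.card + c := by
  induction N with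
  | zero =>
    intro W h _ _ b hb
    exact ⟨∅, empty_subset _, by simp, by simp, by simp; omega⟩
  | succ N ih =>
    intro W h hW hI b hb
    by_cases hbc : b < c
    · exact ⟨∅, empty_subset _, by simp, by simp, by simpa using hbc⟩
    obtain ⟨x, hx, hmax⟩ := exists_max_image W (fun y => minimalPeriod p y)
      (by rw [← card_pos]; omega)
    have hD := orb_sub hW hx
    have h1 := card_sdiff_add_card_eq_card hD
    have h2 := per_pos p x
    rw [card_orb] at h1
    have hcl : ∀ y ∈ W \ orb p x, p y ∈ W \ orb p x := by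
      intro y hy
      rw [mem_sdiff] at hy ⊢
      exact ⟨hW y hy.1, fun h' => hy.2 (orb_trans h' (orb_symm (step_orb y)))⟩
    have hf : c < minimalPeriod p x → W.filter (fun y => minimalPeriod p y ≤ c) ⊆
        (W \ orb p x).filter (fun y => minimalPeriod p y ≤ c) := by
      intro hc y hy
      rw [mem_filter] at hy ⊢
      refine ⟨mem_sdiff.2 ⟨hy.1, fun h' => ?_⟩, hy.2⟩
      have := per_eq h'
      omega
    have key : minimalPeriod p x ≤ c + (W \ orb p x).card := by
      rcases Nat.lt_or_ge c (minimalPeriod p x) with hc | hc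
      · have h3 := card_le_card ((hf hc).trans (filter_subset _ _))
        have h4 := hI x hx
        omega
      · omega
    have IH := ih (W \ orb p x) (by omega) hcl (by
      intro y hy
      have h3 := hmax y (mem_sdiff.1 hy).1
      rcases Nat.lt_or_ge c (minimalPeriod p x) with hc | hc
      · have h4 := card_le_card (hf hc)
        have h5 := hI y (mem_sdiff.1 hy).1
        omega
      · omega)
    rcases Nat.lt_or_ge b (minimalPeriod p x) with hb' | hb'
    · obtain ⟨U, u1, u2, u3, u4⟩ := IH b (by omega)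
      exact ⟨U, u1.trans sdiff_subset, u2, u3, u4⟩
    · obtain ⟨U, u1, u2, u3, u4⟩ := IH (b - minimalPeriod p x) (by omega)
      have h5 : (U ∪ orb p x).card = U.card + minimalPeriod p x := by
        rw [card_union_of_disjoint (disjoint_left.2 (fun y hy => (mem_sdiff.1 (u1 hy)).2)),
          card_orb]
      refine ⟨U ∪ orb p x, union_subset (u1.trans sdiff_subset) hD, ?_, by omega, by omega⟩
      intro y hy
      rcases mem_union.1 hy with hy | hy
      · exact mem_union_left _ (u2 y hy)
      · exact mem_union_right _ (orb_trans hy (step_orb y))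

/-- recolour whole cycles. -/
theorem flip {π : K → Equiv.Perm V} {α β : K} (hα : π α = 1) (hab : α ≠ β) {col : V → K}
    (hi : Injective (fun x => π (col x) x)) {U : Finset V} (hU : ∀ x ∈ U, π β x ∈ U)
    (hc : ∀ x ∈ U, col x = α) : ∃ c : V → K, Injective (fun x => π (c x) x) ∧
      (∀ x, x ∉ U → c x = col x) ∧ cnt c β = cnt col β + U.card ∧
      ∀ t, t ≠ α → t ≠ β → cnt c t = cnt col t := by
  have mix : ∀ x ∈ U, ∀ y, y ∉ U → π β x ≠ π (col y) y := by
    intro x hx y hy e
    have h1 := hU x hx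
    have h2 : π (col (π β x)) (π β x) = π (col y) y := by
      rw [hc _ h1, hα, ← e]
      rfl
    exact hy (hi h2 ▸ h1)
  refine ⟨fun x => if x ∈ U then β else col x, ?_, fun x hx => if_neg hx, ?_, ?_⟩
  · intro x y e
    by_cases hx : x ∈ U <;> by_cases hy : y ∈ U <;> simp only [hx, hy, if_true, if_false] at e
    · exact (π β).injective e
    · exact absurd e (mix x hx y hy)
    · exact absurd e.symm (mix y hy x hx)
    · exact hi e
  · unfold cnt
    rw [← card_union_of_disjoint (disjoint_left.2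
      (fun y hy hy' => hab ((hc y hy').symm.trans (mem_filter.1 hy).2)))]
    congr 1
    ext x
    by_cases hx : x ∈ U <;> simp [hx]
  · intro t h1 h2
    unfold cnt
    congr 1
    ext x
    by_cases hx : x ∈ U
    · simp [hx, hc x hx, h1.symm, h2.symm]
    · simp [hx]

/-- `f` below `r`, then `g`. -/
def cat {A : Type*} (f g : ℕ → A) (r : ℕ) (i : ℕ) : A := if i < r then f i else g (i - r)

theorem cat_lt {A : Type*} (f g : ℕ → A) {r i : ℕ} (h : i < r) : cat f g r i = f i := if_pos h

theorem cat_add {A : Type*} (f g : ℕ → A) (r i : ℕ) : cat f g r (r + i) = g i := by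
  unfold cat
  rw [if_neg (by omega), Nat.add_sub_cancel_left]

theorem num_add (g : ℕ → K) (r l : ℕ) (t : K) :
    num g (r + l) t = num g r t + num (fun i => g (r + i)) l t := by
  unfold num
  rw [card_filter, card_filter, card_filter, sum_range_add]

theorem num_le (g : ℕ → K) (m : ℕ) (t : K) : num g m t ≤ m :=
  (card_filter_le _ _).trans (card_range m).le

theorem num_zero {g : ℕ → K} {m : ℕ} {t : K} (h : ∀ l < m, g l ≠ t) : num g m t = 0 := by
  unfold num
  rw [card_eq_zero, filter_eq_empty_iff]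
  exact fun l hl => h l (mem_range.1 hl)

theorem lt_or_add (r i : ℕ) : i < r ∨ ∃ j, i = r + j := by
  rcases Nat.lt_or_ge i r with h | h
  · exact Or.inl h
  · exact Or.inr ⟨i - r, by omega⟩

theorem cat_inj {X : ℕ → V} {R : V} {r l : ℕ} (hr : r < minimalPeriod p R) (h0 : p^[r] R = X 0)
    (hX : ∀ i < l, ∀ j < l, X i = X j → i = j) (hC : ∀ i < l, 0 < i → X i ∉ orb p R) :
    ∀ i < r + l, ∀ j < r + l, cat (fun i => p^[i] R) X r i = cat (fun i => p^[i] R) X r j →
      i = j := by
  have inj : ∀ i ≤ r, ∀ j ≤ r, p^[i] R = p^[j] R → i = j := fun i hi j hj e =>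
    iterate_injOn_Iio_minimalPeriod (f := p) (x := R) (show i < _ by omega) (show j < _ by omega) e
  have mix : ∀ i < r, ∀ j < l, p^[i] R ≠ X j := by
    intro i hi j hj e
    rcases Nat.eq_zero_or_pos j with rfl | h
    · have := inj i hi.le r le_rfl (e.trans h0.symm)
      omega
    · exact hC j hj h (mem_orb.2 ⟨i, e⟩)
  intro i hi j hj e
  rcases lt_or_add r i with h | ⟨i, rfl⟩ <;> rcases lt_or_add r j with h' | ⟨j, rfl⟩
  · rw [cat_lt _ _ h, cat_lt _ _ h'] at e
    exact inj i h.le j h'.le e
  · rw [cat_lt _ _ h, cat_add] at e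
    exact absurd e (mix i h j (by omega))
  · rw [cat_lt _ _ h', cat_add] at e
    exact absurd e.symm (mix j h' i (by omega))
  · rw [cat_add, cat_add] at e
    rw [hX i (by omega) j (by omega) e]

theorem cat_steps {π : K → Equiv.Perm V} {α β : K} (hα : π α = 1) {col : V → K} {X : ℕ → V}
    {w : ℕ → K} {R : V} {r l : ℕ} (h0 : (π β)^[r] R = X 0)
    (hc : ∀ y ∈ orb (π β) R, col y = α)
    (hw : ∀ i < l, π (w i) (X i) = π (col (X (i + 1))) (X (i + 1))) :
    ∀ i < r + l, π (cat (fun _ => β) w r i) (cat (fun i => (π β)^[i] R) X r i) =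
      π (col (cat (fun i => (π β)^[i] R) X r (i + 1))) (cat (fun i => (π β)^[i] R) X r (i + 1)) := by
  intro i hi
  rcases lt_or_add r i with h | ⟨i, rfl⟩
  · have e : cat (fun i => (π β)^[i] R) X r (i + 1) = (π β)^[i + 1] R := by
      rcases Nat.lt_or_ge (i + 1) r with h' | h'
      · exact cat_lt _ _ h'
      · obtain rfl : r = i + 1 := by omega
        exact (cat_add _ X (i + 1) 0).trans h0.symm
    rw [cat_lt _ _ h, cat_lt _ _ h, e, hc _ (mem_orb.2 ⟨i + 1, rfl⟩), hα, iterate_succ_apply']
    rfl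
  · rw [cat_add, cat_add, add_assoc, cat_add]
    exact hw i (by omega)

theorem num_cat_word (β : K) (w : ℕ → K) (r l : ℕ) (t : K) :
    num (cat (fun _ => β) w r) (r + l) t = (if β = t then r else 0) + num w l t := by
  rw [num_add, num_const (s := β) (fun i hi => cat_lt _ _ hi)]
  simp only [cat_add]

theorem num_cat_col {α : K} {col : V → K} {X : ℕ → V} {R : V} (r l : ℕ)
    (hc : ∀ y ∈ orb p R, col y = α) (t : K) :
    num (fun i => col (cat (fun i => p^[i] R) X r i)) (r + l) t =
      (if α = t then r else 0) + num (fun i => col (X i)) l t := by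
  rw [num_add, num_const (s := α) (fun i hi => by
    rw [cat_lt _ _ hi]; exact hc _ (mem_orb.2 ⟨i, rfl⟩))]
  simp only [cat_add]

/-- admissible perfect matchings: special colours within the budget, free cycles in colour `α`. -/
structure Adm (π : K → Equiv.Perm V) (α β : K) (a : K → ℕ) (c : V → K) : Prop where
  inj : Injective (fun x => π (c x) x)
  le : ∀ t, t ≠ α → t ≠ β → cnt c t ≤ a t
  free : ∀ x, (∀ y ∈ orb (π β) x, c y = α ∨ c y = β) → c x = α

/-- the rows with a special colour. -/
def sp (α β : K) (c : V → K) : Finset V := univ.filter (fun x => c x ≠ α ∧ c x ≠ β)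

theorem mem_sp {α β : K} {c : V → K} {x : V} : x ∈ sp α β c ↔ c x ≠ α ∧ c x ≠ β := by
  simp [sp]

/-- a closed chain through non-special rows that uses a special letter improves the matching. -/
theorem improve {π : K → Equiv.Perm V} {α β : K} {a : K → ℕ} {col : V → K}
    (h : Adm π α β a col) (Y : ℕ → V) (w : ℕ → K) (m : ℕ)
    (hY : ∀ l < m, ∀ l' < m, Y l = Y l' → l = l') (h0 : Y m = Y 0)
    (hw : ∀ l < m, π (w l) (Y l) = π (col (Y (l + 1))) (Y (l + 1)))
    (hn : ∀ l < m, Y l ∉ sp α β col) (hb : ∀ t, t ≠ α → t ≠ β → cnt col t + num w m t ≤ a t)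
    (hs : ∀ l < m, ∃ l' < m, Y l' ∈ orb (π β) (Y l) ∧ w l' ≠ α ∧ w l' ≠ β) (hm : 0 < m) :
    ∃ c, Adm π α β a c ∧ (sp α β col).card < (sp α β c).card := by
  obtain ⟨c, c0, c1, c2, c3⟩ := cycle h.inj Y w m hm hY h0 hw
  have sub : sp α β col ⊆ sp α β c := by
    intro y hy
    rw [mem_sp, c2 y (fun l hl e => hn l hl (e ▸ hy))]
    exact mem_sp.1 hy
  refine ⟨c, ⟨c0, fun t h1 h2 => ?_, fun x hx => ?_⟩, card_lt_card ⟨sub, fun hh => ?_⟩⟩
  · have := c3 t
    have := hb t h1 h2
    omega
  · rw [c2 x]
    · apply h.free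
      intro y hy
      by_contra hh
      rw [not_or] at hh
      have := mem_sp.1 (sub (mem_sp.2 hh))
      exact (hx y hy).elim this.1 this.2
    · rintro l hl rfl
      obtain ⟨l', hl', e1, e2⟩ := hs l hl
      have := hx _ e1
      rw [c1 l' hl'] at this
      exact this.elim e2.1 e2.2
  · obtain ⟨l', hl', _, e2⟩ := hs 0 hm
    exact hn l' hl' (hh (mem_sp.2 (by rw [c1 l' hl']; exact e2)))

theorem num_mono (g : ℕ → K) (t : K) {j m : ℕ} (h : j ≤ m) : num g j t ≤ num g m t :=
  card_le_card (filter_subset_filter _ (range_subset_range.2 h))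

theorem main {π : K → Equiv.Perm V} {α β : K} (hα : π α = 1) (hab : α ≠ β) {a : K → ℕ} {m s : ℕ}
    (hm : ∀ x, minimalPeriod (π β) x ≤ m) (hsd : ∑ t ∈ (univ.erase α).erase β, a t = s)
    (hs : ∑ t, a t + 1 = Fintype.card V) (h1 : s * m ≤ a α) (h2 : s * m ≤ a β)
    (hn : 4 * ((s + 1) * m) + s * s ≤ 4 * Fintype.card V) : Sol π a := by
  classical
  have : Nonempty K := ⟨α⟩
  obtain ⟨col, hc, hmax⟩ := exists_max_image (univ.filter (fun c : V → K => Adm π α β a c))
    (fun c => (sp α β c).card)
    ⟨fun _ => α, mem_filter.2 ⟨mem_univ _, (π α).injective,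
      fun t ht _ => by simp [cnt, ht.symm], fun _ _ => rfl⟩⟩
  have H := (mem_filter.1 hc).2
  have best : ¬ ∃ c, Adm π α β a c ∧ (sp α β col).card < (sp α β c).card :=
    fun ⟨c, c1, c2⟩ => absurd (hmax c (mem_filter.2 ⟨mem_univ _, c1⟩)) (not_le.2 c2)
  set E := (univ.erase α).erase β with hE
  have memE : ∀ t, t ∈ E ↔ t ≠ α ∧ t ≠ β := fun t => by simp [hE, and_comm]
  have hcard : a α + a β + s + 1 = Fintype.card V := by
    rw [← hs, ← add_sum_erase univ a (mem_univ α),
      ← add_sum_erase (univ.erase α) a (mem_erase.2 ⟨hab.symm, mem_univ _⟩), ← hsd, add_assoc (a α)]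
  set u : K → ℕ := fun t => if t ∈ E then a t - cnt col t else 0 with hud
  obtain ⟨w, hw⟩ := Vertex.word (∑ t, u t) u rfl
  set r0 := ∑ t, u t with hr0
  have hw' : ∀ t, num w r0 t = u t := hw
  have hwE : ∀ l < r0, w l ≠ α ∧ w l ≠ β := by
    intro l hl
    by_contra h
    have h3 := hw (w l)
    simp only [hud, if_neg (fun h' => h ((memE _).1 h'))] at h3
    rw [card_eq_zero, filter_eq_empty_iff] at h3
    exact h3 (mem_range.2 hl) rfl
  have hu : ∀ t, t ≠ α → t ≠ β → cnt col t + num w r0 t = a t := by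
    intro t t1 t2
    have := H.le t t1 t2
    rw [hw']
    simp only [hud, if_pos ((memE t).2 ⟨t1, t2⟩)]
    omega
  set τ := (sp α β col).card with hτ
  have hτs : τ + r0 = s := by
    have e1 : τ = ∑ t ∈ E, cnt col t := by
      rw [hτ, card_eq_sum_card_fiberwise (f := col) (t := E)
        (fun x hx => (memE _).2 (mem_sp.1 hx))]
      apply sum_congr rfl
      intro t ht
      unfold cnt
      congr 1
      ext x
      simp only [mem_filter, mem_univ, true_and, mem_sp]
      exact ⟨fun h => h.2, fun h => ⟨h ▸ (memE t).1 ht, h⟩⟩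
    have e2 : r0 = ∑ t ∈ E, num w r0 t := by
      rw [sum_congr rfl (fun t _ => hw' t)]
      exact (sum_subset (subset_univ E) (fun t _ ht => if_neg ht)).symm
    rw [e1, e2, ← sum_add_distrib, ← hsd]
    exact sum_congr rfl (fun t ht => hu t ((memE t).1 ht).1 ((memE t).1 ht).2)
  let φ : Equiv.Perm V := Equiv.ofBijective _ (Finite.injective_iff_bijective.1 H.inj)
  let P : ℕ → Equiv.Perm V := fun l => Nat.rec 1 (fun l q => φ⁻¹ * π (w l) * q) l
  set T := (sp α β col).biUnion (orb (π β)) with hT
  have hTc : T.card ≤ τ * m :=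
    card_biUnion_le_card_mul _ _ _ (fun x _ => (card_orb _ x).le.trans (hm x))
  have hTo : ∀ x, x ∉ T → ∀ y ∈ orb (π β) x, y ∉ T := by
    intro x hx y hy h
    obtain ⟨z, z1, z2⟩ := mem_biUnion.1 h
    exact hx (mem_biUnion.2 ⟨z, z1, orb_trans z2 (orb_symm hy)⟩)
  have hTα : ∀ x, x ∉ T → col x = α := by
    intro x hx
    apply H.free
    intro y hy
    by_contra h
    rw [not_or] at h
    exact hx (mem_biUnion.2 ⟨y, mem_sp.2 h, orb_symm hy⟩)
  set B := Tᶜ.filter (fun x => (Tᶜ.filter
    (fun y => minimalPeriod (π β) y ≤ minimalPeriod (π β) x)).card < (r0 + 1) * m) with hB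
  have hm0 : 0 < m := by
    obtain ⟨x⟩ : Nonempty V := Fintype.card_pos_iff.1 (by omega)
    exact (per_pos _ x).trans_le (hm x)
  have hBc : B.card < (r0 + 1) * m := by
    rcases B.eq_empty_or_nonempty with h | h
    · rw [h, card_empty]
      positivity
    · obtain ⟨x, x1, x2⟩ := exists_max_image B (fun y => minimalPeriod (π β) y) h
      refine lt_of_le_of_lt (card_le_card (fun y hy => ?_)) (mem_filter.1 x1).2
      exact mem_filter.2 ⟨(mem_filter.1 hy).1, x2 y hy⟩
  set D := (range r0).biUnion (fun l => univ.filter (fun x => P (l + 1) x ∈ sp α β col)) with hD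
  have hDc : D.card ≤ r0 * τ := by
    have := card_biUnion_le_card_mul (range r0)
      (fun l => univ.filter (fun x => P (l + 1) x ∈ sp α β col)) τ (fun l _ =>
        card_le_card_of_injOn (fun x => P (l + 1) x)
          (fun x hx => mem_coe.2 (mem_filter.1 (mem_coe.1 hx)).2) (P (l + 1)).injective.injOn)
    rwa [card_range] at this
  obtain ⟨x0, _, hx0⟩ := exists_mem_notMem_of_card_lt_card (s := T ∪ B ∪ D) (t := univ) (by
    have b1 := card_union_le (T ∪ B) D
    have b2 := card_union_le T B
    have b3 : 4 * (r0 * τ) ≤ s * s := by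
      rw [← hτs]
      nlinarith [sq_nonneg ((r0 : ℤ) - τ)]
    have b4 : (s + 1) * m = τ * m + (r0 + 1) * m := by rw [← hτs]; ring
    rw [card_univ]
    omega)
  simp only [mem_union, not_or] at hx0
  obtain ⟨⟨hxT, hxB⟩, hxD⟩ := hx0
  set X : ℕ → V := fun l => P l x0 with hXd
  have hX0 : X 0 = x0 := rfl
  have hCα : ∀ y ∈ orb (π β) x0, col y = α := fun y hy => hTα y (hTo x0 hxT y hy)
  have hXn : ∀ l ≤ r0, X l ∉ sp α β col := by
    intro l hl h
    rcases l with _ | l
    · exact (mem_sp.1 h).1 (hTα x0 hxT)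
    · exact hxD (mem_biUnion.2 ⟨l, mem_range.2 hl, mem_filter.2 ⟨mem_univ _, h⟩⟩)
  have hXs : ∀ l, π (w l) (X l) = π (col (X (l + 1))) (X (l + 1)) :=
    fun l => (φ.apply_symm_apply (π (w l) (X l))).symm
  have hinj : ∀ j ≤ r0, ∀ i < j, X i ≠ X j := by
    intro j
    induction j using Nat.strong_induction_on with
    | _ j ih =>
      intro hj i hij e
      refine best (improve H (fun l => X (i + l)) (fun l => w (i + l)) (j - i) ?_
        (by rw [show i + (j - i) = j by omega]; exact e.symm) (fun l _ => hXs (i + l))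
        (fun l hl => hXn _ (by omega)) ?_
        (fun l hl => ⟨l, hl, self_orb _, hwE _ (by omega)⟩) (by omega))
      · intro l hl l' hl' h
        rcases lt_trichotomy l l' with h' | h' | h'
        · exact absurd h (ih (i + l') (by omega) (by omega) (i + l) (by omega))
        · exact h'
        · exact absurd h.symm (ih (i + l) (by omega) (by omega) (i + l') (by omega))
      · intro t t1 t2
        have := hu t t1 t2
        have := num_shift w t (i := i) (j := j - i) (m := r0) (by omega)
        omega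
  have hI : ∀ l < r0 + 1, ∀ l' < r0 + 1, X l = X l' → l = l' := by
    intro l hl l' hl' h
    rcases lt_trichotomy l l' with h' | h' | h'
    · exact absurd h (hinj l' (by omega) l h')
    · exact h'
    · exact absurd h.symm (hinj l (by omega) l' h')
  have hC : ∀ l ≤ r0, 0 < l → X l ∉ orb (π β) x0 := by
    intro l
    induction l using Nat.strong_induction_on with
    | _ l ih =>
      intro hl hl0 h
      obtain ⟨j, hj, e⟩ := mem_image.1 (orb_symm h)
      have hc' : ∀ y ∈ orb (π β) (X l), col y = α := fun y hy => hCα y (orb_trans h hy)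
      refine best (improve H (cat (fun i => (π β)^[i] (X l)) X j) (cat (fun _ => β) w j) (j + l)
        (cat_inj (mem_range.1 hj) e (fun i hi i' hi' => hI i (by omega) i' (by omega))
          (fun i hi hi0 h' => ih i hi (by omega) hi0 (orb_trans h h'))) ?_
        (cat_steps hα e hc' (fun i _ => hXs i)) ?_ ?_ ?_ (by omega))
      · rw [cat_add]
        rcases Nat.eq_zero_or_pos j with rfl | hj0
        · exact e
        · rw [cat_lt _ _ hj0]
          rfl
      · intro i hi
        rcases lt_or_add j i with h' | ⟨i, rfl⟩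
        · rw [cat_lt _ _ h']
          exact fun hh => (mem_sp.1 hh).1 (hc' _ (mem_orb.2 ⟨i, rfl⟩))
        · rw [cat_add]
          exact hXn i (by omega)
      · intro t t1 t2
        rw [num_cat_word, if_neg t2.symm]
        have := hu t t1 t2
        have := num_mono w t hl
        omega
      · intro i hi
        rcases lt_or_add j i with h' | ⟨i, rfl⟩
        · refine ⟨j + 0, by omega, ?_, ?_⟩
          · rw [cat_add, cat_lt _ _ h']
            exact orb_trans (orb_symm (mem_orb.2 ⟨i, rfl⟩)) (orb_symm h)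
          · rw [cat_add]
            exact hwE 0 (by omega)
        · refine ⟨j + i, hi, self_orb _, ?_⟩
          rw [cat_add]
          exact hwE i (by omega)
  set c := minimalPeriod (π β) x0 with hcd
  set Vis := orb (π β) x0 ∪ (range r0).biUnion (fun l => orb (π β) (X (l + 1))) with hV
  have hVc : Vis.card ≤ c + r0 * m := by
    have b1 := card_biUnion_le_card_mul (range r0) (fun l => orb (π β) (X (l + 1))) m
      (fun l _ => (card_orb _ _).le.trans (hm _))
    rw [card_range] at b1
    exact (card_union_le _ _).trans (Nat.add_le_add (card_orb _ _).le b1)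
  have hXV : ∀ l ≤ r0, X l ∈ Vis := by
    intro l hl
    rcases l with _ | l
    · exact mem_union_left _ (self_orb _)
    · exact mem_union_right _ (mem_biUnion.2 ⟨l, mem_range.2 hl, self_orb _⟩)
  have hβT : cnt col β ≤ T.card := card_le_card (fun y hy => by
    by_contra h
    exact hab ((hTα y h).symm.trans (mem_filter.1 hy).2))
  have hd : num (fun l => col (X l)) (r0 + 1) β ≤ r0 := by
    rw [add_comm r0 1, num_add, num_zero (fun l hl => by
      obtain rfl : l = 0 := by omega
      exact fun h => hab ((hTα x0 hxT).symm.trans h)), zero_add]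
    exact num_le _ _ _
  have b5 : s * m = τ * m + r0 * m := by rw [← hτs]; ring
  have b6 := le_card_sdiff Vis Tᶜ
  have b7 := card_add_card_compl T
  obtain ⟨U, u1, u2, u3, u4⟩ := alloc (p := π β) c _ (Tᶜ \ Vis) le_rfl (by
      intro y hy
      rw [mem_sdiff, mem_compl] at hy ⊢
      refine ⟨hTo y hy.1 _ (step_orb y), fun h => hy.2 ?_⟩
      rcases mem_union.1 h with h | h
      · exact mem_union_left _ (orb_trans h (orb_symm (step_orb y)))
      · obtain ⟨l, l1, l2⟩ := mem_biUnion.1 h
        exact mem_union_right _ (mem_biUnion.2 ⟨l, l1, orb_trans l2 (orb_symm (step_orb y))⟩))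
    (by
      intro y _
      right
      have b1 : (r0 + 1) * m ≤ (Tᶜ.filter (fun y => minimalPeriod (π β) y ≤ c)).card :=
        not_lt.1 (fun h => hxB (mem_filter.2 ⟨mem_compl.2 hxT, h⟩))
      have b2 := le_card_sdiff Vis (Tᶜ.filter (fun y => minimalPeriod (π β) y ≤ c))
      have b3 : (Tᶜ.filter (fun y => minimalPeriod (π β) y ≤ c)) \ Vis ⊆
          (Tᶜ \ Vis).filter (fun y => minimalPeriod (π β) y ≤ c) := by
        intro z hz
        rw [mem_sdiff, mem_filter] at hz
        exact mem_filter.2 ⟨mem_sdiff.2 ⟨hz.1.1, hz.2⟩, hz.1.2⟩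
      have b4 := card_le_card b3
      have := hm y
      rw [add_mul, one_mul] at b1
      omega)
    (a β + num (fun l => col (X l)) (r0 + 1) β - cnt col β) (by omega)
  obtain ⟨c1, f1, f2, f3, f4⟩ := flip hα hab H.inj u2
    (fun x hx => hTα x (mem_compl.1 (mem_sdiff.1 (u1 hx)).1))
  have keep : ∀ y ∈ Vis, c1 y = col y := fun y hy => f2 y (fun h => (mem_sdiff.1 (u1 h)).2 hy)
  obtain ⟨r, hr⟩ : ∃ r, a β + num (fun l => col (X l)) (r0 + 1) β - cnt col β = U.card + r :=
    ⟨_, (Nat.add_sub_cancel' u3).symm⟩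
  have hR : (π β)^[c - r] x0 ∈ orb (π β) x0 := mem_orb.2 ⟨_, rfl⟩
  have e0 : (π β)^[r] ((π β)^[c - r] x0) = X 0 := by
    rw [← iterate_add_apply, Nat.add_sub_cancel' (by omega)]
    exact iterate_minimalPeriod
  have hc1 : ∀ y ∈ orb (π β) ((π β)^[c - r] x0), c1 y = α := fun y hy =>
    (keep y (mem_union_left _ (orb_trans hR hy))).trans (hCα y (orb_trans hR hy))
  have e1 : ∀ t, num (fun l => c1 (X l)) (r0 + 1) t = num (fun l => col (X l)) (r0 + 1) t := by
    intro t
    unfold num
    congr 1
    exact filter_congr (fun l hl => by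
      simp only [keep _ (hXV l (Nat.lt_succ_iff.1 (mem_range.1 hl)))])
  refine path f1 (cat (fun i => (π β)^[i] ((π β)^[c - r] x0)) X r) (cat (fun _ => β) w r) (r + r0)
    (fun l hl l' hl' => cat_inj (l := r0 + 1) (by rw [per_eq hR]; omega) e0 hI
      (fun i hi hi0 h => hC i (by omega) hi0 (orb_trans hR h)) l (by omega) l' (by omega))
    (cat_steps hα e0 hc1 (fun i hi => by rw [keep _ (hXV (i + 1) hi)]; exact hXs i))
    (α := α) hs (fun t ht => ?_)
  rw [num_cat_word, add_assoc r r0 1, num_cat_col r (r0 + 1) hc1, if_neg ht.symm, e1]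
  by_cases hb : t = β
  · subst hb
    rw [if_pos rfl, f3, num_zero (fun l hl => (hwE l hl).2)]
    omega
  · rw [if_neg (Ne.symm hb), f4 t ht hb, num_zero (g := fun l => col (X l)) (fun l hl h =>
      hXn l (by omega) (mem_sp.2 ⟨h ▸ ht, h ▸ hb⟩))]
    have := hu t ht hb
    omega

end Pool.Agent.Lib.MP_cc2426_co.Short
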