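import Mathlib
import Pool.Agent.Lib.MP_cc2426_co.Short

/-! Three perfect matchings with one row and one column deleted: cheap perfect matchings and
comparability. -/

set_option autoImplicit false
set_option linter.unusedSectionVars false

namespace Pool.Agent.Lib.MP_cc2426_co.Hub

open Finset Function Single Short

variable {V K : Type*} [Fintype V] [DecidableEq V] [Fintype K] [DecidableEq K]

/-- a walk of length `l` from `y0` to `r` with letters `u`, `t` and at most `j` letters `t`. -/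
def Wk (π : K → Equiv.Perm V) (u t : K) (y0 : V) (j : ℕ) (r : V) (l : ℕ) : Prop :=
  ∃ X : ℕ → V, ∃ w : ℕ → K, X 0 = y0 ∧ X l = r ∧
    (∀ i < l, X (i + 1) = π (w i) (X i) ∧ (w i = u ∨ w i = t)) ∧ num w l t ≤ j

variable {π : K → Equiv.Perm V} {u t : K} {y0 : V}

theorem num_congr {g g' : ℕ → K} {l : ℕ} (h : ∀ i < l, g i = g' i) (t : K) :
    num g l t = num g' l t := by
  unfold num
  congr 1
  exact filter_congr (fun i hi => by rw [h i (mem_range.1 hi)])

theorem Wk.step {j l : ℕ} {r : V} (h : Wk π u t y0 j r l) {k : K} (hk : k = u ∨ k = t) :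
    Wk π u t y0 (j + if k = t then 1 else 0) (π k r) (l + 1) := by
  obtain ⟨X, w, h0, h1, h2, h3⟩ := h
  refine ⟨cat X (fun _ => π k r) (l + 1), cat w (fun _ => k) l, ?_, cat_add _ _ (l + 1) 0, ?_, ?_⟩
  · rw [cat_lt _ _ (by omega), h0]
  · intro i hi
    rcases Nat.lt_or_ge i l with h | h
    · rw [cat_lt _ _ (show i + 1 < l + 1 by omega), cat_lt _ _ h, cat_lt _ _ hi]
      exact h2 i h
    · obtain rfl : i = l := by omega
      have e : cat w (fun _ => k) i i = k := cat_add _ _ i 0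
      rw [e, cat_lt _ _ hi, h1]
      exact ⟨cat_add _ _ (i + 1) 0, hk⟩
  · have e : cat w (fun _ => k) l l = k := cat_add _ _ l 0
    rw [num_succ, e, num_congr (g' := w) (fun i hi => cat_lt w _ hi)]
    omega

theorem Wk.mono {j j' l : ℕ} {r : V} (h : Wk π u t y0 j r l) (hj : j ≤ j') :
    Wk π u t y0 j' r l := by
  obtain ⟨X, w, h0, h1, h2, h3⟩ := h
  exact ⟨X, w, h0, h1, h2, h3.trans hj⟩

theorem Wk.simple {j : ℕ} {r : V} : ∀ l, Wk π u t y0 j r l → ∃ l, ∃ X : ℕ → V, ∃ w : ℕ → K,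
    X 0 = y0 ∧ X l = r ∧ (∀ i < l, X (i + 1) = π (w i) (X i) ∧ (w i = u ∨ w i = t)) ∧
      num w l t ≤ j ∧ ∀ i ≤ l, ∀ i' ≤ l, X i = X i' → i = i' := by
  intro l
  induction l using Nat.strong_induction_on with
  | _ l ih =>
    rintro ⟨X, w, h0, h1, h2, h3⟩
    by_cases h : ∃ i i', i < i' ∧ i' ≤ l ∧ X i = X i'
    · obtain ⟨i, i', hi, hi', e⟩ := h
      obtain ⟨d, rfl⟩ : ∃ d, l = i' + d := ⟨l - i', by omega⟩
      refine ih (i + d) (by omega) ⟨cat X (fun k => X (i' + k)) i, cat w (fun k => w (i' + k)) i,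
        ?_, by rw [cat_add, h1], ?_, ?_⟩
      · rcases Nat.eq_zero_or_pos i with rfl | hp
        · exact (cat_add _ _ 0 0).trans (e.symm.trans h0)
        · rw [cat_lt _ _ hp, h0]
      · intro k hk
        rcases lt_or_add i k with h' | ⟨k, rfl⟩
        · have e' : cat X (fun k => X (i' + k)) i (k + 1) = X (k + 1) := by
            rcases Nat.lt_or_ge (k + 1) i with h'' | h''
            · exact cat_lt _ _ h''
            · obtain rfl : i = k + 1 := by omega
              exact (cat_add _ _ (k + 1) 0).trans e.symm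
          rw [e', cat_lt _ _ h', cat_lt _ _ h']
          exact h2 k (by omega)
        · rw [add_assoc, cat_add, cat_add, cat_add]
          exact h2 (i' + k) (by omega)
      · rw [num_add, num_congr (g' := w) (fun k hk => cat_lt w _ hk)]
        simp only [cat_add]
        rw [num_add] at h3
        have := num_mono w t hi.le
        omega
    · refine ⟨l, X, w, h0, h1, h2, h3, fun i hi i' hi' e => ?_⟩
      rcases lt_trichotomy i i' with h' | h' | h'
      · exact absurd ⟨i, i', h', hi', e⟩ h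
      · exact h'
      · exact absurd ⟨i', i, h', hi, e.symm⟩ h

theorem reach (hut : u ≠ t) (R : Finset V) (hR : ∀ x, ∃ r ∈ R, x ∈ orb (π u) r)
    (hC : ∀ A : Finset V, A.Nonempty → A ≠ univ → (∀ x ∈ A, π u x ∈ A) → ∃ x ∈ A, π t x ∉ A)
    {j : ℕ} (hj : R.card ≤ j + 1) (r : V) : ∃ l, Wk π u t y0 j r l := by
  classical
  set T : ℕ → Finset V := fun j => univ.filter (fun r => ∃ l, Wk π u t y0 j r l) with hT
  have memT : ∀ j r, r ∈ T j ↔ ∃ l, Wk π u t y0 j r l := fun j r => by simp [hT]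
  have cl : ∀ j, ∀ x ∈ T j, π u x ∈ T j := by
    intro j x hx
    obtain ⟨l, hl⟩ := (memT j x).1 hx
    have := hl.step (Or.inl rfl)
    rw [if_neg hut] at this
    exact (memT j _).2 ⟨_, this⟩
  have h0 : ∀ j, y0 ∈ T j := fun j => (memT j _).2 ⟨0, fun _ => y0, fun _ => u, rfl, rfl,
    fun i hi => absurd hi (Nat.not_lt_zero i), by simp [num]⟩
  have grow : ∀ j, T j = univ ∨ j + 1 ≤ (R ∩ T j).card := by
    intro j
    induction j with
    | zero =>
      obtain ⟨r, r1, r2⟩ := hR y0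
      exact Or.inr (card_pos.2 ⟨r, mem_inter.2 ⟨r1, orb_sub (cl 0) (h0 0) (orb_symm r2)⟩⟩)
    | succ j ih =>
      have sub : T j ⊆ T (j + 1) := fun x hx => by
        obtain ⟨l, hl⟩ := (memT j x).1 hx
        exact (memT _ x).2 ⟨l, hl.mono (Nat.le_succ j)⟩
      by_cases hu : T j = univ
      · exact Or.inl (univ_subset_iff.1 (hu ▸ sub))
      · right
        obtain ⟨x, x1, x2⟩ := hC (T j) ⟨y0, h0 j⟩ hu (cl j)
        obtain ⟨l, hl⟩ := (memT j x).1 x1
        have h1 := hl.step (Or.inr rfl)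
        rw [if_pos rfl] at h1
        obtain ⟨r, r1, r2⟩ := hR (π t x)
        have h2 : (R ∩ T j).card < (R ∩ T (j + 1)).card := by
          apply card_lt_card
          refine ⟨inter_subset_inter (Subset.refl _) sub, fun h => x2 ?_⟩
          have h3 : r ∈ R ∩ T (j + 1) := mem_inter.2
            ⟨r1, orb_sub (cl _) ((memT _ _).2 ⟨_, h1⟩) (orb_symm r2)⟩
          exact orb_sub (cl j) (mem_inter.1 (h h3)).2 r2
        have := ih.resolve_left hu
        omega
  apply (memT j r).1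
  rcases grow j with h | h
  · rw [h]
    exact mem_univ r
  · have e : R ∩ T j = R := eq_of_subset_of_card_le inter_subset_left (by omega)
    obtain ⟨r', r1, r2⟩ := hR r
    rw [← e] at r1
    exact orb_sub (cl j) (mem_inter.1 r1).2 r2

/-- a perfect matching of the graph minus row `x` and column `y` with few edges of colour `t`. -/
theorem hub (σ : K → Equiv.Perm V) {s u t : K} (hst : s ≠ t) (hut : u ≠ t) (x y : V) {j : ℕ}
    (hK : Nat.card (Quotient (Equiv.Perm.SameCycle.setoid ((σ s)⁻¹ * σ u))) ≤ j + 1)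
    (hC : ∀ A : Finset V, A.Nonempty → A ≠ univ → A.image (σ s) = A.image (σ u) →
      A.image (σ s) ≠ A.image (σ t)) :
    ∃ c : V → K, (∀ r, c r = s ∨ c r = u ∨ c r = t) ∧
      (∀ r r', r ≠ x → r' ≠ x → σ (c r) r = σ (c r') r' → r = r') ∧
      (∀ r, r ≠ x → σ (c r) r ≠ y) ∧ (univ.filter (fun r => c r = t)).card ≤ j := by
  classical
  set π : K → Equiv.Perm V := fun k => (σ s)⁻¹ * σ k with hπ
  have hs : π s = 1 := inv_mul_cancel _
  have im : ∀ (A : Finset V) (k : K), (∀ z ∈ A, π k z ∈ A) → A.image (σ s) = A.image (σ k) := by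
    intro A k h
    symm
    apply eq_of_subset_of_card_le
    · intro z hz
      obtain ⟨r, r1, rfl⟩ := mem_image.1 hz
      exact mem_image.2 ⟨π k r, h r r1, by simp [hπ]⟩
    · rw [card_image_of_injective _ (σ s).injective, card_image_of_injective _ (σ k).injective]
  let _ := Fintype.ofFinite (Quotient (Equiv.Perm.SameCycle.setoid ((σ s)⁻¹ * σ u)))
  obtain ⟨l0, hl0⟩ := reach (π := π) (y0 := (σ s)⁻¹ y) hut
    (univ.image (fun q : Quotient (Equiv.Perm.SameCycle.setoid ((σ s)⁻¹ * σ u)) => q.out))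
    (fun z => by
      refine ⟨_, mem_image_of_mem _ (mem_univ (Quotient.mk _ z)), ?_⟩
      have h : Equiv.Perm.SameCycle ((σ s)⁻¹ * σ u) (Quotient.mk
        (Equiv.Perm.SameCycle.setoid ((σ s)⁻¹ * σ u)) z).out z := Quotient.mk_out (s :=
          Equiv.Perm.SameCycle.setoid ((σ s)⁻¹ * σ u)) z
      obtain ⟨i, _, hi⟩ := h.exists_pow_eq'
      exact mem_orb.2 ⟨i, by rw [Equiv.Perm.iterate_eq_pow]; exact hi⟩)
    (fun A a1 a2 a3 => by
      by_contra h
      push Not at h
      exact hC A a1 a2 (im A u a3) (im A t h))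
    (j := j) (card_image_le.trans (by rw [card_univ, ← Nat.card_eq_fintype_card]; exact hK)) x
  obtain ⟨l, X, w, h0, h1, h2, h3, h4⟩ := Wk.simple l0 hl0
  obtain ⟨c, c1, c2, c3, c4⟩ := chain (π := π) (col := fun _ => s) (π s).injective X w l
    (fun i hi i' hi' => h4 i hi.le i' hi'.le)
    (fun i hi i' hi' e => by have := h4 _ hi _ hi' e; omega)
    (fun i hi => by rw [hs, (h2 i hi).1]; rfl)
  refine ⟨c, fun r => ?_, fun r r' hr hr' e => c4 r r' (fun h => absurd (h.trans h1) hr)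
    (fun h => absurd (h.trans h1) hr') (congrArg (fun z => (σ s)⁻¹ z) e), fun r hr e => ?_, ?_⟩
  · by_cases h : ∃ i < l, X i = r
    · obtain ⟨i, hi, rfl⟩ := h
      rw [c1 i hi]
      exact Or.inr (h2 i hi).2
    · push Not at h
      exact Or.inl (c2 r h)
  · have e' : π (c r) r = X 0 := by rw [h0, ← e]; rfl
    by_cases h : ∃ i < l, X i = r
    · obtain ⟨i, hi, rfl⟩ := h
      rw [c1 i hi, ← (h2 i hi).1] at e'
      have := h4 _ hi 0 (Nat.zero_le _) e'
      omega
    · push Not at h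
      rw [c2 r h, hs] at e'
      rcases Nat.eq_zero_or_pos l with rfl | hp
      · exact hr (e'.trans h1)
      · exact h 0 hp e'.symm
  · have h5 := c3 t
    have h6 : cnt (fun _ : V => s) t = 0 := cnt_zero (fun _ => hst)
    unfold cnt at h5 h6
    omega

/-- any two rows are comparable in the exchange digraph of a perfect matching of the graph minus
row `x` and column `y`. -/
theorem comparable (σ : Fin 3 → Equiv.Perm V) (x y : V)
    (hC : ∀ s u t : Fin 3, s ≠ u → s ≠ t → u ≠ t → ∀ A : Finset V, A.Nonempty → A ≠ univ →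
      A.image (σ s) = A.image (σ u) → 2 ≤ (A.image (σ s) \ A.image (σ t)).card)
    (φ : V → V) (hφ : ∀ r r', r ≠ x → r' ≠ x → φ r = φ r' → r = r')
    (hsurj : ∀ z, z ≠ y → ∃ r, r ≠ x ∧ φ r = z) {r r' : V} (hr : r ≠ x) (hr' : r' ≠ x) :
    Relation.ReflTransGen (fun p q => q ≠ x ∧ ∃ k, σ k p = φ q) r r' ∨
      Relation.ReflTransGen (fun p q => q ≠ x ∧ ∃ k, σ k p = φ q) r' r := by
  classical
  have third : ∀ s u : Fin 3, s ≠ u → ∃ t, s ≠ t ∧ u ≠ t := by decide
  by_contra hno
  rw [not_or] at hno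
  set Rl : V → V → Prop := Relation.ReflTransGen (fun p q => q ≠ x ∧ ∃ k, σ k p = φ q) with hRl
  have nx : ∀ p q, p ≠ x → Rl p q → q ≠ x := by
    intro p q hp h
    induction h with
    | refl => exact hp
    | tail _ h _ => exact h.1
  set W := univ.filter (fun q => Rl r q ∨ Rl r' q) with hW
  have memW : ∀ q, q ∈ W ↔ Rl r q ∨ Rl r' q := fun q => by simp [hW]
  have Wx : ∀ q ∈ W, q ≠ x := fun q hq => ((memW q).1 hq).elim (nx r q hr) (nx r' q hr')
  have cardim : ∀ A : Finset V, A ⊆ W → (A.image φ).card = A.card := fun A hA =>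
    card_image_of_injOn (fun p hp q hq e => hφ p q (Wx p (hA hp)) (Wx q (hA hq)) e)
  have one : ∀ k, (W.image φ \ W.image (σ k)).card ≤ 1 := by
    intro k
    have h1 : W.image (σ k) \ W.image φ ⊆ {y} := by
      intro z hz
      rw [mem_sdiff] at hz
      rw [mem_singleton]
      by_contra hy
      obtain ⟨p, hp, rfl⟩ := mem_image.1 hz.1
      obtain ⟨q, q1, q2⟩ := hsurj _ hy
      exact hz.2 (mem_image.2 ⟨q, (memW q).2 (((memW p).1 hp).imp
        (fun h => h.tail ⟨q1, k, q2.symm⟩) (fun h => h.tail ⟨q1, k, q2.symm⟩)), q2⟩)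
    have h2 := card_le_card h1
    rw [card_sdiff_comm (by
      rw [cardim W (Subset.refl _), card_image_of_injective _ (σ k).injective])]
    simpa using h2
  have key : ∀ p p' : V, (∀ q, q ∈ W ↔ Rl p q ∨ Rl p' q) → ∀ k,
      (univ.filter (fun q => Rl p q ∧ ¬ Rl p' q)).image φ \
        (univ.filter (fun q => Rl p q ∧ ¬ Rl p' q)).image (σ k) ⊆
          W.image φ \ W.image (σ k) := by
    intro p p' hm k z hz
    rw [mem_sdiff] at hz ⊢
    obtain ⟨q, hq, rfl⟩ := mem_image.1 hz.1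
    have hq' := (mem_filter.1 hq).2
    have hqW := (hm q).2 (Or.inl hq'.1)
    refine ⟨mem_image_of_mem _ hqW, fun h => ?_⟩
    obtain ⟨v, v1, v2⟩ := mem_image.1 h
    by_cases hv : Rl p' v
    · exact hq'.2 (hv.tail ⟨Wx q hqW, k, v2⟩)
    · exact hz.2 (mem_image.2 ⟨v, mem_filter.2 ⟨mem_univ _, ((hm v).1 v1).resolve_right hv, hv⟩,
        v2⟩)
  set A := univ.filter (fun q => Rl r q ∧ ¬ Rl r' q) with hA
  set A' := univ.filter (fun q => Rl r' q ∧ ¬ Rl r q) with hA'
  have sA : A ⊆ W := fun q hq => (memW q).2 (Or.inl (mem_filter.1 hq).2.1)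
  have sA' : A' ⊆ W := fun q hq => (memW q).2 (Or.inr (mem_filter.1 hq).2.1)
  have kA := key r r' memW
  have kA' := key r' r (fun q => (memW q).trans or_comm)
  have fin : ∀ B : Finset V, B ⊆ W → B.Nonempty →
      (∀ k, B.image φ \ B.image (σ k) ⊆ W.image φ \ W.image (σ k)) →
      ∀ s u : Fin 3, s ≠ u → B.image φ \ B.image (σ s) = ∅ → B.image φ \ B.image (σ u) = ∅ →
        False := by
    intro B b1 b2 b3 s u hsu e1 e2
    have eq : ∀ k, B.image φ \ B.image (σ k) = ∅ → B.image φ = B.image (σ k) := fun k e =>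
      eq_of_subset_of_card_le (sdiff_eq_empty_iff_subset.1 e) (by
        rw [cardim B b1, card_image_of_injective _ (σ k).injective])
    obtain ⟨t, t1, t2⟩ := third s u hsu
    have h1 := hC s u t hsu t1 t2 B b2 (fun h => Wx x (b1 (h ▸ mem_univ x)) rfl)
      ((eq s e1).symm.trans (eq u e2))
    rw [← eq s e1] at h1
    have h2 := (card_le_card (b3 t)).trans (one t)
    omega
  have alt : ∀ k, A.image φ \ A.image (σ k) = ∅ ∨ A'.image φ \ A'.image (σ k) = ∅ := by
    intro k
    by_contra h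
    rw [not_or] at h
    obtain ⟨z, hz⟩ := nonempty_iff_ne_empty.2 h.1
    obtain ⟨z', hz'⟩ := nonempty_iff_ne_empty.2 h.2
    have e := card_le_one.1 (one k) z (kA k hz) z' (kA' k hz')
    obtain ⟨q, q1, q2⟩ := mem_image.1 (mem_sdiff.1 hz).1
    obtain ⟨q', q1', q2'⟩ := mem_image.1 (mem_sdiff.1 hz').1
    have e' := hφ q q' (Wx q (sA q1)) (Wx q' (sA' q1')) (by rw [q2, q2', e])
    exact (mem_filter.1 q1).2.2 (e' ▸ (mem_filter.1 q1').2.1)
  have nA : A.Nonempty := ⟨r, mem_filter.2 ⟨mem_univ _, Relation.ReflTransGen.refl, hno.2⟩⟩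
  have nA' : A'.Nonempty := ⟨r', mem_filter.2 ⟨mem_univ _, Relation.ReflTransGen.refl, hno.1⟩⟩
  rcases alt 0 with h0 | h0 <;> rcases alt 1 with h1 | h1 <;> rcases alt 2 with h2 | h2
  · exact fin A sA nA kA 0 1 (by decide) h0 h1
  · exact fin A sA nA kA 0 1 (by decide) h0 h1
  · exact fin A sA nA kA 0 2 (by decide) h0 h2
  · exact fin A' sA' nA' kA' 1 2 (by decide) h1 h2
  · exact fin A sA nA kA 1 2 (by decide) h1 h2
  · exact fin A' sA' nA' kA' 0 2 (by decide) h0 h2
  · exact fin A' sA' nA' kA' 0 1 (by decide) h0 h1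
  · exact fin A' sA' nA' kA' 0 1 (by decide) h0 h1

end Pool.Agent.Lib.MP_cc2426_co.Hub
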