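import Mathlib
import Pool.Agent.Lib.MP_cc2426_co.Deg
import Pool.Agent.Lib.MP_cc2426_co.Hub

/-! Three perfect matchings with one row and one column deleted: exact colour counts. -/

set_option autoImplicit false
set_option linter.unusedSectionVars false

namespace Pool.Agent.Lib.MP_cc2426_co.Hub

open Finset

variable {V : Type*} [Fintype V] [DecidableEq V]

/-- the edge system of three permutations. -/
def sys (σ : Fin 3 → Equiv.Perm V) : Sys (V × Fin 3) V V (Fin 3) :=
  ⟨fun e => e.1, fun e => σ e.2 e.1, fun e => e.2, fun c x => (x, c),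
    fun c y => ((σ c).symm y, c), fun _ _ => rfl, fun _ _ => rfl, fun _ => rfl,
    fun c y => by simp, fun _ _ => rfl, fun e => by simp⟩

theorem cover {E : Type*} [DecidableEq E] {P : Finset E} {f : E → V} {x : V}
    (h1 : ∀ e ∈ P, ∀ g ∈ P, f e = f g → e = g) (h2 : ∀ e ∈ P, f e ≠ x)
    (h3 : P.card + 1 = Fintype.card V) {r : V} (hr : r ≠ x) : ∃ e ∈ P, f e = r := by
  have e : P.image f = univ.erase x := by
    apply eq_of_subset_of_card_le
    · intro z hz
      obtain ⟨e, he, rfl⟩ := mem_image.1 hz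
      exact mem_erase.2 ⟨h2 e he, mem_univ _⟩
    · rw [card_erase_of_mem (mem_univ x), card_univ,
        card_image_of_injOn (fun e he g hg h => h1 e he g hg h)]
      omega
  exact mem_image.1 (e ▸ mem_erase.2 ⟨hr, mem_univ r⟩)

theorem hole (σ : Fin 3 → Equiv.Perm V) (x y : V) (hxy : ∀ t, σ t x ≠ y) (a : Fin 3 → ℕ)
    (hs : a 0 + a 1 + a 2 + 2 = Fintype.card V)
    (hC : ∀ s u t : Fin 3, s ≠ u → s ≠ t → u ≠ t → ∀ A : Finset V, A.Nonempty → A ≠ univ →
      A.image (σ s) = A.image (σ u) → 2 ≤ (A.image (σ s) \ A.image (σ t)).card)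
    (hK : ∀ s u t : Fin 3, s ≠ u → s ≠ t → u ≠ t →
      Nat.card (Quotient (Equiv.Perm.SameCycle.setoid ((σ s)⁻¹ * σ u))) ≤ a t + 1) :
    ∃ S : Finset V, ∃ c : V → Fin 3, x ∉ S ∧ (∀ r ∈ S, σ (c r) r ≠ y) ∧
      (∀ r ∈ S, ∀ r' ∈ S, σ (c r) r = σ (c r') r' → r = r') ∧
      ∀ t, (S.filter (fun r => c r = t)).card = a t := by
  classical
  have all : ∀ t : Fin 3, t ∈ ({0, 1, 2} : Finset (Fin 3)) := by decide
  have two : ∀ t : Fin 3, ∃ s u : Fin 3, s ≠ u ∧ s ≠ t ∧ u ≠ t := by decide
  have three : ∀ t : Fin 3, t = 0 ∨ t = 1 ∨ t = 2 := by decide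
  obtain ⟨N, h1, h2, -, h4, h5, h6⟩ := Sys.root (S := sys σ) (a := 0) (b := 1) (c := 2)
    (by decide) (by decide) (by decide) (FL := {x}) (FR := {y}) (m := a 0 + a 1 + a 2)
    (by rw [card_singleton]; omega) (by rw [card_singleton]; omega) (T := fun t => (a t : ℤ))
    (by push_cast; rfl)
    (by
      intro P B p1 p2 p3 _ _ _ g hg _ g' hg' _
      have nl : ∀ e ∈ P, (sys σ).lf e ≠ x := fun e he h => (p2 e he).2.1 (mem_singleton.2 h)
      have nr : ∀ e ∈ P, (sys σ).rt e ≠ y := fun e he h => (p2 e he).2.2 (mem_singleton.2 h)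
      have ex : ∀ r : V, ∃ e : V × Fin 3, r ≠ x → e ∈ P ∧ (sys σ).lf e = r := by
        intro r
        by_cases hr : r = x
        · exact ⟨(r, 0), fun h => absurd hr h⟩
        · obtain ⟨e, e1, e2⟩ := cover p1.l nl (by omega) hr
          exact ⟨e, fun _ => ⟨e1, e2⟩⟩
      choose e he using ex
      have back : ∀ g ∈ P, e ((sys σ).lf g) = g := fun g hg =>
        p1.l _ (he _ (nl g hg)).1 g hg (he _ (nl g hg)).2
      have lift : ∀ r q : V, r ≠ x → Relation.ReflTransGen
          (fun p q => q ≠ x ∧ ∃ k, σ k p = (sys σ).rt (e q)) r q → q ≠ x ∧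
            Relation.ReflTransGen ((sys σ).Arc {0, 1, 2} {x} {y} P) (e r) (e q) := by
        intro r q hr h
        induction h with
        | refl => exact ⟨hr, Relation.ReflTransGen.refl⟩
        | @tail p q _ h ih =>
          obtain ⟨k, hk⟩ := h.2
          exact ⟨h.1, ih.2.tail ⟨(he p ih.1).1, (he q h.1).1, (p, k), all _,
            (he p ih.1).2.symm, hk⟩⟩
      have := comparable σ x y hC (fun r => (sys σ).rt (e r))
        (fun r r' hr hr' h => by
          rw [← (he r hr).2, ← (he r' hr').2, p1.r _ (he r hr).1 _ (he r' hr').1 h])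
        (fun z hz => by
          obtain ⟨f, f1, f2⟩ := cover p1.r nr (by omega) hz
          exact ⟨_, nl f f1, by rw [back f f1, f2]⟩) (nl g hg) (nl g' hg')
      rw [← back g hg, ← back g' hg']
      exact this.imp (fun h => (lift _ _ (nl g hg) h).2) (fun h => (lift _ _ (nl g' hg') h).2))
    (by
      intro t _
      refine ⟨((univ.erase x).erase ((σ t).symm y)).image (fun r => (r, t)), ⟨?_, ?_⟩, ?_, ?_⟩
      · intro e he f hf h
        obtain ⟨r, _, rfl⟩ := mem_image.1 he
        obtain ⟨r', _, rfl⟩ := mem_image.1 hf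
        exact Prod.ext h rfl
      · intro e he f hf h
        obtain ⟨r, _, rfl⟩ := mem_image.1 he
        obtain ⟨r', _, rfl⟩ := mem_image.1 hf
        exact Prod.ext ((σ t).injective h) rfl
      · intro e he
        obtain ⟨r, hr, rfl⟩ := mem_image.1 he
        refine ⟨mem_singleton_self _, fun h => (mem_erase.1 (mem_erase.1 hr).2).1
          (mem_singleton.1 h), fun h => (mem_erase.1 hr).1 ?_⟩
        exact (Equiv.eq_symm_apply _).2 (mem_singleton.1 h)
      · rw [card_image_of_injective _ (fun r r' h => congrArg Prod.fst h),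
          card_erase_of_mem (mem_erase.2 ⟨fun h => hxy t ((Equiv.symm_apply_eq _).1 h).symm,
            mem_univ _⟩), card_erase_of_mem (mem_univ x), card_univ]
        omega)
    (by
      intro t _
      obtain ⟨s, u, hsu, hst, hut⟩ := two t
      obtain ⟨c, -, c2, c3, c4⟩ := hub σ hst hut x y (hK s u t hsu hst hut)
        (fun A a1 a2 a3 a4 => by
          have := hC s u t hsu hst hut A a1 a2 a3
          rw [a4, sdiff_self] at this
          simp at this)
      refine ⟨(univ.erase x).image (fun r => (r, c r)), ⟨?_, ?_⟩, ?_, ?_, ?_⟩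
      · intro e he f hf h
        obtain ⟨r, _, rfl⟩ := mem_image.1 he
        obtain ⟨r', _, rfl⟩ := mem_image.1 hf
        obtain rfl : r = r' := h
        rfl
      · intro e he f hf h
        obtain ⟨r, hr, rfl⟩ := mem_image.1 he
        obtain ⟨r', hr', rfl⟩ := mem_image.1 hf
        obtain rfl : r = r' := c2 r r' (mem_erase.1 hr).1 (mem_erase.1 hr').1 h
        rfl
      · intro e he
        obtain ⟨r, hr, rfl⟩ := mem_image.1 he
        exact ⟨all _, fun h => (mem_erase.1 hr).1 (mem_singleton.1 h),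
          fun h => c3 r (mem_erase.1 hr).1 (mem_singleton.1 h)⟩
      · rw [card_image_of_injective _ (fun r r' h => congrArg Prod.fst h),
          card_erase_of_mem (mem_univ x), card_univ]
        omega
      · rw [Sys.vec_apply]
        have : (((univ.erase x).image (fun r => (r, c r))).filter
            (fun e => (sys σ).col e = t)).card ≤ (univ.filter (fun r => c r = t)).card := by
          apply card_le_card_of_injOn (fun e => e.1)
          · intro e he
            obtain ⟨e1, e2⟩ := mem_filter.1 (mem_coe.1 he)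
            obtain ⟨r, _, rfl⟩ := mem_image.1 e1
            exact mem_coe.2 (mem_filter.2 ⟨mem_univ _, e2⟩)
          · intro e he f hf h
            obtain ⟨r, _, rfl⟩ := mem_image.1 (mem_filter.1 (mem_coe.1 he)).1
            obtain ⟨r', _, rfl⟩ := mem_image.1 (mem_filter.1 (mem_coe.1 hf)).1
            obtain rfl : r = r' := h
            rfl
        exact_mod_cast this.trans c4)
  have hc : ∀ r : V, ∃ c : Fin 3, ∀ e ∈ N, e.1 = r → e = (r, c) := by
    intro r
    by_cases h : ∃ e ∈ N, e.1 = r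
    · obtain ⟨e, he, rfl⟩ := h
      exact ⟨e.2, fun f hf hh => h1.l f hf e he hh⟩
    · exact ⟨0, fun e he hh => absurd ⟨e, he, hh⟩ h⟩
  choose c hc using hc
  have mem : ∀ r ∈ N.image Prod.fst, (r, c r) ∈ N := by
    intro r hr
    obtain ⟨e, he, rfl⟩ := mem_image.1 hr
    exact hc _ e he rfl ▸ he
  refine ⟨N.image Prod.fst, c, fun h => (h2 _ (mem x h)).2.1 (mem_singleton_self x),
    fun r hr h => (h2 _ (mem r hr)).2.2 (mem_singleton.2 h),
    fun r hr r' hr' h => congrArg Prod.fst (h1.r _ (mem r hr) _ (mem r' hr') h), fun i => ?_⟩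
  have h3 : (sys σ).vec N i = (a i : ℤ) := by
    rcases three i with rfl | rfl | rfl
    · exact h4
    · exact h5
    · exact h6
  rw [Sys.vec_apply] at h3
  have h7 : (N.filter (fun e => (sys σ).col e = i)).card = a i := by exact_mod_cast h3
  rw [← h7]
  symm
  apply card_bij (fun e _ => e.1)
  · intro e he
    obtain ⟨e1, e2⟩ := mem_filter.1 he
    refine mem_filter.2 ⟨mem_image_of_mem _ e1, ?_⟩
    rw [← e2, hc _ e e1 rfl]
    rfl
  · intro e he f hf h
    exact h1.l e (mem_filter.1 he).1 f (mem_filter.1 hf).1 h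
  · intro r hr
    obtain ⟨e1, e2⟩ := mem_filter.1 hr
    exact ⟨(r, c r), mem_filter.2 ⟨mem r e1, e2⟩, rfl⟩

end Pool.Agent.Lib.MP_cc2426_co.Hub
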