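import Pool.Agent.Lib.MP_cc2426_co.Pick
import Pool.Agent.Lib.MP_cc2426_co.Hole

/-! The choice of the deleted pair, for permutations. -/

set_option autoImplicit false
set_option linter.unusedSectionVars false

namespace Pool.Agent.Lib.MP_cc2426_co.Pick

open Finset Hub

theorem reach_all {E L R K : Type*} [DecidableEq E] [DecidableEq L] [DecidableEq R]
    [DecidableEq K] [Fintype L] [Fintype R] {S : Sys E L R K} {s t : K} (hs : s ≠ t)
    (conn : ∀ A : Finset R, A.Nonempty →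
      (∀ q ∈ A, ∀ k, S.rt (S.eL k (S.lf (S.eR s q))) ∈ A) → A = univ) (q0 q : R) :
    ∃ i, S.Rch t q0 i q := by
  classical
  have := conn (univ.filter (fun q => ∃ i, S.Rch t q0 i q))
    ⟨q0, mem_filter.2 ⟨mem_univ _, 0, Sys.Rch.refl 0⟩⟩ (fun z hz k => by
      obtain ⟨i, hi⟩ := (mem_filter.1 hz).2
      exact mem_filter.2 ⟨mem_univ _, i + 1, Sys.Rch.arc (S.eR s z) _ (by rwa [S.rt_eR])
        (by rwa [S.col_eR]) (S.lf_eL _ _)⟩)
  have h := mem_univ q
  rw [← this] at h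
  exact (mem_filter.1 h).2

variable {V : Type*} [Fintype V] [DecidableEq V]

theorem colours (σ : Fin 3 → Equiv.Perm V) {N : Finset (V × Fin 3)} (h1 : (sys σ).IsM N) :
    ∃ c : V → Fin 3, (∀ r ∈ N.image Prod.fst, (r, c r) ∈ N) ∧
      ∀ i, (sys σ).vec N i = ((N.image Prod.fst).filter (fun r => c r = i)).card := by
  have hc : ∀ r : V, ∃ c : Fin 3, ∀ e ∈ N, e.1 = r → e = (r, c) := by
    intro r
    by_cases h : ∃ e ∈ N, e.1 = r
    · obtain ⟨e, he, rfl⟩ := h
      exact ⟨e.2, fun f hf hh => h1.l f hf e he hh⟩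
    · exact ⟨0, fun e he hh => absurd ⟨e, he, hh⟩ h⟩
  choose c hc using hc
  have mem : ∀ r ∈ N.image Prod.fst, (r, c r) ∈ N := by
    intro r hr
    obtain ⟨e, he, rfl⟩ := mem_image.1 hr
    exact hc _ e he rfl ▸ he
  refine ⟨c, mem, fun i => ?_⟩
  rw [Sys.vec_apply, Nat.cast_inj]
  apply card_bij (fun e _ => e.1)
  · intro e he
    obtain ⟨e1, e2⟩ := mem_filter.1 he
    refine mem_filter.2 ⟨mem_image_of_mem _ e1, ?_⟩
    rw [← e2, hc _ e e1 rfl]
    rfl
  · intro e he f hf h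
    exact h1.l e (mem_filter.1 he).1 f (mem_filter.1 hf).1 h
  · intro r hr
    obtain ⟨e1, e2⟩ := mem_filter.1 hr
    exact ⟨(r, c r), mem_filter.2 ⟨mem r e1, e2⟩, rfl⟩

theorem pick (σ : Fin 3 → Equiv.Perm V) (hd : ∀ s u, s ≠ u → ∀ r, σ s r ≠ σ u r)
    (τ : Equiv.Perm V) (ht : ∀ t r, σ t r ≠ τ r) (a : Fin 3 → ℕ)
    (hs : a 0 + a 1 + a 2 + 2 = Fintype.card V)
    (conn : ∀ A : Finset V, A.Nonempty → A ≠ univ →
      ¬ (A.image (σ 0) = A.image (σ 1) ∧ A.image (σ 0) = A.image (σ 2))) :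
    ∃ x, (∃ S : Finset V, ∃ c : V → Fin 3, x ∉ S ∧ (∀ r ∈ S, σ (c r) r ≠ τ x) ∧
      (∀ r ∈ S, ∀ r' ∈ S, σ (c r) r = σ (c r') r' → r = r') ∧
      ∀ t, (S.filter (fun r => c r = t)).card = a t) ∨
      ∀ t, ∃ c : V → Fin 3, (∀ r r', r ≠ x → r' ≠ x → σ (c r) r = σ (c r') r' → r = r') ∧
        (∀ r, r ≠ x → σ (c r) r ≠ τ x) ∧
        ((univ.erase x).filter (fun r => c r = t)).card ≤ a t := by
  have oth : ∀ t : Fin 3, ∃ s, s ≠ t := by decide
  have rows : ∀ (s : Fin 3) (A : Finset V), A.Nonempty → (∀ r ∈ A, ∀ k, (σ k).symm (σ s r) ∈ A) →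
      A = univ := by
    intro s A a1 a2
    by_contra hne
    have im : ∀ k, A.image (σ s) = A.image (σ k) := fun k => eq_of_subset_of_card_le (by
      intro z hz
      obtain ⟨r, hr, rfl⟩ := mem_image.1 hz
      exact mem_image.2 ⟨_, a2 r hr k, by simp⟩) (by
      rw [card_image_of_injective _ (σ s).injective, card_image_of_injective _ (σ k).injective])
    exact conn A a1 hne ⟨(im 0).symm.trans (im 1), (im 0).symm.trans (im 2)⟩
  have cols : ∀ (s : Fin 3) (A : Finset V), A.Nonempty → (∀ q ∈ A, ∀ k, σ k ((σ s).symm q) ∈ A) →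
      A = univ := by
    intro s A a1 a2
    by_contra hne
    have im : ∀ k, (A.image (σ s).symm).image (σ k) = A := fun k => eq_of_subset_of_card_le (by
      intro z hz
      obtain ⟨r, hr, rfl⟩ := mem_image.1 hz
      obtain ⟨q, hq, rfl⟩ := mem_image.1 hr
      exact a2 q hq k) (by
      rw [card_image_of_injective _ (σ k).injective, card_image_of_injective _ (σ s).symm.injective])
    refine conn (A.image (σ s).symm) (a1.image _) (fun h => hne ?_)
      ⟨(im 0).trans (im 1).symm, (im 0).trans (im 2).symm⟩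
    rw [← im 0, h]
    exact image_univ_equiv _
  obtain ⟨x, h⟩ := Sys.pick (S := sys σ) (s := 0) (u := 1) (t := 2) (by decide) (by decide)
    (by decide) (by decide)
    (fun e e' h1 h2 => by
      obtain ⟨r, k⟩ := e
      obtain ⟨r', k'⟩ := e'
      obtain rfl : r = r' := h1
      by_contra hne
      exact hd k k' (fun hh => hne (by rw [hh])) r h2)
    (fun k => by
      obtain ⟨s, h⟩ := oth k
      exact reach_all h (fun A a1 a2 => cols s A a1 a2))
    (fun k => by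
      obtain ⟨s, h⟩ := oth k
      exact reach_all (S := (sys σ).swap) h (fun A a1 a2 => rows s A a1 a2))
    (T := a) hs τ (fun e => ht e.2 e.1)
  refine ⟨x, h.imp ?_ (fun h t => ?_)⟩
  · rintro ⟨N, n1, n2⟩
    obtain ⟨c, c1, c2⟩ := colours σ n1.1
    exact ⟨N.image Prod.fst, c, fun h => (n1.2 _ (c1 x h)).1 rfl,
      fun r hr => (n1.2 _ (c1 r hr)).2,
      fun r hr r' hr' h => congrArg Prod.fst (n1.1.r _ (c1 r hr) _ (c1 r' hr') h),
      fun t => by exact_mod_cast (c2 t).symm.trans (n2 t)⟩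
  · obtain ⟨P, p1, p2, p3⟩ := h t
    obtain ⟨c, c1, c2⟩ := colours σ p1.1
    have e : P.image Prod.fst = univ.erase x := by
      ext r
      rw [mem_erase, mem_image]
      exact ⟨fun ⟨e, he, h⟩ => ⟨h ▸ (p1.2 e he).1, mem_univ _⟩, fun h => p1.cov p2 r h.1⟩
    rw [e] at c1 c2
    have m : ∀ r, r ≠ x → (r, c r) ∈ P := fun r hr => c1 r (mem_erase.2 ⟨hr, mem_univ _⟩)
    exact ⟨c, fun r r' hr hr' h => congrArg Prod.fst (p1.1.r _ (m r hr) _ (m r' hr') h),
      fun r hr => (p1.2 _ (m r hr)).2, by exact_mod_cast (c2 t).symm.trans_le p3⟩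

end Pool.Agent.Lib.MP_cc2426_co.Pick
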