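import Mathlib

/-! Signed crossings of a segment in the triangular lattice. -/

set_option autoImplicit false

namespace Pool.Agent.Lib.MP_cc2426_co

/-- signed crossing weight of a step. -/
def om (p x i x' i' : ℤ) : ℤ :=
  (if x = -1 ∧ x' = 0 ∧ 0 < i' ∧ i' < p then 1 else 0) -
    (if x' = -1 ∧ x = 0 ∧ 0 < i ∧ i < p then 1 else 0)

/-- equal or neighbouring points of the triangular lattice. -/
def st (x i x' i' : ℤ) : Prop :=
  x' - x ≤ 1 ∧ x - x' ≤ 1 ∧ i' - i ≤ 1 ∧ i - i' ≤ 1 ∧ x' + i' - x - i ≤ 1 ∧ x + i - x' - i' ≤ 1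

/-- the two ends of the segment. -/
def fb (p x i : ℤ) : Prop := x = 0 ∧ (i = 0 ∨ i = p)

theorem om_tri {p x i x' i' x'' i'' : ℤ} (h1 : st x i x' i') (h2 : st x' i' x'' i'')
    (h3 : st x i x'' i'') (f1 : ¬ fb p x i) (f2 : ¬ fb p x' i') (f3 : ¬ fb p x'' i'') :
    om p x i x' i' + om p x' i' x'' i'' = om p x i x'' i'' := by
  unfold om
  unfold st fb at *
  split_ifs <;> omega

theorem om_anti (p x i x' i' : ℤ) : om p x' i' x i = - om p x i x' i' := by
  unfold om; ring

theorem st_symm {x i x' i' : ℤ} (h : st x i x' i') : st x' i' x i := by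
  unfold st at *; omega

theorem om_rho {p x i x' i' d e : ℤ} (h1 : st x i x' i') (h2 : st 0 0 d e)
    (f1 : ¬ fb p x i) (f2 : ¬ fb p x' i') (f3 : ¬ fb p (x + d) (i + e))
    (f4 : ¬ fb p (x' + d) (i' + e)) :
    om p x i x' i' + om p x' i' (x' + d) (i' + e) =
      om p x i (x + d) (i + e) + om p (x + d) (i + e) (x' + d) (i' + e) := by
  have a1 : st x i (x + d) (i + e) := by unfold st at *; omega
  have a2 : st x' i' (x' + d) (i' + e) := by unfold st at *; omega
  have a3 : st (x + d) (i + e) (x' + d) (i' + e) := by unfold st at *; omega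
  by_cases c1 : st x i (x' + d) (i' + e)
  · rw [om_tri h1 a2 c1 f1 f2 f4, om_tri a1 a3 c1 f1 f3 f4]
  by_cases c2 : st x' i' (x + d) (i + e)
  · rw [← om_tri c2 a3 a2 f2 f3 f4, ← om_tri h1 c2 a1 f1 f2 f3]; ring
  have : x' = x + d ∧ i' = i + e := by unfold st at *; omega
  exact absurd (by rw [this.1, this.2]; unfold st; omega) c2

/-- a walk through admissible points with its total weight. -/
inductive Row {V : Type*} (Real : V → Prop) (Adj : V → V → Prop) (w : V → V → ℤ) (u : V) :
    V → ℤ → Prop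
  | refl : Real u → Row Real Adj w u u 0
  | snoc {v v' : V} {W : ℤ} : Row Real Adj w u v W → Adj v v' → Real v' →
      Row Real Adj w u v' (W + w v v')

variable {V : Type*} {Real Real' : V → Prop} {Adj : V → V → Prop} {w : V → V → ℤ}

theorem Row.last {u v : V} {W : ℤ} (h : Row Real Adj w u v W) : Real v := by
  cases h with
  | refl h => exact h
  | snoc _ _ h => exact h

theorem Row.first {u v : V} {W : ℤ} (h : Row Real Adj w u v W) : Real u := by
  induction h with
  | refl h => exact h
  | snoc _ _ _ ih => exact ih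

theorem Row.cons {u u' v : V} {W : ℤ} (h : Row Real Adj w u v W) (hr : Real u') (ha : Adj u' u) :
    Row Real Adj w u' v (w u' u + W) := by
  induction h with
  | refl h => simpa using (Row.refl hr).snoc (w := w) ha h
  | snoc _ a b ih => rw [← add_assoc]; exact ih.snoc a b

theorem Row.shift (s : V → V) (h1 : ∀ u, Real u → Real' (s u))
    (h2 : ∀ u v, Adj u v → Adj (s u) (s v))
    (h3 : ∀ u v, Real u → Real v → Adj u v → w u v + w v (s v) = w u (s u) + w (s u) (s v))
    {u v : V} {W : ℤ} (h : Row Real Adj w u v W) :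
    Row Real' Adj w (s u) (s v) (W + w v (s v) - w u (s u)) := by
  induction h with
  | refl h => simpa using Row.refl (h1 u h)
  | @snoc v v' W r a b ih =>
    have := ih.snoc (h2 _ _ a) (h1 _ b)
    have e := h3 v v' r.last b a
    rwa [show W + w v (s v) - w u (s u) + w (s v) (s v') = W + w v v' + w v' (s v') - w u (s u) by
      omega] at this

theorem Row.cross {u v : V} {W : ℤ} (h : Row Real Adj w u v W) (hW : W ≠ 0) :
    ∃ u1 u2, Real u1 ∧ Real u2 ∧ Adj u1 u2 ∧ w u1 u2 ≠ 0 := by
  induction h with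
  | refl h => exact absurd rfl hW
  | @snoc v v' W r a b ih =>
    by_cases h0 : W = 0
    · exact ⟨v, v', r.last, b, a, by simpa [h0] using hW⟩
    · exact ih h0

end Pool.Agent.Lib.MP_cc2426_co
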