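import Mathlib

/-! Bipartite multigraphs that are unions of perfect matchings: matchings, moves, blocking. -/

set_option autoImplicit false
set_option linter.unusedSectionVars false

namespace Pool.Agent.Lib.MP_cc2426_co

open Finset

/-- edges `E` between `L` and `R`; every colour class is a perfect matching. -/
structure Sys (E L R K : Type*) where
  lf : E → L
  rt : E → R
  col : E → K
  eL : K → L → E
  eR : K → R → E
  lf_eL : ∀ c x, lf (eL c x) = x
  col_eL : ∀ c x, col (eL c x) = c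
  eL_eq : ∀ e, eL (col e) (lf e) = e
  rt_eR : ∀ c y, rt (eR c y) = y
  col_eR : ∀ c y, col (eR c y) = c
  eR_eq : ∀ e, eR (col e) (rt e) = e

variable {E L R K : Type*}

/-- exchange the two sides. -/
def Sys.swap (S : Sys E L R K) : Sys E R L K :=
  ⟨S.rt, S.lf, S.col, S.eR, S.eL, S.rt_eR, S.col_eR, S.eR_eq, S.lf_eL, S.col_eL, S.eL_eq⟩

variable [DecidableEq E] [DecidableEq L] [DecidableEq R] [DecidableEq K]

/-- unit vector. -/
def dl (c : K) : K → ℤ := Pi.single c 1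

namespace Sys

variable (S : Sys E L R K)

theorem eq_of_lf {e f : E} (h : S.lf e = S.lf f) (h' : S.col e = S.col f) : e = f := by
  rw [← S.eL_eq e, h, h', S.eL_eq]

theorem eq_of_rt {e f : E} (h : S.rt e = S.rt f) (h' : S.col e = S.col f) : e = f := by
  rw [← S.eR_eq e, h, h', S.eR_eq]

/-- matchings. -/
structure IsM (M : Finset E) : Prop where
  l : ∀ e ∈ M, ∀ f ∈ M, S.lf e = S.lf f → e = f
  r : ∀ e ∈ M, ∀ f ∈ M, S.rt e = S.rt f → e = f

/-- colour vector. -/
def vec (M : Finset E) : K → ℤ := ∑ e ∈ M, dl (S.col e)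

/-- colours in `A`, blocked vertices avoided. -/
def Ok (A : Finset K) (FL : Finset L) (FR : Finset R) (M : Finset E) : Prop :=
  ∀ e ∈ M, S.col e ∈ A ∧ S.lf e ∉ FL ∧ S.rt e ∉ FR

/-- uncovered left vertex. -/
def FrL (M : Finset E) (x : L) : Prop := ∀ e ∈ M, S.lf e ≠ x

/-- uncovered right vertex. -/
def FrR (M : Finset E) (y : R) : Prop := ∀ e ∈ M, S.rt e ≠ y

/-- a matching with vector `B` that meets at most one blocked vertex. -/
def Succ (A : Finset K) (FL : Finset L) (FR : Finset R) (B : K → ℤ) : Prop :=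
  ∃ M f, S.IsM M ∧ S.Ok A FL FR M ∧ S.col f ∈ A ∧ S.FrL M (S.lf f) ∧ S.FrR M (S.rt f) ∧
    (S.lf f ∉ FL ∨ S.rt f ∉ FR) ∧ S.vec M + dl (S.col f) = B

variable {S}

theorem IsM.swap {M : Finset E} (h : S.IsM M) : S.swap.IsM M := ⟨h.r, h.l⟩

theorem IsM.unswap {M : Finset E} (h : S.swap.IsM M) : S.IsM M := ⟨h.r, h.l⟩

theorem Ok.swap {A : Finset K} {FL : Finset L} {FR : Finset R} {M : Finset E}
    (h : S.Ok A FL FR M) : S.swap.Ok A FR FL M :=
  fun e he => ⟨(h e he).1, (h e he).2.2, (h e he).2.1⟩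

theorem Ok.unswap {A : Finset K} {FL : Finset L} {FR : Finset R} {M : Finset E}
    (h : S.swap.Ok A FR FL M) : S.Ok A FL FR M :=
  fun e he => ⟨(h e he).1, (h e he).2.2, (h e he).2.1⟩

theorem Succ.swap {A : Finset K} {FL : Finset L} {FR : Finset R} {B : K → ℤ}
    (h : S.Succ A FL FR B) : S.swap.Succ A FR FL B := by
  obtain ⟨M, f, h1, h2, h3, h4, h5, h6, h7⟩ := h
  exact ⟨M, f, h1.swap, h2.swap, h3, h5, h4, h6.symm, h7⟩

theorem Succ.unswap {A : Finset K} {FL : Finset L} {FR : Finset R} {B : K → ℤ}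
    (h : S.swap.Succ A FR FL B) : S.Succ A FL FR B := by
  obtain ⟨M, f, h1, h2, h3, h4, h5, h6, h7⟩ := h
  exact ⟨M, f, h1.unswap, h2.unswap, h3, h5, h4, h6.symm, h7⟩

theorem IsM.mono {M N : Finset E} (h : S.IsM M) (hN : N ⊆ M) : S.IsM N :=
  ⟨fun e he f hf => h.l e (hN he) f (hN hf), fun e he f hf => h.r e (hN he) f (hN hf)⟩

theorem IsM.union {M N : Finset E} (h : S.IsM M) (h' : S.IsM N)
    (hd : ∀ e ∈ M, ∀ f ∈ N, S.lf e ≠ S.lf f ∧ S.rt e ≠ S.rt f) : S.IsM (M ∪ N) := by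
  constructor
  · intro e he f hf hh
    rcases mem_union.1 he with he | he <;> rcases mem_union.1 hf with hf | hf
    · exact h.l e he f hf hh
    · exact absurd hh (hd e he f hf).1
    · exact absurd hh.symm (hd f hf e he).1
    · exact h'.l e he f hf hh
  · intro e he f hf hh
    rcases mem_union.1 he with he | he <;> rcases mem_union.1 hf with hf | hf
    · exact h.r e he f hf hh
    · exact absurd hh (hd e he f hf).2
    · exact absurd hh.symm (hd f hf e he).2
    · exact h'.r e he f hf hh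

theorem disj_of {M N : Finset E}
    (hd : ∀ e ∈ M, ∀ f ∈ N, S.lf e ≠ S.lf f ∧ S.rt e ≠ S.rt f) : Disjoint M N :=
  Finset.disjoint_left.2 (fun e he he' => (hd e he e he').1 rfl)

theorem vec_union {M N : Finset E} (hd : Disjoint M N) : S.vec (M ∪ N) = S.vec M + S.vec N :=
  sum_union hd

theorem vec_insert {M : Finset E} {f : E} (h : f ∉ M) :
    S.vec (insert f M) = S.vec M + dl (S.col f) := by
  unfold vec; rw [sum_insert h, add_comm]

theorem vec_erase {M : Finset E} {g : E} (h : g ∈ M) :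
    S.vec (M.erase g) + dl (S.col g) = S.vec M := sum_erase_add _ _ h

theorem vec_sdiff {M N : Finset E} (h : N ⊆ M) : S.vec (M \ N) + S.vec N = S.vec M :=
  sum_sdiff h

theorem vec_apply (M : Finset E) (c : K) :
    S.vec M c = ((M.filter (fun e => S.col e = c)).card : ℤ) := by
  unfold vec dl
  rw [Finset.sum_apply, card_filter]
  push_cast
  apply sum_congr rfl
  intro e _
  rw [Pi.single_apply]
  simp only [eq_comm]

theorem vec_nonneg (M : Finset E) (c : K) : 0 ≤ S.vec M c := by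
  rw [vec_apply]; positivity

theorem vec_off {A : Finset K} {M : Finset E} (h : ∀ e ∈ M, S.col e ∈ A) {c : K} (hc : c ∉ A) :
    S.vec M c = 0 := by
  rw [vec_apply, filter_eq_empty_iff.2]
  · simp
  · intro e he h'; exact hc (h' ▸ h e he)

theorem sum_dl {A : Finset K} {c : K} (hc : c ∈ A) : ∑ k ∈ A, dl c k = 1 := by
  unfold dl
  simp only [Pi.single_apply]
  rw [sum_ite_eq']; simp [hc]

theorem sum_vec {A : Finset K} {M : Finset E} (h : ∀ e ∈ M, S.col e ∈ A) :
    ∑ k ∈ A, S.vec M k = M.card := by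
  unfold vec
  simp only [Finset.sum_apply]
  rw [sum_comm, sum_congr rfl (fun e he => sum_dl (h e he))]
  simp

theorem vec_const {M : Finset E} {c : K} (h : ∀ e ∈ M, S.col e = c) :
    S.vec M = (M.card : ℤ) • dl c := by
  unfold vec
  rw [sum_congr rfl (fun e he => by rw [h e he]), sum_const, natCast_zsmul]

theorem IsM.insert {M : Finset E} {f : E} (h : S.IsM M) (h1 : S.FrL M (S.lf f))
    (h2 : S.FrR M (S.rt f)) : S.IsM (insert f M) := by
  rw [insert_eq]
  apply IsM.union ⟨by simp, by simp⟩ h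
  intro e he g hg
  rw [mem_singleton.1 he]
  exact ⟨(h1 g hg).symm, (h2 g hg).symm⟩

theorem Ok.mono {A : Finset K} {FL : Finset L} {FR : Finset R} {M N : Finset E}
    (h : S.Ok A FL FR M) (hN : N ⊆ M) : S.Ok A FL FR N := fun e he => h e (hN he)

theorem Ok.union {A : Finset K} {FL : Finset L} {FR : Finset R} {M N : Finset E}
    (h : S.Ok A FL FR M) (h' : S.Ok A FL FR N) : S.Ok A FL FR (M ∪ N) :=
  fun e he => (mem_union.1 he).elim (h e) (h' e)

theorem Ok.weaken {A A' : Finset K} {FL FL' : Finset L} {FR FR' : Finset R} {M : Finset E}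
    (h : S.Ok A FL' FR' M) (hA : A ⊆ A') (hL : FL ⊆ FL') (hR : FR ⊆ FR') : S.Ok A' FL FR M :=
  fun e he => ⟨hA (h e he).1, fun h' => (h e he).2.1 (hL h'), fun h' => (h e he).2.2 (hR h')⟩

theorem succ_of_mem {A : Finset K} {FL : Finset L} {FR : Finset R} {M : Finset E}
    (h : S.IsM M) (ho : S.Ok A FL FR M) (hne : M.Nonempty) : S.Succ A FL FR (S.vec M) := by
  obtain ⟨f, hf⟩ := hne
  refine ⟨M.erase f, f, h.mono (erase_subset _ _), ho.mono (erase_subset _ _), (ho f hf).1,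
    fun e he hh => (mem_erase.1 he).1 (h.l e (mem_erase.1 he).2 f hf hh),
    fun e he hh => (mem_erase.1 he).1 (h.r e (mem_erase.1 he).2 f hf hh),
    Or.inl (ho f hf).2.1, vec_erase hf⟩

/-- the result of putting `f` at an uncovered left vertex and removing `g`. -/
structure MvL (A : Finset K) (FL : Finset L) (FR : Finset R) (N : Finset E) (f g : E) : Prop where
  isM : S.IsM (insert f (N.erase g))
  ok : S.Ok A FL FR (insert f (N.erase g))
  vec : S.vec (insert f (N.erase g)) + dl (S.col g) = S.vec N + dl (S.col f)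
  card : (insert f (N.erase g)).card = N.card
  frL : S.FrL (insert f (N.erase g)) (S.lf g)
  nb : S.lf g ∉ FL
  keepR : ∀ y, S.FrR N y → S.FrR (insert f (N.erase g)) y
  keepL : ∀ x, S.FrL N x → x ≠ S.lf f → S.FrL (insert f (N.erase g)) x
  ne : S.col g ≠ S.col f

theorem mvL {A : Finset K} {FL : Finset L} {FR : Finset R} {N : Finset E} {f g : E}
    (h : S.IsM N) (ho : S.Ok A FL FR N) (hf : S.col f ∈ A) (hb : S.lf f ∉ FL)
    (hfr : S.FrL N (S.lf f)) (hg : g ∈ N) (he : S.rt f = S.rt g) : MvL (S := S) A FL FR N f g := by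
  have hn : f ∉ N.erase g := fun h' => hfr f (mem_erase.1 h').2 rfl
  refine ⟨?_, ?_, ?_, ?_, ?_, (ho g hg).2.1, ?_, ?_, ?_⟩
  · apply (h.mono (erase_subset _ _)).insert
    · exact fun e he' => hfr e (mem_erase.1 he').2
    · intro e he' hh
      exact (mem_erase.1 he').1 (h.r e (mem_erase.1 he').2 g hg (hh.trans he))
  · intro e he'
    rcases mem_insert.1 he' with rfl | he'
    · exact ⟨hf, hb, he ▸ (ho g hg).2.2⟩
    · exact ho e (mem_erase.1 he').2
  · rw [vec_insert hn, ← vec_erase hg]; abel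
  · rw [card_insert_of_notMem hn, card_erase_add_one hg]
  · intro e he' hh
    rcases mem_insert.1 he' with rfl | he'
    · exact hfr g hg hh.symm
    · exact (mem_erase.1 he').1 (h.l e (mem_erase.1 he').2 g hg hh)
  · intro y hy e he'
    rcases mem_insert.1 he' with rfl | he'
    · rw [he]; exact hy g hg
    · exact hy e (mem_erase.1 he').2
  · intro x hx hne e he'
    rcases mem_insert.1 he' with rfl | he'
    · exact hne.symm
    · exact hx e (mem_erase.1 he').2
  · intro hc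
    have := S.eq_of_rt he hc.symm
    exact hfr g hg (by rw [this])

theorem mvR {A : Finset K} {FL : Finset L} {FR : Finset R} {N : Finset E} {f g : E}
    (h : S.IsM N) (ho : S.Ok A FL FR N) (hf : S.col f ∈ A) (hb : S.rt f ∉ FR)
    (hfr : S.FrR N (S.rt f)) (hg : g ∈ N) (he : S.lf f = S.lf g) :
    MvL (S := S.swap) A FR FL N f g :=
  mvL (S := S.swap) h.swap ho.swap hf hb hfr hg he

/-- put back blocked edges. -/
theorem unblock {A A' : Finset K} {FL FL' : Finset L} {FR FR' : Finset R} {N0 : Finset E}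
    {w : K → ℤ} (h0 : S.IsM N0) (ho : S.Ok A' FL FR N0) (hA : A ⊆ A') (hL : FL ⊆ FL')
    (hR : FR ⊆ FR') (hb : ∀ e ∈ N0, S.lf e ∈ FL' ∧ S.rt e ∈ FR') (h : S.Succ A FL' FR' w) :
    S.Succ A' FL FR (S.vec N0 + w) ∨ ∃ N f g, S.IsM N ∧ S.Ok A' FL FR N ∧ N0 ⊆ N ∧ g ∈ N0 ∧
      (∀ e ∈ N, e ∈ N0 ∨ (S.lf e ∉ FL' ∧ S.rt e ∉ FR')) ∧
      S.vec N + dl (S.col f) = S.vec N0 + w ∧ S.col f ∈ A' ∧
      ((S.lf f ∉ FL' ∧ S.FrL N (S.lf f) ∧ S.rt f = S.rt g) ∨
        (S.rt f ∉ FR' ∧ S.FrR N (S.rt f) ∧ S.lf f = S.lf g)) := by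
  obtain ⟨M, f, h1, h2, h3, h4, h5, h6, h7⟩ := h
  have hd : ∀ e ∈ N0, ∀ f ∈ M, S.lf e ≠ S.lf f ∧ S.rt e ≠ S.rt f := by
    intro e he g hg
    exact ⟨fun hh => (h2 g hg).2.1 (hh ▸ (hb e he).1), fun hh => (h2 g hg).2.2 (hh ▸ (hb e he).2)⟩
  have m1 := h0.union h1 hd
  have o1 := ho.union (h2.weaken hA hL hR)
  have v1 : S.vec (N0 ∪ M) + dl (S.col f) = S.vec N0 + w := by
    rw [vec_union (disj_of hd), ← h7, add_assoc]
  have s1 : ∀ e ∈ N0 ∪ M, e ∈ N0 ∨ (S.lf e ∉ FL' ∧ S.rt e ∉ FR') :=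
    fun e he => (mem_union.1 he).imp id (fun h' => (h2 e h').2)
  have fl : (∀ g ∈ N0, S.lf g ≠ S.lf f) → S.FrL (N0 ∪ M) (S.lf f) :=
    fun hh e he => (mem_union.1 he).elim (hh e) (h4 e)
  have fr : (∀ g ∈ N0, S.rt g ≠ S.rt f) → S.FrR (N0 ∪ M) (S.rt f) :=
    fun hh e he => (mem_union.1 he).elim (hh e) (h5 e)
  by_cases c1 : ∀ g ∈ N0, S.lf g ≠ S.lf f
  · by_cases c2 : ∀ g ∈ N0, S.rt g ≠ S.rt f
    · exact Or.inl ⟨_, f, m1, o1, hA h3, fl c1, fr c2,
        h6.imp (fun a b => a (hL b)) (fun a b => a (hR b)), v1⟩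
    · push Not at c2
      obtain ⟨g, hg, e⟩ := c2
      refine Or.inr ⟨_, f, g, m1, o1, subset_union_left, hg, s1, v1, hA h3,
        Or.inl ⟨h6.resolve_right (fun hh => hh (e ▸ (hb g hg).2)), fl c1, e.symm⟩⟩
  · push Not at c1
    obtain ⟨g, hg, e⟩ := c1
    have hr : S.rt f ∉ FR' := h6.resolve_left (fun hh => hh (e ▸ (hb g hg).1))
    refine Or.inr ⟨_, f, g, m1, o1, subset_union_left, hg, s1, v1, hA h3,
      Or.inr ⟨hr, fr (fun g' hg' hh => hr (hh ▸ (hb g' hg').2)), e.symm⟩⟩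

theorem exists_frL [Fintype L] {FL : Finset L} {M : Finset E}
    (h : M.card + FL.card < Fintype.card L) : ∃ x, x ∉ FL ∧ S.FrL M x := by
  have : (FL ∪ M.image S.lf).card < (univ : Finset L).card := by
    have := card_union_le FL (M.image S.lf)
    have := card_image_le (s := M) (f := S.lf)
    rw [card_univ]; omega
  obtain ⟨x, _, hx⟩ := exists_mem_notMem_of_card_lt_card this
  rw [mem_union, not_or] at hx
  exact ⟨x, hx.1, fun e he hh => hx.2 (mem_image.2 ⟨e, he, hh⟩)⟩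

theorem card_eq_of_vec {A : Finset K} {M N : Finset E} {s t : K} (hM : ∀ e ∈ M, S.col e ∈ A)
    (hN : ∀ e ∈ N, S.col e ∈ A) (hs : s ∈ A) (ht : t ∈ A)
    (h : S.vec M + dl s = S.vec N + dl t) : M.card = N.card := by
  have h1 : ∑ k ∈ A, (S.vec M + dl s) k = ∑ k ∈ A, (S.vec N + dl t) k := by rw [h]
  simp only [Pi.add_apply, sum_add_distrib, sum_vec hM, sum_vec hN, sum_dl hs, sum_dl ht] at h1
  omega

end Sys

end Pool.Agent.Lib.MP_cc2426_co
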