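import Mathlib
import Pool.Agent.Lib.MP_cc2426_co.Basic

/-! Two colours, one uncovered pair: success or a two-coloured cycle that serves as a reservoir. -/

set_option autoImplicit false
set_option linter.unusedSectionVars false

namespace Pool.Agent.Lib.MP_cc2426_co

open Finset

variable {E L R K : Type*} [DecidableEq E] [DecidableEq L] [DecidableEq R] [DecidableEq K]

namespace Sys

/-- a matching inside `Y`, `Z` with colours in `A`. -/
def In (S : Sys E L R K) (A : Finset K) (Y : Finset L) (Z : Finset R) (m : Finset E) : Prop :=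
  S.IsM m ∧ ∀ e ∈ m, S.col e ∈ A ∧ S.lf e ∈ Y ∧ S.rt e ∈ Z

/-- `Y`, `Z` are closed under the edges with colours in `A`. -/
structure Clo (S : Sys E L R K) (A : Finset K) (Y : Finset L) (Z : Finset R) : Prop where
  l : ∀ k ∈ A, ∀ x ∈ Y, S.rt (S.eL k x) ∈ Z
  r : ∀ k ∈ A, ∀ z ∈ Z, S.lf (S.eR k z) ∈ Y

/-- a cycle in the colours `b`, `c`. -/
structure Res (S : Sys E L R K) (b c : K) (Y : Finset L) (Z : Finset R) : Prop where
  clo : S.Clo {b, c} Y Z
  card : Z.card = Y.card
  ne : Y.Nonempty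
  resL : ∀ x ∈ Y, ∀ i j : ℕ, i + j + 1 = Y.card →
    ∃ m, S.In {b, c} Y Z m ∧ S.FrL m x ∧ S.vec m = (i : ℤ) • dl b + (j : ℤ) • dl c
  resR : ∀ z ∈ Z, ∀ i j : ℕ, i + j + 1 = Y.card →
    ∃ m, S.In {b, c} Y Z m ∧ S.FrR m z ∧ S.vec m = (i : ℤ) • dl b + (j : ℤ) • dl c

variable {S : Sys E L R K}

theorem Res.symm {b c : K} {Y : Finset L} {Z : Finset R} (h : S.Res b c Y Z) : S.Res c b Y Z := by
  refine ⟨pair_comm b c ▸ h.clo, h.card, h.ne, ?_, ?_⟩
  · intro x hx i j hij
    obtain ⟨m, h1, h2, h3⟩ := h.resL x hx j i (by omega)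
    exact ⟨m, pair_comm b c ▸ h1, h2, by rw [h3, add_comm]⟩
  · intro x hx i j hij
    obtain ⟨m, h1, h2, h3⟩ := h.resR x hx j i (by omega)
    exact ⟨m, pair_comm b c ▸ h1, h2, by rw [h3, add_comm]⟩

theorem rt_eL_inj' (c : K) {u v : L} (h : S.rt (S.eL c u) = S.rt (S.eL c v)) : u = v := by
  have := S.eq_of_rt h (by rw [S.col_eL, S.col_eL])
  rw [← S.lf_eL c u, this, S.lf_eL]

theorem Clo.full {A : Finset K} {Y : Finset L} {Z : Finset R} (h : S.Clo A Y Z) {k : K}
    (hk : k ∈ A) : ∃ m, S.In A Y Z m ∧ m.card = Y.card ∧ S.vec m = (Y.card : ℤ) • dl k := by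
  have hc : (Y.image (S.eL k)).card = Y.card :=
    card_image_of_injective _ (fun u v h => by rw [← S.lf_eL k u, h, S.lf_eL])
  refine ⟨Y.image (S.eL k), ⟨⟨?_, ?_⟩, ?_⟩, hc, ?_⟩
  · intro e he f hf hh
    obtain ⟨u, _, rfl⟩ := mem_image.1 he
    obtain ⟨v, _, rfl⟩ := mem_image.1 hf
    rw [S.lf_eL, S.lf_eL] at hh
    rw [hh]
  · intro e he f hf hh
    obtain ⟨u, _, rfl⟩ := mem_image.1 he
    obtain ⟨v, _, rfl⟩ := mem_image.1 hf
    rw [rt_eL_inj' k hh]
  · intro e he
    obtain ⟨u, hu, rfl⟩ := mem_image.1 he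
    exact ⟨by rwa [S.col_eL], by rwa [S.lf_eL], h.l k hk u hu⟩
  · rw [vec_const (c := k), hc]
    intro e he
    obtain ⟨u, hu, rfl⟩ := mem_image.1 he
    exact S.col_eL _ _

/-- one step along the cycle in the colours `b`, `c`. -/
def nx (S : Sys E L R K) (b c : K) (u : L) : L := S.lf (S.eR c (S.rt (S.eL b u)))

theorem rt_nx (b c : K) (u : L) : S.rt (S.eL c (S.nx b c u)) = S.rt (S.eL b u) := by
  have : S.eL c (S.nx b c u) = S.eR c (S.rt (S.eL b u)) := by
    have := S.eL_eq (S.eR c (S.rt (S.eL b u)))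
    rwa [S.col_eR] at this
  rw [this, S.rt_eR]

theorem nx_inj (b c : K) : Function.Injective (S.nx b c) := by
  intro u v h
  apply rt_eL_inj' (S := S) b
  rw [← rt_nx b c u, h, rt_nx]

theorem exists_res [Fintype L] (b c : K) (x : L) : ∃ Y Z, S.Res b c Y Z ∧ x ∈ Y ∧
    ∀ z ∈ Z, ∃ j, z = S.rt (S.eL b ((S.nx b c)^[j] x)) := by
  set π := S.nx b c with hπ
  have per : ∀ u, u ∈ Function.periodicPts π := fun u => (nx_inj b c).mem_periodicPts u
  set q := Function.minimalPeriod π x with hq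
  have q0 : 0 < q := Function.minimalPeriod_pos_of_mem_periodicPts (per x)
  set Y := (range q).image (fun k => π^[k] x) with hY
  have memY : ∀ u, u ∈ Y ↔ ∃ k, π^[k] x = u := by
    intro u
    rw [hY, mem_image]
    constructor
    · rintro ⟨k, _, h⟩; exact ⟨k, h⟩
    · rintro ⟨k, h⟩
      exact ⟨k % q, mem_range.2 (Nat.mod_lt _ q0), by
        rw [hq, Function.iterate_mod_minimalPeriod_eq, h]⟩
  have cY : Y.card = q := by
    rw [hY, card_image_of_injOn, card_range]
    rw [coe_range]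
    exact Function.iterate_injOn_Iio_minimalPeriod
  have itY : ∀ u ∈ Y, ∀ k, π^[k] u ∈ Y := by
    intro u hu k
    obtain ⟨l, rfl⟩ := (memY u).1 hu
    exact (memY _).2 ⟨k + l, Function.iterate_add_apply _ _ _ _⟩
  have mp : ∀ u ∈ Y, Function.minimalPeriod π u = q := by
    intro u hu
    obtain ⟨l, rfl⟩ := (memY u).1 hu
    exact Function.minimalPeriod_apply_iterate (per x) l
  have back : ∀ u ∈ Y, ∀ j ≤ q, π^[j] (π^[q - j] u) = u := by
    intro u hu j hj
    rw [← Function.iterate_add_apply, Nat.add_sub_cancel' hj, ← mp u hu]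
    exact Function.iterate_minimalPeriod
  set Z := Y.image (fun u => S.rt (S.eL b u)) with hZ
  have zb : ∀ u ∈ Y, S.rt (S.eL b u) ∈ Z := fun u hu => mem_image_of_mem _ hu
  have zc : ∀ u ∈ Y, S.rt (S.eL c u) ∈ Z := by
    intro u hu
    rw [← back u hu 1 q0, Function.iterate_one, rt_nx]
    exact zb _ (itY u hu _)
  have key : ∀ u ∈ Y, ∀ i j : ℕ, i + j + 1 = q → ∃ m, S.In {b, c} Y Z m ∧ S.FrL m u ∧
      S.FrR m (S.rt (S.eL b (π^[j] u))) ∧ S.vec m = (i : ℤ) • dl b + (j : ℤ) • dl c := by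
    intro u hu i j hij
    have inj : ∀ k < q, ∀ l < q, π^[k] u = π^[l] u → k = l := by
      intro k hk l hl h
      exact Function.iterate_injOn_Iio_minimalPeriod (f := π) (x := u)
        (by rw [mp u hu]; exact hk) (by rw [mp u hu]; exact hl) h
    let g : ℕ → E := fun k => S.eL (if k < j then c else b) (π^[k + 1] u)
    have lg : ∀ k, S.lf (g k) = π^[k + 1] u := fun k => S.lf_eL _ _
    have rg : ∀ k, S.rt (g k) = S.rt (S.eL b (π^[if k < j then k else k + 1] u)) := by
      intro k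
      simp only [g]
      split_ifs
      · rw [Function.iterate_succ_apply', rt_nx]
      · rfl
    refine ⟨(range (i + j)).image g, ⟨⟨?_, ?_⟩, ?_⟩, ?_, ?_, ?_⟩
    · intro e he f hf hh
      obtain ⟨k, hk, rfl⟩ := mem_image.1 he
      obtain ⟨l, hl, rfl⟩ := mem_image.1 hf
      rw [mem_range] at hk hl
      rw [lg, lg] at hh
      have := inj _ (by omega) _ (by omega) hh
      rw [show k = l by omega]
    · intro e he f hf hh
      obtain ⟨k, hk, rfl⟩ := mem_image.1 he
      obtain ⟨l, hl, rfl⟩ := mem_image.1 hf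
      rw [mem_range] at hk hl
      rw [rg, rg] at hh
      have := inj _ (by split_ifs <;> omega) _ (by split_ifs <;> omega) (rt_eL_inj' b hh)
      rw [show k = l by split_ifs at this <;> omega]
    · intro e he
      obtain ⟨k, hk, rfl⟩ := mem_image.1 he
      refine ⟨?_, by rw [lg]; exact itY u hu _, by rw [rg]; exact zb _ (itY u hu _)⟩
      simp only [g, S.col_eL]
      split_ifs <;> simp
    · intro e he hh
      obtain ⟨k, hk, rfl⟩ := mem_image.1 he
      rw [mem_range] at hk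
      rw [lg] at hh
      have := inj _ (by omega) 0 q0 hh
      omega
    · intro e he hh
      obtain ⟨k, hk, rfl⟩ := mem_image.1 he
      rw [mem_range] at hk
      rw [rg] at hh
      have := inj _ (by split_ifs <;> omega) _ (by omega) (rt_eL_inj' b hh)
      split_ifs at this <;> omega
    · unfold vec
      rw [sum_image]
      · simp only [g, S.col_eL]
        rw [add_comm i j, sum_range_add, sum_congr rfl (g := fun _ => dl c),
          sum_congr (s₁ := range i) rfl (g := fun _ => dl b)]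
        · simp only [sum_const, card_range, natCast_zsmul]
          rw [add_comm]
        · intro k _; rw [if_neg (by omega)]
        · intro k hk; rw [if_pos (mem_range.1 hk)]
      · intro k hk l hl hh
        simp only [coe_range, Set.mem_Iio] at hk hl
        have h2 := congrArg S.lf hh
        rw [lg, lg] at h2
        have := inj _ (by omega) _ (by omega) h2
        omega
  refine ⟨Y, Z, ⟨⟨?_, ?_⟩, ?_, ⟨x, (memY x).2 ⟨0, rfl⟩⟩, ?_, ?_⟩, (memY x).2 ⟨0, rfl⟩, ?_⟩
  · intro k hk u hu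
    rcases mem_insert.1 hk with rfl | hk
    · exact zb u hu
    · rw [mem_singleton.1 hk]; exact zc u hu
  · intro k hk z hz
    obtain ⟨u, hu, rfl⟩ := mem_image.1 hz
    rcases mem_insert.1 hk with rfl | hk
    · have := S.eR_eq (S.eL k u)
      rw [S.col_eL] at this
      rwa [this, S.lf_eL]
    · rw [mem_singleton.1 hk]; exact itY u hu 1
  · exact card_image_of_injective _ (fun u v h => rt_eL_inj' b h)
  · intro u hu i j hij
    obtain ⟨m, h1, h2, _, h4⟩ := key u hu i j (by omega)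
    exact ⟨m, h1, h2, h4⟩
  · intro z hz i j hij
    obtain ⟨u, hu, rfl⟩ := mem_image.1 hz
    obtain ⟨m, h1, _, h3, h4⟩ := key _ (itY u hu (q - j)) i j (by omega)
    rw [back u hu j (by omega)] at h3
    exact ⟨m, h1, h3, h4⟩
  · intro z hz
    obtain ⟨u, hu, rfl⟩ := mem_image.1 hz
    obtain ⟨k, rfl⟩ := (memY u).1 hu
    exact ⟨k, rfl⟩

theorem run_succ {b c : K} (hbc : b ≠ c) {FL : Finset L} {FR : Finset R} {B : K → ℤ} {z : R} :
    ∀ (j : ℕ) (M : Finset E) (x : L) (y : R) (t : K), S.IsM M → S.Ok {b, c} FL FR M →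
      t ∈ ({b, c} : Finset K) → S.vec M + dl t = B → x ∉ FL → S.FrL M x → y ∉ FR → S.FrR M y →
      z ≠ y → S.FrR M z → z = S.rt (S.eL b ((S.nx b c)^[j] x)) → S.Succ {b, c} FL FR B := by
  have hb : b ∈ ({b, c} : Finset K) := by simp
  have hc : c ∈ ({b, c} : Finset K) := by simp
  have red : ∀ j : ℕ, (∀ (M : Finset E) (x : L) (y : R), S.IsM M → S.Ok {b, c} FL FR M →
      S.vec M + dl b = B → x ∉ FL → S.FrL M x → y ∉ FR → S.FrR M y →
      z ≠ y → S.FrR M z → z = S.rt (S.eL b ((S.nx b c)^[j] x)) → S.Succ {b, c} FL FR B) →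
      ∀ (M : Finset E) (x : L) (y : R) (t : K), S.IsM M → S.Ok {b, c} FL FR M →
      t ∈ ({b, c} : Finset K) → S.vec M + dl t = B → x ∉ FL → S.FrL M x → y ∉ FR → S.FrR M y →
      z ≠ y → S.FrR M z → z = S.rt (S.eL b ((S.nx b c)^[j] x)) → S.Succ {b, c} FL FR B := by
    intro j hP M x y t h1 h2 ht h3 h4 h5 h6 h7 h8 h9 h10
    rcases mem_insert.1 ht with rfl | ht
    · exact hP M x y h1 h2 h3 h4 h5 h6 h7 h8 h9 h10
    rw [mem_singleton.1 ht] at h3
    have cf : S.col (S.eR c y) ∈ ({b, c} : Finset K) := by rwa [S.col_eR]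
    by_cases hf : S.FrL M (S.lf (S.eR c y))
    · exact ⟨M, S.eR c y, h1, h2, cf, hf, by rwa [S.rt_eR], Or.inr (by rwa [S.rt_eR]),
        by rwa [S.col_eR]⟩
    · unfold FrL at hf
      push Not at hf
      obtain ⟨g, hg, e⟩ := hf
      have mv := mvR h1 h2 cf (by rwa [S.rt_eR]) (by rwa [S.rt_eR]) hg e.symm
      have cg : S.col g = b := by
        rcases mem_insert.1 (h2 g hg).1 with h | h
        · exact h
        · exact absurd ((mem_singleton.1 h).trans (S.col_eR c y).symm) mv.ne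
      have hv : S.vec (insert (S.eR c y) (M.erase g)) + dl (S.col g) =
        S.vec M + dl (S.col (S.eR c y)) := mv.vec
      rw [cg, S.col_eR, h3] at hv
      exact hP _ x (S.rt g) mv.isM.unswap mv.ok.unswap hv h4 (mv.keepR x h5) mv.nb mv.frL
        (h9 g hg).symm (mv.keepL z h9 (fun hh => h8 (hh.trans (S.rt_eR c y)))) h10
  intro j
  induction j with
  | zero =>
    apply red
    intro M x y h1 h2 h3 h4 h5 h6 h7 h8 h9 h10
    exact ⟨M, S.eL b x, h1, h2, by rwa [S.col_eL], by rwa [S.lf_eL], h10 ▸ h9,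
      Or.inl (by rwa [S.lf_eL]), by rwa [S.col_eL]⟩
  | succ j ih =>
    apply red
    intro M x y h1 h2 h3 h4 h5 h6 h7 h8 h9 h10
    have cf : S.col (S.eL b x) ∈ ({b, c} : Finset K) := by rwa [S.col_eL]
    by_cases hf : S.FrR M (S.rt (S.eL b x))
    · exact ⟨M, S.eL b x, h1, h2, cf, by rwa [S.lf_eL], hf, Or.inl (by rwa [S.lf_eL]),
        by rwa [S.col_eL]⟩
    · unfold FrR at hf
      push Not at hf
      obtain ⟨g, hg, e⟩ := hf
      have mv := mvL h1 h2 cf (by rwa [S.lf_eL]) (by rwa [S.lf_eL]) hg e.symm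
      have cg : S.col g = c := by
        rcases mem_insert.1 (h2 g hg).1 with h | h
        · exact absurd (h.trans (S.col_eL b x).symm) mv.ne
        · exact mem_singleton.1 h
      have hv := mv.vec
      rw [cg, S.col_eL, h3] at hv
      have lg : S.lf g = S.nx b c x := by
        unfold nx
        rw [← e, ← cg, S.eR_eq]
      refine ih _ (S.lf g) y c mv.isM mv.ok hc hv mv.nb mv.frL h6 (mv.keepR y h7) h8
        (mv.keepR z h9) ?_
      rw [h10, lg, Function.iterate_succ_apply]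

theorem vec_two {b c : K} (hbc : b ≠ c) {m : Finset E} (h : ∀ e ∈ m, S.col e ∈ ({b, c} : Finset K)) :
    ∃ i j : ℕ, i + j = m.card ∧ S.vec m = (i : ℤ) • dl b + (j : ℤ) • dl c := by
  refine ⟨(m.filter (fun e => S.col e = b)).card, (m.filter (fun e => ¬ S.col e = b)).card,
    card_filter_add_card_filter_not _, ?_⟩
  rw [← vec_const (S := S) (fun e he => (mem_filter.1 he).2), ← vec_const (S := S) (c := c),
    ← vec_union (disjoint_filter_filter_not _ _ _), filter_union_filter_not_eq]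
  intro e he
  obtain ⟨h1, h2⟩ := mem_filter.1 he
  exact mem_singleton.1 ((mem_insert.1 (h e h1)).resolve_left h2)

theorem pure_run [Fintype L] [Fintype R] {b c : K} (hbc : b ≠ c) {FL : Finset L} {FR : Finset R}
    {M : Finset E} {t : K} (h1 : S.IsM M) (h2 : S.Ok {b, c} FL FR M) (ht : t ∈ ({b, c} : Finset K))
    (cL : M.card + FL.card < Fintype.card L) (cR : M.card + FR.card < Fintype.card R) :
    S.Succ {b, c} FL FR (S.vec M + dl t) ∨ ∃ Y Z Mo, ∃ i j : ℕ, S.Res b c Y Z ∧ Disjoint Y FL ∧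
      Disjoint Z FR ∧ S.IsM Mo ∧ S.Ok {b, c} (FL ∪ Y) (FR ∪ Z) Mo ∧ i + j = Y.card ∧
      S.vec Mo + ((i : ℤ) • dl b + (j : ℤ) • dl c) = S.vec M + dl t ∧
      Mo.card + Y.card = M.card + 1 := by
  obtain ⟨x, x1, x2⟩ := exists_frL (S := S) cL
  obtain ⟨y, y1, y2⟩ := exists_frL (S := S.swap) cR
  obtain ⟨Y, Z, hR, xY, hZ⟩ := exists_res (S := S) b c x
  by_cases hob : ∃ z ∈ Z, z ≠ y ∧ S.FrR M z
  · obtain ⟨z, hz, z1, z2⟩ := hob
    obtain ⟨j, hj⟩ := hZ z hz
    exact Or.inl (run_succ hbc j M x y t h1 h2 ht rfl x1 x2 y1 y2 z1 z2 hj)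
  right
  have cov : ∀ z ∈ Z, z ≠ y → ∃ g ∈ M, S.rt g = z := by
    intro z hz hne
    by_contra hh
    push Not at hh
    exact hob ⟨z, hz, hne, hh⟩
  set m := M.filter (fun e => S.rt e ∈ Z) with hm
  have sm : m ⊆ M := filter_subset _ _
  have lm : ∀ e ∈ m, S.lf e ∈ Y.erase x := by
    intro e he
    obtain ⟨e1, e2⟩ := mem_filter.1 he
    refine mem_erase.2 ⟨x2 e e1, ?_⟩
    have := hR.clo.r _ (h2 e e1).1 _ e2
    rwa [S.eR_eq] at this
  have s1 : m.image S.lf ⊆ Y.erase x := by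
    intro u hu
    obtain ⟨e, he, rfl⟩ := mem_image.1 hu
    exact lm e he
  have c1 : (m.image S.lf).card = m.card :=
    card_image_of_injOn (fun e he f hf => h1.l e (sm he) f (sm hf))
  have s2 : Z.erase y ⊆ m.image S.rt := by
    intro z hz
    obtain ⟨g, hg, rfl⟩ := cov z (mem_erase.1 hz).2 (mem_erase.1 hz).1
    exact mem_image_of_mem _ (mem_filter.2 ⟨hg, (mem_erase.1 hz).2⟩)
  have c2 := card_le_card s2
  have c3 := card_image_le (s := m) (f := S.rt)
  have c4 := pred_card_le_card_erase (s := Z) (a := y)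
  have c5 := card_erase_add_one xY
  have c6 := card_le_card s1
  have c7 := hR.card
  have e1 : m.image S.lf = Y.erase x := eq_of_subset_of_card_le s1 (by omega)
  have covL : ∀ u ∈ Y, u ≠ x → ∃ g ∈ m, S.lf g = u := by
    intro u hu hne
    have : u ∈ m.image S.lf := e1 ▸ mem_erase.2 ⟨hne, hu⟩
    exact mem_image.1 this
  obtain ⟨i, j, hij, hv⟩ := vec_two (S := S) hbc (m := m) (fun e he => (h2 e (sm he)).1)
  have c8 := card_sdiff_add_card_eq_card sm
  have base : ∃ i' j' : ℕ, i' + j' = Y.card ∧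
      (i' : ℤ) • dl b + (j' : ℤ) • dl c = S.vec m + dl t := by
    rcases mem_insert.1 ht with rfl | ht
    · exact ⟨i + 1, j, by omega, by rw [hv]; push_cast; module⟩
    · rw [mem_singleton.1 ht]
      exact ⟨i, j + 1, by omega, by rw [hv]; push_cast; module⟩
  obtain ⟨i', j', q1, q2⟩ := base
  refine ⟨Y, Z, M \ m, i', j', hR, ?_, ?_, h1.mono sdiff_subset, ?_, q1, ?_, by omega⟩
  · rw [Finset.disjoint_left]
    intro u hu
    by_cases hx : u = x
    · rwa [hx]
    · obtain ⟨g, hg, rfl⟩ := covL u hu hx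
      exact (h2 g (sm hg)).2.1
  · rw [Finset.disjoint_left]
    intro z hz
    by_cases hy : z = y
    · rwa [hy]
    · obtain ⟨g, hg, rfl⟩ := cov z hz hy
      exact (h2 g hg).2.2
  · intro e he
    obtain ⟨a1, a2⟩ := mem_sdiff.1 he
    refine ⟨(h2 e a1).1, ?_, ?_⟩
    · rw [mem_union, not_or]
      refine ⟨(h2 e a1).2.1, fun hh => ?_⟩
      obtain ⟨g, hg, e'⟩ := covL _ hh (x2 e a1)
      exact a2 (h1.l g (sm hg) e a1 e' ▸ hg)
    · rw [mem_union, not_or]
      exact ⟨(h2 e a1).2.2, fun hh => a2 (mem_filter.2 ⟨a1, hh⟩)⟩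
  · rw [q2, ← vec_sdiff sm]; abel

end Sys

end Pool.Agent.Lib.MP_cc2426_co
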