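import Mathlib
import Pool.Agent.Lib.MP_cc2426_co.Res
import Pool.Agent.Lib.MP_cc2426_co.Hex

/-! Two reservoirs and an alternating path leaving one of them: the crossing argument. -/

set_option autoImplicit false
set_option linter.unusedSectionVars false

namespace Pool.Agent.Lib.MP_cc2426_co

open Finset

variable {E L R K : Type*} [DecidableEq E] [DecidableEq L] [DecidableEq R] [DecidableEq K]

namespace Sys

variable {S : Sys E L R K}

theorem glue {A A2 : Finset K} {FL Y : Finset L} {FR Z : Finset R} {M m : Finset E}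
    (h1 : S.IsM M) (h2 : S.Ok A (FL ∪ Y) (FR ∪ Z) M) (h3 : S.In A2 Y Z m) (hA : A2 ⊆ A)
    (dL : Disjoint Y FL) (dR : Disjoint Z FR) :
    S.IsM (M ∪ m) ∧ S.Ok A FL FR (M ∪ m) ∧ S.vec (M ∪ m) = S.vec M + S.vec m := by
  have hd : ∀ e ∈ M, ∀ f ∈ m, S.lf e ≠ S.lf f ∧ S.rt e ≠ S.rt f := fun e he f hf =>
    ⟨fun hh => (h2 e he).2.1 (mem_union_right _ (hh ▸ (h3.2 f hf).2.1)),
      fun hh => (h2 e he).2.2 (mem_union_right _ (hh ▸ (h3.2 f hf).2.2))⟩
  refine ⟨h1.union h3.1 hd, Ok.union (h2.weaken (Subset.refl _) subset_union_left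
    subset_union_left) ?_, vec_union (disj_of hd)⟩
  intro e he
  exact ⟨hA (h3.2 e he).1, Finset.disjoint_left.1 dL (h3.2 e he).2.1,
    Finset.disjoint_left.1 dR (h3.2 e he).2.2⟩

theorem land {A : Finset K} {b c : K} {FL Y : Finset L} {FR Z : Finset R} {w : K → ℤ}
    (hC : S.Res b c Y Z) (hA : {b, c} ⊆ A) (dL : Disjoint Y FL) (dR : Disjoint Z FR)
    {i j : ℕ} (hij : i + j + 1 = Y.card) (h : S.Succ A (FL ∪ Y) (FR ∪ Z) w) :
    S.Succ A FL FR (w + ((i : ℤ) • dl b + (j : ℤ) • dl c)) := by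
  obtain ⟨M, f, h1, h2, h3, h4, h5, h6, h7⟩ := h
  have : ∃ m, S.In {b, c} Y Z m ∧ S.FrL m (S.lf f) ∧ S.FrR m (S.rt f) ∧
      S.vec m = (i : ℤ) • dl b + (j : ℤ) • dl c := by
    by_cases hz : S.rt f ∈ Z
    · obtain ⟨m, a1, a2, a3⟩ := hC.resR _ hz i j hij
      have := h6.resolve_right (fun hh => hh (mem_union_right _ hz))
      exact ⟨m, a1, fun e he hh => this (mem_union_right _ (hh ▸ (a1.2 e he).2.1)), a2, a3⟩
    · by_cases hy : S.lf f ∈ Y
      · obtain ⟨m, a1, a2, a3⟩ := hC.resL _ hy i j hij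
        exact ⟨m, a1, a2, fun e he hh => hz (hh ▸ (a1.2 e he).2.2), a3⟩
      · obtain ⟨x, hx⟩ := hC.ne
        obtain ⟨m, a1, a2, a3⟩ := hC.resL _ hx i j hij
        exact ⟨m, a1, fun e he hh => hy (hh ▸ (a1.2 e he).2.1),
          fun e he hh => hz (hh ▸ (a1.2 e he).2.2), a3⟩
  obtain ⟨m, a1, a2, a3, a4⟩ := this
  obtain ⟨g1, g2, g3⟩ := glue h1 h2 a1 hA dL dR
  refine ⟨M ∪ m, f, g1, g2, h3, fun e he => (mem_union.1 he).elim (h4 e) (a2 e),
    fun e he => (mem_union.1 he).elim (h5 e) (a3 e),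
    h6.imp (fun h h' => h (mem_union_left _ h')) (fun h h' => h (mem_union_left _ h')), ?_⟩
  rw [g3, a4, ← h7]; abel

theorem close {A A2 : Finset K} {k : K} {FL Y : Finset L} {FR Z : Finset R} {M : Finset E}
    (hC : S.Clo A2 Y Z) (hne : Y.Nonempty) (hA : A2 ⊆ A) (hk : k ∈ A2) (dL : Disjoint Y FL)
    (dR : Disjoint Z FR) (h1 : S.IsM M) (h2 : S.Ok A (FL ∪ Y) (FR ∪ Z) M) :
    S.Succ A FL FR (S.vec M + (Y.card : ℤ) • dl k) := by
  obtain ⟨m, a1, a2, a3⟩ := hC.full hk
  obtain ⟨g1, g2, g3⟩ := glue h1 h2 a1 hA dL dR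
  rw [← a3, ← g3]
  apply succ_of_mem g1 g2
  apply Nonempty.mono subset_union_right
  rw [← card_pos, a2]
  exact hne.card_pos

theorem dv {a b c k : K} (hab : a ≠ b) (hac : a ≠ c) (hbc : b ≠ c)
    (hk : k ∈ ({a, b, c} : Finset K)) :
    (dl k a = 1 ∧ dl k b = 0 ∧ dl k c = 0) ∨ (dl k a = 0 ∧ dl k b = 1 ∧ dl k c = 0) ∨
      (dl k a = 0 ∧ dl k b = 0 ∧ dl k c = 1) := by
  simp only [mem_insert, mem_singleton] at hk
  rcases hk with rfl | rfl | rfl <;>
    simp [dl, hab, hac, hbc, hab.symm, hac.symm, hbc.symm]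

theorem dl_off {A : Finset K} {k k' : K} (hk : k ∈ A) (hk' : k' ∉ A) : dl k k' = 0 := by
  unfold dl
  rw [Pi.single_apply, if_neg]
  rintro rfl; exact hk' hk

theorem ext3 {a b c : K} {u v : K → ℤ} (h : ∀ k, k ∉ ({a, b, c} : Finset K) → u k = v k)
    (ha : u a = v a) (hb : u b = v b) (hc : u c = v c) : u = v := by
  funext k
  by_cases hk : k ∈ ({a, b, c} : Finset K)
  · simp only [mem_insert, mem_singleton] at hk
    rcases hk with rfl | rfl | rfl <;> assumption
  · exact h k hk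

/-- an alternating path of the given length from a left vertex to an uncovered vertex
outside `Z`. -/
inductive Tm (S : Sys E L R K) (A : Finset K) (M : Finset E) (Z : Finset R) : ℕ → L → Prop
  | zero (u : L) (k : K) : k ∈ A → S.FrR M (S.rt (S.eL k u)) → S.rt (S.eL k u) ∉ Z → Tm S A M Z 0 u
  | succ (u : L) (k : K) (f : E) (n : ℕ) : k ∈ A → f ∈ M → S.rt f = S.rt (S.eL k u) →
      Tm S A M Z n (S.lf f) → Tm S A M Z (n + 1) u

theorem cross {a b c : K} (hab : a ≠ b) (hac : a ≠ c) (hbc : b ≠ c) {FL Y Y' : Finset L}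
    {FR Z Z' : Finset R} {M : Finset E} {B : K → ℤ} {j k l : ℕ}
    (hC : S.Res c b Y Z) (hC' : S.Res a b Y' Z') (dL : Disjoint Y FL) (dR : Disjoint Z FR)
    (dL' : Disjoint Y' (FL ∪ Y)) (dR' : Disjoint Z' (FR ∪ Z)) (hM : S.IsM M)
    (ho : S.Ok {a, b, c} (FL ∪ Y ∪ Y') (FR ∪ Z ∪ Z') M)
    (hv : S.vec M + ((j : ℤ) • dl a + (k : ℤ) • dl b + (l : ℤ) • dl c) = B)
    (hs : j + k + l + 1 = Y.card + Y'.card) (j0 : 0 < j) (jq : j < Y'.card) (l0 : 0 < l)
    (lp : l < Y.card) {w0 : L} (hw0 : w0 ∈ Y') {n0 : ℕ} (hT : S.Tm {a, b, c} M Z' n0 w0) :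
    S.Succ {a, b, c} FL FR B := by
  classical
  by_contra hno
  set A : Finset K := {a, b, c} with hA
  have ha : a ∈ A := by simp [hA]
  have hb : b ∈ A := by simp [hA]
  have hc : c ∈ A := by simp [hA]
  have sC : ({c, b} : Finset K) ⊆ A := insert_subset hc (singleton_subset_iff.2 hb)
  have sC' : ({a, b} : Finset K) ⊆ A := insert_subset ha (singleton_subset_iff.2 hb)
  have da : dl a a = 1 ∧ dl a b = 0 ∧ dl a c = 0 := by simp [dl, hab.symm, hac.symm]
  have db : dl b a = 0 ∧ dl b b = 1 ∧ dl b c = 0 := by simp [dl, hab, hbc.symm]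
  have dc : dl c a = 0 ∧ dl c b = 0 ∧ dl c c = 1 := by simp [dl, hac, hbc]
  have dk : ∀ k ∈ A, _ := fun k hk => dv hab hac hbc hk
  set p : ℤ := (Y.card : ℤ) with hp
  set q : ℤ := (Y'.card : ℤ) with hq
  have Boff : ∀ k, k ∉ A → B k = 0 := by
    intro k hk
    rw [← hv]
    simp [vec_off (fun e he => (ho e he).1) hk, dl_off ha hk, dl_off hb hk, dl_off hc hk]
  have Ba : B a = S.vec M a + j := by rw [← hv]; simp [da, db, dc]
  have Bb : B b = S.vec M b + k := by rw [← hv]; simp [da, db, dc]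
  have Bc : B c = S.vec M c + l := by rw [← hv]; simp [da, db, dc]
  have F1 : ∀ N, S.IsM N → S.Ok A (FL ∪ Y) (FR ∪ Z) N →
      S.vec N a + S.vec N b + S.vec N c = B a + B b + B c - p →
      ¬ fb p (S.vec N a - B a) (S.vec N c - B c + p) := by
    rintro N h1 h2 h3 ⟨h4, h5 | h5⟩
    · apply hno
      have := close hC.clo hC.ne sC (mem_insert_self c _) dL dR h1 h2
      rwa [ext3 (a := a) (b := b) (c := c) (u := S.vec N + (Y.card : ℤ) • dl c) (v := B)
        (fun k hk => by simp [vec_off (fun e he => (h2 e he).1) hk, dl_off hc hk, Boff k hk])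
        (by simp [dc]; omega) (by simp [dc]; omega) (by simp [dc]; omega)] at this
    · apply hno
      have := close (k := b) hC.clo hC.ne sC (by simp) dL dR h1 h2
      rwa [ext3 (a := a) (b := b) (c := c) (u := S.vec N + (Y.card : ℤ) • dl b) (v := B)
        (fun k hk => by simp [vec_off (fun e he => (h2 e he).1) hk, dl_off hb hk, Boff k hk])
        (by simp [db]; omega) (by simp [db]; omega) (by simp [db]; omega)] at this
  have F2 : ∀ w, S.Succ A (FL ∪ Y) (FR ∪ Z) w → w a + w b + w c = B a + B b + B c - p + 1 →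
      ¬ (w a - B a = 0 ∧ 1 ≤ w c - B c + p ∧ w c - B c + p ≤ p) := by
    rintro w h1 h2 ⟨h3, h4, h5⟩
    apply hno
    have woff : ∀ k, k ∉ A → w k = 0 := by
      obtain ⟨N, f, _, a2, a3, _, _, _, rfl⟩ := h1
      intro k hk
      simp [vec_off (fun e he => (a2 e he).1) hk, dl_off a3 hk]
    obtain ⟨i, hi⟩ : ∃ i : ℕ, (i : ℤ) = B c - w c := ⟨(B c - w c).toNat, by omega⟩
    obtain ⟨i', hi'⟩ : ∃ i' : ℕ, (i' : ℤ) = B b - w b := ⟨(B b - w b).toNat, by omega⟩
    have := land hC sC dL dR (i := i) (j := i') (by omega) h1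
    rwa [ext3 (a := a) (b := b) (c := c) (u := w + ((i : ℤ) • dl c + (i' : ℤ) • dl b)) (v := B)
      (fun k hk => by simp [woff k hk, dl_off hb hk, dl_off hc hk, Boff k hk])
      (by simp [db, dc]; omega) (by simp [db, dc]; omega) (by simp [db, dc]; omega)] at this
  let Real : L → ℕ → (K → ℤ) → Prop := fun w n u => u a + u b + u c = B a + B b + B c - p ∧
    ∃ N, S.IsM N ∧ S.Ok A (FL ∪ Y) (FR ∪ Z) N ∧ S.vec N = u ∧ S.FrL N w ∧
      (∀ e ∈ N, S.rt e ∈ Z' ∨ ∃ f ∈ M, S.rt f = S.rt e) ∧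
      (∀ f ∈ M, (∃ n' < n, S.Tm A M Z' n' (S.lf f)) → f ∈ N)
  let Adj : (K → ℤ) → (K → ℤ) → Prop := fun u v =>
    st (u a - B a) (u c - B c + p) (v a - B a) (v c - B c + p)
  let wt : (K → ℤ) → (K → ℤ) → ℤ := fun u v =>
    om p (u a - B a) (u c - B c + p) (v a - B a) (v c - B c + p)
  have nf : ∀ w n u, Real w n u → ¬ fb p (u a - B a) (u c - B c + p) := by
    rintro w n u ⟨h1, N, h2, h3, rfl, _⟩
    exact F1 N h2 h3 h1
  have side : ∀ s ∈ ({a, b} : Finset K), ∀ k1 ∈ A, ∀ k2 ∈ A,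
      wt (S.vec M + q • dl s - dl k1) (S.vec M + q • dl s - dl k2) = 0 := by
    intro s hs k1 h1 k2 h2
    have := F2 _ (close hC'.clo hC'.ne sC' hs dL' dR' hM ho) (by
      have := dk s (sC' hs)
      simp only [Pi.add_apply, Pi.smul_apply, smul_eq_mul]
      rcases this with ⟨e1, e2, e3⟩ | ⟨e1, e2, e3⟩ | ⟨e1, e2, e3⟩ <;> rw [e1, e2, e3] <;> omega)
    have a1 := dk k1 h1
    have a2 := dk k2 h2
    simp only [wt, om, Pi.sub_apply]
    generalize S.vec M + q • dl s = P at this ⊢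
    split_ifs <;> omega
  have sideR : ∀ s ∈ ({a, b} : Finset K), ∀ f ∈ M, ∀ n, (∀ n' < n, ¬ S.Tm A M Z' n' (S.lf f)) →
      Real (S.lf f) n (S.vec M + q • dl s - dl (S.col f)) := by
    intro s hs f hf n hn
    obtain ⟨m, a1, a2, a3⟩ := hC'.clo.full hs
    obtain ⟨g1, g2, g3⟩ := glue (hM.mono (erase_subset f M)) (ho.mono (erase_subset f M)) a1 sC'
      dL' dR'
    refine ⟨?_, M.erase f ∪ m, g1, g2, ?_, ?_, ?_, ?_⟩
    · have := dk s (sC' hs)
      have := dk _ (ho f hf).1
      simp only [Pi.add_apply, Pi.sub_apply, Pi.smul_apply, smul_eq_mul]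
      rcases dk s (sC' hs) with ⟨e1, e2, e3⟩ | ⟨e1, e2, e3⟩ | ⟨e1, e2, e3⟩ <;>
        rw [e1, e2, e3] <;> omega
    · rw [g3, a3, ← vec_erase hf]; abel
    · intro e he hh
      rcases mem_union.1 he with he | he
      · exact (mem_erase.1 he).1 (hM.l e (mem_erase.1 he).2 f hf hh)
      · exact (ho f hf).2.1 (mem_union_right _ (hh ▸ (a1.2 e he).2.1))
    · intro e he
      rcases mem_union.1 he with he | he
      · exact Or.inr ⟨e, (mem_erase.1 he).2, rfl⟩
      · exact Or.inl (a1.2 e he).2.2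
    · rintro f' hf' ⟨n', h1, h2⟩
      exact mem_union_left _ (mem_erase.2 ⟨fun hh => hn n' h1 (hh ▸ h2), hf'⟩)
  have claim : ∀ n w, S.Tm A M Z' n w → ∀ k1 ∈ A, ∀ k2 ∈ A, (∀ n' < n, ¬ S.Tm A M Z' n' w) →
      w ∉ FL ∪ Y → ¬ Row (Real w n) Adj wt (S.vec M + q • dl b - dl k1)
        (S.vec M + q • dl a - dl k2) 1 := by
    intro n w hT
    induction hT with
    | zero w k hk z1 z2 =>
      intro k1 _ k2 _ _ hw hrow
      have G : ∀ u, Real w 0 u → ¬ ((u + dl k) a - B a = 0 ∧ 1 ≤ (u + dl k) c - B c + p ∧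
          (u + dl k) c - B c + p ≤ p) := by
        rintro u ⟨h1, N, h2, h3, rfl, h4, h5, _⟩
        apply F2
        · refine ⟨N, S.eL k w, h2, h3, by rwa [S.col_eL], by rwa [S.lf_eL], ?_,
            Or.inl (by rwa [S.lf_eL]), by rw [S.col_eL]⟩
          intro e he hh
          rcases h5 e he with h | ⟨f, hf, h⟩
          · exact z2 (hh ▸ h)
          · exact z1 f hf (h.trans hh)
        · have := dk k hk
          simp only [Pi.add_apply]; omega
      obtain ⟨u1, u2, r1, r2, h1, h2⟩ := hrow.cross one_ne_zero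
      have g1 := G u1 r1
      have g2 := G u2 r2
      have := dk k hk
      simp only [Pi.add_apply] at g1 g2
      simp only [Adj, st] at h1
      simp only [wt, om] at h2
      split_ifs at h2 <;> omega
    | succ w k f n hk hf e hT ih =>
      intro k1 hk1 k2 hk2 hmin hw hrow
      have hmin' : ∀ n' < n, ¬ S.Tm A M Z' n' (S.lf f) := fun n' h1 h2 =>
        hmin (n' + 1) (by omega) (Tm.succ w k f n' hk hf e h2)
      have cf := (ho f hf).1
      have d1 := dk k hk
      have d2 := dk _ cf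
      have d3 := dk _ hk1
      have d4 := dk _ hk2
      let s : (K → ℤ) → (K → ℤ) := fun u => u + dl k - dl (S.col f)
      have sa : ∀ u, s u a - B a = u a - B a + (dl k a - dl (S.col f) a) := by
        intro u; simp only [s, Pi.add_apply, Pi.sub_apply]; ring
      have sc : ∀ u, s u c - B c + p = u c - B c + p + (dl k c - dl (S.col f) c) := by
        intro u; simp only [s, Pi.add_apply, Pi.sub_apply]; ring
      have h1 : ∀ u, Real w (n + 1) u → Real (S.lf f) n (s u) := by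
        rintro u ⟨h1, N, h2, h3, rfl, h4, h5, h6⟩
        have fN : f ∈ N := h6 f hf ⟨n, by omega, hT⟩
        have mv := mvL (f := S.eL k w) h2 h3 (by rwa [S.col_eL]) (by rwa [S.lf_eL])
          (by rwa [S.lf_eL]) fN e.symm
        refine ⟨?_, _, mv.isM, mv.ok, ?_, mv.frL, ?_, ?_⟩
        · simp only [s, Pi.add_apply, Pi.sub_apply]; omega
        · have := mv.vec
          rw [S.col_eL] at this
          simp only [s]
          rw [← this]; abel
        · intro e' he'
          rcases mem_insert.1 he' with rfl | he'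
          · exact Or.inr ⟨f, hf, e⟩
          · exact h5 e' (mem_erase.1 he').2
        · rintro f' hf' ⟨n', a1, a2⟩
          exact mem_insert_of_mem (mem_erase.2 ⟨fun hh => hmin' n' a1 (hh ▸ a2),
            h6 f' hf' ⟨n', by omega, a2⟩⟩)
      have row := hrow.shift s h1
        (by
          intro u v h
          simp only [Adj, sa, sc, st] at h ⊢
          omega)
        (by
          intro u v ru rv h
          have f3 := nf _ _ _ (h1 u ru)
          have f4 := nf _ _ _ (h1 v rv)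
          simp only [wt, sa, sc] at f3 f4 ⊢
          exact om_rho h (by unfold st; omega) (nf _ _ _ ru) (nf _ _ _ rv) f3 f4)
      have r1 := sideR b (by simp) f hf n hmin'
      have r2 := sideR a (by simp) f hf n hmin'
      have z1 := side b (by simp) k1 hk1 _ cf
      have z2 := side a (by simp) k2 hk2 _ cf
      generalize S.vec M + q • dl b = P1 at *
      generalize S.vec M + q • dl a = P2 at *
      have A1 : Adj (P1 - dl (S.col f)) (s (P1 - dl k1)) := by
        simp only [Adj, sa, sc, st, Pi.sub_apply]; omega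
      have A2 : Adj (s (P2 - dl k2)) (P2 - dl (S.col f)) := by
        simp only [Adj, sa, sc, st, Pi.sub_apply]; omega
      have t1 : wt (P1 - dl k1) (P1 - dl (S.col f)) + wt (P1 - dl (S.col f)) (s (P1 - dl k1)) =
          wt (P1 - dl k1) (s (P1 - dl k1)) :=
        om_tri (by simp only [st, Pi.sub_apply]; omega) A1
          (by simp only [sa, sc, st, Pi.sub_apply]; omega) (nf _ _ _ hrow.first) (nf _ _ _ r1)
          (nf _ _ _ row.first)
      have t2 : wt (P2 - dl k2) (s (P2 - dl k2)) + wt (s (P2 - dl k2)) (P2 - dl (S.col f)) =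
          wt (P2 - dl k2) (P2 - dl (S.col f)) :=
        om_tri (by simp only [sa, sc, st, Pi.sub_apply]; omega) A2
          (by simp only [st, Pi.sub_apply]; omega) (nf _ _ _ hrow.last) (nf _ _ _ row.last)
          (nf _ _ _ r2)
      have row2 := (row.cons r1 A1).snoc A2 r2
      apply ih _ cf _ cf hmin' (fun hh => (ho f hf).2.1 (mem_union_left _ hh))
      rwa [show wt (P1 - dl (S.col f)) (s (P1 - dl k1)) + (1 + wt (P2 - dl k2) (s (P2 - dl k2)) -
        wt (P1 - dl k1) (s (P1 - dl k1))) + wt (s (P2 - dl k2)) (P2 - dl (S.col f)) = 1 by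
        omega] at row2
  have hex : ∃ n, S.Tm A M Z' n w0 := ⟨n0, hT⟩
  have mid : ∀ t t' : ℕ, t + t' + 1 = Y'.card →
      Real w0 (Nat.find hex) (S.vec M + ((t : ℤ) • dl a + (t' : ℤ) • dl b)) := by
    intro t t' ht
    obtain ⟨m, a1, a2, a3⟩ := hC'.resL w0 hw0 t t' ht
    obtain ⟨g1, g2, g3⟩ := glue hM ho a1 sC' dL' dR'
    refine ⟨by simp [da, db]; omega, M ∪ m, g1, g2, by rw [g3, a3], ?_, ?_,
      fun f hf _ => mem_union_left _ hf⟩
    · intro e he hh
      rcases mem_union.1 he with he | he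
      · exact (ho e he).2.1 (mem_union_right _ (hh ▸ hw0))
      · exact a2 e he hh
    · intro e he
      rcases mem_union.1 he with he | he
      · exact Or.inr ⟨e, he, rfl⟩
      · exact Or.inl (a1.2 e he).2.2
  have row0 : ∀ t t' : ℕ, t + t' + 1 = Y'.card → Row (Real w0 (Nat.find hex)) Adj wt
      (S.vec M + q • dl b - dl b) (S.vec M + ((t : ℤ) • dl a + (t' : ℤ) • dl b))
      (if j ≤ t then 1 else 0) := by
    intro t
    induction t with
    | zero =>
      intro t' ht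
      rw [if_neg (by omega), show S.vec M + q • dl b - dl b =
        S.vec M + (((0 : ℕ) : ℤ) • dl a + (t' : ℤ) • dl b) by
          rw [hq, ← ht]; push_cast; module]
      exact Row.refl (mid 0 t' ht)
    | succ t ih =>
      intro t' ht
      have := (ih (t' + 1) (by omega)).snoc (by simp [Adj, st, da, db]; omega) (mid (t + 1) t' ht)
      rwa [show (if j ≤ t then (1 : ℤ) else 0) + wt (S.vec M + ((t : ℤ) • dl a +
          ((t' + 1 : ℕ) : ℤ) • dl b)) (S.vec M + (((t + 1 : ℕ) : ℤ) • dl a + (t' : ℤ) • dl b)) =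
          if j ≤ t + 1 then 1 else 0 by
        simp only [wt, om, Pi.add_apply, Pi.smul_apply, smul_eq_mul, da, db]
        push_cast
        split_ifs <;> omega] at this
  apply claim _ w0 (Nat.find_spec hex) b hb a ha (fun n' h => Nat.find_min hex h)
    (Finset.disjoint_left.1 dL' hw0)
  have := row0 (Y'.card - 1) 0 (by omega)
  rwa [if_pos (by omega), show S.vec M + (((Y'.card - 1 : ℕ) : ℤ) • dl a + ((0 : ℕ) : ℤ) • dl b) =
    S.vec M + q • dl a - dl a by
      rw [hq, Nat.cast_sub (by omega)]; push_cast; module] at this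

end Sys

end Pool.Agent.Lib.MP_cc2426_co
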