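import Mathlib
import Pool.Agent.Lib.MP_cc2426_co.Cross

/-! Closed vertex sets: closure of a reservoir, and Drisko's theorem. -/

set_option autoImplicit false
set_option linter.unusedSectionVars false

namespace Pool.Agent.Lib.MP_cc2426_co

open Finset

variable {E L R K : Type*} [DecidableEq E] [DecidableEq L] [DecidableEq R] [DecidableEq K]

namespace Sys

variable {S : Sys E L R K}

theorem lf_eR_rt (k : K) (u : L) : S.lf (S.eR k (S.rt (S.eL k u))) = u := by
  have := S.eR_eq (S.eL k u)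
  rw [S.col_eL] at this
  rw [this, S.lf_eL]

theorem closure [Fintype L] {A : Finset K} (hA : A.Nonempty) {M : Finset E} {Y : Finset L}
    {Z : Finset R} (hM : S.IsM M) (hc : Z.card = Y.card) (hav : ∀ e ∈ M, S.lf e ∉ Y ∧ S.rt e ∉ Z)
    (hno : ∀ w ∈ Y, ∀ n, ¬ S.Tm A M Z n w) :
    ∃ X XR, S.Clo A X XR ∧ XR.card = X.card ∧ (∀ u ∈ X, u ∈ Y ∨ ∃ f ∈ M, S.lf f = u) ∧
      (∀ z ∈ XR, z ∈ Z ∨ ∃ f ∈ M, S.rt f = z) ∧ (∀ f ∈ M, S.lf f ∈ X ↔ S.rt f ∈ XR) ∧
      (M.filter (fun f => S.lf f ∈ X)).card + Y.card = X.card ∧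
      ∀ X2 XR2, S.Clo A X2 XR2 → (∀ f ∈ M, S.lf f ∈ X2 ↔ S.rt f ∈ XR2) → Disjoint Y X2 →
        Disjoint X X2 := by
  classical
  let step : L → L → Prop := fun u v => ∃ k ∈ A, ∃ f ∈ M, S.rt f = S.rt (S.eL k u) ∧ S.lf f = v
  set X : Finset L := univ.filter (fun u => ∃ w ∈ Y, Relation.ReflTransGen step w u) with hX
  have memX : ∀ u, u ∈ X ↔ ∃ w ∈ Y, Relation.ReflTransGen step w u := by
    intro u; simp [hX]
  have noT : ∀ u ∈ X, ∀ n, ¬ S.Tm A M Z n u := by
    intro u hu
    obtain ⟨w, hw, h⟩ := (memX u).1 hu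
    clear hu
    induction h with
    | refl => exact hno w hw
    | tail _ h ih =>
      obtain ⟨k, hk, f, hf, e, rfl⟩ := h
      exact fun n hn => ih (n + 1) (Tm.succ _ k f n hk hf e hn)
  have src : ∀ u ∈ X, u ∈ Y ∨ ∃ f ∈ M, S.lf f = u := by
    intro u hu
    obtain ⟨w, hw, h⟩ := (memX u).1 hu
    cases h with
    | refl => exact Or.inl hw
    | tail _ h =>
      obtain ⟨k, hk, f, hf, e, rfl⟩ := h
      exact Or.inr ⟨f, hf, rfl⟩
  set MX := M.filter (fun f => S.lf f ∈ X) with hMX
  set XR := Z ∪ MX.image S.rt with hXR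
  have cl : ∀ k ∈ A, ∀ u ∈ X, S.rt (S.eL k u) ∈ XR := by
    intro k hk u hu
    by_cases hz : S.rt (S.eL k u) ∈ Z
    · exact mem_union_left _ hz
    · have : ¬ S.FrR M (S.rt (S.eL k u)) := fun h => noT u hu 0 (Tm.zero u k hk h hz)
      unfold FrR at this
      push Not at this
      obtain ⟨f, hf, e⟩ := this
      obtain ⟨w, hw, h⟩ := (memX u).1 hu
      refine mem_union_right _ (mem_image.2 ⟨f, mem_filter.2 ⟨hf, (memX _).2 ⟨w, hw, ?_⟩⟩, e⟩)
      exact h.tail ⟨k, hk, f, hf, e, rfl⟩
  have eX : X = Y ∪ MX.image S.lf := by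
    ext u
    rw [mem_union, mem_image]
    constructor
    · intro hu
      exact (src u hu).imp id (fun ⟨f, hf, e⟩ => ⟨f, mem_filter.2 ⟨hf, e ▸ hu⟩, e⟩)
    · rintro (h | ⟨f, hf, rfl⟩)
      · exact (memX u).2 ⟨u, h, Relation.ReflTransGen.refl⟩
      · exact (mem_filter.1 hf).2
  have c1 : MX.card + Y.card = X.card := by
    rw [eX, card_union_of_disjoint, card_image_of_injOn, add_comm]
    · exact fun e he f hf => hM.l e (mem_filter.1 he).1 f (mem_filter.1 hf).1
    · rw [Finset.disjoint_right]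
      intro u hu
      obtain ⟨f, hf, rfl⟩ := mem_image.1 hu
      exact (hav f (mem_filter.1 hf).1).1
  have c2 : XR.card ≤ X.card := by
    have := card_union_le Z (MX.image S.rt)
    have := card_image_le (s := MX) (f := S.rt)
    rw [hXR]; omega
  have im : ∀ k ∈ A, X.image (fun u => S.rt (S.eL k u)) = XR := by
    intro k hk
    apply eq_of_subset_of_card_le
    · intro z hz
      obtain ⟨u, hu, rfl⟩ := mem_image.1 hz
      exact cl k hk u hu
    · rwa [card_image_of_injective _ (fun u v h => rt_eL_inj' k h)]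
  refine ⟨X, XR, ⟨cl, ?_⟩, ?_, src, ?_, ?_, c1, ?_⟩
  · intro k hk z hz
    rw [← im k hk] at hz
    obtain ⟨u, hu, rfl⟩ := mem_image.1 hz
    rwa [lf_eR_rt]
  · obtain ⟨k, hk⟩ := hA
    rw [← im k hk, card_image_of_injective _ (fun u v h => rt_eL_inj' k h)]
  · intro z hz
    refine (mem_union.1 hz).imp id (fun h => ?_)
    obtain ⟨f, hf, e⟩ := mem_image.1 h
    exact ⟨f, (mem_filter.1 hf).1, e⟩
  · intro f hf
    constructor
    · exact fun h => mem_union_right _ (mem_image_of_mem _ (mem_filter.2 ⟨hf, h⟩))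
    · intro h
      rcases mem_union.1 h with h | h
      · exact absurd h (hav f hf).2
      · obtain ⟨g, hg, e⟩ := mem_image.1 h
        rw [← hM.r g (mem_filter.1 hg).1 f hf e]
        exact (mem_filter.1 hg).2
  · intro X2 XR2 h1 h2 h3
    rw [Finset.disjoint_left]
    intro u hu
    obtain ⟨w, hw, h⟩ := (memX u).1 hu
    clear hu
    induction h with
    | refl => exact Finset.disjoint_left.1 h3 hw
    | tail _ h ih =>
      obtain ⟨k, hk, f, hf, e, rfl⟩ := h
      intro hh
      have := h1.r k hk _ ((h2 f hf).1 hh)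
      rw [e, lf_eR_rt] at this
      exact ih this

theorem in_iff [Fintype L] [Fintype R] {A : Finset K} {X : Finset L} {XR : Finset R}
    {N : Finset E} : S.In A X XR N ↔ S.IsM N ∧ S.Ok A Xᶜ XRᶜ N := by
  simp [In, Ok]

theorem dl_nonneg (k : K) : 0 ≤ dl k := by
  intro c
  simp only [dl, Pi.single_apply, Pi.zero_apply]
  split_ifs <;> omega

theorem add_dl_le {U T : K → ℤ} {k : K} (h : U ≤ T) (hk : U k < T k) : U + dl k ≤ T := by
  intro c
  have : U c ≤ T c := h c
  simp only [dl, Pi.single_apply, Pi.add_apply]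
  split_ifs with hc
  · subst hc; omega
  · omega

theorem drisko [Fintype L] [Fintype R] {A : Finset K} {X : Finset L} {XR : Finset R}
    (hC : S.Clo A X XR) {T : K → ℤ} (hT : 0 ≤ T) (hs : 2 * (X.card : ℤ) ≤ ∑ k ∈ A, T k + 1) :
    ∃ N, S.In A X XR N ∧ N.card = X.card ∧ S.vec N ≤ T := by
  suffices h : ∀ j ≤ X.card, ∃ N, S.IsM N ∧ S.Ok A Xᶜ XRᶜ N ∧ N.card = j ∧ S.vec N ≤ T by
    obtain ⟨N, h1, h2, h3, h4⟩ := h _ le_rfl
    exact ⟨N, in_iff.2 ⟨h1, h2⟩, h3, h4⟩
  intro j
  induction j with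
  | zero => exact fun _ => ⟨∅, ⟨by simp, by simp⟩, by simp [Ok], rfl, hT⟩
  | succ j ih =>
    intro hj
    obtain ⟨N, h1, h2, h3, h4⟩ := ih (by omega)
    obtain ⟨x, x1, x2⟩ := exists_frL (S := S) (FL := Xᶜ) (M := N) (by
      have := card_add_card_compl X
      omega)
    by_contra hno
    have inner : ∀ i ≤ j + 1, ∃ P U, P ⊆ N ∧ P.card = i ∧ U ≤ T ∧ ∑ k ∈ A, U k = j + i ∧
        ∀ u ∈ insert x (P.image S.lf), ∃ Nu, S.IsM Nu ∧ S.Ok A Xᶜ XRᶜ Nu ∧ Nu.card = j ∧
          S.vec Nu ≤ U ∧ S.FrL Nu u ∧ N \ P ⊆ Nu ∧ ∀ z, S.FrR N z → S.FrR Nu z := by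
      intro i
      induction i with
      | zero =>
        intro _
        refine ⟨∅, S.vec N, empty_subset _, rfl, h4, by
          rw [sum_vec (fun e he => (h2 e he).1), h3]; simp, ?_⟩
        intro u hu
        have : u = x := by simpa using hu
        exact ⟨N, h1, h2, h3, le_rfl, this ▸ x2, sdiff_subset, fun _ h => h⟩
      | succ i ih2 =>
        intro hi
        obtain ⟨P, U, p1, p2, p3, p4, p5⟩ := ih2 (by omega)
        obtain ⟨k, hk, hU⟩ : ∃ k ∈ A, U k < T k := exists_lt_of_sum_lt (by omega)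
        have c1 : (insert x (P.image S.lf)).card = i + 1 := by
          rw [card_insert_of_notMem, card_image_of_injOn, p2]
          · exact fun e he f hf => h1.l e (p1 he) f (p1 hf)
          · intro h
            obtain ⟨f, hf, e⟩ := mem_image.1 h
            exact x2 f (p1 hf) e
        obtain ⟨z, z1, z2⟩ := exists_mem_notMem_of_card_lt_card (s := P.image S.rt)
          (t := (insert x (P.image S.lf)).image (fun u => S.rt (S.eL k u))) (by
            rw [card_image_of_injective _ (fun u v h => rt_eL_inj' k h), c1]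
            have := card_image_le (s := P) (f := S.rt)
            omega)
        obtain ⟨u, hu, rfl⟩ := mem_image.1 z1
        obtain ⟨Nu, a1, a2, a3, a4, a5, a6, a7⟩ := p5 u hu
        have uX : u ∉ Xᶜ := by
          rcases mem_insert.1 hu with rfl | hu
          · exact x1
          · obtain ⟨f, hf, rfl⟩ := mem_image.1 hu
            exact (h2 f (p1 hf)).2.1
        have le1 : S.vec Nu + dl k ≤ U + dl k := by gcongr
        by_cases hf : S.FrR N (S.rt (S.eL k u))
        · exfalso
          apply hno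
          have nm : S.eL k u ∉ Nu := fun h => a5 _ h (S.lf_eL _ _)
          refine ⟨insert (S.eL k u) Nu, a1.insert (by rwa [S.lf_eL]) (a7 _ hf), ?_,
            by rw [card_insert_of_notMem nm, a3], ?_⟩
          · intro e he
            rcases mem_insert.1 he with rfl | he
            · refine ⟨by rwa [S.col_eL], by rwa [S.lf_eL], ?_⟩
              rw [notMem_compl] at uX ⊢
              exact hC.l k hk u uX
            · exact a2 e he
          · rw [vec_insert nm, S.col_eL]
            exact le1.trans (add_dl_le p3 hU)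
        · unfold FrR at hf
          push Not at hf
          obtain ⟨f, hf, e⟩ := hf
          have fP : f ∉ P := fun h => z2 (mem_image.2 ⟨f, h, e⟩)
          have mv := mvL (f := S.eL k u) a1 a2 (by rwa [S.col_eL]) (by rwa [S.lf_eL])
            (by rwa [S.lf_eL]) (a6 (mem_sdiff.2 ⟨hf, fP⟩)) e.symm
          refine ⟨insert f P, U + dl k, insert_subset hf p1, by rw [card_insert_of_notMem fP, p2],
            add_dl_le p3 hU, by
              simp only [Pi.add_apply, sum_add_distrib, p4, sum_dl hk]; push_cast; ring, ?_⟩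
          intro u' hu'
          by_cases hh : u' = S.lf f
          · refine ⟨_, mv.isM, mv.ok, mv.card.trans a3, ?_, hh ▸ mv.frL, ?_,
              fun z hz => mv.keepR z (a7 z hz)⟩
            · have := mv.vec
              rw [S.col_eL] at this
              exact ((le_add_of_nonneg_right (dl_nonneg _)).trans this.le).trans le1
            · intro g hg
              rw [mem_sdiff, mem_insert, not_or] at hg
              exact mem_insert_of_mem (mem_erase.2 ⟨hg.2.1, a6 (mem_sdiff.2 ⟨hg.1, hg.2.2⟩)⟩)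
          · obtain ⟨Nu', b1, b2, b3, b4, b5, b6, b7⟩ := p5 u' (by
              simp only [image_insert, mem_insert] at hu' ⊢
              tauto)
            exact ⟨Nu', b1, b2, b3, b4.trans (le_add_of_nonneg_right (dl_nonneg _)), b5,
              (sdiff_subset_sdiff (Subset.refl _) (subset_insert _ _)).trans b6, b7⟩
    obtain ⟨P, _, p1, p2, _⟩ := inner (j + 1) le_rfl
    have := card_le_card p1
    omega

theorem fill [Fintype L] [Fintype R] {A : Finset K} {X : Finset L} {XR : Finset R}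
    (hC : S.Clo A X XR) (hc : XR.card = X.card) {r : ℕ}
    (core : ∀ M t, S.IsM M → S.Ok A Xᶜ XRᶜ M → t ∈ A →
      M.card + (r + 1) + (Xᶜ).card ≤ Fintype.card L →
      M.card + (r + 1) + (XRᶜ).card ≤ Fintype.card R → S.Succ A Xᶜ XRᶜ (S.vec M + dl t)) :
    ∀ (j : ℕ) (T : K → ℤ), 0 ≤ T → (∀ k, k ∉ A → T k = 0) → ∑ k ∈ A, T k = j →
      j + r ≤ X.card → ∃ N, S.In A X XR N ∧ S.vec N = T := by
  intro j
  induction j with
  | zero =>
    intro T h1 h2 h3 _
    refine ⟨∅, ⟨⟨by simp, by simp⟩, by simp⟩, ?_⟩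
    funext k
    by_cases hk : k ∈ A
    · exact ((sum_eq_zero_iff_of_nonneg (fun k _ => h1 k)).1 h3 k hk).symm
    · exact (h2 k hk).symm
  | succ j ih =>
    intro T h1 h2 h3 h4
    obtain ⟨k, hk, hU⟩ : ∃ k ∈ A, (0 : K → ℤ) k < T k :=
      exists_lt_of_sum_lt (by simp only [Pi.zero_apply, sum_const_zero]; omega)
    have := add_dl_le h1 hU
    obtain ⟨N, n1, n2⟩ := ih (T - dl k) (by simpa using this)
      (fun k' hk' => by simp [h2 k' hk', dl_off hk hk'])
      (by simp only [Pi.sub_apply, sum_sub_distrib, h3, sum_dl hk]; push_cast; ring) (by omega)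
    have c1 : N.card = j := by
      have := sum_vec (S := S) (fun e he => (n1.2 e he).1)
      rw [n2] at this
      simp only [Pi.sub_apply, sum_sub_distrib, h3, sum_dl hk] at this
      omega
    have c2 := card_add_card_compl X
    have c3 := card_add_card_compl XR
    obtain ⟨M, f, a1, a2, a3, a4, a5, a6, a7⟩ := core N k n1.1 (in_iff.1 n1).2 hk (by omega)
      (by omega)
    have nm : f ∉ M := fun h => a4 f h rfl
    refine ⟨insert f M, ⟨a1.insert a4 a5, ?_⟩, by rw [vec_insert nm, a7, n2]; abel⟩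
    intro e he
    rcases mem_insert.1 he with rfl | he
    · simp only [notMem_compl] at a6
      rcases a6 with h | h
      · have := hC.l _ a3 _ h
        rw [S.eL_eq] at this
        exact ⟨a3, h, this⟩
      · have := hC.r _ a3 _ h
        rw [S.eR_eq] at this
        exact ⟨a3, this, h⟩
    · exact (in_iff.2 ⟨a1, a2⟩).2 e he

end Sys

end Pool.Agent.Lib.MP_cc2426_co
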