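import Mathlib
import Pool.Agent.Lib.MP_cc2426_co.Basic

/-! Tracking an alternating path: one more colour costs one more uncovered pair. -/

set_option autoImplicit false
set_option linter.unusedSectionVars false

namespace Pool.Agent.Lib.MP_cc2426_co

open Finset

variable {E L R K : Type*} [DecidableEq E] [DecidableEq L] [DecidableEq R] [DecidableEq K]

namespace Sys

/-- alternating path (colour `c`, then an edge of `M`, ...) from a left vertex to `y`. -/
inductive Pth (S : Sys E L R K) (c : K) (M : Finset E) (y : R) : L → ℕ → Prop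
  | stop (u : L) : S.rt (S.eL c u) = y → Pth S c M y u 0
  | step (u : L) (g : E) (n : ℕ) : g ∈ M → S.rt g = S.rt (S.eL c u) → Pth S c M y (S.lf g) n →
      Pth S c M y u (n + 1)

variable {S : Sys E L R K}

theorem Pth.left {c : K} {N N' : Finset E} {g : E} (hN : ∀ e ∈ N, e ≠ g → e ∈ N') {y : R}
    {u : L} {n : ℕ} (h : S.Pth c N y u n) :
    S.Pth c N' y u n ∨ ∃ n' < n, S.Pth c N' y (S.lf g) n' := by
  induction h with
  | stop u h => exact Or.inl (Pth.stop u h)
  | step u e n he h1 _ ih =>
    rcases ih with ih | ⟨n', hn, ih⟩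
    · by_cases hg : e = g
      · subst hg; exact Or.inr ⟨n, by omega, ih⟩
      · exact Or.inl (Pth.step u e n (hN e he hg) h1 ih)
    · exact Or.inr ⟨n', by omega, ih⟩

theorem Pth.right {c : K} {N N' : Finset E} {g : E} (hN : ∀ e ∈ N, e ≠ g → e ∈ N') {y : R}
    {u : L} {n : ℕ} (h : S.Pth c N y u n) :
    S.Pth c N' y u n ∨ ∃ n' < n, S.Pth c N' (S.rt g) u n' := by
  induction h with
  | stop u h => exact Or.inl (Pth.stop u h)
  | step u e n he h1 _ ih =>
    by_cases hg : e = g
    · subst hg; exact Or.inr ⟨0, by omega, Pth.stop u h1.symm⟩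
    · rcases ih with ih | ⟨n', hn, ih⟩
      · exact Or.inl (Pth.step u e n (hN e he hg) h1 ih)
      · exact Or.inr ⟨n' + 1, by omega, Pth.step u e n' (hN e he hg) h1 ih⟩

theorem Pth.sub {c : K} {M : Finset E} {y : R} {u : L} {n : ℕ} (h : S.Pth c M y u n) :
    ∃ P, P ⊆ M ∧ ∀ N, P ⊆ N → S.Pth c N y u n ∧ ∀ g ∈ P,
      (∃ n' < n, S.Pth c N y (S.lf g) n') ∧ (∃ n' < n, S.Pth c N (S.rt g) u n') := by
  induction h with
  | stop u h => exact ⟨∅, empty_subset _, fun N _ => ⟨Pth.stop u h, by simp⟩⟩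
  | step u e n he h1 _ ih =>
    obtain ⟨P, hP, ih⟩ := ih
    refine ⟨insert e P, insert_subset he hP, fun N hN => ?_⟩
    have eN : e ∈ N := hN (mem_insert_self _ _)
    obtain ⟨i1, i2⟩ := ih N ((subset_insert _ _).trans hN)
    refine ⟨Pth.step u e n eN h1 i1, fun g hg => ?_⟩
    rcases mem_insert.1 hg with rfl | hg
    · exact ⟨⟨n, by omega, i1⟩, ⟨0, by omega, Pth.stop u h1.symm⟩⟩
    · obtain ⟨⟨n1, a1, b1⟩, ⟨n2, a2, b2⟩⟩ := i2 g hg
      exact ⟨⟨n1, by omega, b1⟩, ⟨n2 + 1, by omega, Pth.step u e n2 eN h1 b2⟩⟩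

theorem rt_eL_inj (c : K) {u v : L} (h : S.rt (S.eL c u) = S.rt (S.eL c v)) : u = v := by
  have := S.eq_of_rt h (by rw [S.col_eL, S.col_eL])
  rw [← S.lf_eL c u, this, S.lf_eL]

theorem exists_pth [Fintype L] (c : K) {M : Finset E} (hM : S.IsM M) {x : L} (hx : S.FrL M x) :
    ∃ y n, S.FrR M y ∧ S.Pth c M y x n := by
  classical
  by_contra hcon
  push Not at hcon
  set X : Finset L := univ.filter (fun u => ∀ y n, S.Pth c M y u n → ∃ n', S.Pth c M y x n')
    with hX
  have hxX : x ∈ X := by
    rw [hX, mem_filter]; exact ⟨mem_univ _, fun y n h => ⟨n, h⟩⟩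
  have key : ∀ u, ∃ g, u ∈ X → g ∈ M ∧ S.rt g = S.rt (S.eL c u) ∧ S.lf g ∈ X.erase x := by
    intro u
    by_cases hu : u ∈ X
    · have hu' := (mem_filter.1 hu).2
      obtain ⟨n', h'⟩ := hu' _ 0 (Pth.stop u rfl)
      have : ¬ S.FrR M (S.rt (S.eL c u)) := fun hh => hcon _ n' hh h'
      unfold FrR at this
      push Not at this
      obtain ⟨g, hg, e⟩ := this
      refine ⟨g, fun _ => ⟨hg, e, mem_erase.2 ⟨hx g hg, ?_⟩⟩⟩
      rw [hX, mem_filter]
      exact ⟨mem_univ _, fun y n h => hu' y (n + 1) (Pth.step u g n hg e h)⟩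
    · exact ⟨S.eL c u, fun h => absurd h hu⟩
  choose g hg using key
  have := card_le_card_of_injOn (s := X) (t := X.erase x) (fun u => S.lf (g u))
    (fun u hu => (hg u hu).2.2) (by
      intro u hu v hv h
      have e := hM.l _ (hg u hu).1 _ (hg v hv).1 h
      apply rt_eL_inj (S := S) c
      rw [← (hg u hu).2.1, ← (hg v hv).2.1, e])
  have := card_erase_add_one hxX
  omega

theorem track [Fintype L] [Fintype R] {A : Finset K} {d : K} {FL : Finset L} {FR : Finset R}
    {B : K → ℤ} {Goal : Prop} {r : ℕ}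
    (H : ∀ (N0 M' : Finset E) (FL' : Finset L) (FR' : Finset R) (t : K), S.IsM N0 → S.IsM M' →
      S.Ok (insert d A) FL FR N0 → S.Ok A FL' FR' M' → t ∈ A →
      S.vec N0 + (S.vec M' + dl t) = B → FL ⊆ FL' → FR ⊆ FR' →
      (∀ e ∈ N0, S.lf e ∈ FL' ∧ S.rt e ∈ FR') → FL'.card ≤ FL.card + N0.card + 1 →
      FR'.card ≤ FR.card + N0.card + 1 →
      N0.card + M'.card + (r + 1) + FL.card ≤ Fintype.card L →
      N0.card + M'.card + (r + 1) + FR.card ≤ Fintype.card R →
      S.Succ A FL' FR' (S.vec M' + dl t) ∨ Goal)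
    {M : Finset E} {t : K} (hM : S.IsM M) (ho : S.Ok (insert d A) FL FR M) (ht : t ∈ insert d A)
    (hv : S.vec M + dl t = B) (cL : M.card + (r + 1) + FL.card ≤ Fintype.card L)
    (cR : M.card + (r + 1) + FR.card ≤ Fintype.card R) :
    S.Succ (insert d A) FL FR B ∨ Goal := by
  have main : ∀ n, ∀ (N : Finset E) (t : K) (x : L) (y : R), S.IsM N →
      S.Ok (insert d A) FL FR N → t ∈ insert d A → S.vec N + dl t = B → N.card = M.card →
      x ∉ FL → S.FrL N x → S.FrR N y → S.Pth d N y x n →
      S.Succ (insert d A) FL FR B ∨ Goal := by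
    intro n
    induction n using Nat.strong_induction_on with
    | _ n ih =>
    have caseD : ∀ (N : Finset E) (x : L) (y : R), S.IsM N →
        S.Ok (insert d A) FL FR N → S.vec N + dl d = B → N.card = M.card →
        x ∉ FL → S.FrL N x → S.FrR N y → S.Pth d N y x n →
        S.Succ (insert d A) FL FR B ∨ Goal := by
      intro N x y h1 h2 h3 h4 h5 h6 h7 h8
      have cf : S.col (S.eL d x) ∈ insert d A := by rw [S.col_eL]; exact mem_insert_self _ _
      cases h8 with
      | stop _ h =>
        exact Or.inl ⟨N, S.eL d x, h1, h2, cf, by rwa [S.lf_eL], by rwa [h],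
          Or.inl (by rwa [S.lf_eL]), by rwa [S.col_eL]⟩
      | step _ g m hg e hp =>
        have mv := mvL h1 h2 cf (by rwa [S.lf_eL]) (by rwa [S.lf_eL]) hg e.symm
        have hv' := mv.vec
        rw [S.col_eL, h3] at hv'
        rcases hp.left (N' := insert (S.eL d x) (N.erase g)) (g := g)
          (fun e he hne => mem_insert_of_mem (mem_erase.2 ⟨hne, he⟩)) with hp' | ⟨n', hn, hp'⟩
        · exact ih m (by omega) _ _ _ y mv.isM mv.ok (h2 g hg).1 hv' (mv.card.trans h4) mv.nb
            mv.frL (mv.keepR y h7) hp'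
        · exact ih n' (by omega) _ _ _ y mv.isM mv.ok (h2 g hg).1 hv' (mv.card.trans h4) mv.nb
            mv.frL (mv.keepR y h7) hp'
    intro N t x y h1 h2 ht h3 h4 h5 h6 h7 h8
    by_cases htd : t = d
    · subst htd; exact caseD N x y h1 h2 h3 h4 h5 h6 h7 h8
    have htA : t ∈ A := (mem_insert.1 ht).resolve_left htd
    obtain ⟨P, hP, hP'⟩ := h8.sub
    set N0 := P ∪ N.filter (fun e => S.col e = d) with hN0
    have sN0 : N0 ⊆ N := union_subset hP (filter_subset _ _)
    set FL' := insert x (FL ∪ N0.image S.lf) with hFL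
    set FR' := insert y (FR ∪ N0.image S.rt) with hFR
    have bl : ∀ e ∈ N0, S.lf e ∈ FL' ∧ S.rt e ∈ FR' := fun e he =>
      ⟨mem_insert_of_mem (mem_union_right _ (mem_image_of_mem _ he)),
        mem_insert_of_mem (mem_union_right _ (mem_image_of_mem _ he))⟩
    have sL : FL ⊆ FL' := subset_union_left.trans (subset_insert _ _)
    have sR : FR ⊆ FR' := subset_union_left.trans (subset_insert _ _)
    have vv : S.vec N0 + (S.vec (N \ N0) + dl t) = B := by
      rw [← h3, ← vec_sdiff sN0]; abel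
    have cc := card_sdiff_add_card_eq_card sN0
    rcases H N0 (N \ N0) FL' FR' t (h1.mono sN0) (h1.mono sdiff_subset) (h2.mono sN0)
      (by
        intro e he
        obtain ⟨e1, e2⟩ := mem_sdiff.1 he
        refine ⟨(mem_insert.1 (h2 e e1).1).resolve_left
          (fun hh => e2 (mem_union_right _ (mem_filter.2 ⟨e1, hh⟩))), ?_, ?_⟩
        · simp only [hFL, mem_insert, mem_union, mem_image, not_or, not_exists, not_and]
          exact ⟨h6 e e1, (h2 e e1).2.1, fun g hg hh => e2 (h1.l g (sN0 hg) e e1 hh ▸ hg)⟩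
        · simp only [hFR, mem_insert, mem_union, mem_image, not_or, not_exists, not_and]
          exact ⟨h7 e e1, (h2 e e1).2.2, fun g hg hh => e2 (h1.r g (sN0 hg) e e1 hh ▸ hg)⟩)
      htA vv sL sR bl
      (by
        have := card_insert_le x (FL ∪ N0.image S.lf)
        have := card_union_le FL (N0.image S.lf)
        have := card_image_le (s := N0) (f := S.lf)
        rw [hFL]; omega)
      (by
        have := card_insert_le y (FR ∪ N0.image S.rt)
        have := card_union_le FR (N0.image S.rt)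
        have := card_image_le (s := N0) (f := S.rt)
        rw [hFR]; omega)
      (by omega) (by omega) with hs | hs
    swap
    · exact Or.inr hs
    rcases unblock (h1.mono sN0) (h2.mono sN0) (subset_insert _ _) sL sR bl hs with
      hs | ⟨N1, f, g, a1, a2, a3, a4, a5, a6, a7, a8⟩
    · rw [vv] at hs; exact Or.inl hs
    rw [vv] at a6
    have fx : S.FrL N1 x := by
      intro e he hh
      rcases a5 e he with h | h
      · exact h6 e (sN0 h) hh
      · exact h.1 (hh ▸ mem_insert_self _ _)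
    have fy : S.FrR N1 y := by
      intro e he hh
      rcases a5 e he with h | h
      · exact h7 e (sN0 h) hh
      · exact h.2 (hh ▸ mem_insert_self _ _)
    have c1 : N1.card = M.card := (card_eq_of_vec (fun e he => (a2 e he).1)
      (fun e he => (h2 e he).1) a7 ht (a6.trans h3.symm)).trans h4
    obtain ⟨p1, p2⟩ := hP' N1 (subset_union_left.trans a3)
    have keep : ∀ e ∈ N1, e ≠ g → e ∈ insert f (N1.erase g) :=
      fun e he hne => mem_insert_of_mem (mem_erase.2 ⟨hne, he⟩)
    have gc := (a2 g (a3 a4)).1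
    rcases a8 with ⟨b1, b2, b3⟩ | ⟨b1, b2, b3⟩
    · have mv := mvL a1 a2 a7 (fun hh => b1 (sL hh)) b2 (a3 a4) b3
      have hv' := mv.vec.trans a6
      have short : ∀ n' < n, S.Pth d (insert f (N1.erase g)) y (S.lf g) n' →
          S.Succ (insert d A) FL FR B ∨ Goal := fun n' hn hp =>
        ih n' hn _ _ _ y mv.isM mv.ok gc hv' (mv.card.trans c1) mv.nb mv.frL (mv.keepR y fy) hp
      rcases mem_union.1 a4 with hg | hg
      · obtain ⟨n1, q1, q2⟩ := (p2 g hg).1
        rcases q2.left keep with q | ⟨n2, q3, q⟩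
        · exact short n1 q1 q
        · exact short n2 (by omega) q
      · rcases p1.left keep with q | ⟨n2, q3, q⟩
        · rw [(mem_filter.1 hg).2] at hv'
          exact caseD _ x y mv.isM mv.ok hv' (mv.card.trans c1) h5
            (mv.keepL x fx (fun hh => b1 (hh ▸ mem_insert_self _ _))) (mv.keepR y fy) q
        · exact short n2 q3 q
    · have mv := mvR a1 a2 a7 (fun hh => b1 (sR hh)) b2 (a3 a4) b3
      have hv' : S.vec (insert f (N1.erase g)) + dl (S.col g) = B := mv.vec.trans a6
      have short : ∀ n' < n, S.Pth d (insert f (N1.erase g)) (S.rt g) x n' →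
          S.Succ (insert d A) FL FR B ∨ Goal := fun n' hn hp =>
        ih n' hn _ _ x _ mv.isM.unswap mv.ok.unswap gc hv' (mv.card.trans c1) h5
          (mv.keepR x fx) mv.frL hp
      rcases mem_union.1 a4 with hg | hg
      · obtain ⟨n1, q1, q2⟩ := (p2 g hg).2
        rcases q2.right keep with q | ⟨n2, q3, q⟩
        · exact short n1 q1 q
        · exact short n2 (by omega) q
      · rcases p1.right keep with q | ⟨n2, q3, q⟩
        · rw [(mem_filter.1 hg).2] at hv'
          exact caseD _ x y mv.isM.unswap mv.ok.unswap hv' (mv.card.trans c1) h5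
            (mv.keepR x fx) (mv.keepL y fy (fun hh => b1
              ((show y = S.rt f from hh) ▸ mem_insert_self _ _))) q
        · exact short n2 q3 q
  obtain ⟨x, hx1, hx2⟩ := exists_frL (S := S) (FL := FL) (M := M) (by omega)
  obtain ⟨y, n, hy, hp⟩ := exists_pth d hM hx2
  exact main n M t x y hM ho ht hv rfl hx1 hx2 hy hp

end Sys

end Pool.Agent.Lib.MP_cc2426_co
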