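import Mathlib
import Pool.Agent.Lib.MP_cc2426_co.Closed
import Pool.Agent.Lib.MP_cc2426_co.Track

/-! The exchange lemma for three and more colours. -/

set_option autoImplicit false
set_option linter.unusedSectionVars false

namespace Pool.Agent.Lib.MP_cc2426_co

open Finset

variable {E L R K : Type*} [DecidableEq E] [DecidableEq L] [DecidableEq R] [DecidableEq K]
  [Fintype L] [Fintype R]

namespace Sys

variable {S : Sys E L R K}

/-- every vector of size less than the size of a small closed set is realised there. -/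
def Small (S : Sys E L R K) (A : Finset K) (n : ℕ) : Prop :=
  ∀ X XR, S.Clo A X XR → XR.card = X.card → X.card < n → ∀ (j : ℕ) (T : K → ℤ), 0 ≤ T →
    (∀ k, k ∉ A → T k = 0) → ∑ k ∈ A, T k = j → j + 1 ≤ X.card →
    ∃ N, S.In A X XR N ∧ S.vec N = T

theorem split {A : Finset K} {FL X X2 : Finset L} {FR XR XR2 : Finset R} {M : Finset E}
    {T : K → ℤ} {n : ℕ} (H : S.Small A n) (h1 : S.Clo A X XR) (h2 : S.Clo A X2 XR2)
    (c2 : XR2.card = X2.card) (hn : X2.card < n) (hle : X.card ≤ X2.card) (hne : X.Nonempty)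
    (dL : Disjoint X FL) (dR : Disjoint XR FR) (dL' : Disjoint X2 (FL ∪ X))
    (dR' : Disjoint XR2 (FR ∪ XR)) (hM : S.IsM M) (ho : S.Ok A (FL ∪ X ∪ X2) (FR ∪ XR ∪ XR2) M)
    (t1 : 0 ≤ T) (t2 : ∀ k, k ∉ A → T k = 0) (t3 : ∑ k ∈ A, T k + 1 = X.card + X2.card) :
    S.Succ A FL FR (S.vec M + T) := by
  obtain ⟨N1, a1, a2, a3⟩ := drisko h1 t1 (by omega)
  have hp := hne.card_pos
  obtain ⟨N2, b1, b2⟩ := H X2 XR2 h2 c2 hn (X2.card - 1) (T - S.vec N1) (sub_nonneg.2 a3)
    (fun k hk => by simp [t2 k hk, vec_off (fun e he => (a1.2 e he).1) hk])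
    (by
      simp only [Pi.sub_apply, sum_sub_distrib, sum_vec (fun e he => (a1.2 e he).1), a2]
      omega) (by omega)
  obtain ⟨g1, g2, g3⟩ := glue hM ho b1 (Subset.refl _) dL' dR'
  obtain ⟨g4, g5, g6⟩ := glue g1 g2 a1 (Subset.refl _) dL dR
  have := succ_of_mem g4 g5 (Nonempty.mono subset_union_right (by rw [← card_pos]; omega))
  rwa [g6, g3, b2, show S.vec M + (T - S.vec N1) + S.vec N1 = S.vec M + T by abel] at this

theorem two_easy {A : Finset K} {a b c s : K} {FL Y Y' : Finset L} {FR Z Z' : Finset R}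
    {M : Finset E} (sC : {c, b} ⊆ A) (sC' : {a, b} ⊆ A) (hC : S.Res c b Y Z)
    (hC' : S.Res a b Y' Z') (dL : Disjoint Y FL) (dR : Disjoint Z FR)
    (dL' : Disjoint Y' (FL ∪ Y)) (dR' : Disjoint Z' (FR ∪ Z)) (hM : S.IsM M)
    (ho : S.Ok A (FL ∪ Y ∪ Y') (FR ∪ Z ∪ Z') M) (hs : s ∈ ({c, b} : Finset K)) {i i' : ℕ}
    (hi : i + i' + 1 = Y'.card) :
    S.Succ A FL FR (S.vec M + ((i : ℤ) • dl a + (i' : ℤ) • dl b) + (Y.card : ℤ) • dl s) := by
  obtain ⟨x, hx⟩ := hC'.ne
  obtain ⟨m, a1, _, a3⟩ := hC'.resL x hx i i' hi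
  obtain ⟨g1, g2, g3⟩ := glue hM ho a1 sC' dL' dR'
  have := close hC.clo hC.ne sC hs dL dR g1 g2
  rwa [g3, a3] at this

theorem two {a b c : K} (hab : a ≠ b) (hac : a ≠ c) (hbc : b ≠ c) {FL Y Y' : Finset L}
    {FR Z Z' : Finset R} {M : Finset E} {B : K → ℤ} {j k l : ℕ}
    (H : S.Small {a, b, c} (Fintype.card L - FL.card))
    (hC : S.Res c b Y Z) (hC' : S.Res a b Y' Z') (dL : Disjoint Y FL) (dR : Disjoint Z FR)
    (dL' : Disjoint Y' (FL ∪ Y)) (dR' : Disjoint Z' (FR ∪ Z)) (hM : S.IsM M)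
    (ho : S.Ok {a, b, c} (FL ∪ Y ∪ Y') (FR ∪ Z ∪ Z') M)
    (hv : S.vec M + ((j : ℤ) • dl a + (k : ℤ) • dl b + (l : ℤ) • dl c) = B)
    (hs : j + k + l + 1 = Y.card + Y'.card) (jq : j ≤ Y'.card) (lp : l ≤ Y.card) :
    S.Succ {a, b, c} FL FR B := by
  have eA : ({c, b, a} : Finset K) = {a, b, c} := by ext x; simp; tauto
  set A : Finset K := {a, b, c} with hA
  have ha : a ∈ A := by simp [hA]
  have hb : b ∈ A := by simp [hA]
  have hc : c ∈ A := by simp [hA]
  have sC : ({c, b} : Finset K) ⊆ A := insert_subset hc (singleton_subset_iff.2 hb)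
  have sC' : ({a, b} : Finset K) ⊆ A := insert_subset ha (singleton_subset_iff.2 hb)
  rw [disjoint_union_right] at dL' dR'
  have eL : Disjoint Y (FL ∪ Y') := disjoint_union_right.2 ⟨dL, dL'.2.symm⟩
  have eR : Disjoint Z (FR ∪ Z') := disjoint_union_right.2 ⟨dR, dR'.2.symm⟩
  have ho' : S.Ok A (FL ∪ Y' ∪ Y) (FR ∪ Z' ∪ Z) M := by
    rwa [union_right_comm FL, union_right_comm FR]
  have fL := disjoint_union_right.2 dL'
  have fR := disjoint_union_right.2 dR'
  by_cases c1 : l = Y.card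
  · have := two_easy sC sC' hC hC' dL dR fL fR hM ho (mem_insert_self c _) (i := j) (i' := k)
      (by omega)
    rwa [← c1, add_assoc, hv] at this
  by_cases c2 : j = Y'.card
  · have := two_easy sC' sC hC' hC dL'.1 dR'.1 eL eR hM ho' (mem_insert_self a _) (i := l)
      (i' := k) (by omega)
    rwa [← c2, show S.vec M + ((l : ℤ) • dl c + (k : ℤ) • dl b) + (j : ℤ) • dl a = B by
      rw [← hv]; abel] at this
  by_cases c3 : l = 0
  · obtain ⟨i, hi⟩ : ∃ i, k = i + Y.card := ⟨k - Y.card, by omega⟩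
    have := two_easy (s := b) sC sC' hC hC' dL dR fL fR hM ho (by simp) (i := j) (i' := i)
      (by omega)
    rwa [show S.vec M + ((j : ℤ) • dl a + (i : ℤ) • dl b) + (Y.card : ℤ) • dl b = B by
      rw [← hv, hi, c3]; push_cast; module] at this
  by_cases c4 : j = 0
  · obtain ⟨i, hi⟩ : ∃ i, k = i + Y'.card := ⟨k - Y'.card, by omega⟩
    have := two_easy (s := b) sC' sC hC' hC dL'.1 dR'.1 eL eR hM ho' (by simp) (i := l) (i' := i)
      (by omega)
    rwa [show S.vec M + ((l : ℤ) • dl c + (i : ℤ) • dl b) + (Y'.card : ℤ) • dl b = B by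
      rw [← hv, hi, c4]; push_cast; module] at this
  by_cases t1 : ∃ w ∈ Y', ∃ n, S.Tm A M Z' n w
  · obtain ⟨w, hw, n, hT⟩ := t1
    exact cross hab hac hbc hC hC' dL dR fL fR hM ho hv hs (by omega) (by omega) (by omega)
      (by omega) hw hT
  by_cases t2 : ∃ w ∈ Y, ∃ n, S.Tm A M Z n w
  · obtain ⟨w, hw, n, hT⟩ := t2
    rw [← eA] at ho' hT ⊢
    exact cross (j := l) (k := k) (l := j) hbc.symm hac.symm hab.symm hC' hC dL'.1 dR'.1 eL eR hM
      ho' (by rw [← hv]; abel) (by omega) (by omega) (by omega) (by omega) (by omega) hw hT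
  push Not at t1 t2
  have av : ∀ e ∈ M, (S.lf e ∉ FL ∧ S.lf e ∉ Y ∧ S.lf e ∉ Y') ∧
      (S.rt e ∉ FR ∧ S.rt e ∉ Z ∧ S.rt e ∉ Z') := by
    intro e he
    simpa only [mem_union, not_or, and_assoc] using (ho e he).2
  obtain ⟨X, XR, x1, x2, x3, x4, x5, x6, x7⟩ := closure ⟨a, ha⟩ hM hC'.card
    (fun e he => ⟨(av e he).1.2.2, (av e he).2.2.2⟩) t1
  obtain ⟨X2, XR2, y1, y2, y3, y4, y5, y6, _⟩ := closure ⟨a, ha⟩ hM hC.card
    (fun e he => ⟨(av e he).1.2.1, (av e he).2.2.1⟩) t2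
  have dX : Disjoint X X2 := x7 X2 XR2 y1 y5 (by
    rw [Finset.disjoint_right]
    intro u hu hu'
    rcases y3 u hu with h | ⟨f, hf, rfl⟩
    · exact Finset.disjoint_left.1 dL'.2 hu' h
    · exact (av f hf).1.2.2 hu')
  have dXR : Disjoint XR XR2 := Finset.disjoint_left.2 (fun z h h' =>
    Finset.disjoint_left.1 dX (x1.r a ha z h) (y1.r a ha z h'))
  have d1 : Disjoint X FL := by
    rw [Finset.disjoint_left]
    intro u hu
    rcases x3 u hu with h | ⟨f, hf, rfl⟩
    · exact Finset.disjoint_left.1 dL'.1 h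
    · exact (av f hf).1.1
  have d2 : Disjoint X2 FL := by
    rw [Finset.disjoint_left]
    intro u hu
    rcases y3 u hu with h | ⟨f, hf, rfl⟩
    · exact Finset.disjoint_left.1 dL h
    · exact (av f hf).1.1
  have d3 : Disjoint XR FR := by
    rw [Finset.disjoint_left]
    intro u hu
    rcases x4 u hu with h | ⟨f, hf, rfl⟩
    · exact Finset.disjoint_left.1 dR'.1 h
    · exact (av f hf).2.1
  have d4 : Disjoint XR2 FR := by
    rw [Finset.disjoint_left]
    intro u hu
    rcases y4 u hu with h | ⟨f, hf, rfl⟩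
    · exact Finset.disjoint_left.1 dR h
    · exact (av f hf).2.1
  have p1 := hC.ne.card_pos
  have p2 := hC'.ne.card_pos
  have tot : FL.card + X.card + X2.card ≤ Fintype.card L := by
    rw [← card_union_of_disjoint d1.symm,
      ← card_union_of_disjoint (disjoint_union_left.2 ⟨d2.symm, dX⟩)]
    exact card_le_univ _
  set M1 := M.filter (fun f => S.lf f ∈ X) with hM1
  set M2 := M.filter (fun f => S.lf f ∈ X2) with hM2
  have dM : Disjoint M1 M2 := Finset.disjoint_left.2 (fun e h h' =>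
    Finset.disjoint_left.1 dX (mem_filter.1 h).2 (mem_filter.1 h').2)
  have sM : M1 ∪ M2 ⊆ M := union_subset (filter_subset _ _) (filter_subset _ _)
  set T := S.vec (M1 ∪ M2) + ((j : ℤ) • dl a + (k : ℤ) • dl b + (l : ℤ) • dl c) with hT
  have eB : S.vec (M \ (M1 ∪ M2)) + T = B := by rw [hT, ← add_assoc, vec_sdiff sM, hv]
  have cM : ∀ e ∈ M1 ∪ M2, S.col e ∈ A := fun e he => (ho e (sM he)).1
  have T1 : 0 ≤ T := by
    have := dl_nonneg a
    have := dl_nonneg b
    have := dl_nonneg c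
    have : 0 ≤ S.vec (M1 ∪ M2) := vec_nonneg _
    positivity
  have T2 : ∀ k, k ∉ A → T k = 0 := fun k hk => by
    simp [hT, vec_off cM hk, dl_off ha hk, dl_off hb hk, dl_off hc hk]
  have T3 : ∑ k ∈ A, T k + 1 = X.card + X2.card := by
    simp only [hT, Pi.add_apply, Pi.smul_apply, smul_eq_mul, sum_add_distrib, ← mul_sum,
      sum_vec cM, sum_dl ha, sum_dl hb, sum_dl hc, card_union_of_disjoint dM]
    omega
  have o1 : S.Ok A (FL ∪ X ∪ X2) (FR ∪ XR ∪ XR2) (M \ (M1 ∪ M2)) := by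
    intro e he
    obtain ⟨e1, e2⟩ := mem_sdiff.1 he
    simp only [hM1, hM2, mem_union, mem_filter, e1, true_and, not_or] at e2 ⊢
    exact ⟨(ho e e1).1, ⟨⟨(av e e1).1.1, e2.1⟩, e2.2⟩,
      ⟨(av e e1).2.1, fun h => e2.1 ((x5 e e1).2 h)⟩, fun h => e2.2 ((y5 e e1).2 h)⟩
  rw [← eB]
  rcases le_total X.card X2.card with hle | hle
  · exact split H x1 y1 y2 (by omega) hle (by rw [← card_pos]; omega) d1 d3
      (disjoint_union_right.2 ⟨d2, dX.symm⟩) (disjoint_union_right.2 ⟨d4, dXR.symm⟩)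
      (hM.mono sdiff_subset) o1 T1 T2 T3
  · exact split H y1 x1 x2 (by omega) hle (by rw [← card_pos]; omega) d2 d4
      (disjoint_union_right.2 ⟨d1, dX⟩) (disjoint_union_right.2 ⟨d3, dXR⟩)
      (hM.mono sdiff_subset) (by rwa [union_right_comm FL, union_right_comm FR]) T1 T2 (by omega)

theorem ok_sdiff {A A' : Finset K} {FL : Finset L} {FR : Finset R} {M N0 : Finset E}
    (h1 : S.IsM M) (h2 : S.Ok A' FL FR M) (hs : N0 ⊆ M) (hc : ∀ e ∈ M, e ∉ N0 → S.col e ∈ A) :
    S.Ok A (FL ∪ N0.image S.lf) (FR ∪ N0.image S.rt) (M \ N0) := by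
  intro e he
  obtain ⟨e1, e2⟩ := mem_sdiff.1 he
  refine ⟨hc e e1 e2, ?_, ?_⟩
  · simp only [mem_union, mem_image, not_or, not_exists, not_and]
    exact ⟨(h2 e e1).2.1, fun g hg hh => e2 (h1.l g (hs hg) e e1 hh ▸ hg)⟩
  · simp only [mem_union, mem_image, not_or, not_exists, not_and]
    exact ⟨(h2 e e1).2.2, fun g hg hh => e2 (h1.r g (hs hg) e e1 hh ▸ hg)⟩

theorem step2 {a b c : K} (hab : a ≠ b) (hac : a ≠ c) (hbc : b ≠ c) {FL Y : Finset L}
    {FR Z : Finset R} {B : K → ℤ} (H : S.Small {a, b, c} (Fintype.card L - FL.card))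
    (hC : S.Res c b Y Z) (dL : Disjoint Y FL) (dR : Disjoint Z FR) :
    ∀ (i j : ℕ) (M : Finset E), S.IsM M → S.Ok {a, b, c} (FL ∪ Y) (FR ∪ Z) M → i + j = Y.card →
      S.vec M + ((i : ℤ) • dl b + (j : ℤ) • dl c) = B →
      M.card + (FL ∪ Y).card < Fintype.card L → M.card + (FR ∪ Z).card < Fintype.card R →
      S.Succ {a, b, c} FL FR B := by
  set A : Finset K := {a, b, c} with hA
  have ha : a ∈ A := by simp [hA]
  have hb : b ∈ A := by simp [hA]
  have hc : c ∈ A := by simp [hA]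
  have sC : ({c, b} : Finset K) ⊆ A := insert_subset hc (singleton_subset_iff.2 hb)
  have sC' : ({a, b} : Finset K) ⊆ A := insert_subset ha (singleton_subset_iff.2 hb)
  intro i
  induction i with
  | zero =>
    intro j M h1 h2 h3 h4 _ _
    have := close hC.clo hC.ne sC (mem_insert_self c _) dL dR h1 h2
    rwa [show S.vec M + (Y.card : ℤ) • dl c = B by rw [← h4, ← h3]; simp] at this
  | succ i ih =>
    intro j M h1 h2 h3 h4 cL cR
    set N0 := M.filter (fun e => S.col e = c) with hN0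
    have sN0 : N0 ⊆ M := filter_subset _ _
    have o1 : S.Ok {a, b} (FL ∪ Y ∪ N0.image S.lf) (FR ∪ Z ∪ N0.image S.rt) (M \ N0) :=
      ok_sdiff h1 h2 sN0 (by
        intro e he hn
        have := (h2 e he).1
        simp only [hA, hN0, mem_filter, he, true_and, mem_insert, mem_singleton] at this hn ⊢
        tauto)
    have cc := card_sdiff_add_card_eq_card sN0
    have bl : ∀ e ∈ N0, S.lf e ∈ FL ∪ Y ∪ N0.image S.lf ∧ S.rt e ∈ FR ∪ Z ∪ N0.image S.rt :=
      fun e he => ⟨mem_union_right _ (mem_image_of_mem _ he),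
        mem_union_right _ (mem_image_of_mem _ he)⟩
    have vv : S.vec N0 + (S.vec (M \ N0) + dl b) = S.vec M + dl b := by
      rw [← vec_sdiff sN0]; abel
    rcases pure_run (t := b) hab (h1.mono sdiff_subset) o1 (by simp)
      (by
        have := card_union_le (FL ∪ Y) (N0.image S.lf)
        have := card_image_le (s := N0) (f := S.lf)
        omega)
      (by
        have := card_union_le (FR ∪ Z) (N0.image S.rt)
        have := card_image_le (s := N0) (f := S.rt)
        omega) with hs | ⟨Y', Z', Mo, i', j', r1, r2, r3, r4, r5, r6, r7, r8⟩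
    · rcases unblock (h1.mono sN0) (h2.mono sN0) sC' subset_union_left subset_union_left bl hs
        with hs | ⟨N, f, g, a1, a2, a3, a4, a5, a6, a7, a8⟩
      · have := land hC sC dL dR (i := j) (j := i) (by omega) hs
        rwa [vv, show S.vec M + dl b + ((j : ℤ) • dl c + (i : ℤ) • dl b) = B by
          rw [← h4]; push_cast; module] at this
      · rw [vv] at a6
        have c1 : N.card = M.card := card_eq_of_vec (fun e he => (a2 e he).1)
          (fun e he => (h2 e he).1) a7 hb a6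
        have gc : S.col g = c := (mem_filter.1 a4).2
        have fin : ∀ N', S.IsM N' → S.Ok A (FL ∪ Y) (FR ∪ Z) N' →
            S.vec N' + dl (S.col g) = S.vec N + dl (S.col f) → N'.card = N.card →
            S.Succ A FL FR B := by
          intro N' b1 b2 b3 b4
          refine ih (j + 1) N' b1 b2 (by omega) ?_ (by omega) (by omega)
          rw [gc, a6] at b3
          rw [← h4, eq_sub_of_add_eq b3]; push_cast; module
        rcases a8 with ⟨b1, b2, b3⟩ | ⟨b1, b2, b3⟩
        · have mv := mvL a1 a2 a7 (fun hh => b1 (mem_union_left _ hh)) b2 (a3 a4) b3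
          exact fin _ mv.isM mv.ok mv.vec mv.card
        · have mv := mvR a1 a2 a7 (fun hh => b1 (mem_union_left _ hh)) b2 (a3 a4) b3
          exact fin _ mv.isM.unswap mv.ok.unswap mv.vec mv.card
    · rw [disjoint_union_right] at r2 r3
      have hd : ∀ e ∈ N0, ∀ f ∈ Mo, S.lf e ≠ S.lf f ∧ S.rt e ≠ S.rt f := fun e he f hf =>
        ⟨fun hh => (r5 f hf).2.1 (mem_union_left _ (hh ▸ (bl e he).1)),
          fun hh => (r5 f hf).2.2 (mem_union_left _ (hh ▸ (bl e he).2))⟩
      refine two (M := N0 ∪ Mo) (j := i') (k := j' + i) (l := j) hab hac hbc H hC r1 dL dR r2.1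
        r3.1 ((h1.mono sN0).union r4 hd) (Ok.union ?_ (r5.weaken sC' ?_ ?_)) ?_ (by omega)
        (by omega) (by omega)
      · intro e he
        refine ⟨(h2 e (sN0 he)).1, ?_, ?_⟩
        · rw [mem_union, not_or]
          exact ⟨(h2 e (sN0 he)).2.1,
            Finset.disjoint_right.1 r2.2 (mem_image_of_mem _ he)⟩
        · rw [mem_union, not_or]
          exact ⟨(h2 e (sN0 he)).2.2,
            Finset.disjoint_right.1 r3.2 (mem_image_of_mem _ he)⟩
      · exact union_subset_union subset_union_left (Subset.refl _)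
      · exact union_subset_union subset_union_left (Subset.refl _)
      · rw [vec_union (disj_of hd), ← h4, eq_sub_of_add_eq r7, ← vec_sdiff sN0]
        push_cast; module

theorem core3_of {a b c : K} (hab : a ≠ b) (hac : a ≠ c) (hbc : b ≠ c) {FL : Finset L}
    {FR : Finset R} (H : S.Small {a, b, c} (Fintype.card L - FL.card)) {M : Finset E} {t : K}
    (h1 : S.IsM M) (h2 : S.Ok {a, b, c} FL FR M) (ht : t ∈ ({a, b, c} : Finset K))
    (cL : M.card + (1 + 1) + FL.card ≤ Fintype.card L)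
    (cR : M.card + (1 + 1) + FR.card ≤ Fintype.card R) :
    S.Succ {a, b, c} FL FR (S.vec M + dl t) := by
  refine (track (A := {b, c}) (d := a) (Goal := S.Succ {a, b, c} FL FR (S.vec M + dl t)) (r := 1)
    ?_ h1 h2 ht rfl cL cR).elim id id
  intro N0 M' FL' FR' t' a1 a2 a3 a4 a5 a6 a7 a8 a9 b1 b2 b3 b4
  rcases pure_run hbc a2 a4 a5 (by omega) (by omega) with
    hs | ⟨Y, Z, Mo, i, j, r1, r2, r3, r4, r5, r6, r7, r8⟩
  · exact Or.inl hs
  right
  have hd : ∀ e ∈ N0, ∀ f ∈ Mo, S.lf e ≠ S.lf f ∧ S.rt e ≠ S.rt f := fun e he f hf =>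
    ⟨fun hh => (r5 f hf).2.1 (mem_union_left _ (hh ▸ (a9 e he).1)),
      fun hh => (r5 f hf).2.2 (mem_union_left _ (hh ▸ (a9 e he).2))⟩
  have c1 := card_union_le N0 Mo
  have c2 := card_union_le FL Y
  have c3 := card_union_le FR Z
  have c4 := r1.card
  refine step2 hab hac hbc H r1.symm (r2.mono_right a7) (r3.mono_right a8) i j (N0 ∪ Mo)
    (a1.union r4 hd) (Ok.union ?_ (r5.weaken (subset_insert _ _)
      (union_subset_union a7 (Subset.refl _)) (union_subset_union a8 (Subset.refl _)))) r6 ?_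
    (by omega) (by omega)
  · intro e he
    refine ⟨(a3 e he).1, ?_, ?_⟩
    · rw [mem_union, not_or]
      exact ⟨(a3 e he).2.1, Finset.disjoint_right.1 r2 (a9 e he).1⟩
    · rw [mem_union, not_or]
      exact ⟨(a3 e he).2.2, Finset.disjoint_right.1 r3 (a9 e he).2⟩
  · rw [vec_union (disj_of hd), ← a6, ← r7, add_assoc]

theorem small3 {a b c : K} (hab : a ≠ b) (hac : a ≠ c) (hbc : b ≠ c) (n : ℕ) :
    S.Small {a, b, c} n := by
  induction n with
  | zero => intro X XR _ _ h; omega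
  | succ n ih =>
    intro X XR h1 h2 h3
    apply fill h1 h2
    intro M t a1 a2 a3 a4 a5
    refine core3_of hab hac hbc ?_ a1 a2 a3 a4 a5
    intro X' XR' b1 b2 b3
    have := card_add_card_compl X
    exact ih X' XR' b1 b2 (by omega)

theorem core (r : ℕ) : ∀ A : Finset K, A.card = r + 3 → ∀ (FL : Finset L) (FR : Finset R)
    (M : Finset E) (t : K), S.IsM M → S.Ok A FL FR M → t ∈ A →
    M.card + (r + 2) + FL.card ≤ Fintype.card L → M.card + (r + 2) + FR.card ≤ Fintype.card R →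
    S.Succ A FL FR (S.vec M + dl t) := by
  induction r with
  | zero =>
    intro A hA FL FR M t h1 h2 h3 h4 h5
    obtain ⟨a, b, c, hab, hac, hbc, rfl⟩ := card_eq_three.1 hA
    exact core3_of hab hac hbc (small3 hab hac hbc _) h1 h2 h3 h4 h5
  | succ r ih =>
    intro A hA FL FR M t h1 h2 h3 h4 h5
    obtain ⟨d, A', hd, rfl, hA'⟩ := card_eq_succ.1 hA
    refine (track (Goal := False) (r := r + 2) ?_ h1 h2 h3 rfl h4 h5).elim id False.elim
    intro N0 M' FL' FR' t' a1 a2 a3 a4 a5 a6 a7 a8 a9 b1 b2 b3 b4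
    exact Or.inl (ih A' hA' FL' FR' M' t' a2 a4 a5 (by omega) (by omega))

end Sys

end Pool.Agent.Lib.MP_cc2426_co
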