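import Mathlib
import Pool.Agent.Lib.MP_cc2426_co.Core

/-! From connected three-coloured parts to unions of components. -/

set_option autoImplicit false
set_option linter.unusedSectionVars false

namespace Pool.Agent.Lib.MP_cc2426_co.Comp

open Finset

/-- a matching with rows in `X`, columns in `Y` and exactly `a i` edges of colour `i`. -/
def SolIn {V : Type} [DecidableEq V] (σ : Fin 4 → Equiv.Perm V) (X Y : Finset V)
    (a : Fin 4 → ℕ) : Prop :=
  ∃ S : Finset V, ∃ c : V → Fin 4, S ⊆ X ∧ (∀ x ∈ S, σ (c x) x ∈ Y) ∧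
    Set.InjOn (fun x => σ (c x) x) (S : Set V) ∧
    ∀ i : Fin 4, (S.filter (fun x => c x = i)).card = a i

/-- a matching with exactly `a i` edges of colour `i`. -/
def Sol {V : Type} [DecidableEq V] (σ : Fin 4 → Equiv.Perm V) (a : Fin 4 → ℕ) : Prop :=
  ∃ S : Finset V, ∃ c : V → Fin 4, Set.InjOn (fun x => σ (c x) x) (S : Set V) ∧
    ∀ i : Fin 4, (S.filter (fun x => c x = i)).card = a i

variable {V : Type} [Fintype V] [DecidableEq V]

/-- the edge system of four permutations. -/
def sys (σ : Fin 4 → Equiv.Perm V) : Sys (V × Fin 4) V V (Fin 4) :=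
  ⟨fun e => e.1, fun e => σ e.2 e.1, fun e => e.2, fun c x => (x, c),
    fun c y => ((σ c).symm y, c), fun _ _ => rfl, fun _ _ => rfl, fun _ => rfl,
    fun c y => by simp, fun _ _ => rfl, fun e => by simp⟩

theorem ofIn (σ : Fin 4 → Equiv.Perm V) {A : Finset (Fin 4)} {X Y : Finset V}
    {N : Finset (V × Fin 4)} (h1 : (sys σ).In A X Y N) :
    SolIn σ X Y (fun i => (N.filter (fun e => e.2 = i)).card) := by
  have hc : ∀ x : V, ∃ c : Fin 4, ∀ e ∈ N, e.1 = x → e = (x, c) := by
    intro x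
    by_cases h : ∃ e ∈ N, e.1 = x
    · obtain ⟨e, he, rfl⟩ := h
      exact ⟨e.2, fun f hf hh => h1.1.l f hf e he hh⟩
    · exact ⟨0, fun e he hh => absurd ⟨e, he, hh⟩ h⟩
  choose c hc using hc
  have mem : ∀ x ∈ N.image Prod.fst, (x, c x) ∈ N := by
    intro x hx
    obtain ⟨e, he, rfl⟩ := mem_image.1 hx
    exact hc _ e he rfl ▸ he
  refine ⟨N.image Prod.fst, c, fun x hx => (h1.2 _ (mem x hx)).2.1,
    fun x hx => (h1.2 _ (mem x hx)).2.2, ?_, ?_⟩
  · intro x hx y hy h
    exact congrArg Prod.fst (h1.1.r _ (mem x hx) _ (mem y hy) h)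
  · intro i
    symm
    apply card_bij (fun e _ => e.1)
    · intro e he
      obtain ⟨e1, e2⟩ := mem_filter.1 he
      refine mem_filter.2 ⟨mem_image_of_mem _ e1, ?_⟩
      rw [← e2, hc _ e e1 rfl]
    · intro e he f hf h
      exact h1.1.l e (mem_filter.1 he).1 f (mem_filter.1 hf).1 h
    · intro x hx
      obtain ⟨e1, e2⟩ := mem_filter.1 hx
      exact ⟨(x, c x), mem_filter.2 ⟨mem x e1, e2⟩, rfl⟩

theorem glue (σ : Fin 4 → Equiv.Perm V) {X Y : Finset V} {a b : Fin 4 → ℕ}
    (h1 : SolIn σ X Y a) (h2 : SolIn σ Xᶜ Yᶜ b) : Sol σ (fun i => a i + b i) := by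
  obtain ⟨S, c, s1, s2, s3, s4⟩ := h1
  obtain ⟨T, d, t1, t2, t3, t4⟩ := h2
  have nT : ∀ x ∈ T, x ∉ X := fun x hx => mem_compl.1 (t1 hx)
  refine ⟨S ∪ T, fun x => if x ∈ X then c x else d x, ?_, fun i => ?_⟩
  · intro x hx y hy h
    rcases mem_union.1 (mem_coe.1 hx) with e | e <;> rcases mem_union.1 (mem_coe.1 hy) with f | f
    · simp only [if_pos (s1 e), if_pos (s1 f)] at h
      exact s3 e f h
    · simp only [if_pos (s1 e), if_neg (nT _ f)] at h
      exact absurd (h ▸ s2 _ e) (mem_compl.1 (t2 _ f))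
    · simp only [if_neg (nT _ e), if_pos (s1 f)] at h
      exact absurd (h ▸ s2 _ f) (mem_compl.1 (t2 _ e))
    · simp only [if_neg (nT _ e), if_neg (nT _ f)] at h
      exact t3 e f h
  · change _ = a i + b i
    rw [filter_union, card_union_of_disjoint, ← s4 i, ← t4 i]
    · congr 2
      · exact filter_congr (fun x hx => by simp only [if_pos (s1 hx)])
      · exact filter_congr (fun x hx => by simp only [if_neg (nT _ hx)])
    · exact Finset.disjoint_left.2 (fun x hx hx' =>
        nT x (mem_filter.1 hx').1 (s1 (mem_filter.1 hx).1))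

theorem pres (σ : Fin 4 → Equiv.Perm V) {B : Finset V}
    (hB : ∀ i, B.image (σ i) = B.image (σ 0)) (i : Fin 4) (x : V) :
    ((σ 0)⁻¹ * σ i) x ∈ B ↔ x ∈ B := by
  constructor
  · intro h
    have h2 : σ 0 (((σ 0)⁻¹ * σ i) x) ∈ B.image (σ i) := by
      rw [hB i]; exact mem_image_of_mem _ h
    obtain ⟨y, hy, e⟩ := mem_image.1 h2
    have : y = x := (σ i).injective (by simpa using e)
    exact this ▸ hy
  · intro h
    have h2 : σ i x ∈ B.image (σ 0) := by rw [← hB i]; exact mem_image_of_mem _ h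
    obtain ⟨y, hy, e⟩ := mem_image.1 h2
    have : ((σ 0)⁻¹ * σ i) x = y := by simp [← e]
    exact this ▸ hy

/-- the permutations restricted to a closed set of rows. -/
def res (σ : Fin 4 → Equiv.Perm V) {B : Finset V}
    (hB : ∀ i, B.image (σ i) = B.image (σ 0)) (i : Fin 4) : Equiv.Perm {x // x ∈ B} :=
  ((σ 0)⁻¹ * σ i).subtypePerm (p := fun x => x ∈ B) (pres σ hB i)

theorem res_val (σ : Fin 4 → Equiv.Perm V) {B : Finset V}
    (hB : ∀ i, B.image (σ i) = B.image (σ 0)) (i : Fin 4) (x : {x // x ∈ B}) :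
    σ 0 (res σ hB i x).1 = σ i x.1 := by
  simp [res]

theorem lift (σ : Fin 4 → Equiv.Perm V) {B : Finset V}
    (hB : ∀ i, B.image (σ i) = B.image (σ 0)) {a : Fin 4 → ℕ} (h : Sol (res σ hB) a) :
    SolIn σ B (B.image (σ 0)) a := by
  obtain ⟨S, c, s1, s2⟩ := h
  refine ⟨S.map (Function.Embedding.subtype _), fun x => if h : x ∈ B then c ⟨x, h⟩ else 0,
    ?_, ?_, ?_, fun i => ?_⟩
  · intro x hx
    obtain ⟨y, -, rfl⟩ := mem_map.1 hx
    exact y.2
  · intro x hx
    obtain ⟨y, -, rfl⟩ := mem_map.1 hx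
    rw [← hB]
    exact mem_image_of_mem _ y.2
  · intro x hx x' hx' h
    obtain ⟨y, hy, rfl⟩ := mem_map.1 (mem_coe.1 hx)
    obtain ⟨y', hy', rfl⟩ := mem_map.1 (mem_coe.1 hx')
    have h' : σ (c y) y.1 = σ (c y') y'.1 := by
      simpa [y.2, y'.2] using h
    rw [← res_val σ hB (c y) y, ← res_val σ hB (c y') y'] at h'
    have := s1 hy hy' (Subtype.ext ((σ 0).injective h'))
    rw [this]
  · rw [← s2 i, filter_map, card_map]
    congr 1
    exact filter_congr (fun y _ => by simp [y.2])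

theorem img_res (σ : Fin 4 → Equiv.Perm V) {B : Finset V}
    (hB : ∀ i, B.image (σ i) = B.image (σ 0)) (i : Fin 4) (A : Finset {x // x ∈ B}) :
    (A.map (Function.Embedding.subtype _)).image (σ i) =
      ((A.image (res σ hB i)).map (Function.Embedding.subtype _)).image (σ 0) := by
  ext z
  simp only [mem_image, mem_map, Function.Embedding.coe_subtype]
  constructor
  · rintro ⟨_, ⟨y, hy, rfl⟩, rfl⟩
    exact ⟨_, ⟨_, ⟨y, hy, rfl⟩, rfl⟩, res_val σ hB i y⟩
  · rintro ⟨_, ⟨_, ⟨y, hy, rfl⟩, rfl⟩, rfl⟩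
    exact ⟨_, ⟨y, hy, rfl⟩, (res_val σ hB i y).symm⟩

theorem compl_img (f : Equiv.Perm V) (A : Finset V) : Aᶜ.image f = (A.image f)ᶜ := by
  ext z
  obtain ⟨y, rfl⟩ := f.surjective z
  simp only [mem_compl, f.injective.mem_finset_image]

theorem clo (σ : Fin 4 → Equiv.Perm V) {B : Finset V}
    (hB : ∀ i, B.image (σ i) = B.image (σ 0)) (A : Finset (Fin 4)) :
    (sys σ).Clo A B (B.image (σ 0)) := by
  constructor
  · intro k _ x hx
    rw [← hB k]
    exact mem_image_of_mem _ hx
  · intro k _ z hz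
    rw [← hB k] at hz
    obtain ⟨y, hy, rfl⟩ := mem_image.1 hz
    change (σ k).symm (σ k y) ∈ B
    simpa using hy

theorem comp
    (H : ∀ (W : Type) [Fintype W] [DecidableEq W] (σ : Fin 4 → Equiv.Perm W),
      (∀ i j, i ≠ j → ∀ x, σ i x ≠ σ j x) → ∀ a : Fin 4 → ℕ, (∑ i, a i) + 1 = Fintype.card W →
      a 3 = 1 → (∀ A : Finset W, A.Nonempty → A ≠ univ →
        ¬ (A.image (σ 0) = A.image (σ 1) ∧ A.image (σ 0) = A.image (σ 2))) → Sol σ a) :
    ∀ (n : ℕ) (W : Type) [Fintype W] [DecidableEq W], Fintype.card W = n →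
      ∀ σ : Fin 4 → Equiv.Perm W, (∀ i j, i ≠ j → ∀ x, σ i x ≠ σ j x) → ∀ a : Fin 4 → ℕ,
      (∑ i, a i) + 1 = Fintype.card W → a 3 = 1 →
      (∀ A : Finset W, A.image (σ 0) = A.image (σ 1) → A.image (σ 0) = A.image (σ 2) →
        A.image (σ 0) = A.image (σ 3)) → Sol σ a := by
  intro n
  induction n using Nat.strong_induction_on with
  | _ n ih =>
  intro W _ _ hn σ hd a hs h1 cl
  by_cases conn : ∀ A : Finset W, A.Nonempty → A ≠ univ →
      ¬ (A.image (σ 0) = A.image (σ 1) ∧ A.image (σ 0) = A.image (σ 2))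
  · exact H W σ hd a hs h1 conn
  have four : ∀ i : Fin 4, i = 0 ∨ i = 1 ∨ i = 2 ∨ i = 3 := by decide
  obtain ⟨A, hne, hA, hle⟩ : ∃ A : Finset W, A.Nonempty ∧
      (∀ i, A.image (σ i) = A.image (σ 0)) ∧ A.card ≤ Aᶜ.card := by
    push Not at conn
    obtain ⟨A, a1, a2, a3, a4⟩ := conn
    have hA : ∀ i, A.image (σ i) = A.image (σ 0) := by
      intro i
      rcases four i with rfl | rfl | rfl | rfl
      · rfl
      · exact a3.symm
      · exact a4.symm
      · exact (cl A a3 a4).symm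
    rcases le_total A.card Aᶜ.card with h | h
    · exact ⟨A, a1, hA, h⟩
    · refine ⟨Aᶜ, ?_, fun i => by rw [compl_img, compl_img, hA i], by rwa [compl_compl]⟩
      rw [nonempty_iff_ne_empty, Ne, compl_eq_empty_iff]
      exact a2
  have hB : ∀ i, Aᶜ.image (σ i) = Aᶜ.image (σ 0) := fun i => by rw [compl_img, compl_img, hA i]
  have hc : A.card + Aᶜ.card = Fintype.card W := card_add_card_compl A
  have hpos : 0 < A.card := hne.card_pos
  obtain ⟨N, n1, n2, n3⟩ := Sys.drisko (clo σ hA univ) (T := fun i => (a i : ℤ))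
    (fun i => by simp) (by
      have : (∑ k : Fin 4, (a k : ℤ)) = ((∑ k, a k : ℕ) : ℤ) := by push_cast; rfl
      rw [this]; omega)
  set v : Fin 4 → ℕ := fun i => (N.filter (fun e => e.2 = i)).card with hv
  have hva : ∀ i, v i ≤ a i := by
    intro i
    have h3 := n3 i
    rw [Sys.vec_apply] at h3
    have h4 : ((v i : ℕ) : ℤ) ≤ (a i : ℤ) := h3
    exact_mod_cast h4
  have hsum : ∑ i, v i = A.card := by
    rw [← n2]
    exact (card_eq_sum_card_fiberwise (f := fun e : W × Fin 4 => e.2)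
      (fun _ _ => mem_coe.2 (mem_univ _))).symm
  have fin : SolIn σ Aᶜ (Aᶜ.image (σ 0)) (fun i => a i - v i) → Sol σ a := by
    intro h
    rw [compl_img] at h
    have := glue σ (ofIn σ n1) h
    have e : (fun i => v i + (a i - v i)) = a := funext (fun i => by have := hva i; omega)
    exact e ▸ this
  apply fin
  rw [Fin.sum_univ_four] at hs hsum
  have b0 := hva 0
  have b1 := hva 1
  have b2 := hva 2
  have b3 := hva 3
  by_cases h3 : v 3 = 0
  · apply lift σ hB
    refine ih Aᶜ.card (by omega) _ (Fintype.card_coe _) (res σ hB) ?_ _ ?_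
      (show a 3 - v 3 = 1 by omega) ?_
    · intro i j hij x h
      apply hd i j hij x.1
      rw [← res_val σ hB i x, ← res_val σ hB j x, h]
    · rw [Fin.sum_univ_four, Fintype.card_coe]
      omega
    · intro C c1 c2
      have := cl (C.map (Function.Embedding.subtype _))
        (by rw [img_res σ hB 0, img_res σ hB 1, c1]) (by rw [img_res σ hB 0, img_res σ hB 2, c2])
      rw [img_res σ hB 0, img_res σ hB 3] at this
      exact map_injective _ (image_injective (σ 0).injective this)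
  · obtain ⟨M, m1, m2⟩ := Sys.small3 (S := sys σ) (a := 0) (b := 1) (c := 2) (by decide)
      (by decide) (by decide) (Aᶜ.card + 1) Aᶜ _ (clo σ hB _)
      (card_image_of_injective _ (σ 0).injective) (by omega) (Aᶜ.card - 1)
      (fun i => ((a i - v i : ℕ) : ℤ)) (fun i => by simp)
      (by
        intro k hk
        rcases four k with rfl | rfl | rfl | rfl
        · simp at hk
        · simp at hk
        · simp at hk
        · omega)
      (by
        rw [sum_insert (by decide), sum_insert (by decide), sum_singleton]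
        omega) (by omega)
    have := ofIn σ m1
    have e : (fun i => (M.filter (fun e => e.2 = i)).card) = fun i => a i - v i := by
      funext i
      have h4 := congrFun m2 i
      rw [Sys.vec_apply] at h4
      have h5 : (((M.filter (fun e => e.2 = i)).card : ℕ) : ℤ) = ((a i - v i : ℕ) : ℤ) := h4
      exact_mod_cast h5
    exact e ▸ this

end Pool.Agent.Lib.MP_cc2426_co.Comp
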