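import Mathlib
import Pool.Agent.Lib.MP_cc2426_co.Comp

/-! Reduction to graphs that are connected in all four colours. -/

set_option autoImplicit false
set_option linter.unusedSectionVars false

namespace Pool.Agent.Lib.MP_cc2426_co.Comp

open Finset

theorem comp4
    (H : ∀ (W : Type) [Fintype W] [DecidableEq W] (σ : Fin 4 → Equiv.Perm W),
      (∀ i j, i ≠ j → ∀ x, σ i x ≠ σ j x) → ∀ a : Fin 4 → ℕ, (∑ i, a i) + 1 = Fintype.card W →
      a 3 = 1 → (∀ A : Finset W, A.Nonempty → A ≠ univ →
        ¬ ∀ i, A.image (σ i) = A.image (σ 0)) → Sol σ a) :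
    ∀ (n : ℕ) (W : Type) [Fintype W] [DecidableEq W], Fintype.card W = n →
      ∀ σ : Fin 4 → Equiv.Perm W, (∀ i j, i ≠ j → ∀ x, σ i x ≠ σ j x) → ∀ a : Fin 4 → ℕ,
      (∑ i, a i) + 1 = Fintype.card W → a 3 = 1 → Sol σ a := by
  intro n
  induction n using Nat.strong_induction_on with
  | _ n ih =>
  intro W _ _ hn σ hd a hs h1
  by_cases conn : ∀ A : Finset W, A.Nonempty → A ≠ univ →
      ¬ ∀ i, A.image (σ i) = A.image (σ 0)
  · exact H W σ hd a hs h1 conn
  have four : ∀ i : Fin 4, i = 0 ∨ i = 1 ∨ i = 2 ∨ i = 3 := by decide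
  obtain ⟨A, hne, hA, hle⟩ : ∃ A : Finset W, A.Nonempty ∧
      (∀ i, A.image (σ i) = A.image (σ 0)) ∧ A.card ≤ Aᶜ.card := by
    push Not at conn
    obtain ⟨A, a1, a2, hA⟩ := conn
    rcases le_total A.card Aᶜ.card with h | h
    · exact ⟨A, a1, hA, h⟩
    · refine ⟨Aᶜ, ?_, fun i => by rw [compl_img, compl_img, hA i], by rwa [compl_compl]⟩
      rw [nonempty_iff_ne_empty, Ne, compl_eq_empty_iff]
      exact a2
  have hB : ∀ i, Aᶜ.image (σ i) = Aᶜ.image (σ 0) := fun i => by rw [compl_img, compl_img, hA i]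
  have hc : A.card + Aᶜ.card = Fintype.card W := card_add_card_compl A
  have hpos : 0 < A.card := hne.card_pos
  obtain ⟨N, n1, n2, n3⟩ := Sys.drisko (clo σ hA univ) (T := fun i => (a i : ℤ))
    (fun i => by simp) (by
      have : (∑ k : Fin 4, (a k : ℤ)) = ((∑ k, a k : ℕ) : ℤ) := by push_cast; rfl
      rw [this]; omega)
  set v : Fin 4 → ℕ := fun i => (N.filter (fun e => e.2 = i)).card with hv
  have hva : ∀ i, v i ≤ a i := by
    intro i
    have h3 := n3 i
    rw [Sys.vec_apply] at h3
    have h4 : ((v i : ℕ) : ℤ) ≤ (a i : ℤ) := h3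
    exact_mod_cast h4
  have hsum : ∑ i, v i = A.card := by
    rw [← n2]
    exact (card_eq_sum_card_fiberwise (f := fun e : W × Fin 4 => e.2)
      (fun _ _ => mem_coe.2 (mem_univ _))).symm
  have fin : SolIn σ Aᶜ (Aᶜ.image (σ 0)) (fun i => a i - v i) → Sol σ a := by
    intro h
    rw [compl_img] at h
    have := glue σ (ofIn σ n1) h
    have e : (fun i => v i + (a i - v i)) = a := funext (fun i => by have := hva i; omega)
    exact e ▸ this
  apply fin
  rw [Fin.sum_univ_four] at hs hsum
  have b0 := hva 0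
  have b1 := hva 1
  have b2 := hva 2
  have b3 := hva 3
  by_cases h3 : v 3 = 0
  · apply lift σ hB
    refine ih Aᶜ.card (by omega) _ (Fintype.card_coe _) (res σ hB) ?_ _ ?_
      (show a 3 - v 3 = 1 by omega)
    · intro i j hij x h
      apply hd i j hij x.1
      rw [← res_val σ hB i x, ← res_val σ hB j x, h]
    · rw [Fin.sum_univ_four, Fintype.card_coe]
      omega
  · obtain ⟨M, m1, m2⟩ := Sys.small3 (S := sys σ) (a := 0) (b := 1) (c := 2) (by decide)
      (by decide) (by decide) (Aᶜ.card + 1) Aᶜ _ (clo σ hB _)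
      (card_image_of_injective _ (σ 0).injective) (by omega) (Aᶜ.card - 1)
      (fun i => ((a i - v i : ℕ) : ℤ)) (fun i => by simp)
      (by
        intro k hk
        rcases four k with rfl | rfl | rfl | rfl
        · simp at hk
        · simp at hk
        · simp at hk
        · omega)
      (by
        rw [sum_insert (by decide), sum_insert (by decide), sum_singleton]
        omega) (by omega)
    have := ofIn σ m1
    have e : (fun i => (M.filter (fun e => e.2 = i)).card) = fun i => a i - v i := by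
      funext i
      have h4 := congrFun m2 i
      rw [Sys.vec_apply] at h4
      have h5 : (((M.filter (fun e => e.2 = i)).card : ℕ) : ℤ) = ((a i - v i : ℕ) : ℤ) := h4
      exact_mod_cast h5
    exact e ▸ this

end Pool.Agent.Lib.MP_cc2426_co.Comp
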