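import Mathlib

/-! Perfect matchings of a block within a colour budget. -/

set_option autoImplicit false
set_option linter.unusedSectionVars false

namespace Pool.Agent.Lib.MP_cc2426_co.TB

open Finset

variable {V : Type*} [Fintype V] [DecidableEq V]

/-- the colouring `c` picks a perfect matching from the rows `X` to the columns `Y`. -/
def PMc (σ : Fin 3 → Equiv.Perm V) (X Y : Finset V) (c : V → Fin 3) : Prop :=
  (∀ r ∈ X, σ (c r) r ∈ Y) ∧ ∀ r ∈ X, ∀ r' ∈ X, σ (c r) r = σ (c r') r' → r = r'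

/-- number of rows of `X` with colour `t`. -/
def cnt (X : Finset V) (c : V → Fin 3) (t : Fin 3) : ℤ := ((X.filter (fun r => c r = t)).card : ℤ)

/-- at most one row of `X` has its `t`-neighbour outside `Y`. -/
def One (σ : Fin 3 → Equiv.Perm V) (X Y : Finset V) (t : Fin 3) : Prop :=
  ∀ r ∈ X, ∀ r' ∈ X, σ t r ∉ Y → σ t r' ∉ Y → r = r'

lemma cnt_nonneg (X : Finset V) (c : V → Fin 3) (t : Fin 3) : 0 ≤ cnt X c t := by
  unfold cnt; positivity

lemma cnt_mono {X X' : Finset V} (h : X ⊆ X') (c : V → Fin 3) (t : Fin 3) :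
    cnt X c t ≤ cnt X' c t := by
  unfold cnt; exact_mod_cast card_le_card (filter_subset_filter _ h)

lemma cnt_union {A B : Finset V} (h : Disjoint A B) (c : V → Fin 3) (t : Fin 3) :
    cnt (A ∪ B) c t = cnt A c t + cnt B c t := by
  unfold cnt
  rw [filter_union, card_union_of_disjoint (disjoint_filter_filter h)]; push_cast; rfl

lemma cnt_congr {A : Finset V} {c c' : V → Fin 3} (h : ∀ r ∈ A, c r = c' r) (t : Fin 3) :
    cnt A c t = cnt A c' t := by
  unfold cnt
  rw [filter_congr (fun r hr => by rw [h r hr])]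

lemma cnt_all {A : Finset V} {c : V → Fin 3} {t : Fin 3} (h : ∀ r ∈ A, c r = t) :
    cnt A c t = A.card := by
  unfold cnt
  rw [filter_true_of_mem h]

lemma cnt_none {A : Finset V} {c : V → Fin 3} {t : Fin 3} (h : ∀ r ∈ A, c r ≠ t) :
    cnt A c t = 0 := by
  unfold cnt
  rw [filter_false_of_mem h]; simp

lemma cnt_pos {A : Finset V} {c : V → Fin 3} {t : Fin 3} {r : V} (hr : r ∈ A) (h : c r = t) :
    1 ≤ cnt A c t := by
  unfold cnt
  exact_mod_cast card_pos.mpr ⟨r, mem_filter.mpr ⟨hr, h⟩⟩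

lemma tri {t s u : Fin 3} (hts : t ≠ s) (htu : t ≠ u) (hsu : s ≠ u) (w : Fin 3) :
    w = t ∨ w = s ∨ w = u := by
  revert t s u w; decide

lemma cnt_sum {t s u : Fin 3} (hts : t ≠ s) (htu : t ≠ u) (hsu : s ≠ u) (A : Finset V)
    (c : V → Fin 3) : cnt A c t + cnt A c s + cnt A c u = A.card := by
  induction A using Finset.induction_on with
  | empty => simp [cnt]
  | insert a A ha ih =>
    have e : ∀ w, cnt (insert a A) c w = (if c a = w then 1 else 0) + cnt A c w := by
      intro w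
      unfold cnt
      rw [filter_insert]
      split_ifs with h
      · rw [card_insert_of_notMem (fun h' => ha (mem_filter.mp h').1)]; push_cast; ring
      · simp
    rw [e, e, e, card_insert_of_notMem ha]
    push_cast
    rcases tri hts htu hsu (c a) with h | h | h
    · rw [if_pos h, if_neg (h ▸ hts), if_neg (h ▸ htu)]; linarith
    · rw [if_neg (h ▸ hts.symm), if_pos h, if_neg (h ▸ hsu)]; linarith
    · rw [if_neg (h ▸ htu.symm), if_neg (h ▸ hsu.symm), if_pos h]; linarith

lemma pm_const (σ : Fin 3 → Equiv.Perm V) {X Y : Finset V} {t : Fin 3}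
    (h : ∀ r ∈ X, σ t r ∈ Y) : PMc σ X Y (fun _ => t) :=
  ⟨h, fun _ _ _ _ e => (σ t).injective e⟩

/-- Rows of `A` take colour `t`, rows of `B` take colour `u`. -/
lemma switch (σ : Fin 3 → Equiv.Perm V) {t s u : Fin 3} (hts : t ≠ s) (htu : t ≠ u) (hsu : s ≠ u)
    {X Y : Finset V} {c : V → Fin 3} (hc : PMc σ X Y c) (π μ : Equiv.Perm V)
    (A B : Finset V) (hA : A ⊆ X) (hB : B ⊆ X) (hd : Disjoint A B)
    (hπ : ∀ r ∈ A, π r ∈ X ∧ σ t r = σ (c (π r)) (π r))
    (hμ : ∀ r ∈ B, μ r ∈ X ∧ σ u r = σ (c (μ r)) (μ r))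
    (hs : ∀ r ∈ A ∪ B, (∃ a ∈ A, π a = r) ∨ ∃ b ∈ B, μ b = r) :
    ∃ c', PMc σ X Y c' ∧ cnt X c' t + cnt A c t + cnt B c t = cnt X c t + A.card ∧
      cnt X c' u + cnt A c u + cnt B c u = cnt X c u + B.card ∧
      cnt X c' s + cnt A c s + cnt B c s = cnt X c s := by
  set c' : V → Fin 3 := fun r => if r ∈ A then t else if r ∈ B then u else c r with hc'
  set f : V → V := fun r => if r ∈ A then π r else if r ∈ B then μ r else r with hf
  have hfX : ∀ r ∈ X, f r ∈ X ∧ σ (c' r) r = σ (c (f r)) (f r) := by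
    intro r hr
    by_cases h1 : r ∈ A
    · simpa [hc', hf, h1] using hπ r h1
    · by_cases h2 : r ∈ B
      · simpa [hc', hf, h1, h2] using hμ r h2
      · simp [hc', hf, h1, h2, hr]
  have hsurj : Set.SurjOn f X X := by
    intro r hr
    by_cases h : r ∈ A ∪ B
    · rcases hs r h with ⟨a, ha, e⟩ | ⟨b, hb, e⟩
      · exact ⟨a, hA ha, by simp [hf, ha, e]⟩
      · have : b ∉ A := disjoint_right.mp hd hb
        exact ⟨b, hB hb, by simp [hf, hb, this, e]⟩
    · rw [mem_union, not_or] at h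
      exact ⟨r, hr, by simp [hf, h.1, h.2]⟩
  have hinj : Set.InjOn f X :=
    Finset.injOn_of_surjOn_of_card_le f (fun r hr => (hfX r hr).1) hsurj le_rfl
  have hX : X = (X \ (A ∪ B)) ∪ (A ∪ B) := (sdiff_union_of_subset (union_subset hA hB)).symm
  have e : ∀ (d : V → Fin 3) w, cnt X d w = cnt (X \ (A ∪ B)) d w + (cnt A d w + cnt B d w) := by
    intro d w
    conv_lhs => rw [hX]
    rw [cnt_union sdiff_disjoint, cnt_union hd]
  have e0 : ∀ w, cnt (X \ (A ∪ B)) c' w = cnt (X \ (A ∪ B)) c w := by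
    intro w
    refine cnt_congr (fun r hr => ?_) w
    have := (mem_sdiff.mp hr).2
    rw [mem_union, not_or] at this
    simp [hc', this.1, this.2]
  have hA' : ∀ r ∈ A, c' r = t := fun r hr => by simp [hc', hr]
  have hB' : ∀ r ∈ B, c' r = u := fun r hr => by simp [hc', hr, disjoint_right.mp hd hr]
  refine ⟨c', ⟨fun r hr => ?_, fun r hr r' hr' h => ?_⟩, ?_, ?_, ?_⟩
  · rw [(hfX r hr).2]; exact hc.1 _ (hfX r hr).1
  · rw [(hfX r hr).2, (hfX r' hr').2] at h
    exact hinj hr hr' (hc.2 _ (hfX r hr).1 _ (hfX r' hr').1 h)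
  · have k1 : cnt B c' t = 0 := cnt_none (fun r hr => by rw [hB' r hr]; exact htu.symm)
    rw [e c' t, e c t, e0, cnt_all hA', k1]; ring
  · have k1 : cnt A c' u = 0 := cnt_none (fun r hr => by rw [hA' r hr]; exact htu)
    rw [e c' u, e c u, e0, cnt_all hB', k1]; ring
  · have k1 : cnt A c' s = 0 := cnt_none (fun r hr => by rw [hA' r hr]; exact hts)
    have k2 : cnt B c' s = 0 := cnt_none (fun r hr => by rw [hB' r hr]; exact hsu.symm)
    rw [e c' s, e c s, e0, k1, k2]; ring

lemma fix_iter (f : Equiv.Perm V) (z : V) (i : ℕ) (h : f (f^[i] z) = f^[i] z) : f^[i] z = z := by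
  have h1 : f^[i] (f^[i] z) = f^[i] z := Function.iterate_fixed h i
  exact (f.injective.iterate i) h1

lemma ex_period (f : Equiv.Perm V) (z : V) : ∃ p, 0 < p ∧ f^[p] z = z := by
  obtain ⟨p, hp, h⟩ := Function.mem_periodicPts.mp (f.injective.mem_periodicPts z)
  exact ⟨p, hp, h⟩

/-- One cycle: `u`-arcs from `z` along `μ`, then `t`-arcs home. -/
lemma move (σ : Fin 3 → Equiv.Perm V) {t s u : Fin 3} (hts : t ≠ s) (htu : t ≠ u) (hsu : s ≠ u)
    {X Y : Finset V} {c : V → Fin 3} (hc : PMc σ X Y c) (π μ : Equiv.Perm V)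
    (hπ : ∀ r ∈ X, π r ∈ X ∧ σ t r = σ (c (π r)) (π r))
    (hμ : ∀ r ∈ X, σ u r ∈ Y → μ r ∈ X ∧ σ u r = σ (c (μ r)) (μ r))
    {z : V} (hz : z ∈ X) (hzs : c z = s) (m n : ℕ)
    (hinj : ∀ i ≤ m, ∀ i' ≤ m, μ^[i] z = μ^[i'] z → i = i')
    (hgood : ∀ i < m, σ u (μ^[i] z) ∈ Y)
    (hn : ∀ j, 0 < j → j ≤ n → c ((π⁻¹ : Equiv.Perm V)^[j] z) = u) :
    ∃ c', PMc σ X Y c' ∧ cnt X c' s < cnt X c s ∧
      cnt X c' u + (((Icc 1 n).image (fun j => (π⁻¹ : Equiv.Perm V)^[j] z)).card : ℤ) ≤
        cnt X c u + m ∧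
      cnt X c' t + m ≤ cnt X c t + cnt X c s + cnt X c u +
        cnt ((range (m + 1)).image (fun i => μ^[i] z)) c t ∧
      ((π⁻¹ : Equiv.Perm V)^[n + 1] z = μ^[m] z →
        cnt X c' t + cnt ((range m).image (fun i => μ^[i] z)) c t ≤ cnt X c t +
          (((Icc 1 n).image (fun j => (π⁻¹ : Equiv.Perm V)^[j] z)).card : ℤ) + 1) := by
  classical
  set l : ℕ → V := fun i => μ^[i] z with hl
  set g : ℕ → V := fun j => (π⁻¹ : Equiv.Perm V)^[j] z with hg
  have l0 : l 0 = z := rfl
  have g0 : g 0 = z := rfl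
  have lS : ∀ i, l (i + 1) = μ (l i) := fun i => Function.iterate_succ_apply' _ _ _
  have gS : ∀ j, π (g (j + 1)) = g j := fun j => by
    simp only [hg, Function.iterate_succ_apply']; simp
  have lX : ∀ i ≤ m, l i ∈ X := by
    intro i
    induction i with
    | zero => intro _; exact hz
    | succ i ih => intro hi; rw [lS]; exact (hμ _ (ih (by omega)) (hgood i (by omega))).1
  have gX : ∀ j, g j ∈ X := by
    intro j
    induction j with
    | zero => exact hz
    | succ j ih =>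
      simp only [hg, Function.iterate_succ_apply']
      exact Equiv.Perm.perm_symm_on_of_perm_on_finset (fun r hr => (hπ r hr).1) ih
  have lu : ∀ i ≤ m, c (l i) ≠ u := by
    intro i hi h
    have hY : σ u (l i) ∈ Y := h ▸ hc.1 _ (lX i hi)
    obtain ⟨a1, a2⟩ := hμ _ (lX i hi) hY
    have : μ (l i) = l i := hc.2 _ a1 _ (lX i hi) (by rw [← a2, h])
    have e : l i = z := fix_iter μ z i this
    exact hsu (by rw [← hzs, ← e, h])
  have gt : ∀ j, c (g j) ≠ t := by
    intro j h
    obtain ⟨a1, a2⟩ := hπ _ (gX j)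
    have h1 : π (g j) = g j := hc.2 _ a1 _ (gX j) (by rw [← a2, h])
    have h2 : (π⁻¹ : Equiv.Perm V) (g j) = g j := by
      rw [Equiv.Perm.inv_eq_iff_eq]; exact h1.symm
    have e : g j = z := fix_iter π⁻¹ z j h2
    exact hts (by rw [← hzs, ← e, h])
  set R := (range (m + 1)).image l with hR
  have hex : ∃ j, 0 < j ∧ g j ∈ R := by
    obtain ⟨p, hp, h⟩ := ex_period π⁻¹ z
    exact ⟨p, hp, mem_image.mpr ⟨0, by simp, h.symm⟩⟩
  obtain ⟨hj0, hjR⟩ := Nat.find_spec hex
  have hjmin : ∀ j, 0 < j → j < Nat.find hex → g j ∉ R := fun j h1 h2 h3 =>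
    Nat.find_min hex h2 ⟨h1, h3⟩
  generalize Nat.find hex = J at hj0 hjR hjmin
  obtain ⟨a, ha, hal⟩ := mem_image.mp hjR
  have ham : a ≤ m := by simpa [Nat.lt_succ_iff] using ha
  have hnJ : n < J := by
    by_contra h
    exact lu a ham (hal ▸ hn J hj0 (by omega))
  set A := (Icc 1 J).image g with hA
  set B := (range a).image l with hB
  have hAX : A ⊆ X := fun r hr => by obtain ⟨j, -, rfl⟩ := mem_image.mp hr; exact gX j
  have hBX : B ⊆ X := fun r hr => by
    obtain ⟨i, hi, rfl⟩ := mem_image.mp hr; exact lX i (by have := mem_range.mp hi; omega)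
  have hRX : R ⊆ X := fun r hr => by
    obtain ⟨i, hi, rfl⟩ := mem_image.mp hr; exact lX i (by have := mem_range.mp hi; omega)
  have hd : Disjoint A B := by
    rw [disjoint_left]
    intro r hr hr'
    obtain ⟨j, hj, rfl⟩ := mem_image.mp hr
    obtain ⟨i, hi, e⟩ := mem_image.mp hr'
    have hi' := mem_range.mp hi
    have hj' := mem_Icc.mp hj
    rcases eq_or_lt_of_le hj'.2 with h | h
    · have := hinj i (by omega) a ham (by change l i = l a; rw [e, hal, h])
      omega
    · exact hjmin j (by omega) h (mem_image.mpr ⟨i, mem_range.mpr (by omega), e⟩)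
  have hl' : ∀ i ≤ a, (∃ x ∈ A, π x = l i) ∨ ∃ b ∈ B, μ b = l i := by
    intro i hi
    rcases i with _ | i
    · exact Or.inl ⟨g 1, mem_image.mpr ⟨1, mem_Icc.mpr ⟨le_rfl, hj0⟩, rfl⟩, gS 0⟩
    · exact Or.inr ⟨l i, mem_image.mpr ⟨i, mem_range.mpr (by omega), rfl⟩, (lS i).symm⟩
  obtain ⟨c', h1, h2, h3, h4⟩ := switch σ hts htu hsu hc π μ A B hAX hBX hd
    (fun r hr => hπ r (hAX hr))
    (fun r hr => by
      obtain ⟨i, hi, rfl⟩ := mem_image.mp hr
      have := mem_range.mp hi
      exact hμ _ (lX i (by omega)) (hgood i (by omega)))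
    (fun r hr => by
      rcases mem_union.mp hr with h | h
      · obtain ⟨j, hj, rfl⟩ := mem_image.mp h
        have hj' := mem_Icc.mp hj
        rcases eq_or_lt_of_le hj'.2 with h | h
        · rw [h, ← hal]; exact hl' a le_rfl
        · exact Or.inl ⟨g (j + 1), mem_image.mpr ⟨j + 1, mem_Icc.mpr ⟨by omega, h⟩, rfl⟩, gS j⟩
      · obtain ⟨i, hi, rfl⟩ := mem_image.mp h
        exact hl' i (mem_range.mp hi).le)
  have n1 := cnt_nonneg A c t
  have n2 := cnt_nonneg B c t
  have n3 := cnt_nonneg B c u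
  have n4 := cnt_nonneg A c s
  have n5 := cnt_nonneg B c s
  refine ⟨c', h1, ?_, ?_, ?_, ?_⟩
  · rcases a with _ | a
    · have : 1 ≤ cnt A c s :=
        cnt_pos (mem_image.mpr ⟨J, mem_Icc.mpr ⟨hj0, le_rfl⟩, hal.symm⟩) hzs
      linarith
    · have : 1 ≤ cnt B c s := cnt_pos (mem_image.mpr ⟨0, by simp, rfl⟩) hzs
      linarith
  · have b1 : (B.card : ℤ) ≤ m := by
      have := card_image_le (s := range a) (f := l)
      rw [card_range] at this
      exact_mod_cast this.trans ham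
    have b2 : cnt ((Icc 1 n).image g) c u = ((Icc 1 n).image g).card := cnt_all (fun r hr => by
      obtain ⟨j, hj, rfl⟩ := mem_image.mp hr
      exact hn j (mem_Icc.mp hj).1 (mem_Icc.mp hj).2)
    have b3 : cnt ((Icc 1 n).image g) c u ≤ cnt A c u :=
      cnt_mono (image_subset_image (Icc_subset_Icc_right hnJ.le)) c u
    linarith
  · have r1 : (R.card : ℤ) = m + 1 := by
      rw [hR, card_image_of_injOn, card_range]; · push_cast; rfl
      intro i hi i' hi' e
      exact hinj i (by simpa [Nat.lt_succ_iff] using hi) i' (by simpa [Nat.lt_succ_iff] using hi') e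
    have r2 := cnt_sum hts htu hsu R c
    have r3 : cnt R c u = 0 := cnt_none (fun r hr => by
      obtain ⟨i, hi, rfl⟩ := mem_image.mp hr; exact lu i (by have := mem_range.mp hi; omega))
    set A' := A.erase (g J) with hA'
    have r4 : (A.card : ℤ) ≤ A'.card + 1 := by
      have := pred_card_le_card_erase (s := A) (a := g J)
      have : A.card ≤ A'.card + 1 := by rw [hA']; omega
      exact_mod_cast this
    have r5 := cnt_sum hts htu hsu A' c
    have r6 : cnt A' c t = 0 := cnt_none (fun r hr => by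
      obtain ⟨j, -, rfl⟩ := mem_image.mp (mem_of_mem_erase hr); exact gt j)
    have r7 : cnt A' c u ≤ cnt X c u := cnt_mono ((erase_subset _ _).trans hAX) c u
    have r8 : Disjoint A' R := by
      rw [disjoint_left]
      intro r hr hr'
      obtain ⟨hne, hr⟩ := mem_erase.mp hr
      obtain ⟨j, hj, rfl⟩ := mem_image.mp hr
      have hj' := mem_Icc.mp hj
      rcases eq_or_lt_of_le hj'.2 with h | h
      · exact hne (by rw [h])
      · exact hjmin j (by omega) h hr'
    have r9 : cnt (A' ∪ R) c s ≤ cnt X c s :=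
      cnt_mono (union_subset ((erase_subset _ _).trans hAX) hRX) c s
    rw [cnt_union r8] at r9
    linarith
  · intro e
    change g (n + 1) = l m at e
    have hJ : J = n + 1 := by
      by_contra h
      exact hjmin (n + 1) (by omega) (by omega) (mem_image.mpr ⟨m, by simp, e.symm⟩)
    have ha' : a = m := hinj a ham m le_rfl (by change l a = l m; rw [hal, hJ, e])
    have s1 : A ⊆ insert (g (n + 1)) ((Icc 1 n).image g) := by
      intro r hr
      obtain ⟨j, hj, rfl⟩ := mem_image.mp hr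
      have hj' := mem_Icc.mp hj
      rcases eq_or_lt_of_le hj'.2 with h | h
      · rw [h, hJ]; exact mem_insert_self _ _
      · exact mem_insert_of_mem (mem_image.mpr ⟨j, mem_Icc.mpr ⟨hj'.1, by omega⟩, rfl⟩)
    have s2 : (A.card : ℤ) ≤ ((Icc 1 n).image g).card + 1 := by
      exact_mod_cast (card_le_card s1).trans (card_insert_le _ _)
    rw [← ha']
    linarith

theorem D1 (σ : Fin 3 → Equiv.Perm V) {t s u : Fin 3} (hts : t ≠ s) (htu : t ≠ u) (hsu : s ≠ u)
    (X Y : Finset V) (hXY : X.card = Y.card) (β : Fin 3 → ℤ) (k : ℤ)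
    (ht : ∀ r ∈ X, σ t r ∈ Y) (hu : One σ X Y u)
    (hk : k = 1 ∨ ∀ c, PMc σ X Y c → k ≤ cnt X c t)
    (h0 : ∃ c, PMc σ X Y c ∧ cnt X c t ≤ β t ∧ cnt X c u ≤ β u) (hs : 0 ≤ β s)
    (h1 : (X.card : ℤ) ≤ β s + β t) (h2 : 2 * (X.card : ℤ) ≤ β t + β s + β u + k) :
    ∃ c, PMc σ X Y c ∧ cnt X c t ≤ β t ∧ cnt X c s ≤ β s ∧ cnt X c u ≤ β u := by
  classical
  obtain ⟨c, ⟨hc, ct, cu⟩, hmin⟩ := Set.exists_min_image
    {c : V → Fin 3 | PMc σ X Y c ∧ cnt X c t ≤ β t ∧ cnt X c u ≤ β u} (fun c => cnt X c s)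
    (Set.toFinite _) h0
  by_contra hcon
  have hsg : β s < cnt X c s := by
    by_contra h
    exact hcon ⟨c, hc, ct, not_lt.mp h, cu⟩
  have win : ∀ c', PMc σ X Y c' → cnt X c' s < cnt X c s → cnt X c' t ≤ β t →
      cnt X c' u ≤ β u → False := fun c' a1 a2 a3 a4 => absurd (hmin c' ⟨a1, a3, a4⟩) (not_le.mpr a2)
  have hq := cnt_sum hts htu hsu X c
  obtain ⟨Q, hQ⟩ := Equiv.Perm.exists_extending_pair (α := X) (f := Subtype.val)
    (g := fun r => σ (c r.1) r.1) Subtype.val_injective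
    (fun r r' e => Subtype.ext (hc.2 _ r.2 _ r'.2 e))
  have hQ' : ∀ y ∈ Y, Q⁻¹ y ∈ X ∧ y = σ (c (Q⁻¹ y)) (Q⁻¹ y) := by
    intro y hy
    have hsurj : Set.SurjOn (fun r => σ (c r) r) X Y :=
      Finset.surjOn_of_injOn_of_card_le _ (fun r hr => hc.1 r hr)
        (fun r hr r' hr' e => hc.2 r hr r' hr' e) hXY.ge
    obtain ⟨r, hr, e⟩ := hsurj hy
    have e1 : Q r = y := (hQ ⟨r, hr⟩).trans e
    have e2 : Q⁻¹ y = r := by rw [Equiv.Perm.inv_eq_iff_eq]; exact e1.symm
    rw [e2]; exact ⟨hr, e.symm⟩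
  set π : Equiv.Perm V := Q⁻¹ * σ t with hπd
  set μ : Equiv.Perm V := Q⁻¹ * σ u with hμd
  have hπ : ∀ r ∈ X, π r ∈ X ∧ σ t r = σ (c (π r)) (π r) := fun r hr => hQ' _ (ht r hr)
  have hμ : ∀ r ∈ X, σ u r ∈ Y → μ r ∈ X ∧ σ u r = σ (c (μ r)) (μ r) := fun r _ h => hQ' _ h
  clear_value π μ
  have walk : ∀ z ∈ X, ∀ i, (∀ i' < i, σ u (μ^[i'] z) ∈ Y) → μ^[i] z ∈ X := by
    intro z hz i
    induction i with
    | zero => intro _; exact hz
    | succ i ih =>
      intro h
      rw [Function.iterate_succ_apply']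
      exact (hμ _ (ih (fun i' hi' => h i' (by omega))) (h i (by omega))).1
  obtain ⟨U, hU⟩ := Int.eq_ofNat_of_zero_le (sub_nonneg.mpr cu)
  by_cases hA : ∃ z ∈ X, c z = s ∧ ∀ i, σ u (μ^[i] z) ∈ Y
  · obtain ⟨z, hz, hzs, hg⟩ := hA
    have hper := μ.injective.mem_periodicPts z
    have hp := Function.minimalPeriod_pos_of_mem_periodicPts hper
    have hpz : μ^[Function.minimalPeriod μ z] z = z := Function.iterate_minimalPeriod
    have hinj := Function.iterate_injOn_Iio_minimalPeriod (f := μ) (x := z)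
    generalize Function.minimalPeriod μ z = p at hp hpz hinj
    set Z := (range p).image (fun i => μ^[i] z) with hZ
    have hZX : Z ⊆ X := fun r hr => by
      obtain ⟨i, -, rfl⟩ := mem_image.mp hr; exact walk z hz i (fun i' _ => hg i')
    obtain ⟨c1, a1, a2, a3, a4⟩ := switch σ hts htu hsu hc π μ ∅ Z (empty_subset _) hZX
      (disjoint_empty_left _) (by simp)
      (fun r hr => by
        have h := hZX hr
        obtain ⟨i, -, rfl⟩ := mem_image.mp hr; exact hμ _ h (hg i))
      (fun r hr => by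
        rw [empty_union] at hr
        obtain ⟨i, hi, rfl⟩ := mem_image.mp hr
        have hi' := mem_range.mp hi
        right
        rcases i with _ | i
        · refine ⟨μ^[p - 1] z, mem_image.mpr ⟨p - 1, mem_range.mpr (by omega), rfl⟩, ?_⟩
          rw [← Function.iterate_succ_apply' μ, Nat.succ_eq_add_one, Nat.sub_add_cancel hp, hpz]
          rfl
        · exact ⟨μ^[i] z, mem_image.mpr ⟨i, mem_range.mpr (by omega), rfl⟩,
            (Function.iterate_succ_apply' _ _ _).symm⟩)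
    have e0 : ∀ w, cnt (∅ : Finset V) c w = 0 := fun w => by simp [cnt]
    rw [e0] at a2 a3 a4
    simp only [card_empty, Nat.cast_zero] at a2
    have n1 := cnt_nonneg Z c t
    have n2 := cnt_nonneg Z c u
    have n3 : 1 ≤ cnt Z c s := cnt_pos (mem_image.mpr ⟨0, mem_range.mpr hp, rfl⟩) hzs
    have n4 : (Z.card : ℤ) ≤ p := by
      have := card_image_le (s := range p) (f := fun i => μ^[i] z)
      rw [card_range] at this
      exact_mod_cast this
    by_cases hpU : p ≤ U
    · have : (p : ℤ) ≤ U := by exact_mod_cast hpU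
      exact win c1 a1 (by linarith) (by linarith) (by linarith)
    · obtain ⟨c2, b1, b2, b3, b4, -⟩ := move σ hts htu hsu hc π μ hπ hμ hz hzs U 0
        (fun i hi i' hi' e => hinj (by simp; omega) (by simp; omega) e) (fun i _ => hg i)
        (fun j _ _ => by omega)
      have m1 : cnt ((range (U + 1)).image (fun i => μ^[i] z)) c t ≤ cnt Z c t :=
        cnt_mono (image_subset_image (range_subset_range.mpr (by omega))) c t
      have m2 : cnt Z c t ≤ cnt X c t - k + 1 := by
        rcases hk with h | h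
        · have := cnt_mono hZX c t; linarith
        · have := h c1 a1; linarith
      have m3 : (0 : ℤ) ≤ ((Icc 1 0).image (fun j => (π⁻¹ : Equiv.Perm V)^[j] z)).card := by
        positivity
      exact win c2 b1 b2 (by linarith) (by linarith)
  · push Not at hA
    set S := X.filter (fun r => c r = s) with hS
    have hSne : S.Nonempty := by
      rw [← card_pos]
      have : (0 : ℤ) < cnt X c s := by linarith
      unfold cnt at this
      exact_mod_cast this
    have hd : ∀ z ∈ S, ∃ d : ℕ, σ u (μ^[d] z) ∉ Y ∧ ∀ i < d, σ u (μ^[i] z) ∈ Y := by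
      intro z hz
      have hex := hA z (mem_filter.mp hz).1 (mem_filter.mp hz).2
      exact ⟨Nat.find hex, Nat.find_spec hex, fun i hi => not_not.mp (Nat.find_min hex hi)⟩
    choose! d hd1 hd2 using hd
    obtain ⟨z, hzS, hmax⟩ := exists_max_image S d hSne
    obtain ⟨hz, hzs⟩ := mem_filter.mp hzS
    have hinj : ∀ i ≤ d z, ∀ i' ≤ d z, μ^[i] z = μ^[i'] z → i = i' := by
      have key : ∀ i i', i < i' → i' ≤ d z → μ^[i] z = μ^[i'] z → False := by
        intro i i' h1 h2 e
        have e' : μ^[d z - i' + i] z = μ^[d z] z := by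
          rw [Function.iterate_add_apply, e, ← Function.iterate_add_apply, Nat.sub_add_cancel h2]
        exact hd1 z hzS (e' ▸ hd2 z hzS _ (by omega))
      intro i hi i' hi' e
      rcases lt_trichotomy i i' with h | h | h
      · exact (key i i' h hi' e).elim
      · exact h
      · exact (key i' i h hi e.symm).elim
    have gX : ∀ j, (π⁻¹ : Equiv.Perm V)^[j] z ∈ X := by
      intro j
      induction j with
      | zero => exact hz
      | succ j ih =>
        rw [Function.iterate_succ_apply']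
        exact Equiv.Perm.perm_symm_on_of_perm_on_finset (fun r hr => (hπ r hr).1) ih
    have gt : ∀ j, c ((π⁻¹ : Equiv.Perm V)^[j] z) ≠ t := by
      intro j h
      obtain ⟨a1, a2⟩ := hπ _ (gX j)
      have h1 := hc.2 _ a1 _ (gX j) (by rw [← a2, h])
      have e := fix_iter π⁻¹ z j (by rw [Equiv.Perm.inv_eq_iff_eq]; exact h1.symm)
      exact hts (by rw [← hzs, ← e, h])
    have hex : ∃ n, c ((π⁻¹ : Equiv.Perm V)^[n + 1] z) = s := by
      obtain ⟨p, hp, h⟩ := ex_period π⁻¹ z
      exact ⟨p - 1, by rw [Nat.sub_add_cancel hp, h, hzs]⟩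
    have hn1 := Nat.find_spec hex
    have hn2 : ∀ j, 0 < j → j ≤ Nat.find hex → c ((π⁻¹ : Equiv.Perm V)^[j] z) = u := by
      intro j j1 j2
      have := Nat.find_min hex (m := j - 1) (by omega)
      rw [Nat.sub_add_cancel j1] at this
      rcases tri hts htu hsu (c ((π⁻¹ : Equiv.Perm V)^[j] z)) with h | h | h
      · exact absurd h (gt j)
      · exact absurd h this
      · exact h
    generalize Nat.find hex = n at hn1 hn2
    have hz2 : (π⁻¹ : Equiv.Perm V)^[n + 1] z ∈ S := mem_filter.mpr ⟨gX _, hn1⟩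
    have hle := hmax _ hz2
    have he : (π⁻¹ : Equiv.Perm V)^[n + 1] z = μ^[d z - d ((π⁻¹ : Equiv.Perm V)^[n + 1] z)] z := by
      generalize (π⁻¹ : Equiv.Perm V)^[n + 1] z = y at hz2 hle
      have e := hu _ (walk y (mem_filter.mp hz2).1 _ (hd2 y hz2)) _ (walk z hz _ (hd2 z hzS))
        (hd1 y hz2) (hd1 z hzS)
      apply μ.injective.iterate (d y)
      rw [e, ← Function.iterate_add_apply, Nat.add_sub_cancel' hle]
    have hh : d z - d ((π⁻¹ : Equiv.Perm V)^[n + 1] z) ≤ d z := Nat.sub_le _ _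
    generalize d z - d ((π⁻¹ : Equiv.Perm V)^[n + 1] z) = h at he hh
    obtain ⟨c1, a1, a2, a3, -, a4⟩ := move σ hts htu hsu hc π μ hπ hμ hz hzs h n
      (fun i hi i' hi' e => hinj i (by omega) i' (by omega) e)
      (fun i hi => hd2 z hzS i (by omega)) hn2
    have a5 := a4 he
    set I := (Icc 1 n).image (fun j => (π⁻¹ : Equiv.Perm V)^[j] z) with hI
    have i1 : cnt I c u = I.card := cnt_all (fun r hr => by
      obtain ⟨j, hj, rfl⟩ := mem_image.mp hr
      exact hn2 j (mem_Icc.mp hj).1 (mem_Icc.mp hj).2)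
    have i2 : cnt I c u ≤ cnt X c u := cnt_mono (fun r hr => by
      obtain ⟨j, -, rfl⟩ := mem_image.mp hr; exact gX j) c u
    set B := (range h).image (fun i => μ^[i] z) with hB
    have n1 := cnt_nonneg B c t
    by_cases hhU : h ≤ U + I.card
    · have : (h : ℤ) ≤ U + I.card := by exact_mod_cast hhU
      exact win c1 a1 a2 (by linarith) (by linarith)
    · obtain ⟨c2, b1, b2, b3, b4, -⟩ := move σ hts htu hsu hc π μ hπ hμ hz hzs (U + I.card) n
        (fun i hi i' hi' e => hinj i (by omega) i' (by omega) e)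
        (fun i hi => hd2 z hzS i (by omega)) hn2
      have m1 : cnt ((range (U + I.card + 1)).image (fun i => μ^[i] z)) c t ≤ cnt B c t :=
        cnt_mono (image_subset_image (range_subset_range.mpr (by omega))) c t
      have m2 : cnt B c t ≤ cnt X c t - k + 1 + I.card := by
        rcases hk with h' | h'
        · have : cnt B c t ≤ cnt X c t := cnt_mono (fun r hr => by
            obtain ⟨i, hi, rfl⟩ := mem_image.mp hr
            have := mem_range.mp hi
            exact walk z hz i (fun i' hi' => hd2 z hzS i' (by omega))) c t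
          have : (0 : ℤ) ≤ I.card := by positivity
          linarith
        · have := h' c1 a1; linarith
      rw [← hI] at b3
      push_cast at b3 b4
      exact win c2 b1 b2 (by linarith) (by linarith)

theorem twoblock (σ : Fin 3 → Equiv.Perm V) {t s u : Fin 3} (hts : t ≠ s) (htu : t ≠ u)
    (hsu : s ≠ u) (XA YA XB YB : Finset V) (hA : XA.card = YA.card) (hB : XB.card = YB.card)
    (β : Fin 3 → ℤ) (k : ℤ)
    (As : ∀ r ∈ XA, σ s r ∈ YA) (Au : ∀ r ∈ XA, σ u r ∈ YA) (At : One σ XA YA t)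
    (Bt : ∀ r ∈ XB, σ t r ∈ YB) (Bs : One σ XB YB s) (Bu : One σ XB YB u)
    (hk : ∀ c, PMc σ XB YB c → k ≤ cnt XB c t) (hk' : ∃ c, PMc σ XB YB c ∧ cnt XB c t = k)
    (ht : k ≤ β t) (hs : 0 ≤ β s) (hu : 0 ≤ β u)
    (hsum : (XA.card : ℤ) + XB.card ≤ β t + β s + β u + 1) :
    (∃ c, PMc σ XA YA c ∧ cnt XA c t + k ≤ β t ∧ cnt XA c s ≤ β s ∧ cnt XA c u ≤ β u) ∨
      ∃ c, PMc σ XB YB c ∧ cnt XB c t ≤ β t ∧ cnt XB c s ≤ β s ∧ cnt XB c u ≤ β u := by
  have all : ∀ (X : Finset V) w, cnt X (fun _ => w) w = X.card := fun X w => cnt_all (fun _ _ => rfl)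
  have none : ∀ (X : Finset V) w w', w ≠ w' → cnt X (fun _ => w) w' = 0 :=
    fun X w w' h => cnt_none (fun _ _ => h)
  obtain ⟨c0, hc0, e0⟩ := hk'
  by_cases p1 : (XB.card : ℤ) ≤ β t
  · exact Or.inr ⟨_, pm_const σ Bt, by rw [all]; exact p1, by rw [none _ _ _ hts]; exact hs,
      by rw [none _ _ _ htu]; exact hu⟩
  by_cases p2 : (XA.card : ℤ) ≤ β s
  · exact Or.inl ⟨_, pm_const σ As, by rw [none _ _ _ hts.symm]; linarith, by rw [all]; exact p2,
      by rw [none _ _ _ hsu]; exact hu⟩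
  by_cases p3 : (XA.card : ℤ) ≤ β u
  · exact Or.inl ⟨_, pm_const σ Au, by rw [none _ _ _ htu.symm]; linarith,
      by rw [none _ _ _ hsu.symm]; exact hs, by rw [all]; exact p3⟩
  by_cases p4 : (XA.card : ℤ) + k ≤ XB.card
  · left
    set β' : Fin 3 → ℤ := fun w => if w = t then β t - k else β w with hβ
    have bt : β' t = β t - k := by simp [hβ]
    have bs : β' s = β s := by simp [hβ, hts.symm]
    have bu : β' u = β u := by simp [hβ, htu.symm]
    obtain ⟨c, a1, a2, a3, a4⟩ := D1 σ (t := u) (s := s) (u := t) hsu.symm htu.symm hts.symm XA YA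
      hA β' 1 Au At (Or.inl rfl)
      ⟨_, pm_const σ As, by rw [none _ _ _ hsu, bu]; exact hu,
        by rw [none _ _ _ hts.symm, bt]; linarith⟩
      (by rw [bs]; exact hs) (by rw [bs, bu]; omega) (by rw [bs, bu, bt]; omega)
    exact ⟨c, a1, by linarith, by linarith, by linarith⟩
  · right
    have hq := cnt_sum hts htu hsu XB c0
    by_cases p5 : cnt XB c0 u ≤ β u
    · exact D1 σ hts htu hsu XB YB hB β k Bt Bu (Or.inr hk) ⟨c0, hc0, by linarith, p5⟩ hs
        (by omega) (by omega)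
    · obtain ⟨c, a1, a2, a3, a4⟩ := D1 σ (t := t) (s := u) (u := s) htu hts hsu.symm XB YB hB β k
        Bt Bs (Or.inr hk) ⟨c0, hc0, by linarith, by omega⟩ hu (by omega) (by omega)
      exact ⟨c, a1, a2, a4, a3⟩

end Pool.Agent.Lib.MP_cc2426_co.TB
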