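import Mathlib
import Pool.Agent.Lib.MP_cc2426_co.TwoBlock

/-! Strongly connected blocks of three perfect matchings with one row and one column deleted,
and freezing of incomparable blocks. -/

set_option autoImplicit false
set_option linter.unusedSectionVars false

namespace Pool.Agent.Lib.MP_cc2426_co.TB

open Finset Relation

variable {V : Type*} [Fintype V] [DecidableEq V]

theorem chain {rel : V → V → Prop} (θ : Equiv.Perm V) (z : V) (d : ℕ)
    (h : ∀ l < d, rel ((θ ^ l) z) (θ ((θ ^ l) z))) : ReflTransGen rel z ((θ ^ d) z) := by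
  induction d with
  | zero => exact ReflTransGen.refl
  | succ d ih =>
    rw [pow_succ', Equiv.Perm.mul_apply]
    exact (ih (fun l hl => h l (by omega))).tail (h d (by omega))

theorem cyc {rel : V → V → Prop} (η : Equiv.Perm V) (p : V → Prop) (hp : ∀ v, p v → p (η v))
    (h : ∀ v, p v → rel v (η v)) {v : V} (hv : p v) : ReflTransGen rel (η v) v := by
  have all : ∀ l : ℕ, p ((η ^ l) (η v)) := by
    intro l
    induction l with
    | zero => exact hp v hv
    | succ l ih => rw [pow_succ', Equiv.Perm.mul_apply]; exact hp _ ih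
  obtain ⟨n, hn⟩ := (Equiv.Perm.sameCycle_apply_left.2
    (Equiv.Perm.SameCycle.refl η v)).exists_nat_pow_eq
  have := chain (rel := rel) η (η v) n (fun l _ => h _ (all l))
  rwa [hn] at this

theorem orb (θ : Equiv.Perm V) {x z z' : V} (hz : θ.SameCycle z x) (hz' : θ.SameCycle z' x)
    (n : z ≠ x) (n' : z' ≠ x) : ∃ d : ℕ, ((θ ^ d) z = z' ∧ ∀ l ≤ d, (θ ^ l) z ≠ x) ∨
      ((θ ^ d) z' = z ∧ ∀ l ≤ d, (θ ^ l) z' ≠ x) := by
  classical
  have key : ∀ {a b : V} (ha : ∃ i : ℕ, (θ ^ i) a = x) (hb : ∃ i : ℕ, (θ ^ i) b = x), b ≠ x →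
      Nat.find hb ≤ Nat.find ha → ∃ d : ℕ, (θ ^ d) a = b ∧ ∀ l ≤ d, (θ ^ l) a ≠ x := by
    intro a b ha hb nb le
    have pos : Nat.find hb ≠ 0 := fun h => nb (by simpa [h] using Nat.find_spec hb)
    refine ⟨Nat.find ha - Nat.find hb, ?_, fun l hl => Nat.find_min ha (by omega)⟩
    apply (θ ^ Nat.find hb).injective
    rw [← Equiv.Perm.mul_apply, ← pow_add, Nat.find_spec hb,
      show Nat.find hb + (Nat.find ha - Nat.find hb) = Nat.find ha by omega, Nat.find_spec ha]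
  rcases le_total (Nat.find hz'.exists_nat_pow_eq) (Nat.find hz.exists_nat_pow_eq) with h | h
  · obtain ⟨d, hd⟩ := key _ _ n' h
    exact ⟨d, Or.inl hd⟩
  · obtain ⟨d, hd⟩ := key _ _ n h
    exact ⟨d, Or.inr hd⟩

/-- `φ` is the perfect matching chosen by `c`, completed by the pair `x`, `y`. -/
def Hb (σ : Fin 3 → Equiv.Perm V) (x y : V) (c : V → Fin 3) (φ : Equiv.Perm V) : Prop :=
  φ x = y ∧ ∀ r, r ≠ x → φ r = σ (c r) r

/-- an allowed edge from the row `r` to the partner of `r'`. -/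
def Ar (σ : Fin 3 → Equiv.Perm V) (x : V) (Z : V → Fin 3 → Prop) (φ : Equiv.Perm V)
    (r r' : V) : Prop := r ≠ x ∧ r' ≠ x ∧ ∃ t, Z r t ∧ σ t r = φ r'

/-- reachable over every perfect matching. -/
def Rch (σ : Fin 3 → Equiv.Perm V) (x y : V) (v w : V) : Prop :=
  ∀ c φ, Hb σ x y c φ → ReflTransGen (Ar σ x (fun _ _ => True) φ) v w

/-- same block. -/
def Eqv (σ : Fin 3 → Equiv.Perm V) (x y : V) (v w : V) : Prop := Rch σ x y v w ∧ Rch σ x y w v

/-- an edge of colour `t` leaves the block of `v`. -/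
def Ty (σ : Fin 3 → Equiv.Perm V) (x y : V) (φ : Equiv.Perm V) (v : V) (t : Fin 3) : Prop :=
  ∃ w, Eqv σ x y v w ∧ ¬ Eqv σ x y v (φ.symm (σ t w))

variable {σ : Fin 3 → Equiv.Perm V} {x y : V}

theorem exists_hb {c : V → Fin 3} (h : PMc σ (univ.erase x) (univ.erase y) c) :
    ∃ φ, Hb σ x y c φ := by
  have inj : Function.Injective (fun r => if r = x then y else σ (c r) r) := by
    intro r r' e
    have m : ∀ r, r ≠ x → r ∈ univ.erase x := fun r h => mem_erase.2 ⟨h, mem_univ _⟩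
    by_cases a : r = x <;> by_cases b : r' = x
    · rw [a, b]
    · simp only [if_pos a, if_neg b] at e
      exact absurd e.symm (mem_erase.1 (h.1 r' (m _ b))).1
    · simp only [if_neg a, if_pos b] at e
      exact absurd e (mem_erase.1 (h.1 r (m _ a))).1
    · simp only [if_neg a, if_neg b] at e
      exact h.2 r (m _ a) r' (m _ b) e
  exact ⟨Equiv.ofBijective _ (Finite.injective_iff_bijective.1 inj), by simp,
    fun r hr => by simp [hr]⟩

theorem Hb.ne {c c' : V → Fin 3} {φ φ' : Equiv.Perm V} (h : Hb σ x y c φ) (h' : Hb σ x y c' φ')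
    {r : V} (hr : r ≠ x) : φ'.symm (φ r) ≠ x := fun e => by
  rw [Equiv.symm_apply_eq, h'.1, ← h.1] at e
  exact hr (φ.injective e)

theorem Hb.arc {c c' : V → Fin 3} {φ φ' : Equiv.Perm V} (h : Hb σ x y c φ) (h' : Hb σ x y c' φ')
    {Z : V → Fin 3 → Prop} (hZ : ∀ r, r ≠ x → Z r (c r)) {r : V} (hr : r ≠ x) :
    Ar σ x Z φ' r (φ'.symm (φ r)) :=
  ⟨hr, h.ne h' hr, c r, hZ r hr, by rw [Equiv.apply_symm_apply, h.2 r hr]⟩

theorem Hb.back {c c' : V → Fin 3} {φ φ' : Equiv.Perm V} (h : Hb σ x y c φ)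
    (h' : Hb σ x y c' φ') {Z : V → Fin 3 → Prop} (hZ : ∀ r, r ≠ x → Z r (c r)) {r : V}
    (hr : r ≠ x) : ReflTransGen (Ar σ x Z φ') (φ'.symm (φ r)) r :=
  cyc (φ.trans φ'.symm) (fun v => v ≠ x) (fun _ hv => h.ne h' hv) (fun _ hv => h.arc h' hZ hv) hr

theorem indep {c c' : V → Fin 3} {φ φ' : Equiv.Perm V} (h : Hb σ x y c φ)
    (h' : Hb σ x y c' φ') {Z : V → Fin 3 → Prop} (hZ : ∀ r, r ≠ x → Z r (c r)) {v w : V}
    (r : ReflTransGen (Ar σ x Z φ) v w) : ReflTransGen (Ar σ x Z φ') v w := by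
  induction r with
  | refl => exact ReflTransGen.refl
  | @tail p q _ a ih =>
    obtain ⟨a1, a2, t, a3, a4⟩ := a
    exact (ih.tail ⟨a1, h.ne h' a2, t, a3, by rw [Equiv.apply_symm_apply, a4]⟩).trans
      (h.back h' hZ a2)

theorem rch_of {c : V → Fin 3} {φ : Equiv.Perm V} (h : Hb σ x y c φ) {v w : V}
    (r : ReflTransGen (Ar σ x (fun _ _ => True) φ) v w) : Rch σ x y v w :=
  fun _ _ h' => indep h h' (fun _ _ => trivial) r

theorem Rch.trans {u v w : V} (a : Rch σ x y u v) (b : Rch σ x y v w) : Rch σ x y u w :=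
  fun c φ h => (a c φ h).trans (b c φ h)

theorem Eqv.refl (v : V) : Eqv σ x y v v :=
  ⟨fun _ _ _ => ReflTransGen.refl, fun _ _ _ => ReflTransGen.refl⟩

theorem Eqv.symm {v w : V} (a : Eqv σ x y v w) : Eqv σ x y w v := ⟨a.2, a.1⟩

theorem Eqv.trans {u v w : V} (a : Eqv σ x y u v) (b : Eqv σ x y v w) : Eqv σ x y u w :=
  ⟨a.1.trans b.1, b.2.trans a.2⟩

theorem Eqv.ne {c : V → Fin 3} {φ : Equiv.Perm V} (h : Hb σ x y c φ) {v w : V}
    (a : Eqv σ x y v w) (hv : v ≠ x) : w ≠ x := by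
  rcases (a.1 c φ h).cases_tail with e | ⟨_, _, e⟩
  · rw [e]; exact hv
  · exact e.2.1

theorem Hb.eqv {c c' : V → Fin 3} {φ φ' : Equiv.Perm V} (h : Hb σ x y c φ)
    (h' : Hb σ x y c' φ') {r : V} (hr : r ≠ x) : Eqv σ x y r (φ'.symm (φ r)) :=
  ⟨rch_of h' (ReflTransGen.single (h.arc h' (fun _ _ => trivial) hr)),
    rch_of h' (h.back h' (fun _ _ => trivial) hr)⟩

/-- the edges of colour `t` over the perfect matching `φ`. -/
def th (σ : Fin 3 → Equiv.Perm V) (φ : Equiv.Perm V) (t : Fin 3) : Equiv.Perm V :=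
  (σ t).trans φ.symm

theorem th_apply (φ : Equiv.Perm V) (t : Fin 3) (r : V) : th σ φ t r = φ.symm (σ t r) := rfl

theorem th_arc {φ : Equiv.Perm V} {t : Fin 3} {Z : V → Fin 3 → Prop} {r : V} (a : r ≠ x)
    (b : th σ φ t r ≠ x) (hZ : Z r t) : Ar σ x Z φ r (th σ φ t r) :=
  ⟨a, b, t, hZ, by rw [th_apply, Equiv.apply_symm_apply]⟩

theorem off {c : V → Fin 3} {φ : Equiv.Perm V} (h : Hb σ x y c φ) {t : Fin 3} {z : V}
    (hz : ¬ (th σ φ t).SameCycle z x) : Eqv σ x y z (th σ φ t z) := by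
  have n : ∀ v, ¬ (th σ φ t).SameCycle v x → v ≠ x := fun v hv e =>
    hv (e ▸ Equiv.Perm.SameCycle.refl _ _)
  have s : ∀ v, ¬ (th σ φ t).SameCycle v x → ¬ (th σ φ t).SameCycle (th σ φ t v) x :=
    fun v hv e => hv (Equiv.Perm.sameCycle_apply_left.1 e)
  have a : ∀ v, ¬ (th σ φ t).SameCycle v x →
      Ar σ x (fun _ _ => True) φ v (th σ φ t v) := fun v hv =>
    th_arc (n v hv) (n _ (s v hv)) trivial
  exact ⟨rch_of h (ReflTransGen.single (a z hz)), rch_of h (cyc _ _ s a hz)⟩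

theorem along {φ : Equiv.Perm V} {t : Fin 3} {Z : V → Fin 3 → Prop}
    (hZ : ∀ r, (th σ φ t).SameCycle r x → Z r t) {z : V} (hz : (th σ φ t).SameCycle z x) {d : ℕ}
    (h : ∀ l ≤ d, ((th σ φ t) ^ l) z ≠ x) :
    ReflTransGen (Ar σ x Z φ) z (((th σ φ t) ^ d) z) :=
  chain _ z d (fun l hl => th_arc (h l hl.le) (by
    have := h (l + 1) hl
    rwa [pow_succ', Equiv.Perm.mul_apply] at this) (hZ _ (Equiv.Perm.sameCycle_pow_left.2 hz)))

theorem one_exit {c : V → Fin 3} {φ : Equiv.Perm V} (h : Hb σ x y c φ) {t : Fin 3} {r r' : V}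
    (hr : r ≠ x) (e : Eqv σ x y r r') (a : ¬ Eqv σ x y r (th σ φ t r))
    (a' : ¬ Eqv σ x y r' (th σ φ t r')) : r = r' := by
  have key : ∀ {r r' : V} {d : ℕ}, Eqv σ x y r r' → ¬ Eqv σ x y r (th σ φ t r) →
      ((th σ φ t) ^ d) r = r' → (∀ l ≤ d, ((th σ φ t) ^ l) r ≠ x) → r = r' := by
    intro r r' d e a h1 h2
    cases d with
    | zero => exact h1
    | succ d =>
      exfalso
      have on : (th σ φ t).SameCycle r x := by_contra (fun hh => a (off h hh))
      have p := along (Z := fun _ _ => True) (fun _ _ => trivial)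
        (Equiv.Perm.sameCycle_apply_left.2 on) (d := d) (fun l hl => by
          have := h2 (l + 1) (by omega)
          rwa [pow_succ, Equiv.Perm.mul_apply] at this)
      rw [← Equiv.Perm.mul_apply, ← pow_succ, h1] at p
      exact a ⟨rch_of h (ReflTransGen.single (th_arc (h2 0 (by omega)) (by
        simpa using h2 1 (by omega)) trivial)), (rch_of h p).trans e.2⟩
  obtain ⟨d, hd | hd⟩ := orb (th σ φ t) (by_contra (fun hh => a (off h hh)))
    (by_contra (fun hh => a' (off h hh))) hr (e.ne h hr)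
  · exact key e a hd.1 hd.2
  · exact (key e.symm a' hd.1 hd.2).symm

open Classical in
/-- the rows of the block of `v`. -/
noncomputable def blk (σ : Fin 3 → Equiv.Perm V) (x y v : V) : Finset V :=
  univ.filter (Eqv σ x y v)

theorem mem_blk {v w : V} : w ∈ blk σ x y v ↔ Eqv σ x y v w := by simp [blk]

theorem mem_col {φ : Equiv.Perm V} {v z : V} :
    z ∈ (blk σ x y v).image φ ↔ Eqv σ x y v (φ.symm z) := by
  rw [mem_image]
  constructor
  · rintro ⟨w, hw, rfl⟩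
    simpa using mem_blk.1 hw
  · exact fun h => ⟨_, mem_blk.2 h, by simp⟩

theorem blk_one {c : V → Fin 3} {φ : Equiv.Perm V} (h : Hb σ x y c φ) {v : V} (hv : v ≠ x)
    (t : Fin 3) : One σ (blk σ x y v) ((blk σ x y v).image φ) t := by
  intro r hr r' hr' a a'
  rw [mem_blk] at hr hr'
  rw [mem_col] at a a'
  exact one_exit h (hr.ne h hv) (hr.symm.trans hr') (fun e => a (hr.trans e))
    (fun e => a' (hr'.trans e))

theorem blk_full {φ : Equiv.Perm V} {v : V} {t : Fin 3} (h : ¬ Ty σ x y φ v t) :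
    ∀ r ∈ blk σ x y v, σ t r ∈ (blk σ x y v).image φ := fun r hr =>
  mem_col.2 (by_contra (fun a => h ⟨r, mem_blk.1 hr, a⟩))

theorem blk_iff {c c' : V → Fin 3} {φ : Equiv.Perm V} (h : Hb σ x y c φ)
    (h' : PMc σ (univ.erase x) (univ.erase y) c') (v : V) {r : V} (hr : r ≠ x) :
    σ (c' r) r ∈ (blk σ x y v).image φ ↔ r ∈ blk σ x y v := by
  obtain ⟨φ', h'⟩ := exists_hb h'
  have := h'.eqv h hr
  rw [h'.2 r hr] at this
  rw [mem_col, mem_blk]
  exact ⟨fun e => e.trans this.symm, fun e => e.trans this⟩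

theorem has_ty {c : V → Fin 3} {φ : Equiv.Perm V} (h : Hb σ x y c φ)
    (conn : ∀ A : Finset V, A.Nonempty → A ≠ univ → A.image (σ 0) = A.image (σ 1) →
      A.image (σ 0) ≠ A.image (σ 2)) {v : V} (hv : v ≠ x) : ∃ t, Ty σ x y φ v t := by
  by_contra hn
  push Not at hn
  have e : ∀ t, (blk σ x y v).image (σ t) = (blk σ x y v).image φ := fun t =>
    eq_of_subset_of_card_le (image_subset_iff.2 (blk_full (hn t)))
      (by rw [card_image_of_injective _ φ.injective, card_image_of_injective _ (σ t).injective])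
  refine conn (blk σ x y v) ⟨v, mem_blk.2 (Eqv.refl v)⟩ (fun hu => ?_) (by rw [e, e]) (by rw [e, e])
  exact (mem_blk.1 (hu ▸ mem_univ x : x ∈ blk σ x y v)).ne h hv rfl

theorem cnt_cg {X : Finset V} {c c' : V → Fin 3} (h : ∀ r ∈ X, c r = c' r) (t : Fin 3) :
    cnt X c t = cnt X c' t := by
  unfold cnt
  rw [filter_congr (fun r hr => by rw [h r hr])]

theorem cnt_nn (X : Finset V) (c : V → Fin 3) (t : Fin 3) : 0 ≤ cnt X c t := by
  unfold cnt; positivity

theorem cnt_un {X Y : Finset V} (h : Disjoint X Y) (c : V → Fin 3) (t : Fin 3) :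
    cnt (X ∪ Y) c t = cnt X c t + cnt Y c t := by
  unfold cnt
  rw [filter_union, card_union_of_disjoint (disjoint_filter_filter h)]
  push_cast; rfl

theorem cnt_cst (X : Finset V) {s t : Fin 3} (h : s ≠ t) : cnt X (fun _ => s) t = 0 := by
  unfold cnt
  simp [h]

theorem cnt_tot (X : Finset V) (c : V → Fin 3) :
    cnt X c 0 + cnt X c 1 + cnt X c 2 = X.card := by
  have := card_eq_sum_card_fiberwise (s := X) (t := univ) (f := c) (fun _ _ => mem_univ _)
  rw [Fin.sum_univ_three] at this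
  unfold cnt
  omega

theorem pm_cst {X Y : Finset V} {t : Fin 3} (h : ∀ r ∈ X, σ t r ∈ Y) :
    PMc σ X Y (fun _ => t) := ⟨h, fun _ _ _ _ e => (σ t).injective e⟩

theorem restrict {c c' : V → Fin 3} {φ : Equiv.Perm V} (h : Hb σ x y c φ)
    (h' : PMc σ (univ.erase x) (univ.erase y) c') {v : V} (hv : v ≠ x) :
    PMc σ (blk σ x y v) ((blk σ x y v).image φ) c' := by
  have n : ∀ r ∈ blk σ x y v, r ≠ x := fun r hr => (mem_blk.1 hr).ne h hv
  exact ⟨fun r hr => (blk_iff h h' v (n r hr)).2 hr, fun r hr r' hr' =>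
    h'.2 r (mem_erase.2 ⟨n r hr, mem_univ _⟩) r' (mem_erase.2 ⟨n r' hr', mem_univ _⟩)⟩

theorem glue {c c' d : V → Fin 3} {φ : Equiv.Perm V} (h : Hb σ x y c φ)
    (h' : PMc σ (univ.erase x) (univ.erase y) c') {v : V} (hv : v ≠ x)
    (hd : PMc σ (blk σ x y v) ((blk σ x y v).image φ) d) :
    PMc σ (univ.erase x) (univ.erase y) (fun r => if r ∈ blk σ x y v then d r else c' r) := by
  constructor
  · intro r hr
    by_cases a : r ∈ blk σ x y v
    · simp only [if_pos a]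
      obtain ⟨w, hw, e⟩ := mem_image.1 (hd.1 r a)
      refine mem_erase.2 ⟨fun hh => (mem_blk.1 hw).ne h hv (φ.injective ?_), mem_univ _⟩
      rw [e, hh, h.1]
    · simp only [if_neg a]
      exact h'.1 r hr
  · intro r hr r' hr' e
    by_cases a : r ∈ blk σ x y v <;> by_cases b : r' ∈ blk σ x y v
    · simp only [if_pos a, if_pos b] at e
      exact hd.2 r a r' b e
    · simp only [if_pos a, if_neg b] at e
      exact absurd ((blk_iff h h' v (mem_erase.1 hr').1).1 (e ▸ hd.1 r a)) b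
    · simp only [if_neg a, if_pos b] at e
      exact absurd ((blk_iff h h' v (mem_erase.1 hr).1).1 (e ▸ hd.1 r' b)) a
    · simp only [if_neg a, if_neg b] at e
      exact h'.2 r hr r' hr' e

/-- a union of blocks frozen with the colouring `f`, the budget still being met. -/
def Inv (σ : Fin 3 → Equiv.Perm V) (x y : V) (a : Fin 3 → ℤ) (Φ : Finset V) (f : V → Fin 3) :
    Prop :=
  (∀ v ∈ Φ, v ≠ x ∧ ∀ w, Eqv σ x y v w → w ∈ Φ) ∧
    ∀ t, ∃ c, PMc σ (univ.erase x) (univ.erase y) c ∧ (∀ r ∈ Φ, c r = f r) ∧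
      cnt (univ.erase x) c t ≤ a t

theorem step {c0 : V → Fin 3} {φ : Equiv.Perm V} (h : Hb σ x y c0 φ) {a : Fin 3 → ℤ}
    (ha : a 0 + a 1 + a 2 + 2 = Fintype.card V) {Φ : Finset V} {f : V → Fin 3}
    (inv : Inv σ x y a Φ f) {t s u : Fin 3} (hts : t ≠ s) (htu : t ≠ u) (hsu : s ≠ u) {v w : V}
    (hv : v ≠ x) (hw : w ≠ x) (nv : v ∉ Φ) (nw : w ∉ Φ) (ne : ¬ Eqv σ x y v w)
    (vs : ¬ Ty σ x y φ v s) (vu : ¬ Ty σ x y φ v u) (wt : ¬ Ty σ x y φ w t) :
    ∃ Φ' f', Inv σ x y a Φ' f' ∧ Φ.card < Φ'.card := by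
  classical
  have tri : ∀ t s u : Fin 3, t ≠ s → t ≠ u → s ≠ u → ∀ j, j = t ∨ j = s ∨ j = u := by decide
  have sum3 : ∀ g : Fin 3 → ℤ, g t + g s + g u = g 0 + g 1 + g 2 := by
    intro g
    revert hts htu hsu
    fin_cases t <;> fin_cases s <;> fin_cases u <;> simp <;> ring
  set A := blk σ x y v with hA
  set B := blk σ x y w with hB
  set O := (univ.erase x) \ (A ∪ B) with hO
  have AB : Disjoint A B := disjoint_left.2 (fun r a b =>
    ne ((mem_blk.1 a).trans (mem_blk.1 b).symm))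
  have AΦ : ∀ r ∈ Φ, r ∉ A := fun r hr a => nv ((inv.1 r hr).2 v (mem_blk.1 a).symm)
  have BΦ : ∀ r ∈ Φ, r ∉ B := fun r hr a => nw ((inv.1 r hr).2 w (mem_blk.1 a).symm)
  have sub : A ∪ B ⊆ univ.erase x := fun r hr => mem_erase.2 ⟨(mem_union.1 hr).elim
    (fun a => (mem_blk.1 a).ne h hv) (fun a => (mem_blk.1 a).ne h hw), mem_univ _⟩
  have split : ∀ c j, cnt (univ.erase x) c j = cnt O c j + cnt A c j + cnt B c j := by
    intro c j
    rw [add_assoc, ← cnt_un AB, ← cnt_un sdiff_disjoint, sdiff_union_of_subset sub]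
  have cO : (O.card : ℤ) + A.card + B.card + 1 = Fintype.card V := by
    have e1 := card_sdiff_add_card_eq_card sub
    rw [card_union_of_disjoint AB] at e1
    have e2 := card_erase_add_one (mem_univ x)
    rw [card_univ] at e2
    rw [hO]
    omega
  have mn : ∀ j, ∃ c, PMc σ (univ.erase x) (univ.erase y) c ∧ (∀ r ∈ Φ, c r = f r) ∧
      ∀ c', PMc σ (univ.erase x) (univ.erase y) c' → (∀ r ∈ Φ, c' r = f r) →
        cnt O c j ≤ cnt O c' j := by
    intro j
    obtain ⟨c1, p1, p2, -⟩ := inv.2 j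
    obtain ⟨c, hc, hm⟩ := exists_min_image (univ.filter (fun c : V → Fin 3 =>
      PMc σ (univ.erase x) (univ.erase y) c ∧ ∀ r ∈ Φ, c r = f r)) (fun c => cnt O c j)
      ⟨c1, mem_filter.2 ⟨mem_univ _, p1, p2⟩⟩
    exact ⟨c, (mem_filter.1 hc).2.1, (mem_filter.1 hc).2.2, fun c' a b =>
      hm c' (mem_filter.2 ⟨mem_univ _, a, b⟩)⟩
  choose m m1 m2 m3 using mn
  obtain ⟨g, hg, gm⟩ := exists_min_image (univ.filter (fun c : V → Fin 3 =>
    PMc σ B (B.image φ) c)) (fun c => cnt B c t)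
    ⟨m 0, mem_filter.2 ⟨mem_univ _, restrict h (m1 0) hw⟩⟩
  have g1 := (mem_filter.1 hg).2
  have g2 : ∀ c, PMc σ B (B.image φ) c → cnt B g t ≤ cnt B c t := fun c hc =>
    gm c (mem_filter.2 ⟨mem_univ _, hc⟩)
  have low : ∀ j, ∃ c, PMc σ B (B.image φ) c ∧ cnt O (m j) j + cnt B c j ≤ a j := by
    intro j
    obtain ⟨c, p1, p2, p3⟩ := inv.2 j
    refine ⟨c, restrict h p1 hw, ?_⟩
    have := m3 j c p1 p2
    have := split c j
    have := cnt_nn A c j
    omega
  have mix : ∀ j dA dB, PMc σ A (A.image φ) dA → PMc σ B (B.image φ) dB →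
      cnt O (m j) j + cnt A dA j + cnt B dB j ≤ a j →
      ∃ c, PMc σ (univ.erase x) (univ.erase y) c ∧ (∀ r ∈ Φ, c r = f r) ∧ (∀ r ∈ A, c r = dA r) ∧
        (∀ r ∈ B, c r = dB r) ∧ cnt (univ.erase x) c j ≤ a j := by
    intro j dA dB pA pB le
    have e1 : ∀ r, r ∉ A → r ∉ B →
        (if r ∈ B then dB r else if r ∈ A then dA r else m j r) = m j r := fun r a b => by
      rw [if_neg b, if_neg a]
    have e2 : ∀ r ∈ A, (if r ∈ B then dB r else if r ∈ A then dA r else m j r) = dA r :=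
      fun r a => by rw [if_neg (disjoint_left.1 AB a), if_pos a]
    have e3 : ∀ r ∈ B, (if r ∈ B then dB r else if r ∈ A then dA r else m j r) = dB r :=
      fun r a => by rw [if_pos a]
    refine ⟨_, glue h (glue h (m1 j) hv pA) hw pB,
      fun r hr => (e1 r (AΦ r hr) (BΦ r hr)).trans (m2 j r hr), e2, e3, ?_⟩
    rw [split, cnt_cg e2, cnt_cg e3, cnt_cg (X := O) (c' := m j) (fun r hr =>
      e1 r (fun a => (mem_sdiff.1 hr).2 (mem_union_left _ a))
        (fun a => (mem_sdiff.1 hr).2 (mem_union_right _ a)))]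
    exact le
  have grow : ∀ (z : V) (d : V → Fin 3), z ≠ x → z ∉ Φ → (∀ r ∈ Φ, r ∉ blk σ x y z) →
      (∀ j, ∃ c, PMc σ (univ.erase x) (univ.erase y) c ∧ (∀ r ∈ Φ, c r = f r) ∧
        (∀ r ∈ blk σ x y z, c r = d r) ∧ cnt (univ.erase x) c j ≤ a j) →
      ∃ Φ' f', Inv σ x y a Φ' f' ∧ Φ.card < Φ'.card := by
    intro z d hz nz dis hc
    refine ⟨Φ ∪ blk σ x y z, fun r => if r ∈ Φ then f r else d r, ⟨?_, fun j => ?_⟩, ?_⟩
    · intro r hr
      rcases mem_union.1 hr with hr | hr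
      · exact ⟨(inv.1 r hr).1, fun q e => mem_union_left _ ((inv.1 r hr).2 q e)⟩
      · exact ⟨(mem_blk.1 hr).ne h hz, fun q e =>
          mem_union_right _ (mem_blk.2 ((mem_blk.1 hr).trans e))⟩
    · obtain ⟨c, p1, p2, p3, p4⟩ := hc j
      refine ⟨c, p1, fun r hr => ?_, p4⟩
      by_cases b : r ∈ Φ
      · simp only [if_pos b]; exact p2 r b
      · simp only [if_neg b]; exact p3 r ((mem_union.1 hr).resolve_left b)
    · exact card_lt_card ((ssubset_iff_of_subset subset_union_left).2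
        ⟨z, mem_union_right _ (mem_blk.2 (Eqv.refl z)), nz⟩)
  have ci : ∀ X : Finset V, X.card = (X.image φ).card := fun X =>
    (card_image_of_injective _ φ.injective).symm
  obtain ⟨lt, lt1, lt2⟩ := low t
  obtain ⟨ls, -, ls2⟩ := low s
  obtain ⟨lu, -, lu2⟩ := low u
  have n1 := cnt_nn B ls s
  have n2 := cnt_nn B lu u
  have n3 := g2 lt lt1
  have n4 := m3 s (m t) (m1 t) (m2 t)
  have n5 := m3 u (m t) (m1 t) (m2 t)
  have n6 := cnt_tot O (m t)
  have n7 := sum3 (cnt O (m t))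
  have n8 := sum3 a
  rcases twoblock σ hts htu hsu A (A.image φ) B (B.image φ) (ci A) (ci B)
    (fun j => a j - cnt O (m j) j) (cnt B g t) (blk_full vs) (blk_full vu) (blk_one h hv t)
    (blk_full wt) (blk_one h hw s) (blk_one h hw u) g2 ⟨g, g1, rfl⟩ (by omega) (by omega)
    (by omega) (by omega) with ⟨d, d1, d2, d3, d4⟩ | ⟨d, d1, d2, d3, d4⟩
  · refine grow v d hv nv AΦ (fun j => ?_)
    rcases tri t s u hts htu hsu j with rfl | rfl | rfl
    · obtain ⟨c, p1, p2, p3, -, p5⟩ := mix j d g d1 g1 (by omega)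
      exact ⟨c, p1, p2, p3, p5⟩
    · obtain ⟨c, p1, p2, p3, -, p5⟩ := mix j d _ d1 (pm_cst (blk_full wt))
        (by rw [cnt_cst B hts]; omega)
      exact ⟨c, p1, p2, p3, p5⟩
    · obtain ⟨c, p1, p2, p3, -, p5⟩ := mix j d _ d1 (pm_cst (blk_full wt))
        (by rw [cnt_cst B htu]; omega)
      exact ⟨c, p1, p2, p3, p5⟩
  · refine grow w d hw nw BΦ (fun j => ?_)
    rcases tri t s u hts htu hsu j with rfl | rfl | rfl
    · obtain ⟨c, p1, p2, -, p3, p5⟩ := mix j _ d (pm_cst (blk_full vs)) d1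
        (by rw [cnt_cst A hts.symm]; omega)
      exact ⟨c, p1, p2, p3, p5⟩
    · obtain ⟨c, p1, p2, -, p3, p5⟩ := mix j _ d (pm_cst (blk_full vu)) d1
        (by rw [cnt_cst A hsu.symm]; omega)
      exact ⟨c, p1, p2, p3, p5⟩
    · obtain ⟨c, p1, p2, -, p3, p5⟩ := mix j _ d (pm_cst (blk_full vs)) d1
        (by rw [cnt_cst A hsu]; omega)
      exact ⟨c, p1, p2, p3, p5⟩

theorem freeze {a : Fin 3 → ℤ} (ha : a 0 + a 1 + a 2 + 2 = Fintype.card V)
    (conn : ∀ A : Finset V, A.Nonempty → A ≠ univ → A.image (σ 0) = A.image (σ 1) →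
      A.image (σ 0) ≠ A.image (σ 2))
    (hP : ∀ t, ∃ c, PMc σ (univ.erase x) (univ.erase y) c ∧ cnt (univ.erase x) c t ≤ a t) :
    ∃ Φ f, Inv σ x y a Φ f ∧ ∀ c φ, Hb σ x y c φ → ∀ v w, v ≠ x → w ≠ x → v ∉ Φ → w ∉ Φ →
      Eqv σ x y v w ∨ ∃ t, Ty σ x y φ v t ∧ Ty σ x y φ w t := by
  classical
  obtain ⟨Φ, hΦ, hm⟩ := exists_max_image (univ.filter (fun Φ : Finset V =>
    ∃ f, Inv σ x y a Φ f)) card ⟨∅, mem_filter.2 ⟨mem_univ _, fun _ => 0, by simp, fun t => by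
      obtain ⟨c, p1, p2⟩ := hP t
      exact ⟨c, p1, by simp, p2⟩⟩⟩
  obtain ⟨f, inv⟩ := (mem_filter.1 hΦ).2
  refine ⟨Φ, f, inv, fun c φ h v w hv hw nv nw => ?_⟩
  by_contra hn
  push Not at hn
  obtain ⟨t, ht⟩ := has_ty h conn hv
  obtain ⟨s, hs⟩ := has_ty h conn hw
  have hts : t ≠ s := fun e => hn.2 t ht (e ▸ hs)
  have third : ∀ t s : Fin 3, t ≠ s → ∃ u, t ≠ u ∧ s ≠ u := by decide
  obtain ⟨u, htu, hsu⟩ := third t s hts
  have no : ¬ ∃ Φ' f', Inv σ x y a Φ' f' ∧ Φ.card < Φ'.card := by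
    rintro ⟨Φ', f', i1, i2⟩
    exact absurd (hm Φ' (mem_filter.2 ⟨mem_univ _, f', i1⟩)) (by omega)
  by_cases hu : Ty σ x y φ v u
  · exact no (step h ha inv hts.symm hsu htu hw hv nw nv (fun e => hn.1 e.symm) (hn.2 t ht)
      (hn.2 u hu) (fun e => hn.2 s e hs))
  · exact no (step h ha inv hts htu hsu hv hw nv nw hn.1 (fun e => hn.2 s e hs) hu (hn.2 t ht))

end Pool.Agent.Lib.MP_cc2426_co.TB
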