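import Pool.Agent.Lib.MP_cc2426_co.Deg

/-! The potential of `Deg` for an arbitrary set of allowed edges, and for three such sets with
the same perfect matchings. -/

set_option autoImplicit false
set_option linter.unusedSectionVars false

namespace Pool.Agent.Lib.MP_cc2426_co

open Finset

variable {E L R K : Type*} [DecidableEq E] [DecidableEq L] [DecidableEq R] [DecidableEq K]
  [Fintype L] [Fintype R]

namespace Sys

/-- edges in `A`, blocked vertices avoided. -/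
def Oz (S : Sys E L R K) (A : Finset E) (FL : Finset L) (FR : Finset R) (M : Finset E) : Prop :=
  ∀ e ∈ M, e ∈ A ∧ S.lf e ∉ FL ∧ S.rt e ∉ FR

theorem Oz.swap {S : Sys E L R K} {A : Finset E} {FL : Finset L} {FR : Finset R} {M : Finset E}
    (h : S.Oz A FL FR M) : S.swap.Oz A FR FL M :=
  fun e he => ⟨(h e he).1, (h e he).2.2, (h e he).2.1⟩

theorem Oz.unswap {S : Sys E L R K} {A : Finset E} {FL : Finset L} {FR : Finset R}
    {M : Finset E} (h : S.swap.Oz A FR FL M) : S.Oz A FL FR M :=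
  fun e he => ⟨(h e he).1, (h e he).2.2, (h e he).2.1⟩

theorem Oz.mono {S : Sys E L R K} {A : Finset E} {FL : Finset L} {FR : Finset R}
    {M N : Finset E} (h : S.Oz A FL FR M) (hN : N ⊆ M) : S.Oz A FL FR N := fun e he => h e (hN he)

/-- the result of putting `f` at an uncovered left vertex and removing `g`. -/
structure MvZ (S : Sys E L R K) (A : Finset E) (FL : Finset L) (FR : Finset R) (N : Finset E)
    (f g : E) : Prop where
  isM : S.IsM (insert f (N.erase g))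
  ok : S.Oz A FL FR (insert f (N.erase g))
  card : (insert f (N.erase g)).card = N.card
  frL : S.FrL (insert f (N.erase g)) (S.lf g)
  nb : S.lf g ∉ FL
  keepR : ∀ y, S.FrR N y → S.FrR (insert f (N.erase g)) y
  keepL : ∀ x, S.FrL N x → x ≠ S.lf f → S.FrL (insert f (N.erase g)) x

theorem mvZ {S : Sys E L R K} {A : Finset E} {FL : Finset L} {FR : Finset R} {N : Finset E}
    {f g : E} (h : S.IsM N) (ho : S.Oz A FL FR N) (hf : f ∈ A) (hb : S.lf f ∉ FL)
    (hfr : S.FrL N (S.lf f)) (hg : g ∈ N) (he : S.rt f = S.rt g) : MvZ S A FL FR N f g := by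
  have a := mvL (A := insert (S.col f) (N.image S.col)) (FL := FL) (FR := FR) h
    (fun e he => ⟨mem_insert_of_mem (mem_image_of_mem _ he), (ho e he).2⟩) (mem_insert_self _ _)
    hb hfr hg he
  refine ⟨a.isM, fun e he' => ⟨?_, (a.ok e he').2⟩, a.card, a.frL, a.nb, a.keepR, a.keepL⟩
  rcases mem_insert.1 he' with rfl | he'
  · exact hf
  · exact (ho e (mem_erase.1 he').2).1

/-- an arc between two edges of `P`. -/
def Arz (S : Sys E L R K) (A : Finset E) (_FL : Finset L) (_FR : Finset R) (P : Finset E)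
    (g g' : E) : Prop :=
  g ∈ P ∧ g' ∈ P ∧ ∃ f, f ∈ A ∧ S.lf f = S.lf g ∧ S.rt f = S.rt g'

/-- a weight that is additive inside every small edge set. -/
structure Ctz (S : Sys E L R K) where
  A : Finset E
  FL : Finset L
  FR : Finset R
  m : ℕ
  w : Finset E → Finset E → ℤ
  hL : m + 1 + FL.card = Fintype.card L
  hR : m + 1 + FR.card = Fintype.card R
  cell : ∀ U N1 N2 N3 : Finset E, U.card ≤ m + 2 → N1 ⊆ U → N2 ⊆ U → N3 ⊆ U →
    S.IsM N1 → S.Oz A FL FR N1 → m ≤ N1.card → S.IsM N2 → S.Oz A FL FR N2 → m ≤ N2.card →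
    S.IsM N3 → S.Oz A FL FR N3 → m ≤ N3.card → w N1 N2 + w N2 N3 = w N1 N3

variable {S : Sys E L R K}

theorem card_boundz {A : Finset E} {FL : Finset L} {FR : Finset R} {N : Finset E} (h : S.IsM N)
    (ho : S.Oz A FL FR N) (Z : Finset L) (hZ : ∀ x ∈ Z, x ∉ FL ∧ S.FrL N x) :
    N.card + Z.card + FL.card ≤ Fintype.card L := by
  have h1 : (N.image S.lf).card = N.card :=
    card_image_of_injOn (fun e he f hf hh => h.l e he f hf hh)
  have d1 : Disjoint (N.image S.lf) Z := by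
    rw [Finset.disjoint_left]
    intro x hx hz
    obtain ⟨e, he, rfl⟩ := mem_image.1 hx
    exact (hZ _ hz).2 e he rfl
  have d2 : Disjoint (N.image S.lf ∪ Z) FL := by
    rw [Finset.disjoint_left]
    intro x hx hz
    rcases mem_union.1 hx with hx | hx
    · obtain ⟨e, he, rfl⟩ := mem_image.1 hx
      exact (ho e he).2.1 hz
    · exact (hZ _ hx).1 hz
  rw [← h1, ← card_union_of_disjoint d1, ← card_union_of_disjoint d2]
  exact card_le_univ _

namespace Ctz

/-- exchange the two sides. -/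
def swap (C : S.Ctz) : S.swap.Ctz :=
  ⟨C.A, C.FR, C.FL, C.m, C.w, C.hR, C.hL, fun U N1 N2 N3 a b c d e1 e2 e3 f1 f2 f3 g1 g2 g3 =>
    C.cell U N1 N2 N3 a b c d e1.unswap e2.unswap e3 f1.unswap f2.unswap f3 g1.unswap g2.unswap g3⟩

variable (C : S.Ctz)

/-- near-perfect. -/
def Nr (N : Finset E) : Prop := S.IsM N ∧ S.Oz C.A C.FL C.FR N ∧ N.card = C.m

/-- perfect. -/
def Hub (N : Finset E) : Prop := S.IsM N ∧ S.Oz C.A C.FL C.FR N ∧ N.card = C.m + 1

/-- either. -/
def V (N : Finset E) : Prop := S.IsM N ∧ S.Oz C.A C.FL C.FR N ∧ C.m ≤ N.card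

/-- play the edges of `B` at the uncovered left vertex until a perfect matching appears. -/
inductive Red (B : Finset E) : Finset E → Finset E → ℤ → Prop
  | close (N : Finset E) (h : E) : h ∈ B → S.FrL N (S.lf h) → S.FrR N (S.rt h) →
      Red B N (insert h N) (C.w N (insert h N))
  | step (N : Finset E) (h g : E) (P : Finset E) (W : ℤ) : h ∈ B → S.FrL N (S.lf h) → g ∈ N →
      S.rt h = S.rt g → Red B (insert h (N.erase g)) P W →
      Red B N P (C.w N (insert h (N.erase g)) + W)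

/-- the potential is compatible with all deletions from `P`. -/
def Conf (B : Finset E) (ψ : Finset E → ℤ) (P : Finset E) : Prop :=
  ∀ g ∈ P, ∀ Q W, C.Red B (P.erase g) Q W → ψ P = C.w P (P.erase g) + W + ψ Q

variable {C}

theorem Nr.v {N : Finset E} (h : C.Nr N) : C.V N := ⟨h.1, h.2.1, h.2.2.ge⟩

theorem Hub.v {N : Finset E} (h : C.Hub N) : C.V N := ⟨h.1, h.2.1, by have := h.2.2; omega⟩

theorem Nr.swap {N : Finset E} (h : C.Nr N) : C.swap.Nr N := ⟨h.1.swap, h.2.1.swap, h.2.2⟩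

theorem Hub.swap {N : Finset E} (h : C.Hub N) : C.swap.Hub N := ⟨h.1.swap, h.2.1.swap, h.2.2⟩

theorem Nr.unswap {N : Finset E} (h : C.swap.Nr N) : C.Nr N := ⟨h.1.unswap, h.2.1.unswap, h.2.2⟩

theorem tri {U N1 N2 N3 : Finset E} (hU : U.card ≤ C.m + 2) (s1 : N1 ⊆ U) (s2 : N2 ⊆ U)
    (s3 : N3 ⊆ U) (h1 : C.V N1) (h2 : C.V N2) (h3 : C.V N3) :
    C.w N1 N2 + C.w N2 N3 = C.w N1 N3 :=
  C.cell U N1 N2 N3 hU s1 s2 s3 h1.1 h1.2.1 h1.2.2 h2.1 h2.2.1 h2.2.2 h3.1 h3.2.1 h3.2.2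

theorem anti {U N1 N2 : Finset E} (hU : U.card ≤ C.m + 2) (s1 : N1 ⊆ U) (s2 : N2 ⊆ U)
    (h1 : C.V N1) (h2 : C.V N2) : C.w N1 N2 + C.w N2 N1 = 0 := by
  have a := tri hU s1 s2 s1 h1 h2 h1
  have b := tri hU s1 s1 s1 h1 h1 h1
  omega

theorem Nr.two {N : Finset E} (h : C.Nr N) (e f : E) :
    (insert e (insert f N)).card ≤ C.m + 2 := by
  have a := card_insert_le e (insert f N)
  have b := card_insert_le f N
  have := h.2.2
  omega

theorem Hub.one {N : Finset E} (h : C.Hub N) (e : E) : (insert e N).card ≤ C.m + 2 := by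
  have b := card_insert_le e N
  have := h.2.2
  omega

theorem Nr.uniqL {N : Finset E} (h : C.Nr N) {x x' : L} (a : x ∉ C.FL) (b : S.FrL N x)
    (a' : x' ∉ C.FL) (b' : S.FrL N x') : x = x' := by
  by_contra hne
  have := card_boundz h.1 h.2.1 {x, x'} (by
    intro z hz
    rcases mem_insert.1 hz with rfl | hz
    · exact ⟨a, b⟩
    · rw [mem_singleton.1 hz]; exact ⟨a', b'⟩)
  rw [card_pair hne, h.2.2] at this
  have := C.hL
  omega

theorem Nr.uniqR {N : Finset E} (h : C.Nr N) {x x' : R} (a : x ∉ C.FR) (b : S.FrR N x)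
    (a' : x' ∉ C.FR) (b' : S.FrR N x') : x = x' := h.swap.uniqL a b a' b'

theorem Hub.covL {B : Finset E} (h : C.Hub B) {x : L} (a : x ∉ C.FL) : ∃ e ∈ B, S.lf e = x := by
  by_contra hne
  push Not at hne
  have := card_boundz h.1 h.2.1 {x} (by
    intro z hz
    rw [mem_singleton.1 hz]; exact ⟨a, hne⟩)
  rw [card_singleton, h.2.2] at this
  have := C.hL
  omega

theorem Nr.holeL {N B : Finset E} (h : C.Nr N) (hB : C.Hub B) :
    ∃ e ∈ B, S.FrL N (S.lf e) := by
  obtain ⟨x, a, b⟩ := exists_frL (S := S) (FL := C.FL) (M := N) (by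
    have := C.hL
    have := h.2.2
    omega)
  obtain ⟨e, he, rfl⟩ := hB.covL a
  exact ⟨e, he, b⟩

theorem Nr.holeR {N B : Finset E} (h : C.Nr N) (hB : C.Hub B) :
    ∃ e ∈ B, S.FrR N (S.rt e) := h.swap.holeL hB.swap

theorem Nr.mv {N : Finset E} (h : C.Nr N) {f g : E} (hf : f ∈ C.A) (hb : S.lf f ∉ C.FL)
    (hfr : S.FrL N (S.lf f)) (hg : g ∈ N) (he : S.rt f = S.rt g) :
    MvZ S C.A C.FL C.FR N f g ∧ C.Nr (insert f (N.erase g)) :=
  have a := mvZ h.1 h.2.1 hf hb hfr hg he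
  ⟨a, a.isM, a.ok, a.card.trans h.2.2⟩

theorem Nr.mvR {N : Finset E} (h : C.Nr N) {f g : E} (hf : f ∈ C.A) (hb : S.rt f ∉ C.FR)
    (hfr : S.FrR N (S.rt f)) (hg : g ∈ N) (he : S.lf f = S.lf g) :
    MvZ S.swap C.A C.FR C.FL N f g ∧ C.Nr (insert f (N.erase g)) :=
  have a := h.swap.mv (f := f) (g := g) hf hb hfr hg he
  ⟨a.1, a.2.unswap⟩

theorem Nr.cl {N B : Finset E} (h : C.Nr N) (hB : C.Hub B) {f : E} (hf : f ∈ B)
    (a : S.FrL N (S.lf f)) (b : S.FrR N (S.rt f)) : C.Hub (insert f N) := by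
  refine ⟨h.1.insert a b, ?_, ?_⟩
  · intro e he
    rcases mem_insert.1 he with rfl | he
    · exact hB.2.1 _ hf
    · exact h.2.1 e he
  · rw [card_insert_of_notMem (fun hh => a f hh rfl), h.2.2]

theorem Hub.del {P : Finset E} (h : C.Hub P) {g : E} (hg : g ∈ P) :
    C.Nr (P.erase g) ∧ S.FrL (P.erase g) (S.lf g) ∧ S.FrR (P.erase g) (S.rt g) := by
  refine ⟨⟨h.1.mono (erase_subset _ _), h.2.1.mono (erase_subset _ _), ?_⟩, ?_, ?_⟩
  · rw [card_erase_of_mem hg, h.2.2]; rfl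
  · exact fun e he hh => (mem_erase.1 he).1 (h.1.l e (mem_erase.1 he).2 g hg hh)
  · exact fun e he hh => (mem_erase.1 he).1 (h.1.r e (mem_erase.1 he).2 g hg hh)

theorem kick_notL {N B : Finset E} (hB : C.Hub B) {h g : E} (hh : h ∈ B) (a : S.FrL N (S.lf h))
    (hg : g ∈ N) (e : S.rt h = S.rt g) : g ∉ B :=
  fun hgB => a g hg (by rw [hB.1.r h hh g hgB e])

theorem lt_step {N B : Finset E} {h g : E} (hh : h ∈ B) (a : h ∉ N) (hg : g ∉ B) :
    (B \ insert h (N.erase g)).card < (B \ N).card := by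
  apply card_lt_card
  rw [ssubset_iff_of_subset]
  · exact ⟨h, by simp [hh, a], by simp⟩
  · intro e he
    simp only [mem_sdiff, mem_insert, mem_erase, not_or, not_and] at he ⊢
    exact ⟨he.1, he.2.2 (fun h' => hg (h' ▸ he.1))⟩

theorem Red.props {B N P : Finset E} {W : ℤ} (hB : C.Hub B) (r : C.Red B N P W) (hN : C.Nr N) :
    C.Hub P ∧ P ⊆ N ∪ B ∧ (B \ P).card < (B \ N).card := by
  induction r with
  | close N h h1 h2 h3 =>
    refine ⟨hN.cl hB h1 h2 h3, ?_, ?_⟩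
    · exact insert_subset (mem_union_right _ h1) subset_union_left
    · apply card_lt_card
      rw [ssubset_iff_of_subset (sdiff_subset_sdiff (Subset.refl _) (subset_insert _ _))]
      exact ⟨h, mem_sdiff.2 ⟨h1, fun hh => h2 h hh rfl⟩, by simp⟩
  | step N h g P W h1 h2 h3 h4 _ ih =>
    obtain ⟨a, b, c⟩ := ih (hN.mv (hB.2.1 h h1).1 (hB.2.1 h h1).2.1 h2 h3 h4).2
    refine ⟨a, b.trans ?_, c.trans (lt_step h1 (fun hh => h2 h hh rfl) (kick_notL hB h1 h2 h3 h4))⟩
    exact union_subset (insert_subset (mem_union_right _ h1)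
      ((erase_subset _ _).trans subset_union_left)) subset_union_right

theorem Nr.ex {B : Finset E} (hB : C.Hub B) {N : Finset E} (hN : C.Nr N) :
    ∃ P W, C.Red B N P W := by
  induction hk : (B \ N).card using Nat.strong_induction_on generalizing N with
  | _ k ih =>
    obtain ⟨h, h1, h2⟩ := hN.holeL hB
    by_cases h3 : S.FrR N (S.rt h)
    · exact ⟨_, _, Red.close N h h1 h2 h3⟩
    · unfold FrR at h3
      push Not at h3
      obtain ⟨g, hg, e⟩ := h3
      obtain ⟨P, W, r⟩ := ih _ (hk ▸ lt_step h1 (fun hh => h2 h hh rfl)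
        (kick_notL hB h1 h2 hg e.symm)) (hN.mv (hB.2.1 h h1).1 (hB.2.1 h h1).2.1 h2 hg e.symm).2 rfl
      exact ⟨_, _, Red.step N h g P W h1 h2 hg e.symm r⟩

theorem Red.uniq {B N P P' : Finset E} {W W' : ℤ} (hB : C.Hub B) (r : C.Red B N P W)
    (r' : C.Red B N P' W') (hN : C.Nr N) : P = P' ∧ W = W' := by
  have same : ∀ {N : Finset E} {h h' : E}, C.Nr N → h ∈ B → h' ∈ B → S.FrL N (S.lf h) →
      S.FrL N (S.lf h') → h = h' := fun hN a b c d =>
    hB.1.l _ a _ b (hN.uniqL (hB.2.1 _ a).2.1 c (hB.2.1 _ b).2.1 d)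
  induction r generalizing W' with
  | close N h h1 h2 h3 =>
    cases r' with
    | close _ h' a1 a2 a3 => obtain rfl := same hN h1 a1 h2 a2; exact ⟨rfl, rfl⟩
    | step _ h' g _ W a1 a2 a3 a4 _ =>
      obtain rfl := same hN h1 a1 h2 a2
      exact absurd a4.symm (h3 g a3)
  | step N h g P W h1 h2 h3 h4 _ ih =>
    cases r' with
    | close _ h' a1 a2 a3 =>
      obtain rfl := same hN h1 a1 h2 a2
      exact absurd h4.symm (a3 g h3)
    | step _ h' g' _ W'' a1 a2 a3 a4 a5 =>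
      obtain rfl := same hN h1 a1 h2 a2
      obtain rfl := hN.1.r g h3 g' a3 (h4.symm.trans a4)
      obtain ⟨e1, e2⟩ := ih a5 (hN.mv (hB.2.1 h h1).1 (hB.2.1 h h1).2.1 h2 h3 h4).2
      exact ⟨e1, by rw [e2]⟩

theorem Red.stepR {B N2 P : Finset E} {W : ℤ} (hB : C.Hub B) (r : C.Red B N2 P W) {h' g' : E}
    (b1 : h' ∈ B) : ∀ {N : Finset E}, C.Nr N → S.FrR N (S.rt h') → g' ∈ N → S.lf h' = S.lf g' →
      N2 = insert h' (N.erase g') → C.Red B N P (C.w N N2 + W) := by
  induction r with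
  | close N2 h h1 h2 h3 =>
    intro N hN b2 b3 b4 e
    subst e
    have m2 := hN.mvR (hB.2.1 h' b1).1 (hB.2.1 h' b1).2.2 b2 b3 b4
    have n1 : S.lf h' ≠ S.lf h := h2 h' (mem_insert_self _ _)
    have n2 : S.rt h' ≠ S.rt h := h3 h' (mem_insert_self _ _)
    have f1 : S.FrL N (S.lf h) := by
      intro e he
      by_cases hg : e = g'
      · rw [hg, ← b4]; exact n1
      · exact h2 e (mem_insert_of_mem (mem_erase.2 ⟨hg, he⟩))
    have f2 : S.rt h = S.rt g' := by
      by_contra hne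
      apply n2
      refine hN.uniqR (hB.2.1 h' b1).2.2 b2 (hB.2.1 h h1).2.2 ?_
      intro e he
      by_cases hg : e = g'
      · rw [hg]; exact fun hh => hne hh.symm
      · exact h3 e (mem_insert_of_mem (mem_erase.2 ⟨hg, he⟩))
    have m1 := hN.mv (hB.2.1 h h1).1 (hB.2.1 h h1).2.1 f1 b3 f2
    have r1 := Red.step N h g' _ _ h1 f1 b3 f2
      (Red.close (C := C) _ h' b1 (b4 ▸ m1.1.frL) (m1.1.keepR _ b2))
    have hP := m2.2.cl hB h1 h2 h3
    rw [insert_comm h' h] at r1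
    have s0 : N ⊆ insert h (insert h' N) := (subset_insert _ _).trans (subset_insert _ _)
    have s1 : insert h (N.erase g') ⊆ insert h (insert h' N) :=
      insert_subset_insert _ ((erase_subset _ _).trans (subset_insert _ _))
    have s2 : insert h' (N.erase g') ⊆ insert h (insert h' N) :=
      (insert_subset_insert _ (erase_subset _ _)).trans (subset_insert _ _)
    have s3 : insert h (insert h' (N.erase g')) ⊆ insert h (insert h' N) :=
      insert_subset_insert _ (insert_subset_insert _ (erase_subset _ _))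
    rwa [tri (hN.two h h') s0 s1 s3 hN.v m1.2.v hP.v,
      ← tri (hN.two h h') s0 s2 s3 hN.v m2.2.v hP.v] at r1
  | step N2 h g P W h1 h2 h3 h4 _ ih =>
    intro N hN b2 b3 b4 e
    subst e
    have m2 := hN.mvR (hB.2.1 h' b1).1 (hB.2.1 h' b1).2.2 b2 b3 b4
    have n1 : S.lf h' ≠ S.lf h := h2 h' (mem_insert_self _ _)
    have n0 : h ≠ h' := fun hh => n1 (by rw [hh])
    have f1 : S.FrL N (S.lf h) := by
      intro e he
      by_cases hg : e = g'
      · rw [hg, ← b4]; exact n1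
      · exact h2 e (mem_insert_of_mem (mem_erase.2 ⟨hg, he⟩))
    have n3 : g ≠ h' := fun hh => kick_notL hB h1 h2 h3 h4 (hh ▸ b1)
    have g1 := mem_erase.1 ((mem_insert.1 h3).resolve_left n3)
    have n4 : h ≠ g' := fun hh => f1 g' b3 (by rw [hh])
    have m1 := hN.mv (hB.2.1 h h1).1 (hB.2.1 h h1).2.1 f1 g1.2 h4
    have m3 := m2.2.mv (hB.2.1 h h1).1 (hB.2.1 h h1).2.1 h2 h3 h4
    have r1 := Red.step N h g _ _ h1 f1 g1.2 h4 (ih m1.2 (m1.1.keepR _ b2)
      (mem_insert_of_mem (mem_erase.2 ⟨g1.1.symm, b3⟩)) b4 (by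
        rw [erase_insert_of_ne n3.symm, erase_insert_of_ne n4, insert_comm, erase_right_comm]))
    have s0 : N ⊆ insert h (insert h' N) := (subset_insert _ _).trans (subset_insert _ _)
    have s1 : insert h (N.erase g) ⊆ insert h (insert h' N) :=
      insert_subset_insert _ ((erase_subset _ _).trans (subset_insert _ _))
    have s2 : insert h' (N.erase g') ⊆ insert h (insert h' N) :=
      (insert_subset_insert _ (erase_subset _ _)).trans (subset_insert _ _)
    have s3 : insert h ((insert h' (N.erase g')).erase g) ⊆ insert h (insert h' N) :=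
      insert_subset_insert _ ((erase_subset _ _).trans (insert_subset_insert _ (erase_subset _ _)))
    rwa [← add_assoc, tri (hN.two h h') s0 s1 s3 hN.v m1.2.v m3.2.v,
      ← tri (hN.two h h') s0 s2 s3 hN.v m2.2.v m3.2.v, add_assoc] at r1

theorem Red.unswap {B N P : Finset E} {W : ℤ} (hB : C.Hub B) (r : C.swap.Red B N P W)
    (hN : C.Nr N) : C.Red B N P W := by
  induction r with
  | close N h h1 h2 h3 => exact Red.close N h h1 h3 h2
  | step N h g P W h1 h2 h3 h4 _ ih =>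
    exact (ih (hN.mvR (hB.2.1 h h1).1 (hB.2.1 h h1).2.2 h2 h3 h4).2).stepR hB h1 hN h2 h3 h4 rfl

theorem Red.swap {B N P : Finset E} {W : ℤ} (hB : C.Hub B) (r : C.Red B N P W)
    (hN : C.Nr N) : C.swap.Red B N P W := by
  obtain ⟨P', W', r'⟩ := hN.swap.ex hB.swap
  obtain ⟨rfl, rfl⟩ := r.uniq hB (r'.unswap hB hN) hN
  exact r'

theorem Conf.swap {B P : Finset E} {ψ : Finset E → ℤ} (hB : C.Hub B) (hP : C.Hub P)
    (h : C.Conf B ψ P) : C.swap.Conf B ψ P :=
  fun g hg Q W r => h g hg Q W (r.unswap hB (hP.del hg).1)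

theorem edge {B : Finset E} {ψ : Finset E → ℤ} (hB : C.Hub B) {f g : E} (hf : f ∈ C.A)
    (hb : S.lf f ∉ C.FL) (he : S.rt f = S.rt g) {N : Finset E} (hN : C.Nr N)
    (hfr : S.FrL N (S.lf f)) (hg : g ∈ N) {P P' : Finset E} {W W' : ℤ} (r : C.Red B N P W)
    (r' : C.Red B (insert f (N.erase g)) P' W') (c : C.Conf B ψ P)
    (c' : C.Conf B ψ P' ∨ (g ∈ P ∧ g ∉ B)) :
    W + ψ P = C.w N (insert f (N.erase g)) + W' + ψ P' := by
  induction hk : (B \ N).card using Nat.strong_induction_on generalizing N W W' with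
  | _ k ih =>
    have m := hN.mv hf hb hfr hg he
    obtain ⟨h, h1, h2⟩ := hN.holeR hB
    have h2' := m.1.keepR _ h2
    have hc := (hB.2.1 h h1).1
    have hl := (hB.2.1 h h1).2.1
    have hr := (hB.2.1 h h1).2.2
    have fN : f ∉ N := fun hh => hfr f hh rfl
    have hN0 : h ∉ N := fun hh => h2 h hh rfl
    have hg0 : h ≠ g := fun hh => hN0 (hh ▸ hg)
    have hf0 : h ≠ f := fun hh => h2 g hg (by rw [hh, he])
    have U := hN.two h f
    have s0 : N ⊆ insert h (insert f N) := (subset_insert _ _).trans (subset_insert _ _)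
    have s1 : insert f (N.erase g) ⊆ insert h (insert f N) :=
      (insert_subset_insert _ (erase_subset _ _)).trans (subset_insert _ _)
    have s2 : insert h (N.erase g) ⊆ insert h (insert f N) :=
      insert_subset_insert _ ((erase_subset _ _).trans (subset_insert _ _))
    by_cases k1 : S.lf h = S.lf f
    · obtain ⟨rfl, rfl⟩ := r.uniq hB (Red.close N h h1 (k1 ▸ hfr) h2) hN
      have hP := hN.cl hB h1 (k1 ▸ hfr) h2
      have e1 : insert h ((insert f (N.erase g)).erase f) = (insert h N).erase g := by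
        rw [erase_insert (fun hh => fN (mem_erase.1 hh).2), erase_insert_of_ne hg0]
      have d := hP.del (mem_insert_of_mem hg)
      obtain ⟨Q, W0, r0⟩ := d.1.ex hB
      obtain ⟨rfl, rfl⟩ := r'.uniq hB
        (r0.stepR hB h1 m.2 h2' (mem_insert_self _ _) k1 e1.symm) m.2
      have s3 : insert h N ⊆ insert h (insert f N) := insert_subset_insert _ (subset_insert _ _)
      have s4 := (erase_subset g _).trans s3
      have a1 := c g (mem_insert_of_mem hg) _ _ r0
      have a2 := tri U s0 s3 s4 hN.v hP.v d.1.v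
      have a3 := tri U s0 s1 s4 hN.v m.2.v d.1.v
      omega
    by_cases k2 : S.lf h = S.lf g
    · obtain ⟨rfl, rfl⟩ := r'.uniq hB (Red.close _ h h1 (k2 ▸ m.1.frL) h2') m.2
      have hP := m.2.cl hB h1 (k2 ▸ m.1.frL) h2'
      have e1 : (insert h (insert f (N.erase g))).erase f = insert h (N.erase g) := by
        rw [erase_insert_of_ne hf0, erase_insert (fun hh => fN (mem_erase.1 hh).2)]
      have d := hN.mvR hc hr h2 hg k2
      obtain ⟨Q, W0, r0⟩ := d.2.ex hB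
      obtain ⟨rfl, rfl⟩ := r.uniq hB (r0.stepR hB h1 hN h2 hg k2 rfl) hN
      rcases c' with c' | c'
      · have s3 : insert h (insert f (N.erase g)) ⊆ insert h (insert f N) :=
          insert_subset_insert _ (insert_subset_insert _ (erase_subset _ _))
        have a1 := c' f (mem_insert_of_mem (mem_insert_self _ _)) _ _ (e1 ▸ r0)
        rw [e1] at a1
        have a2 := tri U s0 s1 s3 hN.v m.2.v hP.v
        have a3 := tri U s0 s3 s2 hN.v hP.v d.2.v
        omega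
      · rcases mem_union.1 ((r0.props hB d.2).2.1 c'.1) with a | a
        · simp [hg0.symm] at a
        · exact absurd a c'.2
    have : ¬ S.FrL N (S.lf h) := fun hh => k1 (hN.uniqL hl hh hb hfr)
    unfold FrL at this
    push Not at this
    obtain ⟨g1, g2, g3⟩ := this
    have n1 : g1 ≠ g := fun hh => k2 (by rw [← g3, hh])
    have n2 : f ≠ g1 := fun hh => fN (hh ▸ g2)
    have d := hN.mvR hc hr h2 g2 g3.symm
    have g4 : g1 ∈ insert f (N.erase g) := mem_insert_of_mem (mem_erase.2 ⟨n1, g2⟩)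
    have d' := m.2.mvR hc hr h2' g4 g3.symm
    obtain ⟨Q, W0, r0⟩ := d.2.ex hB
    obtain ⟨Q', W1, r1⟩ := d'.2.ex hB
    obtain ⟨rfl, rfl⟩ := r.uniq hB (r0.stepR hB h1 hN h2 g2 g3.symm rfl) hN
    obtain ⟨rfl, rfl⟩ := r'.uniq hB (r1.stepR hB h1 m.2 h2' g4 g3.symm rfl) m.2
    have e1 : insert h ((insert f (N.erase g)).erase g1) =
        insert f ((insert h (N.erase g1)).erase g) := by
      rw [erase_insert_of_ne n2, erase_insert_of_ne hg0, insert_comm, erase_right_comm]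
    have g5 : g1 ∉ B := fun hh => hN0 (hB.1.l g1 hh h h1 g3 ▸ g2)
    have a1 := ih _ (hk ▸ lt_step h1 hN0 g5) d.2 (by
      intro e he'
      rcases mem_insert.1 he' with rfl | he'
      · exact k1
      · exact hfr e (mem_erase.1 he').2) (mem_insert_of_mem (mem_erase.2 ⟨n1.symm, hg⟩)) r0
      (e1 ▸ r1) rfl
    rw [← e1] at a1
    have s3 : insert h (N.erase g1) ⊆ insert h (insert f N) :=
      insert_subset_insert _ ((erase_subset _ _).trans (subset_insert _ _))
    have s4 : insert h ((insert f (N.erase g)).erase g1) ⊆ insert h (insert f N) :=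
      insert_subset_insert _ ((erase_subset _ _).trans (insert_subset_insert _ (erase_subset _ _)))
    have a2 := tri U s0 s3 s4 hN.v d.2.v d'.2.v
    have a3 := tri U s0 s1 s4 hN.v m.2.v d'.2.v
    omega

theorem same {B P : Finset E} {ψ : Finset E → ℤ} (hB : C.Hub B) (hP : C.Hub P) {val : E → ℤ}
    (hv : ∀ g ∈ P, ∀ Q W, C.Red B (P.erase g) Q W → val g = C.w P (P.erase g) + W + ψ Q)
    {N Q : Finset E} {W : ℤ} (r : C.Red B N Q W) {g : E} (g3 : g ∉ Q) :
    C.Nr N → (∀ e ∈ N, e ∈ P ∨ e ∈ B) → g ∈ N → ∀ g' ∈ P, S.FrL N (S.lf g') → val g = val g' := by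
  induction r with
  | close N h h1 h2 h3 => intro _ _ g1; exact absurd (mem_insert_of_mem g1) g3
  | step N h k Q W h1 h2 h3 h4 _ ih =>
    intro hN hs g1 g' b1 b2
    have hc := (hB.2.1 h h1).1
    have hl := (hB.2.1 h h1).2.1
    have hr := (hB.2.1 h h1).2.2
    have m := hN.mv hc hl h2 h3 h4
    have kP : k ∈ P := (hs k h3).resolve_right (kick_notL hB h1 h2 h3 h4)
    have e0 : S.lf h = S.lf g' := hN.uniqL hl h2 (hP.2.1 g' b1).2.1 b2
    have n0 : k ≠ g' := fun hh => b2 k h3 (by rw [hh])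
    have one : val k = val g' := by
      have d := hP.del b1
      have d' := hP.del kP
      have k1 : k ∈ P.erase g' := mem_erase.2 ⟨n0, kP⟩
      have m1 := d.1.mv hc hl (e0 ▸ d.2.1) k1 h4
      obtain ⟨Q0, W0, r0⟩ := m1.2.ex hB
      have a1 := hv g' b1 _ _ (Red.step _ h k _ _ h1 (e0 ▸ d.2.1) k1 h4 r0)
      have a2 := hv k kP _ _ (r0.stepR hB h1 d'.1 (h4 ▸ d'.2.2) (mem_erase.2 ⟨n0.symm, b1⟩) e0
        (by rw [erase_right_comm]))
      have s0 := subset_insert h P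
      have s3 : insert h ((P.erase g').erase k) ⊆ insert h P :=
        insert_subset_insert _ ((erase_subset _ _).trans (erase_subset _ _))
      have a3 := tri (hP.one h) s0 ((erase_subset g' _).trans s0) s3 hP.v d.1.v m1.2.v
      have a4 := tri (hP.one h) s0 ((erase_subset k _).trans s0) s3 hP.v d'.1.v m1.2.v
      omega
    by_cases hk : g = k
    · rw [hk, one]
    · rw [← one]
      refine ih g3 m.2 ?_ (mem_insert_of_mem (mem_erase.2 ⟨hk, g1⟩)) k kP m.1.frL
      intro e he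
      rcases mem_insert.1 he with rfl | he
      · exact Or.inr h1
      · exact hs e (mem_erase.1 he).2

theorem miss_step {P N : Finset E} (hP : C.Hub P) {h k : E} (h1 : h ∈ P) (h2 : S.FrL N (S.lf h))
    (h3 : k ∈ N) (h4 : S.rt h = S.rt k) {e : E} (e1 : e ∈ P) (e2 : e ∉ insert h (N.erase k)) :
    e ≠ h ∧ e ∉ N := by
  rw [mem_insert, not_or] at e2
  exact ⟨e2.1, fun hh => e2.2 (mem_erase.2 ⟨fun h' => kick_notL hP h1 h2 h3 h4 (h' ▸ e1), hh⟩)⟩

theorem win {B P : Finset E} (hP : C.Hub P) {g : E} (g1 : g ∈ P) {Q : Finset E} {W0 : ℤ}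
    (r0 : C.Red B (P.erase g) Q W0) {N P' : Finset E} {W : ℤ} (r : C.Red P N P' W) :
    P' = P → C.Nr N → (∀ e ∈ P, e ∉ N → e ∈ B ∨ e = g) → S.FrR N (S.rt g) →
      C.Red B N Q (W - C.w (P.erase g) P + W0) := by
  induction r with
  | close N h h1 h2 h3 =>
    intro e hN _ b
    have : g = h := (mem_insert.1 (e ▸ g1)).resolve_right (fun hh => b g hh rfl)
    subst this
    have e2 : P.erase g = N := by rw [← e, erase_insert (fun hh => b g hh rfl)]
    rw [e, e2, sub_self, zero_add, ← e2]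
    exact r0
  | step N h k P' W h1 h2 h3 h4 _ ih =>
    intro e hN hs b
    have m := hN.mv (hP.2.1 h h1).1 (hP.2.1 h h1).2.1 h2 h3 h4
    have hB : h ∈ B := (hs h h1 (fun hh => h2 h hh rfl)).resolve_right
      (fun hh => b k h3 (by rw [← hh, h4]))
    have := Red.step N h k _ _ hB h2 h3 h4 (ih e m.2
      (fun e e1 e2 => hs e e1 (miss_step hP h1 h2 h3 h4 e1 e2).2) (m.1.keepR _ b))
    rwa [show C.w N (insert h (N.erase k)) + (W - C.w (P.erase g) P + W0) =
      C.w N (insert h (N.erase k)) + W - C.w (P.erase g) P + W0 by ring] at this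

theorem half {B P : Finset E} {ψ : Finset E → ℤ} (hB : C.Hub B) (hP : C.Hub P) {g g' : E}
    (g1 : g ∈ P) (g2 : g ∉ B) (g3 : g' ∈ P) (ne : g ≠ g') {N : Finset E} {W : ℤ} (hN : C.Nr N)
    (r : C.Red P N P W) (hs : ∀ e ∈ P, e ∉ N → e ∈ B ∨ e = g ∨ e = g') (fl : S.FrL N (S.lf g))
    (fr : S.FrR N (S.rt g')) {Q Q' : Finset E} {W0 W1 : ℤ} (r0 : C.Red B (P.erase g') Q' W0)
    (c : C.Conf B ψ Q') (gq : g ∈ Q') (r1 : C.Red B N Q W1) :
    W1 + ψ Q = W + C.w P (P.erase g') + W0 + ψ Q' := by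
  have : ¬ S.FrR N (S.rt g) := fun hh => ne (hP.1.r g g1 g' g3
    (hN.uniqR (hP.2.1 g g1).2.2 hh (hP.2.1 g' g3).2.2 fr))
  unfold FrR at this
  push Not at this
  obtain ⟨f, f1, f2⟩ := this
  have gN : g ∉ N := fun hh => fl g hh rfl
  have m := hN.mv (hP.2.1 g g1).1 (hP.2.1 g g1).2.1 fl f1 f2.symm
  obtain ⟨P', W', r'⟩ := m.2.ex hP
  obtain ⟨e1, rfl⟩ := r.uniq hP (Red.step N g f _ _ g1 fl f1 f2.symm r') hN
  have a0 := win hP g3 r0 r' e1.symm m.2 (fun e e1 e2 => by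
    have := miss_step hP g1 fl f1 f2.symm e1 e2
    rcases hs e e1 this.2 with h | h | h
    · exact Or.inl h
    · exact absurd h this.1
    · exact Or.inr h) (m.1.keepR _ fr)
  have e2 : insert f ((insert g (N.erase f)).erase g) = N := by
    rw [erase_insert (fun hh => gN (mem_erase.1 hh).2), insert_erase f1]
  have a1 := edge hB (hN.2.1 f f1).1 (hN.2.1 f f1).2.1 f2 m.2 m.1.frL (mem_insert_self _ _) a0
    (e2.symm ▸ r1) c (Or.inr ⟨gq, g2⟩)
  rw [e2] at a1
  have a2 := anti (hN.two g g) ((subset_insert _ _).trans (subset_insert _ _))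
    ((insert_subset_insert _ (erase_subset f _)).trans (subset_insert _ _)) hN.v m.2.v
  have a3 := anti (hP.one g) (subset_insert _ _) ((erase_subset g' _).trans (subset_insert _ _))
    hP.v (hP.del g3).1.v
  omega

theorem pair {B P : Finset E} {ψ : Finset E → ℤ} (hB : C.Hub B) (hP : C.Hub P) {val : E → ℤ}
    (hv : ∀ g ∈ P, ∀ Q W, C.Red B (P.erase g) Q W → val g = C.w P (P.erase g) + W + ψ Q)
    (low : ∀ Q, C.Hub Q → (B \ Q).card < (B \ P).card → C.Conf B ψ Q) {g g' : E}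
    (g1 : g ∈ P) (g2 : g ∉ B) (g3 : g' ∈ P) (g4 : g' ∉ B) (ne : g ≠ g') {N : Finset E} {W : ℤ}
    (hN : C.Nr N) (r : C.Red P N P W) (hs : ∀ e ∈ P, e ∉ N → e ∈ B ∨ e = g ∨ e = g')
    (fl : S.FrL N (S.lf g)) (fr : S.FrR N (S.rt g')) : val g = val g' := by
  have d := hP.del g1
  have d' := hP.del g3
  obtain ⟨Q, W0, r0⟩ := d.1.ex hB
  obtain ⟨Q', W1, r1⟩ := d'.1.ex hB
  have sd : ∀ k, k ∉ B → B \ P.erase k = B \ P := by
    intro k hk
    ext e
    simp only [mem_sdiff, mem_erase, not_and, and_congr_right_iff]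
    exact fun he => ⟨fun h => h (fun hh => hk (hh ▸ he)), fun h _ => h⟩
  have p0 := r0.props hB d.1
  have p1 := r1.props hB d'.1
  have c0 := low Q p0.1 (sd g g2 ▸ p0.2.2)
  have c1 := low Q' p1.1 (sd g' g4 ▸ p1.2.2)
  by_cases q1 : g ∈ Q'
  · by_cases q0 : g' ∈ Q
    · obtain ⟨Q2, W2, r2⟩ := hN.ex hB
      have a1 := half hB hP g1 g2 g3 ne hN r hs fl fr r1 c1 q1 r2
      have a2 := half (C := C.swap) hB.swap hP.swap g3 g4 g1 ne.symm hN.swap (r.swap hP hN)
        (fun e e1 e2 => by rcases hs e e1 e2 with h | h | h <;> simp [h]) fr fl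
        (r0.swap hB d.1) (c0.swap hB p0.1) q0 (r2.swap hB hN)
      have a3 := hv g g1 _ _ r0
      have a4 := hv g' g3 _ _ r1
      change W2 + ψ Q2 = W + C.w P (P.erase g) + W0 + ψ Q at a2
      omega
    · exact (same hB hP hv r0 q0 d.1 (fun e he => Or.inl (mem_erase.1 he).2)
        (mem_erase.2 ⟨ne.symm, g3⟩) g g1 d.2.1).symm
  · exact same hB hP hv r1 q1 d'.1 (fun e he => Or.inl (mem_erase.1 he).2)
      (mem_erase.2 ⟨ne, g1⟩) g' g3 d'.2.1

theorem retract {P : Finset E} (hP : C.Hub P) {q : E} (q1 : q ∈ P) {y : R} {N P' : Finset E}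
    {W : ℤ} (r : C.Red P N P' W) : P' = P → C.Nr N → S.FrR N y → q ∉ N →
      ∃ N' W', C.Nr N' ∧ C.Red P N' P W' ∧ (∀ e ∈ P, e ∉ N' → e ∉ N) ∧ S.FrR N' y ∧
        S.FrL N' (S.lf q) := by
  induction r with
  | close N h h1 h2 h3 =>
    intro e hN b hq
    have : q = h := (mem_insert.1 (e ▸ q1)).resolve_right hq
    subst this
    exact ⟨N, _, hN, e ▸ Red.close N q (e ▸ mem_insert_self _ _) h2 h3, fun _ _ h => h, b, h2⟩
  | step N h k P' W h1 h2 h3 h4 r ih =>
    intro e hN b hq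
    by_cases hh : q = h
    · have r' := Red.step N h k _ _ h1 h2 h3 h4 r
      rw [e] at r'
      exact ⟨N, _, hN, r', fun _ _ h => h, b, hh ▸ h2⟩
    · have m := hN.mv (hP.2.1 h h1).1 (hP.2.1 h h1).2.1 h2 h3 h4
      obtain ⟨N', W', a1, a2, a3, a4, a5⟩ := ih e m.2 (m.1.keepR _ b) (by
        rw [mem_insert, not_or]
        exact ⟨hh, fun h' => hq (mem_erase.1 h').2⟩)
      exact ⟨N', W', a1, a2, fun e e1 e2 => (miss_step hP h1 h2 h3 h4 e1 (a3 e e1 e2)).2, a4, a5⟩

theorem back {B P : Finset E} (hP : C.Hub P) {g : E} (g1 : g ∈ P) (g2 : g ∈ B) :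
    C.Red B (P.erase g) P (C.w (P.erase g) P) := by
  have := Red.close (C := C) (P.erase g) g g2 (hP.del g1).2.1 (hP.del g1).2.2
  rwa [insert_erase g1] at this

theorem walk {B P : Finset E} {ψ : Finset E → ℤ} (hB : C.Hub B) (hP : C.Hub P) {val : E → ℤ}
    (hv : ∀ g ∈ P, ∀ Q W, C.Red B (P.erase g) Q W → val g = C.w P (P.erase g) + W + ψ Q)
    (low : ∀ Q, C.Hub Q → (B \ Q).card < (B \ P).card → C.Conf B ψ Q) {g g' : E}
    (g2 : g ∉ B) (g3 : g' ∈ P) (g4 : g' ∉ B)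
    (h : Relation.ReflTransGen (S.Arz C.A C.FL C.FR P) g' g) : val g = val g' := by
  have start : ∀ k ∈ P, ∃ N W, C.Nr N ∧ C.Red P N P W ∧ (∀ e ∈ P, e ∉ N → e ∈ B ∨ e = k) ∧
      S.FrR N (S.rt k) ∧ S.FrL N (S.lf k) := fun k hk =>
    ⟨_, _, (hP.del hk).1, back hP hk hk, fun e e1 e2 => Or.inr (by
      by_contra hne; exact e2 (mem_erase.2 ⟨hne, e1⟩)), (hP.del hk).2.2, (hP.del hk).2.1⟩
  have key : ∀ q, Relation.ReflTransGen (S.Arz C.A C.FL C.FR P) g' q → q ∈ P ∧ ∃ k ∈ P, k ∉ B ∧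
      val k = val g' ∧ ∃ N W, C.Nr N ∧ C.Red P N P W ∧ (∀ e ∈ P, e ∉ N → e ∈ B ∨ e = k) ∧
      S.FrR N (S.rt k) ∧ S.FrL N (S.lf q) := by
    intro q hq
    induction hq with
    | refl => exact ⟨g3, g', g3, g4, rfl, start g' g3⟩
    | @tail q q' _ a ih =>
      obtain ⟨_, k, k1, k2, k3, N, W, b1, b2, b3, b4, b5⟩ := ih
      obtain ⟨q1, q2, f, f1, f2, f3⟩ := a
      refine ⟨q2, ?_⟩
      by_cases hq : q' ∈ N
      · have m := b1.mv f1 (f2 ▸ (hP.2.1 q q1).2.1) (f2 ▸ b5) hq f3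
        have fN : f ∉ N := fun hh => b5 f hh f2
        have e2 : insert q' ((insert f (N.erase q')).erase f) = N := by
          rw [erase_insert (fun hh => fN (mem_erase.1 hh).2), insert_erase hq]
        have r := Red.step _ q' f P W q2 m.1.frL (mem_insert_self _ _) f3.symm (e2.symm ▸ b2)
        have hs : ∀ e ∈ P, e ∉ insert f (N.erase q') → e ∈ B ∨ e = q' ∨ e = k := by
          intro e e1 e2
          by_cases he : e = q'
          · exact Or.inr (Or.inl he)
          · exact (b3 e e1 (fun hh => e2 (mem_insert_of_mem (mem_erase.2 ⟨he, hh⟩)))).imp id Or.inr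
        by_cases hb : q' ∈ B
        · refine ⟨k, k1, k2, k3, _, _, m.2, r, fun e e1 e2 => ?_, m.1.keepR _ b4, m.1.frL⟩
          rcases hs e e1 e2 with h | h | h
          · exact Or.inl h
          · exact Or.inl (h ▸ hb)
          · exact Or.inr h
        · exact ⟨q', q2, hb, (pair hB hP hv low q2 hb k1 k2 (fun hh => b4 q' hq (by rw [hh])) m.2 r
            hs m.1.frL (m.1.keepR _ b4)).trans k3, start q' q2⟩
      · obtain ⟨N', W', a1, a2, a3, a4, a5⟩ := retract hP q2 b2 rfl b1 b4 hq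
        exact ⟨k, k1, k2, k3, N', W', a1, a2, fun e e1 e2 => b3 e e1 (a3 e e1 e2), a4, a5⟩
  obtain ⟨g1, k, _, _, k3, N, W, _, _, b3, _, b5⟩ := key g h
  rw [(b3 g g1 (fun hh => b5 g hh rfl)).resolve_left g2, k3]

theorem Hub.diff {B P : Finset E} (hB : C.Hub B) (hP : C.Hub P) (ne : P ≠ B) :
    ∃ g ∈ P, g ∉ B := by
  by_contra h
  push Not at h
  exact ne (eq_of_subset_of_card_le h (by rw [hB.2.2, hP.2.2]))

theorem sdiff_del {B P : Finset E} {k : E} (hk : k ∉ B) : B \ P.erase k = B \ P := by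
  ext e
  simp only [mem_sdiff, mem_erase, not_and, and_congr_right_iff]
  exact fun he => ⟨fun h => h (fun hh => hk (hh ▸ he)), fun h _ => h⟩

theorem exists_pot {B : Finset E} (hB : C.Hub B) : ∃ ψ : Finset E → ℤ, ∀ P, C.Hub P → P ≠ B →
    ∃ g ∈ P, g ∉ B ∧ ∃ Q W, C.Red B (P.erase g) Q W ∧ ψ P = C.w P (P.erase g) + W + ψ Q := by
  classical
  have h0 : ∀ P, ∃ g Q W, C.Hub P → P ≠ B → g ∈ P ∧ g ∉ B ∧ C.Red B (P.erase g) Q W := by
    intro P
    by_cases h : C.Hub P ∧ P ≠ B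
    · obtain ⟨g, g1, g2⟩ := hB.diff h.1 h.2
      obtain ⟨Q, W, r⟩ := (h.1.del g1).1.ex hB
      exact ⟨g, Q, W, fun _ _ => ⟨g1, g2, r⟩⟩
    · obtain ⟨g, _⟩ : B.Nonempty := card_pos.1 (by rw [hB.2.2]; omega)
      exact ⟨g, P, 0, fun a b => absurd ⟨a, b⟩ h⟩
  choose g Q W hg using h0
  have lt : ∀ P, C.Hub P → P ≠ B → (B \ Q P).card < (B \ P).card := fun P a b =>
    sdiff_del (P := P) (hg P a b).2.1 ▸ ((hg P a b).2.2.props hB (a.del (hg P a b).1).1).2.2
  have h1 : ∀ k : ℕ, ∃ ψ : Finset E → ℤ, ∀ P, C.Hub P → P ≠ B → (B \ P).card < k →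
      ψ P = C.w P (P.erase (g P)) + W P + ψ (Q P) := by
    intro k
    induction k with
    | zero => exact ⟨0, fun _ _ _ h => absurd h (by omega)⟩
    | succ k ih =>
      obtain ⟨ψ, h⟩ := ih
      refine ⟨fun P => if (B \ P).card = k then C.w P (P.erase (g P)) + W P + ψ (Q P) else ψ P,
        fun P a b c => ?_⟩
      have := lt P a b
      have n : (B \ Q P).card ≠ k := by omega
      by_cases hk : (B \ P).card = k
      · simp only [if_pos hk, if_neg n]
      · simp only [if_neg hk, if_neg n]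
        exact h P a b (by omega)
  obtain ⟨ψ, h⟩ := h1 (B.card + 1)
  exact ⟨ψ, fun P a b => ⟨g P, (hg P a b).1, (hg P a b).2.1, Q P, W P, (hg P a b).2.2,
    h P a b (Nat.lt_succ_of_le (card_le_card sdiff_subset))⟩⟩

theorem Red.tr {C' : S.Ctz} (hw : C.w = C'.w) {B N P : Finset E} {W : ℤ} (r : C.Red B N P W) :
    C'.Red B N P W := by
  induction r with
  | close N h h1 h2 h3 => rw [hw]; exact Red.close N h h1 h2 h3
  | step N h g P W h1 h2 h3 h4 _ ih => rw [hw]; exact Red.step N h g P W h1 h2 h3 h4 ih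

theorem Conf.tr {C' : S.Ctz} (hw : C.w = C'.w) {B P : Finset E} {ψ : Finset E → ℤ}
    (c : C.Conf B ψ P) : C'.Conf B ψ P := fun g hg Q W r => by
  rw [← hw]; exact c g hg Q W (r.tr hw.symm)

theorem conf_all {ι : Type*} (D : ι → S.Ctz) (hw : ∀ i, C.w = (D i).w)
    (hh : ∀ i P, C.Hub P ↔ (D i).Hub P) {B : Finset E} (hB : C.Hub B)
    (cmp : ∀ P, C.Hub P → ∀ g ∈ P, g ∉ B → ∀ g' ∈ P, g' ∉ B → ∃ i,
      Relation.ReflTransGen (S.Arz (D i).A (D i).FL (D i).FR P) g g' ∨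
        Relation.ReflTransGen (S.Arz (D i).A (D i).FL (D i).FR P) g' g) :
    ∃ ψ : Finset E → ℤ, ∀ P, C.Hub P → C.Conf B ψ P := by
  classical
  obtain ⟨ψ, hψ⟩ := exists_pot hB
  refine ⟨ψ, fun P hP => ?_⟩
  induction hk : (B \ P).card using Nat.strong_induction_on generalizing P with
  | _ k ih =>
    have low : ∀ i Q, (D i).Hub Q → (B \ Q).card < (B \ P).card → (D i).Conf B ψ Q :=
      fun i Q a b => (ih _ (hk ▸ b) Q ((hh i Q).2 a) rfl).tr (hw i)
    have h0 : ∀ g, ∃ v : ℤ, g ∈ P → ∀ Q W, C.Red B (P.erase g) Q W →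
        v = C.w P (P.erase g) + W + ψ Q := by
      intro g
      by_cases g1 : g ∈ P
      · obtain ⟨Q, W, r⟩ := (hP.del g1).1.ex hB
        refine ⟨C.w P (P.erase g) + W + ψ Q, fun _ Q' W' r' => ?_⟩
        obtain ⟨rfl, rfl⟩ := r.uniq hB r' (hP.del g1).1
        rfl
      · exact ⟨0, fun h => absurd h g1⟩
    choose val hv using h0
    have hv' : ∀ i, ∀ g ∈ P, ∀ Q W, (D i).Red B (P.erase g) Q W →
        val g = (D i).w P (P.erase g) + W + ψ Q := fun i g g1 Q W r => by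
      rw [← hw i]; exact hv g g1 Q W (r.tr (hw i).symm)
    intro g g1 Q W r
    by_cases g2 : g ∈ B
    · obtain ⟨rfl, rfl⟩ := r.uniq hB (back hP g1 g2) (hP.del g1).1
      have := anti (hP.one g) (subset_insert _ _) ((erase_subset g _).trans (subset_insert _ _))
        hP.v (hP.del g1).1.v
      omega
    · obtain ⟨g0, a1, a2, Q0, W0, r0, e⟩ := hψ P hP (fun hh => g2 (hh ▸ g1))
      rw [e, ← hv g0 a1 _ _ r0, ← hv g g1 _ _ r]
      obtain ⟨i, h | h⟩ := cmp P hP g g1 g2 g0 a1 a2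
      · exact walk ((hh i B).1 hB) ((hh i P).1 hP) (hv' i) (low i) a2 g1 g2 h
      · exact (walk ((hh i B).1 hB) ((hh i P).1 hP) (hv' i) (low i) g2 a1 a2 h).symm

theorem other {B D : Finset E} {ψ : Finset E → ℤ} (hB : C.Hub B) (hD : C.Hub D)
    (c : ∀ P, C.Hub P → C.Conf B ψ P) {N Q : Finset E} {W : ℤ} (r : C.Red D N Q W) :
    C.Nr N → ∀ Q0 W0, C.Red B N Q0 W0 → W0 + ψ Q0 = W + ψ Q := by
  induction r with
  | close N h h1 h2 h3 =>
    intro hN Q0 W0 r0
    have hP := hN.cl hD h1 h2 h3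
    have e : (insert h N).erase h = N := erase_insert (fun hh => h2 h hh rfl)
    have a1 := c _ hP h (mem_insert_self _ _) Q0 W0 (e.symm ▸ r0)
    rw [e] at a1
    have := anti (hP.one h) (subset_insert _ _) ((subset_insert _ _).trans (subset_insert _ _))
      hP.v hN.v
    omega
  | step N h k Q W h1 h2 h3 h4 _ ih =>
    intro hN Q0 W0 r0
    have m := hN.mv (hD.2.1 h h1).1 (hD.2.1 h h1).2.1 h2 h3 h4
    obtain ⟨Q1, W1, r1⟩ := m.2.ex hB
    have a1 := edge hB (hD.2.1 h h1).1 (hD.2.1 h h1).2.1 h4 hN h2 h3 r0 r1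
      (c _ (r0.props hB hN).1) (Or.inl (c _ (r1.props hB m.2).1))
    have a2 := ih m.2 Q1 W1 r1
    omega

theorem loc {D Z : Finset E} {χ : Finset E → ℤ} (hD : C.Hub D) (sD : D ⊆ Z)
    (hχ : ∀ N N', C.V N → C.V N' → N ⊆ Z → N' ⊆ Z → C.w N N' = χ N - χ N') {N Q : Finset E}
    {W : ℤ} (r : C.Red D N Q W) : C.Nr N → N ⊆ Z → W = χ N - χ Q := by
  induction r with
  | close N h h1 h2 h3 =>
    intro hN s
    exact hχ _ _ hN.v (hN.cl hD h1 h2 h3).v s (insert_subset (sD h1) s)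
  | step N h k Q W h1 h2 h3 h4 _ ih =>
    intro hN s
    have m := hN.mv (hD.2.1 h h1).1 (hD.2.1 h h1).2.1 h2 h3 h4
    have s' : insert h (N.erase k) ⊆ Z := insert_subset (sD h1) ((erase_subset _ _).trans s)
    rw [hχ _ _ hN.v m.2.v s s', ih m.2 s']
    ring

theorem zone {B D Z : Finset E} {ψ χ : Finset E → ℤ} (hB : C.Hub B) (hD : C.Hub D) (sD : D ⊆ Z)
    (c : ∀ P, C.Hub P → C.Conf B ψ P)
    (hχ : ∀ N N', C.V N → C.V N' → N ⊆ Z → N' ⊆ Z → C.w N N' = χ N - χ N') {N : Finset E}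
    (hN : C.Nr N) (s : N ⊆ Z) {Q0 : Finset E} {W0 : ℤ} (r0 : C.Red B N Q0 W0) :
    W0 + ψ Q0 = χ N + (ψ D - χ D) := by
  induction hk : (D \ N).card using Nat.strong_induction_on generalizing N Q0 W0 with
  | _ k ih =>
    obtain ⟨Q, W, r⟩ := hN.ex hD
    have p := r.props hD hN
    have a1 := other hB hD c r hN Q0 W0 r0
    have a2 := loc hD sD hχ r hN s
    by_cases e : Q = D
    · subst e; omega
    · obtain ⟨g, g1, g2⟩ := hD.diff p.1 e
      have d := p.1.del g1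
      have sQ : Q ⊆ Z := p.2.1.trans (union_subset s sD)
      obtain ⟨Q1, W1, r1⟩ := d.1.ex hB
      have a3 := ih _ (by rw [sdiff_del g2, ← hk]; exact p.2.2) d.1 ((erase_subset _ _).trans sQ)
        r1 rfl
      have a4 := c Q p.1 g g1 Q1 W1 r1
      have a5 := hχ _ _ p.1.v d.1.v sQ ((erase_subset g _).trans sQ)
      omega

end Ctz

theorem root2 (k : Fin 3 → K) (kinj : ∀ i j, k i = k j → i = j) {FL : Finset L}
    {FR : Finset R} {m : ℕ} (hL : m + 1 + FL.card = Fintype.card L)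
    (hR : m + 1 + FR.card = Fintype.card R) {T : K → ℤ} (hT : T (k 0) + T (k 1) + T (k 2) = m)
    (Z : Fin 3 → Finset E) (hZ : ∀ i, ∀ e ∈ Z i, ∃ j, S.col e = k j)
    (hh : ∀ i j P, S.IsM P → S.Oz (Z i) FL FR P → P.card = m + 1 → P ⊆ Z j)
    (cmp : ∀ P B, S.IsM P → S.Oz (Z 0) FL FR P → P.card = m + 1 → S.IsM B →
      S.Oz (Z 0) FL FR B → B.card = m + 1 → ∀ g ∈ P, g ∉ B → ∀ g' ∈ P, g' ∉ B → ∃ i,
      Relation.ReflTransGen (S.Arz (Z i) FL FR P) g g' ∨
        Relation.ReflTransGen (S.Arz (Z i) FL FR P) g' g)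
    (N P : Fin 3 → Finset E)
    (hN : ∀ i, S.IsM (N i) ∧ S.Oz (Z i) FL FR (N i) ∧ (N i).card = m)
    (hP : ∀ i, S.IsM (P i) ∧ S.Oz (Z 0) FL FR (P i) ∧ (P i).card = m + 1 ∧
      S.vec (P i) (k i) ≤ T (k i))
    (hNP : ∀ i t, i ≠ t → ∀ e ∈ N i, S.col e = k t → e ∈ P t) :
    ∃ M, S.IsM M ∧ (∃ i, S.Oz (Z i) FL FR M) ∧ M.card = m ∧ ∀ i, S.vec M (k i) = T (k i) := by
  classical
  by_contra hno
  have three : ∀ t : Fin 3, t = 0 ∨ t = 1 ∨ t = 2 := by decide
  have sm : ∀ M : Finset E, (∀ e ∈ M, ∃ j, S.col e = k j) →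
      S.vec M (k 0) + S.vec M (k 1) + S.vec M (k 2) = M.card := by
    intro M h
    have := sum_vec (S := S) (A := univ.image k) (M := M) (fun e he => by
      obtain ⟨j, hj⟩ := h e he
      exact mem_image.2 ⟨j, mem_univ _, hj.symm⟩)
    rwa [sum_image (fun i _ j _ h => kinj i j h), Fin.sum_univ_three] at this
  set l : Finset E → Fin 3 := fun M => if T (k 0) < S.vec M (k 0) then 0 else
    if T (k 1) < S.vec M (k 1) then 1 else 2 with hl
  have lab : ∀ i M, S.IsM M → S.Oz (Z i) FL FR M → m ≤ M.card →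
      T (k (l M)) < S.vec M (k (l M)) := by
    intro i M h1 h2 h3
    have := sm M (fun e he => hZ i e (h2 e he).1)
    by_cases p : T (k 0) < S.vec M (k 0)
    · simp [hl, p]
    by_cases q : T (k 1) < S.vec M (k 1)
    · simp [hl, p, q]
    have : T (k 2) < S.vec M (k 2) := by
      by_contra r
      refine hno ⟨M, h1, ⟨i, h2⟩, by omega, fun j => ?_⟩
      rcases three j with rfl | rfl | rfl <;> omega
    simpa [hl, p, q] using this
  have avoid : ∀ i U t, S.vec U (k t) ≤ T (k t) → ∀ M, S.IsM M → S.Oz (Z i) FL FR M →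
      m ≤ M.card → M ⊆ U → l M ≠ t := by
    intro i U t h M h1 h2 h3 s e
    have := lab i M h1 h2 h3
    have := vec_mono (S := S) s (k t)
    rw [e] at *
    omega
  let C : Fin 3 → S.Ctz := fun i => ⟨Z i, FL, FR, m, fun M M' => cd (l M) (l M'), hL, hR, by
    intro U N1 N2 N3 hU s1 s2 s3 e1 e2 e3 f1 f2 f3 g1 g2 g3
    have sU : N1 ∪ N2 ∪ N3 ⊆ U := union_subset (union_subset s1 s2) s3
    have := sm (N1 ∪ N2 ∪ N3) (fun e he => by
      rcases mem_union.1 he with he | he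
      · rcases mem_union.1 he with he | he
        · exact hZ i e (e2 e he).1
        · exact hZ i e (f2 e he).1
      · exact hZ i e (g2 e he).1)
    have := card_le_card sU
    obtain ⟨t, ht⟩ : ∃ t, S.vec (N1 ∪ N2 ∪ N3) (k t) ≤ T (k t) := by
      by_contra h
      push Not at h
      have := h 0
      have := h 1
      have := h 2
      omega
    exact cd_add t _ _ _
      (avoid i _ t ht _ e1 e2 e3 (subset_union_left.trans subset_union_left))
      (avoid i _ t ht _ f1 f2 f3 (subset_union_right.trans subset_union_left))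
      (avoid i _ t ht _ g1 g2 g3 subset_union_right)⟩
  have hubs : ∀ i j Q, (C i).Hub Q → (C j).Hub Q := fun i j Q h =>
    ⟨h.1, fun e he => ⟨hh i j Q h.1 h.2.1 h.2.2 he, (h.2.1 e he).2⟩, h.2.2⟩
  have hub : ∀ j i, (C j).Hub (P i) := fun j i =>
    hubs 0 j _ ⟨(hP i).1, (hP i).2.1, (hP i).2.2.1⟩
  have nr : ∀ i, (C i).Nr (N i) := fun i => hN i
  have hz : ∀ i t, i ≠ t → S.vec (N i ∪ P t) (k t) ≤ T (k t) := by
    intro i t h
    refine le_trans ?_ (hP t).2.2.2
    rw [vec_apply, vec_apply]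
    exact_mod_cast card_le_card (fun e he => by
      obtain ⟨e1, e2⟩ := mem_filter.1 he
      exact mem_filter.2 ⟨(mem_union.1 e1).elim (fun h' => hNP i t h e h' e2) id, e2⟩)
  have ln : ∀ i, l (N i) = i := by
    intro i
    by_contra h
    exact avoid i _ _ (hz i _ (Ne.symm h)) _ (nr i).1 (nr i).2.1 (nr i).2.2.ge
      subset_union_left rfl
  obtain ⟨ψ, hψ⟩ := Ctz.conf_all (C := C 0) C (fun _ => rfl)
    (fun i Q => ⟨hubs 0 i Q, hubs i 0 Q⟩) (hub 0 0)
    (fun Q hQ => cmp Q (P 0) hQ.1 hQ.2.1 hQ.2.2 (hP 0).1 (hP 0).2.1 (hP 0).2.2.1)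
  choose Q W r using fun i => (nr i).ex (hub i 0)
  have key : ∀ t i, i ≠ t → W i + ψ (Q i) = cd i (t + 1) + (ψ (P t) - cd (l (P t)) (t + 1)) := by
    intro t i h
    have := Ctz.zone (C := C i) (χ := fun M => cd (l M) (t + 1)) (hub i 0) (hub i t)
      (subset_union_right (s₁ := N i))
      (fun M hM => Ctz.Conf.tr (C := C 0) (C' := C i) rfl (hψ M (hubs i 0 M hM)))
      (fun M M' a1 a2 a3 a4 => cd_sub t _ _
        (avoid i _ t (hz i t h) _ a1.1 a1.2.1 a1.2.2 a3)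
        (avoid i _ t (hz i t h) _ a2.1 a2.2.1 a2.2.2 a4)) (nr i)
      subset_union_left (r i)
    simpa only [ln] using this
  have a1 := key 0 1 (by decide)
  have a2 := key 0 2 (by decide)
  have a3 := key 1 0 (by decide)
  have a4 := key 1 2 (by decide)
  have a5 := key 2 0 (by decide)
  have a6 := key 2 1 (by decide)
  have c1 : cd 1 (0 + 1) = 0 := by decide
  have c2 : cd 2 (0 + 1) = -1 := by decide
  have c3 : cd 0 (1 + 1) = -1 := by decide
  have c4 : cd 2 (1 + 1) = 0 := by decide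
  have c5 : cd 0 (2 + 1) = 0 := by decide
  have c6 : cd 1 (2 + 1) = -1 := by decide
  omega

end Sys

end Pool.Agent.Lib.MP_cc2426_co
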