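import Mathlib
import Pool.Agent.Lib.MP_cc2426_co.Deg2
import Pool.Agent.Lib.MP_cc2426_co.Hole
import Pool.Agent.Lib.MP_cc2426_co.Blocks

/-! Three perfect matchings with connected union, one row and one column deleted: exact colour
counts as soon as every colour is avoidable within its budget. -/

set_option autoImplicit false
set_option linter.unusedSectionVars false

namespace Pool.Agent.Lib.MP_cc2426_co.TB

open Finset Relation

variable {V : Type*} [Fintype V] [DecidableEq V] {σ : Fin 3 → Equiv.Perm V} {x y : V}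

/-- allowed edges: unfrozen rows, frozen edges, and the edges of colour `t` on the cycle of `x`. -/
def Al (σ : Fin 3 → Equiv.Perm V) (x : V) (Φ : Finset V) (f : V → Fin 3) (φ : Equiv.Perm V)
    (t : Fin 3) (r : V) (j : Fin 3) : Prop :=
  r ∉ Φ ∨ j = f r ∨ (j = t ∧ (th σ φ t).SameCycle r x)

theorem wire {c0 c : V → Fin 3} {φ φ' : Equiv.Perm V} (h : Hb σ x y c0 φ) (h' : Hb σ x y c φ')
    {Φ : Finset V} {f : V → Fin 3} (cl : ∀ v ∈ Φ, v ≠ x ∧ ∀ w, Eqv σ x y v w → w ∈ Φ)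
    (h0 : ∀ r ∈ Φ, c0 r = f r) {t : Fin 3} (hc : ∀ r, r ≠ x → Al σ x Φ f φ t r (c r)) :
    ∀ r ∈ Φ, c r = f r := by
  intro r hr
  by_contra hne
  have st : ∀ v ∈ Φ, c v ≠ f v → (th σ φ t).SameCycle v x ∧ th σ φ t v ∈ Φ ∧
      c (th σ φ t v) ≠ f (th σ φ t v) := by
    intro v hv n
    have nx := (cl v hv).1
    obtain ⟨e1, e2⟩ := ((hc v nx).resolve_left (fun a => a hv)).resolve_left n
    have e3 : th σ φ t v = φ.symm (φ' v) := by rw [th_apply, h'.2 v nx, e1]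
    have m : th σ φ t v ∈ Φ := e3 ▸ (cl v hv).2 _ (h'.eqv h nx)
    refine ⟨e2, m, fun e => ?_⟩
    have e4 : φ' (th σ φ t v) = φ' v := by
      rw [h'.2 _ (cl _ m).1, e, ← h0 _ m, ← h.2 _ (cl _ m).1, e3, Equiv.apply_symm_apply]
    have e5 := φ'.injective e4
    obtain ⟨n, hn⟩ := e2.exists_nat_pow_eq
    rw [Equiv.Perm.pow_apply_eq_self_of_apply_eq_self e5] at hn
    exact nx hn
  have all : ∀ n : ℕ, ((th σ φ t) ^ n) r ∈ Φ ∧
      c (((th σ φ t) ^ n) r) ≠ f (((th σ φ t) ^ n) r) := by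
    intro n
    induction n with
    | zero => exact ⟨hr, hne⟩
    | succ n ih => rw [pow_succ', Equiv.Perm.mul_apply]; exact (st _ ih.1 ih.2).2
  obtain ⟨n, hn⟩ := (st r hr hne).1.exists_nat_pow_eq
  exact (cl _ (all n).1).1 hn

theorem inside {c0 : V → Fin 3} {φ : Equiv.Perm V} (h : Hb σ x y c0 φ) {Φ : Finset V}
    (f : V → Fin 3) (cl : ∀ v ∈ Φ, v ≠ x ∧ ∀ w, Eqv σ x y v w → w ∈ Φ) (t : Fin 3) {r w : V}
    (nr : r ∉ Φ) (e : Eqv σ x y r w) : ReflTransGen (Ar σ x (Al σ x Φ f φ t) φ) r w := by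
  have key : ∀ q, ReflTransGen (Ar σ x (fun _ _ => True) φ) r q → Rch σ x y q r →
      ReflTransGen (Ar σ x (Al σ x Φ f φ t) φ) r q := by
    intro q hq
    induction hq with
    | refl => exact fun _ => ReflTransGen.refl
    | @tail p q b a ih =>
      intro hb
      have pr := (rch_of h (ReflTransGen.single a)).trans hb
      obtain ⟨a1, a2, j, -, a4⟩ := a
      exact (ih pr).tail ⟨a1, a2, j, Or.inl (fun m => nr ((cl p m).2 r ⟨pr, rch_of h b⟩)), a4⟩
  exact key w (e.1 c0 φ h) e.2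

theorem compare {c0 : V → Fin 3} {φ : Equiv.Perm V} (h : Hb σ x y c0 φ) {Φ : Finset V}
    (f : V → Fin 3) (cl : ∀ v ∈ Φ, v ≠ x ∧ ∀ w, Eqv σ x y v w → w ∈ Φ) {v w : V} (hv : v ≠ x)
    (hw : w ≠ x) (nv : v ∉ Φ) (nw : w ∉ Φ)
    (e : Eqv σ x y v w ∨ ∃ t, Ty σ x y φ v t ∧ Ty σ x y φ w t) :
    ∃ t, ReflTransGen (Ar σ x (Al σ x Φ f φ t) φ) v w ∨
      ReflTransGen (Ar σ x (Al σ x Φ f φ t) φ) w v := by
  rcases e with e | ⟨t, ⟨p, p1, p2⟩, ⟨q, q1, q2⟩⟩
  · exact ⟨0, Or.inl (inside h f cl 0 nv e)⟩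
  have po : (th σ φ t).SameCycle p x := by_contra (fun hh => p2 (p1.trans (off h hh)))
  have qo : (th σ φ t).SameCycle q x := by_contra (fun hh => q2 (q1.trans (off h hh)))
  have np : p ∉ Φ := fun m => nv ((cl p m).2 v p1.symm)
  have nq : q ∉ Φ := fun m => nw ((cl q m).2 w q1.symm)
  have hZ : ∀ r, (th σ φ t).SameCycle r x → Al σ x Φ f φ t r t :=
    fun r a => Or.inr (Or.inr ⟨rfl, a⟩)
  obtain ⟨d, hd | hd⟩ := orb (th σ φ t) po qo (p1.ne h hv) (q1.ne h hw)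
  · have := along hZ po hd.2
    rw [hd.1] at this
    exact ⟨t, Or.inl (((inside h f cl t nv p1).trans this).trans (inside h f cl t nq q1.symm))⟩
  · have := along hZ qo hd.2
    rw [hd.1] at this
    exact ⟨t, Or.inr (((inside h f cl t nw q1).trans this).trans (inside h f cl t np p1.symm))⟩

theorem to_col {P : Finset (V × Fin 3)} (p1 : (Hub.sys σ).IsM P)
    (p2 : ∀ e ∈ P, e.1 ≠ x ∧ σ e.2 e.1 ≠ y) (p3 : P.card + 1 = Fintype.card V) :
    ∃ c φ, Hb σ x y c φ ∧ ∀ e, e ∈ P ↔ e.1 ≠ x ∧ e.2 = c e.1 := by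
  have ex : ∀ r : V, ∃ j : Fin 3, r ≠ x → (r, j) ∈ P := by
    intro r
    by_cases hr : r = x
    · exact ⟨0, fun h => absurd hr h⟩
    · obtain ⟨e, e1, e2⟩ := Hub.cover (f := (Hub.sys σ).lf) p1.l (fun e he => (p2 e he).1) p3 hr
      obtain rfl : e.1 = r := e2
      exact ⟨e.2, fun _ => e1⟩
  choose c hc using ex
  obtain ⟨φ, hφ⟩ := exists_hb (σ := σ) (x := x) (y := y) (c := c)
    ⟨fun r hr => mem_erase.2 ⟨(p2 _ (hc r (mem_erase.1 hr).1)).2, mem_univ _⟩,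
      fun r hr r' hr' e => congrArg Prod.fst
        (p1.r _ (hc r (mem_erase.1 hr).1) _ (hc r' (mem_erase.1 hr').1) e)⟩
  refine ⟨c, φ, hφ, fun e => ⟨fun he => ⟨(p2 e he).1,
    congrArg Prod.snd (p1.l e he _ (hc _ (p2 e he).1) rfl)⟩, fun he => ?_⟩⟩
  have := hc _ he.1
  rwa [← he.2] at this

theorem of_col (X : Finset V) (c : V → Fin 3)
    (h : ∀ r ∈ X, ∀ r' ∈ X, σ (c r) r = σ (c r') r' → r = r') :
    (Hub.sys σ).IsM (X.image (fun r => (r, c r))) ∧ (X.image (fun r => (r, c r))).card = X.card ∧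
      ∀ t, (Hub.sys σ).vec (X.image (fun r => (r, c r))) t = cnt X c t := by
  have inj : Function.Injective (fun r => (r, c r)) := fun r r' h => congrArg Prod.fst h
  refine ⟨⟨?_, ?_⟩, card_image_of_injective _ inj, fun t => ?_⟩
  · intro e he g hg e'
    obtain ⟨r, _, rfl⟩ := mem_image.1 he
    obtain ⟨r', _, rfl⟩ := mem_image.1 hg
    obtain rfl : r = r' := e'
    rfl
  · intro e he g hg e'
    obtain ⟨r, hr, rfl⟩ := mem_image.1 he
    obtain ⟨r', hr', rfl⟩ := mem_image.1 hg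
    obtain rfl : r = r' := h r hr r' hr' e'
    rfl
  · rw [Sys.vec_apply, filter_image, card_image_of_injective _ inj]
    rfl

theorem hole_conn (σ : Fin 3 → Equiv.Perm V) (x y : V) (hxy : ∀ t, σ t x ≠ y) (a : Fin 3 → ℕ)
    (hs : a 0 + a 1 + a 2 + 2 = Fintype.card V)
    (conn : ∀ A : Finset V, A.Nonempty → A ≠ univ → A.image (σ 0) = A.image (σ 1) →
      A.image (σ 0) ≠ A.image (σ 2))
    (hP : ∀ t, ∃ c : V → Fin 3, (∀ r r', r ≠ x → r' ≠ x → σ (c r) r = σ (c r') r' → r = r') ∧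
      (∀ r, r ≠ x → σ (c r) r ≠ y) ∧ ((univ.erase x).filter (fun r => c r = t)).card ≤ a t) :
    ∃ S : Finset V, ∃ c : V → Fin 3, x ∉ S ∧ (∀ r ∈ S, σ (c r) r ≠ y) ∧
      (∀ r ∈ S, ∀ r' ∈ S, σ (c r) r = σ (c r') r' → r = r') ∧
      ∀ t, (S.filter (fun r => c r = t)).card = a t := by
  classical
  obtain ⟨Φ, f, inv, fin⟩ := freeze (σ := σ) (x := x) (y := y) (a := fun t => (a t : ℤ))
    (by exact_mod_cast hs) conn (fun t => by
      obtain ⟨c, c1, c2, c3⟩ := hP t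
      exact ⟨c, ⟨fun r hr => mem_erase.2 ⟨c2 r (mem_erase.1 hr).1, mem_univ _⟩,
        fun r hr r' hr' => c1 r r' (mem_erase.1 hr).1 (mem_erase.1 hr').1⟩,
        by unfold cnt; exact_mod_cast c3⟩)
  have cl := inv.1
  choose p p1 p2 p3 using inv.2
  obtain ⟨φ, h⟩ := exists_hb (p1 0)
  have cX : (univ.erase x).card + 1 = Fintype.card V := by
    rw [card_erase_add_one (mem_univ x), card_univ]
  set Z : Fin 3 → Finset (V × Fin 3) := fun t =>
    univ.filter (fun e => Al σ x Φ f φ t e.1 e.2) with hZ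
  have mZ : ∀ t e, e ∈ Z t ↔ Al σ x Φ f φ t e.1 e.2 := fun t e => by simp [hZ]
  have col : ∀ i P, (Hub.sys σ).IsM P → (Hub.sys σ).Oz (Z i) {x} {y} P →
      P.card = a 0 + a 1 + a 2 + 1 → ∃ c ψ, Hb σ x y c ψ ∧ (∀ r ∈ Φ, c r = f r) ∧
        ∀ e, e ∈ P ↔ e.1 ≠ x ∧ e.2 = c e.1 := by
    intro i P q1 q2 q3
    obtain ⟨c, ψ, c1, c2⟩ := to_col (x := x) (y := y) q1 (fun e he =>
      ⟨fun hh => (q2 e he).2.1 (mem_singleton.2 hh), fun hh => (q2 e he).2.2 (mem_singleton.2 hh)⟩)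
      (by omega)
    exact ⟨c, ψ, c1, wire h c1 cl (p2 0) (fun r hr =>
      (mZ i (r, c r)).1 (q2 _ ((c2 (r, c r)).2 ⟨hr, rfl⟩)).1), c2⟩
  have al : ∀ (c : V → Fin 3), (∀ r ∈ Φ, c r = f r) → ∀ j r, Al σ x Φ f φ j r (c r) :=
    fun c hc j r => (em (r ∈ Φ)).elim (fun m => Or.inr (Or.inl (hc r m))) Or.inl
  set ν : Fin 3 → V → Fin 3 := fun t r =>
    if r ∈ Φ ∧ ¬ (th σ φ t).SameCycle r x then f r else t with hν
  have fφ : ∀ r ∈ Φ, σ (f r) r = φ r := fun r hr => by rw [h.2 r (cl r hr).1, p2 0 r hr]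
  have mixed : ∀ t r r', (r ∈ Φ ∧ ¬ (th σ φ t).SameCycle r x) → φ r = σ t r' →
      r' ∈ Φ ∧ ¬ (th σ φ t).SameCycle r' x := by
    intro t r r' m e
    have e' : th σ φ t r' = r := by rw [th_apply, ← e, Equiv.symm_apply_apply]
    have o : ¬ (th σ φ t).SameCycle r' x := fun hh =>
      m.2 (e' ▸ Equiv.Perm.sameCycle_apply_left.2 hh)
    exact ⟨(cl r m.1).2 r' (e' ▸ off h o).symm, o⟩
  have νi : ∀ t r r', σ (ν t r) r = σ (ν t r') r' → r = r' := by
    intro t r r' e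
    by_cases m : r ∈ Φ ∧ ¬ (th σ φ t).SameCycle r x <;>
      by_cases m' : r' ∈ Φ ∧ ¬ (th σ φ t).SameCycle r' x
    · simp only [hν, if_pos m, if_pos m'] at e
      rw [fφ r m.1, fφ r' m'.1] at e
      exact φ.injective e
    · simp only [hν, if_pos m, if_neg m'] at e
      rw [fφ r m.1] at e
      exact absurd (mixed t r r' m e) m'
    · simp only [hν, if_neg m, if_pos m'] at e
      rw [fφ r' m'.1] at e
      exact absurd (mixed t r' r m' e.symm) m
    · simp only [hν, if_neg m, if_neg m'] at e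
      exact (σ t).injective e
  obtain ⟨N, h1, ⟨i0, h2⟩, -, h4⟩ := Sys.root2 (S := Hub.sys σ) id (fun _ _ e => e)
    (FL := {x}) (FR := {y}) (m := a 0 + a 1 + a 2)
    (by rw [card_singleton]; omega) (by rw [card_singleton]; omega) (T := fun t => (a t : ℤ))
    (by push_cast; rfl) Z (fun _ e _ => ⟨e.2, rfl⟩)
    (by
      intro i j P q1 q2 q3 e he
      obtain ⟨c, ψ, -, c2, c3⟩ := col i P q1 q2 q3
      rw [mZ, ((c3 e).1 he).2]
      exact al c c2 j e.1)
    (by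
      intro P B q1 q2 q3 b1 b2 b3 g hg gB g' hg' gB'
      obtain ⟨c, ψ, c1, c2, c3⟩ := col 0 P q1 q2 q3
      obtain ⟨d, _, -, d2, d3⟩ := col 0 B b1 b2 b3
      have un : ∀ g ∈ P, g ∉ B → g.1 ∉ Φ := fun g a b m =>
        b ((d3 g).2 ⟨((c3 g).1 a).1, by rw [((c3 g).1 a).2, c2 _ m, d2 _ m]⟩)
      have lift : ∀ t r q, ReflTransGen (Ar σ x (Al σ x Φ f φ t) ψ) r q →
          ReflTransGen ((Hub.sys σ).Arz (Z t) {x} {y} P) (r, c r) (q, c q) := by
        intro t r q hq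
        induction hq with
        | refl => exact ReflTransGen.refl
        | @tail u w _ b ih =>
          obtain ⟨a1, a2, j, a3, a4⟩ := b
          exact ih.tail ⟨(c3 _).2 ⟨a1, rfl⟩, (c3 _).2 ⟨a2, rfl⟩, (u, j), (mZ t _).2 a3, rfl,
            a4.trans (c1.2 w a2)⟩
      have n := (c3 g).1 hg
      have n' := (c3 g').1 hg'
      obtain ⟨t, ht⟩ := compare h f cl n.1 n'.1 (un g hg gB) (un g' hg' gB')
        (fin _ φ h _ _ n.1 n'.1 (un g hg gB) (un g' hg' gB'))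
      have e : g = (g.1, c g.1) := Prod.ext rfl n.2
      have e' : g' = (g'.1, c g'.1) := Prod.ext rfl n'.2
      rw [e, e']
      exact ⟨t, ht.imp
        (fun r => lift t _ _ (indep h c1 (fun r _ => al _ (p2 0) t r) r))
        (fun r => lift t _ _ (indep h c1 (fun r _ => al _ (p2 0) t r) r))⟩)
    (fun t => ((univ.erase x).erase ((σ t).symm y)).image (fun r => (r, ν t r)))
    (fun t => (univ.erase x).image (fun r => (r, p t r)))
    (by
      intro t
      have o := of_col (σ := σ) ((univ.erase x).erase ((σ t).symm y)) (ν t)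
        (fun r _ r' _ => νi t r r')
      refine ⟨o.1, fun e he => ?_, ?_⟩
      · obtain ⟨r, hr, rfl⟩ := mem_image.1 he
        have nx := (mem_erase.1 (mem_erase.1 hr).2).1
        refine ⟨(mZ t _).2 ?_, fun hh => nx (mem_singleton.1 hh), fun hh => ?_⟩
        · by_cases m : r ∈ Φ ∧ ¬ (th σ φ t).SameCycle r x
          · exact Or.inr (Or.inl (if_pos m))
          · by_cases m' : r ∈ Φ
            · exact Or.inr (Or.inr ⟨if_neg m, by_contra (fun o => m ⟨m', o⟩)⟩)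
            · exact Or.inl m'
        · have hh' : σ (ν t r) r = y := mem_singleton.1 hh
          by_cases m : r ∈ Φ ∧ ¬ (th σ φ t).SameCycle r x
          · simp only [hν, if_pos m] at hh'
            rw [fφ r m.1, ← h.1] at hh'
            exact nx (φ.injective hh')
          · simp only [hν, if_neg m] at hh'
            exact (mem_erase.1 hr).1 ((Equiv.eq_symm_apply _).2 hh')
      · have := card_erase_add_one (s := univ.erase x) (a := (σ t).symm y)
          (mem_erase.2 ⟨fun hh => hxy t ((Equiv.symm_apply_eq _).1 hh).symm, mem_univ _⟩)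
        rw [o.2.1]
        omega)
    (by
      intro t
      have o := of_col (σ := σ) (univ.erase x) (p t) (p1 t).2
      refine ⟨o.1, fun e he => ?_, by rw [o.2.1]; omega, ?_⟩
      · obtain ⟨r, hr, rfl⟩ := mem_image.1 he
        exact ⟨(mZ 0 _).2 (al _ (p2 t) 0 r), fun hh => (mem_erase.1 hr).1 (mem_singleton.1 hh),
          fun hh => (mem_erase.1 ((p1 t).1 r hr)).1 (mem_singleton.1 hh)⟩
      · exact (o.2.2 t).trans_le (p3 t))
    (by
      intro i t n e he ec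
      obtain ⟨r, hr, rfl⟩ := mem_image.1 he
      have ec' : ν i r = t := ec
      refine mem_image.2 ⟨r, (mem_erase.1 hr).2, Prod.ext rfl ?_⟩
      by_cases m : r ∈ Φ ∧ ¬ (th σ φ i).SameCycle r x
      · simp only [hν, if_pos m]
        exact p2 t r m.1
      · simp only [hν, if_neg m] at ec'
        exact absurd ec' n)
  have hc : ∀ r : V, ∃ c : Fin 3, ∀ e ∈ N, e.1 = r → e = (r, c) := by
    intro r
    by_cases h : ∃ e ∈ N, e.1 = r
    · obtain ⟨e, he, rfl⟩ := h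
      exact ⟨e.2, fun f hf hh => h1.l f hf e he hh⟩
    · exact ⟨0, fun e he hh => absurd ⟨e, he, hh⟩ h⟩
  choose c hc using hc
  have mem : ∀ r ∈ N.image Prod.fst, (r, c r) ∈ N := by
    intro r hr
    obtain ⟨e, he, rfl⟩ := mem_image.1 hr
    exact hc _ e he rfl ▸ he
  refine ⟨N.image Prod.fst, c, fun h => (h2 _ (mem x h)).2.1 (mem_singleton_self x),
    fun r hr h => (h2 _ (mem r hr)).2.2 (mem_singleton.2 h),
    fun r hr r' hr' h => congrArg Prod.fst (h1.r _ (mem r hr) _ (mem r' hr') h), fun i => ?_⟩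
  have h3 : (Hub.sys σ).vec N i = (a i : ℤ) := h4 i
  rw [Sys.vec_apply] at h3
  have h7 : (N.filter (fun e => (Hub.sys σ).col e = i)).card = a i := by exact_mod_cast h3
  rw [← h7]
  symm
  apply card_bij (fun e _ => e.1)
  · intro e he
    obtain ⟨e1, e2⟩ := mem_filter.1 he
    refine mem_filter.2 ⟨mem_image_of_mem _ e1, ?_⟩
    rw [← e2, hc _ e e1 rfl]
    rfl
  · intro e he f hf h
    exact h1.l e (mem_filter.1 he).1 f (mem_filter.1 hf).1 h
  · intro r hr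
    obtain ⟨e1, e2⟩ := mem_filter.1 hr
    exact ⟨(r, c r), mem_filter.2 ⟨mem r e1, e2⟩, rfl⟩

end Pool.Agent.Lib.MP_cc2426_co.TB

namespace Pool.Agent.Lib.MP_cc2426_co.Conn

open Finset

theorem hole2 {V : Type*} [Fintype V] [DecidableEq V] (σ : Fin 3 → Equiv.Perm V) (x y : V)
    (hxy : ∀ t, σ t x ≠ y) (a : Fin 3 → ℕ) (hs : a 0 + a 1 + a 2 + 2 = Fintype.card V)
    (conn : ∀ A : Finset V, A.Nonempty → A ≠ univ →
      ¬ (A.image (σ 0) = A.image (σ 1) ∧ A.image (σ 0) = A.image (σ 2)))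
    (hP : ∀ t, ∃ c : V → Fin 3, (∀ r r', r ≠ x → r' ≠ x → σ (c r) r = σ (c r') r' → r = r') ∧
      (∀ r, r ≠ x → σ (c r) r ≠ y) ∧ ((univ.erase x).filter (fun r => c r = t)).card ≤ a t) :
    ∃ S : Finset V, ∃ c : V → Fin 3, x ∉ S ∧ (∀ r ∈ S, σ (c r) r ≠ y) ∧
      (∀ r ∈ S, ∀ r' ∈ S, σ (c r) r = σ (c r') r' → r = r') ∧
      ∀ t, (S.filter (fun r => c r = t)).card = a t :=
  TB.hole_conn σ x y hxy a hs (fun A a1 a2 a3 a4 => conn A a1 a2 ⟨a3, a4⟩) hP

end Pool.Agent.Lib.MP_cc2426_co.Conn
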