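import Pool.Agent.Lib.MP_cc2426_co.Fail
import Pool.Agent.Lib.MP_cc2426_co.Conn

/-! Restriction of a system to a closed set; the connected case for arbitrary systems. -/

set_option autoImplicit false
set_option linter.unusedSectionVars false

namespace Pool.Agent.Lib.MP_cc2426_co

open Finset

variable {E L R K : Type*} [DecidableEq E] [DecidableEq L] [DecidableEq R] [DecidableEq K]
  [Fintype L] [Fintype R]

namespace Sys

/-- the system restricted to the rows `A` and the columns `B`. -/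
def sub (S : Sys E L R K) (p : E → Prop) {A : Finset L} {B : Finset R}
    (hL : ∀ e, p e ↔ S.lf e ∈ A) (hR : ∀ e, p e ↔ S.rt e ∈ B) :
    Sys {e // p e} {r // r ∈ A} {q // q ∈ B} K where
  lf e := ⟨S.lf e.1, (hL _).1 e.2⟩
  rt e := ⟨S.rt e.1, (hR _).1 e.2⟩
  col e := S.col e.1
  eL c r := ⟨S.eL c r.1, (hL _).2 (by rw [S.lf_eL]; exact r.2)⟩
  eR c q := ⟨S.eR c q.1, (hR _).2 (by rw [S.rt_eR]; exact q.2)⟩
  lf_eL c r := Subtype.ext (S.lf_eL c r.1)
  col_eL c r := S.col_eL c r.1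
  eL_eq e := Subtype.ext (S.eL_eq e.1)
  rt_eR c q := Subtype.ext (S.rt_eR c q.1)
  col_eR c q := S.col_eR c q.1
  eR_eq e := Subtype.ext (S.eR_eq e.1)

variable {S : Sys E L R K} {p : E → Prop} {A : Finset L} {B : Finset R}
  {hL : ∀ e, p e ↔ S.lf e ∈ A} {hR : ∀ e, p e ↔ S.rt e ∈ B} {s u t : K}

theorem sub_swap : (S.sub p hL hR).swap = S.swap.sub p hR hL := rfl

theorem sub_lf (e : {e // p e}) : ((S.sub p hL hR).lf e).1 = S.lf e.1 := rfl

theorem sub_rt (e : {e // p e}) : ((S.sub p hL hR).rt e).1 = S.rt e.1 := rfl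

theorem sub_col (e : {e // p e}) : (S.sub p hL hR).col e = S.col e.1 := rfl

theorem rch_up {q0 q : {q // q ∈ B}} {i : ℕ} (h : (S.sub p hL hR).Rch t q0 i q) :
    S.Rch t q0.1 i q.1 := by
  induction h with
  | refl i => exact Rch.refl _
  | flat e e' _ a b c ih => exact Rch.flat e.1 e'.1 ih a (congrArg Subtype.val b) c
  | arc e e' _ a b ih => exact Rch.arc e.1 e'.1 ih a (congrArg Subtype.val b)

theorem rch_down (hL : ∀ e, p e ↔ S.lf e ∈ A) (hR : ∀ e, p e ↔ S.rt e ∈ B) {q0 : {q // q ∈ B}}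
    {q : R} {i : ℕ} (h : S.Rch t q0.1 i q) :
    ∃ hq : q ∈ B, (S.sub p hL hR).Rch t q0 i ⟨q, hq⟩ := by
  induction h with
  | refl i => exact ⟨q0.2, Rch.refl _⟩
  | flat e e' _ a b c ih =>
    obtain ⟨h1, h2⟩ := ih
    have pe : p e := (hR e).2 h1
    have pe' : p e' := (hL e').2 (b ▸ (hL e).1 pe)
    exact ⟨(hR e').1 pe', Rch.flat (S := S.sub p hL hR) ⟨e, pe⟩ ⟨e', pe'⟩ h2 a (Subtype.ext b) c⟩
  | arc e e' _ a b ih =>
    obtain ⟨h1, h2⟩ := ih
    have pe : p e := (hR e).2 h1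
    have pe' : p e' := (hL e').2 (b ▸ (hL e).1 pe)
    exact ⟨(hR e').1 pe', Rch.arc (S := S.sub p hL hR) ⟨e, pe⟩ ⟨e', pe'⟩ h2 a (Subtype.ext b)⟩

theorem rch_mem (hL : ∀ e, p e ↔ S.lf e ∈ A) (hR : ∀ e, p e ↔ S.rt e ∈ B) {q0 q : R} {i : ℕ}
    (h0 : q0 ∈ B) (h : S.Rch t q0 i q) : q ∈ B :=
  (rch_down hL hR (q0 := ⟨q0, h0⟩) h).1

theorem rch_sub {q0 q : {q // q ∈ B}} {i : ℕ} :
    (S.sub p hL hR).Rch t q0 i q ↔ S.Rch t q0.1 i q.1 :=
  ⟨rch_up, fun h => (rch_down hL hR h).2⟩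

theorem rch_sub' {r0 r : {r // r ∈ A}} {i : ℕ} :
    (S.sub p hL hR).swap.Rch t r0 i r ↔ S.swap.Rch t r0.1 i r.1 :=
  rch_sub (S := S.swap) (hL := hR) (hR := hL)

theorem rchL_sub {q0 : {q // q ∈ B}} {r : {r // r ∈ A}} {i : ℕ} :
    (S.sub p hL hR).RchL t q0 i r ↔ S.RchL t q0.1 i r.1 := by
  constructor
  · rintro ⟨e, a, b, c⟩
    exact ⟨e.1, congrArg Subtype.val a, b, rch_up c⟩
  · rintro ⟨e, a, b, c⟩
    exact ⟨⟨e, (hL e).2 (a ▸ r.2)⟩, Subtype.ext a, b, rch_sub.2 c⟩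

theorem rchL_sub' {r0 : {r // r ∈ A}} {q : {q // q ∈ B}} {i : ℕ} :
    (S.sub p hL hR).swap.RchL t r0 i q ↔ S.swap.RchL t r0.1 i q.1 :=
  rchL_sub (S := S.swap) (hL := hR) (hR := hL)

theorem rchL_mem (hL : ∀ e, p e ↔ S.lf e ∈ A) (hR : ∀ e, p e ↔ S.rt e ∈ B) {q0 : R} {r : L}
    {i : ℕ} (h0 : q0 ∈ B) (h : S.RchL t q0 i r) : r ∈ A := by
  obtain ⟨e, a, -, c⟩ := h
  exact a ▸ (hL e).1 ((hR e).2 (rch_mem hL hR h0 c))

theorem cy_sub (q : {q // q ∈ B}) :
    ((S.sub p hL hR).cy t q).map (Function.Embedding.subtype _) = S.cy t q.1 := by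
  ext z
  rw [mem_map, mem_cy]
  constructor
  · rintro ⟨w, hw, rfl⟩
    exact rch_up (mem_cy.1 hw)
  · intro h
    obtain ⟨h1, h2⟩ := rch_down hL hR h
    exact ⟨⟨z, h1⟩, mem_cy.2 h2, rfl⟩

theorem card_cy_sub (q : {q // q ∈ B}) : ((S.sub p hL hR).cy t q).card = (S.cy t q.1).card := by
  rw [← cy_sub (hL := hL) (hR := hR), card_map]

theorem card_cy_sub' (r : {r // r ∈ A}) :
    ((S.sub p hL hR).swap.cy t r).card = (S.swap.cy t r.1).card :=
  card_cy_sub (S := S.swap) (hL := hR) (hR := hL) r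

theorem ball_sub (Z : Finset {q // q ∈ B}) (i : ℕ) :
    ((S.sub p hL hR).ball t Z i).map (Function.Embedding.subtype _) =
      S.ball t (Z.map (Function.Embedding.subtype _)) i := by
  ext r
  rw [mem_map, mem_ball]
  constructor
  · rintro ⟨w, hw, rfl⟩
    obtain ⟨q, q1, q2⟩ := mem_ball.1 hw
    exact ⟨q.1, mem_map_of_mem _ q1, rchL_sub.1 q2⟩
  · rintro ⟨q, q1, q2⟩
    obtain ⟨q, q3, rfl⟩ := mem_map.1 q1
    exact ⟨⟨r, rchL_mem hL hR q.2 q2⟩, mem_ball.2 ⟨q, q3, rchL_sub.2 q2⟩, rfl⟩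

theorem sim_sub (sim : ∀ e e', S.lf e = S.lf e' → S.rt e = S.rt e' → e = e')
    (e e' : {e // p e}) (h1 : (S.sub p hL hR).lf e = (S.sub p hL hR).lf e')
    (h2 : (S.sub p hL hR).rt e = (S.sub p hL hR).rt e') : e = e' :=
  Subtype.ext (sim e.1 e'.1 (congrArg Subtype.val h1) (congrArg Subtype.val h2))

theorem con_sub (con : ∀ q0 ∈ B, ∀ q ∈ B, ∃ i, S.Rch t q0 i q) (q0 q : {q // q ∈ B}) :
    ∃ i, (S.sub p hL hR).Rch t q0 i q :=
  (con q0.1 q0.2 q.1 q.2).imp (fun _ h => rch_sub.2 h)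

theorem con_sub' (con : ∀ r0 ∈ A, ∀ r ∈ A, ∃ i, S.swap.Rch t r0 i r) (r0 r : {r // r ∈ A}) :
    ∃ i, (S.sub p hL hR).swap.Rch t r0 i r :=
  con_sub (S := S.swap) (hL := hR) (hR := hL) con r0 r

theorem vec_up (N : Finset {e // p e}) (k : K) :
    S.vec (N.map (Function.Embedding.subtype _)) k = (S.sub p hL hR).vec N k := by
  unfold vec
  rw [sum_map]
  rfl

theorem isM_up {N : Finset {e // p e}} (h : (S.sub p hL hR).IsM N) :
    S.IsM (N.map (Function.Embedding.subtype _)) := by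
  constructor
  · intro e he f hf hh
    obtain ⟨e, e1, rfl⟩ := mem_map.1 he
    obtain ⟨f, f1, rfl⟩ := mem_map.1 hf
    exact congrArg Subtype.val (h.l e e1 f f1 (Subtype.ext hh))
  · intro e he f hf hh
    obtain ⟨e, e1, rfl⟩ := mem_map.1 he
    obtain ⟨f, f1, rfl⟩ := mem_map.1 hf
    exact congrArg Subtype.val (h.r e e1 f f1 (Subtype.ext hh))

/-- a vector realised in the restricted system is realised inside `A`. -/
theorem rl_up {x : {r // r ∈ A}} {y : {q // q ∈ B}} {T : K → ℕ} (h : (S.sub p hL hR).Rl x y T) :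
    ∃ N, S.Av x.1 y.1 N ∧ (∀ e ∈ N, S.lf e ∈ A ∧ S.rt e ∈ B) ∧ ∀ k, S.vec N k = T k := by
  obtain ⟨N, ⟨n1, n2⟩, n3⟩ := h
  refine ⟨N.map (Function.Embedding.subtype _), ⟨isM_up n1, fun e he => ?_⟩, fun e he => ?_,
    fun k => (vec_up N k).trans (n3 k)⟩
  · obtain ⟨e, e1, rfl⟩ := mem_map.1 he
    exact ⟨fun h => (n2 e e1).1 (Subtype.ext h), fun h => (n2 e e1).2 (Subtype.ext h)⟩
  · obtain ⟨e, -, rfl⟩ := mem_map.1 he
    exact ⟨(hL _).1 e.2, (hR _).1 e.2⟩

/-- size of balls inside a connected closed set. -/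
theorem grow_in (hL : ∀ e, p e ↔ S.lf e ∈ A) (hR : ∀ e, p e ↔ S.rt e ∈ B) (hs : s ≠ t)
    (hu : u ≠ t) (hsu : s ≠ u) (sim : ∀ e e', S.lf e = S.lf e' → S.rt e = S.rt e' → e = e')
    (con : ∀ q0 ∈ B, ∀ q ∈ B, ∃ i, S.Rch t q0 i q) {Z : Finset R} (hZ : Z.Nonempty) (zb : Z ⊆ B)
    (i : ℕ) : S.ball t Z i = A ∨ Z.card + 2 * i ≤ (S.ball t Z i).card := by
  classical
  have e : (Z.subtype (fun q => q ∈ B)).map (Function.Embedding.subtype _) = Z :=
    subtype_map_of_mem (fun q hq => zb hq)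
  by_cases h : (S.sub p hL hR).ball t (Z.subtype (fun q => q ∈ B)) i = univ
  · left
    rw [← e, ← ball_sub (hL := hL) (hR := hR), h]
    ext r
    simp
  · right
    obtain ⟨z, hz⟩ := hZ
    have := grow (S := S.sub p hL hR) hs hu hsu sim_sub' (con_sub con)
      (Z := Z.subtype (fun q => q ∈ B)) ⟨⟨z, zb hz⟩, mem_subtype.2 hz⟩ h
    rw [← e, ← ball_sub (hL := hL) (hR := hR), card_map, card_map]
    exact this
where
  sim_sub' := sim_sub (hL := hL) (hR := hR) sim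

/-- the bijection of one colour. -/
def eqv (S : Sys E L R K) (k : K) : L ≃ R where
  toFun r := S.rt (S.eL k r)
  invFun q := S.lf (S.eR k q)
  left_inv r := by
    have := S.eR_eq (S.eL k r)
    rw [S.col_eL] at this
    simp only [this, S.lf_eL]
  right_inv q := by
    have := S.eL_eq (S.eR k q)
    rw [S.col_eR] at this
    simp only [this, S.rt_eR]

theorem eqv_edge (e : E) : S.eqv (S.col e) (S.lf e) = S.rt e := by
  change S.rt (S.eL _ _) = _
  rw [S.eL_eq]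

/-- the connected case with cheap perfect matchings, for an arbitrary system. -/
theorem hole2S (tri : ∀ k, k = s ∨ k = u ∨ k = t) (hsu : s ≠ u) (hs : s ≠ t) (hu : u ≠ t)
    {d : K} {x : L} {y : R} (con : ∀ q0 q, ∃ i, S.Rch d q0 i q) {T : K → ℕ}
    (hc : T s + T u + T t + 2 = Fintype.card L) (na : ∀ e, S.lf e = x → S.rt e ≠ y)
    (hP : ∀ k, ∃ P, S.Av x y P ∧ P.card + 1 = Fintype.card R ∧ S.vec P k ≤ T k) :
    S.Rl x y T := by
  classical
  let κ : Fin 3 → K := ![s, u, t]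
  have kinj : Function.Injective κ := by
    intro i j h
    fin_cases i <;> fin_cases j <;> simp_all [κ]
  have ksur : ∀ k, ∃ i, κ i = k := by
    intro k
    rcases tri k with rfl | rfl | rfl
    · exact ⟨0, rfl⟩
    · exact ⟨1, rfl⟩
    · exact ⟨2, rfl⟩
  let σ : Fin 3 → Equiv.Perm L := fun i => (S.eqv (κ i)).trans (S.eqv s).symm
  have hσ : ∀ i r, S.eqv s (σ i r) = S.rt (S.eL (κ i) r) := fun i r => by
    simp only [σ, Equiv.trans_apply, Equiv.apply_symm_apply]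
    rfl
  have hn : Fintype.card L = Fintype.card R := Fintype.card_congr (S.eqv s)
  have ny : ∀ i r, σ i r = (S.eqv s).symm y ↔ S.rt (S.eL (κ i) r) = y := fun i r => by
    rw [Equiv.eq_symm_apply, hσ]
  obtain ⟨Z, c, z1, z2, z3, z4⟩ := Conn.hole2 σ x ((S.eqv s).symm y)
    (fun i h => na _ (S.lf_eL _ _) ((ny i x).1 h)) (fun i => T (κ i)) hc
    (by
      rintro A ⟨a, ha⟩ a2 ⟨a3, a4⟩
      have im : ∀ i, A.image (σ i) = A.image (σ 0) := by
        intro i
        fin_cases i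
        · rfl
        · exact a3.symm
        · exact a4.symm
      have key : ∀ e, S.lf e ∈ A ↔ (S.eqv s).symm (S.rt e) ∈ A.image (σ 0) := by
        intro e
        obtain ⟨i, hi⟩ := ksur (S.col e)
        have : (S.eqv s).symm (S.rt e) = σ i (S.lf e) := by
          rw [Equiv.symm_apply_eq, hσ, hi, S.eL_eq]
        rw [this, ← im i, (σ i).injective.mem_finset_image]
      apply a2
      rw [eq_univ_iff_forall]
      intro r
      obtain ⟨i, hi⟩ := con (S.rt (S.eL s a)) (S.rt (S.eL s r))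
      have := rch_mem (p := fun e => S.lf e ∈ A) (A := A)
        (B := univ.filter (fun q => (S.eqv s).symm q ∈ A.image (σ 0))) (fun _ => Iff.rfl)
        (fun e => by rw [mem_filter, ← key]; simp) (by
          rw [mem_filter, ← key, S.lf_eL]; exact ⟨mem_univ _, ha⟩) hi
      rw [mem_filter, ← key, S.lf_eL] at this
      exact this.2)
    (by
      intro i
      obtain ⟨P, p1, p2, p3⟩ := hP (κ i)
      have ex : ∀ r, ∃ j : Fin 3, r ≠ x → S.eL (κ j) r ∈ P := by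
        intro r
        by_cases hr : r = x
        · exact ⟨0, fun h => absurd hr h⟩
        · obtain ⟨e, e1, e2⟩ := p1.cov (hn ▸ p2) r hr
          obtain ⟨j, hj⟩ := ksur (S.col e)
          exact ⟨j, fun _ => by rw [hj, ← e2, S.eL_eq]; exact e1⟩
      choose c hc using ex
      refine ⟨c, fun r r' hr hr' h => ?_, fun r hr h => (p1.2 _ (hc r hr)).2 ((ny _ r).1 h), ?_⟩
      · have := p1.1.r _ (hc r hr) _ (hc r' hr') (by rw [← hσ, ← hσ, h])
        rw [← S.lf_eL (κ (c r)) r, this, S.lf_eL]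
      · rw [vec_apply] at p3
        have : ((univ.erase x).filter (fun r => c r = i)).card ≤
            (P.filter (fun e => S.col e = κ i)).card := by
          apply card_le_card_of_injOn (fun r => S.eL (κ (c r)) r)
          · intro r hr
            obtain ⟨r1, r2⟩ := mem_filter.1 (mem_coe.1 hr)
            exact mem_coe.2 (mem_filter.2 ⟨hc r (mem_erase.1 r1).1, by rw [S.col_eL, r2]⟩)
          · intro r _ r' _ h
            have := congrArg S.lf h
            simpa only [S.lf_eL] using this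
        exact_mod_cast (Nat.cast_le.2 this).trans p3)
  have inj : Function.Injective (fun r => S.eL (κ (c r)) r) := fun r r' h => by
    have := congrArg S.lf h
    simpa only [S.lf_eL] using this
  refine ⟨Z.image (fun r => S.eL (κ (c r)) r), ⟨⟨?_, ?_⟩, ?_⟩, fun k => ?_⟩
  · intro e he f hf h
    obtain ⟨r, -, rfl⟩ := mem_image.1 he
    obtain ⟨r', -, rfl⟩ := mem_image.1 hf
    rw [S.lf_eL, S.lf_eL] at h
    rw [h]
  · intro e he f hf h
    obtain ⟨r, hr, rfl⟩ := mem_image.1 he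
    obtain ⟨r', hr', rfl⟩ := mem_image.1 hf
    rw [← hσ, ← hσ] at h
    rw [z3 r hr r' hr' ((S.eqv s).injective h)]
  · intro e he
    obtain ⟨r, hr, rfl⟩ := mem_image.1 he
    exact ⟨by rw [S.lf_eL]; exact fun h => z1 (h ▸ hr), fun h => z2 r hr ((ny _ r).2 h)⟩
  · obtain ⟨i, rfl⟩ := ksur k
    rw [vec_apply, ← z4 i, filter_image, card_image_of_injective _ inj]
    congr 2
    exact filter_congr (fun r _ => by rw [S.col_eL, kinj.eq_iff])

end Sys

end Pool.Agent.Lib.MP_cc2426_co
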