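import Pool.Agent.Lib.MP_cc2426_co.Dfc

/-! The deficient case with zones: the exits are chains with many edges of the deficient colour. -/

set_option autoImplicit false
set_option linter.unusedSectionVars false

namespace Pool.Agent.Lib.MP_cc2426_co

open Finset

variable {E L R K : Type*} [DecidableEq E] [DecidableEq L] [DecidableEq R] [DecidableEq K]
  [Fintype L] [Fintype R]

namespace Sys

/-- joined by steps with at least `τ` edges of colour `t`. -/
def High (S : Sys E L R K) (x : L) (y : R) (t : K) (τ : ℤ) : Finset E → Finset E → Prop :=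
  Relation.ReflTransGen (fun N N' => S.Mv x y N N' ∧ τ ≤ S.vec N t ∧ τ ≤ S.vec N' t)

variable {S : Sys E L R K}

theorem High.swap {x : L} {y : R} {t : K} {τ : ℤ} {N N' : Finset E} (h : S.High x y t τ N N') :
    S.swap.High y x t τ N N' := by
  induction h with
  | refl => exact Relation.ReflTransGen.refl
  | tail _ a ih => exact Relation.ReflTransGen.tail ih ⟨a.1.swap, a.2⟩

theorem High.unswap {x : L} {y : R} {t : K} {τ : ℤ} {N N' : Finset E}
    (h : S.swap.High y x t τ N N') : S.High x y t τ N N' := by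
  induction h with
  | refl => exact Relation.ReflTransGen.refl
  | tail _ a ih => exact Relation.ReflTransGen.tail ih ⟨a.1.unswap, a.2⟩

theorem High.trans {x : L} {y : R} {t : K} {τ : ℤ} {N N' N'' : Finset E}
    (h : S.High x y t τ N N') (h' : S.High x y t τ N' N'') : S.High x y t τ N N'' :=
  Relation.ReflTransGen.trans h h'

theorem Low.last {x : L} {y : R} {t : K} {τ : ℤ} {N N' : Finset E} (h : S.Low x y t τ N N')
    (a : S.vec N t ≤ τ) : S.vec N' t ≤ τ := by
  induction h with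
  | refl => exact a
  | tail _ b _ => exact b.2.2

/-- play the edges of `P` at the uncovered row, under an invariant. -/
theorem play {x : L} {y : R} {t : K} {τ : ℤ} {P : Finset E} (hP : S.Av x y P)
    {I : Finset E → Prop} (hi : ∀ N, I N → τ ≤ S.vec N t)
    (st : ∀ N h g, S.Av x y N → N.card + 1 = P.card → I N → h ∈ P → S.FrL N (S.lf h) → g ∈ N →
      g ∉ P → S.rt h = S.rt g → I (insert h (N.erase g)))
    {N : Finset E} (a : S.Av x y N) (c : N.card + 1 = P.card) (i : I N) :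
    ∃ Z Q, S.High x y t τ N Z ∧ Z ⊆ Q ∧ S.Av x y Q ∧ Q.card = P.card := by
  induction hk : (P \ N).card using Nat.strong_induction_on generalizing N with
  | _ k ih =>
    obtain ⟨h, h1, h2⟩ : ∃ h ∈ P, S.FrL N (S.lf h) := by
      by_contra hh
      have sub : P.image S.lf ⊆ N.image S.lf := by
        intro z hz
        obtain ⟨e, he, rfl⟩ := mem_image.1 hz
        by_contra q
        exact hh ⟨e, he, fun f hf q' => q (mem_image.2 ⟨f, hf, q'⟩)⟩
      have := card_le_card sub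
      rw [card_image_of_injOn (fun e he f hf q => hP.1.l e he f hf q)] at this
      have := card_image_le (s := N) (f := S.lf)
      omega
    have hn : h ∉ N := fun q => h2 h q rfl
    by_cases h3 : S.FrR N (S.rt h)
    · refine ⟨N, insert h N, Relation.ReflTransGen.refl, subset_insert _ _,
        ⟨a.1.insert h2 h3, fun e he => ?_⟩, by rw [card_insert_of_notMem hn, c]⟩
      rcases mem_insert.1 he with rfl | he
      · exact hP.2 _ h1
      · exact a.2 e he
    · obtain ⟨g, g1, g2⟩ : ∃ g ∈ N, S.rt g = S.rt h := by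
        by_contra q
        exact h3 (fun g g1 g2 => q ⟨g, g1, g2⟩)
      have g3 : g ∉ P := fun q => hn (hP.1.r g q h h1 g2 ▸ g1)
      have mv := a.mvL (hP.2 h h1).1 h2 g1 g2.symm
      have i' := st N h g a c i h1 h2 g1 g3 g2.symm
      have lt : (P \ insert h (N.erase g)).card < k := by
        rw [← hk]
        apply card_lt_card
        refine ⟨fun e he => ?_, fun q => ?_⟩
        · obtain ⟨e1, e2⟩ := mem_sdiff.1 he
          exact mem_sdiff.2 ⟨e1, fun e3 => e2 (mem_insert_of_mem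
            (mem_erase.2 ⟨fun q => g3 (q ▸ e1), e3⟩))⟩
        · exact (mem_sdiff.1 (q (mem_sdiff.2 ⟨h1, hn⟩))).2 (mem_insert_self _ _)
      obtain ⟨Z, Q, r⟩ := ih _ lt mv.1 (by rw [mv.2.1, c]) i' rfl
      exact ⟨Z, Q, Relation.ReflTransGen.head ⟨⟨a, h, g, g1, rfl,
        Or.inl ⟨(hP.2 h h1).1, h2, g2.symm⟩⟩, hi _ i, hi _ i'⟩ r.1, r.2⟩

/-- the same at the uncovered column. -/
theorem playR {x : L} {y : R} {t : K} {τ : ℤ} {P : Finset E} (hP : S.Av x y P)
    {I : Finset E → Prop} (hi : ∀ N, I N → τ ≤ S.vec N t)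
    (st : ∀ N h g, S.Av x y N → N.card + 1 = P.card → I N → h ∈ P → S.FrR N (S.rt h) → g ∈ N →
      g ∉ P → S.lf h = S.lf g → I (insert h (N.erase g)))
    {N : Finset E} (a : S.Av x y N) (c : N.card + 1 = P.card) (i : I N) :
    ∃ Z Q, S.High x y t τ N Z ∧ Z ⊆ Q ∧ S.Av x y Q ∧ Q.card = P.card := by
  obtain ⟨Z, Q, r1, r2, r3, r4⟩ := play (S := S.swap) (t := t) (τ := τ) hP.swap (I := I) hi
    (fun N h g b => st N h g b.unswap) a.swap c i
  exact ⟨Z, Q, r1.unswap, r2, r3.unswap, r4⟩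

/-- the exit of a state whose edges of colour `t` all lie in `P`. -/
theorem play1 {x : L} {y : R} {t : K} {τ : ℤ} {P : Finset E} (hP : S.Av x y P)
    {N : Finset E} (a : S.Av x y N) (c : N.card + 1 = P.card)
    (i : ∀ e ∈ N, S.col e = t → e ∈ P) (v : τ ≤ S.vec N t) :
    ∃ Z Q, S.High x y t τ N Z ∧ Z ⊆ Q ∧ S.Av x y Q ∧ Q.card = P.card := by
  refine play hP (I := fun N => τ ≤ S.vec N t ∧ ∀ e ∈ N, S.col e = t → e ∈ P) (fun N h => h.1)
    (fun N h g b _ i h1 h2 g1 g3 g2 => ⟨?_, fun f f1 f2 => ?_⟩) a c ⟨v, i⟩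
  · have c := congrFun (b.mvL (hP.2 h h1).1 h2 g1 g2).2.2.1 t
    have c1 : dl (S.col g) t = 0 := by
      have : t ≠ S.col g := fun hh => g3 (i.2 g g1 hh.symm)
      simp [dl, this]
    have c2 : 0 ≤ dl (S.col h) t := by
      unfold dl
      rw [Pi.single_apply]
      split_ifs <;> simp
    have := i.1
    simp only [Pi.add_apply] at c
    omega
  · exact (mem_insert.1 f1).elim (fun hh => hh ▸ h1) (fun hh => i.2 f (mem_erase.1 hh).2 f2)

theorem zones {s u t : K} (hsu : s ≠ u) (hst : s ≠ t) (hut : u ≠ t)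
    (tri : ∀ k, k = s ∨ k = u ∨ k = t) {x : L} {y : R} {m : ℕ} (hL : m + 2 = Fintype.card L)
    (hR : m + 2 = Fintype.card R) {T : K → ℤ} (hT : T s + T u + T t = m) (lamL : L → ℤ)
    (lamR : R → ℤ) (h0 : ∀ e, S.col e ≠ t → lamR (S.rt e) = lamL (S.lf e))
    (h1 : ∀ e, lamR (S.rt e) ≤ lamL (S.lf e) + 1) (hk : T t < lamL x - lamR y)
    {N1 N2 M1 M2 Z1 Z2 P1 P2 : Finset E} (a1 : S.Av x y N1) (c1 : N1.card = m)
    (low : S.Low x y t (T t) N1 N2) (v1 : S.vec N1 t ≤ T t) (v2 : S.vec N2 t ≤ T t)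
    (v3 : S.vec N1 u ≤ T u) (v4 : S.vec N2 s ≤ T s)
    (j1 : S.Low x y u (T u) N1 M1) (x1 : S.High x y t (T t) M1 Z1) (s1 : Z1 ⊆ P1)
    (p1 : S.Av x y P1) (q1 : P1.card = m + 1)
    (j2 : S.Low x y s (T s) N2 M2) (x2 : S.High x y t (T t) M2 Z2) (s2 : Z2 ⊆ P2)
    (p2 : S.Av x y P2) (q2 : P2.card = m + 1) :
    ∃ N, S.Av x y N ∧ N.card = m ∧ S.vec N s = T s ∧ S.vec N u = T u ∧ S.vec N t = T t := by
  classical
  by_contra hno
  set k : Fin 3 → K := ![t, s, u] with hk'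
  have k0 : k 0 = t := rfl
  have k1 : k 1 = s := rfl
  have k2 : k 2 = u := rfl
  have col : ∀ e, S.col e ∈ ({t, s, u} : Finset K) := fun e => by
    rcases tri (S.col e) with h | h | h <;> simp [h]
  have ok : ∀ N, S.Av x y N → S.Ok {t, s, u} {x} {y} N := fun N h e he =>
    ⟨col e, by simpa using (h.2 e he).1, by simpa using (h.2 e he).2⟩
  have av : ∀ N, S.IsM N → S.Ok {t, s, u} {x} {y} N → S.Av x y N := fun N h h' =>
    ⟨h, fun e he => ⟨by simpa using (h' e he).2.1, by simpa using (h' e he).2.2⟩⟩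
  have sm : ∀ N, S.vec N t + S.vec N s + S.vec N u = N.card := by
    intro N
    have := sum_vec (S := S) (M := N) (fun e _ => col e)
    rw [sum_insert (by simp [hst.symm, hut.symm]), sum_pair hsu] at this
    omega
  set l : Finset E → Fin 3 := fun N => if T t < S.vec N t then 0 else
    if T s < S.vec N s then 1 else 2 with hl
  have lab : ∀ N, S.IsM N → S.Ok {t, s, u} {x} {y} N → m ≤ N.card →
      T (k (l N)) < S.vec N (k (l N)) := by
    intro N b1 b2 b3
    have := sm N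
    by_cases p : T t < S.vec N t
    · simp [hl, p, k0]
    by_cases q : T s < S.vec N s
    · simp [hl, p, q, k1]
    have : T u < S.vec N u := by
      by_contra r
      exact hno ⟨N, av N b1 b2, by omega, by omega, by omega, by omega⟩
    simpa [hl, p, q, k2] using this
  have avoid : ∀ Z j, S.vec Z (k j) ≤ T (k j) → ∀ N, S.IsM N → S.Ok {t, s, u} {x} {y} N →
      m ≤ N.card → N ⊆ Z → l N ≠ j := by
    intro Z j h N b1 b2 b3 b4 e
    have := lab N b1 b2 b3
    have := vec_mono (S := S) b4 (k j)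
    rw [e] at *
    omega
  let C : S.Ctx := ⟨{t, s, u}, {x}, {y}, m, fun N N' => cd (l N) (l N'),
    by rw [card_singleton]; exact hL, by rw [card_singleton]; exact hR, by
    intro U N1 N2 N3 hU s1 s2 s3 e1 e2 e3 f1 f2 f3 g1 g2 g3
    have := sm U
    obtain ⟨j, hj⟩ : ∃ j, S.vec U (k j) ≤ T (k j) := by
      by_contra h
      push Not at h
      have := h 0
      have := h 1
      have := h 2
      rw [k0, k1, k2] at *
      omega
    exact cd_add j _ _ _ (avoid _ j hj _ e1 e2 e3 s1) (avoid _ j hj _ f1 f2 f3 s2)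
      (avoid _ j hj _ g1 g2 g3 s3)⟩
  have hB : C.Hub P1 := ⟨p1.1, ok _ p1, q1⟩
  have hD : C.Hub P2 := ⟨p2.1, ok _ p2, q2⟩
  have n1 : C.Nr N1 := ⟨a1.1, ok _ a1, c1⟩
  have adj0 : ∀ U N N', U.card ≤ m + 1 → T t ≤ S.vec U t → C.V N → C.V N' → N ⊆ U → N' ⊆ U →
      C.w N N' = cd (l N) 0 - cd (l N') 0 := by
    intro U N N' b1 b2 b3 b4 b5 b6
    have := sm U
    by_cases c : S.vec U s ≤ T s
    · exact cd_to 1 _ _ (by decide) (avoid U 1 c _ b3.1 b3.2.1 b3.2.2 b5)
        (avoid U 1 c _ b4.1 b4.2.1 b4.2.2 b6)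
    · have c' : S.vec U u ≤ T u := by omega
      exact cd_to 2 _ _ (by decide) (avoid U 2 c' _ b3.1 b3.2.1 b3.2.2 b5)
        (avoid U 2 c' _ b4.1 b4.2.1 b4.2.2 b6)
  have adj : ∀ N h N', C.Nr N → T t ≤ S.vec N t → C.V N' → N' ⊆ insert h N →
      C.w N N' = cd (l N) 0 - cd (l N') 0 := fun N h N' b1 b2 b3 b4 =>
    adj0 (insert h N) N N' ((card_insert_le _ _).trans (by rw [b1.2.2]))
      (b2.trans (vec_mono (subset_insert _ _) t)) b1.v b3 (subset_insert _ _) b4
  have big : ∀ P, C.Hub P → T t < S.vec P t := by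
    intro P hP
    have b := av P hP.1 hP.2.1
    have c : P.card = m + 1 := hP.2.2
    have := level_le hst h0 h1 hP.1 (Z := {x}) (Z' := {y})
      (fun z hz e he => by rw [mem_singleton.1 hz]; exact (b.2 e he).1)
      (fun z hz e he => by rw [mem_singleton.1 hz]; exact (b.2 e he).2)
      (by rw [card_singleton]; omega) (by rw [card_singleton]; omega)
    rw [sum_singleton, sum_singleton] at this
    omega
  have hub0 : ∀ P, C.Hub P → cd (l P) 0 = 0 := by
    intro P hP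
    have : l P = 0 := by simp [hl, big P hP]
    rw [this]; decide
  have near : ∀ N a v, C.Nr N → a ∉ C.FL → S.FrL N a → v ∉ C.FR → S.FrR N v →
      lamR v ≤ lamL a + 1 → T t ≤ S.vec N t := by
    intro N a v hN b1 b2 b3 b4 b5
    have b := av N hN.1 hN.2.1
    have c : N.card = m := hN.2.2
    have e1 : a ≠ x := fun hh => b1 (mem_singleton.2 hh)
    have e2 : v ≠ y := fun hh => b3 (mem_singleton.2 hh)
    have := level_le hst h0 h1 hN.1 (Z := {a, x}) (Z' := {v, y})
      (fun z hz e he => by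
        rcases mem_insert.1 hz with rfl | hz
        · exact b2 e he
        · rw [mem_singleton.1 hz]; exact (b.2 e he).1)
      (fun z hz e he => by
        rcases mem_insert.1 hz with rfl | hz
        · exact b4 e he
        · rw [mem_singleton.1 hz]; exact (b.2 e he).2)
      (by rw [card_pair e1]; omega) (by rw [card_pair e2]; omega)
    rw [sum_pair e1, sum_pair e2] at this
    omega
  have conf : ∀ P, C.Hub P → C.Conf P1 (fun _ => 0) P := by
    intro P hP
    have h0 : ∀ g, ∃ v : ℤ, g ∈ P → ∀ Q W, C.Red P1 (P.erase g) Q W →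
        v = C.w P (P.erase g) + W + (fun _ => (0 : ℤ)) Q := by
      intro g
      by_cases g1 : g ∈ P
      · obtain ⟨Q, W, r⟩ := (hP.del g1).1.ex hB
        refine ⟨C.w P (P.erase g) + W + 0, fun _ Q' W' r' => ?_⟩
        obtain ⟨rfl, rfl⟩ := r.uniq hB r' (hP.del g1).1
        rfl
      · exact ⟨0, fun h => absurd h g1⟩
    choose val hv using h0
    have z : ∀ g ∈ P, val g = 0 := by
      by_contra hne
      push Not at hne
      obtain ⟨g0, b1, b2⟩ := hne
      obtain ⟨g, g1, g2⟩ := exists_min_image (P.filter (fun g => val g ≠ 0))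
        (fun g => lamR (S.rt g)) ⟨g0, mem_filter.2 ⟨b1, b2⟩⟩
      obtain ⟨g3, g4⟩ := mem_filter.1 g1
      have d := hP.del g3
      have gr := (hP.2.1 g g3).2.2
      obtain ⟨Q, W, r⟩ := d.1.ex hB
      have e1 := Ctx.tele (χ := fun N => cd (l N) 0) (I := fun N => S.FrR N (S.rt g) ∧
          ∀ e ∈ N, e ∉ Q → e ∉ P1 → lamR (S.rt g) ≤ lamR (S.rt e)) hB adj
        (fun N h hN i b1 b2 b3 => near N _ _ hN (hB.2.1 h b1).2.1 b2 (hB.2.1 h b1).2.2 b3 (h1 h)) r
        (fun N h e hN i b1 b2 b3 b4 b5 b6 => ⟨near N _ _ hN (hB.2.1 h b1).2.1 b2 gr i.1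
          ((i.2 e b3 b6 b5).trans (b4 ▸ h1 h)),
          (hN.mv (hB.2.1 h b1).1 (hB.2.1 h b1).2.1 b2 b3 b4).1.keepR _ i.1, fun f f1 f2 f3 =>
            i.2 f (mem_erase.1 ((mem_insert.1 f1).resolve_left (fun hh => f3 (hh ▸ b1)))).2 f2 f3⟩)
        d.1 ⟨d.2.2, fun e b1 b2 _ => g2 e (mem_filter.2 ⟨(mem_erase.1 b1).2, by
          rw [Ctx.same hB hP hv r b2 d.1 (fun e he => Or.inl (mem_erase.1 he).2) b1 g g3 d.2.1]
          exact g4⟩)⟩
      have e2 := adj0 P P (P.erase g) hP.2.2.le (big P hP).le hP.v d.1.v (Subset.refl _)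
        (erase_subset _ _)
      have e3 := hv g g3 Q W r
      have e4 := hub0 P hP
      have e5 := hub0 Q (r.props hB d.1).1
      simp only at e1 e3
      omega
    intro g g1 Q W r
    rw [← hv g g1 Q W r, z g g1]
  have nr : ∀ N N', C.Nr N → S.Mv x y N N' → C.Nr N' := fun N N' hN b =>
    ⟨b.av.1.1, ok _ b.av.1, b.av.2.trans hN.2.2⟩
  have path : ∀ (Zn : Finset E → Prop) (χ : Finset E → ℤ),
      (∀ N N', C.Nr N → S.Mv x y N N' → Zn N → Zn N' → C.w N N' = χ N - χ N') →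
      ∀ N0 N, C.Nr N0 → Relation.ReflTransGen (fun N N' => S.Mv x y N N' ∧ Zn N ∧ Zn N') N0 N →
      C.Nr N ∧ ∀ Q0 W0 Q W, C.Red P1 N0 Q0 W0 → C.Red P1 N Q W → W0 - W = χ N0 - χ N := by
    intro Zn χ hw N0 N n0 h
    induction h with
    | refl =>
      refine ⟨n0, fun Q0 W0 Q W r0 r => ?_⟩
      rw [(r0.uniq hB r n0).2, sub_self, sub_self]
    | @tail N N' h b ih =>
      have hN := ih.1
      have hN' := nr N N' hN b.1
      refine ⟨hN', fun Q0 W0 Q' W' r0 r' => ?_⟩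
      obtain ⟨Q, W, r⟩ := hN.ex hB
      have e1 := ih.2 Q0 W0 Q W r0 r
      have e2 := hw N N' hN b.1 b.2.1 b.2.2
      have cQ := (r.props hB hN).1
      have cQ' := (r'.props hB hN').1
      have e3 : W + 0 = C.w N N' + W' + 0 := by
        obtain ⟨_, f, g, f1, rfl, d | d⟩ := b.1
        · exact Ctx.edge (ψ := fun _ => 0) hB (col f) (fun hh => d.1 (mem_singleton.1 hh)) d.2.2 hN
            d.2.1 f1 r r' (conf _ cQ) (Or.inl (conf _ cQ'))
        · exact Ctx.edge (C := C.swap) (ψ := fun _ => 0) hB.swap (col f)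
            (fun hh => d.1 (mem_singleton.1 hh)) d.2.2 hN.swap d.2.1 f1 (r.swap hB hN)
            (r'.swap hB hN') ((conf _ cQ).swap hB cQ) (Or.inl ((conf _ cQ').swap hB cQ'))
      omega
  have lowp := fun (j : Fin 3) => path (fun N => S.vec N (k j) ≤ T (k j))
    (fun N => cd (l N) (j + 1)) (fun N N' hN b z z' => cd_sub j _ _
      (avoid N j z _ hN.1 hN.2.1 hN.2.2.ge (Subset.refl _))
      (avoid N' j z' _ (nr N N' hN b).1 (nr N N' hN b).2.1 (nr N N' hN b).2.2.ge (Subset.refl _)))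
  have highp := path (fun N => T t ≤ S.vec N t) (fun N => cd (l N) 0) (fun N N' hN b z _ => by
    have hN' := nr N N' hN b
    obtain ⟨_, f, g, _, rfl, _⟩ := b
    exact adj N f _ hN z hN'.v (insert_subset_insert _ (erase_subset _ _)))
  have exit : ∀ M Z P, C.Nr M → S.High x y t (T t) M Z → Z ⊆ P → C.Hub P →
      ∀ Q W, C.Red P1 M Q W → W = cd (l M) 0 := by
    intro M Z P hM b1 b2 hP Q W r
    obtain ⟨hZ, e⟩ := highp M Z hM b1
    obtain ⟨Q', W', r'⟩ := hZ.ex hB
    have e1 := e Q W Q' W' r r'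
    obtain ⟨g, g1, g2⟩ : ∃ g ∈ P, g ∉ Z := by
      by_contra q
      have := card_le_card (s := P) (t := Z) (fun g g1 => by
        by_contra q'
        exact q ⟨g, g1, q'⟩)
      have := hP.2.2
      have := hZ.2.2
      omega
    have ez : Z = P.erase g := by
      apply eq_of_subset_of_card_le
      · exact fun f f1 => mem_erase.2 ⟨fun q => g2 (q ▸ f1), b2 f1⟩
      · rw [card_erase_of_mem g1, hP.2.2, hZ.2.2]
        omega
    subst ez
    have e2 := conf P hP g g1 Q' W' r'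
    have e3 := adj0 P P (P.erase g) hP.2.2.le (big P hP).le hP.v hZ.v (Subset.refl _)
      (erase_subset _ _)
    have e4 := hub0 P hP
    simp only at e1 e2
    omega
  obtain ⟨Q1, W1, r1⟩ := n1.ex hB
  obtain ⟨n2, e0⟩ := lowp 0 N1 N2 n1 low
  obtain ⟨Q2, W2, r2⟩ := n2.ex hB
  obtain ⟨m1, f1⟩ := lowp 2 N1 M1 n1 j1
  obtain ⟨m2, f2⟩ := lowp 1 N2 M2 n2 j2
  obtain ⟨Q3, W3, r3⟩ := m1.ex hB
  obtain ⟨Q4, W4, r4⟩ := m2.ex hB
  have e1 := exit M1 Z1 P1 m1 x1 s1 hB Q3 W3 r3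
  have e2 := exit M2 Z2 P2 m2 x2 s2 hD Q4 W4 r4
  have e3 := e0 Q1 W1 Q2 W2 r1 r2
  have e4 := f1 Q1 W1 Q3 W3 r1 r3
  have e5 := f2 Q2 W2 Q4 W4 r2 r4
  have pick : ∀ i : Fin 3, (i ≠ 0 → i ≠ 2 → i = 1) ∧ (i ≠ 0 → i ≠ 1 → i = 2) := by decide
  have l1 := (pick (l N1)).1 (avoid N1 0 v1 _ n1.1 n1.2.1 c1.ge (Subset.refl _))
    (avoid N1 2 v3 _ n1.1 n1.2.1 c1.ge (Subset.refl _))
  have l2 := (pick (l N2)).2 (avoid N2 0 v2 _ n2.1 n2.2.1 n2.2.2.ge (Subset.refl _))
    (avoid N2 1 v4 _ n2.1 n2.2.1 n2.2.2.ge (Subset.refl _))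
  have l4 := avoid M2 1 (j2.last v4) _ m2.1 m2.2.1 m2.2.2.ge (Subset.refl _)
  have d1 : ∀ i : Fin 3, i ≠ 1 → cd i 0 - cd i (1 + 1) = 1 := by decide
  have d2 := d1 _ l4
  have d3 : (2 + 1 : Fin 3) = 0 := rfl
  have d4 : cd 1 0 = -1 ∧ cd 1 (0 + 1) = 0 ∧ cd 2 (0 + 1) = -1 ∧ cd 2 (1 + 1) = 0 := by decide
  simp only [l1, l2, d3] at e3 e4 e5
  omega

end Sys

end Pool.Agent.Lib.MP_cc2426_co
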