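import Pool.Agent.Lib.MP_cc2426_co.Good
import Pool.Agent.Lib.MP_cc2426_co.Sub
import Pool.Agent.Lib.MP_cc2426_co.Zone

/-! A deleted pair close to a long two-coloured cycle. -/

set_option autoImplicit false
set_option linter.unusedSectionVars false

namespace Pool.Agent.Lib.MP_cc2426_co

open Finset

variable {E L R K : Type*} [DecidableEq E] [DecidableEq L] [DecidableEq R] [DecidableEq K]
  [Fintype L] [Fintype R]

namespace Sys

/-- every matching without colour `t` has a cheap way out. -/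
def Exit (S : Sys E L R K) (x : L) (y : R) (t : K) (τ : ℕ) : Prop :=
  ∀ o, o ≠ t → ∀ M, S.Pure t M → ∀ n : ℤ, S.vec (S.cut x y M) o + (τ / 2 : ℕ) ≤ n →
    ∃ M1 Z P, S.Low x y o n (S.cut x y M) M1 ∧ S.High x y t τ M1 Z ∧ Z ⊆ P ∧ S.Av x y P ∧
      P.card + 1 = Fintype.card R

/-- a way out at the price of `n` edges of colour `o`, from colour `c` on the near rows. -/
def Gex (S : Sys E L R K) (x : L) (y : R) (t : K) (τ : ℕ) (c o : K) (n : ℤ) : Prop :=
  ∀ M, S.Pure t M → (∀ e ∈ M, S.lf e ∈ S.near x y t τ → S.col e = c) → ∀ b : ℤ,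
    S.vec (M.filter (fun e => S.lf e ∉ S.near x y t τ)) o + n ≤ b →
    ∃ N M1 Z P, S.Low x y t τ (S.cut x y M) N ∧ S.vec N t ≤ τ ∧ S.vec N o ≤ b ∧
      S.Low x y o b N M1 ∧ S.High x y t τ M1 Z ∧ Z ⊆ P ∧ S.Av x y P ∧
      P.card + 1 = Fintype.card R

open Classical in
/-- the rows on two-coloured cycles longer than that of `z`. -/
noncomputable def lng (S : Sys E L R K) (t : K) (z : L) : Finset L :=
  univ.filter (fun r => (S.swap.cy t z).card < (S.swap.cy t r).card)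

/-- a cycle near `y` such that the longer ones have at most `X` rows. -/
def GoodC (S : Sys E L R K) (y : R) (t : K) (τ X : ℕ) : Prop :=
  ∃ z, S.RchL t y τ z ∧ (S.lng t z).card ≤ X

variable {S : Sys E L R K} {s u t : K} {x : L} {y : R}

theorem Exit.gex {τ : ℕ} (h : S.Exit x y t τ) {c o : K} (ho : o ≠ t) (hc : o ≠ c) :
    S.Gex x y t τ c o (τ / 2 : ℕ) := by
  intro M hM hc' b hb
  have v : S.vec (S.cut x y M) o ≤ S.vec (M.filter (fun e => S.lf e ∉ S.near x y t τ)) o :=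
    vec_le (fun e he h => mem_filter.2 ⟨(mem_filter.1 he).1,
      fun hh => hc (h.symm.trans (hc' e (mem_filter.1 he).1 hh))⟩)
  obtain ⟨M1, Z, P, a⟩ := h o ho M hM b (by omega)
  refine ⟨_, M1, Z, P, Relation.ReflTransGen.refl, ?_, by omega, a⟩
  rw [vec_zero (M := S.cut x y M) (fun e he => hM.2.1 e (mem_filter.1 he).1)]
  omega

theorem Adm.gex {τ : ℕ} {c o : K} {n : ℤ} (hc : c ≠ t)
    (na : ∀ e, S.lf e = x → S.rt e ≠ y) (hn : Fintype.card L = Fintype.card R)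
    (h : S.Adm x y t τ c o n) : S.Gex x y t τ c o n := by
  intro M0 hM hc' b hb
  set A := S.near x y t τ with hA
  set M := M0.filter (fun e => S.lf e ∉ A) with hM'
  have nM : ∀ e ∈ M, S.col e ≠ t := fun e he => hM.2.1 e (mem_filter.1 he).1
  have avo : ∀ e, S.col e ≠ t → S.lf e ∉ A → S.lf e ≠ x ∧ S.rt e ≠ y := fun e a b =>
    ⟨fun hh => b (hh ▸ mem_near.2 (Or.inr (Rch.refl _))),
      fun hh => b ((nb_iff a).2 (Or.inl (hh ▸ Rch.refl _)))⟩
  have aM : S.Av x y M := ⟨hM.1.mono (filter_subset _ _),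
    fun e he => avo e (nM e he) (mem_filter.1 he).2⟩
  have dM : ∀ N : Finset E, (∀ e ∈ N, S.Nb x y t τ e) →
      ∀ e ∈ N, ∀ f ∈ M, S.lf e ≠ S.lf f ∧ S.rt e ≠ S.rt f := fun N h e he f hf =>
    ⟨fun hh => (mem_filter.1 hf).2 (hh ▸ (h e he).1),
      fun hh => (mem_filter.1 hf).2 ((nb_iff (nM f hf)).2 (hh ▸ (h e he).2))⟩
  have vM : ∀ N : Finset E, (∀ e ∈ N, S.Nb x y t τ e) → ∀ k,
      S.vec (N ∪ M) k = S.vec N k + S.vec M k := fun N h k => by
    rw [vec_union (disj_of (dM N h)), Pi.add_apply]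
  have e1 : S.base x y c A ∪ M = S.cut x y M0 := by
    ext e
    simp only [mem_union, mem_base, hM', cut, mem_filter]
    by_cases h : S.lf e ∈ A
    · simp only [h, not_true_eq_false, and_false, or_false, true_and]
      refine ⟨fun a => ⟨?_, a.2⟩, fun a => ⟨hc' e a.1 h, a.2⟩⟩
      obtain ⟨f, f1, f2⟩ := hM.2.2.1 (S.lf e)
      rwa [← S.eq_of_lf f2 ((hc' f f1 (f2 ▸ h)).trans a.1.symm)]
    · simp only [h, false_and, and_false, false_or, not_false_eq_true, and_true]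
      exact ⟨fun a => ⟨a, avo e (hM.2.1 e a) h⟩, fun a => a.1⟩
  have q0 : S.vec (S.base x y c A) t ≤ τ ∧ ∀ e ∈ S.base x y c A, S.Nb x y t τ e :=
    ⟨by rw [vec_zero (fun e he => (mem_base.1 he).1 ▸ hc)]; omega, fun e he =>
      ⟨(mem_base.1 he).2.1, (nb_iff ((mem_base.1 he).1 ▸ hc)).1 (mem_base.1 he).2.1⟩⟩
  obtain ⟨X, P, x1, x2, x3, x4, x5, x6⟩ := h
  have lf : ∀ N, (S.vec N t ≤ τ ∧ ∀ e ∈ N, S.Nb x y t τ e) →
      (∀ e ∈ N, ∀ f ∈ M, S.lf e ≠ S.lf f ∧ S.rt e ≠ S.rt f) ∧ S.vec (N ∪ M) t ≤ τ :=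
    fun N h => ⟨dM N h.2, by rw [vM N h.2, vec_zero nM, add_zero]; exact h.1⟩
  have l1 : S.Low x y t τ _ _ := Ch.lift (Q' := fun N => S.vec N t ≤ τ) aM lf x1
  rw [e1] at l1
  have qX := (x1.last q0).2
  have c1 := card_cut hM na
  have c2 := l1.av hM.av
  have vt : S.vec (X ∪ M) t = τ := by rw [vM X qX, vec_zero nM, add_zero, x5]
  obtain ⟨Z, Q, z1, z2, z3, z4⟩ := play1 (t := t) (τ := τ) x2 c2.1 (by omega)
    (fun e he h => x4 e ((mem_union.1 he).resolve_right (fun hh => nM e hh h)) h) vt.ge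
  exact ⟨X ∪ M, X ∪ M, Z, Q, l1, vt.le, by rw [vM X qX]; omega, Relation.ReflTransGen.refl, z1, z2,
    z3, by omega⟩

theorem Gex.min {τ : ℕ} {c o : K} {n n' : ℤ} (h : S.Gex x y t τ c o n)
    (h' : S.Gex x y t τ c o n') : S.Gex x y t τ c o (min n n') := by
  rcases le_total n n' with a | a
  · rwa [min_eq_left a]
  · rwa [min_eq_right a]

theorem win2 (tri : ∀ k, k = s ∨ k = u ∨ k = t) (hsu : s ≠ u) (hs : s ≠ t) (hu : u ≠ t)
    (con : ∀ q, ∃ i, S.Rch t y i q) {T : K → ℕ}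
    (hL : T s + T u + T t + 2 = Fintype.card L) (hR : T s + T u + T t + 2 = Fintype.card R)
    (na : ∀ e, S.lf e = x → S.rt e ≠ y) (hx : ¬ S.RchL t y (T t) x) {n n' : ℤ}
    (h1 : S.Gex x y t (T t) s u n) (h2 : S.Gex x y t (T t) u s n') {Z : Finset L}
    (cl : ∀ r ∈ Z, ∀ r', S.swap.Rch t r 0 r' → r' ∈ Z) (far : ∀ r ∈ Z, r ∉ S.near x y t (T t))
    (b1 : Z.card + n ≤ T u) (b2 : ((univ \ S.near x y t (T t)) \ Z).card + n' ≤ T s) :
    S.Rl x y T := by
  set A := S.near x y t (T t) with hA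
  have k1 := pure_colr tri hs hu cl
  have k2 : S.Pure t (S.colr s u (Z ∪ A)) := pure_colr tri hs hu (fun r hr r' h =>
    (mem_union.1 hr).elim (fun a => mem_union_left _ (cl r a r' h))
      (fun a => mem_union_right _ (near_cy a h)))
  have l3 := flip tri hs hu hsu hx k1 k2 (fun e a b => by
    have h : S.lf e ∈ A := by
      by_contra h
      rw [mem_colr] at a b
      simp only [mem_union, h, or_false] at b
      exact b a
    exact (mem_near.1 h).imp (fun c => c.flat (k1.2.1 e a)) id)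
  have v1 := vec_rows (k1.1.mono (filter_subset (fun e => S.lf e ∉ A) _)) (k := u) (Z := Z)
    (fun e he h => by
      have := mem_colr.1 (mem_filter.1 he).1
      by_contra hh
      rw [if_neg hh, h] at this
      exact hsu this.symm)
  have v2 := vec_rows (k2.1.mono (filter_subset (fun e => S.lf e ∉ A) _)) (k := s)
    (Z := (univ \ A) \ Z) (fun e he h => by
      have := mem_colr.1 (mem_filter.1 he).1
      refine mem_sdiff.2 ⟨mem_sdiff.2 ⟨mem_univ _, (mem_filter.1 he).2⟩, fun hh => ?_⟩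
      rw [if_pos (mem_union_left _ hh), h] at this
      exact hsu this)
  obtain ⟨N1, M1, Z1, P1, a1, a2, a3, a4, a5, a6, a7, a8⟩ := h1 _ k1 (fun e he h => by
    rw [mem_colr.1 he, if_neg (fun hh => far _ hh h)]) (T u) (by rw [← hA]; omega)
  obtain ⟨N2, M2, Z2, P2, d1, d2, d3, d4, d5, d6, d7, d8⟩ := h2 _ k2 (fun e he h => by
    rw [mem_colr.1 he, if_pos (mem_union_right _ h)]) (T s) (by rw [← hA]; omega)
  have c1 := card_cut k1 na
  have c2 := a1.av k1.av
  obtain ⟨N, n1, -, n2, n3, n4⟩ := zones hsu hs hu tri (x := x) (y := y) (m := T s + T u + T t) hL hR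
    (T := fun k => (T k : ℤ)) (by push_cast; rfl) (fun r => S.lev t y (S.rt (S.eL s r)))
    (fun q => S.lev t y q) (fun e he => by rw [lev0 hs con e he])
    (fun e => by have := lev1 hs con e; omega) (by
      have := (rowlev hs con).not.1 hx
      have := lev_le (S := S) (t := t) (Rch.refl (q0 := y) 0)
      omega) c2.1 (by omega) ((a1.symm.trans l3).trans d1) a2 d2 a3 d3 a4 a5 a6 a7 (by omega)
    d4 d5 d6 d7 (by omega)
  refine ⟨N, n1, fun k => ?_⟩
  rcases tri k with rfl | rfl | rfl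
  · exact n2
  · exact n3
  · exact n4

theorem ballw (tri : ∀ k, k = s ∨ k = u ∨ k = t) (hsu : s ≠ u) (hs : s ≠ t) (hu : u ≠ t)
    (con : ∀ q, ∃ i, S.Rch t y i q) {T : K → ℕ}
    (hL : T s + T u + T t + 2 = Fintype.card L) (hR : T s + T u + T t + 2 = Fintype.card R)
    (na : ∀ e, S.lf e = x → S.rt e ≠ y) (hx : ¬ S.RchL t y (T t) x) {n n' : ℤ} {X : ℕ}
    (h1 : S.Gex x y t (T t) s u n) (h2 : S.Gex x y t (T t) u s n') (g : S.GoodC y t (T t) X)
    (b1 : n ≤ T u) (b2 : X + n' ≤ T s) : S.Rl x y T := by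
  classical
  have hn := hL.symm.trans hR
  obtain ⟨z, z1, z2⟩ := g
  set A := S.near x y t (T t) with hA
  set G := (univ \ A) ∩ S.lng t z with hG
  have mG : ∀ r, r ∈ G ↔ r ∉ A ∧ (S.swap.cy t z).card < (S.swap.cy t r).card := fun r => by
    simp [hG, lng]
  have sG : G ⊆ univ \ A := inter_subset_left
  have cG : G.card ≤ X := (card_le_card inter_subset_right).trans z2
  have clG : ∀ r r', S.swap.Rch t r 0 r' → r ∈ G → r' ∈ G := fun r r' a b =>
    (mG r').2 ⟨fun hh => ((mG r).1 b).1 (near_cy hh a.symm), cy_eq a ▸ ((mG r).1 b).2⟩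
  have z4 : 0 < (S.swap.cy t z).card := card_pos.2 ⟨z, mem_cy.2 (Rch.refl 0)⟩
  obtain ⟨n1, n2, m1, m2, m3⟩ := admM tri hsu hs hu con hn hx z1
  rw [← hA] at m3
  have c1 := card_sdiff_add_card_eq_card (subset_univ A)
  have c2 := card_sdiff_add_card_eq_card sG
  rw [card_univ] at c1
  have a1 := h1.min (m1.gex hs na hn)
  have a2 := h2.min (m2.gex hu na hn)
  obtain ⟨Z, e1, e2, e3, e4⟩ := gapfill (S := S.swap) (t := t) (Z := (univ \ A) \ G)
    (fun r hr r' h => mem_sdiff.2 ⟨mem_sdiff.2 ⟨mem_univ _, fun hh =>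
      (mem_sdiff.1 (mem_sdiff.1 hr).1).2 (near_cy hh h.symm)⟩,
      fun hh => (mem_sdiff.1 hr).2 (clG _ _ h.symm hh)⟩) (g := (S.swap.cy t z).card)
    (fun r hr => not_lt.1 (fun hh => (mem_sdiff.1 hr).2
      ((mG r).2 ⟨(mem_sdiff.1 (mem_sdiff.1 hr).1).2, hh⟩)))
    (lo := ((univ \ A).card : ℤ) + min n' n2 - T s) (hi := (T u : ℤ) - min n n1) (by omega)
    (by omega) (by omega) (by omega)
  have c3 := card_sdiff_add_card_eq_card (e1.trans sdiff_subset)
  exact win2 tri hsu hs hu con hL hR na hx a1 a2 e2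
    (fun r hr => (mem_sdiff.1 (mem_sdiff.1 (e1 hr)).1).2) (by omega) (by rw [← hA]; omega)

/-- a deleted pair inside a connected system. -/
theorem insideC (tri : ∀ k, k = s ∨ k = u ∨ k = t) (hsu : s ≠ u) (hs : s ≠ t) (hu : u ≠ t)
    (con : ∀ k q, ∃ i, S.Rch k y i q) {T : K → ℕ}
    (hL : T s + T u + T t + 2 = Fintype.card L) (hR : T s + T u + T t + 2 = Fintype.card R)
    (na : ∀ e, S.lf e = x → S.rt e ≠ y) (tu : T t ≤ T u) (us : T u ≤ T s)
    (ex : ∀ d, ¬ S.RchL d y (T d) x → S.Exit x y d (T d))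
    (gt : S.GoodC y t (T t) (T s - T t / 2)) (gu : S.GoodC y u (T u) (T s - T u / 2))
    (gs : S.GoodC y s (T s) (T u - T s / 2)) :
    S.Rl x y T ∨ ∀ k, ∃ P, S.Av x y P ∧ P.card + 1 = Fintype.card R ∧ S.vec P k ≤ T k := by
  have hn := hL.symm.trans hR
  have t1 : ∀ k, k = s ∨ k = t ∨ k = u := fun k => by have := tri k; tauto
  have t2 : ∀ k, k = u ∨ k = t ∨ k = s := fun k => by have := tri k; tauto
  have A : ∀ d c o, ¬ S.RchL d y (T d) x → c ≠ d → o ≠ c →
      (∃ P, S.Av x y P ∧ P.card + 1 = Fintype.card R ∧ S.vec P o ≤ T o) →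
      S.Gex x y d (T d) c o (T o) := by
    rintro d c o a1 a2 a3 ⟨P, p1, p2, p3⟩
    exact ((admA a2 a3 a1 hn p1 p2).mono p3).gex a2 na hn
  by_cases ht : S.RchL t y (T t) x
  swap
  · exact Or.inl (ballw tri hsu hs hu (con t) hL hR na ht ((ex t ht).gex hu hsu.symm)
      ((ex t ht).gex hs hsu) gt (by omega) (by omega))
  have Pt := minhub tri hs hu ht
  by_cases hu' : S.RchL u y (T u) x
  swap
  · exact Or.inl (ballw t1 hs hsu hu.symm (con u) (by omega) (by omega) na hu'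
      (A u s t hu' hsu hs.symm Pt) ((ex u hu').gex hsu hs) gu le_rfl (by omega))
  have Pu := minhub t1 hsu hu.symm hu'
  by_cases hs' : S.RchL s y (T s) x
  swap
  · left
    by_cases c : T s / 2 ≤ T u
    · exact ballw t2 hu hsu.symm hs.symm (con s) (by omega) (by omega) na hs'
        (A s u t hs' hsu.symm hu.symm Pt) ((ex s hs').gex hsu.symm hu) gs le_rfl (by omega)
    · exact ballw t2 hu hsu.symm hs.symm (con s) (by omega) (by omega) na hs'
        (A s u t hs' hsu.symm hu.symm Pt) (A s t u hs' hs.symm hu Pu) gs le_rfl (by omega)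
  have Ps := minhub t2 hsu.symm hs.symm hs'
  right
  intro k
  rcases tri k with rfl | rfl | rfl
  · exact Ps
  · exact Pu
  · exact Pt

theorem cy_le (hs : s ≠ t) (r : L) :
    (S.swap.cy t r).card ≤ (S.cy t (S.rt (S.eL s r))).card := by
  have c : ∀ r, S.col (S.eL s r) ≠ t := fun r => by rwa [S.col_eL]
  refine card_le_card_of_injOn (S.eqv s) (fun z hz => ?_) (S.eqv s).injective.injOn
  have h0 : S.RchL t (S.rt (S.eL s r)) 0 r := ⟨_, S.lf_eL _ _, c r, Rch.refl 0⟩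
  have h1 := h0.cy (mem_cy.1 (mem_coe.1 hz))
  exact mem_coe.2 (mem_cy.2 (RchL.flat (e := S.eL s z) (by rwa [S.lf_eL]) (c z)))

theorem cy_card (hs : s ≠ t) (r : L) :
    (S.cy t (S.rt (S.eL s r))).card = (S.swap.cy t r).card := by
  refine le_antisymm ?_ (cy_le hs r)
  have := cy_le (S := S.swap) hs (S.rt (S.eL s r))
  have e : S.swap.rt (S.swap.eL s (S.rt (S.eL s r))) = r := (S.eqv s).left_inv r
  rw [e] at this
  exact this

theorem goodC (hs : s ≠ t) {τ X : ℕ} {z : L} (hz : S.swap.Rch t x τ z) {G : Finset L}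
    (hG : G.card ≤ X) (h : ∀ r, r ∉ G → (S.swap.cy t r).card ≤ (S.swap.cy t z).card) :
    S.swap.GoodC x t τ X := by
  refine ⟨S.rt (S.eL s z), ⟨S.eL s z, rfl, by change S.col _ ≠ t; rwa [S.col_eL], ?_⟩, ?_⟩
  · have e : S.swap.rt (S.eL s z) = z := S.lf_eL s z
    rwa [e]
  · refine le_trans (card_le_card_of_injOn (S.eqv s).symm (fun q hq => ?_)
      (S.eqv s).symm.injective.injOn) hG
    by_contra hh
    have a := h _ hh
    have b : (S.cy t (S.rt (S.eL s z))).card < (S.cy t q).card := (mem_filter.1 (mem_coe.1 hq)).2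
    have c := cy_card (S := S) hs ((S.eqv s).symm q)
    have e : S.rt (S.eL s ((S.eqv s).symm q)) = q := (S.eqv s).right_inv q
    rw [e] at c
    rw [cy_card hs] at b
    omega

theorem con_of (hsu : s ≠ u) (con' : ∀ k r0 r, ∃ i, S.swap.Rch k r0 i r) (k : K) (q0 q : R) :
    ∃ i, S.Rch k q0 i q := by
  obtain ⟨c, hc⟩ : ∃ c, c ≠ k := by
    by_cases e : s = k
    · exact ⟨u, e ▸ hsu.symm⟩
    · exact ⟨s, e⟩
  obtain ⟨j, hj⟩ := con' k (S.lf (S.eR c q)) (S.lf (S.eR c q0))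
  have h0 : S.RchL k q0 0 (S.lf (S.eR c q0)) :=
    ⟨_, rfl, by rwa [S.col_eR], by rw [S.rt_eR]; exact Rch.refl 0⟩
  have h1 := (dual (S := S) hj h0).flat (by rwa [S.col_eR])
  rw [S.rt_eR] at h1
  exact ⟨_, h1⟩

/-- the deleted pair lies in one connected system and the row is good. -/
theorem insideR (tri : ∀ k, k = s ∨ k = u ∨ k = t) (hsu : s ≠ u) (hs : s ≠ t) (hu : u ≠ t)
    (con' : ∀ k r0 r, ∃ i, S.swap.Rch k r0 i r) {T : K → ℕ}
    (hL : T s + T u + T t + 2 = Fintype.card L)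
    (na : ∀ e, S.lf e = x → S.rt e ≠ y) (tu : T t ≤ T u) (us : T u ≤ T s)
    (ex : ∀ d, ¬ S.swap.RchL d x (T d) y → S.swap.Exit y x d (T d))
    (gt : S.swap.GoodC x t (T t) (T s - T t / 2)) (gu : S.swap.GoodC x u (T u) (T s - T u / 2))
    (gs : S.swap.GoodC x s (T s) (T u - T s / 2)) : S.Rl x y T := by
  have hn : Fintype.card L = Fintype.card R := Fintype.card_congr (S.eqv s)
  rcases insideC (S := S.swap) tri hsu hs hu (fun k q => con' k x q) (hn ▸ hL) hL
    (fun e a b => na e b a) tu us ex gt gu gs with ⟨N, a, b⟩ | h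
  · exact ⟨N, a.unswap, b⟩
  · refine hole2S tri hsu hs hu (con_of hsu con' t) hL na (fun k => ?_)
    obtain ⟨P, a, b, c⟩ := h k
    exact ⟨P, a.unswap, hn ▸ b, c⟩

end Sys

end Pool.Agent.Lib.MP_cc2426_co
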