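import Pool.Agent.Lib.MP_cc2426_co.Mv

/-! An exact near-perfect matching when every perfect matching has too many edges of one colour. -/

set_option autoImplicit false
set_option linter.unusedSectionVars false

namespace Pool.Agent.Lib.MP_cc2426_co

open Finset

variable {E L R K : Type*} [DecidableEq E] [DecidableEq L] [DecidableEq R] [DecidableEq K]
  [Fintype L] [Fintype R]

namespace Sys

variable {S : Sys E L R K}

theorem sum_cover {M : Finset E} (h : S.IsM M) {Z : Finset L} (hZ : ∀ z ∈ Z, S.FrL M z)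
    (hc : M.card + Z.card = Fintype.card L) (lam : L → ℤ) :
    ∑ e ∈ M, lam (S.lf e) + ∑ z ∈ Z, lam z = ∑ z, lam z := by
  have inj : Set.InjOn S.lf M := fun e he f hf hh => h.l e he f hf hh
  have d : Disjoint (M.image S.lf) Z := by
    rw [Finset.disjoint_left]
    intro z hz hz'
    obtain ⟨e, he, rfl⟩ := mem_image.1 hz
    exact hZ _ hz' e he rfl
  have u : M.image S.lf ∪ Z = univ := by
    apply eq_univ_of_card
    rw [card_union_of_disjoint d, card_image_of_injOn inj, hc]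
  rw [← u, sum_union d, sum_image inj]

/-- the levels of the uncovered vertices bound the number of edges of colour `t`. -/
theorem level_le {s t : K} (hst : s ≠ t) {lamL : L → ℤ} {lamR : R → ℤ}
    (h0 : ∀ e, S.col e ≠ t → lamR (S.rt e) = lamL (S.lf e))
    (h1 : ∀ e, lamR (S.rt e) ≤ lamL (S.lf e) + 1) {M : Finset E} (h : S.IsM M) {Z : Finset L}
    {Z' : Finset R} (hZ : ∀ z ∈ Z, S.FrL M z) (hZ' : ∀ z ∈ Z', S.FrR M z)
    (hc : M.card + Z.card = Fintype.card L) (hc' : M.card + Z'.card = Fintype.card R) :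
    ∑ z ∈ Z, lamL z - ∑ z ∈ Z', lamR z ≤ S.vec M t := by
  have a1 := sum_cover h hZ hc lamL
  have a2 := sum_cover (S := S.swap) h.swap hZ' hc' lamR
  have bij : Function.Bijective (fun z => S.rt (S.eL s z)) := by
    constructor
    · intro z z' hh
      have := S.eq_of_rt hh (by rw [S.col_eL, S.col_eL])
      rw [← S.lf_eL s z, this, S.lf_eL]
    · intro v
      refine ⟨S.lf (S.eR s v), ?_⟩
      have := S.eL_eq (S.eR s v)
      rw [S.col_eR] at this
      simp only [this, S.rt_eR]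
  have a3 : ∑ z, lamR (S.rt (S.eL s z)) = ∑ z, lamR z := bij.sum_comp lamR
  have a4 : ∑ z, lamR (S.rt (S.eL s z)) = ∑ z, lamL z := sum_congr rfl (fun z _ => by
    rw [h0 _ (by rw [S.col_eL]; exact hst), S.lf_eL])
  have a5 : ∑ e ∈ M, lamR (S.rt e) ≤ ∑ e ∈ M, lamL (S.lf e) + S.vec M t := by
    unfold vec
    rw [Finset.sum_apply, ← sum_add_distrib]
    apply sum_le_sum
    intro e _
    by_cases c : S.col e = t
    · have := h1 e
      simpa [dl, c] using this
    · simp [dl, h0 e c, Ne.symm c]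
  change ∑ e ∈ M, lamR (S.rt e) + _ = _ at a2
  omega

namespace Ctx

variable {C : S.Ctx}

theorem tele {B : Finset E} (hB : C.Hub B) {χ : Finset E → ℤ} {I Hi : Finset E → Prop}
    (adj : ∀ N h N', C.Nr N → Hi N → C.V N' → N' ⊆ insert h N → C.w N N' = χ N - χ N')
    (a1 : ∀ N h, C.Nr N → I N → h ∈ B → S.FrL N (S.lf h) → S.FrR N (S.rt h) → Hi N)
    {N Q : Finset E} {W : ℤ} (r : C.Red B N Q W) :
    (∀ N h g, C.Nr N → I N → h ∈ B → S.FrL N (S.lf h) → g ∈ N → S.rt h = S.rt g → g ∉ B →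
      g ∉ Q → Hi N ∧ I (insert h (N.erase g))) → C.Nr N → I N → W = χ N - χ Q := by
  induction r with
  | close N h h1 h2 h3 =>
    intro _ hN i
    exact adj N h _ hN (a1 N h hN i h1 h2 h3) (hN.cl hB h1 h2 h3).v (Subset.refl _)
  | step N h g Q W h1 h2 h3 h4 r ih =>
    intro a2 hN i
    have m := hN.mv (hB.2.1 h h1).1 (hB.2.1 h h1).2.1 h2 h3 h4
    have g1 := kick_notL hB h1 h2 h3 h4
    have g2 : g ∉ Q := fun hh => (mem_union.1 ((r.props hB m.2).2.1 hh)).elim
      (fun a => m.1.frL g a rfl) g1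
    obtain ⟨b1, b2⟩ := a2 N h g hN i h1 h2 h3 h4 g1 g2
    rw [adj N h _ hN b1 m.2.v (insert_subset_insert _ (erase_subset _ _)), ih a2 m.2 b2]
    ring

end Ctx

theorem cd_to : ∀ j i i' : Fin 3, j ≠ 0 → i ≠ j → i' ≠ j → cd i i' = cd i 0 - cd i' 0 := by decide

theorem defic {s u t : K} (hsu : s ≠ u) (hst : s ≠ t) (hut : u ≠ t)
    (tri : ∀ k, k = s ∨ k = u ∨ k = t) {x : L} {y : R} {m : ℕ} (hL : m + 2 = Fintype.card L)
    (hR : m + 2 = Fintype.card R) {T : K → ℤ} (hT : T s + T u + T t = m) (lamL : L → ℤ)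
    (lamR : R → ℤ) (h0 : ∀ e, S.col e ≠ t → lamR (S.rt e) = lamL (S.lf e))
    (h1 : ∀ e, lamR (S.rt e) ≤ lamL (S.lf e) + 1) (hk : T t < lamL x - lamR y)
    {N1 N2 P1 P2 : Finset E} (a1 : S.Av x y N1) (c1 : N1.card = m)
    (low : S.Low x y t (T t) N1 N2) (p1 : S.Av x y P1) (q1 : P1.card = m + 1)
    (p2 : S.Av x y P2) (q2 : P2.card = m + 1) (s1 : ∀ e ∈ N1, S.col e = t → e ∈ P1)
    (s2 : ∀ e ∈ N2, S.col e = t → e ∈ P2) (v1 : S.vec N1 t = T t) (v2 : S.vec N2 t = T t)
    (v3 : S.vec N1 u ≤ T u) (v4 : S.vec N2 s ≤ T s) :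
    ∃ N, S.Av x y N ∧ N.card = m ∧ S.vec N s = T s ∧ S.vec N u = T u ∧ S.vec N t = T t := by
  classical
  by_contra hno
  set k : Fin 3 → K := ![t, s, u] with hk'
  have k0 : k 0 = t := rfl
  have k1 : k 1 = s := rfl
  have k2 : k 2 = u := rfl
  have col : ∀ e, S.col e ∈ ({t, s, u} : Finset K) := fun e => by
    rcases tri (S.col e) with h | h | h <;> simp [h]
  have ok : ∀ N, S.Av x y N → S.Ok {t, s, u} {x} {y} N := fun N h e he =>
    ⟨col e, by simpa using (h.2 e he).1, by simpa using (h.2 e he).2⟩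
  have av : ∀ N, S.IsM N → S.Ok {t, s, u} {x} {y} N → S.Av x y N := fun N h h' =>
    ⟨h, fun e he => ⟨by simpa using (h' e he).2.1, by simpa using (h' e he).2.2⟩⟩
  have sm : ∀ N, S.vec N t + S.vec N s + S.vec N u = N.card := by
    intro N
    have := sum_vec (S := S) (M := N) (fun e _ => col e)
    rw [sum_insert (by simp [hst.symm, hut.symm]), sum_pair hsu] at this
    omega
  set l : Finset E → Fin 3 := fun N => if T t < S.vec N t then 0 else
    if T s < S.vec N s then 1 else 2 with hl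
  have lab : ∀ N, S.IsM N → S.Ok {t, s, u} {x} {y} N → m ≤ N.card →
      T (k (l N)) < S.vec N (k (l N)) := by
    intro N b1 b2 b3
    have := sm N
    by_cases p : T t < S.vec N t
    · simp [hl, p, k0]
    by_cases q : T s < S.vec N s
    · simp [hl, p, q, k1]
    have : T u < S.vec N u := by
      by_contra r
      exact hno ⟨N, av N b1 b2, by omega, by omega, by omega, by omega⟩
    simpa [hl, p, q, k2] using this
  have avoid : ∀ Z j, S.vec Z (k j) ≤ T (k j) → ∀ N, S.IsM N → S.Ok {t, s, u} {x} {y} N →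
      m ≤ N.card → N ⊆ Z → l N ≠ j := by
    intro Z j h N b1 b2 b3 b4 e
    have := lab N b1 b2 b3
    have := vec_mono (S := S) b4 (k j)
    rw [e] at *
    omega
  let C : S.Ctx := ⟨{t, s, u}, {x}, {y}, m, fun N N' => cd (l N) (l N'),
    by rw [card_singleton]; exact hL, by rw [card_singleton]; exact hR, by
    intro U N1 N2 N3 hU s1 s2 s3 e1 e2 e3 f1 f2 f3 g1 g2 g3
    have := sm U
    obtain ⟨j, hj⟩ : ∃ j, S.vec U (k j) ≤ T (k j) := by
      by_contra h
      push Not at h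
      have := h 0
      have := h 1
      have := h 2
      rw [k0, k1, k2] at *
      omega
    exact cd_add j _ _ _ (avoid _ j hj _ e1 e2 e3 s1) (avoid _ j hj _ f1 f2 f3 s2)
      (avoid _ j hj _ g1 g2 g3 s3)⟩
  have hB : C.Hub P1 := ⟨p1.1, ok _ p1, q1⟩
  have hD : C.Hub P2 := ⟨p2.1, ok _ p2, q2⟩
  have n1 : C.Nr N1 := ⟨a1.1, ok _ a1, c1⟩
  have adj0 : ∀ U N N', U.card ≤ m + 1 → T t ≤ S.vec U t → C.V N → C.V N' → N ⊆ U → N' ⊆ U →
      C.w N N' = cd (l N) 0 - cd (l N') 0 := by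
    intro U N N' b1 b2 b3 b4 b5 b6
    have := sm U
    by_cases c : S.vec U s ≤ T s
    · exact cd_to 1 _ _ (by decide) (avoid U 1 c _ b3.1 b3.2.1 b3.2.2 b5)
        (avoid U 1 c _ b4.1 b4.2.1 b4.2.2 b6)
    · have c' : S.vec U u ≤ T u := by omega
      exact cd_to 2 _ _ (by decide) (avoid U 2 c' _ b3.1 b3.2.1 b3.2.2 b5)
        (avoid U 2 c' _ b4.1 b4.2.1 b4.2.2 b6)
  have adj : ∀ N h N', C.Nr N → T t ≤ S.vec N t → C.V N' → N' ⊆ insert h N →
      C.w N N' = cd (l N) 0 - cd (l N') 0 := fun N h N' b1 b2 b3 b4 =>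
    adj0 (insert h N) N N' ((card_insert_le _ _).trans (by rw [b1.2.2]))
      (b2.trans (vec_mono (subset_insert _ _) t)) b1.v b3 (subset_insert _ _) b4
  have big : ∀ P, C.Hub P → T t < S.vec P t := by
    intro P hP
    have b := av P hP.1 hP.2.1
    have c : P.card = m + 1 := hP.2.2
    have := level_le hst h0 h1 hP.1 (Z := {x}) (Z' := {y})
      (fun z hz e he => by rw [mem_singleton.1 hz]; exact (b.2 e he).1)
      (fun z hz e he => by rw [mem_singleton.1 hz]; exact (b.2 e he).2)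
      (by rw [card_singleton]; omega) (by rw [card_singleton]; omega)
    rw [sum_singleton, sum_singleton] at this
    omega
  have hub0 : ∀ P, C.Hub P → cd (l P) 0 = 0 := by
    intro P hP
    have : l P = 0 := by simp [hl, big P hP]
    rw [this]; decide
  have near : ∀ N a v, C.Nr N → a ∉ C.FL → S.FrL N a → v ∉ C.FR → S.FrR N v →
      lamR v ≤ lamL a + 1 → T t ≤ S.vec N t := by
    intro N a v hN b1 b2 b3 b4 b5
    have b := av N hN.1 hN.2.1
    have c : N.card = m := hN.2.2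
    have e1 : a ≠ x := fun hh => b1 (mem_singleton.2 hh)
    have e2 : v ≠ y := fun hh => b3 (mem_singleton.2 hh)
    have := level_le hst h0 h1 hN.1 (Z := {a, x}) (Z' := {v, y})
      (fun z hz e he => by
        rcases mem_insert.1 hz with rfl | hz
        · exact b2 e he
        · rw [mem_singleton.1 hz]; exact (b.2 e he).1)
      (fun z hz e he => by
        rcases mem_insert.1 hz with rfl | hz
        · exact b4 e he
        · rw [mem_singleton.1 hz]; exact (b.2 e he).2)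
      (by rw [card_pair e1]; omega) (by rw [card_pair e2]; omega)
    rw [sum_pair e1, sum_pair e2] at this
    omega
  have conf : ∀ P, C.Hub P → C.Conf P1 (fun _ => 0) P := by
    intro P hP
    have h0 : ∀ g, ∃ v : ℤ, g ∈ P → ∀ Q W, C.Red P1 (P.erase g) Q W →
        v = C.w P (P.erase g) + W + (fun _ => (0 : ℤ)) Q := by
      intro g
      by_cases g1 : g ∈ P
      · obtain ⟨Q, W, r⟩ := (hP.del g1).1.ex hB
        refine ⟨C.w P (P.erase g) + W + 0, fun _ Q' W' r' => ?_⟩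
        obtain ⟨rfl, rfl⟩ := r.uniq hB r' (hP.del g1).1
        rfl
      · exact ⟨0, fun h => absurd h g1⟩
    choose val hv using h0
    have z : ∀ g ∈ P, val g = 0 := by
      by_contra hne
      push Not at hne
      obtain ⟨g0, b1, b2⟩ := hne
      obtain ⟨g, g1, g2⟩ := exists_min_image (P.filter (fun g => val g ≠ 0))
        (fun g => lamR (S.rt g)) ⟨g0, mem_filter.2 ⟨b1, b2⟩⟩
      obtain ⟨g3, g4⟩ := mem_filter.1 g1
      have d := hP.del g3
      have gr := (hP.2.1 g g3).2.2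
      obtain ⟨Q, W, r⟩ := d.1.ex hB
      have e1 := Ctx.tele (χ := fun N => cd (l N) 0) (I := fun N => S.FrR N (S.rt g) ∧
          ∀ e ∈ N, e ∉ Q → e ∉ P1 → lamR (S.rt g) ≤ lamR (S.rt e)) hB adj
        (fun N h hN i b1 b2 b3 => near N _ _ hN (hB.2.1 h b1).2.1 b2 (hB.2.1 h b1).2.2 b3 (h1 h)) r
        (fun N h e hN i b1 b2 b3 b4 b5 b6 => ⟨near N _ _ hN (hB.2.1 h b1).2.1 b2 gr i.1
          ((i.2 e b3 b6 b5).trans (b4 ▸ h1 h)),
          (hN.mv (hB.2.1 h b1).1 (hB.2.1 h b1).2.1 b2 b3 b4).1.keepR _ i.1, fun f f1 f2 f3 =>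
            i.2 f (mem_erase.1 ((mem_insert.1 f1).resolve_left (fun hh => f3 (hh ▸ b1)))).2 f2 f3⟩)
        d.1 ⟨d.2.2, fun e b1 b2 _ => g2 e (mem_filter.2 ⟨(mem_erase.1 b1).2, by
          rw [Ctx.same hB hP hv r b2 d.1 (fun e he => Or.inl (mem_erase.1 he).2) b1 g g3 d.2.1]
          exact g4⟩)⟩
      have e2 := adj0 P P (P.erase g) hP.2.2.le (big P hP).le hP.v d.1.v (Subset.refl _)
        (erase_subset _ _)
      have e3 := hv g g3 Q W r
      have e4 := hub0 P hP
      have e5 := hub0 Q (r.props hB d.1).1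
      simp only at e1 e3
      omega
    intro g g1 Q W r
    rw [← hv g g1 Q W r, z g g1]
  have exit : ∀ D N, C.Hub D → C.Nr N → (∀ e ∈ N, S.col e = t → e ∈ D) → S.vec N t = T t →
      ∀ Q0 W0, C.Red P1 N Q0 W0 → W0 = cd (l N) 0 := by
    intro D N hD hN b1 b2 Q0 W0 r0
    obtain ⟨Q, W, r⟩ := hN.ex hD
    have e1 := Ctx.tele (χ := fun N => cd (l N) 0) (I := fun N => T t ≤ S.vec N t ∧
        ∀ e ∈ N, S.col e = t → e ∈ D) hD adj (fun N h hN i _ _ _ => i.1) r
      (fun N h e hN i b1 b2 b3 b4 b5 _ => ⟨i.1, by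
        have c := congrFun (hN.mv (hD.2.1 h b1).1 (hD.2.1 h b1).2.1 b2 b3 b4).1.vec t
        have c1 : dl (S.col e) t = 0 := by
          have : t ≠ S.col e := fun hh => b5 (i.2 e b3 hh.symm)
          simp [dl, this]
        have c2 : 0 ≤ dl (S.col h) t := by
          unfold dl
          rw [Pi.single_apply]
          split_ifs <;> simp
        have := i.1
        simp only [Pi.add_apply] at c
        omega, fun f f1 f2 => (mem_insert.1 f1).elim (fun hh => hh ▸ b1)
          (fun hh => i.2 f (mem_erase.1 hh).2 f2)⟩) hN ⟨b2.ge, b1⟩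
    have e2 := Ctx.other hB hD conf r hN Q0 W0 r0
    have e3 := hub0 Q (r.props hD hN).1
    change W0 + 0 = W + 0 at e2
    change W = cd (l N) 0 - cd (l Q) 0 at e1
    omega
  obtain ⟨Q1, W1, r1⟩ := n1.ex hB
  have path : ∀ N, S.Low x y t (T t) N1 N → ∀ Q W, C.Red P1 N Q W →
      W1 - W = cd (l N1) (0 + 1) - cd (l N) (0 + 1) := by
    intro N h
    induction h with
    | refl =>
      intro Q W r
      rw [(r1.uniq hB r n1).2, sub_self, sub_self]
    | @tail N N' h b ih =>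
      intro Q' W' r'
      have b1 := Low.av h a1
      have hN : C.Nr N := ⟨b1.1.1, ok _ b1.1, b1.2.trans c1⟩
      have hN' : C.Nr N' := ⟨b.1.av.1.1, ok _ b.1.av.1, b.1.av.2.trans hN.2.2⟩
      obtain ⟨Q, W, r⟩ := hN.ex hB
      have e1 := ih Q W r
      have e2 : C.w N N' = cd (l N) (0 + 1) - cd (l N') (0 + 1) := cd_sub 0 _ _
        (avoid N 0 b.2.1 _ hN.1 hN.2.1 hN.2.2.ge (Subset.refl _))
        (avoid N' 0 b.2.2 _ hN'.1 hN'.2.1 hN'.2.2.ge (Subset.refl _))
      have cQ := (r.props hB hN).1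
      have cQ' := (r'.props hB hN').1
      have e3 : W + 0 = C.w N N' + W' + 0 := by
        obtain ⟨_, f, g, f1, rfl, d | d⟩ := b.1
        · exact Ctx.edge (ψ := fun _ => 0) hB (col f) (fun hh => d.1 (mem_singleton.1 hh)) d.2.2 hN
            d.2.1 f1 r r' (conf _ cQ) (Or.inl (conf _ cQ'))
        · exact Ctx.edge (C := C.swap) (ψ := fun _ => 0) hB.swap (col f)
            (fun hh => d.1 (mem_singleton.1 hh)) d.2.2 hN.swap d.2.1 f1 (r.swap hB hN)
            (r'.swap hB hN') ((conf _ cQ).swap hB cQ) (Or.inl ((conf _ cQ').swap hB cQ'))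
      omega
  have b2 := low.av a1
  have n2 : C.Nr N2 := ⟨b2.1.1, ok _ b2.1, b2.2.trans c1⟩
  obtain ⟨Q2, W2, r2⟩ := n2.ex hB
  have e1 := exit P1 N1 hB n1 s1 v1 Q1 W1 r1
  have e2 := exit P2 N2 hD n2 s2 v2 Q2 W2 r2
  have e3 := path N2 low Q2 W2 r2
  have pick : ∀ i : Fin 3, (i ≠ 0 → i ≠ 2 → i = 1) ∧ (i ≠ 0 → i ≠ 1 → i = 2) := by decide
  have l1 := (pick (l N1)).1 (avoid N1 0 v1.le _ n1.1 n1.2.1 c1.ge (Subset.refl _))
    (avoid N1 2 v3 _ n1.1 n1.2.1 c1.ge (Subset.refl _))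
  have l2 := (pick (l N2)).2 (avoid N2 0 v2.le _ n2.1 n2.2.1 n2.2.2.ge (Subset.refl _))
    (avoid N2 1 v4 _ n2.1 n2.2.1 n2.2.2.ge (Subset.refl _))
  rw [l1] at e1
  rw [l2] at e2
  rw [l1, l2, e1, e2] at e3
  revert e3
  decide

end Sys

end Pool.Agent.Lib.MP_cc2426_co
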