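import Pool.Agent.Lib.MP_cc2426_co.Adm2
import Pool.Agent.Lib.MP_cc2426_co.Dfc

/-! When a colour is deficient. -/

set_option autoImplicit false
set_option linter.unusedSectionVars false

namespace Pool.Agent.Lib.MP_cc2426_co

open Finset

variable {E L R K : Type*} [DecidableEq E] [DecidableEq L] [DecidableEq R] [DecidableEq K]
  [Fintype L] [Fintype R]

namespace Sys

variable {S : Sys E L R K} {s u t : K} {x : L} {y : R}

/-- the vector `T` is realised after deleting `x` and `y`. -/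
def Rl (S : Sys E L R K) (x : L) (y : R) (T : K → ℕ) : Prop :=
  ∃ N, S.Av x y N ∧ ∀ k, S.vec N k = T k

open Classical in
/-- the longest two-coloured cycle within `τ` edges of colour `t` from `y`. -/
noncomputable def gap (S : Sys E L R K) (y : R) (t : K) (τ : ℕ) : ℕ :=
  (univ.filter (fun r => S.RchL t y τ r)).sup (fun r => (S.swap.cy t r).card)

/-- the rows on far long cycles. -/
noncomputable def long (S : Sys E L R K) (x : L) (y : R) (t : K) (τ : ℕ) : Finset L :=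
  univ.filter (fun r => r ∉ S.near x y t τ ∧ S.gap y t τ < (S.swap.cy t r).card)

theorem le_gap {τ : ℕ} {r : L} (h : S.RchL t y τ r) : (S.swap.cy t r).card ≤ S.gap y t τ := by
  classical
  exact le_sup (f := fun r => (S.swap.cy t r).card) (mem_filter.2 ⟨mem_univ r, h⟩)

theorem rowlev (hs : s ≠ t) (con : ∀ q, ∃ i, S.Rch t y i q) {r : L} {i : ℕ} :
    S.RchL t y i r ↔ S.lev t y (S.rt (S.eL s r)) ≤ i := by
  rw [← rch_iff con]
  exact ⟨fun h => RchL.flat (by rwa [S.lf_eL]) (by rwa [S.col_eL]),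
    fun h => ⟨_, S.lf_eL _ _, by rwa [S.col_eL], h⟩⟩

theorem RchL.cy {i : ℕ} {r r' : L} (h : S.RchL t y i r) (h' : S.swap.Rch t r 0 r') :
    S.RchL t y i r' := dual (S := S) h'.symm h

theorem near_cy {τ : ℕ} {r r' : L} (h : r ∈ S.near x y t τ) (h' : S.swap.Rch t r 0 r') :
    r' ∈ S.near x y t τ :=
  mem_near.2 ((mem_near.1 h).imp (fun a => a.cy h') (fun a => a.trans h'))

theorem lev0 (hs : s ≠ t) (con : ∀ q, ∃ i, S.Rch t y i q) (e : E) (h : S.col e ≠ t) :
    S.lev t y (S.rt e) = S.lev t y (S.rt (S.eL s (S.lf e))) :=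
  lev_flat con (by rwa [S.col_eL]) h (S.lf_eL _ _).symm

theorem lev1 (hs : s ≠ t) (con : ∀ q, ∃ i, S.Rch t y i q) (e : E) :
    S.lev t y (S.rt e) ≤ S.lev t y (S.rt (S.eL s (S.lf e))) + 1 :=
  lev_arc con (by rwa [S.col_eL]) (S.lf_eL _ _).symm

theorem mix {c : K} (hc : c ≠ t) {τ i : ℕ} (hx : ¬ S.RchL t y τ x) (hi : i ≤ τ) {P : Finset E}
    (hP : S.Av x y P) (cL : P.card + 1 = Fintype.card L) (cR : P.card + 1 = Fintype.card R)
    {a : L → ℤ} {b : R → ℤ} (p0 : b y = 0) (hk : (τ : ℤ) < a x)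
    (fl : ∀ e, S.col e = c → b (S.rt e) = a (S.lf e))
    (ti : ∀ e ∈ P, b (S.rt e) = a (S.lf e) + if S.col e = t then 1 else 0)
    (lo : ∀ r j, S.RchL t y j r → a r ≤ j) :
    ∃ X, S.Ch x y (fun N => S.vec N t ≤ τ ∧ ∀ e ∈ N, S.Nb x y t τ e)
      (S.base x y c (S.near x y t τ)) X ∧ S.vec X t = τ ∧
      ∀ e ∈ X, S.col e = c ∨ (e ∈ P ∧ S.lf e ∈ S.near x y t τ ∧ a (S.lf e) ≠ i) := by
  obtain ⟨N, r, cnt, H, h1, h2, h3, h4⟩ := phase1 (o := t) hc hx hi hP cL p0 fl (fun e he _ => ti e he)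
  have q0 : S.vec (S.base x y c (S.near x y t τ)) t ≤ τ ∧
      ∀ e ∈ S.base x y c (S.near x y t τ), S.Nb x y t τ e :=
    ⟨by rw [vec_zero (fun e he => (mem_base.1 he).1 ▸ hc)]; omega, fun e he =>
      ⟨(mem_base.1 he).2.1, (nb_iff ((mem_base.1 he).1 ▸ hc)).1 (mem_base.1 he).2.1⟩⟩
  have qN := h3.last q0
  have c0 : S.col (S.eL c x) ≠ t := by rwa [S.col_eL]
  obtain ⟨N2, r2, cnt2, H2, d, rfl, h5⟩ := phase (S := S.swap) (x := y) (y := x) (c := c) (o := t)
    (D := (· = t)) (tg := fun _ => τ - i) (a := fun q => a x - b q) (b := fun r => a x - a r)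
    (N0 := N) (r0 := S.rt (S.eL c x)) hP.swap (hP.swap.cov cR) (fun d hd => hd ▸ hc)
    (h3.av av_base).1.swap h4
    (H.keep _ (fun e he hh => (mem_base.1 he).2.2.1 (by
      rw [S.eq_of_rt hh ((mem_base.1 he).1.trans (S.col_eL _ _).symm), S.lf_eL])))
    (fun hh => hx ⟨_, S.lf_eL c x, c0, hh ▸ Rch.refl _⟩)
    (fun d hd => hd ▸ ⟨S.eL c x, rfl, c0, by
      have e : S.swap.rt (S.eL c x) = x := S.lf_eL c x
      rw [e]; exact Rch.refl 0⟩)
    (by rw [fl _ (S.col_eL _ _), S.lf_eL, sub_self])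
    (fun e he => congrArg (fun z => a x - z) (fl e he).symm)
    (fun e he _ => by
      have := ti e he
      change a x - a (S.lf e) = a x - b (S.rt e) + if S.col e = t then 1 else 0
      omega)
    (fun q a1 a2 a3 => by
      have a4 : a x - a q ≤ ((τ - i : ℕ) : ℤ) := a2 rfl
      refine H.covL q (fun hh => ?_) ?_
      · have := H.lv
        rw [← hh, h1] at this
        omega
      · by_cases hy : S.rt (S.eL c q) = y
        · left
          rw [← hy, eR_rt (S.col_eL _ _), S.lf_eL]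
        · exact Or.inr ⟨S.eL c q, mem_base.2 ⟨S.col_eL _ _, by
            rw [S.lf_eL]; exact mem_near.2 (Or.inr ((a1 t rfl).mono (Nat.sub_le _ _))),
            by rwa [S.lf_eL], hy⟩, S.lf_eL _ _⟩)
  have k1 : S.Ch x y (fun N => S.vec N d ≤ τ ∧ ∀ e ∈ N, S.Nb x y d τ e) N N2 := by
    refine Ch.mono ?_ H2.ch.unswap
    intro M hM
    refine ⟨?_, fun e he => ?_⟩
    · have : S.vec M d ≤ S.vec N d + ((τ - i : ℕ) : ℤ) := hM.1 d rfl
      omega
    · rcases hM.2 e he with h | h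
      · exact qN.2 e h
      · exact ⟨mem_near.2 (Or.inr ((h d rfl).2.mono (Nat.sub_le _ _))),
          Or.inr ((h d rfl).1.mono (Nat.sub_le _ _))⟩
  refine ⟨N2, Relation.ReflTransGen.trans h3 k1, ?_, fun e he => ?_⟩
  · have : S.vec N2 d = S.vec N d + cnt2 d := H2.vec d hc.symm
    omega
  have nr := ((k1.last qN).2 e he).1
  by_cases e1 : e ∈ N
  · by_cases e2 : e ∈ S.base x y c (S.near x y d τ)
    · exact Or.inl (mem_base.1 e2).1
    · obtain ⟨b1, b2, -⟩ := H.new e e1 e2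
      obtain ⟨j, b3, b4⟩ := b2 d rfl
      have := lo _ _ b4
      exact Or.inr ⟨b1, nr, by omega⟩
  · obtain ⟨b1, -, b2⟩ := H2.new e he e1
    have b3 : a x - b (S.rt e) + (if S.col e = d then 1 else 0) ≤ cnt2 d := b2
    have := ti e b1
    exact Or.inr ⟨b1, nr, by omega⟩

theorem admM (tri : ∀ k, k = s ∨ k = u ∨ k = t) (hsu : s ≠ u) (hs : s ≠ t) (hu : u ≠ t)
    (con : ∀ q, ∃ i, S.Rch t y i q) (hn : Fintype.card L = Fintype.card R) {τ : ℕ}
    (hx : ¬ S.RchL t y τ x) {z : L} (hz : S.RchL t y τ z) :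
    ∃ n n' : ℤ, S.Adm x y t τ s u n ∧ S.Adm x y t τ u s n' ∧
      n + n' + τ + 1 + (S.swap.cy t z).card ≤ (S.near x y t τ).card := by
  classical
  set a : L → ℤ := fun r => S.lev t y (S.rt (S.eL s r)) with ha
  set b : R → ℤ := fun q => S.lev t y q with hb
  have p0 : b y = 0 := by
    have := lev_le (S := S) (t := t) (Rch.refl (q0 := y) 0)
    simp only [hb]; omega
  have hk : (τ : ℤ) < a x := by
    have := (rowlev hs con).not.1 hx
    simp only [ha]; omega
  have fl : ∀ e, S.col e ≠ t → b (S.rt e) = a (S.lf e) := fun e he => by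
    simp only [ha, hb]; rw [lev0 hs con e he]
  obtain ⟨P, p1, p2, p3⟩ := minhub (x := x) tri hs hu ((rowlev hs con).2 le_rfl)
  have ti := (tight (s := s) (t := t) p1 (hn ▸ p2) p2 a b (fun _ => rfl) (fun e => by
    split_ifs with h
    · have := lev1 hs con e
      simp only [ha, hb]; omega
    · rw [fl e h]; omega)).2 (by rw [p0, sub_zero]; exact p3)
  have lo : ∀ r j, S.RchL t y j r → a r ≤ j := fun r j h => by
    have := (rowlev hs con).1 h
    simp only [ha]; omega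
  set i := S.lev t y (S.rt (S.eL s z)) with hi
  have hi' : i ≤ τ := (rowlev hs con).1 hz
  set G := P.filter (fun e => S.lf e ∈ S.near x y t τ ∧ a (S.lf e) ≠ i) with hG
  have one : ∀ c o, c ≠ t → o ≠ c → S.Adm x y t τ c o (S.vec G o) ∧ (τ : ℤ) ≤ S.vec G t := by
    intro c o hc ho
    obtain ⟨X, x1, x2, x3⟩ := mix hc hx hi' p1 (hn ▸ p2) p2 p0 hk
      (fun e he => fl e (he ▸ hc)) ti lo
    have sub : ∀ k, k ≠ c → ∀ e ∈ X, S.col e = k → e ∈ G := fun k hk e he h =>
      mem_filter.2 ((x3 e he).resolve_left (fun hh => hk (h.symm.trans hh)))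
    exact ⟨⟨X, P, x1, p1, p2, fun e he h => (mem_filter.1 (sub t hc.symm e he h)).1, x2,
      vec_le (sub o ho)⟩, x2 ▸ vec_le (sub t hc.symm)⟩
  refine ⟨_, _, (one s u hs hsu.symm).1, (one u s hu hsu).1, ?_⟩
  have h1 := (one s u hs hsu.symm).2
  have h2 := sum_vec (S := S) (A := {s, u, t}) (M := G) (fun e _ => by
    have := tri (S.col e)
    simpa using this)
  rw [sum_insert (by simp [hsu, hs]), sum_pair hu] at h2
  have h3 : (G.image S.lf).card = G.card := card_image_of_injOn (fun e he f hf hh =>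
    p1.1.l e (mem_filter.1 he).1 f (mem_filter.1 hf).1 hh)
  have lz : ∀ r ∈ S.swap.cy t z, a r = i ∧ r ∈ S.near x y t τ := fun r hr => by
    have c1 := mem_cy.1 hr
    have c2 := (rowlev hs con).1 (((rowlev hs con).2 le_rfl : S.RchL t y i z).cy c1)
    have c3 := (rowlev hs con).1 (((rowlev (r := r) hs con).2 le_rfl).cy c1.symm)
    exact ⟨by simp only [ha]; omega, mem_near.2 (Or.inl (hz.cy c1))⟩
  have d1 : Disjoint (G.image S.lf) (S.swap.cy t z) := by
    rw [Finset.disjoint_left]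
    intro r hr h
    obtain ⟨e, he, rfl⟩ := mem_image.1 hr
    exact (mem_filter.1 he).2.2 (lz _ h).1
  have d2 : x ∉ G.image S.lf ∪ S.swap.cy t z := by
    rw [mem_union, not_or]
    refine ⟨fun h => ?_, fun h => ?_⟩
    · obtain ⟨e, he, h⟩ := mem_image.1 h
      exact (p1.2 e (mem_filter.1 he).1).1 h
    · have := (lz _ h).1
      omega
  have h4 : (insert x (G.image S.lf ∪ S.swap.cy t z)).card ≤ (S.near x y t τ).card :=
    card_le_card (insert_subset (mem_near.2 (Or.inr (Rch.refl _))) (union_subset (fun r hr => by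
      obtain ⟨e, he, rfl⟩ := mem_image.1 hr
      exact (mem_filter.1 he).2.1) (fun r hr => (lz r hr).2)))
  rw [card_insert_of_notMem d2, card_union_of_disjoint d1, h3] at h4
  omega

theorem card_cut {M : Finset E} (h : S.Pure t M) (na : ∀ e, S.lf e = x → S.rt e ≠ y) :
    (S.cut x y M).card + 2 = Fintype.card L := by
  obtain ⟨e1, a1, a2⟩ := h.2.2.1 x
  obtain ⟨e2, b1, b2⟩ := h.2.2.2 y
  have ne : e1 ≠ e2 := fun hh => na e1 a2 (hh ▸ b2)
  have c1 : S.cut x y M = (M.erase e1).erase e2 := by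
    ext e
    simp only [cut, mem_filter, mem_erase]
    constructor
    · exact fun hh => ⟨fun k => hh.2.2 (k ▸ b2), fun k => hh.2.1 (k ▸ a2), hh.1⟩
    · exact fun hh => ⟨hh.2.2, fun k => hh.2.1 (h.1.l e hh.2.2 e1 a1 (k.trans a2.symm)),
        fun k => hh.1 (h.1.r e hh.2.2 e2 b1 (k.trans b2.symm))⟩
  have c2 : M.image S.lf = univ := eq_univ_of_forall (fun r => mem_image.2 (h.2.2.1 r))
  have c3 := card_image_of_injOn (s := M) (f := S.lf) (fun e he f hf hh => h.1.l e he f hf hh)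
  have c4 := card_erase_add_one a1
  have c5 := card_erase_add_one (mem_erase.2 ⟨ne.symm, b1⟩)
  rw [c2, card_univ] at c3
  rw [c1]
  omega

theorem vec_rows {M : Finset E} (h : S.IsM M) {k : K} {Z : Finset L}
    (hZ : ∀ e ∈ M, S.col e = k → S.lf e ∈ Z) : S.vec M k ≤ Z.card := by
  rw [vec_apply]
  exact_mod_cast card_le_card_of_injOn S.lf
    (fun e he => hZ e (mem_filter.1 he).1 (mem_filter.1 he).2)
    (fun e he f hf hh => h.l e (mem_filter.1 he).1 f (mem_filter.1 hf).1 hh)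

theorem win (tri : ∀ k, k = s ∨ k = u ∨ k = t) (hsu : s ≠ u) (hs : s ≠ t) (hu : u ≠ t)
    (con : ∀ q, ∃ i, S.Rch t y i q) {T : K → ℕ}
    (hL : T s + T u + T t + 2 = Fintype.card L) (hR : T s + T u + T t + 2 = Fintype.card R)
    (na : ∀ e, S.lf e = x → S.rt e ≠ y) (hx : ¬ S.RchL t y (T t) x) {n n' : ℤ}
    (h1 : S.Adm x y t (T t) s u n) (h2 : S.Adm x y t (T t) u s n') {Z : Finset L}
    (cl : ∀ r ∈ Z, ∀ r', S.swap.Rch t r 0 r' → r' ∈ Z) (far : ∀ r ∈ Z, r ∉ S.near x y t (T t))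
    (b1 : Z.card + n ≤ T u) (b2 : ((univ \ S.near x y t (T t)) \ Z).card + n' ≤ T s) :
    S.Rl x y T := by
  set A := S.near x y t (T t) with hA
  have k1 := pure_colr tri hs hu cl
  have k2 : S.Pure t (S.colr s u (Z ∪ A)) := pure_colr tri hs hu (fun r hr r' h =>
    (mem_union.1 hr).elim (fun a => mem_union_left _ (cl r a r' h))
      (fun a => mem_union_right _ (near_cy a h)))
  set M := (S.colr s u Z).filter (fun e => S.lf e ∉ A) with hM
  have nM : ∀ e ∈ M, S.col e ≠ t := fun e he => k1.2.1 e (mem_filter.1 he).1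
  have avo : ∀ e, S.col e ≠ t → S.lf e ∉ A → S.lf e ≠ x ∧ S.rt e ≠ y := fun e a b =>
    ⟨fun hh => b (hh ▸ mem_near.2 (Or.inr (Rch.refl _))),
      fun hh => b ((nb_iff a).2 (Or.inl (hh ▸ Rch.refl _)))⟩
  have aM : S.Av x y M := ⟨k1.1.mono (filter_subset _ _),
    fun e he => avo e (nM e he) (mem_filter.1 he).2⟩
  have dM : ∀ N : Finset E, (∀ e ∈ N, S.Nb x y t (T t) e) →
      ∀ e ∈ N, ∀ f ∈ M, S.lf e ≠ S.lf f ∧ S.rt e ≠ S.rt f := fun N h e he f hf =>
    ⟨fun hh => (mem_filter.1 hf).2 (hh ▸ (h e he).1),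
      fun hh => (mem_filter.1 hf).2 ((nb_iff (nM f hf)).2 (hh ▸ (h e he).2))⟩
  have vM : ∀ N : Finset E, (∀ e ∈ N, S.Nb x y t (T t) e) → ∀ k,
      S.vec (N ∪ M) k = S.vec N k + S.vec M k := fun N h k => by
    rw [vec_union (disj_of (dM N h)), Pi.add_apply]
  have e1 : S.base x y s A ∪ M = S.cut x y (S.colr s u Z) := by
    ext e
    simp only [mem_union, mem_base, hM, cut, mem_filter, mem_colr]
    by_cases h : S.lf e ∈ A
    · simp [h, show S.lf e ∉ Z from fun hh => far _ hh h]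
    · simp only [h, false_and, and_false, false_or, not_false_eq_true, and_true]
      exact ⟨fun a => ⟨a, avo e (k1.2.1 e (mem_colr.2 a)) h⟩, fun a => a.1⟩
  have e2 : S.base x y u A ∪ M = S.cut x y (S.colr s u (Z ∪ A)) := by
    ext e
    simp only [mem_union, mem_base, hM, cut, mem_filter, mem_colr]
    by_cases h : S.lf e ∈ A
    · simp [h]
    · simp only [h, false_and, and_false, false_or, not_false_eq_true, and_true, or_false]
      exact ⟨fun a => ⟨a, avo e (k1.2.1 e (mem_colr.2 a)) h⟩, fun a => a.1⟩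
  have q0 : ∀ c, c ≠ t → S.vec (S.base x y c A) t ≤ T t ∧
      ∀ e ∈ S.base x y c A, S.Nb x y t (T t) e := fun c hc =>
    ⟨by rw [vec_zero (fun e he => (mem_base.1 he).1 ▸ hc)]; omega, fun e he =>
      ⟨(mem_base.1 he).2.1, (nb_iff ((mem_base.1 he).1 ▸ hc)).1 (mem_base.1 he).2.1⟩⟩
  obtain ⟨X, P, x1, x2, x3, x4, x5, x6⟩ := h1
  obtain ⟨X', P', y1, y2, y3, y4, y5, y6⟩ := h2
  have lf : ∀ N, (S.vec N t ≤ T t ∧ ∀ e ∈ N, S.Nb x y t (T t) e) →
      (∀ e ∈ N, ∀ f ∈ M, S.lf e ≠ S.lf f ∧ S.rt e ≠ S.rt f) ∧ S.vec (N ∪ M) t ≤ T t :=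
    fun N h => ⟨dM N h.2, by rw [vM N h.2, vec_zero nM, add_zero]; exact h.1⟩
  have l1 : S.Low x y t (T t) _ _ := Ch.lift (Q' := fun N => S.vec N t ≤ T t) aM lf x1
  have l2 : S.Low x y t (T t) _ _ := Ch.lift (Q' := fun N => S.vec N t ≤ T t) aM lf y1
  rw [e1] at l1
  rw [e2] at l2
  have l3 := flip tri hs hu hsu hx k1 k2 (fun e a b => by
    have h : S.lf e ∈ A := by
      by_contra h
      rw [mem_colr] at a b
      simp only [mem_union, h, or_false] at b
      exact b a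
    exact (mem_near.1 h).imp (fun c => c.flat (k1.2.1 e a)) id)
  have qX := (x1.last (q0 s hs)).2
  have qY := (y1.last (q0 u hu)).2
  have c1 := card_cut k1 na
  have c2 := l1.av k1.av
  have v1 := vec_rows aM.1 (k := u) (Z := Z) (fun e he h => by
    have := mem_colr.1 (mem_filter.1 he).1
    by_contra hh
    rw [if_neg hh, h] at this
    exact hsu this.symm)
  have v2 := vec_rows aM.1 (k := s) (Z := (univ \ A) \ Z) (fun e he h => by
    have := mem_colr.1 (mem_filter.1 he).1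
    refine mem_sdiff.2 ⟨mem_sdiff.2 ⟨mem_univ _, (mem_filter.1 he).2⟩, fun hh => ?_⟩
    rw [if_pos hh, h] at this
    exact hsu this)
  obtain ⟨N, n1, -, n2, n3, n4⟩ := defic hsu hs hu tri (x := x) (y := y) (m := T s + T u + T t) hL hR
    (T := fun k => (T k : ℤ)) (by push_cast; rfl) (fun r => S.lev t y (S.rt (S.eL s r)))
    (fun q => S.lev t y q) (fun e he => by rw [lev0 hs con e he])
    (fun e => by have := lev1 hs con e; omega) (by
      have := (rowlev hs con).not.1 hx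
      have := lev_le (S := S) (t := t) (Rch.refl (q0 := y) 0)
      omega) c2.1 (by omega) ((l1.symm.trans l3).trans l2) x2 (by omega) y2 (by omega)
    (fun e he h => x4 e ((mem_union.1 he).resolve_right (fun hh => nM e hh h)) h)
    (fun e he h => y4 e ((mem_union.1 he).resolve_right (fun hh => nM e hh h)) h)
    (by rw [vM X qX, vec_zero nM, add_zero, x5]) (by rw [vM X' qY, vec_zero nM, add_zero, y5])
    (by rw [vM X qX]; omega) (by rw [vM X' qY]; omega)
  refine ⟨N, n1, fun k => ?_⟩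
  rcases tri k with rfl | rfl | rfl
  · exact n2
  · exact n3
  · exact n4

theorem cy_eq {r r' : R} (h : S.Rch t r 0 r') : S.cy t r' = S.cy t r := by
  ext q
  rw [mem_cy, mem_cy]
  exact ⟨fun a => h.trans a, fun a => h.symm.trans a⟩

theorem fail (tri : ∀ k, k = s ∨ k = u ∨ k = t) (hsu : s ≠ u) (hs : s ≠ t) (hu : u ≠ t)
    (sim : ∀ e e', S.lf e = S.lf e' → S.rt e = S.rt e' → e = e')
    (con : ∀ k q, ∃ i, S.Rch k y i q) {T : K → ℕ}
    (hL : T s + T u + T t + 2 = Fintype.card L) (hR : T s + T u + T t + 2 = Fintype.card R)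
    (na : ∀ e, S.lf e = x → S.rt e ≠ y) (hx : ¬ S.RchL t y (T t) x)
    (h1 : S.Adm x y t (T t) s u (T u)) (h2 : S.Adm x y t (T t) u s (T s)) (no : ¬ S.Rl x y T) :
    2 ≤ (S.long x y t (T t)).card ∧
      Fintype.card L ≤ (S.long x y t (T t)).card + 2 * (T t + T u) + 1 := by
  classical
  have hn := hL.symm.trans hR
  set A := S.near x y t (T t) with hA
  set G := S.long x y t (T t) with hG
  have mG : ∀ r, r ∈ G ↔ r ∉ A ∧ S.gap y t (T t) < (S.swap.cy t r).card := fun r => by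
    simp [hG, long, hA]
  have sG : G ⊆ univ \ A := fun r hr => mem_sdiff.2 ⟨mem_univ _, ((mG r).1 hr).1⟩
  have clG : ∀ r r', S.swap.Rch t r 0 r' → r ∈ G → r' ∈ G := fun r r' a b =>
    (mG r').2 ⟨fun hh => ((mG r).1 b).1 (near_cy hh a.symm), cy_eq a ▸ ((mG r).1 b).2⟩
  obtain ⟨z, z1, z2⟩ := exists_mem_eq_sup (univ.filter (fun r => S.RchL t y (T t) r))
    ⟨S.lf (S.eR s y), mem_filter.2 ⟨mem_univ _, _, rfl, by rwa [S.col_eR],
      by rw [S.rt_eR]; exact Rch.refl _⟩⟩ (fun r => (S.swap.cy t r).card)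
  have z3 : S.gap y t (T t) = (S.swap.cy t z).card := by
    rw [← z2]; unfold gap; congr
  have z4 : 0 < (S.swap.cy t z).card := card_pos.2 ⟨z, mem_cy.2 (Rch.refl 0)⟩
  obtain ⟨n1, n2, m1, m2, m3⟩ := admM tri hsu hs hu (con t) hn hx (mem_filter.1 z1).2
  rw [← hA] at m3
  have c1 := card_sdiff_add_card_eq_card (subset_univ A)
  have c2 := card_sdiff_add_card_eq_card sG
  rw [card_univ] at c1
  have key : ∀ n : ℤ, S.Adm x y t (T t) u s n → (T s : ℤ) < G.card + n := by
    intro n hn'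
    by_contra hc
    have a1 : S.Adm x y t (T t) s u (min (T u) n1) := by
      rcases le_total (T u : ℤ) n1 with h | h
      · rwa [min_eq_left h]
      · rwa [min_eq_right h]
    have a2 : S.Adm x y t (T t) u s (min n n2) := by
      rcases le_total n n2 with h | h
      · rwa [min_eq_left h]
      · rwa [min_eq_right h]
    obtain ⟨Z, b1, b2, b3, b4⟩ := gapfill (S := S.swap) (t := t) (Z := (univ \ A) \ G)
      (fun r hr r' h => mem_sdiff.2 ⟨mem_sdiff.2 ⟨mem_univ _, fun hh =>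
        (mem_sdiff.1 (mem_sdiff.1 hr).1).2 (near_cy hh h.symm)⟩,
        fun hh => (mem_sdiff.1 hr).2 (clG _ _ h.symm hh)⟩) (g := S.gap y t (T t))
      (fun r hr => not_lt.1 (fun hh => (mem_sdiff.1 hr).2
        ((mG r).2 ⟨(mem_sdiff.1 (mem_sdiff.1 hr).1).2, hh⟩)))
      (lo := ((univ \ A).card : ℤ) + min n n2 - T s) (hi := (T u : ℤ) - min (T u : ℤ) n1) (by omega) (by omega)
      (by omega) (by omega)
    have c3 := card_sdiff_add_card_eq_card (b1.trans sdiff_subset)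
    exact no (win tri hsu hs hu (con t) hL hR na hx a1 a2 b2
      (fun r hr => (mem_sdiff.1 (mem_sdiff.1 (b1 hr)).1).2) (by omega) (by rw [← hA]; omega))
  have k1 := key _ h2
  obtain ⟨n, g1, g2⟩ := admG tri hsu hs hu sim (con s) hn hx
  have k2 := key _ g1
  rw [← hA] at g2
  have c4 := card_le_card sG
  obtain ⟨r, hr⟩ : G.Nonempty := card_pos.1 (by omega)
  refine ⟨(two_le_cy (S := S.swap) hs hu hsu (fun e e' a b => sim e e' b a) r).trans
    (card_le_card (fun r' h => clG _ _ (mem_cy.1 h) hr)), by omega⟩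

end Sys

end Pool.Agent.Lib.MP_cc2426_co
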