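import Pool.Agent.Lib.MP_cc2426_co.Zone
import Pool.Agent.Lib.MP_cc2426_co.Fail
import Pool.Agent.Lib.MP_cc2426_co.Bridge

/-! The short exit from a perfect matching without the deficient colour. -/

set_option autoImplicit false
set_option linter.unusedSectionVars false

namespace Pool.Agent.Lib.MP_cc2426_co

open Finset

variable {E L R K : Type*} [DecidableEq E] [DecidableEq L] [DecidableEq R] [DecidableEq K]
  [Fintype L] [Fintype R]

namespace Sys

variable {S : Sys E L R K} {s u t : K} {x : L} {y : R}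

/-- play the edges of `P` at the uncovered row until something stops the play. -/
theorem play2 {P : Finset E} (hP : S.Av x y P) {I D : Finset E → Prop}
    (st : ∀ N h g, S.Av x y N → N.card + 1 = P.card → I N → h ∈ P → S.FrL N (S.lf h) → g ∈ N →
      g ∉ P → S.rt h = S.rt g → I (insert h (N.erase g)) ∨ D N)
    {N : Finset E} (a : S.Av x y N) (c : N.card + 1 = P.card) (i : I N) :
    ∃ Z, S.Ch x y I N Z ∧ (D Z ∨ ∃ Q, Z ⊆ Q ∧ S.Av x y Q ∧ Q.card = P.card) := by
  induction hk : (P \ N).card using Nat.strong_induction_on generalizing N with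
  | _ k ih =>
    obtain ⟨h, h1, h2⟩ : ∃ h ∈ P, S.FrL N (S.lf h) := by
      by_contra hh
      have sub : P.image S.lf ⊆ N.image S.lf := by
        intro z hz
        obtain ⟨e, he, rfl⟩ := mem_image.1 hz
        by_contra q
        exact hh ⟨e, he, fun f hf q' => q (mem_image.2 ⟨f, hf, q'⟩)⟩
      have := card_le_card sub
      rw [card_image_of_injOn (fun e he f hf q => hP.1.l e he f hf q)] at this
      have := card_image_le (s := N) (f := S.lf)
      omega
    have hn : h ∉ N := fun q => h2 h q rfl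
    by_cases h3 : S.FrR N (S.rt h)
    · refine ⟨N, Relation.ReflTransGen.refl, Or.inr ⟨insert h N, subset_insert _ _,
        ⟨a.1.insert h2 h3, fun e he => ?_⟩, by rw [card_insert_of_notMem hn, c]⟩⟩
      rcases mem_insert.1 he with rfl | he
      · exact hP.2 _ h1
      · exact a.2 e he
    · obtain ⟨g, g1, g2⟩ : ∃ g ∈ N, S.rt g = S.rt h := by
        by_contra q
        exact h3 (fun g g1 g2 => q ⟨g, g1, g2⟩)
      have g3 : g ∉ P := fun q => hn (hP.1.r g q h h1 g2 ▸ g1)
      have mv := a.mvL (hP.2 h h1).1 h2 g1 g2.symm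
      rcases st N h g a c i h1 h2 g1 g3 g2.symm with i' | i'
      · have lt : (P \ insert h (N.erase g)).card < k := by
          rw [← hk]
          apply card_lt_card
          refine ⟨fun e he => ?_, fun q => ?_⟩
          · obtain ⟨e1, e2⟩ := mem_sdiff.1 he
            exact mem_sdiff.2 ⟨e1, fun e3 => e2 (mem_insert_of_mem
              (mem_erase.2 ⟨fun q => g3 (q ▸ e1), e3⟩))⟩
          · exact (mem_sdiff.1 (q (mem_sdiff.2 ⟨h1, hn⟩))).2 (mem_insert_self _ _)
        obtain ⟨Z, r⟩ := ih _ lt mv.1 (by rw [mv.2.1, c]) i' rfl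
        exact ⟨Z, Relation.ReflTransGen.head ⟨⟨a, h, g, g1, rfl,
          Or.inl ⟨(hP.2 h h1).1, h2, g2.symm⟩⟩, i, i'⟩ r.1, r.2⟩
      · exact ⟨N, Relation.ReflTransGen.refl, Or.inl i'⟩

theorem cover_card {P : Finset E} (h : S.Av x y P) (c : ∀ q, q ≠ y → ∃ e ∈ P, S.rt e = q) :
    P.card + 1 = Fintype.card R := by
  have e : P.image S.rt = univ.erase y := by
    ext q
    simp only [mem_image, mem_erase, mem_univ, and_true]
    exact ⟨fun ⟨e, a, b⟩ => b ▸ (h.2 e a).2, c q⟩
  rw [← card_image_of_injOn (fun e he f hf hh => h.1.r e he f hf hh), e,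
    card_erase_add_one (mem_univ y), card_univ]

theorem exit0 (tri : ∀ k, k = s ∨ k = u ∨ k = t) (hsu : s ≠ u) (hs : s ≠ t) (hu : u ≠ t)
    (sim : ∀ e e', S.lf e = S.lf e' → S.rt e = S.rt e' → e = e')
    (con : ∀ q0 q, ∃ i, S.Rch u q0 i q) (hn : Fintype.card L = Fintype.card R)
    (na : ∀ e, S.lf e = x → S.rt e ≠ y) {τ : ℤ} {ρ : ℕ} (hρ : τ ≤ 2 * ρ + 1)
    (big : ∀ P, S.Av x y P → P.card + 1 = Fintype.card R → τ ≤ S.vec P t) {M : Finset E}
    (hM : ∀ e, e ∈ M ↔ S.col e = s) :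
    ∃ M1 Z1 P, S.Low x y u ρ (S.cut x y M) M1 ∧ S.High x y t τ M1 Z1 ∧ Z1 ⊆ P ∧ S.Av x y P ∧
      P.card + 1 = Fintype.card R := by
  classical
  have tri' : ∀ k, k = s ∨ k = t ∨ k = u := fun k => by have := tri k; tauto
  have pM : S.Pure u M := ⟨⟨fun e a f b c => S.eq_of_lf c (((hM e).1 a).trans ((hM f).1 b).symm),
    fun e a f b c => S.eq_of_rt c (((hM e).1 a).trans ((hM f).1 b).symm)⟩,
    fun e a => (hM e).1 a ▸ hsu, fun r => ⟨_, (hM _).2 (S.col_eL _ _), S.lf_eL _ r⟩,
    fun q => ⟨_, (hM _).2 (S.col_eR _ _), S.rt_eR _ q⟩⟩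
  by_cases hx : S.RchL u y ρ x
  · obtain ⟨P, p1, p2, p3⟩ := minhub (x := x) tri' hsu hu.symm hx
    have c := card_cut pM na
    obtain ⟨Z, z1, z2⟩ := play2 p1 (I := fun N => ∀ e ∈ N, S.col e = u → e ∈ P)
      (D := fun _ => False) (fun N h g _ _ i h1 _ _ _ _ => Or.inl (fun e he hc =>
        (mem_insert.1 he).elim (fun hh => hh ▸ h1) (fun hh => i e (mem_erase.1 hh).2 hc)))
      pM.av (by omega) (fun e he hc => absurd hc (pM.2.1 e (mem_filter.1 he).1))
    obtain ⟨Q, q1, q2, q3⟩ := z2.resolve_left id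
    exact ⟨Z, Z, Q, Ch.mono (Q' := fun N => S.vec N u ≤ ρ) (fun N h => (vec_le h).trans p3) z1,
      Relation.ReflTransGen.refl, q1, q2, by omega⟩
  set A := S.ball u (S.cy u y) ρ with hA
  have mA : ∀ r, r ∈ A ↔ S.RchL u y ρ r := fun r => by
    rw [hA, mem_ball]
    refine ⟨fun ⟨q, a, e, b, c, d⟩ => ⟨e, b, c, ?_⟩, fun h => ⟨y, mem_cy.2 (Rch.refl 0), h⟩⟩
    have := (mem_cy.1 a).trans d
    rwa [zero_add] at this
  have xA : x ∉ A := fun h => hx ((mA x).1 h)
  have cA : 2 * ρ + 2 ≤ A.card := by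
    have h1 := grow (S := S) (t := u) hsu hu.symm hs sim con (Z := S.cy u y)
      ⟨y, mem_cy.2 (Rch.refl 0)⟩ (i := ρ) (fun h => xA (hA ▸ h ▸ mem_univ x))
    have h2 := two_le_cy (S := S) (t := u) hsu hu.symm hs sim y
    rw [← hA] at h1
    omega
  have F1 : ∀ e, S.col e ≠ u → (S.lf e ∈ A ↔ S.Rch u y ρ (S.rt e)) := fun e h => by
    rw [mA]
    exact ⟨fun a => a.flat h, fun a => a.row h⟩
  have pM' : S.Pure u (S.colr s t A) := pure_colr tri' hsu hu.symm (fun r hr r' h =>
    (mA _).2 (((mA _).1 hr).cy h))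
  have low := flip tri' hsu hu.symm hs hx pM pM' (fun e a b => Or.inl (by
    refine (F1 e (pM.2.1 e a)).1 ?_
    by_contra h
    exact b (mem_colr.2 (by rw [if_neg h]; exact (hM e).1 a))))
  have c := card_cut pM' na
  obtain ⟨j, hj⟩ := con y (S.rt (S.eL s x))
  obtain ⟨P', p1, p2, -⟩ := minhub (S := S) (x := x) (y := y) (j := j) tri' hsu hu.symm
    ⟨_, S.lf_eL _ _, by rwa [S.col_eL], hj⟩
  have vJ : ∀ N : Finset E, (∀ e, S.lf e ∈ A → (e ∈ N ↔ S.col e = t ∧ S.rt e ≠ y)) →
      τ ≤ S.vec N t := by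
    intro N J
    have h1 : (A.erase (S.lf (S.eR t y))).card ≤ (N.filter (fun e => S.col e = t)).card := by
      refine card_le_card_of_injOn (S.eL t) (fun r hr => ?_) (fun r _ r' _ h => by
        rw [← S.lf_eL t r, h, S.lf_eL])
      obtain ⟨r1, r2⟩ := mem_erase.1 (mem_coe.1 hr)
      refine mem_coe.2 (mem_filter.2 ⟨(J _ (by rwa [S.lf_eL])).2 ⟨S.col_eL _ _, fun h => r1 ?_⟩,
        S.col_eL _ _⟩)
      rw [← h, eR_rt (S.col_eL _ _), S.lf_eL]
    have h2 := pred_card_le_card_erase (s := A) (a := S.lf (S.eR t y))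
    rw [vec_apply]
    omega
  obtain ⟨Z, z1, z2⟩ := play2 (S := S.swap) p1.swap
    (I := fun N => ∀ e, S.lf e ∈ A → (e ∈ N ↔ S.col e = t ∧ S.rt e ≠ y))
    (D := fun N => ∃ Z Q, S.High x y t τ N Z ∧ Z ⊆ Q ∧ S.Av x y Q ∧ Q.card + 1 = Fintype.card R)
    (N := S.cut x y (S.colr s t A)) (by
      intro N h g a cN J h1 h2 g1 g3 g2
      have a : S.Av x y N := a.unswap
      have h2 : S.FrR N (S.rt h) := h2
      have g2 : S.lf h = S.lf g := g2
      by_cases gA : S.lf g ∈ A
      swap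
      · refine Or.inl (fun e he => ?_)
        rw [← J e he, mem_insert, mem_erase]
        have n1 : e ≠ h := fun hh => gA (g2 ▸ hh ▸ he)
        have n2 : e ≠ g := fun hh => gA (hh ▸ he)
        tauto
      right
      have m0 : ∀ e, S.col e = s → ¬ S.Rch u y ρ (S.rt e) → e ∈ M.erase (S.eR s y) :=
        fun e b d => mem_erase.2 ⟨fun hh => d (by rw [hh, S.rt_eR]; exact Rch.refl _), (hM e).2 b⟩
      have m1 : ∀ e ∈ M.erase (S.eR s y), S.rt e ≠ y := fun e he hh => (mem_erase.1 he).1 (by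
        rw [← hh, eR_rt ((hM e).1 (mem_erase.1 he).2)])
      have m2 : ∀ q, q ≠ y → ∃ e ∈ M.erase (S.eR s y), S.rt e = q := fun q hq =>
        ⟨S.eR s q, mem_erase.2 ⟨fun hh => hq (by rw [← S.rt_eR s q, hh, S.rt_eR]),
          (hM _).2 (S.col_eR _ _)⟩, S.rt_eR _ _⟩
      obtain ⟨N', ⟨n1, n2, n3⟩, n4, -, n5⟩ := reach (S := S) (y := y) tri' hsu hu.symm (i1 := ρ)
        (N0 := M.erase (S.eR s y))
        (I := fun N => S.IsM N ∧ (∀ e ∈ N, S.rt e ≠ y) ∧ ∀ q, q ≠ y → ∃ e ∈ N, S.rt e = q)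
        (fun _ h => h.1) (by
          rintro N f g ⟨a1, a2, a3⟩ b1 b2 b3 - - -
          refine ⟨(mv0 a1 b1 b2 b3).1, fun e he => ?_, fun q hq => ?_⟩
          · rcases mem_insert.1 he with rfl | he
            · rw [b3]; exact a2 g b2
            · exact a2 e (mem_erase.1 he).2
          · obtain ⟨e, e1, e2⟩ := a3 q hq
            by_cases eg : e = g
            · exact ⟨f, mem_insert_self _ _, by rw [b3, ← eg, e2]⟩
            · exact ⟨e, mem_insert_of_mem (mem_erase.2 ⟨eg, e1⟩), e2⟩)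
        ⟨pM.1.mono (erase_subset _ _), m1, m2⟩ (fun e he => pM.2.1 e (mem_erase.1 he).2)
        (e0 := S.eR s y) (S.rt_eR _ _) (by rwa [S.col_eR])
        (fun e he hh => (mem_erase.1 he).1 (S.eq_of_lf hh (by
          rw [(hM e).1 (mem_erase.1 he).2, S.col_eR])))
        (fun q _ b => m2 q b) ρ le_rfl (S.lf g) ((mA _).1 gA)
      have tN : ∀ q, S.Rch u y ρ q → q ≠ y → S.eR t q ∈ N ∧ S.lf (S.eR t q) ∈ A := fun q b d => by
        have := (F1 (S.eR t q) (by rw [S.col_eR]; exact hu.symm)).2 (by rwa [S.rt_eR])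
        exact ⟨(J _ this).2 ⟨S.col_eR _ _, by rwa [S.rt_eR]⟩, this⟩
      have F2 : ¬ S.Rch u y ρ (S.rt h) := fun b =>
        h2 _ (tN _ b (p1.2 h h1).2).1 (S.rt_eR _ _)
      have F3 : ∀ e ∈ N, S.lf e ∉ A → ¬ S.Rch u y ρ (S.rt e) := fun e he b d => by
        have := tN _ d (a.2 e he).2
        rw [a.1.r _ this.1 e he (S.rt_eR _ _)] at this
        exact b this.2
      have F4 : ∀ e ∈ N', S.lf e ∈ A → S.Rch u y ρ (S.rt e) := fun e he b => by
        by_contra d
        have d' : ¬ S.Rch u y ρ (S.rt (S.eR s (S.rt e))) := by rwa [S.rt_eR]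
        have := n1.r _ (n5 _ (m0 _ (S.col_eR _ _) d') d') e he (S.rt_eR _ _)
        exact d ((F1 e (by rw [← this, S.col_eR]; exact hsu)).1 b)
      have F5 : ∀ e ∈ N', S.Rch u y ρ (S.rt e) → S.lf e ∈ A := fun e he b => by
        by_contra d
        have d' : ¬ S.Rch u y ρ (S.rt (S.eL s (S.lf e))) := fun hh =>
          d (by simpa only [S.lf_eL] using (F1 _ (by rwa [S.col_eL])).2 hh)
        have := n1.l _ (n5 _ (m0 _ (S.col_eL _ _) d') d') e he (S.lf_eL _ _)
        exact d' (this.symm ▸ b)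
      have F6 : ∀ q, q ≠ y → q ≠ S.rt h → ∃ e ∈ N, S.rt e = q := fun q b d => by
        by_contra hh
        have := card_bound (S := S.swap) (A := N.image S.col) (FL := {y}) (FR := {x}) a.1.swap
          (fun e he => ⟨mem_image_of_mem _ he, notMem_singleton.2 (a.2 e he).2,
            notMem_singleton.2 (a.2 e he).1⟩) {q, S.rt h} (by
            intro z hz
            rcases mem_insert.1 hz with rfl | hz
            · exact ⟨by simpa using b, fun e he k => hh ⟨e, he, k⟩⟩
            · rw [mem_singleton.1 hz]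
              exact ⟨by simpa using (p1.2 h h1).2, h2⟩)
        rw [card_pair d, card_singleton] at this
        omega
      set P := insert h (N.filter (fun e => S.lf e ∉ A) ∪ N'.filter (fun e => S.lf e ∈ A)) with hP
      have aP : S.Av x y P := by
        refine ⟨IsM.insert ((a.1.mono (filter_subset _ _)).union (n1.mono (filter_subset _ _))
          (fun e he f hf => ?_)) (fun e he hh => ?_) (fun e he hh => ?_), fun e he => ?_⟩
        · obtain ⟨e1, e2⟩ := mem_filter.1 he
          obtain ⟨f1, f2⟩ := mem_filter.1 hf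
          exact ⟨fun hh => e2 (hh ▸ f2), fun hh => F3 e e1 e2 (hh ▸ F4 f f1 f2)⟩
        · rcases mem_union.1 he with he | he
          · exact (mem_filter.1 he).2 (by rw [hh, g2]; exact gA)
          · exact n4 e (mem_filter.1 he).1 (hh.trans g2)
        · rcases mem_union.1 he with he | he
          · exact h2 e (mem_filter.1 he).1 hh
          · exact F2 (hh ▸ F4 e (mem_filter.1 he).1 (mem_filter.1 he).2)
        · rcases mem_insert.1 he with rfl | he
          · exact p1.2 _ h1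
          rcases mem_union.1 he with he | he
          · exact a.2 e (mem_filter.1 he).1
          · exact ⟨fun hh => xA (hh ▸ (mem_filter.1 he).2), n2 e (mem_filter.1 he).1⟩
      have cP : P.card + 1 = Fintype.card R := cover_card aP (fun q hq => by
        by_cases b : S.Rch u y ρ q
        · obtain ⟨e, e1, e2⟩ := n3 q hq
          exact ⟨e, mem_insert_of_mem (mem_union_right _
            (mem_filter.2 ⟨e1, F5 e e1 (e2 ▸ b)⟩)), e2⟩
        by_cases d : q = S.rt h
        · exact ⟨h, mem_insert_self _ _, d.symm⟩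
        obtain ⟨e, e1, e2⟩ := F6 q hq d
        refine ⟨e, mem_insert_of_mem (mem_union_left _ (mem_filter.2 ⟨e1, fun k => b ?_⟩)), e2⟩
        rw [← e2]
        exact (F1 e (by rw [((J e k).1 e1).1]; exact hu.symm)).1 k)
      have mv : S.Mv x y N (insert h (N.erase g)) :=
        ⟨a, h, g, g1, rfl, Or.inr ⟨(p1.2 h h1).2, h2, g2⟩⟩
      have hi : ∀ N : Finset E, (∀ e ∈ P, S.col e = t → e ∈ N) → τ ≤ S.vec N t := fun N k =>
        (big P aP cP).trans (vec_le k)
      have i0 : ∀ e ∈ P, S.col e = t → e ∈ insert h (N.erase g) := fun e he k => by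
        rcases mem_insert.1 he with rfl | he
        · exact mem_insert_self _ _
        refine mem_insert_of_mem (mem_erase.2 ?_)
        rcases mem_union.1 he with he | he
        · exact ⟨fun hh => (mem_filter.1 he).2 (hh ▸ gA), (mem_filter.1 he).1⟩
        · exact ⟨fun hh => n4 e (mem_filter.1 he).1 (by rw [hh]),
            (J e (mem_filter.1 he).2).2 ⟨k, n2 e (mem_filter.1 he).1⟩⟩
      obtain ⟨Z, Q, r1, r2, r3, r4⟩ := play (t := t) (τ := τ) aP
        (I := fun N => ∀ e ∈ P, S.col e = t → e ∈ N) hi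
        (fun N h g _ _ i _ _ _ g3 _ e he k => mem_insert_of_mem
          (mem_erase.2 ⟨fun hh => g3 (hh ▸ he), i e he k⟩)) mv.av.1
        (by rw [mv.av.2]; omega) i0
      exact ⟨Z, Q, Relation.ReflTransGen.head ⟨mv, vJ N J, hi _ i0⟩ r1, r2, r3, by omega⟩)
    pM'.av.swap (by omega) (fun e he => by
      have nx : S.lf e ≠ x := fun hh => xA (hh ▸ he)
      simp only [cut, mem_filter, mem_colr, if_pos he]
      tauto)
  have z3 : S.High x y t τ _ Z := Ch.mono (Q' := fun N => τ ≤ S.vec N t) vJ z1.unswap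
  rcases z2 with ⟨Z', Q, r1, r2⟩ | ⟨Q, r1, r2, r3⟩
  · exact ⟨_, Z', Q, low, z3.trans r1, r2⟩
  · exact ⟨_, Z, Q, low, z3, r1, r2.unswap, by omega⟩

/-- exchange colours, row by row. -/
def recol (S : Sys E L R K) (a : L → Equiv.Perm K) (b : R → Equiv.Perm K)
    (h : ∀ e, a (S.lf e) (S.col e) = b (S.rt e) (S.col e)) : Sys E L R K where
  lf := S.lf
  rt := S.rt
  col e := a (S.lf e) (S.col e)
  eL c r := S.eL ((a r).symm c) r
  eR c q := S.eR ((b q).symm c) q
  lf_eL _ _ := S.lf_eL _ _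
  col_eL c r := by rw [S.lf_eL, S.col_eL, Equiv.apply_symm_apply]
  eL_eq e := by rw [Equiv.symm_apply_apply, S.eL_eq]
  rt_eR _ _ := S.rt_eR _ _
  col_eR c q := by rw [h, S.rt_eR, S.col_eR, Equiv.apply_symm_apply]
  eR_eq e := by rw [h, Equiv.symm_apply_apply, S.eR_eq]

theorem ex_recol (tri : ∀ k, k = s ∨ k = u ∨ k = t) (hsu : s ≠ u) (hs : s ≠ t) (hu : u ≠ t)
    {M : Finset E} (hM : S.Pure t M) : ∃ S2 : Sys E L R K, S2.lf = S.lf ∧ S2.rt = S.rt ∧
      (∀ e, S2.col e = t ↔ S.col e = t) ∧ ∀ e, e ∈ M ↔ S2.col e = s := by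
  have kL : ∀ e, S.col e = s → (S.eL u (S.lf e) ∈ M ↔ e ∉ M) := fun e c => by
    constructor
    · intro a b
      have := congrArg S.col (hM.1.l _ a _ b (S.lf_eL _ _))
      rw [S.col_eL, c] at this
      exact hsu this.symm
    · intro b
      obtain ⟨f, f1, f2⟩ := hM.2.2.1 (S.lf e)
      rcases tri (S.col f) with d | d | d
      · exact absurd (S.eq_of_lf f2 (d.trans c.symm) ▸ f1) b
      · rwa [← f2, eL_lf d]
      · exact absurd d (hM.2.1 f f1)
  have kR : ∀ e, S.col e = s → (S.eR u (S.rt e) ∈ M ↔ e ∉ M) := fun e c => by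
    constructor
    · intro a b
      have := congrArg S.col (hM.1.r _ a _ b (S.rt_eR _ _))
      rw [S.col_eR, c] at this
      exact hsu this.symm
    · intro b
      obtain ⟨f, f1, f2⟩ := hM.2.2.2 (S.rt e)
      rcases tri (S.col f) with d | d | d
      · exact absurd (S.eq_of_rt f2 (d.trans c.symm) ▸ f1) b
      · rwa [← f2, eR_rt d]
      · exact absurd d (hM.2.1 f f1)
  have sw : Equiv.swap s u t = t := Equiv.swap_apply_of_ne_of_ne hs.symm hu.symm
  refine ⟨S.recol (fun r => if S.eL u r ∈ M then Equiv.swap s u else 1)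
    (fun q => if S.eR u q ∈ M then Equiv.swap s u else 1) (fun e => ?_), rfl, rfl,
    fun e => ?_, fun e => ?_⟩
  · rcases tri (S.col e) with d | d | d
    · simp only [kL e d, kR e d]
    · simp only [eL_lf d, eR_rt d]
    · rw [d]
      split_ifs <;> simp [sw]
  · change (if S.eL u (S.lf e) ∈ M then Equiv.swap s u else 1) (S.col e) = t ↔ _
    split_ifs
    · rw [← Equiv.eq_symm_apply, Equiv.symm_swap, sw]
    · simp
  · change _ ↔ (if S.eL u (S.lf e) ∈ M then Equiv.swap s u else 1) (S.col e) = s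
    rcases tri (S.col e) with d | d | d
    · simp only [kL e d]
      by_cases b : e ∈ M <;> simp [b, d, hsu.symm]
    · simp only [eL_lf d]
      by_cases b : e ∈ M <;> simp [b, d, hsu.symm]
    · have b : e ∉ M := fun b => hM.2.1 e b d
      rw [d]
      split_ifs <;> simp [b, sw, hs.symm]

theorem con_all {S2 : Sys E L R K} (h1 : S2.lf = S.lf) (h2 : S2.rt = S.rt) (hsu : s ≠ u)
    (con : ∀ q, ∃ i, S.Rch t y i q) (q0 q : R) : ∃ i, S2.Rch u q0 i q := by
  refine Pick.reach_all hsu (fun A ⟨z, hz⟩ cl => ?_) q0 q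
  have key : ∀ e e', S2.lf e' = S2.lf e → S2.rt e ∈ A → S2.rt e' ∈ A := by
    intro e e' a b
    have inj : Function.Injective (fun q => S2.rt (S2.eL (S2.col e) (S2.lf (S2.eR s q)))) :=
      Function.LeftInverse.injective (nxt_nxt (S := S2) (s := s) (u := S2.col e))
    have im : A.image (fun q => S2.rt (S2.eL (S2.col e) (S2.lf (S2.eR s q)))) = A := by
      apply eq_of_subset_of_card_le
      · intro w hw
        obtain ⟨v, v1, rfl⟩ := mem_image.1 hw
        exact cl v v1 _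
      · rw [card_image_of_injective _ inj]
    rw [← im] at b
    obtain ⟨v, v1, v2⟩ := mem_image.1 b
    have e1 := S2.eq_of_rt v2 (S2.col_eL _ _)
    have e2 : S2.lf (S2.eR s v) = S2.lf e' := by rw [a, ← e1, S2.lf_eL]
    have := cl v v1 (S2.col e')
    rwa [e2, S2.eL_eq] at this
  rw [h1, h2] at key
  have all : ∀ i q, S.Rch t y i q → (y ∈ A ↔ q ∈ A) := by
    intro i q h
    induction h with
    | refl => exact Iff.rfl
    | flat e e' _ _ b _ ih => exact ih.trans ⟨key e e' b, key e' e b.symm⟩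
    | arc e e' _ _ b ih => exact ih.trans ⟨key e e' b, key e' e b.symm⟩
  obtain ⟨i, hi⟩ := con z
  refine eq_univ_of_forall (fun w => ?_)
  obtain ⟨j, hj⟩ := con w
  exact (all j w hj).1 ((all i z hi).2 hz)

theorem Av.tr {S2 : Sys E L R K} (h1 : S2.lf = S.lf) (h2 : S2.rt = S.rt) {N : Finset E}
    (h : S2.Av x y N) : S.Av x y N := by
  obtain ⟨⟨a, b⟩, c⟩ := h
  rw [h1] at a c
  rw [h2] at b c
  exact ⟨⟨a, b⟩, c⟩

theorem Mv.tr {S2 : Sys E L R K} (h1 : S2.lf = S.lf) (h2 : S2.rt = S.rt) {N N' : Finset E}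
    (h : S2.Mv x y N N') : S.Mv x y N N' := by
  obtain ⟨a, f, g, b, c, d⟩ := h
  unfold FrL FrR at d
  rw [h1, h2] at d
  exact ⟨a.tr h1 h2, f, g, b, c, d⟩

/-- every perfect matching has more than `τ` edges of a deficient colour. -/
theorem hub_big (hs : s ≠ t) (con : ∀ q, ∃ i, S.Rch t y i q)
    (hn : Fintype.card L = Fintype.card R) {τ : ℕ} (hx : ¬ S.RchL t y τ x) {P : Finset E}
    (hP : S.Av x y P) (c : P.card + 1 = Fintype.card R) : (τ : ℤ) < S.vec P t := by
  have := level_le hs (lamL := fun r => S.lev t y (S.rt (S.eL s r)))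
    (lamR := fun q => S.lev t y q) (fun e he => by rw [lev0 hs con e he])
    (fun e => by have := lev1 hs con e; omega) hP.1 (Z := {x}) (Z' := {y})
    (fun z hz e he => by rw [mem_singleton.1 hz]; exact (hP.2 e he).1)
    (fun z hz e he => by rw [mem_singleton.1 hz]; exact (hP.2 e he).2)
    (by rw [card_singleton]; omega) (by rw [card_singleton]; omega)
  rw [sum_singleton, sum_singleton] at this
  have := (rowlev hs con).not.1 hx
  have := lev_le (S := S) (t := t) (Rch.refl (q0 := y) 0)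
  omega

/-- the short exit. -/
theorem exit (tri : ∀ k, k = s ∨ k = u ∨ k = t) (hsu : s ≠ u) (hs : s ≠ t) (hu : u ≠ t)
    (sim : ∀ e e', S.lf e = S.lf e' → S.rt e = S.rt e' → e = e')
    (con : ∀ q, ∃ i, S.Rch t y i q) (hn : Fintype.card L = Fintype.card R)
    (na : ∀ e, S.lf e = x → S.rt e ≠ y) {τ : ℕ} (hx : ¬ S.RchL t y τ x) {M : Finset E}
    (hM : S.Pure t M) {o : K} (ho : o ≠ t) {n : ℤ}
    (b : S.vec (S.cut x y M) o + (τ / 2 : ℕ) ≤ n) :
    ∃ M1 Z1 P, S.Low x y o n (S.cut x y M) M1 ∧ S.High x y t τ M1 Z1 ∧ Z1 ⊆ P ∧ S.Av x y P ∧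
      P.card + 1 = Fintype.card R := by
  obtain ⟨S2, h1, h2, h3, h4⟩ := ex_recol tri hsu hs hu hM
  have vt : ∀ N : Finset E, S2.vec N t = S.vec N t := fun N => by
    rw [vec_apply, vec_apply, filter_congr (fun e _ => h3 e)]
  have vo : ∀ N : Finset E, S.Av x y N → S2.vec N u ≤ (τ / 2 : ℕ) → S.vec N o ≤ n := by
    intro N a c
    have : (N.filter (fun e => S.col e = o)).card ≤
        ((S.cut x y M).filter (fun e => S.col e = o)).card +
          (N.filter (fun e => S2.col e = u)).card := by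
      refine (card_le_card (fun e he => ?_)).trans (card_union_le _ _)
      obtain ⟨e1, e2⟩ := mem_filter.1 he
      rcases tri (S2.col e) with d | d | d
      · exact mem_union_left _ (mem_filter.2 ⟨mem_filter.2 ⟨(h4 e).2 d, a.2 e e1⟩, e2⟩)
      · exact mem_union_right _ (mem_filter.2 ⟨e1, d⟩)
      · exact absurd (e2.symm.trans ((h3 e).1 d)) ho
    rw [vec_apply] at b c ⊢
    omega
  obtain ⟨M1, Z1, P, a1, a2, a3, a4, a5⟩ := exit0 (S := S2) (x := x) (y := y) tri hsu hs hu
    (by rw [h1, h2]; exact sim) (con_all h1 h2 hsu con) hn (by rw [h1, h2]; exact na)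
    (τ := τ) (ρ := τ / 2) (by omega)
    (fun P p c => by rw [vt]; exact (hub_big hs con hn hx (p.tr h1 h2) c).le) h4
  have ec : S2.cut x y M = S.cut x y M := by unfold cut; rw [h1, h2]
  rw [ec] at a1
  refine ⟨M1, Z1, P, ?_, ?_, a3, a4.tr h1 h2, a5⟩
  · clear a2
    induction a1 with
    | refl => exact Relation.ReflTransGen.refl
    | tail _ d ih =>
      have m := d.1.tr h1 h2
      exact Relation.ReflTransGen.tail ih ⟨m, vo _ m.1 d.2.1, vo _ m.av.1 d.2.2⟩
  · clear a3 a1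
    induction a2 with
    | refl => exact Relation.ReflTransGen.refl
    | tail _ d ih => exact Relation.ReflTransGen.tail ih ⟨d.1.tr h1 h2, vt _ ▸ d.2.1, vt _ ▸ d.2.2⟩

end Sys

end Pool.Agent.Lib.MP_cc2426_co
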