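import Pool.Agent.Lib.MP_cc2426_co.Jay
import Pool.Agent.Lib.MP_cc2426_co.Sub

/-! Two components inside a larger system. -/

set_option autoImplicit false
set_option linter.unusedSectionVars false

namespace Pool.Agent.Lib.MP_cc2426_co

open Finset

variable {E L R K : Type*} [DecidableEq E] [DecidableEq L] [DecidableEq R] [DecidableEq K]
  [Fintype L] [Fintype R]

namespace Sys

variable {S : Sys E L R K} {s u t : K} {x : L} {y : R}

/-- the columns met by a set of rows in colour `k`. -/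
def cols (S : Sys E L R K) (k : K) (C : Finset L) : Finset R := C.image (fun r => S.rt (S.eL k r))

theorem mem_cols {C : Finset L} (cl : ∀ e e', S.rt e = S.rt e' → S.lf e ∈ C → S.lf e' ∈ C) (k : K)
    (e : E) : S.lf e ∈ C ↔ S.rt e ∈ S.cols k C := by
  constructor
  · intro h
    refine mem_image.2 ⟨S.lf (S.eR k (S.rt e)), cl e _ (S.rt_eR _ _).symm h, ?_⟩
    rw [eL_lf (S.col_eR _ _), S.rt_eR]
  · intro h
    obtain ⟨r, hr, h⟩ := mem_image.1 h
    exact cl _ e h (by rwa [S.lf_eL])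

theorem card_cols (k : K) (C : Finset L) : (S.cols k C).card = C.card :=
  card_image_of_injective _ (fun r r' h => by
    have := S.eq_of_rt h ((S.col_eL _ _).trans (S.col_eL _ _).symm)
    rw [← S.lf_eL k r, this, S.lf_eL])

theorem card_sub {C A : Finset L} (h : A ⊆ C) : (A.subtype (fun r => r ∈ C)).card = A.card := by
  rw [card_subtype, filter_eq_self.2 (fun r hr => h hr)]

theorem good_sub {p : E → Prop} {C : Finset L} {D : Finset R} {hL : ∀ e, p e ↔ S.lf e ∈ C}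
    {hR : ∀ e, p e ↔ S.rt e ∈ D} {A : Finset L} (hA : A ⊆ C) {β X : ℕ} {x : {r // r ∈ C}}
    (h : S.Good A t β X x.1) : (S.sub p hL hR).Good (A.subtype (fun r => r ∈ C)) t β X x := by
  obtain ⟨z, z1, z2, G, g1, g2, g3, g4⟩ := h
  refine ⟨⟨z, hA z1⟩, mem_subtype.2 z1, rch_sub'.2 z2, G.subtype _,
    fun r hr => mem_subtype.2 (g1 (mem_subtype.1 hr)),
    fun r hr r' a => mem_subtype.2 (g2 _ (mem_subtype.1 hr) _ (rch_sub'.1 a)),
    by rwa [card_sub (g1.trans hA)], fun r a b => ?_⟩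
  rw [card_cy_sub', card_cy_sub']
  exact g4 _ (mem_subtype.1 a) (fun c => b (mem_subtype.2 c))

theorem jayW (tri : ∀ k, k = s ∨ k = u ∨ k = t) (hsu : s ≠ u) (hs : s ≠ t) (hu : u ≠ t)
    (sim : ∀ e e', S.lf e = S.lf e' → S.rt e = S.rt e' → e = e') {A B : Finset L}
    (cA : ∀ e e', S.rt e = S.rt e' → S.lf e ∈ A → S.lf e' ∈ A)
    (cB : ∀ e e', S.rt e = S.rt e' → S.lf e ∈ B → S.lf e' ∈ B) (dj : Disjoint A B) (hx : x ∈ A)
    (conA : ∀ k, ∀ r ∈ A, ∀ r' ∈ A, ∃ i, S.swap.Rch k r i r')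
    (conB : ∀ k, ∀ r ∈ B, ∀ r' ∈ B, ∃ i, S.swap.Rch k r i r')
    (hy : ∀ e, S.rt e = y → S.lf e ∈ B) {T : K → ℕ}
    (hA : T s + T u + T t + 2 = A.card) (tu : T t ≤ T u) (us : T u ≤ T s)
    (gd : S.Good A t (T t) (T s - T t / 2) x) (big : T t < B.card) {j : K} (hj : j ≠ t) :
    ∃ N, S.Av x y N ∧ (∀ e ∈ N, S.lf e ∈ A ∪ B) ∧
      ∀ k, S.vec N k = T k + if k = j then (B.card : ℤ) else 0 := by
  classical
  have cC : ∀ e e', S.rt e = S.rt e' → S.lf e ∈ A ∪ B → S.lf e' ∈ A ∪ B := fun e e' a b =>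
    (mem_union.1 b).elim (fun c => mem_union_left _ (cA e e' a c))
      (fun c => mem_union_right _ (cB e e' a c))
  have hR := mem_cols cC s
  have hL : ∀ e, S.lf e ∈ A ∪ B ↔ S.lf e ∈ A ∪ B := fun _ => Iff.rfl
  have yD : y ∈ S.cols s (A ∪ B) := by
    have := (hR (S.eR s y)).1 (mem_union_right _ (hy _ (S.rt_eR _ _)))
    rwa [S.rt_eR] at this
  have sA : A ⊆ A ∪ B := subset_union_left
  have c1 := card_sub sA
  have c2 := card_add_card_compl (A.subtype (fun r => r ∈ A ∪ B))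
  rw [Fintype.card_coe, card_union_of_disjoint dj] at c2
  have c3 : (A.subtype (fun r => r ∈ A ∪ B))ᶜ.card = B.card := by omega
  have w := jay (S := S.sub _ hL hR) (x := ⟨x, sA hx⟩) (y := ⟨y, yD⟩) tri hsu hs hu (sim_sub sim)
    (by rw [Fintype.card_coe, Fintype.card_coe, card_cols]) (A := A.subtype _)
    (fun e e' a b => mem_subtype.2 (cA e.1 e'.1 (congrArg Subtype.val a) (mem_subtype.1 b)))
    (mem_subtype.2 hx)
    (fun k r hr => (conA k x hx r.1 (mem_subtype.1 hr)).imp (fun _ h => rch_sub'.2 h))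
    (fun e a b => disjoint_left.1 dj (mem_subtype.1 b) (hy e.1 (congrArg Subtype.val a)))
    (fun k r hr => by
      have rB : r.1 ∈ B := (mem_union.1 r.2).resolve_left (fun c => hr (mem_subtype.2 c))
      obtain ⟨c, hc⟩ : ∃ c, c ≠ k := by
        by_cases h : s = k
        · exact ⟨u, fun a => hsu (h.trans a.symm)⟩
        · exact ⟨s, h⟩
      obtain ⟨i, hi⟩ := conB k r.1 rB _ (hy _ (S.rt_eR c y))
      have := dual (S := S) (y := y) (i := 0) hi
        ⟨S.eR c y, rfl, by rwa [S.col_eR], by rw [S.rt_eR]; exact Rch.refl 0⟩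
      exact ⟨_, rchL_sub.2 this⟩)
    (T := T) (by omega) tu us (good_sub sA gd) (by omega) (j := j)
    (by rcases tri j with h | h | h
        · exact Or.inl h
        · exact Or.inr h
        · exact absurd h hj)
  obtain ⟨N, n1, n2, n3⟩ := rl_up w
  refine ⟨N, n1, fun e he => (n2 e he).1, fun k => ?_⟩
  rw [n3 k, c3]
  split_ifs <;> simp

/-- a statement for connected systems holds inside a component. -/
theorem subW {A : Finset L} (cA : ∀ e e', S.rt e = S.rt e' → S.lf e ∈ A → S.lf e' ∈ A)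
    (hx : x ∈ A) (yD : y ∈ S.cols s A) {T : K → ℕ}
    (h : (S.sub _ (fun _ => Iff.rfl) (mem_cols cA s)).Rl ⟨x, hx⟩ ⟨y, yD⟩ T) :
    ∃ N, S.Av x y N ∧ (∀ e ∈ N, S.lf e ∈ A) ∧ ∀ k, S.vec N k = T k := by
  obtain ⟨N, n1, n2, n3⟩ := rl_up h
  exact ⟨N, n1, fun e he => (n2 e he).1, n3⟩

end Sys

end Pool.Agent.Lib.MP_cc2426_co
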