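import Pool.Agent.Lib.MP_cc2426_co.Fail

/-! Matchings of a closed set of rows with one row deleted: paths of colour vectors. -/

set_option autoImplicit false
set_option linter.unusedSectionVars false

namespace Pool.Agent.Lib.MP_cc2426_co

open Finset

variable {E L R K : Type*} [DecidableEq E] [DecidableEq L] [DecidableEq R] [DecidableEq K]
  [Fintype L] [Fintype R]

namespace Sys

/-- row sets closed under all colours. -/
def Cl (S : Sys E L R K) (A : Finset L) : Prop :=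
  ∀ e e', S.rt e = S.rt e' → S.lf e ∈ A → S.lf e' ∈ A

/-- matchings covering exactly the rows of `A` other than `x`. -/
def Rt (S : Sys E L R K) (x : L) (A : Finset L) (N : Finset E) : Prop :=
  S.IsM N ∧ (∀ e ∈ N, S.lf e ∈ A ∧ S.lf e ≠ x) ∧ N.card + 1 = A.card

/-- the colour vectors differ by a unit step. -/
def Us (S : Sys E L R K) (N N' : Finset E) : Prop :=
  ∃ c c', ∀ k, S.vec N' k + dl c k = S.vec N k + dl c' k

/-- chains of rooted matchings with unit steps. -/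
def Cp (S : Sys E L R K) (x : L) (A : Finset L) (Q : Finset E → Prop) :
    Finset E → Finset E → Prop :=
  Relation.ReflTransGen (fun N N' => S.Us N N' ∧ (S.Rt x A N ∧ Q N) ∧ S.Rt x A N' ∧ Q N')

/-- colour `u` on `Z`, colour `s` elsewhere, on the rows of `A` other than `x`. -/
def rb (S : Sys E L R K) (x : L) (A : Finset L) (s u : K) (Z : Finset L) : Finset E :=
  (A.erase x).image (fun r => S.eL (if r ∈ Z then u else s) r)

variable {S : Sys E L R K} {s u t : K} {x : L} {y : R} {A : Finset L}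

theorem Us.symm {N N' : Finset E} (h : S.Us N N') : S.Us N' N := by
  obtain ⟨c, c', h⟩ := h
  exact ⟨c', c, fun k => (h k).symm⟩

theorem Us.le {N N' : Finset E} (h : S.Us N N') (k : K) : S.vec N' k ≤ S.vec N k + 1 := by
  obtain ⟨c, c', h⟩ := h
  have := h k
  have := dl_nn c k
  have := dl_le c' k
  omega

theorem Cp.symm {Q : Finset E → Prop} {N N' : Finset E} (h : S.Cp x A Q N N') :
    S.Cp x A Q N' N := by
  induction h with
  | refl => exact Relation.ReflTransGen.refl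
  | tail _ a ih => exact Relation.ReflTransGen.head ⟨a.1.symm, a.2.2, a.2.1⟩ ih

theorem Cp.mono {Q Q' : Finset E → Prop} (hq : ∀ N, S.Rt x A N → Q N → Q' N) {N N' : Finset E}
    (h : S.Cp x A Q N N') : S.Cp x A Q' N N' := by
  induction h with
  | refl => exact Relation.ReflTransGen.refl
  | tail _ a ih =>
    exact Relation.ReflTransGen.tail ih
      ⟨a.1, ⟨a.2.1.1, hq _ a.2.1.1 a.2.1.2⟩, a.2.2.1, hq _ a.2.2.1 a.2.2.2⟩

theorem Cp.last {Q : Finset E → Prop} {N N' : Finset E} (h : S.Cp x A Q N N')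
    (a : S.Rt x A N ∧ Q N) : S.Rt x A N' ∧ Q N' := by
  cases h with
  | refl => exact a
  | tail _ b => exact b.2.2

/-- the first state with `d` edges of colour `k`. -/
theorem Cp.ivt {Q : Finset E → Prop} {N N' : Finset E} (h : S.Cp x A Q N N') (a : S.Rt x A N)
    (q : Q N) {k : K} {d : ℤ} (h1 : S.vec N k ≤ d) (h2 : d ≤ S.vec N' k) :
    ∃ M, S.Cp x A (fun M => Q M ∧ S.vec M k ≤ d) N M ∧ S.Rt x A M ∧ Q M ∧ S.vec M k = d := by
  have key : (∃ M, S.Cp x A (fun M => Q M ∧ S.vec M k ≤ d) N M ∧ S.Rt x A M ∧ Q M ∧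
      S.vec M k = d) ∨ (S.Cp x A (fun M => Q M ∧ S.vec M k ≤ d) N N' ∧ S.vec N' k < d) := by
    clear h2
    induction h with
    | refl =>
      rcases h1.lt_or_eq with c | c
      · exact Or.inr ⟨Relation.ReflTransGen.refl, c⟩
      · exact Or.inl ⟨N, Relation.ReflTransGen.refl, a, q, c⟩
    | @tail M M' _ b ih =>
      rcases ih with ih | ⟨i1, i2⟩
      · exact Or.inl ih
      have c0 := b.1.le k
      have c1 : S.vec M' k ≤ d := by omega
      have c2 : S.Cp x A (fun M => Q M ∧ S.vec M k ≤ d) N M' :=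
        Relation.ReflTransGen.tail i1 ⟨b.1, ⟨b.2.1.1, b.2.1.2, i2.le⟩, b.2.2.1, b.2.2.2, c1⟩
      rcases c1.lt_or_eq with c | c
      · exact Or.inr ⟨c2, c⟩
      · exact Or.inl ⟨M', c2, b.2.2.1, b.2.2.2, c⟩
  rcases key with h | h
  · exact h
  · omega

theorem Rt.sum (tri : ∀ k, k = s ∨ k = u ∨ k = t) (hsu : s ≠ u) (hs : s ≠ t) (hu : u ≠ t)
    {N : Finset E} (h : S.Rt x A N) : S.vec N s + S.vec N u + S.vec N t + 1 = A.card := by
  have := sum_vec (S := S) (M := N) (A := {s, u, t}) (fun e _ => by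
    rcases tri (S.col e) with h | h | h <;> simp [h])
  rw [sum_insert (by simp [hsu, hs]), sum_pair hu] at this
  have := h.2.2
  omega

theorem vec_nn (N : Finset E) (k : K) : 0 ≤ S.vec N k := by
  rw [vec_apply]; omega

theorem Cl.out (cl : S.Cl A) (hy : ∀ e, S.rt e = y → S.lf e ∉ A) {i : ℕ} {q : R}
    (h : S.Rch t y i q) : ∀ e, S.rt e = q → S.lf e ∉ A := by
  induction h with
  | refl i => exact hy
  | flat e e' _ a b c ih => exact fun f hf hh => ih e rfl (b ▸ cl f e' hf hh)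
  | arc e e' _ a b ih => exact fun f hf hh => ih e rfl (b ▸ cl f e' hf hh)

theorem Cl.noR (cl : S.Cl A) (hx : x ∈ A) (hy : ∀ e, S.rt e = y → S.lf e ∉ A) (i : ℕ) :
    ¬ S.RchL t y i x := by
  rintro ⟨e, a, -, c⟩
  exact cl.out hy c e rfl (a ▸ hx)

theorem Cl.rch (cl : S.Cl A) (hx : x ∈ A) {i : ℕ} {r : L} (h : S.swap.Rch t x i r) : r ∈ A := by
  induction h with
  | refl i => exact hx
  | flat e e' _ a b c ih => exact cl e e' b.symm ih
  | arc e e' _ a b ih => exact cl e e' b.symm ih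

theorem proj (cl : S.Cl A) {τ : ℤ} {N N' : Finset E} (h : S.Low x y t τ N N')
    (a : S.Rt x A (N.filter (fun e => S.lf e ∈ A))) :
    S.Cp x A (fun M => S.vec M t ≤ τ) (N.filter (fun e => S.lf e ∈ A))
      (N'.filter (fun e => S.lf e ∈ A)) ∧ S.Rt x A (N'.filter (fun e => S.lf e ∈ A)) := by
  induction h with
  | refl => exact ⟨Relation.ReflTransGen.refl, a⟩
  | @tail M M' _ b ih =>
    have av := b.1.av.1
    obtain ⟨⟨b0, f, g, g1, rfl, d⟩, b2, b3⟩ := b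
    have nf : f ∉ M := fun hh => d.elim (fun d => d.2.1 f hh rfl) (fun d => d.2.1 f hh rfl)
    have fg : S.lf f ∈ A ↔ S.lf g ∈ A := d.elim
      (fun d => ⟨cl f g d.2.2, cl g f d.2.2.symm⟩) (fun d => by rw [d.2.2])
    by_cases c : S.lf f ∈ A
    · have e1 : (insert f (M.erase g)).filter (fun e => S.lf e ∈ A) =
          insert f ((M.filter (fun e => S.lf e ∈ A)).erase g) := by
        rw [filter_insert, if_pos c, filter_erase]
      have g2 : g ∈ M.filter (fun e => S.lf e ∈ A) := mem_filter.2 ⟨g1, fg.1 c⟩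
      have n2 : f ∉ (M.filter (fun e => S.lf e ∈ A)).erase g :=
        fun hh => nf (mem_filter.1 (mem_erase.1 hh).2).1
      have r : S.Rt x A ((insert f (M.erase g)).filter (fun e => S.lf e ∈ A)) :=
        ⟨av.1.mono (filter_subset _ _), fun e he =>
          ⟨(mem_filter.1 he).2, (av.2 e (mem_filter.1 he).1).1⟩, by
          rw [e1, card_insert_of_notMem n2, card_erase_add_one g2]; exact ih.2.2.2⟩
      refine ⟨Relation.ReflTransGen.tail ih.1 ⟨⟨S.col g, S.col f, fun k => ?_⟩,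
        ⟨ih.2, (vec_mono (filter_subset _ _) t).trans b2⟩, r,
        (vec_mono (filter_subset _ _) t).trans b3⟩, r⟩
      have a1 := congrFun (vec_insert (S := S) n2) k
      have a2 := congrFun (vec_erase (S := S) g2) k
      rw [e1]
      simp only [Pi.add_apply] at a1 a2
      omega
    · have e1 : (insert f (M.erase g)).filter (fun e => S.lf e ∈ A) =
          M.filter (fun e => S.lf e ∈ A) := by
        rw [filter_insert, if_neg c, filter_erase, erase_eq_of_notMem]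
        exact fun hh => c (fg.2 (mem_filter.1 hh).2)
      rw [e1]
      exact ih

theorem mem_rb {Z : Finset L} {e : E} : e ∈ S.rb x A s u Z ↔
    (S.col e = if S.lf e ∈ Z then u else s) ∧ S.lf e ∈ A ∧ S.lf e ≠ x := by
  unfold rb
  rw [mem_image]
  constructor
  · rintro ⟨r, hr, rfl⟩
    rw [S.col_eL, S.lf_eL]
    exact ⟨rfl, (mem_erase.1 hr).2, (mem_erase.1 hr).1⟩
  · exact fun h => ⟨S.lf e, mem_erase.2 ⟨h.2.2, h.2.1⟩, eL_lf h.1⟩

theorem rb_eq (hy : ∀ e, S.rt e = y → S.lf e ∉ A) (Z : Finset L) :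
    (S.cut x y (S.colr s u Z)).filter (fun e => S.lf e ∈ A) = S.rb x A s u Z := by
  ext e
  simp only [cut, mem_filter, mem_colr, mem_rb]
  exact ⟨fun h => ⟨h.1.1, h.2, h.1.2.1⟩, fun h => ⟨⟨h.1, h.2.2, fun hh => hy e hh h.2.1⟩, h.2.1⟩⟩

theorem rt_rb (tri : ∀ k, k = s ∨ k = u ∨ k = t) (hs : s ≠ t) (hu : u ≠ t) (hx : x ∈ A)
    {Z : Finset L} (cl : ∀ r ∈ Z, ∀ r', S.swap.Rch t r 0 r' → r' ∈ Z) :
    S.Rt x A (S.rb x A s u Z) := by
  refine ⟨(pure_colr tri hs hu cl).1.mono (fun e he => mem_colr.2 (mem_rb.1 he).1),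
    fun e he => (mem_rb.1 he).2, ?_⟩
  unfold rb
  rw [card_image_of_injective, card_erase_add_one hx]
  intro r r' h
  have := congrArg S.lf h
  simpa only [S.lf_eL] using this

theorem rb_t (hs : s ≠ t) (hu : u ≠ t) (Z : Finset L) : S.vec (S.rb x A s u Z) t = 0 :=
  vec_zero (fun e he => by
    rw [(mem_rb.1 he).1]
    split_ifs
    · exact hu
    · exact hs)

theorem rb_u (hsu : s ≠ u) {Z : Finset L} (hZ : Z ⊆ A) :
    S.vec (S.rb x A s u Z) u = (Z.erase x).card := by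
  rw [vec_apply]
  have : (S.rb x A s u Z).filter (fun e => S.col e = u) = (Z.erase x).image (S.eL u) := by
    ext e
    rw [mem_filter, mem_rb, mem_image]
    constructor
    · rintro ⟨⟨a, -, c⟩, d⟩
      refine ⟨S.lf e, mem_erase.2 ⟨c, ?_⟩, eL_lf d⟩
      by_contra hh
      rw [if_neg hh, d] at a
      exact hsu a.symm
    · rintro ⟨r, hr, rfl⟩
      rw [S.col_eL, S.lf_eL, if_pos (mem_erase.1 hr).2]
      exact ⟨⟨rfl, hZ (mem_erase.1 hr).2, (mem_erase.1 hr).1⟩, rfl⟩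
  rw [this, card_image_of_injective]
  intro r r' h
  have := congrArg S.lf h
  simpa only [S.lf_eL] using this

theorem flipA (tri : ∀ k, k = s ∨ k = u ∨ k = t) (hsu : s ≠ u) (hs : s ≠ t) (hu : u ≠ t)
    (cl : S.Cl A) (hx : x ∈ A) (hy : ∀ e, S.rt e = y → S.lf e ∉ A) {τ : ℕ} {Z Z' : Finset L}
    (c1 : ∀ r ∈ Z, ∀ r', S.swap.Rch t r 0 r' → r' ∈ Z)
    (c2 : ∀ r ∈ Z', ∀ r', S.swap.Rch t r 0 r' → r' ∈ Z')
    (ag : ∀ r, ¬ S.swap.Rch t x τ r → (r ∈ Z ↔ r ∈ Z')) :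
    S.Cp x A (fun M => S.vec M t ≤ τ) (S.rb x A s u Z) (S.rb x A s u Z') := by
  have l := flip tri hs hu hsu (cl.noR hx hy τ) (pure_colr tri hs hu c1) (pure_colr tri hs hu c2)
    (fun e a b => Or.inr (by
      by_contra h
      rw [mem_colr] at a b
      simp only [← ag _ h] at b
      exact b a))
  have := (proj cl l (by rw [rb_eq hy]; exact rt_rb tri hs hu hx c1)).1
  rwa [rb_eq hy, rb_eq hy] at this

/-- an arch over every admissible value. -/
theorem ramp (tri : ∀ k, k = s ∨ k = u ∨ k = t) (hsu : s ≠ u) (hs : s ≠ t) (hu : u ≠ t)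
    (cl : S.Cl A) (hx : x ∈ A) (hy : ∀ e, S.rt e = y → S.lf e ∉ A) {τ : ℕ} {Lg : Finset L}
    (cL : ∀ r ∈ Lg, ∀ r', S.swap.Rch t r 0 r' → r' ∈ Lg) {z : L} (hz : S.swap.Rch t x τ z)
    (hg : ∀ r ∈ A, r ∉ Lg → (S.swap.cy t r).card ≤ (S.swap.cy t z).card) {d : ℤ} (d0 : 0 ≤ d)
    (d1 : d + 1 + Lg.card ≤ A.card) :
    ∃ N N', S.Cp x A (fun M => S.vec M t ≤ τ) N N' ∧ S.Rt x A N ∧ S.Rt x A N' ∧ S.vec N t = 0 ∧
      S.vec N' t = 0 ∧ S.vec N u ≤ d ∧ d ≤ S.vec N' u := by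
  classical
  set B : Finset L := univ.filter (fun r => S.swap.Rch t x τ r) with hB
  have mB : ∀ r, r ∈ B ↔ S.swap.Rch t x τ r := fun r => by simp [hB]
  have cB : ∀ r ∈ B, ∀ r', S.swap.Rch t r 0 r' → r' ∈ B :=
    fun r a r' b => (mB _).2 (((mB _).1 a).trans b)
  have xB : x ∈ B := (mB _).2 (Rch.refl _)
  have BA : B ⊆ A := fun r a => cl.rch hx ((mB _).1 a)
  have zB : (S.swap.cy t z).card ≤ B.card :=
    card_le_card (fun r a => cB z ((mB _).2 hz) r (mem_cy.1 a))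
  have k1 := le_card_sdiff B A
  have k2 := le_card_sdiff Lg (A \ B)
  have k3 := card_pos.2 ⟨x, xB⟩
  have k4 := card_le_card BA
  obtain ⟨Z, z1, z2, z3, z4⟩ := gapfill (S := S.swap) (t := t) (Z := (A \ B) \ Lg)
    (fun r a r' b => mem_sdiff.2 ⟨mem_sdiff.2 ⟨cl.rch (mem_sdiff.1 (mem_sdiff.1 a).1).1 b,
      fun hh => (mem_sdiff.1 (mem_sdiff.1 a).1).2 (cB _ hh _ b.symm)⟩,
      fun hh => (mem_sdiff.1 a).2 (cL _ hh _ b.symm)⟩) (g := B.card)
    (fun r a => (hg r (mem_sdiff.1 (mem_sdiff.1 a).1).1 (mem_sdiff.1 a).2).trans zB)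
    (lo := d - B.card + 1) (hi := d) (by omega) d0 (by omega) (by omega)
  have ZB : Disjoint Z B :=
    Finset.disjoint_left.2 (fun r a => (mem_sdiff.1 (mem_sdiff.1 (z1 a)).1).2)
  have ZA : Z ⊆ A := fun r a => (mem_sdiff.1 (mem_sdiff.1 (z1 a)).1).1
  have c2 : ∀ r ∈ Z ∪ B, ∀ r', S.swap.Rch t r 0 r' → r' ∈ Z ∪ B := fun r a r' b =>
    (mem_union.1 a).elim (fun a => mem_union_left _ (z2 r a r' b))
      (fun a => mem_union_right _ (cB r a r' b))
  refine ⟨_, _, flipA tri hsu hs hu cl hx hy z2 c2 (fun r h => by simp [mB, h]),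
    rt_rb tri hs hu hx z2, rt_rb tri hs hu hx c2, rb_t hs hu _, rb_t hs hu _, ?_, ?_⟩
  · rw [rb_u hsu ZA]
    have := card_erase_le (s := Z) (a := x)
    omega
  · rw [rb_u hsu (union_subset ZA BA)]
    have := card_erase_add_one (mem_union_right Z xB)
    rw [card_union_of_disjoint ZB] at this
    omega

/-- a prescribed number of edges of the second colour. -/
theorem rampU (tri : ∀ k, k = s ∨ k = u ∨ k = t) (hsu : s ≠ u) (hs : s ≠ t) (hu : u ≠ t)
    (cl : S.Cl A) (hx : x ∈ A) (hy : ∀ e, S.rt e = y → S.lf e ∉ A) {τ : ℕ} {Lg : Finset L}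
    (cL : ∀ r ∈ Lg, ∀ r', S.swap.Rch t r 0 r' → r' ∈ Lg) {z : L} (hz : S.swap.Rch t x τ z)
    (hg : ∀ r ∈ A, r ∉ Lg → (S.swap.cy t r).card ≤ (S.swap.cy t z).card) {d : ℤ} (d0 : 0 ≤ d)
    (d1 : d + 1 + Lg.card ≤ A.card) :
    ∃ N, S.Rt x A N ∧ S.vec N u = d ∧ S.vec N t ≤ τ := by
  obtain ⟨N, N', a1, a2, -, a4, -, a6, a7⟩ := ramp tri hsu hs hu cl hx hy cL hz hg d0 d1
  obtain ⟨M, -, b2, b3, b4⟩ := a1.ivt a2 (by omega) a6 a7
  exact ⟨M, b2, b4, b3⟩

/-- a prescribed number of edges of the first colour. -/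
theorem rampS (tri : ∀ k, k = s ∨ k = u ∨ k = t) (hsu : s ≠ u) (hs : s ≠ t) (hu : u ≠ t)
    (cl : S.Cl A) (hx : x ∈ A) (hy : ∀ e, S.rt e = y → S.lf e ∉ A) {τ : ℕ} {Lg : Finset L}
    (cL : ∀ r ∈ Lg, ∀ r', S.swap.Rch t r 0 r' → r' ∈ Lg) {z : L} (hz : S.swap.Rch t x τ z)
    (hg : ∀ r ∈ A, r ∉ Lg → (S.swap.cy t r).card ≤ (S.swap.cy t z).card) {d : ℤ}
    (d0 : Lg.card ≤ d) (d1 : d + 1 ≤ A.card) :
    ∃ N, S.Rt x A N ∧ S.vec N s = d ∧ S.vec N t ≤ τ := by
  obtain ⟨N, N', a1, a2, a3, a4, a5, a6, a7⟩ := ramp tri hsu hs hu cl hx hy cL hz hg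
    (d := A.card - 1 - d) (by omega) (by omega)
  have e1 := a2.sum tri hsu hs hu
  have e2 := a3.sum tri hsu hs hu
  obtain ⟨M, -, b2, b3, b4⟩ := a1.symm.ivt a3 (by omega) (k := s) (d := d) (by omega) (by omega)
  exact ⟨M, b2, b4, b3⟩

/-- from one pure colour to another in a connected set. -/
theorem tour (tri : ∀ k, k = s ∨ k = u ∨ k = t) (hsu : s ≠ u) (hs : s ≠ t) (hu : u ≠ t)
    (cl : S.Cl A) (hx : x ∈ A) (hy : ∀ e, S.rt e = y → S.lf e ∉ A)
    (con : ∀ r ∈ A, ∃ i, S.swap.Rch t x i r) :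
    ∃ N N', S.Cp x A (fun _ => True) N N' ∧ S.Rt x A N ∧ S.Rt x A N' ∧ S.vec N t = 0 ∧
      S.vec N u = 0 ∧ S.vec N' t = 0 ∧ S.vec N' s = 0 := by
  choose! f hf using con
  have c1 : ∀ r ∈ (∅ : Finset L), ∀ r', S.swap.Rch t r 0 r' → r' ∈ (∅ : Finset L) := by simp
  have c2 : ∀ r ∈ A, ∀ r', S.swap.Rch t r 0 r' → r' ∈ A := fun r a r' b => cl.rch a b
  have r2 := rt_rb tri hs hu hx c2
  refine ⟨_, _, (flipA tri hsu hs hu cl hx hy (τ := A.sup f) c1 c2 (fun r h =>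
    ⟨by simp, fun a => absurd ((hf r a).mono (le_sup a)) h⟩)).mono (fun _ _ _ => trivial),
    rt_rb tri hs hu hx c1, r2, rb_t hs hu _, by rw [rb_u hsu (empty_subset _)]; simp,
    rb_t hs hu _, ?_⟩
  have a1 := r2.sum tri hsu hs hu
  rw [rb_t hs hu, rb_u hsu (Subset.refl _)] at a1
  have := card_erase_add_one hx
  omega

open Classical in
theorem growR (hs : s ≠ t) (hu : u ≠ t) (hsu : s ≠ u)
    (sim : ∀ e e', S.lf e = S.lf e' → S.rt e = S.rt e' → e = e') {Z : Finset R} {i : ℕ}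
    (h : ∃ q0 ∈ Z, ∃ j q, S.Rch t q0 j q ∧ ∀ q1 ∈ Z, ¬ S.Rch t q1 i q) :
    (univ.filter (fun q => ∃ q0 ∈ Z, S.Rch t q0 0 q)).card + 2 * i ≤
      (univ.filter (fun q => ∃ q0 ∈ Z, S.Rch t q0 i q)).card := by
  induction i with
  | zero => simp
  | succ i ih =>
    obtain ⟨q0, h0, j, q, h1, h2⟩ := h
    have h3 := ih ⟨q0, h0, j, q, h1, fun q1 a b => h2 q1 a b.succ⟩
    have new : ∃ p, (∃ q1 ∈ Z, S.Rch t q1 (i + 1) p) ∧ ∀ q1 ∈ Z, ¬ S.Rch t q1 i p := by
      by_contra hn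
      push Not at hn
      have all : ∀ j q, S.Rch t q0 j q → ∃ q1 ∈ Z, S.Rch t q1 i q := by
        intro j q hq
        induction hq with
        | refl j => exact ⟨q0, h0, Rch.refl _⟩
        | flat e e' _ a b c ih =>
          obtain ⟨q1, d, d'⟩ := ih
          exact ⟨q1, d, Rch.flat e e' d' a b c⟩
        | arc e e' _ a b ih =>
          obtain ⟨q1, d, d'⟩ := ih
          exact hn _ ⟨q1, d, Rch.arc e e' d' a b⟩
      obtain ⟨q1, d, d'⟩ := all _ _ h1
      exact h2 q1 d d'.succ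
    obtain ⟨p, ⟨q1, p1, p2⟩, p3⟩ := new
    have c := card_le_card (show univ.filter (fun q => ∃ q0 ∈ Z, S.Rch t q0 i q) ∪ S.cy t p ⊆
        univ.filter (fun q => ∃ q0 ∈ Z, S.Rch t q0 (i + 1) q) from fun q hq => by
      rcases mem_union.1 hq with a | a
      · obtain ⟨q2, b1, b2⟩ := (mem_filter.1 a).2
        exact mem_filter.2 ⟨mem_univ _, q2, b1, b2.succ⟩
      · exact mem_filter.2 ⟨mem_univ _, q1, p1, p2.trans (mem_cy.1 a)⟩)
    rw [card_union_of_disjoint (Finset.disjoint_left.2 (fun q a b => by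
      obtain ⟨q2, b1, b2⟩ := (mem_filter.1 a).2
      exact p3 q2 b1 (b2.trans (mem_cy.1 b).symm)))] at c
    have := two_le_cy hs hu hsu sim p
    omega

/-- from pure colour `s` up to `d` edges of colour `u`, with few edges of colour `t`. -/
theorem rise (tri : ∀ k, k = s ∨ k = u ∨ k = t) (hsu : s ≠ u) (hs : s ≠ t) (hu : u ≠ t)
    (sim : ∀ e e', S.lf e = S.lf e' → S.rt e = S.rt e' → e = e')
    (cl : S.Cl A) (hx : x ∈ A) (hy : ∀ e, S.rt e = y → S.lf e ∉ A)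
    (con : ∀ r ∈ A, ∃ i, S.swap.Rch t x i r) {ρ : ℕ} {d : ℤ} (d0 : 0 ≤ d) (d1 : d ≤ 2 * ρ + 1)
    (d2 : d < A.card) :
    ∃ N M, S.Cp x A (fun M => S.vec M t ≤ ρ ∧ S.vec M u ≤ d) N M ∧ S.Rt x A N ∧ S.Rt x A M ∧
      S.vec N t = 0 ∧ S.vec N u = 0 ∧ S.vec M t ≤ ρ ∧ S.vec M u = d := by
  classical
  set B : Finset L := univ.filter (fun r => S.swap.Rch t x ρ r) with hB
  have mB : ∀ r, r ∈ B ↔ S.swap.Rch t x ρ r := fun r => by simp [hB]
  have cB : ∀ r ∈ B, ∀ r', S.swap.Rch t r 0 r' → r' ∈ B :=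
    fun r a r' b => (mB _).2 (((mB _).1 a).trans b)
  have xB : x ∈ B := (mB _).2 (Rch.refl _)
  have BA : B ⊆ A := fun r a => cl.rch hx ((mB _).1 a)
  have c1 : ∀ r ∈ (∅ : Finset L), ∀ r', S.swap.Rch t r 0 r' → r' ∈ (∅ : Finset L) := by simp
  have big : d < B.card := by
    by_cases hh : A ⊆ B
    · have := card_le_card hh
      omega
    · obtain ⟨r, r1, r2⟩ := not_subset.1 hh
      obtain ⟨j, hj⟩ := con r r1
      have g := growR (S := S.swap) hs hu hsu (fun e e' a b => sim e e' b a) (Z := {x}) (i := ρ)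
        ⟨x, mem_singleton_self _, j, r, hj, fun q a b => r2 ((mB _).2 (mem_singleton.1 a ▸ b))⟩
      have g2 := two_le_cy (S := S.swap) hs hu hsu (fun e e' a b => sim e e' b a) x
      simp only [mem_singleton, exists_eq_left] at g
      have g3 : (S.swap.cy t x).card + 2 * ρ ≤ B.card := by
        convert g
        ext q
        simp [mem_cy]
      omega
  have v0 : S.vec (S.rb x A s u ∅) u = 0 := by rw [rb_u hsu (empty_subset _)]; simp
  have r1 := rt_rb tri hs hu hx c1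
  obtain ⟨M, a1, a2, a3, a4⟩ := (flipA tri hsu hs hu cl hx hy (τ := ρ) c1 cB (fun r h => by
    simp [mB, h])).ivt r1 (by rw [rb_t hs hu]; omega) (k := u) (d := d) (by omega) (by
      rw [rb_u hsu BA]
      have := card_erase_add_one xB
      omega)
  exact ⟨_, M, a1, r1, a2, rb_t hs hu _, v0, a3, a4⟩

end Sys

end Pool.Agent.Lib.MP_cc2426_co
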