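import Pool.Agent.Lib.MP_cc2426_co.Deg

/-! Unit moves of near-perfect matchings with one row and one column deleted. -/

set_option autoImplicit false
set_option linter.unusedSectionVars false

namespace Pool.Agent.Lib.MP_cc2426_co

open Finset

variable {E L R K : Type*} [DecidableEq E] [DecidableEq L] [DecidableEq R] [DecidableEq K]
  [Fintype L] [Fintype R]

namespace Sys

variable (S : Sys E L R K)

/-- matchings that avoid the row `x` and the column `y`. -/
def Av (x : L) (y : R) (N : Finset E) : Prop := S.IsM N ∧ ∀ e ∈ N, S.lf e ≠ x ∧ S.rt e ≠ y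

/-- one step of the uncovered row or of the uncovered column. -/
def Mv (x : L) (y : R) (N N' : Finset E) : Prop :=
  S.Av x y N ∧ ∃ f g, g ∈ N ∧ N' = insert f (N.erase g) ∧
    ((S.lf f ≠ x ∧ S.FrL N (S.lf f) ∧ S.rt f = S.rt g) ∨
      (S.rt f ≠ y ∧ S.FrR N (S.rt f) ∧ S.lf f = S.lf g))

/-- joined by steps with at most `τ` edges of colour `t`. -/
def Low (x : L) (y : R) (t : K) (τ : ℤ) : Finset E → Finset E → Prop :=
  Relation.ReflTransGen (fun N N' => S.Mv x y N N' ∧ S.vec N t ≤ τ ∧ S.vec N' t ≤ τ)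

variable {S} {x : L} {y : R}

theorem Av.swap {N : Finset E} (h : S.Av x y N) : S.swap.Av y x N :=
  ⟨h.1.swap, fun e he => (h.2 e he).symm⟩

theorem Av.unswap {N : Finset E} (h : S.swap.Av y x N) : S.Av x y N :=
  ⟨h.1.unswap, fun e he => (h.2 e he).symm⟩

theorem Mv.swap {N N' : Finset E} (h : S.Mv x y N N') : S.swap.Mv y x N N' := by
  obtain ⟨a, f, g, b, c, d⟩ := h
  exact ⟨a.swap, f, g, b, c, d.symm⟩

theorem Mv.unswap {N N' : Finset E} (h : S.swap.Mv y x N N') : S.Mv x y N N' := by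
  obtain ⟨a, f, g, b, c, d⟩ := h
  exact ⟨a.unswap, f, g, b, c, d.symm⟩

theorem Low.swap {t : K} {τ : ℤ} {N N' : Finset E} (h : S.Low x y t τ N N') :
    S.swap.Low y x t τ N N' := by
  induction h with
  | refl => exact Relation.ReflTransGen.refl
  | tail _ a ih => exact Relation.ReflTransGen.tail ih ⟨a.1.swap, a.2⟩

theorem Low.unswap {t : K} {τ : ℤ} {N N' : Finset E} (h : S.swap.Low y x t τ N N') :
    S.Low x y t τ N N' := by
  induction h with
  | refl => exact Relation.ReflTransGen.refl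
  | tail _ a ih => exact Relation.ReflTransGen.tail ih ⟨a.1.unswap, a.2⟩

/-- a step of the uncovered row. -/
theorem Av.mvL {N : Finset E} (h : S.Av x y N) {f g : E} (h1 : S.lf f ≠ x)
    (h2 : S.FrL N (S.lf f)) (hg : g ∈ N) (h3 : S.rt f = S.rt g) :
    S.Av x y (insert f (N.erase g)) ∧ (insert f (N.erase g)).card = N.card ∧
      S.vec (insert f (N.erase g)) + dl (S.col g) = S.vec N + dl (S.col f) ∧
      S.FrL (insert f (N.erase g)) (S.lf g) ∧
      (∀ z, S.FrR N z → S.FrR (insert f (N.erase g)) z) ∧ S.col g ≠ S.col f := by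
  classical
  have a := S.mvL (A := insert (S.col f) (N.image S.col)) (FL := {x}) (FR := {y}) h.1
    (fun e he => ⟨mem_insert_of_mem (mem_image_of_mem _ he), by simpa using (h.2 e he).1,
      by simpa using (h.2 e he).2⟩) (mem_insert_self _ _) (by simpa using h1) h2 hg h3
  exact ⟨⟨a.isM, fun e he => ⟨by simpa using (a.ok e he).2.1, by simpa using (a.ok e he).2.2⟩⟩,
    a.card, a.vec, a.frL, a.keepR, a.ne⟩

theorem Mv.av {N N' : Finset E} (h : S.Mv x y N N') : S.Av x y N' ∧ N'.card = N.card := by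
  obtain ⟨a, f, g, b, rfl, d | d⟩ := h
  · exact ⟨(a.mvL d.1 d.2.1 b d.2.2).1, (a.mvL d.1 d.2.1 b d.2.2).2.1⟩
  · exact ⟨(a.swap.mvL d.1 d.2.1 b d.2.2).1.unswap, (a.swap.mvL d.1 d.2.1 b d.2.2).2.1⟩

theorem Mv.symm {N N' : Finset E} (h : S.Mv x y N N') : S.Mv x y N' N := by
  have h' := h.av.1
  obtain ⟨a, f, g, b, rfl, d | d⟩ := h
  · have n : f ∉ N.erase g := fun hh => d.2.1 f (mem_erase.1 hh).2 rfl
    exact ⟨h', g, f, mem_insert_self _ _, by rw [erase_insert n, insert_erase b],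
      Or.inl ⟨(a.2 g b).1, (a.mvL d.1 d.2.1 b d.2.2).2.2.2.1, d.2.2.symm⟩⟩
  · have n : f ∉ N.erase g := fun hh => d.2.1 f (mem_erase.1 hh).2 rfl
    exact ⟨h', g, f, mem_insert_self _ _, by rw [erase_insert n, insert_erase b],
      Or.inr ⟨(a.2 g b).2, (a.swap.mvL d.1 d.2.1 b d.2.2).2.2.2.1, d.2.2.symm⟩⟩

theorem Low.symm {t : K} {τ : ℤ} {N N' : Finset E} (h : S.Low x y t τ N N') :
    S.Low x y t τ N' N := by
  induction h with
  | refl => exact Relation.ReflTransGen.refl
  | tail _ a ih => exact Relation.ReflTransGen.head ⟨a.1.symm, a.2.2, a.2.1⟩ ih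

theorem Low.trans {t : K} {τ : ℤ} {N N' N'' : Finset E} (h : S.Low x y t τ N N')
    (h' : S.Low x y t τ N' N'') : S.Low x y t τ N N'' := Relation.ReflTransGen.trans h h'

theorem Low.av {t : K} {τ : ℤ} {N N' : Finset E} (h : S.Low x y t τ N N') (a : S.Av x y N) :
    S.Av x y N' ∧ N'.card = N.card := by
  induction h with
  | refl => exact ⟨a, rfl⟩
  | tail _ b ih => exact ⟨b.1.av.1, b.1.av.2.trans ih.2⟩

end Sys

end Pool.Agent.Lib.MP_cc2426_co
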