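import Pool.Agent.Lib.MP_cc2426_co.Star
import Pool.Agent.Lib.MP_cc2426_co.Mv

/-! The star lemma for two row components of one system. -/

set_option autoImplicit false
set_option linter.unusedSectionVars false

namespace Pool.Agent.Lib.MP_cc2426_co

open Finset

variable {E L R K : Type*} [DecidableEq E] [DecidableEq L] [DecidableEq R] [DecidableEq K]
  [Fintype L] [Fintype R]

namespace Sys

variable {S : Sys E L R K} {s u t : K} {x : L} {A B : Finset L}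

theorem Clos.col (h : S.Clos B) (c : K) (f : E) :
    S.rt f ∈ B.image (fun r => S.rt (S.eL c r)) ↔ S.lf f ∈ B := by
  constructor
  · intro hf
    obtain ⟨r, hr, e⟩ := mem_image.1 hf
    exact h (S.eL c r) f e (by rwa [S.lf_eL])
  · intro hf
    refine mem_image.2 ⟨S.lf (S.eR c (S.rt f)), h f _ (S.rt_eR _ _).symm hf, ?_⟩
    have := S.eL_eq (S.eR c (S.rt f))
    rw [S.col_eR] at this
    rw [this, S.rt_eR]

theorem Cmp.col (h : S.Cmp B) (c : K) : S.swap.Cmp (B.image (fun r => S.rt (S.eL c r))) ∧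
    (B.image (fun r => S.rt (S.eL c r))).card = B.card := by
  have inj : Function.Injective (fun r => S.rt (S.eL c r)) := by
    intro r r' hh
    have := S.eq_of_rt hh (by rw [S.col_eL, S.col_eL])
    rw [← S.lf_eL c r, this, S.lf_eL]
  refine ⟨⟨fun e e' (hh : S.lf e = S.lf e') he => (h.1.col c e').2 (hh ▸ (h.1.col c e).1 he), ?_⟩,
    card_image_of_injective _ inj⟩
  intro Z hZ ⟨z, hz⟩ cl
  have e : B.filter (fun r => S.rt (S.eL c r) ∈ Z) = B := by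
    apply h.2 _ (filter_subset _ _)
    · obtain ⟨r, hr, e⟩ := mem_image.1 (hZ hz)
      exact ⟨r, mem_filter.2 ⟨hr, e ▸ hz⟩⟩
    · intro e e' hh he
      refine mem_filter.2 ⟨h.1 e e' hh (mem_filter.1 he).1, ?_⟩
      have a : S.rt e ∈ Z := cl (S.eL c (S.lf e)) e (S.lf_eL _ _) (mem_filter.1 he).2
      exact cl e' (S.eL c (S.lf e')) (S.lf_eL _ _).symm (show S.rt e' ∈ Z from hh ▸ a)
  apply Subset.antisymm hZ
  intro q hq
  obtain ⟨r, hr, rfl⟩ := mem_image.1 hq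
  rw [← e] at hr
  exact (mem_filter.1 hr).2

/-- the star lemma with both components given by their rows. -/
theorem starW (tri : ∀ k, k = s ∨ k = u ∨ k = t) (hsu : s ≠ u) (hst : s ≠ t) (hut : u ≠ t)
    (hA : S.Cmp A) (hB : S.Cmp B) (hx : x ∈ A) {e : E} (he : S.lf e ∈ B) (ne : S.lf e ∉ A)
    {γ : K → ℤ} (hsum : γ s + γ u + γ t + 2 = A.card + B.card) (s1 : γ s + 1 ≤ A.card)
    (s2 : γ s + 1 ≤ B.card) (u1 : γ u + 1 ≤ A.card) (t2 : γ t + 1 ≤ B.card) :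
    ∃ N, S.Av x (S.rt e) N ∧ (∀ f ∈ N, S.lf f ∈ A ∪ B) ∧ S.vec N = γ := by
  obtain ⟨c1, c2⟩ := hB.col s
  obtain ⟨N1, N2, a1, a2, a3⟩ := star tri hsu hst hut hA hx c1 ((hB.1.col s e).2 he)
    (γ := γ) (by rw [c2]; exact hsum) s1 (by rw [c2]; exact s2) u1 (by rw [c2]; exact t2)
  have dj : ∀ r, r ∈ A → r ∉ B := by
    intro r h1 h2
    have := hB.2 (A ∩ B) inter_subset_right ⟨r, mem_inter.2 ⟨h1, h2⟩⟩ (fun f f' hh hf =>
      mem_inter.2 ⟨hA.1 f f' hh (mem_inter.1 hf).1, hB.1 f f' hh (mem_inter.1 hf).2⟩)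
    rw [← this] at he
    exact ne (mem_inter.1 he).1
  have m2 : ∀ f ∈ N2, S.lf f ∈ B := fun f hf => (hB.1.col s f).1 (a2.2.1 f hf).1
  have hd : ∀ f ∈ N1, ∀ g ∈ N2, S.lf f ≠ S.lf g ∧ S.rt f ≠ S.rt g := fun f hf g hg =>
    ⟨fun hh => dj _ (a1.2.1 f hf).1 (hh ▸ m2 g hg),
      fun hh => dj _ (hA.1 f g hh (a1.2.1 f hf).1) (m2 g hg)⟩
  refine ⟨N1 ∪ N2, ⟨a1.1.union a2.1.unswap hd, ?_⟩, ?_, by rw [vec_union (disj_of hd), a3]⟩
  · intro f hf
    rcases mem_union.1 hf with hf | hf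
    · exact ⟨(a1.2.1 f hf).2, fun hh => ne (hA.1 f e hh (a1.2.1 f hf).1)⟩
    · exact ⟨fun hh => dj x hx (hh ▸ m2 f hf), (a2.2.1 f hf).2⟩
  · intro f hf
    rcases mem_union.1 hf with hf | hf
    · exact mem_union_left _ (a1.2.1 f hf).1
    · exact mem_union_right _ (m2 f hf)

/-- the rows joined to a given row form a component. -/
theorem cmp_of {r : L} (hc : ∀ z, z ∈ A ↔ Relation.ReflTransGen
    (fun r r' => ∃ e e', S.lf e = r ∧ S.lf e' = r' ∧ S.rt e = S.rt e') r z) : S.Cmp A := by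
  refine ⟨fun e e' hh he => (hc _).2 (((hc _).1 he).tail ⟨e, e', rfl, rfl, hh⟩), ?_⟩
  intro Z hZ ⟨z, hz⟩ cl
  have back : ∀ w, Relation.ReflTransGen
      (fun r r' => ∃ e e', S.lf e = r ∧ S.lf e' = r' ∧ S.rt e = S.rt e') r w → (w ∈ Z ↔ r ∈ Z) := by
    intro w hw
    induction hw with
    | refl => rfl
    | tail _ b ih =>
      obtain ⟨e, e', rfl, rfl, hh⟩ := b
      exact (⟨cl e' e hh.symm, cl e e' hh⟩ : S.lf e' ∈ Z ↔ S.lf e ∈ Z).trans ih
  have r0 := (back z ((hc z).1 (hZ hz))).1 hz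
  exact Subset.antisymm hZ (fun w hw => (back w ((hc w).1 hw)).2 r0)

/-- the star lemma for a map that sends each row to its component. -/
theorem starC {a b c : K} (ab : a ≠ b) (ac : a ≠ c) (bc : b ≠ c)
    (tri : ∀ k, k = a ∨ k = b ∨ k = c) (cp : L → Finset L)
    (hc : ∀ r z, z ∈ cp r ↔ Relation.ReflTransGen
      (fun r r' => ∃ e e', S.lf e = r ∧ S.lf e' = r' ∧ S.rt e = S.rt e') r z) :
    ∀ (x : L) (e : E) (γ : K → ℤ), S.lf e ∉ cp x → 0 ≤ γ →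
      (∀ k, γ k + 1 ≤ (cp x).card ∧ γ k + 1 ≤ (cp (S.lf e)).card) →
      γ a + γ b + γ c + 2 = (cp x).card + (cp (S.lf e)).card →
      ∃ N, S.Av x (S.rt e) N ∧ (∀ f ∈ N, S.lf f ∈ cp x ∪ cp (S.lf e)) ∧ S.vec N = γ :=
  fun x e _ ne _ h hs => starW tri ab ac bc (cmp_of (hc x)) (cmp_of (hc (S.lf e)))
    ((hc x x).2 Relation.ReflTransGen.refl) ((hc _ _).2 Relation.ReflTransGen.refl) ne hs
    (h a).1 (h a).2 (h b).1 (h c).2

end Sys

end Pool.Agent.Lib.MP_cc2426_co
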