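import Pool.Agent.Lib.MP_cc2426_co.Frz2
import Pool.Agent.Lib.MP_cc2426_co.Root
import Pool.Agent.Lib.MP_cc2426_co.JayW
import Pool.Agent.Lib.MP_cc2426_co.Star2
import Pool.Agent.Lib.MP_cc2426_co.Ball
import Pool.Agent.Lib.MP_cc2426_co.Exit

/-! The choice of the deleted pair in a system with several components. -/

set_option autoImplicit false
set_option linter.unusedSectionVars false

namespace Pool.Agent.Lib.MP_cc2426_co

open Finset

variable {E L R K : Type*} [DecidableEq E] [DecidableEq L] [DecidableEq R] [DecidableEq K]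
  [Fintype L] [Fintype R]

namespace Sys

variable {S : Sys E L R K} {s u t : K} {x : L} {y : R}

theorem tp_closed {Z : Finset L} (h : ∀ r ∈ Z, ∀ e, S.rt e = S.rt (S.eL s r) → S.lf e ∈ Z) :
    S.Cl Z := by
  intro e e' hh he
  have inj : Function.Injective (fun r => S.lf (S.eR (S.col e) (S.rt (S.eL s r)))) :=
    fun r r' a => (S.eqv s).injective ((S.eqv (S.col e)).symm.injective a)
  have im : Z.image (fun r => S.lf (S.eR (S.col e) (S.rt (S.eL s r)))) = Z :=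
    eq_of_subset_of_card_le (fun z hz => by
      obtain ⟨r, hr, rfl⟩ := mem_image.1 hz
      exact h r hr _ (S.rt_eR _ _)) (by rw [card_image_of_injective _ inj])
  rw [← im] at he
  obtain ⟨r, hr, e1⟩ := mem_image.1 he
  refine h r hr e' ?_
  have e2 : S.eR (S.col e) (S.rt (S.eL s r)) = e := S.eq_of_lf e1 (S.col_eR _ _)
  rw [← hh, ← S.rt_eR (S.col e) (S.rt (S.eL s r)), e2]

theorem tp_con {A : Finset L} (hA : ∀ Z, S.Cl Z → ∀ x ∈ A, ∀ r ∈ A, x ∈ Z → r ∈ Z) (hs : s ≠ t) :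
    ∀ x ∈ A, ∀ r ∈ A, ∃ i, S.swap.Rch t x i r := by
  classical
  intro x hx r hr
  have c : S.Cl (univ.filter (fun r => ∃ i, S.swap.Rch t x i r)) := tp_closed (s := s) (by
    intro z hz e he
    obtain ⟨i, hi⟩ := (mem_filter.1 hz).2
    exact mem_filter.2 ⟨mem_univ _, i + 1, Rch.arc (S := S.swap) (S.eL s z) e
      (by change S.swap.Rch t x i (S.lf _); rwa [S.lf_eL])
      (by change S.col _ ≠ t; rwa [S.col_eL]) he⟩)
  exact (mem_filter.1 (hA _ c x hx r hr (mem_filter.2 ⟨mem_univ _, 0, Rch.refl 0⟩))).2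

theorem tp_cols {A : Finset L} (cA : S.Cl A) (k : K) :
    ∃ B : Finset R, B.card = A.card ∧ ∀ e, S.lf e ∈ A ↔ S.rt e ∈ B := by
  refine ⟨A.image (S.eqv k), card_image_of_injective _ (S.eqv k).injective, fun e => ⟨?_, ?_⟩⟩
  · intro h
    exact mem_image.2 ⟨S.lf (S.eR k (S.rt e)), cA e _ (S.rt_eR _ _).symm h,
      (S.eqv k).apply_symm_apply _⟩
  · intro h
    obtain ⟨r, hr, e1⟩ := mem_image.1 h
    exact cA (S.eL k r) e e1 (by rwa [S.lf_eL])

theorem tp_mem {r r' : L} : r' ∈ S.cmp r ↔ S.Cn r r' := by simp [cmp]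

theorem tp_self (r : L) : r ∈ S.cmp r := tp_mem.2 Relation.ReflTransGen.refl

theorem tp_cl (r : L) : S.Cl (S.cmp r) := fun e e' a b =>
  tp_mem.2 (Relation.ReflTransGen.tail (tp_mem.1 b) ⟨e, e', rfl, rfl, a⟩)

theorem tp_iff {Z : Finset L} (c : S.Cl Z) {r r' : L} (h : r' ∈ S.cmp r) : r' ∈ Z ↔ r ∈ Z := by
  have h' := tp_mem.1 h
  clear h
  induction h' with
  | refl => rfl
  | tail _ a ih =>
    obtain ⟨e, e', rfl, rfl, b⟩ := a
    exact Iff.trans ⟨c e' e b.symm, c e e' b⟩ ih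

theorem tp_min (r : L) : ∀ Z, S.Cl Z → ∀ x ∈ S.cmp r, ∀ z ∈ S.cmp r, x ∈ Z → z ∈ Z :=
  fun _ c _ a _ b h => (tp_iff c b).2 ((tp_iff c a).1 h)

theorem tp_pure {M : Finset E} (hM : S.IsM M) {B : Finset L} {c : K}
    (h : ∀ r ∈ B, S.eL c r ∈ M) (k : K) :
    S.vec (M.filter fun e => S.lf e ∈ B) k = B.card * dl c k := by
  have e : (M.filter fun e => S.lf e ∈ B) = B.image (S.eL c) := by
    ext e
    rw [mem_filter, mem_image]
    constructor
    · exact fun a => ⟨_, a.2, hM.l _ (h _ a.2) _ a.1 (S.lf_eL _ _)⟩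
    · rintro ⟨r, hr, rfl⟩
      exact ⟨h r hr, by rwa [S.lf_eL]⟩
  rw [e]
  unfold vec
  rw [sum_image (fun r _ r' _ a => by simpa only [S.lf_eL] using congrArg S.lf a)]
  simp only [S.col_eL, Finset.sum_apply, sum_const, nsmul_eq_mul]

theorem tp_other (hsu : s ≠ u) (k : K) : ∃ c, c ≠ k := by
  by_cases h : s = k
  · exact ⟨u, h ▸ hsu.symm⟩
  · exact ⟨s, h⟩

theorem tp_good {A : Finset L} {B : Finset R} {p : E → Prop} (hL : ∀ e, p e ↔ S.lf e ∈ A)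
    (hR : ∀ e, p e ↔ S.rt e ∈ B) {β X : ℕ} (hx : x ∈ A) (g : S.Good A t β X x) :
    (S.sub p hL hR).Good univ t β X ⟨x, hx⟩ := by
  obtain ⟨z, z1, z2, G, g1, g2, g3, g4⟩ := g
  refine ⟨⟨z, z1⟩, mem_univ _, rch_sub'.2 z2, G.subtype (fun r => r ∈ A), subset_univ _,
    fun r hr r' h => mem_subtype.2 (g2 _ (mem_subtype.1 hr) _ (rch_sub'.1 h)), ?_,
    fun r _ hr => ?_⟩
  · rw [card_subtype]
    exact (card_filter_le _ _).trans g3
  · rw [card_cy_sub', card_cy_sub']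
    exact g4 r.1 r.2 (fun a => hr (mem_subtype.2 a))

theorem tp_inside (tri : ∀ k, k = s ∨ k = u ∨ k = t) (hsu : s ≠ u) (hs : s ≠ t) (hu : u ≠ t)
    (sim : ∀ e e', S.lf e = S.lf e' → S.rt e = S.rt e' → e = e')
    (con : ∀ k r0 r, ∃ i, S.swap.Rch k r0 i r) {T : K → ℕ}
    (hL : T s + T u + T t + 2 = Fintype.card L) (tu : T t ≤ T u) (us : T u ≤ T s)
    (na : ∀ e, S.lf e = x → S.rt e ≠ y)
    (g1 : S.Good univ t (T t) (T s - T t / 2) x) (g2 : S.Good univ u (T u) (T s - T u / 2) x)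
    (g3 : S.Good univ s (T s) (T u - T s / 2) x) : S.Rl x y T := by
  have gc : ∀ d c X, c ≠ d → S.Good univ d (T d) X x → S.swap.GoodC x d (T d) X :=
    fun d c X h ⟨z, _, z2, G, _, _, a, b⟩ => goodC h z2 a (fun r hr => b r (mem_univ _) hr)
  refine insideR tri hsu hs hu con hL na tu us (fun d hd o ho M hM n b => ?_)
    (gc t s _ hs g1) (gc u s _ hsu g2) (gc s u _ hsu.symm g3)
  obtain ⟨c, c1, c2, c3⟩ := others tri hsu hs hu ho
  exact exit (S := S.swap) c3 c2 c1 ho (fun e e' a b => sim e e' b a) (con d x)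
    (Fintype.card_congr (S.eqv s)).symm (fun e a b => na e b a) hd hM ho b

theorem tp_in (tri : ∀ k, k = s ∨ k = u ∨ k = t) (hsu : s ≠ u) (hs : s ≠ t) (hu : u ≠ t)
    (sim : ∀ e e', S.lf e = S.lf e' → S.rt e = S.rt e' → e = e') {A : Finset L} (cA : S.Cl A)
    (hA : ∀ Z, S.Cl Z → ∀ x ∈ A, ∀ r ∈ A, x ∈ Z → r ∈ Z) {T : K → ℕ}
    (hT : T s + T u + T t + 2 = A.card) (tu : T t ≤ T u) (us : T u ≤ T s) (hx : x ∈ A)
    (hy : S.lf (S.eR t y) ∈ A) (na : ∀ e, S.lf e = x → S.rt e ≠ y)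
    (g1 : S.Good A t (T t) (T s - T t / 2) x) (g2 : S.Good A u (T u) (T s - T u / 2) x)
    (g3 : S.Good A s (T s) (T u - T s / 2) x) :
    ∃ N, S.Av x y N ∧ (∀ e ∈ N, S.lf e ∈ A) ∧ ∀ k, S.vec N k = T k := by
  classical
  obtain ⟨B, -, b2⟩ := tp_cols cA t
  have hL : ∀ e, S.lf e ∈ A ↔ S.lf e ∈ A := fun _ => Iff.rfl
  have yB : y ∈ B := by simpa only [S.rt_eR] using (b2 _).1 hy
  have r := tp_inside (S := S.sub (fun e => S.lf e ∈ A) hL b2) (x := ⟨x, hx⟩) (y := ⟨y, yB⟩) tri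
    hsu hs hu (sim_sub sim)
    (fun k => by
      obtain ⟨c, hc⟩ := tp_other hsu k
      exact con_sub' (tp_con hA hc))
    (T := T) (by rw [Fintype.card_coe]; exact hT) tu us
    (fun e a b => na e.1 (congrArg Subtype.val a) (congrArg Subtype.val b))
    (tp_good hL b2 hx g1) (tp_good hL b2 hx g2) (tp_good hL b2 hx g3)
  obtain ⟨N, n1, n2, n3⟩ := rl_up r
  exact ⟨N, n1, fun e he => (n2 e he).1, n3⟩

theorem tp_ext (tri : ∀ k, k = s ∨ k = u ∨ k = t) (hsu : s ≠ u) (hs : s ≠ t) (hu : u ≠ t)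
    {A B D : Finset L} (cA : S.Cl A) (cB : S.Cl B) (dj : ∀ r ∈ B, r ∉ A) {T : K → ℕ}
    (hT : T s + T u + T t + 2 = A.card) (p : L ≃ R) (dA : D ⊆ A) (dc : T u + 1 ≤ D.card)
    (g : ∀ x ∈ D, S.Good A u (T u) (T s - T u / 2) x)
    (hit : ∀ x ∈ D, ∀ e, S.rt e = p x → S.lf e ∈ B) :
    ∃ x ∈ D, ∃ N, S.Av x (p x) N ∧ (∀ e ∈ N, S.lf e ∈ A ∪ B) ∧
      ∀ k, S.vec N k = T k + B.card * dl t k := by
  classical
  obtain ⟨x, xD, mx⟩ := exists_max_image D (fun x => (S.cy s (p x)).card) (card_pos.1 (by omega))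
  obtain ⟨C, c1, c2⟩ := tp_cols cB t
  have cC : S.swap.Cl C := fun e e' a b => (c2 e').1 ((show S.lf e = S.lf e' from a) ▸ (c2 e).2 b)
  have pC : ∀ z ∈ D, p z ∈ C := fun z hz => by
    simpa only [S.rt_eR] using (c2 _).1 (hit z hz _ (S.rt_eR t _))
  obtain ⟨z, -, z2, G, -, g2, g3, g4⟩ := g x xD
  obtain ⟨N1, n1, n2, n3⟩ := rampS (s := s) (u := t) (t := u) (y := p x)
    (fun k => by have := tri k; tauto) hs hsu hu.symm cA (dA xD)
    (fun e he => dj _ (hit x xD e he)) g2 z2 g4 (d := T s) (by omega) (by omega)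
  set Lg := C.filter (fun q => ¬ ∃ z ∈ D, S.Rch s (p z) 0 q) with hLg
  have cd : D.card + Lg.card ≤ C.card := by
    have d1 : Disjoint (D.image p) Lg := disjoint_left.2 (fun q a b => by
      obtain ⟨z, hz, rfl⟩ := mem_image.1 a
      exact (mem_filter.1 b).2 ⟨z, hz, Rch.refl 0⟩)
    have d2 := card_le_card (union_subset (t := Lg) (u := C) (s := D.image p) (fun q a => by
      obtain ⟨z, hz, rfl⟩ := mem_image.1 a
      exact pC z hz) (filter_subset _ _))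
    rwa [card_union_of_disjoint d1, card_image_of_injective _ p.injective] at d2
  have v1 := vec_nn (S := S) N1 u
  obtain ⟨N2, m1, m2, m3⟩ := rampU (S := S.swap) (s := t) (u := u) (t := s) (x := p x) (y := x)
    (A := C) (τ := 0) (Lg := Lg) (z := p x) (fun k => by have := tri k; tauto) hu.symm hs.symm
    hsu.symm cC (pC x xD)
    (fun e he a => dj _ ((c2 e).2 a) ((show S.lf e = x from he) ▸ dA xD))
    (fun q hq q' h => mem_filter.2 ⟨cC.rch (mem_filter.1 hq).1 h, fun ⟨z, hz, a⟩ =>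
      (mem_filter.1 hq).2 ⟨z, hz, a.trans (Rch.symm h)⟩⟩) (Rch.refl 0)
    (fun q hq hn => by
      obtain ⟨z, hz, a⟩ : ∃ z ∈ D, S.Rch s (p z) 0 q := by
        by_contra hh
        exact hn (mem_filter.2 ⟨hq, hh⟩)
      have := mx z hz
      change (S.cy s q).card ≤ (S.cy s (p x)).card
      rwa [cy_eq a]) (d := T u - S.vec N1 u) (by omega) (by omega)
  have a1 : ∀ e ∈ N2, S.lf e ∈ B := fun e he => (c2 e).2 (m1.2.1 e he).1
  have sep : ∀ e ∈ N1, ∀ f ∈ N2, S.lf e ≠ S.lf f ∧ S.rt e ≠ S.rt f := fun e he f hf =>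
    ⟨fun h => dj _ (a1 f hf) (h ▸ (n1.2.1 e he).1),
      fun h => dj _ (a1 f hf) (cA e f h (n1.2.1 e he).1)⟩
  refine ⟨x, xD, N1 ∪ N2, ⟨n1.1.union m1.1.unswap sep, fun e he => ?_⟩, fun e he => ?_,
    fun k => ?_⟩
  · rcases mem_union.1 he with h | h
    · exact ⟨(n1.2.1 e h).2, fun a => dj _ (hit x xD e a) (n1.2.1 e h).1⟩
    · exact ⟨fun a => dj _ (a1 e h) (a ▸ dA xD), (m1.2.1 e h).2⟩
  · exact mem_union.2 ((mem_union.1 he).imp (fun h => (n1.2.1 e h).1) (a1 e))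
  · rw [vec_union (disj_of sep), Pi.add_apply]
    have s1 := n1.sum tri hsu hs hu
    have s2 : S.vec N2 s + S.vec N2 u + S.vec N2 t + 1 = C.card := m1.sum tri hsu hs hu
    have s3 : S.vec N2 u = T u - S.vec N1 u := m2
    have s4 : S.vec N2 s ≤ (0 : ℕ) := m3
    have s5 := vec_nn (S := S) N2 s
    rcases tri k with rfl | rfl | rfl
    · rw [dl_ne hs.symm]; omega
    · rw [dl_ne hu.symm]; omega
    · rw [dl_self]; omega

theorem top {a b c : K} (ab : a ≠ b) (ac : a ≠ c) (bc : b ≠ c) (tri : ∀ k, k = a ∨ k = b ∨ k = c)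
    (sim : ∀ e e', S.lf e = S.lf e' → S.rt e = S.rt e' → e = e') (p : L ≃ R)
    (na : ∀ e, S.rt e ≠ p (S.lf e)) {T : K → ℕ} (hL : T a + T b + T c + 2 = Fintype.card L)
    (con4 : ∀ A : Finset L, S.Cl A → A.Nonempty → A ≠ univ →
      ∃ x ∈ A, ∀ e, S.rt e = p x → S.lf e ∉ A) : ∃ x, S.Rl x (p x) T := by
  classical
  by_contra hno
  have no : ∀ x, ¬ S.Rl x (p x) T := fun x h => hno ⟨x, h⟩
  have con : ∀ r k, ∀ x ∈ S.cmp r, ∀ z ∈ S.cmp r, ∃ i, S.swap.Rch k x i z := fun r k => by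
    obtain ⟨c, hc⟩ := tp_other ab k
    exact tp_con (tp_min r) hc
  obtain ⟨s, u, t, A, M, β, nf⟩ := normal ab ac bc tri p hL con4
    (starC ab ac bc tri S.cmp (fun _ _ => tp_mem)) no
  obtain ⟨x0, hx0⟩ := nf.neA
  have eA := nf.cmpA x0 hx0
  have cA : S.Cl A := eA ▸ tp_cl x0
  obtain ⟨D, d1, d2, d3⟩ := good3 nf.st nf.ut nf.su sim cA (eA ▸ con x0) nf.sum nf.tu nf.us
  set B := univ.filter (fun r => r ∉ A ∧ ∀ r' ∈ S.cmp r, S.eL t r' ∈ M) with hB
  have mB : ∀ r, r ∈ B ↔ r ∉ A ∧ ∀ r' ∈ S.cmp r, S.eL t r' ∈ M := fun r => by simp [hB]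
  have cB : S.Cl B := fun e e' h1 h2 => (mB _).2 ⟨fun h => ((mB _).1 h2).1 (cA e' e h1.symm h),
    fun r hr => ((mB _).1 h2).2 r ((tp_iff (tp_cl _) hr).2 (tp_cl _ e e' h1 (tp_self _)))⟩
  have hit : ∀ x ∈ D, S.lf (S.eR t (p x)) ∈ B := by
    intro x hx
    obtain ⟨g1, g2, g3⟩ := d3 x hx
    by_cases hi : S.lf (S.eR t (p x)) ∈ A
    · obtain ⟨N, n1, n2, n3⟩ := tp_in nf.tri nf.su nf.st nf.ut sim cA (eA ▸ tp_min x0) nf.sum
        nf.tu nf.us (d1 hx) hi (fun e he => he ▸ na e) g1 g2 g3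
      refine absurd (glueF (B := ∅) cA (fun _ _ _ h => absurd h (notMem_empty _)) nf.pm
        (mem_union_left _ (d1 hx))
        (fun e he => mem_union_left _ (cA _ e (by rw [S.rt_eR, he]) hi)) n1
        (fun e he => mem_union_left _ (n2 e he)) (fun k => ?_)) (no x)
      rw [tp_pure (c := t) nf.pm.1 (fun _ h => absurd h (notMem_empty _)), n3, ← nf.bud k]
      simp [add_comm]
    obtain ⟨j, j1, j2⟩ := (nf.hit x (d1 hx) _ (S.rt_eR t _)).resolve_left hi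
    by_cases hj : j = t
    · exact (mB _).2 ⟨hi, hj ▸ j1⟩
    have hy : ∀ e, S.rt e = p x → S.lf e ∈ S.cmp (S.lf (S.eR t (p x))) := fun e he =>
      tp_cl _ _ e (by rw [S.rt_eR, he]) (tp_self _)
    obtain ⟨N, n1, n2, n3⟩ := jayW nf.tri nf.su nf.st nf.ut sim cA (tp_cl _)
      (disjoint_left.2 (fun r a b => hi ((tp_iff cA b).1 a))) (d1 hx) (eA ▸ con x0) (con _) hy
      nf.sum nf.tu nf.us g1 (j2.resolve_left hj) hj
    refine absurd (glueF cA (tp_cl _) nf.pm (mem_union_left _ (d1 hx))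
      (fun e he => mem_union_right _ (hy e he)) n1 n2 (fun k => ?_)) (no x)
    rw [tp_pure nf.pm.1 j1, n3, ← nf.bud k]
    by_cases hk : k = j
    · rw [if_pos hk, hk, dl_self]; ring
    · rw [if_neg hk, dl_ne (Ne.symm hk)]; ring
  have hit' : ∀ x ∈ D, ∀ e, S.rt e = p x → S.lf e ∈ B := fun x hx e he =>
    cB _ e (by rw [S.rt_eR, he]) (hit x hx)
  obtain ⟨x, hx, N, n1, n2, n3⟩ := tp_ext nf.tri nf.su nf.st nf.ut cA cB
    (fun r hr => ((mB r).1 hr).1) nf.sum p d1 d2 (fun x hx => (d3 x hx).2.1) hit'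
  refine no x (glueF cA cB nf.pm (mem_union_left _ (d1 hx))
    (fun e he => mem_union_right _ (hit' x hx e he)) n1 n2 (fun k => ?_))
  rw [tp_pure nf.pm.1 (fun r hr => ((mB r).1 hr).2 r (tp_self r)), n3, ← nf.bud k]
  ring

end Sys

end Pool.Agent.Lib.MP_cc2426_co
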