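import Mathlib
import Pool.Agent.Lib.MP_cc2426_co.Bridge
import Pool.Agent.Lib.MP_cc2426_co.Comp2
import Pool.Agent.Lib.MP_cc2426_co.Top

/-! One edge of the fourth colour, for all graphs. -/

set_option autoImplicit false

namespace Pool.Agent.Lib.MP_cc2426_co.All

open Finset

theorem add (W : Type) [Fintype W] [DecidableEq W] (σ : Fin 4 → Equiv.Perm W) (a : Fin 4 → ℕ)
    (h1 : a 3 = 1) {x : W} {S : Finset W} {c : W → Fin 3} (hx : x ∉ S)
    (hy : ∀ r ∈ S, σ (c r).castSucc r ≠ σ 3 x)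
    (hi : ∀ r ∈ S, ∀ r' ∈ S, σ (c r).castSucc r = σ (c r').castSucc r' → r = r')
    (hc : ∀ t : Fin 3, (S.filter (fun r => c r = t)).card = a t.castSucc) : Comp.Sol σ a := by
  have ne3 : ∀ s : Fin 3, s.castSucc ≠ 3 := by decide
  have four : ∀ i : Fin 4, i = 3 ∨ ∃ t : Fin 3, i = t.castSucc := by decide
  have nx : ∀ r ∈ S, r ≠ x := fun r hr h => hx (h ▸ hr)
  refine ⟨insert x S, fun r => if r = x then 3 else (c r).castSucc, ?_, fun i => ?_⟩
  · intro r hr r' hr' h
    rcases mem_insert.1 (mem_coe.1 hr) with e | e <;>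
      rcases mem_insert.1 (mem_coe.1 hr') with e' | e'
    · rw [e, e']
    · simp only [e, if_pos, if_neg (nx _ e')] at h
      exact absurd h.symm (hy _ e')
    · simp only [e', if_pos, if_neg (nx _ e)] at h
      exact absurd h (hy _ e)
    · simp only [if_neg (nx _ e), if_neg (nx _ e')] at h
      exact hi _ e _ e' h
  · rw [filter_insert]
    rcases four i with rfl | ⟨t, rfl⟩
    · rw [if_pos (if_pos rfl), filter_eq_empty_iff.2 (fun r hr h =>
        ne3 _ ((if_neg (nx r hr)).symm.trans h)), h1]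
      rfl
    · rw [if_neg (fun h => ne3 t (h.symm.trans (if_pos rfl))), ← hc t]
      congr 1
      exact filter_congr (fun r hr => by simp only [if_neg (nx r hr), Fin.castSucc_inj])

theorem con (W : Type) [Fintype W] [DecidableEq W] (σ : Fin 4 → Equiv.Perm W)
    (hd : ∀ i j, i ≠ j → ∀ x, σ i x ≠ σ j x) (a : Fin 4 → ℕ)
    (hs : (∑ i, a i) + 1 = Fintype.card W) (h1 : a 3 = 1)
    (con4 : ∀ A : Finset W, A.Nonempty → A ≠ univ → ¬ ∀ i, A.image (σ i) = A.image (σ 0)) :
    Comp.Sol σ a := by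
  have ne3 : ∀ s : Fin 3, s.castSucc ≠ 3 := by decide
  have inj : ∀ s u : Fin 3, s ≠ u → s.castSucc ≠ u.castSucc := by decide
  have four : ∀ i : Fin 4, i = 3 ∨ ∃ t : Fin 3, i = t.castSucc := by decide
  rw [Fin.sum_univ_four] at hs
  obtain ⟨x, N, n1, n2⟩ := Sys.top (S := Hub.sys (fun t : Fin 3 => σ t.castSucc)) (a := 0) (b := 1)
    (c := 2) (by decide) (by decide) (by decide) (by decide)
    (fun e e' h1 h2 => by
      obtain ⟨r, k⟩ := e
      obtain ⟨r', k'⟩ := e'
      obtain rfl : r = r' := h1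
      by_contra hne
      exact hd _ _ (inj k k' (fun hh => hne (by rw [hh]))) r h2)
    (σ 3) (fun e => hd _ _ (ne3 e.2) e.1) (T := fun t => a t.castSucc)
    (by change a 0 + a 1 + a 2 + 2 = _; omega)
    (by
      intro A cl a1 a2
      by_contra hno
      push Not at hno
      have im : ∀ i, A.image (σ i) ⊆ A.image (σ 0) := by
        intro i z hz
        obtain ⟨r, hr, rfl⟩ := mem_image.1 hz
        refine mem_image.2 ⟨(σ 0).symm (σ i r), ?_, by simp⟩
        rcases four i with rfl | ⟨t, rfl⟩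
        · obtain ⟨e, e1, e2⟩ := hno r hr
          exact cl e ((σ 0).symm (σ 3 r), 0) (e1.trans ((σ 0).apply_symm_apply _).symm) e2
        · exact cl (r, t) ((σ 0).symm (σ t.castSucc r), 0) ((σ 0).apply_symm_apply _).symm hr
      exact con4 A a1 a2 (fun i => eq_of_subset_of_card_le (im i) (by
        rw [card_image_of_injective _ (σ 0).injective, card_image_of_injective _ (σ i).injective])))
  obtain ⟨c, c1, c2⟩ := Pick.colours (fun t : Fin 3 => σ t.castSucc) n1.1
  exact add W σ a h1 (S := N.image Prod.fst) (c := c) (fun h => (n1.2 _ (c1 x h)).1 rfl)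
    (fun r hr => (n1.2 _ (c1 r hr)).2)
    (fun r hr r' hr' h => congrArg Prod.fst (n1.1.r _ (c1 r hr) _ (c1 r' hr') h))
    (fun t => by exact_mod_cast (c2 t).symm.trans (n2 t))

theorem main (W : Type) [Fintype W] [DecidableEq W] (σ : Fin 4 → Equiv.Perm W)
    (hd : ∀ i j, i ≠ j → ∀ x, σ i x ≠ σ j x) (a : Fin 4 → ℕ)
    (hs : (∑ i, a i) + 1 = Fintype.card W) (h1 : a 3 = 1) : Comp.Sol σ a :=
  Comp.comp4 (fun W _ _ σ hd a hs h1 h => con W σ hd a hs h1 h) _ W rfl σ hd a hs h1

end Pool.Agent.Lib.MP_cc2426_co.All
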