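import Pool.Agent.Lib.MP_cc2426_co.Fail

/-! The deleted row and the deleted column lie in different components. -/

set_option autoImplicit false
set_option linter.unusedSectionVars false

namespace Pool.Agent.Lib.MP_cc2426_co

open Finset

variable {E L R K : Type*} [DecidableEq E] [DecidableEq L] [DecidableEq R] [DecidableEq K]
  [Fintype L] [Fintype R]

namespace Sys

variable {S : Sys E L R K} {s u t : K} {x : L} {y : R}

theorem Mv.filt {N N' : Finset E} (h : S.Mv x y N N') (p : E → Prop) [DecidablePred p]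
    (hp : ∀ f g, g ∈ N → N' = insert f (N.erase g) → (S.rt f = S.rt g ∨ S.lf f = S.lf g) →
      (p f ↔ p g)) :
    (S.Mv x y (N.filter p) (N'.filter p) ∧ N'.filter (fun e => ¬ p e) = N.filter (fun e => ¬ p e)) ∨
      (S.Mv x y (N.filter (fun e => ¬ p e)) (N'.filter (fun e => ¬ p e)) ∧
        N'.filter p = N.filter p) := by
  obtain ⟨a, f, g, b, c, d⟩ := h
  have e := hp f g b c (d.imp (fun h => h.2.2) (fun h => h.2.2))
  have key : ∀ (q : E → Prop) [DecidablePred q], q f → q g →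
      S.Mv x y (N.filter q) (N'.filter q) := by
    intro q _ q1 q2
    refine ⟨a.mono (filter_subset _ _), f, g, mem_filter.2 ⟨b, q2⟩, ?_, ?_⟩
    · rw [c, filter_insert, if_pos q1, filter_erase]
    · exact d.imp (fun h => ⟨h.1, fun e he => h.2.1 e (mem_filter.1 he).1, h.2.2⟩)
        (fun h => ⟨h.1, fun e he => h.2.1 e (mem_filter.1 he).1, h.2.2⟩)
  have key2 : ∀ (q : E → Prop) [DecidablePred q], ¬ q f → ¬ q g → N'.filter q = N.filter q := by
    intro q _ q1 q2
    rw [c, filter_insert, if_neg q1, filter_erase,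
      erase_eq_of_notMem (fun h => q2 (mem_filter.1 h).2)]
  by_cases h : p f
  · exact Or.inl ⟨key p h (e.1 h), key2 _ (not_not.2 h) (not_not.2 (e.1 h))⟩
  · exact Or.inr ⟨key _ h (fun h' => h (e.2 h')), key2 p h (fun h' => h (e.2 h'))⟩

theorem Mv.card_union {N N' : Finset E} (h : S.Mv x y N N') : (N ∪ N').card ≤ N.card + 1 := by
  obtain ⟨_, f, g, _, rfl, _⟩ := h
  refine (card_le_card (t := insert f N) ?_).trans (card_insert_le _ _)
  exact union_subset (subset_insert _ _) (insert_subset_insert _ (erase_subset _ _))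

theorem Mv.vec_le {N N' : Finset E} (h : S.Mv x y N N') (k : K) : S.vec N' k ≤ S.vec N k + 1 := by
  obtain ⟨a, f, g, b, rfl, d | d⟩ := h
  · have := congrFun (a.mvL d.1 d.2.1 b d.2.2).2.2.1 k
    have := dl_nn (S.col g) k
    have := dl_le (S.col f) k
    simp only [Pi.add_apply] at *
    omega
  · have : S.vec _ k + dl (S.col g) k = S.vec N k + dl (S.col f) k :=
      congrFun (a.swap.mvL d.1 d.2.1 b d.2.2).2.2.1 k
    have := dl_nn (S.col g) k
    have := dl_le (S.col f) k
    omega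

theorem split_union (N : Finset E) (p : E → Prop) [DecidablePred p] :
    N.filter p ∪ N.filter (fun e => ¬ p e) = N := by
  ext e; simp only [mem_union, mem_filter]; tauto

theorem crossing (hsu : s ≠ u) (hst : s ≠ t) (hut : u ≠ t) (tri : ∀ k, k = s ∨ k = u ∨ k = t)
    {m : ℕ} {T : K → ℤ} (hT : T s + T u + T t = m) (sL : L → Prop) [DecidablePred sL]
    (sR : R → Prop) (side : ∀ e, sL (S.lf e) ↔ sR (S.rt e)) {N0 N1 N1' N2 : Finset E}
    (a1 : S.Av x y N1) (c1 : N1.card = m) (low : S.Low x y t (T t) N1 N2)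
    (a1' : S.Av x y N1')
    (e1 : N1'.filter (fun e => sL (S.lf e)) = N1.filter (fun e => sL (S.lf e)))
    (up : S.Ch x y (fun _ => True) N1' N0)
    (h0 : T t ≤ S.vec (N0.filter (fun e => sL (S.lf e))) t)
    (h1 : T t ≤ S.vec (N1.filter (fun e => ¬ sL (S.lf e))) t)
    (h2 : T t ≤ S.vec (N2.filter (fun e => ¬ sL (S.lf e))) t)
    (v1 : S.vec N1 t = T t) (v2 : S.vec N2 t = T t)
    (v3 : S.vec N1 u ≤ T u) (v4 : S.vec N2 s ≤ T s) :
    ∃ N, S.Av x y N ∧ N.card = m ∧ S.vec N s = T s ∧ S.vec N u = T u ∧ S.vec N t = T t := by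
  classical
  by_contra hno
  set k : Fin 3 → K := ![t, s, u] with hk'
  have k0 : k 0 = t := rfl
  have k1 : k 1 = s := rfl
  have k2 : k 2 = u := rfl
  have col : ∀ e, S.col e ∈ ({t, s, u} : Finset K) := fun e => by
    rcases tri (S.col e) with h | h | h <;> simp [h]
  have sm : ∀ N, S.vec N t + S.vec N s + S.vec N u = N.card := by
    intro N
    have := sum_vec (S := S) (M := N) (fun e _ => col e)
    rw [sum_insert (by simp [hst.symm, hut.symm]), sum_pair hsu] at this
    omega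
  set l : Finset E → Fin 3 := fun N => if T t < S.vec N t then 0 else
    if T s < S.vec N s then 1 else 2 with hl
  have lab : ∀ N, S.Av x y N → N.card = m → T (k (l N)) < S.vec N (k (l N)) := by
    intro N b1 b3
    have := sm N
    by_cases p : T t < S.vec N t
    · simp [hl, p, k0]
    by_cases q : T s < S.vec N s
    · simp [hl, p, q, k1]
    have : T u < S.vec N u := by
      by_contra r
      exact hno ⟨N, b1, by omega, by omega, by omega, by omega⟩
    simpa [hl, p, q, k2] using this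
  have avoid : ∀ Z j, S.vec Z (k j) ≤ T (k j) → ∀ N, S.Av x y N ∧ N.card = m → N ⊆ Z →
      l N ≠ j := by
    intro Z j h N b1 b4 e
    have := lab N b1.1 b1.2
    have := vec_mono (S := S) b4 (k j)
    rw [e] at *
    omega
  have adj0 : ∀ U N N', U.card ≤ m + 1 → T t ≤ S.vec U t → S.Av x y N ∧ N.card = m →
      S.Av x y N' ∧ N'.card = m → N ⊆ U → N' ⊆ U →
      cd (l N) (l N') = cd (l N) 0 - cd (l N') 0 := by
    intro U N N' b1 b2 b3 b4 b5 b6
    have := sm U
    by_cases c : S.vec U s ≤ T s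
    · exact cd_to 1 _ _ (by decide) (avoid U 1 c _ b3 b5) (avoid U 1 c _ b4 b6)
    · have c' : S.vec U u ≤ T u := by omega
      exact cd_to 2 _ _ (by decide) (avoid U 2 c' _ b3 b5) (avoid U 2 c' _ b4 b6)
  set p : E → Prop := fun e => sL (S.lf e) with hp
  have hp' : ∀ N N' : Finset E, ∀ f g, g ∈ N → N' = insert f (N.erase g) →
      (S.rt f = S.rt g ∨ S.lf f = S.lf g) → (p f ↔ p g) := by
    intro _ _ f g _ _ h
    rcases h with h | h
    · simp only [hp]; rw [side, side, h]
    · simp only [hp]; rw [h]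
  set mX := (N1.filter p).card with hmX
  set mY := (N1.filter (fun e => ¬ p e)).card with hmY
  have hm : mX + mY = m := by rw [hmX, hmY, card_filter_add_card_filter_not, c1]
  let VX : Finset E → Prop := fun a => S.Av x y a ∧ (∀ e ∈ a, p e) ∧ a.card = mX
  let VY : Finset E → Prop := fun b => S.Av x y b ∧ (∀ e ∈ b, ¬ p e) ∧ b.card = mY
  have val : ∀ a b, VX a → VY b → S.Av x y (a ∪ b) ∧ (a ∪ b).card = m := by
    intro a b ha hb
    have d : ∀ e ∈ a, ∀ f ∈ b, S.lf e ≠ S.lf f ∧ S.rt e ≠ S.rt f := fun e he f hf =>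
      ⟨fun h => hb.2.1 f hf (by have := ha.2.1 e he; simp only [hp] at this ⊢; rwa [← h]),
        fun h => hb.2.1 f hf (by
          have := ha.2.1 e he; simp only [hp] at this ⊢; rw [side] at this ⊢; rwa [← h])⟩
    exact ⟨ha.1.union hb.1 d, by rw [card_union_of_disjoint (disj_of d), ha.2.2, hb.2.2, hm]⟩
  let P : Finset E → (Finset E → ℤ) → Prop := fun a Φ =>
    (∀ b b', VY b → VY b' → (b ∪ b').card ≤ mY + 1 → Φ b - Φ b' = cd (l (a ∪ b)) (l (a ∪ b'))) ∧
      ∀ b, VY b → T t ≤ S.vec b t → Φ b = cd (l (a ∪ b)) 0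
  have step : ∀ a a' Φ, VX a → VX a' → (a ∪ a').card ≤ mX + 1 → P a Φ →
      P a' (fun b => Φ b - cd (l (a ∪ b)) (l (a' ∪ b))) := by
    intro a a' Φ ha ha' hc hP
    constructor
    · intro b b' hb hb' hc'
      have u1 := card_union_le (a ∪ a') (b ∪ b')
      have := sm ((a ∪ a') ∪ (b ∪ b'))
      obtain ⟨j, hj⟩ : ∃ j, S.vec ((a ∪ a') ∪ (b ∪ b')) (k j) ≤ T (k j) := by
        by_contra h
        push Not at h
        have := h 0
        have := h 1
        have := h 2
        rw [k0, k1, k2] at *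
        omega
      have w1 := avoid _ j hj _ (val a b ha hb)
        (union_subset_union subset_union_left subset_union_left)
      have w2 := avoid _ j hj _ (val a' b ha' hb)
        (union_subset_union subset_union_right subset_union_left)
      have w3 := avoid _ j hj _ (val a b' ha hb')
        (union_subset_union subset_union_left subset_union_right)
      have w4 := avoid _ j hj _ (val a' b' ha' hb')
        (union_subset_union subset_union_right subset_union_right)
      have z1 := cd_add j _ _ _ w1 w3 w4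
      have z2 := cd_add j _ _ _ w1 w2 w4
      have z3 := hP.1 b b' hb hb' hc'
      simp only
      omega
    · intro b hb hv
      have u1 := card_union_le (a ∪ a') b
      have := hb.2.2
      have z1 := adj0 ((a ∪ a') ∪ b) _ _ (by omega) (hv.trans (vec_mono subset_union_right t))
        (val a b ha hb) (val a' b ha' hb) (union_subset_union subset_union_left (Subset.refl _))
        (union_subset_union subset_union_right (Subset.refl _))
      have z2 := hP.2 b hb hv
      simp only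
      omega
  have vx : ∀ N, S.Av x y N → (N.filter p).card = mX → VX (N.filter p) := fun N a c =>
    ⟨a.mono (filter_subset _ _), fun e he => (mem_filter.1 he).2, c⟩
  have vy : ∀ N, S.Av x y N → (N.filter (fun e => ¬ p e)).card = mY →
      VY (N.filter (fun e => ¬ p e)) := fun N a c =>
    ⟨a.mono (filter_subset _ _), fun e he => (mem_filter.1 he).2, c⟩
  have back : ∀ N, S.Ch x y (fun _ => True) N1' N → (N.filter p).card = mX ∧
      ((∃ Φ, P (N.filter p) Φ) → ∃ Φ, P (N1'.filter p) Φ) := by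
    intro N h
    induction h with
    | refl => exact ⟨by rw [e1], id⟩
    | @tail N N' h b ih =>
      rcases b.1.filt p (hp' N N') with d | d
      · have c := d.1.av.2.trans ih.1
        refine ⟨c, fun ⟨Φ, hΦ⟩ => ih.2 ⟨_, step _ _ Φ (vx N' b.1.av.1 c) (vx N b.1.1 ih.1) ?_ hΦ⟩⟩
        rw [union_comm, ← ih.1]; exact d.1.card_union
      · rw [d.2]; exact ih
  have b0 := back N0 up
  have x0 := vx N0 (up.av a1').1 b0.1
  obtain ⟨Φ1, hΦ1⟩ := b0.2 ⟨fun b => cd (l (N0.filter p ∪ b)) 0, fun b b' hb hb' hc => by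
    have u1 := card_union_le (N0.filter p) (b ∪ b')
    have := x0.2.2
    exact (adj0 (N0.filter p ∪ (b ∪ b')) _ _ (by omega) (h0.trans (vec_mono subset_union_left t))
      (val _ b x0 hb) (val _ b' x0 hb') (union_subset_union (Subset.refl _) subset_union_left)
      (union_subset_union (Subset.refl _) subset_union_right)).symm, fun _ _ _ => rfl⟩
  rw [e1] at hΦ1
  have path : ∀ N, S.Low x y t (T t) N1 N → (N.filter p).card = mX ∧
      (N.filter (fun e => ¬ p e)).card = mY ∧ ∃ Φ, P (N.filter p) Φ ∧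
        Φ (N.filter (fun e => ¬ p e)) =
          cd (l N1) 0 - (cd (l N1) (0 + 1) - cd (l N) (0 + 1)) := by
    intro N h
    induction h with
    | refl =>
      refine ⟨rfl, rfl, Φ1, hΦ1, ?_⟩
      rw [hΦ1.2 _ (vy N1 a1 rfl) h1, split_union, sub_self, sub_zero]
    | @tail N N' h b ih =>
      obtain ⟨i1, i2, Φ, i3, i4⟩ := ih
      have n1 := Low.av h a1
      have n2 := b.1.av
      have w : cd (l N) (l N') = cd (l N) (0 + 1) - cd (l N') (0 + 1) := cd_sub 0 _ _
        (avoid N 0 b.2.1 _ ⟨n1.1, n1.2.trans c1⟩ (Subset.refl _))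
        (avoid N' 0 b.2.2 _ ⟨n2.1, n2.2.trans (n1.2.trans c1)⟩ (Subset.refl _))
      rcases b.1.filt p (hp' N N') with d | d
      · have c := d.1.av.2.trans i1
        refine ⟨c, by rw [d.2]; exact i2, _,
          step _ _ Φ (vx N n1.1 i1) (vx N' n2.1 c) (by rw [← i1]; exact d.1.card_union) i3, ?_⟩
        have z := split_union N' p
        rw [d.2] at z ⊢
        rw [z, split_union]
        omega
      · have c := d.1.av.2.trans i2
        refine ⟨by rw [d.2]; exact i1, c, Φ, by rw [d.2]; exact i3, ?_⟩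
        have z0 := i3.1 _ _ (vy N n1.1 i2) (vy N' n2.1 c) (by rw [← i2]; exact d.1.card_union)
        have z := split_union N' p
        rw [d.2] at z
        rw [z, split_union] at z0
        omega
  obtain ⟨i1, i2, Φ, i3, i4⟩ := path N2 low
  have b2 := low.av a1
  have z := i3.2 _ (vy N2 b2.1 i2) h2
  rw [split_union] at z
  have pick : ∀ i : Fin 3, (i ≠ 0 → i ≠ 2 → i = 1) ∧ (i ≠ 0 → i ≠ 1 → i = 2) := by decide
  have l1 := (pick (l N1)).1 (avoid N1 0 v1.le _ ⟨a1, c1⟩ (Subset.refl _))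
    (avoid N1 2 v3 _ ⟨a1, c1⟩ (Subset.refl _))
  have l2 := (pick (l N2)).2 (avoid N2 0 v2.le _ ⟨b2.1, b2.2.trans c1⟩ (Subset.refl _))
    (avoid N2 1 v4 _ ⟨b2.1, b2.2.trans c1⟩ (Subset.refl _))
  rw [z, l1, l2] at i4
  revert i4
  decide

theorem holeL (hs : s ≠ t) {τ : ℕ} (hx : ¬ S.RchL t y τ x) {N : Finset E} (a : S.Av x y N)
    (cL : N.card + 2 = Fintype.card L) (cR : N.card + 2 = Fintype.card R) (v : S.vec N t ≤ τ)
    {r : L} (fr : S.FrL N r) (rx : r ≠ x) : S.RchL t y τ r := by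
  classical
  obtain ⟨q, q1, q2⟩ := exists_frL (S := S.swap) (FL := {y}) (M := N)
    (by rw [card_singleton]; omega)
  have qy : q ≠ y := fun h => q1 (mem_singleton.2 h)
  set lam : R → ℕ := fun z => ((range (τ + 1)).filter (fun i => ¬ S.Rch t y i z)).card with hlam
  have ns : ∀ r, S.col (S.eL s r) ≠ t := fun r => by rwa [S.col_eL]
  have le : ∀ z, lam z ≤ τ + 1 := fun z => (card_filter_le _ _).trans (card_range _).le
  have full : ∀ z, ¬ S.Rch t y τ z → lam z = τ + 1 := fun z h => by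
    simp only [hlam]
    have e : (range (τ + 1)).filter (fun i => ¬ S.Rch t y i z) = range (τ + 1) :=
      filter_true_of_mem (fun i hi h' => h (h'.mono (by have := mem_range.1 hi; omega)))
    rw [e, card_range]
  have y0 : lam y = 0 := by
    simp only [hlam]
    rw [filter_false_of_mem (fun i _ h => h (Rch.refl i)), card_empty]
  have := level_le (S := S) hs (lamL := fun r => (lam (S.rt (S.eL s r)) : ℤ))
    (lamR := fun z => (lam z : ℤ)) (fun e he => by
      have : lam (S.rt e) = lam (S.rt (S.eL s (S.lf e))) := by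
        simp only [hlam]
        rw [filter_congr (fun i _ => not_congr
          ⟨fun h => Rch.flat e (S.eL s (S.lf e)) h he (S.lf_eL _ _) (ns _),
            fun h => Rch.flat (S.eL s (S.lf e)) e h (ns _) (S.lf_eL _ _).symm he⟩)]
      exact_mod_cast this)
    (fun e => by
      have : lam (S.rt e) ≤ lam (S.rt (S.eL s (S.lf e))) + 1 := by
        simp only [hlam]
        refine (card_le_card (t := insert 0 (((range (τ + 1)).filter
          (fun i => ¬ S.Rch t y i (S.rt (S.eL s (S.lf e))))).image (· + 1))) ?_).trans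
          ((card_insert_le _ _).trans (Nat.succ_le_succ card_image_le))
        intro i hi
        obtain ⟨i1, i2⟩ := mem_filter.1 hi
        rcases i with _ | i
        · exact mem_insert_self _ _
        · refine mem_insert_of_mem (mem_image.2 ⟨i, mem_filter.2 ⟨mem_range.2 ?_, fun h => i2
            (Rch.arc (S.eL s (S.lf e)) e h (ns _) (S.lf_eL _ _).symm)⟩, rfl⟩)
          have := mem_range.1 i1
          omega
      exact_mod_cast this)
    a.1 (Z := {r, x}) (Z' := {q, y})
    (fun z hz e he => by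
      rcases mem_insert.1 hz with rfl | hz
      · exact fr e he
      · rw [mem_singleton.1 hz]; exact (a.2 e he).1)
    (fun z hz e he => by
      rcases mem_insert.1 hz with rfl | hz
      · exact q2 e he
      · rw [mem_singleton.1 hz]; exact (a.2 e he).2)
    (by rw [card_pair rx]; omega) (by rw [card_pair qy]; omega)
  rw [sum_pair rx, sum_pair qy] at this
  have h1 := full _ (fun h => hx ⟨S.eL s x, S.lf_eL _ _, ns _, h⟩)
  have h2 := le q
  by_contra h
  have h3 := full _ (fun h' => h ⟨S.eL s r, S.lf_eL _ _, ns _, h'⟩)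
  omega

theorem Ch.ivt {Q : Finset E → Prop} {N0 N : Finset E} {τ : ℤ} (h : S.Ch x y Q N0 N)
    (h0 : S.vec N0 t ≤ τ) (h1 : τ ≤ S.vec N t) :
    ∃ X, S.Ch x y (fun N => Q N ∧ S.vec N t ≤ τ) N0 X ∧ S.vec X t = τ := by
  have key : (S.Ch x y (fun N => Q N ∧ S.vec N t ≤ τ) N0 N ∧ S.vec N t ≤ τ) ∨
      ∃ X, S.Ch x y (fun N => Q N ∧ S.vec N t ≤ τ) N0 X ∧ S.vec X t = τ := by
    clear h1
    induction h with
    | refl => exact Or.inl ⟨Relation.ReflTransGen.refl, h0⟩
    | @tail N N' _ b ih =>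
      rcases ih with ih | ih
      · by_cases e : S.vec N t = τ
        · exact Or.inr ⟨N, ih.1, e⟩
        · have := b.1.vec_le t
          have l : S.vec N' t ≤ τ := by have := ih.2; omega
          exact Or.inl ⟨Relation.ReflTransGen.tail ih.1 ⟨b.1, ⟨b.2.1, ih.2⟩, b.2.2, l⟩, l⟩
      · exact Or.inr ih
  rcases key with k | k
  · exact ⟨N, k.1, le_antisymm k.2 h1⟩
  · exact k

theorem grow2 (hs : s ≠ t) (hu : u ≠ t) (hsu : s ≠ u)
    (sim : ∀ e e', S.lf e = S.lf e' → S.rt e = S.rt e' → e = e') {Z : Finset R} {i : ℕ}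
    (h : ∃ j, ∃ r ∈ S.ball t Z j, r ∉ S.ball t Z i) : Z.card + 2 * i ≤ (S.ball t Z i).card := by
  have row : ∀ {q0 q : R} {j : ℕ}, S.Rch t q0 j q → S.RchL t q0 j (S.lf (S.eR s q)) :=
    fun h => Rch.row (by rwa [S.rt_eR]) (by rwa [S.col_eR])
  have mon : ∀ j, S.ball t Z j ⊆ S.ball t Z (j + 1) := by
    intro j r hr
    obtain ⟨q, a, b⟩ := mem_ball.1 hr
    exact mem_ball.2 ⟨q, a, b.mono (Nat.le_succ _)⟩
  induction i with
  | zero =>
    have inj : Function.Injective (fun q => S.lf (S.eR s q)) := by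
      intro q q' h
      have := congrArg S.rt (S.eq_of_lf h (by rw [S.col_eR, S.col_eR]))
      rwa [S.rt_eR, S.rt_eR] at this
    rw [← card_image_of_injective Z inj]
    refine card_le_card fun r hr => ?_
    obtain ⟨q, a, rfl⟩ := mem_image.1 hr
    exact mem_ball.2 ⟨q, a, row (Rch.refl 0)⟩
  | succ i ih =>
    obtain ⟨j0, r0, z1, z2⟩ := h
    have new : ∃ r ∈ S.ball t Z (i + 1), r ∉ S.ball t Z i := by
      by_contra hn
      push Not at hn
      obtain ⟨q0, hq0, e0, e1, e2, e3⟩ := mem_ball.1 z1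
      have all : ∀ j q, S.Rch t q0 j q → ∃ q1 ∈ Z, S.Rch t q1 i q := by
        intro j q hq
        induction hq with
        | refl j => exact ⟨q0, hq0, Rch.refl _⟩
        | flat e e' _ a b c ih =>
          obtain ⟨q1, d, d'⟩ := ih
          exact ⟨q1, d, Rch.flat e e' d' a b c⟩
        | arc e e' _ a b ih =>
          obtain ⟨q1, d, d'⟩ := ih
          obtain ⟨q2, g, g'⟩ := mem_ball.1 (hn _ (mem_ball.2 ⟨q1, d, row (Rch.arc e e' d' a b)⟩))
          have := RchL.flat g' (by rwa [S.col_eR])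
          rw [S.rt_eR] at this
          exact ⟨q2, g, this⟩
      obtain ⟨q1, d, d'⟩ := all _ _ e3
      exact z2 (mon i (mem_ball.2 ⟨q1, d, e0, e1, e2, d'⟩))
    obtain ⟨r, r1, r2⟩ := new
    obtain ⟨f, f1, f3⟩ : ∃ f, S.lf f = r ∧ S.col f = s := ⟨S.eL s r, S.lf_eL _ _, S.col_eL _ _⟩
    obtain ⟨g, g1, g3⟩ : ∃ g, S.rt g = S.rt f ∧ S.col g = u :=
      ⟨S.eR u (S.rt f), S.rt_eR _ _, S.col_eR _ _⟩
    subst f1
    have f2 : S.col f ≠ t := by rwa [f3]
    have g2 : S.col g ≠ t := by rwa [g3]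
    have ne : S.lf f ≠ S.lf g := by
      intro e
      have := congrArg S.col (sim f g e g1.symm)
      rw [f3, g3] at this
      exact hsu this
    have p1 : S.lf g ∈ S.ball t Z (i + 1) := by
      obtain ⟨q, a, b⟩ := mem_ball.1 r1
      have c := RchL.flat b f2
      rw [← g1] at c
      exact mem_ball.2 ⟨q, a, Rch.row c g2⟩
    have p2 : S.lf g ∉ S.ball t Z i := by
      intro hh
      obtain ⟨q, a, b⟩ := mem_ball.1 hh
      have c := RchL.flat b g2
      rw [g1] at c
      exact r2 (mem_ball.2 ⟨q, a, Rch.row c f2⟩)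
    have sub : insert (S.lf f) (insert (S.lf g) (S.ball t Z i)) ⊆ S.ball t Z (i + 1) :=
      insert_subset r1 (insert_subset p1 (mon i))
    have c := card_le_card sub
    rw [card_insert_of_notMem (by simp [ne, r2]), card_insert_of_notMem p2] at c
    have := ih ⟨j0, r0, z1, fun hh => z2 (mon i hh)⟩
    omega

theorem ball_cy {i : ℕ} : S.ball t (S.cy t y) i = S.ball t {y} i := by
  ext r
  simp only [mem_ball, mem_singleton, exists_eq_left, mem_cy]
  constructor
  · rintro ⟨q, a, e, b, c, d⟩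
    exact ⟨e, b, c, by simpa using a.trans d⟩
  · exact fun h => ⟨y, Rch.refl 0, h⟩

theorem mem_ball1 {i : ℕ} {r : L} : r ∈ S.ball t {y} i ↔ S.RchL t y i r := by
  simp only [mem_ball, mem_singleton, exists_eq_left]

/-- a ball has `2 i + 2` rows or is the whole component. -/
theorem grow3 (hs : s ≠ t) (hu : u ≠ t) (hsu : s ≠ u)
    (sim : ∀ e e', S.lf e = S.lf e' → S.rt e = S.rt e' → e = e') (i : ℕ) :
    2 * i + 2 ≤ (S.ball t {y} i).card ∨ ∀ j, S.ball t {y} j ⊆ S.ball t {y} i := by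
  by_cases h : ∃ j, ∃ r ∈ S.ball t (S.cy t y) j, r ∉ S.ball t (S.cy t y) i
  · have := grow2 hs hu hsu sim h
    have := two_le_cy hs hu hsu sim y
    rw [ball_cy] at *
    exact Or.inl (by omega)
  · push Not at h
    exact Or.inr (fun j r hr => by
      have := h j r (by rwa [ball_cy])
      rwa [ball_cy] at this)

theorem Rch.side {sL : L → Prop} {sR : R → Prop} (side : ∀ e, sL (S.lf e) ↔ sR (S.rt e)) {k : K}
    {q0 q : R} {i : ℕ} (h : S.Rch k q0 i q) : sR q ↔ sR q0 := by
  induction h with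
  | refl => rfl
  | flat e e' _ _ b _ ih => rw [← side, b, side, ih]
  | arc e e' _ _ b ih => rw [← side, b, side, ih]

theorem RchL.side {sL : L → Prop} {sR : R → Prop} (side : ∀ e, sL (S.lf e) ↔ sR (S.rt e)) {k : K}
    {q0 : R} {r : L} {i : ℕ} (h : S.RchL k q0 i r) : sL r ↔ sR q0 := by
  obtain ⟨e, rfl, _, c⟩ := h
  rw [side, c.side side]

theorem vec_rows_ge {M : Finset E} {k : K} {Z : Finset L} (h : ∀ r ∈ Z, S.eL k r ∈ M) :
    (Z.card : ℤ) ≤ S.vec M k := by
  rw [vec_apply]
  exact_mod_cast card_le_card_of_injOn (S.eL k)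
    (fun r hr => mem_filter.2 ⟨h r hr, S.col_eL _ _⟩)
    (fun r _ r' _ hh => by rw [← S.lf_eL k r, hh, S.lf_eL])

/-- both ends are near the deleted column. -/
def Ny (S : Sys E L R K) (y : R) (t : K) (τ : ℕ) (e : E) : Prop :=
  S.RchL t y τ (S.lf e) ∧ S.Rch t y τ (S.rt e)

/-- from colour `s` near `y` one reaches `τ` edges of colour `t` with few edges of colour `u`. -/
theorem cost (tri : ∀ k, k = s ∨ k = u ∨ k = t) (hsu : s ≠ u) (hs : s ≠ t) (hu : u ≠ t)
    (sim : ∀ e e', S.lf e = S.lf e' → S.rt e = S.rt e' → e = e')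
    (hn : Fintype.card L = Fintype.card R) {sL : L → Prop} {sR : R → Prop}
    (side : ∀ e, sL (S.lf e) ↔ sR (S.rt e)) (hx : sL x) (hy : ¬ sR y) {τ : ℕ}
    (big : ∃ j, τ < (S.ball u {y} j).card) :
    ∃ X, S.Ch x y (fun N => S.vec N t ≤ τ ∧ ∀ e ∈ N, S.Ny y t τ e)
      (S.base x y s (S.ball t {y} τ)) X ∧ S.vec X t = τ ∧ 2 * S.vec X u ≤ τ := by
  classical
  have nx : ∀ k i, ¬ S.RchL k y i x := fun k i h => hy ((h.side side).1 hx)
  have na : ∀ e, S.lf e = x → S.rt e ≠ y := fun e a b => hy (b ▸ (side e).1 (a ▸ hx))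
  have tri' : ∀ k, k = s ∨ k = t ∨ k = u := fun k => by have := tri k; tauto
  set ρ := τ / 2 with hρ
  set B := S.ball u {y} ρ with hB
  have cB : τ < B.card := by
    rcases grow3 (S := S) (y := y) (t := u) hsu hu.symm hs sim ρ with h | h
    · rw [← hB] at h; omega
    · obtain ⟨j, hj⟩ := big
      exact hj.trans_le (card_le_card (h j))
  have k0 : S.Pure u (S.colr s t ∅) := pure_colr tri' hsu hu.symm (by simp)
  have k1 : S.Pure u (S.colr s t B) := pure_colr tri' hsu hu.symm
    (fun r hr r' h => mem_ball1.2 ((mem_ball1.1 hr).cy h))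
  have m0 : ∀ e, e ∈ S.cut x y (S.colr s t ∅) ↔ S.col e = s ∧ S.lf e ≠ x ∧ S.rt e ≠ y := by
    intro e; simp [cut, mem_colr]
  have l0 := flip tri' hsu hu.symm hs (nx u ρ) k0 k1 (fun e a b => by
    rw [mem_colr] at a b
    simp only [notMem_empty, if_false] at a
    by_cases h : S.lf e ∈ B
    · exact Or.inl ((mem_ball1.1 h).flat (by rw [a]; exact hsu))
    · rw [if_neg h] at b; exact absurd a b)
  set N0 := S.cut x y (S.colr s t ∅) with hN0
  have a0 : S.Av x y N0 := k0.av
  have c0 : N0.card + 2 = Fintype.card L := card_cut k0 na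
  set p : E → Prop := fun e => sL (S.lf e) with hp
  have hp' : ∀ N N' : Finset E, ∀ f g, g ∈ N → N' = insert f (N.erase g) →
      (S.rt f = S.rt g ∨ S.lf f = S.lf g) → (p f ↔ p g) := by
    intro _ _ f g _ _ h
    rcases h with h | h
    · simp only [hp]; rw [side, side, h]
    · simp only [hp]; rw [h]
  have pr : ∀ N, S.Low x y u ρ N0 N →
      S.Ch x y (fun b => S.vec b u ≤ ρ ∧ ∀ e ∈ b, ¬ p e) (N0.filter (fun e => ¬ p e))
        (N.filter (fun e => ¬ p e)) := by
    intro N h
    induction h with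
    | refl => exact Relation.ReflTransGen.refl
    | @tail N N' _ b ih =>
      rcases b.1.filt p (hp' N N') with d | d
      · rw [d.2]; exact ih
      · exact Relation.ReflTransGen.tail ih ⟨d.1,
          ⟨(vec_mono (filter_subset _ _) u).trans b.2.1, fun e he => (mem_filter.1 he).2⟩,
          (vec_mono (filter_subset _ _) u).trans b.2.2, fun e he => (mem_filter.1 he).2⟩
  have dj : ∀ b : Finset E, (∀ e ∈ b, ¬ p e) → ∀ e ∈ b, ∀ f ∈ N0.filter p,
      S.lf e ≠ S.lf f ∧ S.rt e ≠ S.rt f := fun b hb e he f hf =>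
    ⟨fun h => hb e he (by have := (mem_filter.1 hf).2; simp only [hp] at this ⊢; rwa [h]),
      fun h => hb e he (by
        have := (mem_filter.1 hf).2; simp only [hp] at this ⊢; rw [side] at this ⊢; rwa [h])⟩
  have l1 := Ch.lift (Q' := fun N => S.vec N u ≤ ρ ∧ N.filter p = N0.filter p)
    (a0.mono (filter_subset p _)) (fun b hb => ⟨dj b hb.2, by
      rw [vec_union (disj_of (dj b hb.2)), Pi.add_apply,
        vec_zero (M := N0.filter p) (fun e he => by rw [((m0 e).1 (mem_filter.1 he).1).1]; exact hsu),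
        add_zero]
      exact hb.1, by
      rw [filter_union, filter_false_of_mem hb.2, empty_union, filter_filter]
      exact filter_congr (fun _ _ => and_self_iff)⟩) (pr _ l0)
  rw [union_comm, split_union] at l1
  have w0 : S.vec N0 t = 0 := vec_zero (fun e he => by rw [((m0 e).1 he).1]; exact hs)
  obtain ⟨X, x1, x2⟩ := l1.ivt (t := t) (τ := τ) (by omega) (by
    have h1 := vec_rows_ge (S := S) (k := t) (Z := B.erase (S.lf (S.eR t y)))
      (M := (S.cut x y (S.colr s t B)).filter (fun e => ¬ p e) ∪ N0.filter p) (fun r hr => by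
        obtain ⟨r1, r2⟩ := mem_erase.1 hr
        have r3 : ¬ sL r := fun h => hy (((mem_ball1.1 r2).side side).1 h)
        refine mem_union_left _ (mem_filter.2 ⟨mem_filter.2 ⟨mem_colr.2 ?_, ?_, ?_⟩, ?_⟩)
        · rw [S.col_eL, S.lf_eL, if_pos r2]
        · rw [S.lf_eL]; exact fun h => r3 (h ▸ hx)
        · intro h
          apply r1
          rw [← h, eR_rt (S.col_eL _ _), S.lf_eL]
        · simp only [hp]; rwa [S.lf_eL])
    have h2 := pred_card_le_card_erase (s := B) (a := S.lf (S.eR t y))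
    omega)
  have rs : ∀ N, S.Ch x y (fun N => (S.vec N u ≤ ρ ∧ N.filter p = N0.filter p) ∧ S.vec N t ≤ τ)
      N0 N → S.Ch x y (fun N => S.vec N t ≤ τ ∧ ∀ e ∈ N, S.Ny y t τ e) (N0.filter (S.Ny y t τ))
        (N.filter (S.Ny y t τ)) ∧ ∀ e ∈ N, e ∈ N0 ∨ S.Ny y t τ e := by
    intro N h
    induction h with
    | refl => exact ⟨Relation.ReflTransGen.refl, fun e he => Or.inl he⟩
    | @tail N N' h b ih =>
      have n1 := Ch.av h a0
      have n2 := b.1.av
      have both : ∀ f g, g ∈ N → N' = insert f (N.erase g) →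
          ((S.lf f ≠ x ∧ S.FrL N (S.lf f) ∧ S.rt f = S.rt g) ∨
            (S.rt f ≠ y ∧ S.FrR N (S.rt f) ∧ S.lf f = S.lf g)) →
          S.Ny y t τ f ∧ S.Ny y t τ g := by
        intro f g g1 e d
        rcases d with d | d
        · have mv := n1.1.mvL d.1 d.2.1 g1 d.2.2
          have f1 := holeL hs (nx t τ) n1.1 (by omega) (by omega) b.2.1.2 d.2.1 d.1
          have g2 := holeL hs (nx t τ) n2.1 (by omega) (by omega) b.2.2.2
            (e ▸ mv.2.2.2.1) (n1.1.2 g g1).1
          have c : S.Rch t y τ (S.rt f) := by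
            by_cases h : S.col f = t
            · rw [d.2.2]; exact g2.flat (fun h' => mv.2.2.2.2.2 (h'.trans h.symm))
            · exact f1.flat h
          exact ⟨⟨f1, c⟩, g2, d.2.2 ▸ c⟩
        · exfalso
          have q1 : S.swap.RchL t x N.card (S.rt f) := holeL (S := S.swap) hs
            (fun h => nx t _ (dual' h)) n1.1.swap (by omega) (by omega) (by
              have : S.vec N t ≤ N.card := by
                rw [vec_apply]; exact_mod_cast card_filter_le _ _
              exact this) d.2.1 d.1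
          have q2 : p f := (side f).2
            ((RchL.side (S := S.swap) (sL := sR) (sR := sL) (fun e => (side e).symm) q1).2 hx)
          have q3 : f ∈ N.filter p := by
            rw [b.2.1.1.2, ← b.2.2.1.2]
            exact mem_filter.2 ⟨e ▸ mem_insert_self _ _, q2⟩
          exact d.2.1 f (mem_filter.1 q3).1 rfl
      obtain ⟨a, f, g, g1, e, d⟩ := b.1
      obtain ⟨f2, g2⟩ := both f g g1 e d
      constructor
      · refine Relation.ReflTransGen.tail ih.1 ⟨⟨a.mono (filter_subset _ _), f, g,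
          mem_filter.2 ⟨g1, g2⟩, by rw [e, filter_insert, if_pos f2, filter_erase],
          d.imp (fun h => ⟨h.1, fun e he => h.2.1 e (mem_filter.1 he).1, h.2.2⟩)
            (fun h => ⟨h.1, fun e he => h.2.1 e (mem_filter.1 he).1, h.2.2⟩)⟩,
          ⟨(vec_mono (filter_subset _ _) t).trans b.2.1.2, fun e he => (mem_filter.1 he).2⟩,
          (vec_mono (filter_subset _ _) t).trans b.2.2.2, fun e he => (mem_filter.1 he).2⟩
      · intro z hz
        rw [e] at hz
        rcases mem_insert.1 hz with rfl | hz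
        · exact Or.inr f2
        · exact ih.2 z (mem_erase.1 hz).2
  obtain ⟨r1, r2⟩ := rs X x1
  have eb : N0.filter (S.Ny y t τ) = S.base x y s (S.ball t {y} τ) := by
    ext e
    rw [mem_filter, m0, mem_base, mem_ball1]
    exact ⟨fun h => ⟨h.1.1, h.2.1, h.1.2⟩,
      fun h => ⟨⟨h.1, h.2.2⟩, h.2.1, h.2.1.flat (by rw [h.1]; exact hs)⟩⟩
  rw [eb] at r1
  refine ⟨_, r1, ?_, ?_⟩
  · rw [← x2, vec_apply, vec_apply, filter_filter]
    congr 2
    exact filter_congr (fun e he => ⟨fun h => h.2, fun h => ⟨(r2 e he).resolve_left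
      (fun h' => hs (((m0 e).1 h').1.symm.trans h)), h⟩⟩)
  · have z1 := vec_mono (S := S) (filter_subset (S.Ny y t τ) X) u
    have z2 := (x1.last ⟨⟨by
      rw [vec_zero (fun e he => by rw [((m0 e).1 he).1]; exact hsu)]; omega, rfl⟩, by omega⟩).1.1
    omega

theorem lift_far (tri : ∀ k, k = s ∨ k = u ∨ k = t) (hs : s ≠ t) (hu : u ≠ t) {τ : ℕ} {c : K}
    {X : Finset E} (h : S.Ch x y (fun N => S.vec N t ≤ τ ∧ ∀ e ∈ N, S.Ny y t τ e)
      (S.base x y c (S.ball t {y} τ)) X) (hX : ∀ e ∈ X, S.Ny y t τ e) {Z : Finset L}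
    (cl : ∀ r ∈ Z, ∀ r', S.swap.Rch t r 0 r' → r' ∈ Z)
    (hc : ∀ r ∈ S.ball t {y} τ, (if r ∈ Z then u else s) = c) :
    S.Low x y t τ (S.cut x y (S.colr s u Z))
      (X ∪ (S.cut x y (S.colr s u Z)).filter (fun e => S.lf e ∉ S.ball t {y} τ)) ∧
    ∀ k, S.vec (X ∪ (S.cut x y (S.colr s u Z)).filter (fun e => S.lf e ∉ S.ball t {y} τ)) k =
      S.vec X k + S.vec ((S.cut x y (S.colr s u Z)).filter (fun e => S.lf e ∉ S.ball t {y} τ)) k := by
  have k1 := pure_colr tri hs hu cl
  set M := (S.cut x y (S.colr s u Z)).filter (fun e => S.lf e ∉ S.ball t {y} τ) with hM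
  have nM : ∀ e ∈ M, S.col e ≠ t := fun e he => k1.2.1 e (mem_filter.1 (mem_filter.1 he).1).1
  have aM : S.Av x y M := k1.av.mono (filter_subset _ _)
  have dM : ∀ N : Finset E, (∀ e ∈ N, S.Ny y t τ e) →
      ∀ e ∈ N, ∀ f ∈ M, S.lf e ≠ S.lf f ∧ S.rt e ≠ S.rt f := fun N h e he f hf =>
    ⟨fun hh => (mem_filter.1 hf).2 (hh ▸ mem_ball1.2 (h e he).1),
      fun hh => (mem_filter.1 hf).2 (mem_ball1.2 (Rch.row (hh ▸ (h e he).2) (nM f hf)))⟩
  have vM : ∀ N : Finset E, (∀ e ∈ N, S.Ny y t τ e) → ∀ k,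
      S.vec (N ∪ M) k = S.vec N k + S.vec M k := fun N h k => by
    rw [vec_union (disj_of (dM N h)), Pi.add_apply]
  have e1 : S.base x y c (S.ball t {y} τ) ∪ M = S.cut x y (S.colr s u Z) := by
    ext e
    simp only [mem_union, mem_base, hM, cut, mem_filter, mem_colr]
    by_cases h : S.lf e ∈ S.ball t {y} τ
    · rw [hc _ h]; simp [h]
    · simp [h]
  have l1 : S.Low x y t τ _ _ := Ch.lift (Q' := fun N => S.vec N t ≤ τ) aM
    (fun N h => ⟨dM N h.2, by rw [vM N h.2, vec_zero nM, add_zero]; exact h.1⟩) h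
  rw [e1] at l1
  exact ⟨l1, vM X hX⟩

open Classical in
theorem crossWin (tri : ∀ k, k = s ∨ k = u ∨ k = t) (hsu : s ≠ u) (hs : s ≠ t) (hu : u ≠ t)
    (sim : ∀ e e', S.lf e = S.lf e' → S.rt e = S.rt e' → e = e') {T : K → ℕ}
    (hL : T s + T u + T t + 2 = Fintype.card L) (hR : T s + T u + T t + 2 = Fintype.card R)
    {sL : L → Prop} {sR : R → Prop} (side : ∀ e, sL (S.lf e) ↔ sR (S.rt e)) (hx : sL x)
    (hy : ¬ sR y) (conX : ∀ k r, sL r → ∃ i, S.swap.Rch k x i r)
    (bigX : T t < (univ.filter sL).card) (bigY : ∀ k, ∃ j, T t < (S.ball k {y} j).card)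
    (tu : T t ≤ T u) {G : Finset L} (clG : ∀ r ∈ G, ∀ r', S.swap.Rch t r 0 r' → r' ∈ G)
    (hG : G.card + T t / 2 ≤ T s)
    (short : ∀ r, r ∉ S.near x y t (T t) → r ∉ G → (S.swap.cy t r).card ≤
      (univ.filter (fun r => S.swap.Rch t x (T t) r)).card) : S.Rl x y T := by
  have hn := hL.symm.trans hR
  have nx : ∀ k i, ¬ S.RchL k y i x := fun k i h => hy ((h.side side).1 hx)
  have na : ∀ e, S.lf e = x → S.rt e ≠ y := fun e a b => hy (b ▸ (side e).1 (a ▸ hx))
  have tri' : ∀ k, k = s ∨ k = t ∨ k = u := fun k => by have := tri k; tauto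
  have tri2 : ∀ k, k = u ∨ k = s ∨ k = t := fun k => by have := tri k; tauto
  have sx : ∀ k i r r', S.swap.Rch k r i r' → (sL r' ↔ sL r) := fun k i r r' h =>
    Rch.side (S := S.swap) (sL := sR) (sR := sL) (fun e => (side e).symm) h
  set τ := T t with hτ
  set Y := S.ball t {y} τ with hY
  set W := univ.filter (fun r => S.swap.Rch t x τ r) with hW
  have mW : ∀ r, r ∈ W ↔ S.swap.Rch t x τ r := fun r => by simp [hW]
  have oY : ∀ r ∈ Y, ¬ sL r := fun r hr h => hy (((mem_ball1.1 hr).side side).1 h)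
  have oW : ∀ r ∈ W, sL r := fun r hr => (sx _ _ _ _ ((mW r).1 hr)).2 hx
  have dYW : Disjoint Y W := disjoint_left.2 (fun r a b => oY r a (oW r b))
  have nr : S.near x y t τ = Y ∪ W := by
    ext r; rw [mem_near, mem_union, mW, hY, mem_ball1]
  have clY : ∀ r ∈ Y, ∀ r', S.swap.Rch t r 0 r' → r' ∈ Y := fun r hr r' h =>
    mem_ball1.2 ((mem_ball1.1 hr).cy h)
  have clW : ∀ r ∈ W, ∀ r', S.swap.Rch t r 0 r' → r' ∈ W := fun r hr r' h =>
    (mW r').2 (((mW r).1 hr).trans h)
  have clU : ∀ A B : Finset L, (∀ r ∈ A, ∀ r', S.swap.Rch t r 0 r' → r' ∈ A) →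
      (∀ r ∈ B, ∀ r', S.swap.Rch t r 0 r' → r' ∈ B) →
      ∀ r ∈ A ∪ B, ∀ r', S.swap.Rch t r 0 r' → r' ∈ A ∪ B := fun A B a b r hr r' h =>
    (mem_union.1 hr).elim (fun c => mem_union_left _ (a r c r' h))
      (fun c => mem_union_right _ (b r c r' h))
  let F : Finset L → Finset E := fun Z => (S.cut x y (S.colr s u Z)).filter (fun e => S.lf e ∉ Y)
  let Tot : Finset E → Prop := fun X => (∀ e ∈ X, S.Ny y t τ e) ∧ S.vec X t = τ ∧
    ∀ Z : Finset L, (∀ r ∈ Z, ∀ r', S.swap.Rch t r 0 r' → r' ∈ Z) → Disjoint Y Z →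
      S.Low x y t τ (S.cut x y (S.colr s u Z)) (X ∪ F Z) ∧
        ∀ k, S.vec (X ∪ F Z) k = S.vec X k + S.vec (F Z) k
  have q0 : ∀ c, c ≠ t → S.vec (S.base x y c Y) t ≤ τ ∧
      ∀ e ∈ S.base x y c Y, S.Ny y t τ e := fun c hc =>
    ⟨by rw [vec_zero (fun e he => (mem_base.1 he).1 ▸ hc)]; omega, fun e he =>
      ⟨mem_ball1.1 (mem_base.1 he).2.1,
        (mem_ball1.1 (mem_base.1 he).2.1).flat ((mem_base.1 he).1 ▸ hc)⟩⟩
  obtain ⟨X1, x1, x2, x3⟩ := cost tri hsu hs hu sim hn side hx hy (bigY u)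
  obtain ⟨X2, y1, y2, y3⟩ := cost tri2 hsu.symm hu hs sim hn side hx hy (bigY s)
  have t1 : Tot X1 := ⟨(x1.last (q0 s hs)).2, x2, fun Z cl d =>
    lift_far tri hs hu x1 (x1.last (q0 s hs)).2 cl
      (fun r hr => if_neg (disjoint_left.1 d hr))⟩
  have t2 : Tot X2 := ⟨(y1.last (q0 u hu)).2, y2, fun Z cl d => by
    have a := lift_far tri hs hu y1 (y1.last (q0 u hu)).2 (clU Z Y cl clY)
      (fun r hr => if_pos (mem_union_right _ hr))
    have e : (S.cut x y (S.colr s u (Z ∪ Y))).filter (fun e => S.lf e ∉ S.ball t {y} τ) = F Z := by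
      ext e
      simp only [F, cut, mem_filter, mem_colr, mem_union, ← hY]
      by_cases h : S.lf e ∈ Y <;> simp [h]
    rw [e] at a
    refine ⟨(flip tri hs hu hsu (nx t τ) (pure_colr tri hs hu cl)
      (pure_colr tri hs hu (clU Z Y cl clY)) (fun e a b => ?_)).trans a.1, a.2⟩
    have h : S.lf e ∈ Y := by
      by_contra h
      rw [mem_colr] at a b
      simp only [mem_union, h, or_false] at b
      exact b a
    exact Or.inl ((mem_ball1.1 h).flat ((pure_colr tri hs hu cl).2.1 e a))⟩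
  have c2 : S.vec X2 s + S.vec X2 u + τ + 1 ≤ Y.card := by
    have a := sum_vec (S := S) (M := X2) (A := {s, u, t}) (fun e _ => by
      rcases tri (S.col e) with h | h | h <;> simp [h])
    rw [sum_insert (by simp [hsu, hs]), sum_pair hu, (y1.av av_base).2] at a
    have m : S.lf (S.eR u y) ∈ Y :=
      mem_ball1.2 (Rch.row (by rw [S.rt_eR]; exact Rch.refl _) (by rwa [S.col_eR]))
    have b : (S.base x y u Y).card ≤ (Y.erase (S.lf (S.eR u y))).card :=
      card_le_card_of_injOn S.lf (fun e he => mem_erase.2 ⟨fun h => (mem_base.1 he).2.2.2 (by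
        rw [S.eq_of_lf h ((mem_base.1 he).1.trans (S.col_eR _ _).symm), S.rt_eR]),
        (mem_base.1 he).2.1⟩) (fun e he f hf h => av_base.1.l e he f hf h)
    have c := card_erase_add_one m
    rw [← hY] at a
    omega
  have n1 := vec_nonneg (S := S) X1 u
  have n2 := vec_nonneg (S := S) X2 s
  have n3 := vec_nonneg (S := S) X2 u
  obtain ⟨X, t0, z1, z2⟩ : ∃ X, Tot X ∧ S.vec X u ≤ τ ∧ S.vec X u + S.vec X2 s + τ + 1 ≤ Y.card := by
    by_cases h : 2 * τ + 1 ≤ Y.card
    · exact ⟨X1, t1, by omega, by omega⟩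
    · exact ⟨X2, t2, by omega, by omega⟩
  have n4 := vec_nonneg (S := S) X u
  have c3 := card_sdiff_add_card_eq_card (subset_univ (Y ∪ W))
  rw [card_univ, card_union_of_disjoint dYW] at c3
  have c4 := le_card_sdiff G (univ \ (Y ∪ W))
  have c5 : 0 < W.card := card_pos.2 ⟨x, (mW x).2 (Rch.refl _)⟩
  obtain ⟨Z, b1, b2, b3, b4⟩ := gapfill (S := S.swap) (t := t) (Z := (univ \ (Y ∪ W)) \ G)
    (fun r hr r' h => mem_sdiff.2 ⟨mem_sdiff.2 ⟨mem_univ _, fun hh =>
      (mem_sdiff.1 (mem_sdiff.1 hr).1).2 (clU Y W clY clW _ hh _ h.symm)⟩,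
      fun hh => (mem_sdiff.1 hr).2 (clG _ hh _ h.symm)⟩) (g := W.card)
    (fun r hr => short r (by rw [nr]; exact (mem_sdiff.1 (mem_sdiff.1 hr).1).2) (mem_sdiff.1 hr).2)
    (lo := ((univ \ (Y ∪ W)).card : ℤ) + S.vec X2 s - T s) (hi := (T u : ℤ) - S.vec X u)
    (by omega) (by omega) (by omega) (by omega)
  have c6 := card_sdiff_add_card_eq_card (b1.trans sdiff_subset)
  have dYZ : Disjoint Y Z := disjoint_left.2 (fun r a b =>
    (mem_sdiff.1 (mem_sdiff.1 (b1 b)).1).2 (mem_union_left _ a))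
  have k1 := pure_colr tri hs hu b2
  have k2 := pure_colr tri hs hu (clU Z W b2 clW)
  obtain ⟨l1, w1⟩ := t0.2.2 Z b2 dYZ
  obtain ⟨l2, w2⟩ := t2.2.2 (Z ∪ W) (clU Z W b2 clW) (disjoint_union_right.2 ⟨dYZ, dYW⟩)
  have l3 := flip tri hs hu hsu (nx t τ) k1 k2 (fun e a b => by
    have h : S.lf e ∈ W := by
      by_contra h
      rw [mem_colr] at a b
      simp only [mem_union, h, or_false] at b
      exact b a
    exact Or.inr ((mW _).1 h))
  have f1 : S.vec (F Z) t = 0 :=
    vec_zero (fun e he => k1.2.1 e (mem_filter.1 (mem_filter.1 he).1).1)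
  have f2 : S.vec (F (Z ∪ W)) t = 0 :=
    vec_zero (fun e he => k2.2.1 e (mem_filter.1 (mem_filter.1 he).1).1)
  have v1 := vec_rows (M := F Z) (k1.av.1.mono (filter_subset _ _)) (k := u) (Z := Z)
    (fun e he h => by
      have := mem_colr.1 (mem_filter.1 (mem_filter.1 he).1).1
      by_contra hh
      rw [if_neg hh, h] at this
      exact hsu this.symm)
  have v2 := vec_rows (M := F (Z ∪ W)) (k2.av.1.mono (filter_subset _ _)) (k := s)
    (Z := (univ \ (Y ∪ W)) \ Z) (fun e he h => by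
      have := mem_colr.1 (mem_filter.1 (mem_filter.1 he).1).1
      have h2 : S.lf e ∉ Z ∪ W := fun hh => by
        rw [if_pos hh, h] at this
        exact hsu this
      exact mem_sdiff.2 ⟨mem_sdiff.2 ⟨mem_univ _, fun hh => (mem_union.1 hh).elim
        (mem_filter.1 he).2 (fun a => h2 (mem_union_right _ a))⟩,
        fun a => h2 (mem_union_left _ a)⟩)
  have uni : ∀ k, ∃ j, ∀ r, sL r → S.swap.Rch k x j r := by
    intro k
    choose! f hf using conX k
    exact ⟨univ.sup f, fun r hr => (hf r hr).mono (le_sup (mem_univ r))⟩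
  obtain ⟨j1, u1⟩ := uni t
  obtain ⟨j2, u2⟩ := uni u
  have k3 : S.Pure t (S.colr s u (Z.filter sL)) := pure_colr tri hs hu (fun r hr r' h =>
    mem_filter.2 ⟨b2 r (mem_filter.1 hr).1 r' h, (sx _ _ _ _ h).2 (mem_filter.1 hr).2⟩)
  have k4 : S.Pure t (S.colr s u ∅) := pure_colr tri hs hu (by simp)
  have k5 : S.Pure u (S.colr s t ∅) := pure_colr tri' hsu hu.symm (by simp)
  have k6 : S.Pure u (S.colr s t (univ.filter sL)) := pure_colr tri' hsu hu.symm
    (fun r hr r' h => mem_filter.2 ⟨mem_univ _, (sx _ _ _ _ h).2 (mem_filter.1 hr).2⟩)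
  have l4 := flip tri hs hu hsu (nx t j1) k3 k4 (fun e a b => Or.inr (u1 _ (by
    by_contra h
    rw [mem_colr] at a b
    rw [if_neg (fun hh => h (mem_filter.1 hh).2)] at a
    exact b (by simpa using a))))
  have l5 := flip tri' hsu hu.symm hs (nx u j2) k5 k6 (fun e a b => Or.inr (u2 _ (by
    by_contra h
    rw [mem_colr] at a b
    rw [if_neg (fun hh => h (mem_filter.1 hh).2)] at b
    exact b (by simpa using a))))
  have e0 : S.colr s u ∅ = S.colr s t ∅ := by simp [colr]
  rw [e0] at l4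
  have up : S.Ch x y (fun _ => True) (S.cut x y (S.colr s u (Z.filter sL)))
      (S.cut x y (S.colr s t (univ.filter sL))) :=
    Relation.ReflTransGen.trans (Ch.mono (Q := fun N => S.vec N t ≤ j1) (fun _ _ => trivial) l4)
      (Ch.mono (Q := fun N => S.vec N u ≤ j2) (fun _ _ => trivial) l5)
  have off : ∀ X', Tot X' → ∀ M : Finset E,
      (τ : ℤ) ≤ S.vec ((X' ∪ M).filter (fun e => ¬ sL (S.lf e))) t := fun X' h M => by
    rw [← h.2.1]
    exact vec_mono (fun e he => mem_filter.2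
      ⟨mem_union_left _ he, oY _ (mem_ball1.2 (h.1 e he).1)⟩) t
  have c7 := card_cut k1 na
  have c8 := l1.av k1.av
  have h0 : (τ : ℤ) ≤ S.vec ((S.cut x y (S.colr s t (univ.filter sL))).filter
      (fun e => sL (S.lf e))) t := by
    have h1 := vec_rows_ge (S := S) (k := t) (Z := (univ.filter sL).erase x)
      (M := (S.cut x y (S.colr s t (univ.filter sL))).filter (fun e => sL (S.lf e)))
      (fun r hr => by
        obtain ⟨r1, r2⟩ := mem_erase.1 hr
        have r3 : sL (S.lf (S.eL t r)) := by rw [S.lf_eL]; exact (mem_filter.1 r2).2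
        refine mem_filter.2 ⟨mem_filter.2 ⟨mem_colr.2 ?_, ?_, ?_⟩, r3⟩
        · rw [S.col_eL, S.lf_eL, if_pos r2]
        · rwa [S.lf_eL]
        · exact fun h => hy (h ▸ (side _).1 r3))
    have h2 := pred_card_le_card_erase (s := univ.filter sL) (a := x)
    omega
  have e1 : (S.cut x y (S.colr s u (Z.filter sL))).filter (fun e => sL (S.lf e)) =
      (X ∪ F Z).filter (fun e => sL (S.lf e)) := by
    ext e
    by_cases h : sL (S.lf e)
    · have a : e ∉ X := fun he => oY _ (mem_ball1.2 (t0.1 e he).1) h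
      have b : S.lf e ∉ Y := fun he => oY _ he h
      simp [F, cut, mem_colr, h, a, b]
    · simp [h]
  obtain ⟨N, m1, -, m2, m3, m4⟩ := crossing hsu hs hu tri (x := x) (y := y)
    (m := T s + T u + T t) (T := fun k => (T k : ℤ)) (by push_cast; rfl) sL sR side c8.1
    (by omega) ((l1.symm.trans l3).trans l2) k3.av e1 up h0 (off X t0 _) (off X2 t2 _)
    (by rw [w1, f1, add_zero, t0.2.1]) (by rw [w2, f2, add_zero, y2])
    (by rw [w1]; omega) (by rw [w2]; omega)
  refine ⟨N, m1, fun k => ?_⟩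
  rcases tri k with rfl | rfl | rfl
  · exact m2
  · exact m3
  · exact m4

end Sys

end Pool.Agent.Lib.MP_cc2426_co
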