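import Mathlib
import Pool.Agent.Lib.MP_cc2426_co.Over

/-! Rows that are near a long two-coloured cycle. -/

set_option autoImplicit false
set_option linter.unusedSectionVars false

namespace Pool.Agent.Lib.MP_cc2426_co

open Finset

variable {E L R K : Type*} [DecidableEq E] [DecidableEq L] [DecidableEq R] [DecidableEq K]
  [Fintype L] [Fintype R]

namespace Sys

/-- a row `z` of `A` is within `β` edges of colour `t` from `x`, and the cycles without colour `t`
in `A` that are longer than the cycle of `z` lie in a closed set with at most `X` rows. -/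
def Good (S : Sys E L R K) (A : Finset L) (t : K) (β X : ℕ) (x : L) : Prop :=
  ∃ z ∈ A, S.swap.Rch t x β z ∧ ∃ G ⊆ A, (∀ r ∈ G, ∀ r', S.swap.Rch t r 0 r' → r' ∈ G) ∧
    G.card ≤ X ∧ ∀ r ∈ A, r ∉ G → (S.swap.cy t r).card ≤ (S.swap.cy t z).card

variable {S : Sys E L R K} {s u t : K}

theorem cl_iff {A : Finset L} (cl : ∀ e e', S.rt e = S.rt e' → S.lf e ∈ A → S.lf e' ∈ A) {k : K}
    {x z : L} {i : ℕ} (h : S.swap.Rch k x i z) : z ∈ A ↔ x ∈ A := by
  induction h with
  | refl => rfl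
  | flat e e' _ _ b _ ih => exact Iff.trans ⟨cl e' e b, cl e e' b.symm⟩ ih
  | arc e e' _ _ b ih => exact Iff.trans ⟨cl e' e b, cl e e' b.symm⟩ ih

theorem good (hs : s ≠ t) (hu : u ≠ t) (hsu : s ≠ u)
    (sim : ∀ e e', S.lf e = S.lf e' → S.rt e = S.rt e' → e = e') {A : Finset L}
    (cl : ∀ e e', S.rt e = S.rt e' → S.lf e ∈ A → S.lf e' ∈ A)
    (con : ∀ x ∈ A, ∀ r ∈ A, ∃ i, S.swap.Rch t x i r) (β X : ℕ) (hX : X < A.card) :
    ∃ D ⊆ A, (D = A ∨ max 3 (X + 1) + 2 * β ≤ D.card) ∧ ∀ x ∈ D, S.Good A t β X x := by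
  classical
  set Y : ℕ → Finset L := fun l => A.filter (fun r => l ≤ (S.swap.cy t r).card) with hY
  have ex : ∃ l, (Y (l + 1)).card ≤ X := by
    refine ⟨Fintype.card L, ?_⟩
    have : Y (Fintype.card L + 1) = ∅ := filter_eq_empty_iff.2 (fun r _ h => by
      have := card_le_univ (S.swap.cy t r)
      omega)
    rw [this, card_empty]
    exact Nat.zero_le _
  set l := Nat.find ex with hl
  have h1 : (Y (l + 1)).card ≤ X := Nat.find_spec ex
  have h2 : X < (Y l).card := by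
    rcases Nat.eq_zero_or_pos l with h | h
    · have : Y l = A := filter_eq_self.2 (fun r _ => by omega)
      rwa [this]
    · have := Nat.find_min ex (m := l - 1) (by omega)
      rw [show l - 1 + 1 = l by omega] at this
      omega
  have clY : ∀ j, ∀ r ∈ Y j, ∀ r', S.swap.Rch t r 0 r' → r' ∈ Y j := fun j r hr r' h =>
    mem_filter.2 ⟨(cl_iff cl h).2 (mem_filter.1 hr).1, by
      rw [cy_eq (S := S.swap) h]; exact (mem_filter.1 hr).2⟩
  have ns : ∀ r, S.col (S.eL s r) ≠ t := fun r => by rwa [S.col_eL]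
  set Z : Finset R := (Y l).image (fun r => S.rt (S.eL s r)) with hZ
  have cZ : Z.card = (Y l).card := card_image_of_injective _ (fun r r' h => by
    have := S.eq_of_rt h ((S.col_eL _ _).trans (S.col_eL _ _).symm)
    rw [← S.lf_eL s r, this, S.lf_eL])
  have mb : ∀ i x, x ∈ S.ball t Z i ↔ ∃ z ∈ Y l, S.swap.Rch t x i z := by
    intro i x
    rw [mem_ball]
    constructor
    · rintro ⟨q, hq, h⟩
      obtain ⟨z, hz, rfl⟩ := mem_image.1 hq
      obtain ⟨e, a, b, c⟩ := dual'' h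
      have := Rch.flat (S := S.swap) e (S.eL s z) c b a.symm (ns z)
      exact ⟨z, hz, by rw [← S.lf_eL s z]; exact this⟩
    · rintro ⟨z, hz, h⟩
      have := dual (S := S) (y := S.rt (S.eL s z)) (i := 0) h ⟨_, S.lf_eL s z, ns z, Rch.refl 0⟩
      rw [zero_add] at this
      exact ⟨_, mem_image_of_mem _ hz, this⟩
  have sub : ∀ i, S.ball t Z i ⊆ A := fun i x hx => by
    obtain ⟨z, hz, h⟩ := (mb i x).1 hx
    exact (cl_iff cl h).1 (mem_filter.1 hz).1
  obtain ⟨z0, hz0⟩ : (Y l).Nonempty := card_pos.1 (by omega)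
  refine ⟨S.ball t Z β, sub β, ?_, fun x hx => ?_⟩
  · by_cases h : ∃ j, ∃ r ∈ S.ball t Z j, r ∉ S.ball t Z β
    · have g := grow2 hs hu hsu sim h
      right
      by_cases h3 : 3 ≤ (Y l).card
      · omega
      · exfalso
        obtain ⟨j, r, r1, r2⟩ := h
        have c1 : (S.swap.cy t z0).card ≤ (Y l).card :=
          card_le_card (fun r hr => clY l z0 hz0 r (mem_cy.1 hr))
        have c2 := (mem_filter.1 hz0).2
        have c3 := two_le_cy (S := S.swap) hs hu hsu (fun e e' a b => sim e e' b a) r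
        exact r2 ((mb β r).2 ⟨r, mem_filter.2 ⟨sub j r1, by omega⟩, Rch.refl _⟩)
    · left
      push Not at h
      refine Subset.antisymm (sub β) (fun x hx => ?_)
      obtain ⟨i, hi⟩ := con x hx z0 (mem_filter.1 hz0).1
      exact h i x ((mb i x).2 ⟨z0, hz0, hi⟩)
  · obtain ⟨z, hz, h⟩ := (mb β x).1 hx
    refine ⟨z, (mem_filter.1 hz).1, h, Y (l + 1), filter_subset _ _, clY _, h1, fun r hr hn => ?_⟩
    have := (mem_filter.1 hz).2
    have : ¬ l + 1 ≤ (S.swap.cy t r).card := fun a => hn (mem_filter.2 ⟨hr, a⟩)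
    omega

theorem good3 (hs : s ≠ t) (hu : u ≠ t) (hsu : s ≠ u)
    (sim : ∀ e e', S.lf e = S.lf e' → S.rt e = S.rt e' → e = e') {A : Finset L}
    (cl : ∀ e e', S.rt e = S.rt e' → S.lf e ∈ A → S.lf e' ∈ A)
    (con : ∀ k, ∀ x ∈ A, ∀ r ∈ A, ∃ i, S.swap.Rch k x i r) {T : K → ℕ}
    (hA : T s + T u + T t + 2 = A.card) (tu : T t ≤ T u) (us : T u ≤ T s) :
    ∃ D ⊆ A, T u + 1 ≤ D.card ∧ ∀ x ∈ D, S.Good A t (T t) (T s - T t / 2) x ∧
      S.Good A u (T u) (T s - T u / 2) x ∧ S.Good A s (T s) (T u - T s / 2) x := by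
  obtain ⟨D1, a1, b1, c1⟩ := good hs hu hsu sim cl (con t) (T t) (T s - T t / 2) (by omega)
  obtain ⟨D2, a2, b2, c2⟩ := good hsu hu.symm hs sim cl (con u) (T u) (T s - T u / 2) (by omega)
  obtain ⟨D3, a3, b3, c3⟩ := good hsu.symm hs.symm hu sim cl (con s) (T s) (T u - T s / 2)
    (by omega)
  refine ⟨D1 ∩ D2 ∩ D3, fun x hx => a1 (mem_inter.1 (mem_inter.1 hx).1).1, ?_, fun x hx =>
    ⟨c1 x (mem_inter.1 (mem_inter.1 hx).1).1, c2 x (mem_inter.1 (mem_inter.1 hx).1).2,
      c3 x (mem_inter.1 hx).2⟩⟩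
  have e1 := card_union_add_card_inter D1 D2
  have e2 := card_union_add_card_inter (D1 ∩ D2) D3
  have e3 := card_le_card (union_subset a1 a2)
  have e4 := card_le_card (union_subset (inter_subset_left.trans a1 : D1 ∩ D2 ⊆ A) a3)
  have f1 := b1.imp (congrArg card) id
  have f2 := b2.imp (congrArg card) id
  have f3 := b3.imp (congrArg card) id
  have g1 := card_le_card a1
  have g2 := card_le_card a2
  have g3 := card_le_card a3
  omega

end Sys

end Pool.Agent.Lib.MP_cc2426_co
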