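import Mathlib

/-! Two paths in the triangular lattice that must meet. -/

namespace Pool.Agent.Lib.MP_cc2426_co.Lat

/-- equal or neighbouring points of the triangular lattice. -/
def St (v w : ℤ × ℤ) : Prop :=
  w.1 - v.1 ≤ 1 ∧ v.1 - w.1 ≤ 1 ∧ w.2 - v.2 ≤ 1 ∧ v.2 - w.2 ≤ 1 ∧
    w.1 + w.2 - v.1 - v.2 ≤ 1 ∧ v.1 + v.2 - w.1 - w.2 ≤ 1

/-- walks through points with property `P`. -/
def Wk (P : ℤ × ℤ → Prop) : ℤ × ℤ → ℤ × ℤ → Prop :=
  Relation.ReflTransGen (fun v w => St v w ∧ P v ∧ P w)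

theorem St.symm {v w : ℤ × ℤ} (h : St v w) : St w v := by
  unfold St at *; omega

theorem Wk.symm {P : ℤ × ℤ → Prop} {v w : ℤ × ℤ} (h : Wk P v w) : Wk P w v := by
  induction h with
  | refl => exact Relation.ReflTransGen.refl
  | tail _ h ih => exact Relation.ReflTransGen.head ⟨h.1.symm, h.2.2, h.2.1⟩ ih

theorem Wk.trans {P : ℤ × ℤ → Prop} {u v w : ℤ × ℤ} (h : Wk P u v) (h' : Wk P v w) : Wk P u w :=
  Relation.ReflTransGen.trans h h'

theorem Wk.mono {P Q : ℤ × ℤ → Prop} (hPQ : ∀ z, P z → Q z) {v w : ℤ × ℤ} (h : Wk P v w) :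
    Wk Q v w := by
  induction h with
  | refl => exact Relation.ReflTransGen.refl
  | tail _ h ih => exact Relation.ReflTransGen.tail ih ⟨h.1, hPQ _ h.2.1, hPQ _ h.2.2⟩

theorem Wk.last {P : ℤ × ℤ → Prop} {v w : ℤ × ℤ} (h : Wk P v w) (hv : P v) : P w := by
  cases h with
  | refl => exact hv
  | tail _ h => exact h.2.2

theorem Wk.seq {P : ℤ × ℤ → Prop} {v w : ℤ × ℤ} (h : Wk P v w) :
    ∃ (n : ℕ) (f : ℕ → ℤ × ℤ), f 0 = v ∧ f n = w ∧
      ∀ i < n, St (f i) (f (i + 1)) ∧ P (f i) ∧ P (f (i + 1)) := by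
  induction h with
  | refl => exact ⟨0, fun _ => v, rfl, rfl, fun _ h => absurd h (Nat.not_lt_zero _)⟩
  | @tail b c _ h ih =>
    obtain ⟨n, f, h0, hn, hs⟩ := ih
    refine ⟨n + 1, fun i => if i ≤ n then f i else c, by simp [h0], by simp, fun i hi => ?_⟩
    rcases Nat.lt_succ_iff_lt_or_eq.mp hi with a | rfl
    · simpa [a.le, Nat.succ_le_of_lt a] using hs i a
    · simpa [hn] using h

theorem Wk.of_seq {P : ℤ × ℤ → Prop} (f : ℕ → ℤ × ℤ) (n : ℕ)
    (hs : ∀ i < n, St (f i) (f (i + 1))) (hP : ∀ i ≤ n, P (f i)) : Wk P (f 0) (f n) := by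
  induction n with
  | zero => exact Relation.ReflTransGen.refl
  | succ n ih =>
    exact Relation.ReflTransGen.tail
      (ih (fun i hi => hs i (by omega)) (fun i hi => hP i (by omega)))
      ⟨hs n (by omega), hP n (by omega), hP (n + 1) le_rfl⟩

/-- signed crossing of the edge `v w` with the half line above `p`. -/
def cr (p v w : ℤ × ℤ) : ℤ :=
  (if v.1 = p.1 ∧ w.1 = p.1 + 1 ∧ 2 * p.2 < v.2 + w.2 then 1 else 0) -
    (if w.1 = p.1 ∧ v.1 = p.1 + 1 ∧ 2 * p.2 < v.2 + w.2 then 1 else 0)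

/-- the column above the right one of two neighbours. -/
def ph (p q v : ℤ × ℤ) : ℤ :=
  (if q.1 = p.1 + 1 ∧ v.1 = q.1 ∧ q.2 < v.2 then 1 else 0) -
    (if p.1 = q.1 + 1 ∧ v.1 = p.1 ∧ p.2 < v.2 then 1 else 0)

theorem cr_step {p q v w : ℤ × ℤ} (h1 : St p q) (h2 : St v w) (a : v ≠ p) (b : v ≠ q) (c : w ≠ p)
    (d : w ≠ q) : cr p v w - cr q v w = ph p q w - ph p q v := by
  obtain ⟨p1, p2⟩ := p
  obtain ⟨q1, q2⟩ := q
  obtain ⟨v1, v2⟩ := v
  obtain ⟨w1, w2⟩ := w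
  simp only [ne_eq, Prod.mk.injEq, not_and_or] at a b c d
  simp only [St] at h1 h2
  simp only [cr, ph]
  have e : ∀ x : ℤ, (x + 1 = x) = False ∧ (x = x + 1) = False ∧ (x = x + 1 + 1) = False ∧
      (x + 1 + 1 = x) = False := fun x => by
    refine ⟨?_, ?_, ?_, ?_⟩ <;> (apply eq_false; omega)
  rcases (by omega : q1 = p1 ∨ q1 = p1 + 1 ∨ p1 = q1 + 1) with rfl | rfl | rfl <;>
    rcases (by omega : w1 = v1 ∨ w1 = v1 + 1 ∨ v1 = w1 + 1) with rfl | rfl | rfl <;>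
    simp only [e, false_and, true_and, if_false] <;> split_ifs <;> omega

theorem arch {P1 P2 : ℤ × ℤ → Prop} {a b c d H : ℤ} (w1 : Wk P1 (a, 0) (b, 0))
    (r1 : ∀ z, P1 z → 0 ≤ z.2 ∧ z.2 ≤ H) (w2 : Wk P2 (c, H) (d, 0)) (r2 : ∀ z, P2 z → 0 ≤ z.2)
    (hd : (b ≤ d ∧ d ≤ a) ∨ (a ≤ d ∧ d ≤ b)) (p1 : P1 (a, 0)) (p2 : P2 (d, 0)) :
    ∃ z, P1 z ∧ P2 z := by
  by_contra hc
  have ne : ∀ z z', P1 z → P2 z' → z ≠ z' := fun z z' h h' e => hc ⟨z, h, e ▸ h'⟩
  have na : a ≠ d := fun e => ne _ _ p1 p2 (by rw [e])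
  have nb : b ≠ d := fun e => ne _ _ (w1.last p1) p2 (by rw [e])
  obtain ⟨n, f, f0, fn, hs⟩ := w1.seq
  have key : ∀ q, Wk P2 (c, H) q → ∑ i ∈ Finset.range n, cr q (f i) (f (i + 1)) = 0 := by
    intro q hq
    induction hq with
    | refl =>
      refine Finset.sum_eq_zero fun i hi => ?_
      obtain ⟨-, x1, x2⟩ := hs i (Finset.mem_range.mp hi)
      have y1 := r1 _ x1
      have y2 := r1 _ x2
      simp only [cr]
      split_ifs <;> omega
    | @tail p q _ h ih =>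
      have e : ∑ i ∈ Finset.range n, (cr p (f i) (f (i + 1)) - cr q (f i) (f (i + 1))) =
          ∑ i ∈ Finset.range n, (ph p q (f (i + 1)) - ph p q (f i)) := by
        refine Finset.sum_congr rfl fun i hi => ?_
        obtain ⟨x0, x1, x2⟩ := hs i (Finset.mem_range.mp hi)
        exact cr_step h.1 x0 (ne _ _ x1 h.2.1) (ne _ _ x1 h.2.2) (ne _ _ x2 h.2.1)
          (ne _ _ x2 h.2.2)
      rw [Finset.sum_sub_distrib, ih, Finset.sum_range_sub (fun i => ph p q (f i)), f0, fn] at e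
      have y1 := r2 _ h.2.1
      have y2 := r2 _ h.2.2
      have z1 : ph p q (b, 0) = 0 := by simp only [ph]; split_ifs <;> omega
      have z2 : ph p q (a, 0) = 0 := by simp only [ph]; split_ifs <;> omega
      omega
  have e : ∑ i ∈ Finset.range n, cr (d, 0) (f i) (f (i + 1)) =
      ∑ i ∈ Finset.range n, ((if d < (f (i + 1)).1 then (1 : ℤ) else 0) -
        (if d < (f i).1 then (1 : ℤ) else 0)) := by
    refine Finset.sum_congr rfl fun i hi => ?_
    obtain ⟨x0, x1, x2⟩ := hs i (Finset.mem_range.mp hi)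
    have y1 := r1 _ x1
    have y2 := r1 _ x2
    have n1 := ne _ _ x1 p2
    have n2 := ne _ _ x2 p2
    generalize f i = v at *
    generalize f (i + 1) = w at *
    obtain ⟨v1, v2⟩ := v
    obtain ⟨w1, w2⟩ := w
    simp only [ne_eq, Prod.mk.injEq, not_and_or] at n1 n2
    simp only [St] at x0
    simp only [cr]
    split_ifs <;> omega
  rw [key _ w2, Finset.sum_range_sub (fun i => if d < (f i).1 then (1 : ℤ) else 0), f0, fn] at e
  simp only at e
  split_ifs at e <;> omega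

end Pool.Agent.Lib.MP_cc2426_co.Lat
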