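import Pool.Agent.Lib.MP_cc2426_co.Root
import Pool.Agent.Lib.MP_cc2426_co.Good
import Pool.Agent.Lib.MP_cc2426_co.Lat

/-! A deleted row and a deleted column in different closed sets. -/

set_option autoImplicit false
set_option linter.unusedSectionVars false

namespace Pool.Agent.Lib.MP_cc2426_co

open Finset

variable {E L R K : Type*} [DecidableEq E] [DecidableEq L] [DecidableEq R] [DecidableEq K]
  [Fintype L] [Fintype R]

namespace Sys

variable {S : Sys E L R K} {s u t : K} {x : L} {y : R} {A : Finset L} {B : Finset R}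

theorem dl_two (h : u ≠ t) (c : K) : dl c u + dl c t ≤ 1 := by
  by_cases a : c = u
  · rw [a, dl_self, dl_ne h]; omega
  · rw [dl_ne a]
    have := dl_le c t
    omega

theorem Us.bd (h : u ≠ t) {N N' : Finset E} (a : S.Us N N') :
    Lat.St (S.vec N u, S.vec N t) (S.vec N' u, S.vec N' t) := by
  obtain ⟨c, c', a⟩ := a
  have := a u
  have := a t
  have := dl_two h c
  have := dl_two h c'
  have := dl_nn c u
  have := dl_nn c t
  have := dl_nn c' u
  have := dl_nn c' t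
  simp only [Lat.St]
  omega

theorem Cp.wk (φ : Finset E → ℤ × ℤ) (hφ : ∀ N N', S.Us N N' → Lat.St (φ N) (φ N'))
    {Q : Finset E → Prop} {N N' : Finset E} (h : S.Cp x A Q N N') :
    Lat.Wk (fun z => ∃ M, (S.Rt x A M ∧ Q M) ∧ z = φ M) (φ N) (φ N') := by
  induction h with
  | refl => exact Relation.ReflTransGen.refl
  | tail _ a ih =>
    exact Relation.ReflTransGen.tail ih ⟨hφ _ _ a.1, ⟨_, a.2.1, rfl⟩, _, a.2.2, rfl⟩

theorem meet (tri : ∀ k, k = s ∨ k = u ∨ k = t) (hsu : s ≠ u) (hs : s ≠ t) (hu : u ≠ t)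
    (cl : S.Cl A) (hx : x ∈ A) (hy : ∀ e, S.rt e = y → S.lf e ∉ A) {τ X : ℕ}
    (g : S.Good A t τ X x) {N0 M : Finset E}
    (ch : S.swap.Cp y B (fun M => S.vec M t ≤ τ) N0 M) (r0 : S.swap.Rt y B N0)
    (v0 : S.vec N0 t = 0) (v1 : S.vec M t = τ) {γ : ℤ} (d0 : S.vec M u ≤ γ)
    (d1 : γ - S.vec M u + 1 + X ≤ A.card) :
    ∃ N1 N2, S.Rt x A N1 ∧ S.swap.Rt y B N2 ∧ S.vec N1 u + S.vec N2 u = γ ∧
      S.vec N1 t + S.vec N2 t = τ := by
  obtain ⟨z, -, z2, G, -, g2, g3, g4⟩ := g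
  obtain ⟨N, N', a1, a2, -, a4, a5, a6, a7⟩ := ramp tri hsu hs hu cl hx hy g2 z2 g4
    (d := γ - S.vec M u) (by omega) (by omega)
  have w1 := a1.wk (fun N => (S.vec N u, S.vec N t)) (fun _ _ h => h.bd hu)
  have w2 := ch.wk (fun N => (γ - S.vec N u, (τ : ℤ) - S.vec N t)) (fun N N' h => by
    have := Us.bd (S := S) hu h
    simp only [Lat.St] at this ⊢
    omega)
  have rM := ch.last ⟨r0, by omega⟩
  simp only [a4, a5] at w1
  simp only [v0, v1, sub_zero, sub_self] at w2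
  obtain ⟨_, ⟨N1, b1, rfl⟩, N2, b2, e⟩ := Lat.arch w1 (by
      rintro _ ⟨N, b, rfl⟩
      exact ⟨vec_nn _ _, b.2⟩) w2 (by
      rintro _ ⟨N, b, rfl⟩
      have := b.2
      simp only
      omega) (Or.inr ⟨a6, a7⟩) ⟨N, ⟨a2, by omega⟩, by rw [a4]⟩ ⟨M, rM, by rw [v1, sub_self]⟩
  simp only [Prod.mk.injEq] at e
  exact ⟨N1, N2, b1.1, b2.1, by omega, by omega⟩

/-- the deleted column lies in a connected set that is wanted in colour `s` or `u`. -/
theorem jcase (tri : ∀ k, k = s ∨ k = u ∨ k = t) (hsu : s ≠ u) (hs : s ≠ t) (hu : u ≠ t)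
    (sim : ∀ e e', S.lf e = S.lf e' → S.rt e = S.rt e' → e = e')
    (cl : S.Cl A) (cr : S.swap.Cl B) (hd : ∀ e, S.rt e ∈ B → S.lf e ∉ A) (hx : x ∈ A) (hy : y ∈ B)
    (con : ∀ k, ∀ q ∈ B, ∃ i, S.Rch k y i q) {T : K → ℕ} (hA : T s + T u + T t + 2 = A.card)
    (tu : T t ≤ T u) (us : T u ≤ T s) (g : S.Good A t (T t) (T s - T t / 2) x)
    (hB : T t < B.card) {j : K} (hj : j = s ∨ j = u) :
    ∃ N1 N2, S.Rt x A N1 ∧ S.swap.Rt y B N2 ∧
      ∀ k, S.vec N1 k + S.vec N2 k = T k + B.card * dl j k := by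
  have hy' : ∀ e, S.rt e = y → S.lf e ∉ A := fun e h => hd e (h ▸ hy)
  have hx' : ∀ e, S.lf e = x → S.rt e ∉ B := fun e h hh => hd e hh (h ▸ hx)
  have sim' : ∀ e e', S.rt e = S.rt e' → S.lf e = S.lf e' → e = e' := fun e e' a b => sim e e' b a
  have fin : ∀ N1 N2, S.Rt x A N1 → S.swap.Rt y B N2 →
      S.vec N1 u + S.vec N2 u = T u + B.card * dl j u → S.vec N1 t + S.vec N2 t = T t →
      ∀ k, S.vec N1 k + S.vec N2 k = T k + B.card * dl j k := by
    intro N1 N2 a b c d k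
    have e1 := a.sum tri hsu hs hu
    have e2 : S.vec N2 s + S.vec N2 u + S.vec N2 t + 1 = B.card := b.sum tri hsu hs hu
    rcases tri k with rfl | rfl | rfl
    · rcases hj with rfl | rfl
      · rw [dl_ne hsu] at c
        rw [dl_self]
        omega
      · rw [dl_self] at c
        rw [dl_ne hsu.symm]
        omega
    · exact c
    · rcases hj with rfl | rfl
      · rw [dl_ne hs]; omega
      · rw [dl_ne hu]; omega
  rcases hj with rfl | rfl
  · obtain ⟨N0, M, a1, a2, -, -, a5, a6, a7⟩ := rise (S := S.swap) (s := j) (u := t) (t := u)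
      (fun k => by have := tri k; tauto) hs hsu hu.symm sim' cr hy hx' (con u) (ρ := T t / 2)
      (d := T t) (by omega) (by omega) (by omega)
    change S.vec M u ≤ _ at a6
    have := vec_nn (S := S) M u
    obtain ⟨N1, N2, b1, b2, b3, b4⟩ := meet tri hsu hs hu cl hx hy' g
      (a1.mono (fun _ _ h => h.2)) a2 a5 a7 (γ := T u) (by omega) (by omega)
    exact ⟨N1, N2, b1, b2, fin N1 N2 b1 b2 (by rw [dl_ne hsu]; omega) b4⟩
  · obtain ⟨N0, M, a1, a2, a3, -, a5, a6, a7⟩ := rise (S := S.swap) (s := j) (u := t) (t := s)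
      (fun k => by have := tri k; tauto) hu hsu.symm hs.symm sim' cr hy hx' (con s) (ρ := T t / 2)
      (d := T t) (by omega) (by omega) (by omega)
    change S.vec M s ≤ _ at a6
    change S.vec M t = _ at a7
    have e2 : S.vec M s + S.vec M j + S.vec M t + 1 = B.card := a3.sum tri hsu hs hu
    have := vec_nn (S := S) M s
    obtain ⟨N1, N2, b1, b2, b3, b4⟩ := meet tri hsu hs hu cl hx hy' g
      (a1.mono (fun _ _ h => h.2)) a2 a5 a7 (γ := T j + B.card) (by omega) (by omega)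
    exact ⟨N1, N2, b1, b2, fin N1 N2 b1 b2 (by rw [dl_self]; omega) b4⟩

/-- many rows of `A` have their partners in a closed set that is wanted in colour `t`. -/
theorem ext (tri : ∀ k, k = s ∨ k = u ∨ k = t) (hsu : s ≠ u) (hs : s ≠ t) (hu : u ≠ t)
    (cl : S.Cl A) (cr : S.swap.Cl B) (hd : ∀ e, S.rt e ∈ B → S.lf e ∉ A) {T : K → ℕ}
    (hA : T s + T u + T t + 2 = A.card) {p : L → R} (inj : Function.Injective p) {D : Finset L}
    (DA : D ⊆ A) (cD : T u + 1 ≤ D.card) (pD : ∀ x ∈ D, p x ∈ B) {X : ℕ} (hX : X ≤ T s)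
    (g : ∀ x ∈ D, S.Good A u (T u) X x) :
    ∃ x ∈ D, ∃ N1 N2, S.Rt x A N1 ∧ S.swap.Rt (p x) B N2 ∧
      ∀ k, S.vec N1 k + S.vec N2 k = T k + B.card * dl t k := by
  obtain ⟨x, x1, x2⟩ := exists_max_image D (fun x => (S.cy s (p x)).card) (card_pos.1 (by omega))
  have hx := DA x1
  have hy := pD x x1
  have hy' : ∀ e, S.rt e = p x → S.lf e ∉ A := fun e h => hd e (h ▸ hy)
  have hx' : ∀ e, S.lf e = x → S.rt e ∉ B := fun e h hh => hd e hh (h ▸ hx)
  obtain ⟨z, -, z2, G, -, g2, g3, g4⟩ := g x x1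
  obtain ⟨N1, a1, a2, a3⟩ := rampS (s := s) (u := t) (t := u) (fun k => by have := tri k; tauto) hs
    hsu hu.symm cl hx hy' g2 z2 g4 (d := T s) (by omega) (by omega)
  set Lg := B.filter (fun q => (S.cy s (p x)).card < (S.cy s q).card) with hLg
  have c1 : (D.image p ∪ Lg).card ≤ B.card := card_le_card (union_subset
    (fun q hq => by
      obtain ⟨r, r1, rfl⟩ := mem_image.1 hq
      exact pD r r1) (filter_subset _ _))
  rw [card_union_of_disjoint (Finset.disjoint_left.2 (fun q hq hh => by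
    obtain ⟨r, r1, rfl⟩ := mem_image.1 hq
    exact absurd (x2 r r1) (not_le.2 (mem_filter.1 hh).2))), card_image_of_injective _ inj] at c1
  have := vec_nn (S := S) N1 u
  obtain ⟨N2, b1, b2, b3⟩ := rampU (S := S.swap) (s := t) (u := u) (t := s)
    (fun k => by have := tri k; tauto) hu.symm hs.symm hsu.symm cr hy hx' (τ := 0) (Lg := Lg)
    (fun q a q' b => mem_filter.2 ⟨cr.rch (mem_filter.1 a).1 b, by
      rw [cy_eq (S := S) b]; exact (mem_filter.1 a).2⟩) (z := p x) (Rch.refl 0)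
    (fun q a b => not_lt.1 (fun hh => b (mem_filter.2 ⟨a, hh⟩))) (d := T u - S.vec N1 u)
    (by omega) (by omega)
  change S.vec N2 u = _ at b2
  change S.vec N2 s ≤ _ at b3
  have := vec_nn (S := S) N2 s
  have e1 := a1.sum tri hsu hs hu
  have e2 : S.vec N2 s + S.vec N2 u + S.vec N2 t + 1 = B.card := b1.sum tri hsu hs hu
  refine ⟨x, x1, N1, N2, a1, b1, fun k => ?_⟩
  rcases tri k with rfl | rfl | rfl
  · rw [dl_ne hs.symm]; omega
  · rw [dl_ne hu.symm]; omega
  · rw [dl_self]; omega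

end Sys

end Pool.Agent.Lib.MP_cc2426_co
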