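import Pool.Agent.Lib.MP_cc2426_co.JayW
import Pool.Agent.Lib.MP_cc2426_co.Jex
import Pool.Agent.Lib.MP_cc2426_co.Ball
import Pool.Agent.Lib.MP_cc2426_co.Exit
import Pool.Agent.Lib.MP_cc2426_co.Frz2
import Pool.Agent.Lib.MP_cc2426_co.Star2

/-! The normal form always has a good row. -/

set_option autoImplicit false
set_option linter.unusedSectionVars false

namespace Pool.Agent.Lib.MP_cc2426_co

open Finset

variable {E L R K : Type*} [DecidableEq E] [DecidableEq L] [DecidableEq R] [DecidableEq K]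
  [Fintype L] [Fintype R]

namespace Sys

variable {S : Sys E L R K} {s u t : K} {x : L} {y : R}

theorem ins24 (tri : ∀ k, k = s ∨ k = u ∨ k = t) (hsu : s ≠ u) (hs : s ≠ t) (hu : u ≠ t)
    (sim : ∀ e e', S.lf e = S.lf e' → S.rt e = S.rt e' → e = e')
    (con : ∀ k r0 r, ∃ i, S.swap.Rch k r0 i r) {T : K → ℕ}
    (hL : T s + T u + T t + 2 = Fintype.card L) (na : ∀ e, S.lf e = x → S.rt e ≠ y)
    (tu : T t ≤ T u) (us : T u ≤ T s) {A : Finset L} (hA : ∀ r, r ∈ A)
    (g1 : S.Good A t (T t) (T s - T t / 2) x) (g2 : S.Good A u (T u) (T s - T u / 2) x)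
    (g3 : S.Good A s (T s) (T u - T s / 2) x) : S.Rl x y T := by
  have hn : Fintype.card L = Fintype.card R := Fintype.card_congr (S.eqv s)
  have gc : ∀ c d, c ≠ d → ∀ β X, S.Good A d β X x → S.swap.GoodC x d β X :=
    fun c d h β X ⟨z, _, z2, G, _, _, a, b⟩ => goodC h z2 a (fun r hr => b r (hA r) hr)
  refine insideR tri hsu hs hu con hL na tu us (fun d hd => ?_) (gc s t hs _ _ g1)
    (gc s u hsu _ _ g2) (gc u s hsu.symm _ _ g3)
  obtain ⟨a, b, tr, ab, ad, bd⟩ : ∃ a b, (∀ k, k = a ∨ k = b ∨ k = d) ∧ a ≠ b ∧ a ≠ d ∧ b ≠ d := by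
    rcases tri d with rfl | rfl | rfl
    · exact ⟨u, t, fun k => by have := tri k; tauto, hu, hsu.symm, hs.symm⟩
    · exact ⟨s, t, fun k => by have := tri k; tauto, hs, hsu, hu.symm⟩
    · exact ⟨s, u, tri, hsu, hs, hu⟩
  intro o ho M hM n hb
  exact exit (S := S.swap) tr ab ad bd (fun e e' a b => sim e e' b a) (con d x) hn.symm
    (fun e a b => na e b a) hd hM ho hb

theorem back24 {c k : K} (hc : c ≠ k) (r : L) : ∃ i, S.swap.Rch k r i (S.nx k c r) := by
  have st : ∀ i, S.swap.Rch k r i ((S.nx c k)^[i] r) := by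
    intro i
    induction i with
    | zero => exact Rch.refl 0
    | succ i ih =>
      rw [Function.iterate_succ_apply']
      exact Rch.arc (S := S.swap) (S.eL c ((S.nx c k)^[i] r)) _
        (by change S.swap.Rch k r i (S.lf _); rwa [S.lf_eL])
        (by change S.col _ ≠ k; rwa [S.col_eL]) (S.rt_eR _ _)
  have inv : S.nx c k (S.nx k c r) = r := by
    have := rt_nx (S := S) k c r
    unfold nx at *
    rw [this, eR_rt (S.col_eL _ _), S.lf_eL]
  obtain ⟨n, hn, h⟩ := (nx_inj (S := S) c k).mem_periodicPts (S.nx k c r)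
  obtain ⟨m, rfl⟩ : ∃ m, n = m + 1 := ⟨n - 1, by omega⟩
  have h' : (S.nx c k)^[m + 1] (S.nx k c r) = S.nx k c r := h
  rw [Function.iterate_succ_apply, inv] at h'
  exact ⟨m, h' ▸ st m⟩

theorem cn24 (hsu : s ≠ u) (k : K) {r r' : L} (h : S.Cn r r') : ∃ i, S.swap.Rch k r i r' := by
  obtain ⟨c, hc⟩ : ∃ c, c ≠ k := by
    by_cases e : s = k
    · exact ⟨u, e ▸ hsu.symm⟩
    · exact ⟨s, e⟩
  induction h with
  | refl => exact ⟨0, Rch.refl 0⟩
  | tail _ a ih =>
    obtain ⟨i, hi⟩ := ih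
    obtain ⟨e, e', rfl, rfl, b⟩ := a
    by_cases he : S.col e = k
    · obtain ⟨j, hj⟩ := back24 (S := S) hc (S.lf e)
      unfold nx at hj
      rw [eL_lf he] at hj
      exact ⟨_, Rch.arc (S := S.swap) (S.eR c (S.rt e)) e' (hi.trans hj)
        (by change S.col _ ≠ k; rwa [S.col_eR]) (b.symm.trans (S.rt_eR _ _).symm)⟩
    · exact ⟨_, Rch.arc (S := S.swap) e e' hi he b.symm⟩

theorem cn_symm24 {r r' : L} (h : S.Cn r r') : S.Cn r' r := by
  induction h with
  | refl => exact Relation.ReflTransGen.refl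
  | tail _ a ih =>
    obtain ⟨e, e', a1, a2, b⟩ := a
    exact Relation.ReflTransGen.head ⟨e', e, a2, a1, b.symm⟩ ih

theorem mem_cmp24 {r r' : L} : r' ∈ S.cmp r ↔ S.Cn r r' := by simp [cmp]

theorem cmp_cd24 (r : L) : S.Cd (S.cmp r) := fun e e' a b =>
  mem_cmp24.2 (Relation.ReflTransGen.tail (mem_cmp24.1 b) ⟨e, e', rfl, rfl, a⟩)

theorem cmp_con24 (hsu : s ≠ u) (z : L) :
    ∀ k, ∀ r ∈ S.cmp z, ∀ r' ∈ S.cmp z, ∃ i, S.swap.Rch k r i r' := fun k _ a _ b =>
  cn24 hsu k (Relation.ReflTransGen.trans (cn_symm24 (mem_cmp24.1 a)) (mem_cmp24.1 b))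

theorem pure24 {M : Finset E} (hM : S.IsM M) {C : Finset L} {c : K} (h : ∀ r ∈ C, S.eL c r ∈ M)
    (k : K) : S.vec (M.filter fun e => S.lf e ∈ C) k = if k = c then (C.card : ℤ) else 0 := by
  have e : M.filter (fun e => S.lf e ∈ C) = C.image (S.eL c) := by
    ext e
    rw [mem_filter, mem_image]
    constructor
    · exact fun a => ⟨S.lf e, a.2, hM.l _ (h _ a.2) e a.1 (S.lf_eL _ _)⟩
    · rintro ⟨r, hr, rfl⟩
      exact ⟨h r hr, by rwa [S.lf_eL]⟩
  rw [e, vec_const (c := c) (fun e he => by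
    obtain ⟨r, -, rfl⟩ := mem_image.1 he
    exact S.col_eL _ _), card_image_of_injective _ (Function.LeftInverse.injective (S.lf_eL c))]
  by_cases hk : k = c
  · simp [hk, dl]
  · simp [hk, dl]

theorem fin24 (sim : ∀ e e', S.lf e = S.lf e' → S.rt e = S.rt e' → e = e') {p : L → R}
    (inj : Function.Injective p) (na : ∀ e, S.rt e ≠ p (S.lf e)) {T β : K → ℕ} {A : Finset L}
    {M : Finset E} (h : S.Nf p T s u t A M β) : ∃ x, S.Rl x (p x) T := by
  classical
  by_contra no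
  push Not at no
  obtain ⟨x0, h0⟩ := h.neA
  have cA : S.Cd A := h.cmpA x0 h0 ▸ cmp_cd24 x0
  have conA : ∀ k, ∀ r ∈ A, ∀ r' ∈ A, ∃ i, S.swap.Rch k r i r' :=
    h.cmpA x0 h0 ▸ cmp_con24 h.su x0
  obtain ⟨D, d1, d2, d3⟩ := good3 h.st h.ut h.su sim cA conA h.sum h.tu h.us
  set H := univ.filter (fun r => r ∉ A ∧ ∀ r' ∈ S.cmp r, S.eL t r' ∈ M) with hH
  have mH : ∀ r, r ∈ H ↔ r ∉ A ∧ ∀ r' ∈ S.cmp r, S.eL t r' ∈ M := fun r => by simp [hH]
  have cH : S.Cd H := fun e e' a b => (mH _).2 ⟨fun c => ((mH _).1 b).1 (cA e' e a.symm c),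
    fun r hr => ((mH _).1 b).2 r (mem_cmp24.2
      (Relation.ReflTransGen.head ⟨e, e', rfl, rfl, a⟩ (mem_cmp24.1 hr)))⟩
  have hit : ∀ x ∈ D, S.lf (S.eR s (p x)) ∈ H := by
    intro x hx
    have xA := d1 hx
    obtain ⟨g1, g2, g3⟩ := d3 x hx
    have out : S.lf (S.eR s (p x)) ∉ A := by
      intro a
      have yD : p x ∈ S.cols s A := by
        have := (mem_cols cA s _).1 a
        rwa [S.rt_eR] at this
      have sA : A ⊆ A := Subset.rfl
      obtain ⟨N, n1, n2, n3⟩ := subW cA xA yD (T := β) (ins24 h.tri h.su h.st h.ut (sim_sub sim)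
        (fun k => con_sub' (conA k)) (by rw [Fintype.card_coe]; exact h.sum)
        (fun e a b => na e.1 ((congrArg Subtype.val b).trans
          (congrArg p (congrArg Subtype.val a)).symm))
        h.tu h.us (fun r => mem_subtype.2 r.2) (good_sub sA g1) (good_sub sA g2) (good_sub sA g3))
      refine no x (glueF (B := ∅) cA (fun _ _ _ b => by simp at b) h.pm (by simpa using xA)
        (fun e he => by simpa using cA _ e ((S.rt_eR _ _).trans he.symm) a) n1
        (by simpa using n2) (fun k => ?_))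
      have := h.bud k
      rw [n3 k, pure24 h.pm.1 (c := s) (by simp)]
      simp only [card_empty, Nat.cast_zero, ite_self]
      omega
    obtain ⟨c, c1, c2⟩ := (h.hit x xA _ (S.rt_eR s (p x))).resolve_left out
    by_cases ct : c = t
    · exact (mH _).2 ⟨out, ct ▸ c1⟩
    · exfalso
      have cB := cmp_cd24 (S := S) (S.lf (S.eR s (p x)))
      have hy : ∀ e, S.rt e = p x → S.lf e ∈ S.cmp (S.lf (S.eR s (p x))) := fun e he =>
        cB _ e ((S.rt_eR _ _).trans he.symm) (mem_cmp24.2 Relation.ReflTransGen.refl)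
      obtain ⟨N, n1, n2, n3⟩ := jayW h.tri h.su h.st h.ut sim cA cB
        (disjoint_left.2 (fun r a b => out (h.cmpA r a ▸
          mem_cmp24.2 (cn_symm24 (mem_cmp24.1 b))))) xA conA (cmp_con24 h.su _) hy h.sum h.tu
        h.us g1 (c2.resolve_left ct) ct
      refine no x (glueF cA cB h.pm (mem_union_left _ xA)
        (fun e he => mem_union_right _ (hy e he)) n1 n2 (fun k => ?_))
      have := h.bud k
      rw [n3 k, pure24 h.pm.1 c1]
      omega
  have mc := mem_cols cH s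
  obtain ⟨x, hx, N1, N2, r1, r2, r3⟩ := ext (B := S.cols s H) h.tri h.su h.st h.ut cA
    (fun e e' a b => (mc e').1 ((show S.lf e = S.lf e' from a) ▸ (mc e).2 b))
    (fun e a => ((mH _).1 ((mc e).2 a)).1) h.sum inj d1 d2
    (fun x hx => by
      have := (mc _).1 (hit x hx)
      rwa [S.rt_eR] at this) (Nat.sub_le _ _) (fun x hx => (d3 x hx).2.1)
  have xA := d1 hx
  have b2 : ∀ e ∈ N2, S.lf e ∈ H := fun e he => (mc e).2 (r2.2.1 e he).1
  have hy : ∀ e, S.rt e = p x → S.lf e ∈ H := fun e he =>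
    cH _ e ((S.rt_eR _ _).trans he.symm) (hit x hx)
  have dj : ∀ e ∈ N1, ∀ f ∈ N2, S.lf e ≠ S.lf f ∧ S.rt e ≠ S.rt f := fun e he f hf =>
    ⟨fun a => ((mH _).1 (b2 f hf)).1 (a ▸ (r1.2.1 e he).1),
      fun a => ((mH _).1 (b2 f hf)).1 (cA e f a (r1.2.1 e he).1)⟩
  refine no x (glueF (N := N1 ∪ N2) cA cH h.pm (mem_union_left _ xA)
    (fun e he => mem_union_right _ (hy e he)) ⟨r1.1.union r2.1.unswap dj, fun e he => ?_⟩
    (fun e he => (mem_union.1 he).elim (fun a => mem_union_left _ (r1.2.1 e a).1)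
      (fun a => mem_union_right _ (b2 e a))) (fun k => ?_))
  · rcases mem_union.1 he with a | a
    · exact ⟨(r1.2.1 e a).2, fun b => ((mH _).1 (hy e b)).1 (r1.2.1 e a).1⟩
    · exact ⟨fun b => ((mH _).1 (b2 e a)).1 (b ▸ xA), (r2.2.1 e a).2⟩
  · have := h.bud k
    have v := r3 k
    rw [card_cols] at v
    rw [vec_union (disj_of dj), Pi.add_apply, v, pure24 h.pm.1 (c := t)
      (fun r hr => ((mH r).1 hr).2 r (mem_cmp24.2 Relation.ReflTransGen.refl))]
    by_cases hk : k = t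
    · rw [if_pos hk]
      rw [hk] at this ⊢
      rw [dl_self]
      omega
    · rw [if_neg hk, dl_ne (Ne.symm hk)]
      omega

theorem main3 {a b c : K} (ab : a ≠ b) (ac : a ≠ c) (bc : b ≠ c)
    (tri : ∀ k, k = a ∨ k = b ∨ k = c)
    (sim : ∀ e e', S.lf e = S.lf e' → S.rt e = S.rt e' → e = e') (p : L ≃ R)
    (na : ∀ e, S.rt e ≠ p (S.lf e)) {T : K → ℕ} (hL : T a + T b + T c + 2 = Fintype.card L)
    (con4 : ∀ A : Finset L, S.Cd A → A.Nonempty → A ≠ univ →
      ∃ x ∈ A, ∀ e, S.rt e = p x → S.lf e ∉ A) : ∃ x, S.Rl x (p x) T := by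
  by_contra no
  obtain ⟨s, u, t, A, M, β, h⟩ := normal ab ac bc tri p hL con4
    (starC ab ac bc tri S.cmp (fun _ _ => mem_cmp24)) (fun x hx => no ⟨x, hx⟩)
  exact no (fin24 sim p.injective na h)

end Sys

end Pool.Agent.Lib.MP_cc2426_co
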