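import Pool.Agent.Lib.MP_cc2426_co.Lev

/-! Counting lemmas for levels. -/

set_option autoImplicit false
set_option linter.unusedSectionVars false

namespace Pool.Agent.Lib.MP_cc2426_co

open Finset

variable {E L R K : Type*} [DecidableEq E] [DecidableEq L] [DecidableEq R] [DecidableEq K]
  [Fintype L] [Fintype R]

namespace Sys

open Classical in
/-- the columns of the two-coloured cycle through `q`. -/
noncomputable def cy (S : Sys E L R K) (t : K) (q : R) : Finset R :=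
  univ.filter (fun q' => S.Rch t q 0 q')

open Classical in
/-- the rows within `i` edges of colour `t` from the set `Z` of columns. -/
noncomputable def ball (S : Sys E L R K) (t : K) (Z : Finset R) (i : ℕ) : Finset L :=
  univ.filter (fun r => ∃ q ∈ Z, S.RchL t q i r)

/-- perfect matchings without colour `t`. -/
def Pure (S : Sys E L R K) (t : K) (M : Finset E) : Prop :=
  S.IsM M ∧ (∀ e ∈ M, S.col e ≠ t) ∧ (∀ r, ∃ e ∈ M, S.lf e = r) ∧ ∀ q, ∃ e ∈ M, S.rt e = q

/-- colour `u` on the rows in `Z`, colour `s` elsewhere. -/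
def colr (S : Sys E L R K) (s u : K) (Z : Finset L) : Finset E :=
  univ.image (fun r => S.eL (if r ∈ Z then u else s) r)

variable {S : Sys E L R K} {s u t : K} {x : L} {y : R}

theorem mem_cy {q q' : R} : q' ∈ S.cy t q ↔ S.Rch t q 0 q' := by simp [cy]

theorem mem_ball {Z : Finset R} {i : ℕ} {r : L} :
    r ∈ S.ball t Z i ↔ ∃ q ∈ Z, S.RchL t q i r := by simp [ball]

theorem mem_colr {Z : Finset L} {e : E} :
    e ∈ S.colr s u Z ↔ S.col e = if S.lf e ∈ Z then u else s := by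
  unfold colr
  rw [mem_image]
  constructor
  · rintro ⟨r, -, rfl⟩
    rw [S.col_eL, S.lf_eL]
  · intro h
    exact ⟨S.lf e, mem_univ _, eL_lf h⟩

theorem pure_colr (tri : ∀ k, k = s ∨ k = u ∨ k = t) (hs : s ≠ t) (hu : u ≠ t) {Z : Finset L}
    (cl : ∀ r ∈ Z, ∀ r', S.swap.Rch t r 0 r' → r' ∈ Z) : S.Pure t (S.colr s u Z) := by
  have nt : ∀ e ∈ S.colr s u Z, S.col e ≠ t := by
    intro e he
    rw [mem_colr.1 he]
    split_ifs
    · exact hu
    · exact hs
  have fl : ∀ e f : E, S.col e ≠ t → S.col f ≠ t → S.rt f = S.rt e → S.lf e ∈ Z → S.lf f ∈ Z :=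
    fun e f a b c d => cl _ d _ (Rch.flat (S := S.swap) e f (Rch.refl 0) a c b)
  refine ⟨⟨fun e he f hf h => ?_, fun e he f hf h => ?_⟩, nt, fun r => ?_, fun q => ?_⟩
  · exact S.eq_of_lf h (by rw [mem_colr.1 he, mem_colr.1 hf, h])
  · refine S.eq_of_rt h ?_
    have i : S.lf e ∈ Z ↔ S.lf f ∈ Z :=
      ⟨fl e f (nt e he) (nt f hf) h.symm, fl f e (nt f hf) (nt e he) h⟩
    rw [mem_colr.1 he, mem_colr.1 hf]
    simp only [i]
  · exact ⟨_, mem_image_of_mem _ (mem_univ r), S.lf_eL _ _⟩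
  · by_cases h : S.lf (S.eR u q) ∈ Z
    · exact ⟨S.eR u q, mem_colr.2 (by rw [S.col_eR, if_pos h]), S.rt_eR _ _⟩
    · refine ⟨S.eR s q, mem_colr.2 ?_, S.rt_eR _ _⟩
      rw [S.col_eR, if_neg]
      intro h'
      exact h (fl (S.eR s q) (S.eR u q) (by rwa [S.col_eR]) (by rwa [S.col_eR])
        (by rw [S.rt_eR, S.rt_eR]) h')

theorem tight {P : Finset E} (hP : S.Av x y P) (hL : P.card + 1 = Fintype.card L)
    (hR : P.card + 1 = Fintype.card R) (a : L → ℤ) (b : R → ℤ)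
    (h0 : ∀ r, b (S.rt (S.eL s r)) = a r)
    (h1 : ∀ e, b (S.rt e) ≤ a (S.lf e) + if S.col e = t then 1 else 0) :
    a x - b y ≤ S.vec P t ∧ (S.vec P t ≤ a x - b y →
      ∀ e ∈ P, b (S.rt e) = a (S.lf e) + if S.col e = t then 1 else 0) := by
  have iL : Set.InjOn S.lf P := fun e he f hf h => hP.1.l e he f hf h
  have iR : Set.InjOn S.rt P := fun e he f hf h => hP.1.r e he f hf h
  have eL : P.image S.lf = univ.erase x := by
    apply eq_of_subset_of_card_le
    · intro r hr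
      obtain ⟨e, he, rfl⟩ := mem_image.1 hr
      exact mem_erase.2 ⟨(hP.2 e he).1, mem_univ _⟩
    · rw [card_image_of_injOn iL, card_erase_of_mem (mem_univ _), card_univ]
      omega
  have eR : P.image S.rt = univ.erase y := by
    apply eq_of_subset_of_card_le
    · intro r hr
      obtain ⟨e, he, rfl⟩ := mem_image.1 hr
      exact mem_erase.2 ⟨(hP.2 e he).2, mem_univ _⟩
    · rw [card_image_of_injOn iR, card_erase_of_mem (mem_univ _), card_univ]
      omega
  have sL : ∑ e ∈ P, a (S.lf e) + a x = ∑ r, a r := by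
    rw [← sum_image (g := S.lf) (f := a) iL, eL, sum_erase_add _ _ (mem_univ _)]
  have sR : ∑ e ∈ P, b (S.rt e) + b y = ∑ q, b q := by
    rw [← sum_image (g := S.rt) (f := b) iR, eR, sum_erase_add _ _ (mem_univ _)]
  have bij : Function.Bijective (fun r => S.rt (S.eL s r)) := by
    rw [Fintype.bijective_iff_injective_and_card]
    refine ⟨fun r r' h => ?_, by omega⟩
    have := congrArg S.lf (S.eq_of_rt h (by rw [S.col_eL, S.col_eL]))
    rwa [S.lf_eL, S.lf_eL] at this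
  have sab : ∑ r, a r = ∑ q, b q := by
    rw [← bij.sum_comp b]
    exact sum_congr rfl fun r _ => (h0 r).symm
  have sv : S.vec P t = ∑ e ∈ P, (if S.col e = t then (1 : ℤ) else 0) := by
    unfold vec
    rw [Finset.sum_apply]
    refine sum_congr rfl fun e _ => ?_
    unfold dl
    rw [Pi.single_apply]
    simp only [eq_comm]
  have le : ∑ e ∈ P, b (S.rt e) ≤ ∑ e ∈ P, (a (S.lf e) + if S.col e = t then (1 : ℤ) else 0) :=
    sum_le_sum fun e _ => h1 e
  have sp : ∑ e ∈ P, (a (S.lf e) + if S.col e = t then (1 : ℤ) else 0) =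
      ∑ e ∈ P, a (S.lf e) + S.vec P t := by rw [sum_add_distrib, sv]
  refine ⟨by omega, fun h => ?_⟩
  exact (sum_eq_sum_iff_of_le fun e _ => h1 e).1 (by omega)

theorem two_le_cy (hs : s ≠ t) (hu : u ≠ t) (hsu : s ≠ u)
    (sim : ∀ e e', S.lf e = S.lf e' → S.rt e = S.rt e' → e = e') (q : R) :
    2 ≤ (S.cy t q).card := by
  refine one_lt_card.2 ⟨q, mem_cy.2 (Rch.refl 0), S.rt (S.eL u (S.lf (S.eR s q))), mem_cy.2 ?_, ?_⟩
  · exact Rch.flat (S.eR s q) _ (by rw [S.rt_eR]; exact Rch.refl 0) (by rwa [S.col_eR])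
      (S.lf_eL _ _) (by rwa [S.col_eL])
  · intro h
    have := congrArg S.col (sim (S.eR s q) (S.eL u (S.lf (S.eR s q))) (S.lf_eL _ _).symm
      ((S.rt_eR _ _).trans h))
    rw [S.col_eR, S.col_eL] at this
    exact hsu this

theorem grow (hs : s ≠ t) (hu : u ≠ t) (hsu : s ≠ u)
    (sim : ∀ e e', S.lf e = S.lf e' → S.rt e = S.rt e' → e = e')
    (con : ∀ q0 q, ∃ i, S.Rch t q0 i q) {Z : Finset R} (hZ : Z.Nonempty) {i : ℕ}
    (h : S.ball t Z i ≠ univ) : Z.card + 2 * i ≤ (S.ball t Z i).card := by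
  have row : ∀ {q0 q : R} {j : ℕ}, S.Rch t q0 j q → S.RchL t q0 j (S.lf (S.eR s q)) :=
    fun h => Rch.row (by rwa [S.rt_eR]) (by rwa [S.col_eR])
  have mon : ∀ j, S.ball t Z j ⊆ S.ball t Z (j + 1) := by
    intro j r hr
    obtain ⟨q, a, b⟩ := mem_ball.1 hr
    exact mem_ball.2 ⟨q, a, b.mono (Nat.le_succ _)⟩
  induction i with
  | zero =>
    have inj : Function.Injective (fun q => S.lf (S.eR s q)) := by
      intro q q' h
      have := congrArg S.rt (S.eq_of_lf h (by rw [S.col_eR, S.col_eR]))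
      rwa [S.rt_eR, S.rt_eR] at this
    rw [← card_image_of_injective Z inj]
    refine card_le_card fun r hr => ?_
    obtain ⟨q, a, rfl⟩ := mem_image.1 hr
    exact mem_ball.2 ⟨q, a, row (Rch.refl 0)⟩
  | succ i ih =>
    have h' : S.ball t Z i ≠ univ := fun e => h (univ_subset_iff.1 (e ▸ mon i))
    have new : ∃ r ∈ S.ball t Z (i + 1), r ∉ S.ball t Z i := by
      by_contra hn
      push Not at hn
      obtain ⟨q0, hq0⟩ := hZ
      have all : ∀ j q, S.Rch t q0 j q → ∃ q1 ∈ Z, S.Rch t q1 i q := by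
        intro j q hq
        induction hq with
        | refl j => exact ⟨q0, hq0, Rch.refl _⟩
        | flat e e' _ a b c ih =>
          obtain ⟨q1, d, d'⟩ := ih
          exact ⟨q1, d, Rch.flat e e' d' a b c⟩
        | arc e e' _ a b ih =>
          obtain ⟨q1, d, d'⟩ := ih
          obtain ⟨q2, g, g'⟩ := mem_ball.1 (hn _ (mem_ball.2 ⟨q1, d, row (Rch.arc e e' d' a b)⟩))
          have := RchL.flat g' (by rwa [S.col_eR])
          rw [S.rt_eR] at this
          exact ⟨q2, g, this⟩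
      refine h' (eq_univ_iff_forall.2 fun r => ?_)
      obtain ⟨j, hj⟩ := con q0 (S.rt (S.eL s r))
      obtain ⟨q1, d, d'⟩ := all _ _ hj
      have := d'.row (by rwa [S.col_eL])
      rw [S.lf_eL] at this
      exact mem_ball.2 ⟨q1, d, this⟩
    obtain ⟨r, r1, r2⟩ := new
    obtain ⟨f, f1, f3⟩ : ∃ f, S.lf f = r ∧ S.col f = s := ⟨S.eL s r, S.lf_eL _ _, S.col_eL _ _⟩
    obtain ⟨g, g1, g3⟩ : ∃ g, S.rt g = S.rt f ∧ S.col g = u :=
      ⟨S.eR u (S.rt f), S.rt_eR _ _, S.col_eR _ _⟩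
    subst f1
    have f2 : S.col f ≠ t := by rwa [f3]
    have g2 : S.col g ≠ t := by rwa [g3]
    have ne : S.lf f ≠ S.lf g := by
      intro e
      have := congrArg S.col (sim f g e g1.symm)
      rw [f3, g3] at this
      exact hsu this
    have p1 : S.lf g ∈ S.ball t Z (i + 1) := by
      obtain ⟨q, a, b⟩ := mem_ball.1 r1
      have c := RchL.flat b f2
      rw [← g1] at c
      exact mem_ball.2 ⟨q, a, Rch.row c g2⟩
    have p2 : S.lf g ∉ S.ball t Z i := by
      intro hh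
      obtain ⟨q, a, b⟩ := mem_ball.1 hh
      have c := RchL.flat b g2
      rw [g1] at c
      exact r2 (mem_ball.2 ⟨q, a, Rch.row c f2⟩)
    have sub : insert (S.lf f) (insert (S.lf g) (S.ball t Z i)) ⊆ S.ball t Z (i + 1) :=
      insert_subset r1 (insert_subset p1 (mon i))
    have c := card_le_card sub
    rw [card_insert_of_notMem (by simp [ne, r2]), card_insert_of_notMem p2] at c
    have := ih h'
    omega

theorem gapfill {Z : Finset R} (cl : ∀ q ∈ Z, ∀ q', S.Rch t q 0 q' → q' ∈ Z) {g : ℕ}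
    (hg : ∀ q ∈ Z, (S.cy t q).card ≤ g) {lo hi : ℤ} (h1 : lo ≤ Z.card) (h2 : 0 ≤ hi)
    (h3 : (g : ℤ) ≤ hi - lo + 1) (h4 : lo ≤ hi) :
    ∃ Z' ⊆ Z, (∀ q ∈ Z', ∀ q', S.Rch t q 0 q' → q' ∈ Z') ∧ lo ≤ Z'.card ∧ (Z'.card : ℤ) ≤ hi := by
  classical
  obtain ⟨Z', m, mx⟩ := exists_max_image (Z.powerset.filter (fun W : Finset R =>
    (∀ q ∈ W, ∀ q', S.Rch t q 0 q' → q' ∈ W) ∧ (W.card : ℤ) ≤ hi)) card
    ⟨∅, mem_filter.2 ⟨empty_mem_powerset _, by simp, by simpa using h2⟩⟩
  obtain ⟨m1, m2, m3⟩ := mem_filter.1 m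
  have m1' := mem_powerset.1 m1
  refine ⟨Z', m1', m2, ?_, m3⟩
  by_contra hlt
  push Not at hlt
  obtain ⟨q, q1, q2⟩ : ∃ q ∈ Z, q ∉ Z' := by
    by_contra hn
    push Not at hn
    have := card_le_card (show Z ⊆ Z' from hn)
    omega
  have c1 := card_union_le Z' (S.cy t q)
  have c2 := hg q q1
  have c3 : Z'.card < (Z' ∪ S.cy t q).card :=
    card_lt_card ⟨subset_union_left, fun hh => q2 (hh (mem_union_right _ (mem_cy.2 (Rch.refl 0))))⟩
  have := mx (Z' ∪ S.cy t q) (mem_filter.2 ⟨mem_powerset.2 (union_subset m1'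
    fun z hz => cl q q1 z (mem_cy.1 hz)), fun z hz z' hz' => ?_, by omega⟩)
  · omega
  · rcases mem_union.1 hz with a | a
    · exact mem_union_left _ (m2 z a z' hz')
    · exact mem_union_right _ (mem_cy.2 ((mem_cy.1 a).trans hz'))

end Sys

end Pool.Agent.Lib.MP_cc2426_co
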