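import Pool.Agent.Lib.MP_cc2426_co.Cnt

/-! Recolouring two-coloured cycles of small level by unit moves. -/

set_option autoImplicit false
set_option linter.unusedSectionVars false

namespace Pool.Agent.Lib.MP_cc2426_co

open Finset

variable {E L R K : Type*} [DecidableEq E] [DecidableEq L] [DecidableEq R] [DecidableEq K]
  [Fintype L] [Fintype R]

namespace Sys

/-- joined by steps inside the class `Q`. -/
def Ch (S : Sys E L R K) (x : L) (y : R) (Q : Finset E → Prop) : Finset E → Finset E → Prop :=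
  Relation.ReflTransGen (fun N N' => S.Mv x y N N' ∧ Q N ∧ Q N')

/-- delete the edges at `x` and `y`. -/
def cut (S : Sys E L R K) (x : L) (y : R) (M : Finset E) : Finset E :=
  M.filter (fun e => S.lf e ≠ x ∧ S.rt e ≠ y)

variable {S : Sys E L R K} {s u t : K} {x : L} {y : R}

theorem cut_swap (M : Finset E) : S.swap.cut y x M = S.cut x y M :=
  filter_congr (fun _ _ => and_comm)

theorem Pure.swap {M : Finset E} (h : S.Pure t M) : S.swap.Pure t M :=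
  ⟨h.1.swap, h.2.1, h.2.2.2, h.2.2.1⟩

theorem Pure.av {M : Finset E} (h : S.Pure t M) : S.Av x y (S.cut x y M) :=
  ⟨h.1.mono (filter_subset _ _), fun _ he => (mem_filter.1 he).2⟩

theorem Av.mono {M N : Finset E} (h : S.Av x y M) (hN : N ⊆ M) : S.Av x y N :=
  ⟨h.1.mono hN, fun e he => h.2 e (hN he)⟩

theorem dl_self (c : K) : dl c c = 1 := by simp [dl]

theorem dl_ne {c k : K} (h : c ≠ k) : dl c k = 0 := by simp [dl, h.symm]

theorem dl_nn (c k : K) : 0 ≤ dl c k := by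
  by_cases h : c = k
  · rw [h, dl_self]; omega
  · rw [dl_ne h]

theorem dl_le (c k : K) : dl c k ≤ 1 := by
  by_cases h : c = k
  · rw [h, dl_self]
  · rw [dl_ne h]; omega

theorem vec_zero {M : Finset E} (h : ∀ e ∈ M, S.col e ≠ t) : S.vec M t = 0 := by
  rw [vec_apply, filter_eq_empty_iff.2 h]; simp

theorem mv0 {N : Finset E} (h : S.IsM N) {f g : E} (h2 : S.FrL N (S.lf f)) (hg : g ∈ N)
    (h3 : S.rt f = S.rt g) :
    S.IsM (insert f (N.erase g)) ∧ (insert f (N.erase g)).card = N.card ∧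
      (∀ k, S.vec (insert f (N.erase g)) k + dl (S.col g) k = S.vec N k + dl (S.col f) k) ∧
      S.FrL (insert f (N.erase g)) (S.lf g) := by
  have a := S.mvL (A := insert (S.col f) (N.image S.col)) (FL := ∅) (FR := ∅) h
    (fun e he => ⟨mem_insert_of_mem (mem_image_of_mem _ he), by simp, by simp⟩)
    (mem_insert_self _ _) (by simp) h2 hg h3
  exact ⟨a.isM, a.card, fun k => congrFun a.vec k, a.frL⟩

theorem Ch.av {Q : Finset E → Prop} {N N' : Finset E} (h : S.Ch x y Q N N') (a : S.Av x y N) :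
    S.Av x y N' ∧ N'.card = N.card := by
  induction h with
  | refl => exact ⟨a, rfl⟩
  | tail _ b ih => exact ⟨b.1.av.1, b.1.av.2.trans ih.2⟩

theorem Ch.last {Q : Finset E → Prop} {N N' : Finset E} (h : S.Ch x y Q N N') (a : Q N) : Q N' := by
  induction h with
  | refl => exact a
  | tail _ b _ => exact b.2.2

theorem Ch.unswap {Q : Finset E → Prop} {N N' : Finset E} (h : S.swap.Ch y x Q N N') :
    S.Ch x y Q N N' := by
  induction h with
  | refl => exact Relation.ReflTransGen.refl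
  | tail _ a ih => exact Relation.ReflTransGen.tail ih ⟨a.1.unswap, a.2⟩

theorem Ch.snoc {Q : Finset E → Prop} {N0 N : Finset E} (h : S.Ch x y Q N0 N) (a : S.Av x y N0)
    (q0 : Q N0) {f g : E} (h1 : S.lf f ≠ x) (h2 : S.FrL N (S.lf f)) (hg : g ∈ N)
    (h3 : S.rt f = S.rt g) (q : Q (insert f (N.erase g))) :
    S.Ch x y Q N0 (insert f (N.erase g)) :=
  Relation.ReflTransGen.tail h ⟨⟨(h.av a).1, f, g, hg, rfl, Or.inl ⟨h1, h2, h3⟩⟩, h.last q0, q⟩

theorem Av.union {M N : Finset E} (h : S.Av x y N) (h' : S.Av x y M)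
    (hd : ∀ e ∈ N, ∀ f ∈ M, S.lf e ≠ S.lf f ∧ S.rt e ≠ S.rt f) : S.Av x y (N ∪ M) :=
  ⟨h.1.union h'.1 hd, fun e he => (mem_union.1 he).elim (h.2 e) (h'.2 e)⟩

theorem Ch.lift {Q Q' : Finset E → Prop} {M : Finset E} (hM : S.Av x y M)
    (h : ∀ N, Q N → (∀ e ∈ N, ∀ f ∈ M, S.lf e ≠ S.lf f ∧ S.rt e ≠ S.rt f) ∧ Q' (N ∪ M))
    {N N' : Finset E} (c : S.Ch x y Q N N') : S.Ch x y Q' (N ∪ M) (N' ∪ M) := by
  induction c with
  | refl => exact Relation.ReflTransGen.refl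
  | @tail N1 N2 _ b ih =>
    obtain ⟨⟨a, f, g, g1, rfl, d⟩, q1, q2⟩ := b
    have d1 := (h _ q1).1
    have d2 := (h _ q2).1 f (mem_insert_self _ _)
    refine Relation.ReflTransGen.tail ih ⟨⟨a.union hM d1, f, g, mem_union_left _ g1, ?_, ?_⟩,
      (h _ q1).2, (h _ q2).2⟩
    · rw [erase_union_distrib, erase_eq_of_notMem (s := M) (fun hh => (d1 g g1 g hh).1 rfl),
        insert_union]
    · rcases d with d | d
      · exact Or.inl ⟨d.1, fun e he => (mem_union.1 he).elim (d.2.1 e)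
          (fun h' => (d2 e h').1.symm), d.2.2⟩
      · exact Or.inr ⟨d.1, fun e he => (mem_union.1 he).elim (d.2.1 e)
          (fun h' => (d2 e h').2.symm), d.2.2⟩

theorem reach (tri : ∀ k, k = s ∨ k = u ∨ k = t) (hs : s ≠ t) (hu : u ≠ t)
    {I : Finset E → Prop} {i1 : ℕ} {N0 : Finset E} (isM : ∀ N, I N → S.IsM N)
    (step : ∀ N f g, I N → S.FrL N (S.lf f) → g ∈ N → S.rt f = S.rt g → S.RchL t y i1 (S.lf f) →
      S.Rch t y i1 (S.rt f) → S.vec (insert f (N.erase g)) t ≤ i1 → I (insert f (N.erase g)))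
    (h0 : I N0) (nt : ∀ e ∈ N0, S.col e ≠ t) {e0 : E} (e1 : S.rt e0 = y) (e2 : S.col e0 ≠ t)
    (e3 : S.FrL N0 (S.lf e0)) (cov : ∀ q, S.Rch t y i1 q → q ≠ y → ∃ g ∈ N0, S.rt g = q) :
    ∀ i ≤ i1, ∀ r, S.RchL t y i r → ∃ N, I N ∧ S.FrL N r ∧ S.vec N t ≤ i ∧
      ∀ e ∈ N0, ¬ S.Rch t y i (S.rt e) → e ∈ N := by
  have run : ∀ i ≤ i1, ∀ κ, S.Rch t y i κ → ∀ N e, S.rt e = κ → S.col e ≠ t → S.FrL N (S.lf e) →
      (∀ q, S.Rch t κ 0 q → q ≠ κ → ∃ g ∈ N, S.rt g = q ∧ S.col g ≠ t) →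
      I N → S.vec N t ≤ i → (∀ e ∈ N0, ¬ S.Rch t y i (S.rt e) → e ∈ N) → ∀ r, S.RchL t κ 0 r →
      ∃ N, I N ∧ S.FrL N r ∧ S.vec N t ≤ i ∧ ∀ e ∈ N0, ¬ S.Rch t y i (S.rt e) → e ∈ N := by
    intro i hi κ hκ N e a1 a2 a3 a4 a5 a6 a7 r hr
    obtain ⟨N', b1, b2, -⟩ := cyc (S := S) tri hs hu (κ := κ) (I := fun M => I M ∧ S.vec M t ≤ i ∧
        ∀ e ∈ N0, ¬ S.Rch t y i (S.rt e) → e ∈ M) (by
      rintro M f g ⟨m1, m2, m3⟩ c1 c2 c3 c4 c5 c6
      have m := mv0 (isM M m1) c1 c2 c3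
      have v := m.2.2.1 t
      rw [dl_ne c4, dl_ne c5] at v
      have c7 : S.Rch t y i (S.rt f) := hκ.trans c6
      refine ⟨⟨step M f g m1 c1 c2 c3 ((c7.row c4).mono hi) (c7.mono hi) (by omega), by omega,
        fun k k1 k2 => mem_insert_of_mem (mem_erase.2 ⟨fun hh => k2 ?_, m3 k k1 k2⟩)⟩, m.2.2.2⟩
      rwa [hh, ← c3]) ⟨a5, a6, a7⟩ a1 a2 a3 a4 hr
    exact ⟨N', b1.1, b2, b1.2⟩
  intro i
  induction i with
  | zero =>
    intro hi r hr
    exact run 0 hi y (Rch.refl 0) N0 e0 e1 e2 e3 (fun q a b => by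
      obtain ⟨g, g1, g2⟩ := cov q (a.mono hi) b
      exact ⟨g, g1, g2, nt g g1⟩) h0 (by rw [vec_zero nt]; rfl) (fun _ a _ => a) r hr
  | succ i ih =>
    intro hi r hr
    obtain ⟨e, rfl, a2, a3⟩ := hr
    by_cases hl : S.Rch t y i (S.rt e)
    · obtain ⟨N, b1, b2, b3, b4⟩ := ih (by omega) _ (hl.row a2)
      exact ⟨N, b1, b2, by omega, fun k k1 k2 => b4 k k1 (fun hh => k2 hh.succ)⟩
    obtain ⟨f, f1, f2⟩ := (entry a3).resolve_left hl
    have far : ∀ q, S.Rch t (S.rt f) 0 q → ¬ S.Rch t y i q := fun q a b =>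
      hl ((b.trans a.symm).trans f2)
    have cv : ∀ q, S.Rch t (S.rt f) 0 q → ∃ g ∈ N0, S.rt g = q := fun q a =>
      cov q (((RchL.arc f1).trans a).mono hi) (fun hh => far q a (hh ▸ Rch.refl _))
    obtain ⟨N, b1, b2, b3, b4⟩ := ih (by omega) _ f1
    obtain ⟨g, g1, g2⟩ := cv _ (Rch.refl 0)
    have g3 : g ∈ N := b4 g g1 (g2 ▸ far _ (Rch.refl 0))
    have m := mv0 (isM N b1) b2 g3 g2.symm
    have v := m.2.2.1 t
    have := dl_le (S.col f) t
    rw [dl_ne (nt g g1)] at v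
    refine run (i + 1) hi (S.rt f) (RchL.arc f1) _ g g2 (nt g g1) m.2.2.2 (fun q a b => ?_)
      (step N f g b1 b2 g3 g2.symm (f1.mono (by omega)) ((RchL.arc f1).mono hi) (by omega))
      (by push_cast; omega) (fun k k1 k2 => mem_insert_of_mem (mem_erase.2
        ⟨fun hh => k2 (by rw [hh, g2]; exact RchL.arc f1), b4 k k1 (fun hh => k2 hh.succ)⟩)) _
      (f2.row a2)
    obtain ⟨k, k1, k2⟩ := cv q a
    exact ⟨k, mem_insert_of_mem (mem_erase.2 ⟨fun hh => b (by rw [← k2, hh, g2]),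
      b4 k k1 (k2 ▸ far q a)⟩), k2, nt k k1⟩

/-- a perfect matching of the graph minus `x`, `y` with few edges of colour `t`. -/
theorem minhub (tri : ∀ k, k = s ∨ k = u ∨ k = t) (hs : s ≠ t) (hu : u ≠ t) {j : ℕ}
    (h : S.RchL t y j x) :
    ∃ P, S.Av x y P ∧ P.card + 1 = Fintype.card R ∧ S.vec P t ≤ j := by
  have mem : ∀ e ∈ (univ.erase y).image (S.eR s), S.col e = s ∧ S.rt e ≠ y := by
    intro e he
    obtain ⟨q, hq, rfl⟩ := mem_image.1 he
    exact ⟨S.col_eR _ _, by rw [S.rt_eR]; exact (mem_erase.1 hq).1⟩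
  obtain ⟨P, p1, p2, p3, -⟩ := reach (S := S) (y := y) tri hs hu (i1 := j)
    (N0 := (univ.erase y).image (S.eR s))
    (I := fun N => S.IsM N ∧ (∀ e ∈ N, S.rt e ≠ y) ∧ N.card + 1 = Fintype.card R)
    (fun _ h => h.1) (by
      rintro N f g ⟨a1, a2, a3⟩ b1 b2 b3 - - -
      have m := mv0 a1 b1 b2 b3
      refine ⟨m.1, fun e he => ?_, by rw [m.2.1, a3]⟩
      rcases mem_insert.1 he with rfl | he
      · rw [b3]; exact a2 g b2
      · exact a2 e (mem_erase.1 he).2)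
    ⟨⟨fun e he f hf hh => S.eq_of_lf hh ((mem e he).1.trans (mem f hf).1.symm),
      fun e he f hf hh => S.eq_of_rt hh ((mem e he).1.trans (mem f hf).1.symm)⟩,
      fun e he => (mem e he).2, by
        rw [card_image_of_injective _ (fun q q' hh => by rw [← S.rt_eR s q, hh, S.rt_eR]),
          card_erase_add_one (mem_univ y), card_univ]⟩
    (fun e he => (mem e he).1 ▸ hs) (e0 := S.eR s y) (S.rt_eR _ _) (by rwa [S.col_eR])
    (fun e he hh => (mem e he).2 (by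
      rw [S.eq_of_lf hh ((mem e he).1.trans (S.col_eR _ _).symm), S.rt_eR]))
    (fun q _ b => ⟨_, mem_image_of_mem _ (mem_erase.2 ⟨b, mem_univ _⟩), S.rt_eR _ _⟩) j le_rfl x h
  exact ⟨P, ⟨p1.1, fun e he => ⟨p2 e he, p1.2.1 e he⟩⟩, p1.2.2, p3⟩

theorem norm (tri : ∀ k, k = s ∨ k = u ∨ k = t) (hs : s ≠ t) (hu : u ≠ t) (hsu : s ≠ u) {κ : R}
    {τ : ℤ} (hx : ¬ S.RchL t κ 0 x) {N : Finset E} (a : S.Av x y N) (v : S.vec N t ≤ τ) {e : E}
    (e1 : S.rt e = κ) (e2 : S.col e ≠ t) (fr : S.FrL N (S.lf e))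
    (cov : ∀ q, S.Rch t κ 0 q → q ≠ κ → ∃ g ∈ N, S.rt g = q ∧ S.col g ≠ t)
    (no : ∀ g ∈ N, S.rt g = κ → S.col g = t) :
    ∃ M, S.Low x y t τ N M ∧ ∀ k, k ∈ M ↔
      ((S.col k ≠ t ∧ S.Rch t κ 0 (S.rt k)) ∧ S.col k = s ∧ S.rt k ≠ κ) ∨
        (¬ (S.col k ≠ t ∧ S.Rch t κ 0 (S.rt k)) ∧ k ∈ N) := by
  obtain ⟨M, ⟨b1, b2, b3⟩, b4, b5⟩ := cyc (S := S) tri hs hu (κ := κ)
    (I := fun M => S.Ch x y (fun N => S.vec N t ≤ τ) N M ∧ (∀ g ∈ M, S.rt g = κ → S.col g = t) ∧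
      ∀ k, ¬ (S.col k ≠ t ∧ S.Rch t κ 0 (S.rt k)) → (k ∈ M ↔ k ∈ N)) (by
      rintro M f g ⟨m1, m2, m3⟩ c1 c2 c3 c4 c5 c6
      have m := mv0 (m1.av a).1.1 c1 c2 c3
      have w := m.2.2.1 t
      have w' := m1.last v
      rw [dl_ne c4, dl_ne c5] at w
      refine ⟨⟨m1.snoc a v (fun hh => hx (hh ▸ c6.row c4)) c1 c2 c3 (by omega), fun k k1 k2 => ?_,
        fun k hk => ?_⟩, m.2.2.2⟩
      · rcases mem_insert.1 k1 with rfl | k1
        · exact absurd (m2 g c2 (c3 ▸ k2)) c5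
        · exact m2 k (mem_erase.1 k1).2 k2
      · rw [← m3 k hk, mem_insert, mem_erase]
        have n1 : k ≠ f := fun hh => hk (hh ▸ ⟨c4, c6⟩)
        have n2 : k ≠ g := fun hh => hk (hh ▸ ⟨c5, c3 ▸ c6⟩)
        tauto) ⟨Relation.ReflTransGen.refl, no, fun _ _ => Iff.rfl⟩ e1 e2 fr cov
    (r := S.lf (S.eR s κ)) ⟨_, rfl, by rwa [S.col_eR], by rw [S.rt_eR]; exact Rch.refl 0⟩
  refine ⟨M, b1, fun k => ?_⟩
  have hM := (b1.av a).1.1
  by_cases hk : S.col k ≠ t ∧ S.Rch t κ 0 (S.rt k)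
  · simp only [hk, not_true, false_and, or_false, true_and, ne_eq, not_false_eq_true, and_self]
    constructor
    · intro h
      have n : S.rt k ≠ κ := fun hh => hk.1 (b2 k h hh)
      have := (cyc_end tri hs hu hsu hM b4 b5 hk.2).resolve_left n
      rw [hM.r k h _ this (S.rt_eR _ _).symm, S.col_eR, S.rt_eR]
      exact ⟨rfl, n⟩
    · intro h
      have := (cyc_end tri hs hu hsu hM b4 b5 hk.2).resolve_left h.2
      rwa [eR_rt h.1] at this
  · rw [b3 k hk]; tauto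

theorem flip1 (tri : ∀ k, k = s ∨ k = u ∨ k = t) (hs : s ≠ t) (hu : u ≠ t) (hsu : s ≠ u) {τ : ℕ}
    (hx : ¬ S.RchL t y τ x) {M M' : Finset E} (hM : S.Pure t M) (hM' : S.Pure t M') {q0 : R}
    (hq : S.Rch t y τ q0) (ag : ∀ e, ¬ S.Rch t q0 0 (S.rt e) → (e ∈ M ↔ e ∈ M')) :
    S.Low x y t τ (S.cut x y M) (S.cut x y M') := by
  classical
  have fin : ∀ κ, S.Rch t κ 0 q0 → ∀ F : Finset E → Finset E,
      (∀ k, ¬ (S.col k ≠ t ∧ S.Rch t κ 0 (S.rt k)) → (k ∈ F M ↔ k ∈ F M')) →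
      (∀ B, S.Pure t B → (∀ e, ¬ S.Rch t q0 0 (S.rt e) → (e ∈ M ↔ e ∈ B)) →
        S.Low x y t τ (S.cut x y B) (F B) ∧ S.vec (F B) t ≤ τ ∧
        (∃ e, S.rt e = κ ∧ S.col e ≠ t ∧ S.FrL (F B) (S.lf e)) ∧
        (∀ q, S.Rch t κ 0 q → q ≠ κ → ∃ g ∈ F B, S.rt g = q ∧ S.col g ≠ t) ∧
        ∀ g ∈ F B, S.rt g = κ → S.col g = t) → S.Low x y t τ (S.cut x y M) (S.cut x y M') := by
    intro κ hκ F h1 h2
    have nx : ¬ S.RchL t κ 0 x := fun ⟨e, a, b, c⟩ =>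
      hx ⟨e, a, b, (hq.trans hκ.symm).trans c⟩
    obtain ⟨a1, a2, ⟨e, a3, a4, a5⟩, a6, a7⟩ := h2 M hM (fun _ _ => Iff.rfl)
    obtain ⟨b1, b2, ⟨e', b3, b4, b5⟩, b6, b7⟩ := h2 M' hM' ag
    obtain ⟨X, x1, x2⟩ := norm tri hs hu hsu nx (a1.av hM.av).1 a2 a3 a4 a5 a6 a7
    obtain ⟨X', y1, y2⟩ := norm tri hs hu hsu nx (b1.av hM'.av).1 b2 b3 b4 b5 b6 b7
    obtain rfl : X = X' := by
      ext k
      rw [x2, y2]
      have := h1 k
      tauto
    exact (a1.trans x1).trans (b1.trans y1).symm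
  have covK : ∀ B, S.Pure t B → ∀ q, S.Rch t y τ q → q ≠ y →
      ∃ g ∈ S.cut x y B, S.rt g = q ∧ S.col g ≠ t := by
    intro B hB q a b
    obtain ⟨g, g1, rfl⟩ := hB.2.2.2 q
    exact ⟨g, mem_filter.2 ⟨g1, fun hh => hx (hh ▸ a.row (hB.2.1 g g1)), b⟩, rfl, hB.2.1 g g1⟩
  have hole : ∀ B, S.Pure t B → ∃ e, S.rt e = y ∧ S.col e ≠ t ∧ S.FrL (S.cut x y B) (S.lf e) := by
    intro B hB
    obtain ⟨g, g1, g2⟩ := hB.2.2.2 y
    exact ⟨g, g2, hB.2.1 g g1, fun k hk hh => (mem_filter.1 hk).2.2 (by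
      rw [hB.1.l k (mem_filter.1 hk).1 g g1 hh, g2])⟩
  have nt : ∀ B, S.Pure t B → ∀ e ∈ S.cut x y B, S.col e ≠ t := fun B hB e he =>
    hB.2.1 e (mem_filter.1 he).1
  rcases hi : S.lev t y q0 with _ | i
  · have h0 : S.Rch t y 0 q0 := hi ▸ lev_spec ⟨τ, hq⟩
    refine fin y h0 (S.cut x y) (fun k hk => ?_) (fun B hB _ => ⟨Relation.ReflTransGen.refl,
      by rw [vec_zero (nt B hB)]; omega, hole B hB,
      fun q a b => covK B hB q (a.mono (Nat.zero_le _)) b,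
      fun g g1 g2 => absurd g2 (mem_filter.1 g1).2.2⟩)
    by_cases hc : S.col k = t
    · exact ⟨fun h => absurd hc (nt M hM k h), fun h => absurd hc (nt M' hM' k h)⟩
    · unfold cut
      rw [mem_filter, mem_filter, ag k (fun hh => hk ⟨hc, h0.trans hh⟩)]
  have h1 : S.Rch t y (i + 1) q0 := hi ▸ lev_spec ⟨τ, hq⟩
  have h2 : i + 1 ≤ τ := hi ▸ lev_le hq
  have h3 : ¬ S.Rch t y i q0 := fun hh => by have := lev_le hh; omega
  obtain ⟨f, f1, f2⟩ := (entry h1).resolve_left h3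
  have far : ∀ q, S.Rch t (S.rt f) 0 q → ¬ S.Rch t y i q := fun q a b =>
    h3 ((b.trans a.symm).trans f2)
  have ft : S.col f = t := by
    by_contra hh
    exact far _ (Rch.refl 0) (f1.flat hh)
  set N0 := (S.cut x y M).filter (fun e => S.Rch t y i (S.rt e)) with hN0
  have a0 : S.Av x y N0 := hM.av.mono (filter_subset _ _)
  have n0 : ∀ e ∈ N0, S.col e ≠ t := fun e he => nt M hM e (mem_filter.1 he).1
  have q0' : S.vec N0 t ≤ τ ∧ ∀ e ∈ N0, S.RchL t y i (S.lf e) ∧ S.Rch t y i (S.rt e) :=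
    ⟨by rw [vec_zero n0]; omega,
      fun e he => ⟨(mem_filter.1 he).2.row (n0 e he), (mem_filter.1 he).2⟩⟩
  obtain ⟨e0, e1, e2, e3⟩ := hole M hM
  obtain ⟨N, c1, c2, c3, -⟩ := reach (S := S) (y := y) tri hs hu (i1 := i) (N0 := N0)
    (I := fun N => S.Ch x y (fun N => S.vec N t ≤ τ ∧
      ∀ e ∈ N, S.RchL t y i (S.lf e) ∧ S.Rch t y i (S.rt e)) N0 N)
    (fun _ h => (h.av a0).1.1) (fun N f g b0 b1 b2 b3 b4 b5 b6 =>
      b0.snoc a0 q0' (fun hh => hx (hh ▸ b4.mono (by omega))) b1 b2 b3 ⟨by omega, fun e he => by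
        rcases mem_insert.1 he with rfl | he
        · exact ⟨b4, b5⟩
        · exact (b0.last q0').2 e (mem_erase.1 he).2⟩)
    Relation.ReflTransGen.refl n0 e1 e2 (fun k hk => e3 k (mem_filter.1 hk).1) (fun q a b => by
      obtain ⟨g, g1, g2, -⟩ := covK M hM q (a.mono (by omega)) b
      exact ⟨g, mem_filter.2 ⟨g1, g2 ▸ a⟩, g2⟩) i le_rfl _ f1
  have cN := (c1.last q0').2
  refine fin (S.rt f) f2 (fun B => insert f (N ∪ (S.cut x y B).filter
    (fun e => ¬ S.Rch t y i (S.rt e) ∧ S.rt e ≠ S.rt f))) (fun k hk => ?_) (fun B hB hb => ?_)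
  · by_cases hc : S.col k = t
    · have := nt M hM k
      have := nt M' hM' k
      simp only [mem_insert, mem_union, mem_filter]
      tauto
    · unfold cut
      simp only [mem_insert, mem_union, mem_filter]
      rw [ag k (fun hh => hk ⟨hc, f2.trans hh⟩)]
  set W := (S.cut x y B).filter (fun e => ¬ S.Rch t y i (S.rt e)) with hW
  have nW : ∀ e ∈ W, S.col e ≠ t := fun e he => nt B hB e (mem_filter.1 he).1
  have aW : S.Av x y W := hB.av.mono (filter_subset _ _)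
  have dW : ∀ N : Finset E, (∀ e ∈ N, S.RchL t y i (S.lf e) ∧ S.Rch t y i (S.rt e)) →
      ∀ e ∈ N, ∀ k ∈ W, S.lf e ≠ S.lf k ∧ S.rt e ≠ S.rt k := fun N h e he k hk =>
    ⟨fun hh => (mem_filter.1 hk).2 (RchL.flat (hh ▸ (h e he).1) (nW k hk)),
      fun hh => (mem_filter.1 hk).2 (hh ▸ (h e he).2)⟩
  have vW : ∀ N : Finset E, (∀ e ∈ N, S.RchL t y i (S.lf e) ∧ S.Rch t y i (S.rt e)) →
      S.vec (N ∪ W) t = S.vec N t := fun N h => by
    rw [vec_union (disj_of (dW N h)), Pi.add_apply, vec_zero nW, add_zero]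
  have l1 := Ch.lift (Q' := fun N => S.vec N t ≤ τ) aW
    (fun N h => ⟨dW N h.2, by rw [vW N h.2]; exact h.1⟩) c1
  have eB : N0 ∪ W = S.cut x y B := by
    rw [← filter_union_filter_not_eq (fun e => S.Rch t y i (S.rt e)) (S.cut x y B)]
    congr 1
    ext k
    unfold cut at hN0 ⊢
    simp only [hN0, mem_filter]
    refine and_congr_left (fun hk => ?_)
    rw [hb k (fun hh => far _ (f2.trans hh) hk)]
  rw [eB] at l1
  have cv : ∀ q, S.Rch t (S.rt f) 0 q → ∃ g ∈ W, S.rt g = q := fun q a => by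
    obtain ⟨g, g1, g2, -⟩ := covK B hB q (((RchL.arc f1).trans a).mono h2)
      (fun hh => far q a (hh ▸ Rch.refl _))
    exact ⟨g, mem_filter.2 ⟨g1, g2 ▸ far q a⟩, g2⟩
  obtain ⟨g, g1, g2⟩ := cv _ (Rch.refl 0)
  have fr : S.FrL (N ∪ W) (S.lf f) := fun k hk => (mem_union.1 hk).elim (c2 k)
    (fun h hh => (mem_filter.1 h).2 (RchL.flat (hh ▸ f1) (nW k h)))
  have eF : insert f (N ∪ (S.cut x y B).filter
      (fun e => ¬ S.Rch t y i (S.rt e) ∧ S.rt e ≠ S.rt f)) = insert f ((N ∪ W).erase g) := by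
    congr 1
    ext k
    simp only [mem_union, mem_erase, hW, mem_filter]
    constructor
    · rintro (h | h)
      · exact ⟨fun hh => (dW N cN k h g g1).1 (by rw [hh]), Or.inl h⟩
      · exact ⟨fun hh => h.2.2 (by rw [hh, g2]), Or.inr ⟨h.1, h.2.1⟩⟩
    · rintro ⟨h, h' | h'⟩
      · exact Or.inl h'
      · exact Or.inr ⟨h'.1, h'.2, fun hh => h (aW.1.r k (mem_filter.2 h') g g1 (hh.trans g2.symm))⟩
  rw [eF]
  have m := mv0 (l1.av hB.av).1.1 fr (mem_union_right _ g1) g2.symm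
  have v := m.2.2.1 t
  rw [dl_ne (nW g g1), ft, dl_self, vW N cN] at v
  have v' : S.vec (insert f ((N ∪ W).erase g)) t ≤ τ := by omega
  refine ⟨l1.snoc hB.av (by rw [vec_zero (nt B hB)]; omega)
    (fun hh => hx (hh ▸ f1.mono (by omega))) fr (mem_union_right _ g1) g2.symm v', v',
    ⟨g, g2, nW g g1, m.2.2.2⟩, fun q a b => ?_, fun k k1 k2 => ?_⟩
  · obtain ⟨k, k1, k2⟩ := cv q a
    exact ⟨k, mem_insert_of_mem (mem_erase.2 ⟨fun hh => b (by rw [← k2, hh, g2]),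
      mem_union_right _ k1⟩), k2, nW k k1⟩
  · rw [m.1.r k k1 f (mem_insert_self _ _) k2, ft]

theorem flip (tri : ∀ k, k = s ∨ k = u ∨ k = t) (hs : s ≠ t) (hu : u ≠ t) (hsu : s ≠ u) {τ : ℕ}
    (hx : ¬ S.RchL t y τ x) {M M' : Finset E} (hM : S.Pure t M) (hM' : S.Pure t M')
    (ag : ∀ e ∈ M, e ∉ M' → S.Rch t y τ (S.rt e) ∨ S.swap.Rch t x τ (S.lf e)) :
    S.Low x y t τ (S.cut x y M) (S.cut x y M') := by
  classical
  induction hk : (M \ M').card using Nat.strong_induction_on generalizing M with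
  | _ k ih =>
    by_cases h0 : M ⊆ M'
    · obtain rfl : M = M' := by
        refine Subset.antisymm h0 (fun e he => ?_)
        obtain ⟨g, g1, g2⟩ := hM.2.2.1 (S.lf e)
        rwa [← hM'.1.l g (h0 g1) e he g2]
      exact Relation.ReflTransGen.refl
    obtain ⟨e0, e1, e2⟩ := not_subset.1 h0
    have same : ∀ e e', S.col e ≠ t → S.col e' ≠ t → S.lf e = S.lf e' →
        (S.Rch t (S.rt e0) 0 (S.rt e) ↔ S.Rch t (S.rt e0) 0 (S.rt e')) := fun e e' a b c =>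
      ⟨fun h => Rch.flat e e' h a c.symm b, fun h => Rch.flat e' e h b c a⟩
    set B := M.filter (fun e => ¬ S.Rch t (S.rt e0) 0 (S.rt e)) ∪
      M'.filter (fun e => S.Rch t (S.rt e0) 0 (S.rt e)) with hB
    have pB : S.Pure t B := by
      refine ⟨(hM.1.mono (filter_subset _ _)).union (hM'.1.mono (filter_subset _ _)) ?_, ?_, ?_, ?_⟩
      · intro e he f hf
        obtain ⟨a, b⟩ := mem_filter.1 he
        obtain ⟨c, d⟩ := mem_filter.1 hf
        exact ⟨fun hh => b ((same e f (hM.2.1 e a) (hM'.2.1 f c) hh).2 d), fun hh => b (hh ▸ d)⟩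
      · exact fun e he => (mem_union.1 he).elim (fun h => hM.2.1 e (mem_filter.1 h).1)
          (fun h => hM'.2.1 e (mem_filter.1 h).1)
      · intro r
        obtain ⟨g, g1, g2⟩ := hM.2.2.1 r
        obtain ⟨g', g3, g4⟩ := hM'.2.2.1 r
        by_cases h : S.Rch t (S.rt e0) 0 (S.rt g)
        · exact ⟨g', mem_union_right _ (mem_filter.2 ⟨g3,
            (same g g' (hM.2.1 g g1) (hM'.2.1 g' g3) (g2.trans g4.symm)).1 h⟩), g4⟩
        · exact ⟨g, mem_union_left _ (mem_filter.2 ⟨g1, h⟩), g2⟩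
      · intro q
        obtain ⟨g, g1, g2⟩ := hM.2.2.2 q
        obtain ⟨g', g3, g4⟩ := hM'.2.2.2 q
        by_cases h : S.Rch t (S.rt e0) 0 q
        · exact ⟨g', mem_union_right _ (mem_filter.2 ⟨g3, g4 ▸ h⟩), g4⟩
        · exact ⟨g, mem_union_left _ (mem_filter.2 ⟨g1, g2 ▸ h⟩), g2⟩
    have sub : ∀ e ∈ B, e ∉ M' → e ∈ M ∧ ¬ S.Rch t (S.rt e0) 0 (S.rt e) := fun e a b =>
      (mem_union.1 a).elim (fun h => mem_filter.1 h) (fun h => absurd (mem_filter.1 h).1 b)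
    have agB : ∀ e, ¬ S.Rch t (S.rt e0) 0 (S.rt e) → (e ∈ M ↔ e ∈ B) := fun e h => by
      simp only [hB, mem_union, mem_filter]; tauto
    refine Low.trans ?_ (ih _ ?_ pB (fun e a b => ag e (sub e a b).1 b) rfl)
    · rcases ag e0 e1 e2 with h | h
      · exact flip1 tri hs hu hsu hx hM pB h agB
      · have := flip1 (S := S.swap) tri hs hu hsu (fun hh => hx (dual' hh)) hM.swap pB.swap h
          (fun e he => by
            by_cases hc : S.col e = t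
            · exact ⟨fun a => absurd hc (hM.2.1 e a), fun a => absurd hc (pB.2.1 e a)⟩
            refine agB e (fun hh => he ?_)
            have key : ∀ q, S.Rch t (S.rt e0) 0 q → S.swap.RchL t (S.lf e0) 0 q := fun q hq =>
              Rch.zero_ind (p := fun q => S.swap.RchL t (S.lf e0) 0 q)
                ⟨e0, rfl, hM.2.1 e0 e1, Rch.refl 0⟩ (fun f f' a b c d =>
                  ⟨f', rfl, b, (c ▸ RchL.flat (S := S.swap) (e := f) d a :
                    S.swap.Rch t (S.lf e0) 0 (S.lf f'))⟩) hq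
            exact RchL.flat (S := S.swap) (e := e) (key _ hh) hc)
        rw [cut_swap, cut_swap] at this
        exact this.unswap
    · rw [← hk]
      apply card_lt_card
      refine ⟨fun e he => mem_sdiff.2 ⟨(sub e (mem_sdiff.1 he).1 (mem_sdiff.1 he).2).1,
        (mem_sdiff.1 he).2⟩, fun h => ?_⟩
      have := mem_sdiff.1 (h (mem_sdiff.2 ⟨e1, e2⟩))
      exact (sub e0 this.1 this.2).2 (Rch.refl 0)

end Sys

end Pool.Agent.Lib.MP_cc2426_co
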