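import Pool.Agent.Lib.MP_cc2426_co.Fail
import Pool.Agent.Lib.MP_cc2426_co.Closed

/-! Freezing all components but a largest one. -/

set_option autoImplicit false
set_option linter.unusedSectionVars false

namespace Pool.Agent.Lib.MP_cc2426_co

open Finset

variable {E L R K : Type*} [DecidableEq E] [DecidableEq L] [DecidableEq R] [DecidableEq K]
  [Fintype L] [Fintype R]

namespace Sys

/-- row sets closed under sharing a column. -/
def Cd (S : Sys E L R K) (A : Finset L) : Prop :=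
  ∀ e e', S.rt e = S.rt e' → S.lf e ∈ A → S.lf e' ∈ A

/-- rows joined by a path. -/
def Cn (S : Sys E L R K) : L → L → Prop :=
  Relation.ReflTransGen (fun r r' => ∃ e e', S.lf e = r ∧ S.lf e' = r' ∧ S.rt e = S.rt e')

open Classical in
/-- the component of a row. -/
noncomputable def cmp (S : Sys E L R K) (r : L) : Finset L := univ.filter (S.Cn r)

/-- matchings that cover exactly the rows of `D`. -/
def Pm (S : Sys E L R K) (D : Finset L) (M : Finset E) : Prop :=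
  S.IsM M ∧ (∀ e ∈ M, S.lf e ∈ D) ∧ ∀ r ∈ D, ∃ e ∈ M, S.lf e = r

/-- the normal form: `A` a largest component, `M` a perfect matching of the rest, `β` the budget
that is left. -/
structure Nf (S : Sys E L R K) (τ : L → R) (T : K → ℕ) (s u t : K) (A : Finset L) (M : Finset E)
    (β : K → ℕ) : Prop where
  su : s ≠ u
  st : s ≠ t
  ut : u ≠ t
  tri : ∀ k, k = s ∨ k = u ∨ k = t
  cmpA : ∀ x ∈ A, S.cmp x = A
  neA : A.Nonempty
  big : ∀ r, (S.cmp r).card ≤ A.card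
  pm : S.Pm Aᶜ M
  bud : ∀ k, S.vec M k + β k = T k
  sum : β s + β u + β t + 2 = A.card
  tu : β t ≤ β u
  us : β u ≤ β s
  hit : ∀ x ∈ A, ∀ e, S.rt e = τ x → S.lf e ∈ A ∨ ∃ c, (∀ r ∈ S.cmp (S.lf e), S.eL c r ∈ M) ∧
    (c = t ∨ β t < (S.cmp (S.lf e)).card)

variable {S : Sys E L R K} {s u t : K} {x : L} {y : R}

theorem mem_cmp {r r' : L} : r' ∈ S.cmp r ↔ S.Cn r r' := by simp [cmp]

theorem Cn.symm {r r' : L} (h : S.Cn r r') : S.Cn r' r := by
  induction h with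
  | refl => exact Relation.ReflTransGen.refl
  | tail _ h ih =>
    obtain ⟨e, e', h1, h2, h3⟩ := h
    exact Relation.ReflTransGen.head ⟨e', e, h2, h1, h3.symm⟩ ih

theorem cmp_self (r : L) : r ∈ S.cmp r := mem_cmp.2 Relation.ReflTransGen.refl

theorem cmp_cd (r : L) : S.Cd (S.cmp r) := fun e e' h he =>
  mem_cmp.2 (Relation.ReflTransGen.tail (mem_cmp.1 he) ⟨e, e', rfl, rfl, h⟩)

theorem cmp_sub {A : Finset L} (h : S.Cd A) {r : L} (hr : r ∈ A) : S.cmp r ⊆ A := by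
  intro r' h'
  rw [mem_cmp] at h'
  induction h' with
  | refl => exact hr
  | tail _ h2 ih =>
    obtain ⟨e, e', h1, h2, h3⟩ := h2
    exact h2 ▸ h e e' h3 (h1 ▸ ih)

theorem cmp_eq {r r' : L} (h : r' ∈ S.cmp r) : S.cmp r' = S.cmp r :=
  Subset.antisymm (cmp_sub (cmp_cd r) h) (cmp_sub (cmp_cd r') (mem_cmp.2 (mem_cmp.1 h).symm))

theorem Cd.compl {A : Finset L} (h : S.Cd A) : S.Cd Aᶜ := fun e e' a b =>
  mem_compl.2 fun c => mem_compl.1 b (h e' e a.symm c)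

theorem Cd.union {A B : Finset L} (h : S.Cd A) (h' : S.Cd B) : S.Cd (A ∪ B) := fun e e' a b =>
  mem_union.2 ((mem_union.1 b).imp (h e e' a) (h' e e' a))

theorem Cd.sdiff {A B : Finset L} (h : S.Cd A) (h' : S.Cd B) : S.Cd (A \ B) := fun e e' a b =>
  mem_sdiff.2 ⟨h e e' a (mem_sdiff.1 b).1, fun c => (mem_sdiff.1 b).2 (h' e' e a.symm c)⟩

/-- components are connected in the sense of levels, for every colour `k`. -/
theorem cmp_rch {k c : K} (hc : c ≠ k) {r r' : L} (h : r' ∈ S.cmp r) :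
    ∃ i, S.swap.Rch k r i r' := by
  have one : ∀ e e', S.rt e = S.rt e' → S.col e ≠ k → ∀ i, S.swap.Rch k r i (S.lf e) →
      S.swap.Rch k r (i + 1) (S.lf e') := fun e e' a b i d =>
    Rch.arc (S := S.swap) e e' d b a.symm
  classical
  set Z := univ.filter fun r' => ∃ i, S.swap.Rch k r i r' with hZ
  have mZ : ∀ r', r' ∈ Z ↔ ∃ i, S.swap.Rch k r i r' := by simp [hZ]
  have im : Z.image (fun r' => S.lf (S.eR k (S.rt (S.eL c r')))) = Z := by
    refine eq_of_subset_of_card_le (fun z hz => ?_) (card_image_of_injective _ ?_).ge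
    · obtain ⟨z, a, rfl⟩ := mem_image.1 hz
      obtain ⟨i, a⟩ := (mZ z).1 a
      exact (mZ _).2 ⟨_, one (S.eL c z) _ (S.rt_eR _ _).symm (by rwa [S.col_eL]) i
        (by rwa [S.lf_eL])⟩
    · intro z z' a
      have b := S.eq_of_lf a (by rw [S.col_eR, S.col_eR])
      have d := congrArg S.rt b
      rw [S.rt_eR, S.rt_eR] at d
      have f := congrArg S.lf (S.eq_of_rt d (by rw [S.col_eL, S.col_eL]))
      rwa [S.lf_eL, S.lf_eL] at f
  rw [mem_cmp] at h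
  induction h with
  | refl => exact ⟨0, Rch.refl 0⟩
  | tail _ h2 ih =>
    obtain ⟨e, e', rfl, rfl, h3⟩ := h2
    by_cases g : S.col e = k
    · obtain ⟨z, a, b⟩ := mem_image.1 (im ▸ (mZ _).2 ih)
      obtain ⟨i, a⟩ := (mZ z).1 a
      have d := congrArg S.rt (S.eq_of_lf b (by rw [S.col_eR, g]))
      rw [S.rt_eR] at d
      exact ⟨_, one (S.eL c z) e' (d.trans h3) (by rwa [S.col_eL]) i (by rwa [S.lf_eL])⟩
    · obtain ⟨i, a⟩ := ih
      exact ⟨_, one e e' h3 g i a⟩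

theorem vec3 {a b c : K} (ab : a ≠ b) (ac : a ≠ c) (bc : b ≠ c)
    (tri : ∀ k, k = a ∨ k = b ∨ k = c) (M : Finset E) :
    S.vec M a + S.vec M b + S.vec M c = M.card := by
  have := sum_vec (S := S) (A := {a, b, c}) (M := M) (fun e _ => by simpa using tri _)
  rw [sum_insert (by simp [ab, ac]), sum_insert (by simp [bc]), sum_singleton] at this
  omega

theorem Pm.card {D : Finset L} {M : Finset E} (h : S.Pm D M) : M.card = D.card := by
  rw [← card_image_of_injOn (f := S.lf) (fun e he f hf => h.1.l e he f hf)]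
  congr 1
  ext r
  simp only [mem_image]
  exact ⟨fun ⟨e, a, b⟩ => b ▸ h.2.1 e a, h.2.2 r⟩

theorem sep {C : Finset L} (hC : S.Cd C) {N M : Finset E} (hN : ∀ e ∈ N, S.lf e ∈ C)
    (hM : ∀ e ∈ M, S.lf e ∉ C) : ∀ e ∈ N, ∀ f ∈ M, S.lf e ≠ S.lf f ∧ S.rt e ≠ S.rt f :=
  fun e he f hf => ⟨fun h => hM f hf (h ▸ hN e he), fun h => hM f hf (hC e f h (hN e he))⟩

theorem Pm.union {C D : Finset L} (hC : S.Cd C) (hd : ∀ r ∈ D, r ∉ C) {N M : Finset E}
    (hN : S.Pm C N) (hM : S.Pm D M) :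
    S.Pm (C ∪ D) (N ∪ M) ∧ ∀ k, S.vec (N ∪ M) k = S.vec N k + S.vec M k := by
  have h := sep hC hN.2.1 (fun e he => hd _ (hM.2.1 e he))
  refine ⟨⟨hN.1.union hM.1 h, fun e he => mem_union.2 ((mem_union.1 he).imp (hN.2.1 e) (hM.2.1 e)),
    fun r hr => ?_⟩, fun k => by rw [vec_union (disj_of h)]; rfl⟩
  rcases mem_union.1 hr with a | a
  · obtain ⟨e, b, c⟩ := hN.2.2 r a
    exact ⟨e, mem_union_left _ b, c⟩
  · obtain ⟨e, b, c⟩ := hM.2.2 r a
    exact ⟨e, mem_union_right _ b, c⟩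

theorem vec_split (M : Finset E) (B : Finset L) (k : K) :
    S.vec (M.filter fun e => S.lf e ∈ B) k + S.vec (M.filter fun e => S.lf e ∉ B) k =
      S.vec M k := by
  have := vec_union (S := S) (disjoint_filter_filter_not M M fun e => S.lf e ∈ B)
  rw [filter_union_filter_not_eq] at this
  rw [this]; rfl

theorem Pm.on {D B : Finset L} {M : Finset E} (h : S.Pm D M) (hB : B ⊆ D) :
    S.Pm B (M.filter fun e => S.lf e ∈ B) :=
  ⟨h.1.mono (filter_subset _ _), fun _ he => (mem_filter.1 he).2, fun r hr => by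
    obtain ⟨e, a, b⟩ := h.2.2 r (hB hr)
    exact ⟨e, mem_filter.2 ⟨a, b ▸ hr⟩, b⟩⟩

theorem Pm.off {D B : Finset L} {M : Finset E} (h : S.Pm D M) :
    S.Pm (D \ B) (M.filter fun e => S.lf e ∉ B) :=
  ⟨h.1.mono (filter_subset _ _),
    fun e he => mem_sdiff.2 ⟨h.2.1 e (mem_filter.1 he).1, (mem_filter.1 he).2⟩, fun r hr => by
    obtain ⟨e, a, b⟩ := h.2.2 r (mem_sdiff.1 hr).1
    exact ⟨e, mem_filter.2 ⟨a, b ▸ (mem_sdiff.1 hr).2⟩, b⟩⟩

theorem pm_pure (B : Finset L) (c : K) : S.Pm B (B.image (S.eL c)) ∧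
    ∀ k, S.vec (B.image (S.eL c)) k = if k = c then (B.card : ℤ) else 0 := by
  have m : ∀ e ∈ B.image (S.eL c), S.col e = c ∧ S.lf e ∈ B := fun e he => by
    obtain ⟨r, a, rfl⟩ := mem_image.1 he
    exact ⟨S.col_eL _ _, by rwa [S.lf_eL]⟩
  have p : S.Pm B (B.image (S.eL c)) :=
    ⟨⟨fun e he f hf h => S.eq_of_lf h ((m e he).1.trans (m f hf).1.symm),
      fun e he f hf h => S.eq_of_rt h ((m e he).1.trans (m f hf).1.symm)⟩,
      fun e he => (m e he).2, fun r hr => ⟨_, mem_image_of_mem _ hr, S.lf_eL _ _⟩⟩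
  refine ⟨p, fun k => ?_⟩
  rw [vec_const fun e he => (m e he).1, p.card]
  by_cases h : k = c
  · simp [h, dl_self]
  · simp [h, dl_ne (Ne.symm h)]

theorem drisko3 {a b c : K} (ab : a ≠ b) (ac : a ≠ c) (bc : b ≠ c)
    (tri : ∀ k, k = a ∨ k = b ∨ k = c) {X : Finset L} (hX : S.Cd X) {T : K → ℤ} (hT : 0 ≤ T)
    (hs : 2 * (X.card : ℤ) ≤ T a + T b + T c + 1) : ∃ N, S.Pm X N ∧ S.vec N ≤ T := by
  have hC : S.Clo {a, b, c} X (univ.filter fun q => S.lf (S.eR a q) ∈ X) :=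
    ⟨fun k _ r hr => mem_filter.2 ⟨mem_univ _,
        hX (S.eL k r) _ (S.rt_eR _ _).symm (by rwa [S.lf_eL])⟩,
      fun k _ z hz => hX (S.eR a z) _ (by rw [S.rt_eR, S.rt_eR]) (mem_filter.1 hz).2⟩
  obtain ⟨N, h1, h2, h3⟩ := drisko hC hT (by
    rw [sum_insert (by simp [ab, ac]), sum_insert (by simp [bc]), sum_singleton]; omega)
  refine ⟨N, ⟨h1.1, fun e he => (h1.2 e he).2.1, fun r hr => ?_⟩, h3⟩
  have : N.image S.lf = X := eq_of_subset_of_card_le
    (fun r hr => by obtain ⟨e, a, rfl⟩ := mem_image.1 hr; exact (h1.2 e a).2.1)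
    (by rw [card_image_of_injOn (fun e he f hf => h1.1.l e he f hf), h2])
  exact mem_image.1 (this ▸ hr)

theorem frzA {a b c : K} (ab : a ≠ b) (ac : a ≠ c) (bc : b ≠ c)
    (tri : ∀ k, k = a ∨ k = b ∨ k = c) {m : ℕ} (hm : ∀ r, (S.cmp r).card ≤ m) :
    ∀ (n : ℕ) (D : Finset L), D.card = n → S.Cd D → ∀ T : K → ℤ, 0 ≤ T →
      (D.card : ℤ) + m ≤ T a + T b + T c + 1 → ∃ N, S.Pm D N ∧ S.vec N ≤ T := by
  intro n
  induction n using Nat.strong_induction_on with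
  | _ n ih =>
  intro D hn hD T hT hs
  rcases D.eq_empty_or_nonempty with rfl | ⟨r, hr⟩
  · exact ⟨∅, ⟨⟨by simp, by simp⟩, by simp, by simp⟩, by simpa [vec] using hT⟩
  have h1 := cmp_sub hD hr
  have h2 := card_le_card h1
  have h3 := hm r
  have h4 := card_pos.2 ⟨r, cmp_self (S := S) r⟩
  have h5 := card_sdiff_add_card_eq_card h1
  obtain ⟨N, p, v⟩ := drisko3 ab ac bc tri (cmp_cd (S := S) r) hT (by omega)
  have h6 := vec3 (S := S) ab ac bc tri N
  rw [p.card] at h6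
  obtain ⟨M, p', v'⟩ := ih _ (by omega) (D \ S.cmp r) rfl (hD.sdiff (cmp_cd r)) (T - S.vec N)
    (sub_nonneg.2 v) (by simp only [Pi.sub_apply]; omega)
  obtain ⟨q, w⟩ := Pm.union (cmp_cd r) (fun _ h => (mem_sdiff.1 h).2) p p'
  rw [union_sdiff_of_subset h1] at q
  refine ⟨_, q, fun k => ?_⟩
  have := v' k
  simp only [Pi.sub_apply] at this
  show S.vec (N ∪ M) k ≤ T k
  rw [w]; omega

theorem glue0 {C : Finset L} {M N : Finset E} (hC : S.Cd C) (hM : S.IsM M)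
    (hM' : ∀ e ∈ M, S.lf e ∉ C) (hx : x ∈ C) (hy : ∀ e, S.rt e = y → S.lf e ∈ C)
    (a : S.Av x y N) (hN : ∀ e ∈ N, S.lf e ∈ C) :
    S.Av x y (N ∪ M) ∧ ∀ k, S.vec (N ∪ M) k = S.vec N k + S.vec M k := by
  have h := sep hC hN hM'
  exact ⟨a.union ⟨hM, fun e he => ⟨fun h => hM' e he (h ▸ hx), fun h => hM' e he (hy e h)⟩⟩ h,
    fun k => by rw [vec_union (disj_of h)]; rfl⟩

theorem glueF {A B : Finset L} {M N : Finset E} {T : K → ℕ} (cA : S.Cd A) (cB : S.Cd B)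
    (pm : S.Pm Aᶜ M) (hx : x ∈ A ∪ B) (hy : ∀ e, S.rt e = y → S.lf e ∈ A ∪ B) (a : S.Av x y N)
    (hN : ∀ e ∈ N, S.lf e ∈ A ∪ B)
    (hv : ∀ k, S.vec N k + S.vec M k = T k + S.vec (M.filter fun e => S.lf e ∈ B) k) :
    S.Rl x y T := by
  obtain ⟨h1, h2⟩ := glue0 (M := M.filter fun e => S.lf e ∉ B) (cA.union cB)
    (pm.1.mono (filter_subset _ _)) (fun e he h => (mem_union.1 h).elim
      (mem_compl.1 (pm.2.1 e (mem_filter.1 he).1)) (mem_filter.1 he).2) hx hy a hN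
  refine ⟨_, h1, fun k => ?_⟩
  have := vec_split (S := S) M B k
  have := hv k
  rw [h2]; omega

open Classical in
/-- rows in components of one colour. -/
noncomputable def Pu (S : Sys E L R K) (M : Finset E) : Finset L :=
  univ.filter fun r => ∃ c, ∀ r' ∈ S.cmp r, S.eL c r' ∈ M

theorem mem_Pu {M : Finset E} {r : L} : r ∈ S.Pu M ↔ ∃ c, ∀ r' ∈ S.cmp r, S.eL c r' ∈ M := by
  simp [Pu]

theorem recol {D : Finset L} {M : Finset E} (hD : S.Cd D) (pm : S.Pm D M) {z : L} (hz : z ∈ D)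
    (c : K) : ∃ M', S.Pm D M' ∧ S.Pu M ⊆ S.Pu M' ∧ z ∈ S.Pu M' ∧ ∀ k, S.vec M' k +
      S.vec (M.filter fun e => S.lf e ∈ S.cmp z) k =
        S.vec M k + if k = c then ((S.cmp z).card : ℤ) else 0 := by
  obtain ⟨p, v⟩ := pm_pure (S := S) (S.cmp z) c
  obtain ⟨q, w⟩ := Pm.union (cmp_cd z) (fun _ h => (mem_sdiff.1 h).2) p (pm.off (B := S.cmp z))
  rw [union_sdiff_of_subset (cmp_sub hD hz)] at q
  have k1 : ∀ r ∈ S.cmp z, r ∈ S.Pu ((S.cmp z).image (S.eL c) ∪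
      M.filter fun e => S.lf e ∉ S.cmp z) := fun r hr =>
    mem_Pu.2 ⟨c, fun r' h => mem_union_left _ (mem_image_of_mem _ (cmp_eq hr ▸ h))⟩
  refine ⟨_, q, fun r hr => ?_, k1 z (cmp_self z), fun k => ?_⟩
  · by_cases h : r ∈ S.cmp z
    · exact k1 r h
    · obtain ⟨d, hd⟩ := mem_Pu.1 hr
      refine mem_Pu.2 ⟨d, fun r' h' => mem_union_right _ (mem_filter.2 ⟨hd r' h', ?_⟩)⟩
      rw [S.lf_eL]
      exact fun g => h (cmp_eq g ▸ cmp_eq h' ▸ cmp_self r)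
  · have := vec_split (S := S) M (S.cmp z) k
    rw [w, v]; omega

theorem normal {a b c : K} (ab : a ≠ b) (ac : a ≠ c) (bc : b ≠ c)
    (tri : ∀ k, k = a ∨ k = b ∨ k = c) (τ : L → R) {T : K → ℕ}
    (hL : T a + T b + T c + 2 = Fintype.card L)
    (con4 : ∀ A : Finset L, S.Cd A → A.Nonempty → A ≠ univ →
      ∃ x ∈ A, ∀ e, S.rt e = τ x → S.lf e ∉ A)
    (star : ∀ (x : L) (e : E) (γ : K → ℤ), S.lf e ∉ S.cmp x → 0 ≤ γ →
      (∀ k, γ k + 1 ≤ (S.cmp x).card ∧ γ k + 1 ≤ (S.cmp (S.lf e)).card) →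
      γ a + γ b + γ c + 2 = (S.cmp x).card + (S.cmp (S.lf e)).card →
      ∃ N, S.Av x (S.rt e) N ∧ (∀ f ∈ N, S.lf f ∈ S.cmp x ∪ S.cmp (S.lf e)) ∧ S.vec N = γ)
    (no : ∀ x, ¬ S.Rl x (τ x) T) : ∃ s u t A M β, S.Nf τ T s u t A M β := by
  obtain ⟨x0, -, big⟩ := exists_max_image (univ : Finset L) (fun r => (S.cmp r).card)
    (univ_nonempty_iff.2 (Fintype.card_pos_iff.1 (by omega)))
  have cA := cmp_cd (S := S) x0
  have eA : ∀ x ∈ S.cmp x0, S.cmp x = S.cmp x0 := fun x => cmp_eq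
  have nA : (S.cmp x0).Nonempty := ⟨x0, cmp_self x0⟩
  replace big : ∀ r, (S.cmp r).card ≤ (S.cmp x0).card := fun r => big r (mem_univ _)
  generalize S.cmp x0 = A at *
  have cc := card_add_card_compl A
  have sub : ∀ e, S.lf e ∉ A → S.cmp (S.lf e) ⊆ Aᶜ := fun e h => cmp_sub cA.compl (mem_compl.2 h)
  have win : ∀ x ∈ A, ∀ e, S.rt e = τ x → S.lf e ∉ A → ∀ M, S.Pm (Aᶜ \ S.cmp (S.lf e)) M →
      (∀ k, S.vec M k ≤ T k) → ∃ c, ((S.cmp (S.lf e)).card : ℤ) + S.vec M c ≤ T c := by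
    intro x hx e he h M pm v
    by_contra hc
    push Not at hc
    have h1 := vec3 (S := S) ab ac bc tri M
    have h2 := card_sdiff_add_card_eq_card (sub e h)
    have h3 := big (S.lf e)
    rw [pm.card] at h1
    obtain ⟨N, n1, n2, n3⟩ := star x e (fun k => T k - S.vec M k) (eA x hx ▸ h)
      (fun k => sub_nonneg.2 (v k)) (fun k => by
        have := hc k
        rw [eA x hx]; constructor <;> omega) (by rw [eA x hx]; omega)
    rw [eA x hx] at n2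
    rw [he] at n1
    obtain ⟨g1, g2⟩ := glue0 (cA.union (cmp_cd (S.lf e))) pm.1 (fun f hf g => by
      have := mem_sdiff.1 (pm.2.1 f hf)
      exact (mem_union.1 g).elim (mem_compl.1 this.1) this.2) (mem_union_left _ hx)
      (fun f hf => mem_union_right _ (cmp_cd _ e f (he.trans hf.symm) (cmp_self _))) n1 n2
    exact no x ⟨_, g1, fun k => by rw [g2, n3]; simp⟩
  have ex : ∃ M, S.Pm Aᶜ M ∧ ∀ k, S.vec M k ≤ T k := by
    by_cases hA : A = univ
    · exact ⟨∅, ⟨⟨by simp, by simp⟩, by simp, by simp [hA]⟩, by simp [vec]⟩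
    obtain ⟨x, hx, h⟩ := con4 A cA nA hA
    have he := S.rt_eR a (τ x)
    have h1 := h _ he
    generalize S.eR a (τ x) = e at he h1
    have h2 := card_sdiff_add_card_eq_card (sub e h1)
    have h4 := card_pos.2 ⟨_, cmp_self (S := S) (S.lf e)⟩
    obtain ⟨M, pm, v⟩ := frzA ab ac bc tri big _ _ rfl (cA.compl.sdiff (cmp_cd (S.lf e)))
      (fun k => (T k : ℤ)) (fun k => by simp) (by omega)
    obtain ⟨d, hd⟩ := win x hx e he h1 M pm v
    obtain ⟨p, v'⟩ := pm_pure (S := S) (S.cmp (S.lf e)) d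
    obtain ⟨q, w⟩ := Pm.union (cmp_cd _) (fun _ h => (mem_sdiff.1 h).2) p pm
    rw [union_sdiff_of_subset (sub e h1)] at q
    refine ⟨_, q, fun k => ?_⟩
    have : S.vec M k ≤ T k := v k
    rw [w, v']
    split_ifs with g
    · subst g; omega
    · omega
  obtain ⟨M0, f0, m0⟩ := (InvImage.wf (fun M => Fintype.card L - (S.Pu M).card)
    Nat.lt_wfRel.wf).has_min {M | S.Pm Aᶜ M ∧ ∀ k, S.vec M k ≤ T k} ex
  obtain ⟨⟨M, t⟩, ⟨⟨pm, v⟩, f1⟩, m1⟩ := (InvImage.wf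
    (fun p : Finset E × K => ((T p.2 : ℤ) - S.vec p.1 p.2).toNat) Nat.lt_wfRel.wf).has_min
    {p | (S.Pm Aᶜ p.1 ∧ ∀ k, S.vec p.1 k ≤ T k) ∧ (S.Pu M0).card ≤ (S.Pu p.1).card}
    ⟨(M0, a), f0, le_rfl⟩
  simp only at pm v f1
  replace m0 : ∀ M', S.Pm Aᶜ M' → (∀ k, S.vec M' k ≤ T k) → (S.Pu M').card ≤ (S.Pu M0).card := by
    intro M' a1 a2
    have a3 : ¬ Fintype.card L - (S.Pu M').card < Fintype.card L - (S.Pu M0).card :=
      m0 M' ⟨a1, a2⟩
    have := card_le_univ (S.Pu M')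
    omega
  replace m1 : ∀ M' k, S.Pm Aᶜ M' → (∀ k, S.vec M' k ≤ T k) → S.Pu M ⊆ S.Pu M' →
      (T t : ℤ) - S.vec M t ≤ T k - S.vec M' k := by
    intro M' k a1 a2 a3
    have a4 : ¬ ((T k : ℤ) - S.vec M' k).toNat < ((T t : ℤ) - S.vec M t).toNat :=
      m1 (M', k) ⟨⟨a1, a2⟩, f1.trans (card_le_card a3)⟩
    have := a2 k
    omega
  obtain ⟨β, hβ⟩ : ∃ β : K → ℕ, ∀ k, S.vec M k + β k = T k :=
    ⟨fun k => ((T k : ℤ) - S.vec M k).toNat, fun k => by have := v k; simp only; omega⟩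
  obtain ⟨s, u, su, st, ut, tr, e3, us⟩ : ∃ s u, s ≠ u ∧ s ≠ t ∧ u ≠ t ∧
      (∀ k, k = s ∨ k = u ∨ k = t) ∧ T s + T u + T t = T a + T b + T c ∧ β u ≤ β s := by
    have sw : ∀ s u, s ≠ u → s ≠ t → u ≠ t → (∀ k, k = s ∨ k = u ∨ k = t) →
        T s + T u + T t = T a + T b + T c → ∃ s u, s ≠ u ∧ s ≠ t ∧ u ≠ t ∧
        (∀ k, k = s ∨ k = u ∨ k = t) ∧ T s + T u + T t = T a + T b + T c ∧ β u ≤ β s := by
      intro s u h1 h2 h3 h4 h5
      rcases le_total (β u) (β s) with h | h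
      · exact ⟨s, u, h1, h2, h3, h4, h5, h⟩
      · exact ⟨u, s, h1.symm, h3, h2, fun k => by have := h4 k; tauto, by omega, h⟩
    rcases tri t with rfl | rfl | rfl
    · exact sw b c bc ab.symm ac.symm (fun k => by have := tri k; tauto) (by omega)
    · exact sw a c ac ab bc.symm (fun k => by have := tri k; tauto) (by omega)
    · exact sw a b ab ac bc tri rfl
  have s1 := vec3 (S := S) su st ut tr M
  rw [pm.card] at s1
  have b1 := hβ s
  have b2 := hβ u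
  have b3 := hβ t
  have b4 := m1 M u pm v Subset.rfl
  refine ⟨s, u, t, A, M, β, su, st, ut, tr, eA, nA, big, pm, hβ, by omega, by omega, us,
    fun x hx e he => ?_⟩
  by_cases h : S.lf e ∈ A
  · exact Or.inl h
  right
  have rc : ∀ d, ((S.cmp (S.lf e)).card : ℤ) +
      S.vec (M.filter fun f => S.lf f ∉ S.cmp (S.lf e)) d ≤ T d → ∃ M', S.Pm Aᶜ M' ∧
      (∀ k, S.vec M' k ≤ T k) ∧ S.Pu M ⊆ S.Pu M' ∧ S.lf e ∈ S.Pu M' ∧ S.vec M' d =
        (S.cmp (S.lf e)).card + S.vec (M.filter fun f => S.lf f ∉ S.cmp (S.lf e)) d := by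
    intro d hd
    obtain ⟨M', r1, r2, r3, r4⟩ := recol cA.compl pm (mem_compl.2 h) d
    refine ⟨M', r1, fun k => ?_, r2, r3, ?_⟩
    · have a1 := r4 k
      have a2 := vec_split (S := S) M (S.cmp (S.lf e)) k
      have a3 := S.vec_nonneg (M.filter fun f => S.lf f ∈ S.cmp (S.lf e)) k
      have a4 := v k
      split_ifs at a1 with g
      · subst g; omega
      · omega
    · have a1 := r4 d
      have a2 := vec_split (S := S) M (S.cmp (S.lf e)) d
      rw [if_pos rfl] at a1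
      omega
  have pu : S.lf e ∈ S.Pu M := by
    obtain ⟨d, hd⟩ := win x hx e he h _ pm.off (fun k => by
      have a2 := vec_split (S := S) M (S.cmp (S.lf e)) k
      have a3 := S.vec_nonneg (M.filter fun f => S.lf f ∈ S.cmp (S.lf e)) k
      have a4 := v k
      omega)
    obtain ⟨M', r1, r2, r3, r4, -⟩ := rc d hd
    have := m0 M' r1 r2
    rwa [eq_of_subset_of_card_le r3 (by omega)]
  obtain ⟨d, hd⟩ := mem_Pu.1 pu
  refine ⟨d, hd, ?_⟩
  by_contra g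
  push Not at g
  have z : S.vec (M.filter fun f => S.lf f ∈ S.cmp (S.lf e)) t = 0 := vec_zero fun f hf => by
    obtain ⟨a1, a2⟩ := mem_filter.1 hf
    rw [pm.1.l f a1 _ (hd _ a2) (S.lf_eL _ _).symm, S.col_eL]
    exact g.1
  have a2 := vec_split (S := S) M (S.cmp (S.lf e)) t
  have a3 := g.2
  obtain ⟨M', r1, r2, r3, -, r5⟩ := rc t (by omega)
  have a4 := m1 M' t r1 r2 r3
  have h4 := card_pos.2 ⟨_, cmp_self (S := S) (S.lf e)⟩
  omega

end Sys

end Pool.Agent.Lib.MP_cc2426_co
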