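import Pool.Agent.Lib.MP_cc2426_co.Fail

/-! The choice of the deleted pair. -/

set_option autoImplicit false
set_option linter.unusedSectionVars false

namespace Pool.Agent.Lib.MP_cc2426_co

open Finset

variable {E L R K : Type*} [DecidableEq E] [DecidableEq L] [DecidableEq R] [DecidableEq K]
  [Fintype L] [Fintype R]

namespace Sys

variable {S : Sys E L R K} {s u t : K} {x : L} {y : R}

theorem few (tri : ∀ k, k = s ∨ k = u ∨ k = t) (hsu : s ≠ u) (hs : s ≠ t) (hu : u ≠ t)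
    (sim : ∀ e e', S.lf e = S.lf e' → S.rt e = S.rt e' → e = e')
    (con : ∀ k q0 q, ∃ i, S.Rch k q0 i q) (con' : ∀ k r0 r, ∃ i, S.swap.Rch k r0 i r) {T : K → ℕ}
    (hL : T s + T u + T t + 2 = Fintype.card L) (p : L ≃ R)
    (na : ∀ e, S.rt e ≠ p (S.lf e)) (no : ∀ x, ¬ S.Rl x (p x) T) {U : Finset L} (hU : U.Nonempty)
    (h : ∀ x ∈ U, ¬ S.RchL t (p x) (T t) x ∧ S.Adm x (p x) t (T t) s u (T u) ∧
      S.Adm x (p x) t (T t) u s (T s)) :
    U.card + 2 + 2 * T t ≤ Fintype.card L ∧ U.card ≤ 2 * T u + 1 := by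
  classical
  have hn : Fintype.card L = Fintype.card R := Fintype.card_congr p
  obtain ⟨x0, m, mx⟩ := exists_max_image U (fun x => S.gap (p x) t (T t)) hU
  obtain ⟨f1, f2⟩ := fail tri hsu hs hu sim (fun k q => con k (p x0) q) hL (hn ▸ hL)
    (fun e he => by rw [← he]; exact na e) (h x0 m).1 (h x0 m).2.1 (h x0 m).2.2 (no x0)
  have miss : ∀ x ∈ U, p x ∉ S.swap.ball t (S.long x0 (p x0) t (T t)) (T t) := by
    intro x hx hb
    obtain ⟨r, a, b⟩ := mem_ball.1 hb
    have c1 := le_gap (dual' b)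
    have c2 := (mem_filter.1 a).2.2
    have c3 := mx x hx
    omega
  have g := grow (S := S.swap) hs hu hsu (fun e e' a b => sim e e' b a) (con' t)
    (Z := S.long x0 (p x0) t (T t)) (card_pos.1 (by omega)) (i := T t)
    (fun e => miss x0 m (e ▸ mem_univ _))
  have dj : Disjoint (S.swap.ball t (S.long x0 (p x0) t (T t)) (T t)) (U.image p) := by
    rw [disjoint_right]
    intro q hq
    obtain ⟨x, hx, rfl⟩ := mem_image.1 hq
    exact miss x hx
  have c := card_le_univ (S.swap.ball t (S.long x0 (p x0) t (T t)) (T t) ∪ U.image p)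
  rw [card_union_of_disjoint dj, card_image_of_injective _ p.injective] at c
  omega

theorem many (hs : s ≠ t) (con : ∀ q, ∃ i, S.Rch t y i q) {τ : ℕ} (hx : ¬ S.RchL t y τ x)
    {P : Finset E} (hP : S.Av x y P) (hL : P.card + 1 = Fintype.card L)
    (hR : P.card + 1 = Fintype.card R) : (τ : ℤ) < S.vec P t := by
  have c : ∀ r, S.col (S.eL s r) ≠ t := fun r => by rwa [S.col_eL]
  have h := (tight (s := s) (t := t) hP hL hR (fun r => (S.lev t y (S.rt (S.eL s r)) : ℤ))
    (fun q => (S.lev t y q : ℤ)) (fun _ => rfl) (fun e => by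
      split_ifs with he
      · exact_mod_cast lev_arc con (c (S.lf e)) (S.lf_eL _ _).symm
      · rw [lev_flat con (c (S.lf e)) he (S.lf_eL _ _).symm, add_zero])).1
  have h0 : S.lev t y y ≤ 0 := lev_le (Rch.refl 0)
  have h1 : ¬ S.lev t y (S.rt (S.eL s x)) ≤ τ := fun hh =>
    hx ⟨_, S.lf_eL _ _, c x, (rch_iff con).2 hh⟩
  omega

theorem others (tri : ∀ k, k = s ∨ k = u ∨ k = t) (hsu : s ≠ u) (hs : s ≠ t) (hu : u ≠ t)
    {d r : K} (h : r ≠ d) : ∃ c, c ≠ d ∧ c ≠ r ∧ ∀ k, k = c ∨ k = r ∨ k = d := by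
  rcases tri d with rfl | rfl | rfl <;> rcases tri r with rfl | rfl | rfl
  · exact absurd rfl h
  · exact ⟨t, hs.symm, hu.symm, fun k => by have := tri k; tauto⟩
  · exact ⟨u, hsu.symm, hu, fun k => by have := tri k; tauto⟩
  · exact ⟨t, hu.symm, hs.symm, fun k => by have := tri k; tauto⟩
  · exact absurd rfl h
  · exact ⟨s, hsu, hs, fun k => by have := tri k; tauto⟩
  · exact ⟨u, hu, hsu.symm, fun k => by have := tri k; tauto⟩
  · exact ⟨s, hs, hsu, fun k => by have := tri k; tauto⟩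
  · exact absurd rfl h

theorem pick (tri : ∀ k, k = s ∨ k = u ∨ k = t) (hsu : s ≠ u) (hs : s ≠ t) (hu : u ≠ t)
    (sim : ∀ e e', S.lf e = S.lf e' → S.rt e = S.rt e' → e = e')
    (con : ∀ k q0 q, ∃ i, S.Rch k q0 i q) (con' : ∀ k r0 r, ∃ i, S.swap.Rch k r0 i r) {T : K → ℕ}
    (hL : T s + T u + T t + 2 = Fintype.card L) (p : L ≃ R) (na : ∀ e, S.rt e ≠ p (S.lf e)) :
    ∃ x, S.Rl x (p x) T ∨
      ∀ k, ∃ P, S.Av x (p x) P ∧ P.card + 1 = Fintype.card R ∧ S.vec P k ≤ T k := by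
  classical
  have hn : Fintype.card L = Fintype.card R := Fintype.card_congr p
  by_contra hno
  have no : ∀ x, ¬ S.Rl x (p x) T := fun x h => hno ⟨x, Or.inl h⟩
  have hub : ∀ x k j, S.RchL k (p x) j x →
      ∃ P, S.Av x (p x) P ∧ P.card + 1 = Fintype.card R ∧ S.vec P k ≤ (j : ℕ) := by
    intro x k j h
    obtain ⟨r, hr⟩ : ∃ r, r ≠ k := by
      by_cases e : s = k
      · exact ⟨u, e ▸ hsu.symm⟩
      · exact ⟨s, e⟩
    obtain ⟨c, c1, -, c3⟩ := others tri hsu hs hu hr
    exact minhub c3 c1 hr h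
  set U : K → Finset L := fun k => univ.filter (fun x => ¬ S.RchL k (p x) (T k) x ∧
    ∀ a b, a ≠ k → b ≠ k → a ≠ b → S.Adm x (p x) k (T k) a b (T b)) with hU
  have cov : ∀ x, ∃ k, x ∈ U k := by
    intro x
    obtain ⟨d, hd⟩ : ∃ d, ¬ S.RchL d (p x) (T d) x := by
      by_contra hh
      push Not at hh
      exact hno ⟨x, Or.inr fun k => hub x k _ (hh k)⟩
    obtain ⟨j, hj⟩ := con t (p x) (S.rt (S.eL s x))
    obtain ⟨P, p1, p2, -⟩ := hub x t j ⟨_, S.lf_eL _ _, by rwa [S.col_eL], hj⟩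
    obtain ⟨r, hr⟩ : ∃ r, S.RchL r (p x) (T r) x := by
      by_contra hh
      push Not at hh
      have a1 := many hs (con t _) (hh t) p1 (hn ▸ p2) p2
      have a2 := many hs.symm (con s _) (hh s) p1 (hn ▸ p2) p2
      have a3 := many hsu (con u _) (hh u) p1 (hn ▸ p2) p2
      have a4 := sum_vec (S := S) (A := {s, u, t}) (M := P) (fun e _ => by
        simpa using tri (S.col e))
      rw [sum_insert (by simp [hsu, hs]), sum_insert (by simp [hu]), sum_singleton] at a4
      omega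
    have A : ∀ k c o, ¬ S.RchL k (p x) (T k) x → S.RchL o (p x) (T o) x → c ≠ k → o ≠ c →
        S.Adm x (p x) k (T k) c o (T o) := by
      intro k c o a1 a2 a3 a4
      obtain ⟨Q, q1, q2, q3⟩ := hub x o _ a2
      exact (admA a3 a4 a1 hn q1 q2).mono q3
    have rd : r ≠ d := fun e => hd (e ▸ hr)
    obtain ⟨c, c1, c2, c3⟩ := others tri hsu hs hu rd
    have fin : ∀ k o, ¬ S.RchL k (p x) (T k) x → (∀ j, j = o ∨ j = r ∨ j = k) → o ≠ k → o ≠ r →
        S.Adm x (p x) k (T k) r o (T o) → x ∈ U k := by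
      intro k o a1 a2 a3 a4 a5
      refine mem_filter.2 ⟨mem_univ _, a1, fun a b h1 h2 h3 => ?_⟩
      rcases a2 a with rfl | rfl | rfl
      · rcases a2 b with rfl | rfl | rfl
        · exact absurd rfl h3
        · exact A _ _ _ a1 hr h1 h3.symm
        · exact absurd rfl h2
      · rcases a2 b with rfl | rfl | rfl
        · exact a5
        · exact absurd rfl h3
        · exact absurd rfl h2
      · exact absurd rfl h1
    by_cases hc : S.RchL c (p x) (T c) x
    · exact ⟨d, fin d c hd c3 c1 c2 (A _ _ _ hd hc rd c2)⟩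
    · rcases admS rd c2.symm hn hd hc p1 p2 with a | a
      · exact ⟨d, fin d c hd c3 c1 c2 a⟩
      · exact ⟨c, fin c d hc (fun j => by have := c3 j; tauto) c1.symm rd.symm a⟩
  have F : ∀ a b k, (∀ j, j = a ∨ j = b ∨ j = k) → a ≠ b → a ≠ k → b ≠ k →
      T a + T b + T k + 2 = Fintype.card L → (U k).card = 0 ∨
        ((U k).card + 2 + 2 * T k ≤ Fintype.card L ∧ (U k).card ≤ 2 * T b + 1 ∧
          (U k).card ≤ 2 * T a + 1) := by
    intro a b k h1 h2 h3 h4 h5
    rcases (U k).eq_empty_or_nonempty with e | e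
    · exact Or.inl (by rw [e, card_empty])
    · have f1 := few h1 h2 h3 h4 sim con con' h5 p na no e (fun x hx =>
        ⟨(mem_filter.1 hx).2.1, (mem_filter.1 hx).2.2 _ _ h3 h4 h2,
          (mem_filter.1 hx).2.2 _ _ h4 h3 h2.symm⟩)
      have f2 := few (s := b) (u := a) (fun j => by have := h1 j; tauto) h2.symm h4 h3 sim con
        con' (by omega) p na no e (fun x hx =>
        ⟨(mem_filter.1 hx).2.1, (mem_filter.1 hx).2.2 _ _ h4 h3 h2.symm,
          (mem_filter.1 hx).2.2 _ _ h3 h4 h2⟩)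
      exact Or.inr ⟨f1.1, f1.2, f2.2⟩
  have F1 := F s u t tri hsu hs hu hL
  have F2 := F u t s (fun j => by have := tri j; tauto) hu hsu.symm hs.symm (by omega)
  have F3 := F t s u (fun j => by have := tri j; tauto) hs.symm hu.symm hsu (by omega)
  have sub : (univ : Finset L) ⊆ U s ∪ U u ∪ U t := by
    intro x _
    obtain ⟨k, hk⟩ := cov x
    rcases tri k with rfl | rfl | rfl
    · exact mem_union_left _ (mem_union_left _ hk)
    · exact mem_union_left _ (mem_union_right _ hk)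
    · exact mem_union_right _ hk
  have c1 := card_le_card sub
  have c2 := card_union_le (U s ∪ U u) (U t)
  have c3 := card_union_le (U s) (U u)
  rw [card_univ] at c1
  omega

end Sys

end Pool.Agent.Lib.MP_cc2426_co
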