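import Pool.Agent.Lib.MP_cc2426_co.Ball
import Pool.Agent.Lib.MP_cc2426_co.Exit
import Pool.Agent.Lib.MP_cc2426_co.Pick

/-! The deleted row and the deleted column lie in one component. -/

set_option autoImplicit false
set_option linter.unusedSectionVars false
set_option linter.unusedVariables false

namespace Pool.Agent.Lib.MP_cc2426_co

open Finset

variable {E L R K : Type*} [DecidableEq E] [DecidableEq L] [DecidableEq R] [DecidableEq K]
  [Fintype L] [Fintype R]

namespace Sys

variable {S : Sys E L R K} {s u t : K} {x : L} {y : R}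

theorem inside (tri : ∀ k, k = s ∨ k = u ∨ k = t) (hsu : s ≠ u) (hs : s ≠ t) (hu : u ≠ t)
    (sim : ∀ e e', S.lf e = S.lf e' → S.rt e = S.rt e' → e = e')
    (con : ∀ k q0 q, ∃ i, S.Rch k q0 i q) (con2 : ∀ k r0 r, ∃ i, S.swap.Rch k r0 i r) {T : K → ℕ}
    (hL : T s + T u + T t + 2 = Fintype.card L) (hR : T s + T u + T t + 2 = Fintype.card R)
    (tu : T t ≤ T u) (us : T u ≤ T s) (na : ∀ e, S.lf e = x → S.rt e ≠ y)
    (g1 : S.Good univ t (T t) (T s - T t / 2) x) (g2 : S.Good univ u (T u) (T s - T u / 2) x)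
    (g3 : S.Good univ s (T s) (T u - T s / 2) x) : S.Rl x y T := by
  have gc : ∀ {c d : K} {β X : ℕ}, c ≠ d → S.Good univ d β X x → S.swap.GoodC x d β X := by
    rintro c d β X h ⟨z, -, z1, G, -, -, a, b⟩
    exact goodC h z1 a (fun r hr => b r (mem_univ _) hr)
  refine insideR tri hsu hs hu con2 hL na tu us (fun d hd o ho M hM n b => ?_) (gc hs g1)
    (gc hsu g2) (gc hsu.symm g3)
  obtain ⟨c, c1, c2, c3⟩ := others tri hsu hs hu ho
  exact exit (S := S.swap) c3 c2 c1 ho (fun e e' a b => sim e e' b a) (con2 d x)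
    (hR.symm.trans hL) (fun e a b => na e b a) hd hM ho b

end Sys

end Pool.Agent.Lib.MP_cc2426_co
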