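import Pool.Agent.Lib.MP_cc2426_co.Good

/-! The deleted column lies in a component of one colour. -/

set_option autoImplicit false
set_option linter.unusedSectionVars false

namespace Pool.Agent.Lib.MP_cc2426_co

open Finset

variable {E L R K : Type*} [DecidableEq E] [DecidableEq L] [DecidableEq R] [DecidableEq K]
  [Fintype L] [Fintype R]

namespace Sys

variable {S : Sys E L R K} {s u t : K} {x : L} {y : R}

open Classical in
theorem crossWin2 (tri : ∀ k, k = s ∨ k = u ∨ k = t) (hsu : s ≠ u) (hs : s ≠ t) (hu : u ≠ t)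
    (sim : ∀ e e', S.lf e = S.lf e' → S.rt e = S.rt e' → e = e') {T : K → ℕ}
    (hL : T s + T u + T t + 2 = Fintype.card L) (hR : T s + T u + T t + 2 = Fintype.card R)
    {sL : L → Prop} {sR : R → Prop} (side : ∀ e, sL (S.lf e) ↔ sR (S.rt e)) (hx : sL x)
    (hy : ¬ sR y) (conX : ∀ k r, sL r → ∃ i, S.swap.Rch k x i r)
    (bigX : T t < (univ.filter sL).card) (bigY : ∀ k, ∃ j, T t < (S.ball k {y} j).card)
    {G G' : Finset L} (clG : ∀ r ∈ G, ∀ r', S.swap.Rch t r 0 r' → r' ∈ G)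
    (clG' : ∀ r ∈ G', ∀ r', S.swap.Rch t r 0 r' → r' ∈ G') (dG : Disjoint G G')
    (hG : G.card + T t / 2 ≤ T s) (hG' : G'.card + T t ≤ T u)
    (short : ∀ r, r ∉ S.near x y t (T t) → r ∉ G → r ∉ G' → (S.swap.cy t r).card ≤
      (univ.filter (fun r => S.swap.Rch t x (T t) r)).card) : S.Rl x y T := by
  have hn := hL.symm.trans hR
  have nx : ∀ k i, ¬ S.RchL k y i x := fun k i h => hy ((h.side side).1 hx)
  have na : ∀ e, S.lf e = x → S.rt e ≠ y := fun e a b => hy (b ▸ (side e).1 (a ▸ hx))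
  have tri' : ∀ k, k = s ∨ k = t ∨ k = u := fun k => by have := tri k; tauto
  have tri2 : ∀ k, k = u ∨ k = s ∨ k = t := fun k => by have := tri k; tauto
  have sx : ∀ k i r r', S.swap.Rch k r i r' → (sL r' ↔ sL r) := fun k i r r' h =>
    Rch.side (S := S.swap) (sL := sR) (sR := sL) (fun e => (side e).symm) h
  set τ := T t with hτ
  set Y := S.ball t {y} τ with hY
  set W := univ.filter (fun r => S.swap.Rch t x τ r) with hW
  have mW : ∀ r, r ∈ W ↔ S.swap.Rch t x τ r := fun r => by simp [hW]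
  have oY : ∀ r ∈ Y, ¬ sL r := fun r hr h => hy (((mem_ball1.1 hr).side side).1 h)
  have oW : ∀ r ∈ W, sL r := fun r hr => (sx _ _ _ _ ((mW r).1 hr)).2 hx
  have dYW : Disjoint Y W := disjoint_left.2 (fun r a b => oY r a (oW r b))
  have nr : S.near x y t τ = Y ∪ W := by
    ext r; rw [mem_near, mem_union, mW, hY, mem_ball1]
  have clY : ∀ r ∈ Y, ∀ r', S.swap.Rch t r 0 r' → r' ∈ Y := fun r hr r' h =>
    mem_ball1.2 ((mem_ball1.1 hr).cy h)
  have clW : ∀ r ∈ W, ∀ r', S.swap.Rch t r 0 r' → r' ∈ W := fun r hr r' h =>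
    (mW r').2 (((mW r).1 hr).trans h)
  have clU : ∀ A B : Finset L, (∀ r ∈ A, ∀ r', S.swap.Rch t r 0 r' → r' ∈ A) →
      (∀ r ∈ B, ∀ r', S.swap.Rch t r 0 r' → r' ∈ B) →
      ∀ r ∈ A ∪ B, ∀ r', S.swap.Rch t r 0 r' → r' ∈ A ∪ B := fun A B a b r hr r' h =>
    (mem_union.1 hr).elim (fun c => mem_union_left _ (a r c r' h))
      (fun c => mem_union_right _ (b r c r' h))
  let F : Finset L → Finset E := fun Z => (S.cut x y (S.colr s u Z)).filter (fun e => S.lf e ∉ Y)
  let Tot : Finset E → Prop := fun X => (∀ e ∈ X, S.Ny y t τ e) ∧ S.vec X t = τ ∧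
    ∀ Z : Finset L, (∀ r ∈ Z, ∀ r', S.swap.Rch t r 0 r' → r' ∈ Z) → Disjoint Y Z →
      S.Low x y t τ (S.cut x y (S.colr s u Z)) (X ∪ F Z) ∧
        ∀ k, S.vec (X ∪ F Z) k = S.vec X k + S.vec (F Z) k
  have q0 : ∀ c, c ≠ t → S.vec (S.base x y c Y) t ≤ τ ∧
      ∀ e ∈ S.base x y c Y, S.Ny y t τ e := fun c hc =>
    ⟨by rw [vec_zero (fun e he => (mem_base.1 he).1 ▸ hc)]; omega, fun e he =>
      ⟨mem_ball1.1 (mem_base.1 he).2.1,
        (mem_ball1.1 (mem_base.1 he).2.1).flat ((mem_base.1 he).1 ▸ hc)⟩⟩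
  obtain ⟨X1, x1, x2, x3⟩ := cost tri hsu hs hu sim hn side hx hy (bigY u)
  obtain ⟨X2, y1, y2, y3⟩ := cost tri2 hsu.symm hu hs sim hn side hx hy (bigY s)
  have t1 : Tot X1 := ⟨(x1.last (q0 s hs)).2, x2, fun Z cl d =>
    lift_far tri hs hu x1 (x1.last (q0 s hs)).2 cl
      (fun r hr => if_neg (disjoint_left.1 d hr))⟩
  have t2 : Tot X2 := ⟨(y1.last (q0 u hu)).2, y2, fun Z cl d => by
    have a := lift_far tri hs hu y1 (y1.last (q0 u hu)).2 (clU Z Y cl clY)
      (fun r hr => if_pos (mem_union_right _ hr))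
    have e : (S.cut x y (S.colr s u (Z ∪ Y))).filter (fun e => S.lf e ∉ S.ball t {y} τ) = F Z := by
      ext e
      simp only [F, cut, mem_filter, mem_colr, mem_union, ← hY]
      by_cases h : S.lf e ∈ Y <;> simp [h]
    rw [e] at a
    refine ⟨(flip tri hs hu hsu (nx t τ) (pure_colr tri hs hu cl)
      (pure_colr tri hs hu (clU Z Y cl clY)) (fun e a b => ?_)).trans a.1, a.2⟩
    have h : S.lf e ∈ Y := by
      by_contra h
      rw [mem_colr] at a b
      simp only [mem_union, h, or_false] at b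
      exact b a
    exact Or.inl ((mem_ball1.1 h).flat ((pure_colr tri hs hu cl).2.1 e a))⟩
  have c2 : S.vec X2 s + S.vec X2 u + τ + 1 ≤ Y.card := by
    have a := sum_vec (S := S) (M := X2) (A := {s, u, t}) (fun e _ => by
      rcases tri (S.col e) with h | h | h <;> simp [h])
    rw [sum_insert (by simp [hsu, hs]), sum_pair hu, (y1.av av_base).2] at a
    have m : S.lf (S.eR u y) ∈ Y :=
      mem_ball1.2 (Rch.row (by rw [S.rt_eR]; exact Rch.refl _) (by rwa [S.col_eR]))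
    have b : (S.base x y u Y).card ≤ (Y.erase (S.lf (S.eR u y))).card :=
      card_le_card_of_injOn S.lf (fun e he => mem_erase.2 ⟨fun h => (mem_base.1 he).2.2.2 (by
        rw [S.eq_of_lf h ((mem_base.1 he).1.trans (S.col_eR _ _).symm), S.rt_eR]),
        (mem_base.1 he).2.1⟩) (fun e he f hf h => av_base.1.l e he f hf h)
    have c := card_erase_add_one m
    rw [← hY] at a
    omega
  have n1 := vec_nonneg (S := S) X1 u
  have n2 := vec_nonneg (S := S) X2 s
  have n3 := vec_nonneg (S := S) X2 u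
  obtain ⟨X, t0, z1, z2⟩ : ∃ X, Tot X ∧ S.vec X u ≤ τ ∧ S.vec X u + S.vec X2 s + τ + 1 ≤ Y.card := by
    by_cases h : 2 * τ + 1 ≤ Y.card
    · exact ⟨X1, t1, by omega, by omega⟩
    · exact ⟨X2, t2, by omega, by omega⟩
  have n4 := vec_nonneg (S := S) X u
  have c3 := card_sdiff_add_card_eq_card (subset_univ (Y ∪ W))
  rw [card_univ, card_union_of_disjoint dYW] at c3
  have c4 := le_card_sdiff G (univ \ (Y ∪ W))
  have c5 : 0 < W.card := card_pos.2 ⟨x, (mW x).2 (Rch.refl _)⟩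
  have clF : ∀ r ∈ (univ \ (Y ∪ W)) \ G, ∀ r', S.swap.Rch t r 0 r' → r' ∈ (univ \ (Y ∪ W)) \ G :=
    fun r hr r' h => mem_sdiff.2 ⟨mem_sdiff.2 ⟨mem_univ _, fun hh =>
      (mem_sdiff.1 (mem_sdiff.1 hr).1).2 (clU Y W clY clW _ hh _ h.symm)⟩,
      fun hh => (mem_sdiff.1 hr).2 (clG _ hh _ h.symm)⟩
  have d1 := card_sdiff_add_card_inter ((univ \ (Y ∪ W)) \ G) G'
  have d2 := card_le_card (inter_subset_right (s₁ := (univ \ (Y ∪ W)) \ G) (s₂ := G'))
  obtain ⟨Z0, a1, a2, a3, a4⟩ := gapfill (S := S.swap) (t := t)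
    (Z := ((univ \ (Y ∪ W)) \ G) \ G')
    (fun r hr r' h => mem_sdiff.2 ⟨clF r (mem_sdiff.1 hr).1 r' h,
      fun hh => (mem_sdiff.1 hr).2 (clG' _ hh _ h.symm)⟩) (g := W.card)
    (fun r hr => short r (by rw [nr]; exact (mem_sdiff.1 (mem_sdiff.1 (mem_sdiff.1 hr).1).1).2)
      (mem_sdiff.1 (mem_sdiff.1 hr).1).2 (mem_sdiff.1 hr).2)
    (lo := ((univ \ (Y ∪ W)).card : ℤ) + S.vec X2 s - T s - (((univ \ (Y ∪ W)) \ G) ∩ G').card)
    (hi := (T u : ℤ) - S.vec X u - (((univ \ (Y ∪ W)) \ G) ∩ G').card)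
    (by omega) (by omega) (by omega) (by omega)
  obtain ⟨Z, b1, b2, b3, b4⟩ : ∃ Z ⊆ (univ \ (Y ∪ W)) \ G,
      (∀ r ∈ Z, ∀ r', S.swap.Rch t r 0 r' → r' ∈ Z) ∧
      ((univ \ (Y ∪ W)).card : ℤ) + S.vec X2 s - T s ≤ Z.card ∧
      (Z.card : ℤ) ≤ (T u : ℤ) - S.vec X u := by
    have d3 := card_union_of_disjoint (s := Z0) (t := ((univ \ (Y ∪ W)) \ G) ∩ G')
      (disjoint_left.2 (fun r a b => (mem_sdiff.1 (a1 a)).2 (mem_inter.1 b).2))
    exact ⟨Z0 ∪ ((univ \ (Y ∪ W)) \ G) ∩ G', union_subset (a1.trans sdiff_subset) inter_subset_left,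
      clU _ _ a2 (fun r hr r' h => mem_inter.2 ⟨clF r (mem_inter.1 hr).1 r' h,
        clG' r (mem_inter.1 hr).2 r' h⟩), by omega, by omega⟩
  have c6 := card_sdiff_add_card_eq_card (b1.trans sdiff_subset)
  have dYZ : Disjoint Y Z := disjoint_left.2 (fun r a b =>
    (mem_sdiff.1 (mem_sdiff.1 (b1 b)).1).2 (mem_union_left _ a))
  have k1 := pure_colr tri hs hu b2
  have k2 := pure_colr tri hs hu (clU Z W b2 clW)
  obtain ⟨l1, w1⟩ := t0.2.2 Z b2 dYZ
  obtain ⟨l2, w2⟩ := t2.2.2 (Z ∪ W) (clU Z W b2 clW) (disjoint_union_right.2 ⟨dYZ, dYW⟩)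
  have l3 := flip tri hs hu hsu (nx t τ) k1 k2 (fun e a b => by
    have h : S.lf e ∈ W := by
      by_contra h
      rw [mem_colr] at a b
      simp only [mem_union, h, or_false] at b
      exact b a
    exact Or.inr ((mW _).1 h))
  have f1 : S.vec (F Z) t = 0 :=
    vec_zero (fun e he => k1.2.1 e (mem_filter.1 (mem_filter.1 he).1).1)
  have f2 : S.vec (F (Z ∪ W)) t = 0 :=
    vec_zero (fun e he => k2.2.1 e (mem_filter.1 (mem_filter.1 he).1).1)
  have v1 := vec_rows (M := F Z) (k1.av.1.mono (filter_subset _ _)) (k := u) (Z := Z)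
    (fun e he h => by
      have := mem_colr.1 (mem_filter.1 (mem_filter.1 he).1).1
      by_contra hh
      rw [if_neg hh, h] at this
      exact hsu this.symm)
  have v2 := vec_rows (M := F (Z ∪ W)) (k2.av.1.mono (filter_subset _ _)) (k := s)
    (Z := (univ \ (Y ∪ W)) \ Z) (fun e he h => by
      have := mem_colr.1 (mem_filter.1 (mem_filter.1 he).1).1
      have h2 : S.lf e ∉ Z ∪ W := fun hh => by
        rw [if_pos hh, h] at this
        exact hsu this
      exact mem_sdiff.2 ⟨mem_sdiff.2 ⟨mem_univ _, fun hh => (mem_union.1 hh).elim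
        (mem_filter.1 he).2 (fun a => h2 (mem_union_right _ a))⟩,
        fun a => h2 (mem_union_left _ a)⟩)
  have uni : ∀ k, ∃ j, ∀ r, sL r → S.swap.Rch k x j r := by
    intro k
    choose! f hf using conX k
    exact ⟨univ.sup f, fun r hr => (hf r hr).mono (le_sup (mem_univ r))⟩
  obtain ⟨j1, u1⟩ := uni t
  obtain ⟨j2, u2⟩ := uni u
  have k3 : S.Pure t (S.colr s u (Z.filter sL)) := pure_colr tri hs hu (fun r hr r' h =>
    mem_filter.2 ⟨b2 r (mem_filter.1 hr).1 r' h, (sx _ _ _ _ h).2 (mem_filter.1 hr).2⟩)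
  have k4 : S.Pure t (S.colr s u ∅) := pure_colr tri hs hu (by simp)
  have k5 : S.Pure u (S.colr s t ∅) := pure_colr tri' hsu hu.symm (by simp)
  have k6 : S.Pure u (S.colr s t (univ.filter sL)) := pure_colr tri' hsu hu.symm
    (fun r hr r' h => mem_filter.2 ⟨mem_univ _, (sx _ _ _ _ h).2 (mem_filter.1 hr).2⟩)
  have l4 := flip tri hs hu hsu (nx t j1) k3 k4 (fun e a b => Or.inr (u1 _ (by
    by_contra h
    rw [mem_colr] at a b
    rw [if_neg (fun hh => h (mem_filter.1 hh).2)] at a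
    exact b (by simpa using a))))
  have l5 := flip tri' hsu hu.symm hs (nx u j2) k5 k6 (fun e a b => Or.inr (u2 _ (by
    by_contra h
    rw [mem_colr] at a b
    rw [if_neg (fun hh => h (mem_filter.1 hh).2)] at b
    exact b (by simpa using a))))
  have e0 : S.colr s u ∅ = S.colr s t ∅ := by simp [colr]
  rw [e0] at l4
  have up : S.Ch x y (fun _ => True) (S.cut x y (S.colr s u (Z.filter sL)))
      (S.cut x y (S.colr s t (univ.filter sL))) :=
    Relation.ReflTransGen.trans (Ch.mono (Q := fun N => S.vec N t ≤ j1) (fun _ _ => trivial) l4)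
      (Ch.mono (Q := fun N => S.vec N u ≤ j2) (fun _ _ => trivial) l5)
  have off : ∀ X', Tot X' → ∀ M : Finset E,
      (τ : ℤ) ≤ S.vec ((X' ∪ M).filter (fun e => ¬ sL (S.lf e))) t := fun X' h M => by
    rw [← h.2.1]
    exact vec_mono (fun e he => mem_filter.2
      ⟨mem_union_left _ he, oY _ (mem_ball1.2 (h.1 e he).1)⟩) t
  have c7 := card_cut k1 na
  have c8 := l1.av k1.av
  have h0 : (τ : ℤ) ≤ S.vec ((S.cut x y (S.colr s t (univ.filter sL))).filter
      (fun e => sL (S.lf e))) t := by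
    have h1 := vec_rows_ge (S := S) (k := t) (Z := (univ.filter sL).erase x)
      (M := (S.cut x y (S.colr s t (univ.filter sL))).filter (fun e => sL (S.lf e)))
      (fun r hr => by
        obtain ⟨r1, r2⟩ := mem_erase.1 hr
        have r3 : sL (S.lf (S.eL t r)) := by rw [S.lf_eL]; exact (mem_filter.1 r2).2
        refine mem_filter.2 ⟨mem_filter.2 ⟨mem_colr.2 ?_, ?_, ?_⟩, r3⟩
        · rw [S.col_eL, S.lf_eL, if_pos r2]
        · rwa [S.lf_eL]
        · exact fun h => hy (h ▸ (side _).1 r3))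
    have h2 := pred_card_le_card_erase (s := univ.filter sL) (a := x)
    omega
  have e1 : (S.cut x y (S.colr s u (Z.filter sL))).filter (fun e => sL (S.lf e)) =
      (X ∪ F Z).filter (fun e => sL (S.lf e)) := by
    ext e
    by_cases h : sL (S.lf e)
    · have a : e ∉ X := fun he => oY _ (mem_ball1.2 (t0.1 e he).1) h
      have b : S.lf e ∉ Y := fun he => oY _ he h
      simp [F, cut, mem_colr, h, a, b]
    · simp [h]
  obtain ⟨N, m1, -, m2, m3, m4⟩ := crossing hsu hs hu tri (x := x) (y := y)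
    (m := T s + T u + T t) (T := fun k => (T k : ℤ)) (by push_cast; rfl) sL sR side c8.1
    (by omega) ((l1.symm.trans l3).trans l2) k3.av e1 up h0 (off X t0 _) (off X2 t2 _)
    (by rw [w1, f1, add_zero, t0.2.1]) (by rw [w2, f2, add_zero, y2])
    (by rw [w1]; omega) (by rw [w2]; omega)
  refine ⟨N, m1, fun k => ?_⟩
  rcases tri k with rfl | rfl | rfl
  · exact m2
  · exact m3
  · exact m4

/-- two parts: `A` is connected and holds `x`, the rest is reached from `y`. -/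
theorem jay (tri : ∀ k, k = s ∨ k = u ∨ k = t) (hsu : s ≠ u) (hs : s ≠ t) (hu : u ≠ t)
    (sim : ∀ e e', S.lf e = S.lf e' → S.rt e = S.rt e' → e = e')
    (hn : Fintype.card L = Fintype.card R) {A : Finset L}
    (cl : ∀ e e', S.rt e = S.rt e' → S.lf e ∈ A → S.lf e' ∈ A) (hx : x ∈ A)
    (con : ∀ k, ∀ r ∈ A, ∃ i, S.swap.Rch k x i r) (hy : ∀ e, S.rt e = y → S.lf e ∉ A)
    (conY : ∀ k r, r ∉ A → ∃ i, S.RchL k y i r) {T : K → ℕ}
    (hA : T s + T u + T t + 2 = A.card) (tu : T t ≤ T u) (us : T u ≤ T s)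
    (gd : S.Good A t (T t) (T s - T t / 2) x) (big : T t < Aᶜ.card) {j : K}
    (hj : j = s ∨ j = u) : S.Rl x y (fun k => T k + if k = j then Aᶜ.card else 0) := by
  classical
  obtain ⟨z, z1, z2, G, g1, g2, g3, g4⟩ := gd
  have cc := card_add_card_compl A
  have clC : ∀ r ∈ Aᶜ, ∀ r', S.swap.Rch t r 0 r' → r' ∈ Aᶜ := fun r hr r' h =>
    mem_compl.2 (fun a => mem_compl.1 hr ((cl_iff cl h).1 a))
  have dG : Disjoint G Aᶜ := disjoint_left.2 (fun r a b => mem_compl.1 b (g1 a))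
  have side : ∀ e, S.lf e ∈ A ↔ ∃ f, S.rt f = S.rt e ∧ S.lf f ∈ A :=
    fun e => ⟨fun h => ⟨e, rfl, h⟩, fun ⟨f, a, b⟩ => cl f e a b⟩
  have ny : ¬ ∃ f, S.rt f = y ∧ S.lf f ∈ A := fun ⟨f, a, b⟩ => hy f a b
  have eA : ∀ inst, (@filter L (fun r => r ∈ A) inst univ) = A := fun _ => by ext r; simp
  have bY : ∀ k, ∃ i, T t < (S.ball k {y} i).card := by
    intro k
    choose! f hf using conY k
    exact ⟨univ.sup f, big.trans_le (card_le_card (fun r hr =>
      mem_ball1.2 ((hf r (mem_compl.1 hr)).mono (le_sup (mem_univ r)))))⟩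
  have sh : ∀ inst r, r ∈ A → r ∉ G → (S.swap.cy t r).card ≤
      (@filter L (fun r => S.swap.Rch t x (T t) r) inst univ).card := fun _ r a b =>
    (g4 r a b).trans (card_le_card (fun q hq => mem_filter.2 ⟨mem_univ _, z2.trans (mem_cy.1 hq)⟩))
  rcases hj with rfl | rfl
  · have e1 : (if t = j then Aᶜ.card else 0) = 0 := if_neg hs.symm
    have e2 : (if u = j then Aᶜ.card else 0) = 0 := if_neg hsu.symm
    have e3 := card_union_of_disjoint dG
    refine crossWin2 tri hsu hs hu sim (sL := fun r => r ∈ A)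
      (sR := fun q => ∃ f, S.rt f = q ∧ S.lf f ∈ A) ?_ ?_ side hx ny con ?_ ?_ (G := G ∪ Aᶜ)
      (G' := ∅) (fun r hr r' h => (mem_union.1 hr).elim (fun c => mem_union_left _ (g2 r c r' h))
        (fun c => mem_union_right _ (clC r c r' h))) (by simp) (by simp) ?_ ?_ ?_
    all_goals simp only [e1, e2, if_true, add_zero, eA, card_empty]
    · omega
    · omega
    · omega
    · exact bY
    · omega
    · omega
    · exact fun r _ a _ => sh _ r (by
        by_contra h
        exact a (mem_union_right _ (mem_compl.2 h))) (fun h => a (mem_union_left _ h))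
  · have e1 : (if t = j then Aᶜ.card else 0) = 0 := if_neg hu.symm
    have e2 : (if s = j then Aᶜ.card else 0) = 0 := if_neg hsu
    refine crossWin2 tri hsu hs hu sim (sL := fun r => r ∈ A)
      (sR := fun q => ∃ f, S.rt f = q ∧ S.lf f ∈ A) ?_ ?_ side hx ny con ?_ ?_ (G := G)
      (G' := Aᶜ) g2 clC dG ?_ ?_ ?_
    all_goals simp only [e1, e2, if_true, add_zero, eA]
    · omega
    · omega
    · omega
    · exact bY
    · omega
    · omega
    · exact fun r _ a b => sh _ r (by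
        by_contra h
        exact b (mem_compl.2 h)) a

end Sys

end Pool.Agent.Lib.MP_cc2426_co
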