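import Pool.Agent.Lib.MP_cc2426_co.Jex

/-! The two crossing cases for closed sets of rows. -/

set_option autoImplicit false
set_option linter.unusedSectionVars false

namespace Pool.Agent.Lib.MP_cc2426_co

open Finset

variable {E L R K : Type*} [DecidableEq E] [DecidableEq L] [DecidableEq R] [DecidableEq K]
  [Fintype L] [Fintype R]

namespace Sys

/-- the columns that belong to a set of rows. -/
def colq (S : Sys E L R K) (s : K) (B : Finset L) : Finset R := B.image (fun r => S.rt (S.eL s r))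

variable {S : Sys E L R K} {s u t : K} {x : L} {y : R} {A B : Finset L}

theorem mem_colq (cB : S.Cl B) {e : E} : S.rt e ∈ S.colq s B ↔ S.lf e ∈ B := by
  unfold colq
  rw [mem_image]
  constructor
  · rintro ⟨r, a, b⟩
    exact cB _ _ b (by rwa [S.lf_eL])
  · intro h
    refine ⟨S.lf (S.eR s (S.rt e)), cB e _ (S.rt_eR _ _).symm h, ?_⟩
    rw [eL_lf (S.col_eR _ _), S.rt_eR]

theorem card_colq : (S.colq s B).card = B.card := by
  apply card_image_of_injective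
  intro r r' h
  have := congrArg S.lf (S.eq_of_rt h (by rw [S.col_eL, S.col_eL]))
  rwa [S.lf_eL, S.lf_eL] at this

theorem cl_colq (cB : S.Cl B) : S.swap.Cl (S.colq s B) := fun e e' h a =>
  (mem_colq cB).2 ((show S.lf e = S.lf e' from h) ▸ (mem_colq cB).1 a)

theorem col_mem (cB : S.Cl B) (hy : ∀ e, S.rt e = y → S.lf e ∈ B) : y ∈ S.colq s B := by
  have := (mem_colq (s := s) cB).2 (hy (S.eR s y) (S.rt_eR _ _))
  rwa [S.rt_eR] at this

theorem join (cA : S.Cl A) (cB : S.Cl B) (dj : Disjoint A B) (hx : x ∈ A)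
    (hy : ∀ e, S.rt e = y → S.lf e ∈ B) {N1 N2 : Finset E} (h1 : S.Rt x A N1)
    (h2 : S.swap.Rt y (S.colq s B) N2) :
    S.Av x y (N1 ∪ N2) ∧ (∀ e ∈ N1 ∪ N2, S.lf e ∈ A ∪ B) ∧
      ∀ k, S.vec (N1 ∪ N2) k = S.vec N1 k + S.vec N2 k := by
  have b : ∀ f ∈ N2, S.lf f ∈ B := fun f hf => (mem_colq cB).1 (h2.2.1 f hf).1
  have n := Finset.disjoint_left.1 dj
  have d : ∀ e ∈ N1, ∀ f ∈ N2, S.lf e ≠ S.lf f ∧ S.rt e ≠ S.rt f := fun e he f hf =>
    ⟨fun hh => n (h1.2.1 e he).1 (hh ▸ b f hf),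
      fun hh => n (cA e f hh (h1.2.1 e he).1) (b f hf)⟩
  refine ⟨Av.union ⟨h1.1, fun e he => ⟨(h1.2.1 e he).2, fun hh => n (h1.2.1 e he).1 (hy e hh)⟩⟩
    ⟨h2.1.unswap, fun e he => ⟨fun hh => n hx (hh ▸ b e he), (h2.2.1 e he).2⟩⟩ d, fun e he => ?_,
    fun k => by rw [vec_union (disj_of d), Pi.add_apply]⟩
  exact (mem_union.1 he).elim (fun a => mem_union_left _ (h1.2.1 e a).1)
    (fun a => mem_union_right _ (b e a))

theorem jrow (tri : ∀ k, k = s ∨ k = u ∨ k = t) (hsu : s ≠ u) (hs : s ≠ t) (hu : u ≠ t)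
    (sim : ∀ e e', S.lf e = S.lf e' → S.rt e = S.rt e' → e = e')
    (cA : S.Cl A) (cB : S.Cl B) (dj : Disjoint A B) (hx : x ∈ A)
    (hy : ∀ e, S.rt e = y → S.lf e ∈ B)
    (con : ∀ k e e', S.lf e ∈ B → S.lf e' ∈ B → ∃ i, S.Rch k (S.rt e) i (S.rt e'))
    {T : K → ℕ} (hA : T s + T u + T t + 2 = A.card) (tu : T t ≤ T u) (us : T u ≤ T s)
    (g : S.Good A t (T t) (T s - T t / 2) x) (hB : T t < B.card) {j : K} (hj : j ≠ t) :
    ∃ N, S.Av x y N ∧ (∀ e ∈ N, S.lf e ∈ A ∪ B) ∧ ∀ k, S.vec N k = T k + B.card * dl j k := by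
  obtain ⟨N1, N2, a, b, c⟩ := jcase (B := S.colq s B) tri hsu hs hu sim cA (cl_colq cB)
    (fun e h hh => Finset.disjoint_left.1 dj hh ((mem_colq cB).1 h)) hx (col_mem cB hy)
    (fun k q hq => by
      have := con k (S.eR s y) (S.eR s q) (hy _ (S.rt_eR _ _))
        ((mem_colq (s := s) cB).1 (by rwa [S.rt_eR]))
      rwa [S.rt_eR, S.rt_eR] at this) hA tu us g (by rwa [card_colq])
    (j := j) (by have := tri j; tauto)
  obtain ⟨d1, d2, d3⟩ := join cA cB dj hx hy a b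
  exact ⟨_, d1, d2, fun k => by rw [d3, c, card_colq]⟩

theorem extrow (tri : ∀ k, k = s ∨ k = u ∨ k = t) (hsu : s ≠ u) (hs : s ≠ t) (hu : u ≠ t)
    (cA : S.Cl A) (cB : S.Cl B) (dj : Disjoint A B) {T : K → ℕ}
    (hA : T s + T u + T t + 2 = A.card) {p : L → R} (inj : Function.Injective p) {D : Finset L}
    (DA : D ⊆ A) (cD : T u + 1 ≤ D.card) (pD : ∀ x ∈ D, ∀ e, S.rt e = p x → S.lf e ∈ B) {X : ℕ}
    (hX : X ≤ T s) (g : ∀ x ∈ D, S.Good A u (T u) X x) :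
    ∃ x ∈ D, ∃ N, S.Av x (p x) N ∧ (∀ e ∈ N, S.lf e ∈ A ∪ B) ∧
      ∀ k, S.vec N k = T k + B.card * dl t k := by
  obtain ⟨x, x1, N1, N2, a, b, c⟩ := ext (B := S.colq s B) tri hsu hs hu cA (cl_colq cB)
    (fun e h hh => Finset.disjoint_left.1 dj hh ((mem_colq cB).1 h)) hA inj DA cD
    (fun x h => col_mem cB (pD x h)) hX g
  obtain ⟨d1, d2, d3⟩ := join cA cB dj (DA x1) (pD x x1) a b
  exact ⟨x, x1, _, d1, d2, fun k => by rw [d3, c, card_colq]⟩

end Sys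

end Pool.Agent.Lib.MP_cc2426_co
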