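import Pool.Agent.Lib.MP_cc2426_co.Lat

/-! Crossing of two lattice walks in two opposite triangles. -/

namespace Pool.Agent.Lib.MP_cc2426_co.Lat

/-- a walk from height at most zero to height at least zero has a last point of height zero. -/
theorem Wk.cut {P : ℤ × ℤ → Prop} {v w : ℤ × ℤ} (h : Wk P v w) (hv : P v) (h0 : v.2 ≤ 0)
    (h1 : 0 ≤ w.2) : ∃ d, P (d, 0) ∧ Wk (fun z => P z ∧ 0 ≤ z.2) (d, 0) w := by
  induction h with
  | refl =>
    refine ⟨v.1, ?_, ?_⟩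
    · have : v = (v.1, 0) := Prod.ext rfl (by simp; omega)
      exact this ▸ hv
    · have : v = (v.1, 0) := Prod.ext rfl (by simp; omega)
      rw [← this]
      exact Relation.ReflTransGen.refl
  | @tail p q _ h ih =>
    by_cases c : 0 ≤ p.2
    · obtain ⟨d, a, b⟩ := ih c
      exact ⟨d, a, Relation.ReflTransGen.tail b ⟨h.1, ⟨h.2.1, c⟩, h.2.2, h1⟩⟩
    · have e := h.1
      unfold St at e
      have : q = (q.1, 0) := Prod.ext rfl (by simp; omega)
      refine ⟨q.1, this ▸ h.2.2, ?_⟩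
      rw [← this]
      exact Relation.ReflTransGen.refl

/-- Points are pairs (count of `s`, count of `t`); the count of `u` is `a` minus both.  The first
walk joins pure `s` to pure `u`, the second stays below `(bs, bu, bt)`. -/
theorem star {P1 P2 : ℤ × ℤ → Prop} {a c bs bu bt : ℤ}
    (t0 : 0 ≤ bt) (s1 : bs ≤ c) (s2 : bs ≤ a) (u1 : bu ≤ a)
    (t1 : bt ≤ c) (t2 : bt ≤ a) (w1 : Wk P1 (a, 0) (0, 0)) (p1 : P1 (a, 0))
    (r1 : ∀ z, P1 z → 0 ≤ z.1 ∧ 0 ≤ z.2 ∧ z.1 + z.2 ≤ a)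
    (w2 : Wk P2 (bs, bt - c) (bs - c, bt)) (p2 : P2 (bs, bt - c))
    (r2 : ∀ z, P2 z → z.1 ≤ bs ∧ a - z.1 - z.2 ≤ bu) : ∃ z, P1 z ∧ P2 z := by
  obtain ⟨d, hd, w3⟩ := w2.cut p2 (by simp; omega) t0
  have r3 := r2 _ hd
  simp only at r3
  have w4 : Wk (fun z => (P2 z ∧ 0 ≤ z.2) ∨ (z.1 < 0 ∧ 0 ≤ z.2)) (bs - c, bt)
      (bs - c - (a - bt).toNat, bt + (a - bt).toNat) := by
    have l := w3.last ⟨hd, le_rfl⟩
    have := Wk.of_seq (P := fun z => (P2 z ∧ 0 ≤ z.2) ∨ (z.1 < 0 ∧ 0 ≤ z.2))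
      (fun i : ℕ => (bs - c - i, bt + i)) (a - bt).toNat
      (fun i _ => by unfold St; simp only; push_cast; omega) (fun i _ => by
        rcases Nat.eq_zero_or_pos i with rfl | h
        · left; simpa using l
        · right; simp only; omega)
    simpa using this
  have e : bt + ((a - bt).toNat : ℤ) = a := by omega
  rw [e] at w4
  obtain ⟨z, z1, z2⟩ := arch (P2 := fun z => (P2 z ∧ 0 ≤ z.2) ∨ (z.1 < 0 ∧ 0 ≤ z.2)) (H := a) w1
    (fun z h => by have := r1 z h; omega) ((w3.mono fun _ h => Or.inl h).trans w4).symm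
    (fun z h => h.elim (·.2) (·.2)) (Or.inl (by omega)) p1 (Or.inl ⟨hd, le_rfl⟩)
  have := r1 z z1
  exact ⟨z, z1, z2.elim (·.1) fun h => by omega⟩

end Pool.Agent.Lib.MP_cc2426_co.Lat
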