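import Pool.Agent.Lib.MP_cc2426_co.Mv

/-! Levels: the least number of edges of one colour on a walk. -/

set_option autoImplicit false
set_option linter.unusedSectionVars false

namespace Pool.Agent.Lib.MP_cc2426_co

open Finset

variable {E L R K : Type*} [DecidableEq E] [DecidableEq L] [DecidableEq R] [DecidableEq K]
  [Fintype L] [Fintype R]

namespace Sys

/-- columns reached from `q0` with at most `i` edges of colour `t`. -/
inductive Rch (S : Sys E L R K) (t : K) (q0 : R) : ℕ → R → Prop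
  | refl (i : ℕ) : Rch S t q0 i q0
  | flat {i : ℕ} (e e' : E) : Rch S t q0 i (S.rt e) → S.col e ≠ t → S.lf e' = S.lf e →
      S.col e' ≠ t → Rch S t q0 i (S.rt e')
  | arc {i : ℕ} (e e' : E) : Rch S t q0 i (S.rt e) → S.col e ≠ t → S.lf e' = S.lf e →
      Rch S t q0 (i + 1) (S.rt e')

/-- rows reached from `q0` with at most `i` edges of colour `t`. -/
def RchL (S : Sys E L R K) (t : K) (q0 : R) (i : ℕ) (r : L) : Prop :=
  ∃ e, S.lf e = r ∧ S.col e ≠ t ∧ S.Rch t q0 i (S.rt e)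

/-- level of a column. -/
noncomputable def lev (S : Sys E L R K) (t : K) (q0 q : R) : ℕ := sInf {i | S.Rch t q0 i q}

variable {S : Sys E L R K} {s u t : K} {x : L} {y : R}

theorem Rch.succ {q0 q : R} {i : ℕ} (h : S.Rch t q0 i q) : S.Rch t q0 (i + 1) q := by
  induction h with
  | refl i => exact Rch.refl _
  | flat e e' _ a b c ih => exact Rch.flat e e' ih a b c
  | arc e e' _ a b ih => exact Rch.arc e e' ih a b

theorem Rch.mono {q0 q : R} {i j : ℕ} (h : S.Rch t q0 i q) (hj : i ≤ j) : S.Rch t q0 j q := by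
  induction hj with
  | refl => exact h
  | step _ ih => exact ih.succ

theorem RchL.mono {q0 : R} {r : L} {i j : ℕ} (h : S.RchL t q0 i r) (hj : i ≤ j) :
    S.RchL t q0 j r := by
  obtain ⟨e, a, b, c⟩ := h
  exact ⟨e, a, b, c.mono hj⟩

theorem RchL.flat {q0 : R} {i : ℕ} {e : E} (h : S.RchL t q0 i (S.lf e)) (he : S.col e ≠ t) :
    S.Rch t q0 i (S.rt e) := by
  obtain ⟨f, a, b, c⟩ := h
  exact Rch.flat f e c b a.symm he

theorem RchL.arc {q0 : R} {i : ℕ} {e : E} (h : S.RchL t q0 i (S.lf e)) :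
    S.Rch t q0 (i + 1) (S.rt e) := by
  obtain ⟨f, a, b, c⟩ := h
  exact Rch.arc f e c b a.symm

theorem Rch.row {q0 : R} {i : ℕ} {e : E} (h : S.Rch t q0 i (S.rt e)) (he : S.col e ≠ t) :
    S.RchL t q0 i (S.lf e) := ⟨e, rfl, he, h⟩

theorem Rch.trans {q0 q1 q : R} {i j : ℕ} (h : S.Rch t q0 i q1) (h' : S.Rch t q1 j q) :
    S.Rch t q0 (i + j) q := by
  induction h' with
  | refl j => exact h.mono (Nat.le_add_right _ _)
  | flat e e' _ a b c ih => exact Rch.flat e e' ih a b c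
  | arc e e' _ a b ih => exact Rch.arc e e' ih a b

theorem Rch.zero_ind {q0 : R} {p : R → Prop} (h0 : p q0)
    (h1 : ∀ e e', S.col e ≠ t → S.col e' ≠ t → S.lf e' = S.lf e → p (S.rt e) → p (S.rt e'))
    {q : R} (h : S.Rch t q0 0 q) : p q := by
  generalize hi : 0 = i at h
  induction h with
  | refl i => exact h0
  | flat e e' _ a b c ih => exact h1 e e' a c b (ih hi)
  | arc e e' _ a b ih => omega

theorem Rch.symm {q0 q : R} (h : S.Rch t q0 0 q) : S.Rch t q 0 q0 :=
  Rch.zero_ind (p := fun q => S.Rch t q 0 q0) (Rch.refl 0) (fun e e' a b c ih =>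
    (Rch.flat e' e (Rch.refl 0) b c.symm a).trans ih) h

theorem dual {i j : ℕ} {r : L} (h' : S.swap.Rch t x j r) :
    S.RchL t y i r → S.RchL t y (i + j) x := by
  induction h' generalizing i with
  | refl j => exact fun h => h.mono (Nat.le_add_right _ _)
  | flat e e' _ a b c ih =>
    intro h
    have h1 : S.Rch t y i (S.rt e') := RchL.flat h c
    have b' : S.rt e' = S.rt e := b
    exact ih ((b' ▸ h1).row a)
  | @arc j e e' _ a b ih =>
    intro h
    have h1 : S.Rch t y (i + 1) (S.rt e') := RchL.arc h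
    have b' : S.rt e' = S.rt e := b
    have := ih ((b' ▸ h1).row a)
    rwa [show i + 1 + j = i + (j + 1) by omega] at this

theorem dual' {j : ℕ} (h : S.swap.RchL t x j y) : S.RchL t y j x := by
  obtain ⟨e, a, b, c⟩ := h
  have a' : S.rt e = y := a
  have := dual (S := S) (y := y) (i := 0) c ((a' ▸ Rch.refl 0 : S.Rch t y 0 (S.rt e)).row b)
  rwa [zero_add] at this

theorem dual'' {j : ℕ} (h : S.RchL t y j x) : S.swap.RchL t x j y := dual' (S := S.swap) h

/-- the next column on a two-coloured cycle. -/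
def nxt (S : Sys E L R K) (s u : K) (q : R) : R := S.rt (S.eL u (S.lf (S.eR s q)))

theorem eR_rt {e : E} {c : K} (h : S.col e = c) : S.eR c (S.rt e) = e := h ▸ S.eR_eq e

theorem eL_lf {e : E} {c : K} (h : S.col e = c) : S.eL c (S.lf e) = e := h ▸ S.eL_eq e

theorem nxt_nxt (q : R) : S.nxt u s (S.nxt s u q) = q := by
  unfold nxt
  rw [eR_rt (S.col_eL _ _), S.lf_eL, eL_lf (S.col_eR _ _), S.rt_eR]

theorem orb (tri : ∀ k, k = s ∨ k = u ∨ k = t) {p : R → Prop} {q0 : R} (h0 : p q0)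
    (h1 : ∀ q, S.Rch t q0 0 q → p q → p (S.nxt s u q)) (hs : s ≠ t) (hu : u ≠ t) {q : R}
    (h : S.Rch t q0 0 q) : p q := by
  classical
  set H := univ.filter (fun q => S.Rch t q0 0 q ∧ p q) with hH
  have st : ∀ q, S.Rch t q0 0 q → S.Rch t q0 0 (S.nxt s u q) := fun q a =>
    Rch.flat (S.eR s q) _ (by rwa [S.rt_eR]) (by rwa [S.col_eR]) (S.lf_eL _ _) (by rwa [S.col_eL])
  have inj : Function.Injective (S.nxt s u) := Function.LeftInverse.injective nxt_nxt
  have e : H.image (S.nxt s u) = H := by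
    apply eq_of_subset_of_card_le
    · intro z hz
      obtain ⟨q, hq, rfl⟩ := mem_image.1 hz
      have := (mem_filter.1 hq).2
      exact mem_filter.2 ⟨mem_univ _, st q this.1, h1 q this.1 this.2⟩
    · rw [card_image_of_injective _ inj]
  have key : q ∈ H := by
    refine Rch.zero_ind (p := fun q => q ∈ H) (mem_filter.2 ⟨mem_univ _, Rch.refl 0, h0⟩) ?_ h
    intro f f' a b c ih
    rcases tri (S.col f) with d | d | d
    · rcases tri (S.col f') with d' | d' | d'
      · rwa [S.eq_of_lf c (d'.trans d.symm)]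
      · have : S.nxt s u (S.rt f) = S.rt f' := by
          unfold nxt; rw [eR_rt d, ← c, eL_lf d']
        rw [← this, ← e]
        exact mem_image_of_mem _ ih
      · exact absurd d' b
    · rcases tri (S.col f') with d' | d' | d'
      · have : S.nxt s u (S.rt f') = S.rt f := by
          unfold nxt; rw [eR_rt d', c, eL_lf d]
        rw [← e, ← this] at ih
        obtain ⟨z, hz, hz'⟩ := mem_image.1 ih
        rwa [← inj hz']
      · rwa [S.eq_of_lf c (d'.trans d.symm)]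
      · exact absurd d' b
    · exact absurd d a
  exact (mem_filter.1 key).2.2

/-- the uncovered row runs along a two-coloured cycle with one column taken out. -/
theorem cyc1 (tri : ∀ k, k = s ∨ k = u ∨ k = t) (hs : s ≠ t) (hu : u ≠ t) {κ : R}
    {I : Finset E → Prop}
    (step : ∀ N f g, I N → S.FrL N (S.lf f) → g ∈ N → S.rt f = S.rt g → S.col f ≠ t →
      S.col g ≠ t → S.Rch t κ 0 (S.rt f) →
      I (insert f (N.erase g)) ∧ S.FrL (insert f (N.erase g)) (S.lf g))
    {N : Finset E} (hN : I N) (fr : S.FrL N (S.lf (S.eR s κ)))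
    (cov : ∀ q, S.Rch t κ 0 q → q ≠ κ → ∃ g ∈ N, S.rt g = q ∧ S.col g ≠ t) {r : L}
    (hr : S.RchL t κ 0 r) : ∃ N', I N' ∧ S.FrL N' r ∧
      ∀ q, S.Rch t κ 0 q → q ≠ κ → ∃ g ∈ N', S.rt g = q ∧ S.col g ≠ t := by
  have h1 : S.Rch t κ 0 (S.rt (S.eL s r)) :=
    RchL.flat (by rwa [S.lf_eL]) (by rwa [S.col_eL])
  have := orb (S := S) tri (p := fun q => ∃ N', I N' ∧ S.FrL N' (S.lf (S.eR s q)) ∧
      ∀ q, S.Rch t κ 0 q → q ≠ κ → ∃ g ∈ N', S.rt g = q ∧ S.col g ≠ t) ⟨N, hN, fr, cov⟩ (by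
    rintro q hq ⟨M, m1, m2, m3⟩
    by_cases hk : S.nxt s u q = κ
    · rw [hk]; exact ⟨N, hN, fr, cov⟩
    · set f := S.eL u (S.lf (S.eR s q)) with hf
      have f1 : S.lf f = S.lf (S.eR s q) := S.lf_eL _ _
      have f2 : S.col f = u := S.col_eL _ _
      have f3 : S.Rch t κ 0 (S.rt f) :=
        Rch.flat (S.eR s q) f (by rwa [S.rt_eR]) (by rwa [S.col_eR]) f1 (by rwa [f2])
      obtain ⟨g, g1, g2, g3⟩ := m3 _ f3 hk
      have g4 : S.col g = s := by
        rcases tri (S.col g) with d | d | d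
        · exact d
        · exact absurd f1 (S.eq_of_rt g2 (d.trans f2.symm) ▸ m2 g g1)
        · exact absurd d g3
      obtain ⟨a1, a2⟩ := step M f g m1 (f1 ▸ m2) g1 g2.symm (by rwa [f2]) g3 f3
      refine ⟨_, a1, ?_, fun z z1 z2 => ?_⟩
      · have : S.nxt s u q = S.rt g := g2.symm
        rwa [this, eR_rt g4]
      · obtain ⟨k, k1, k2, k3⟩ := m3 z z1 z2
        by_cases hk' : k = g
        · exact ⟨f, mem_insert_self _ _, by rw [← g2, ← k2, hk'], by rwa [f2]⟩
        · exact ⟨k, mem_insert_of_mem (mem_erase.2 ⟨hk', k1⟩), k2, k3⟩) hs hu h1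
  rwa [eR_rt (S.col_eL _ _), S.lf_eL] at this

theorem cyc (tri : ∀ k, k = s ∨ k = u ∨ k = t) (hs : s ≠ t) (hu : u ≠ t) {κ : R}
    {I : Finset E → Prop}
    (step : ∀ N f g, I N → S.FrL N (S.lf f) → g ∈ N → S.rt f = S.rt g → S.col f ≠ t →
      S.col g ≠ t → S.Rch t κ 0 (S.rt f) →
      I (insert f (N.erase g)) ∧ S.FrL (insert f (N.erase g)) (S.lf g))
    {N : Finset E} (hN : I N) {e : E} (e1 : S.rt e = κ) (e2 : S.col e ≠ t) (fr : S.FrL N (S.lf e))
    (cov : ∀ q, S.Rch t κ 0 q → q ≠ κ → ∃ g ∈ N, S.rt g = q ∧ S.col g ≠ t) {r : L}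
    (hr : S.RchL t κ 0 r) : ∃ N', I N' ∧ S.FrL N' r ∧
      ∀ q, S.Rch t κ 0 q → q ≠ κ → ∃ g ∈ N', S.rt g = q ∧ S.col g ≠ t := by
  subst e1
  rcases tri (S.col e) with d | d | d
  · exact cyc1 tri hs hu step hN (by rwa [eR_rt d]) cov hr
  · exact cyc1 (s := u) (u := s) (fun k => by have := tri k; tauto) hu hs step hN
      (by rwa [eR_rt d]) cov hr
  · exact absurd d e2

/-- with the uncovered row next to the removed column the cycle is monochromatic. -/
theorem cyc_end (tri : ∀ k, k = s ∨ k = u ∨ k = t) (hs : s ≠ t) (hu : u ≠ t) (hsu : s ≠ u) {κ : R}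
    {N : Finset E} (hN : S.IsM N) (fr : S.FrL N (S.lf (S.eR s κ)))
    (cov : ∀ q, S.Rch t κ 0 q → q ≠ κ → ∃ g ∈ N, S.rt g = q ∧ S.col g ≠ t) {q : R}
    (hq : S.Rch t κ 0 q) : q = κ ∨ S.eR s q ∈ N := by
  refine orb (S := S) tri (p := fun q => q = κ ∨ S.eR s q ∈ N) (Or.inl rfl) ?_ hs hu hq
  intro z z1 z2
  by_cases hk : S.nxt s u z = κ
  · exact Or.inl hk
  right
  set f := S.eL u (S.lf (S.eR s z)) with hf
  have f1 : S.lf f = S.lf (S.eR s z) := S.lf_eL _ _
  have f2 : S.col f = u := S.col_eL _ _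
  have f3 : S.Rch t κ 0 (S.rt f) :=
    Rch.flat (S.eR s z) f (by rwa [S.rt_eR]) (by rwa [S.col_eR]) f1 (by rwa [f2])
  obtain ⟨g, g1, g2, g3⟩ := cov _ f3 hk
  rcases tri (S.col g) with d | d | d
  · have : S.nxt s u z = S.rt g := g2.symm
    rwa [this, eR_rt d]
  · obtain rfl : g = f := S.eq_of_rt g2 (d.trans f2.symm)
    rcases z2 with rfl | z2
    · exact absurd f1 (fr _ g1)
    · have := congrArg S.col (hN.l _ g1 _ z2 f1)
      rw [f2, S.col_eR] at this
      exact absurd this.symm hsu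
  · exact absurd d g3

theorem lev_le {q0 q : R} {i : ℕ} (h : S.Rch t q0 i q) : S.lev t q0 q ≤ i := Nat.sInf_le h

theorem lev_spec {q0 q : R} (h : ∃ i, S.Rch t q0 i q) : S.Rch t q0 (S.lev t q0 q) q :=
  Nat.sInf_mem (s := {i | S.Rch t q0 i q}) h

theorem rch_iff (con : ∀ q, ∃ i, S.Rch t y i q) {q : R} {i : ℕ} :
    S.Rch t y i q ↔ S.lev t y q ≤ i := ⟨lev_le, fun h => (lev_spec (con q)).mono h⟩

theorem lev_zero (con : ∀ q, ∃ i, S.Rch t y i q) {q q' : R} (h : S.Rch t q 0 q') :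
    S.lev t y q' = S.lev t y q :=
  le_antisymm (lev_le ((lev_spec (con q)).trans h)) (lev_le ((lev_spec (con q')).trans h.symm))

theorem lev_flat (con : ∀ q, ∃ i, S.Rch t y i q) {e e' : E} (a : S.col e ≠ t) (b : S.col e' ≠ t)
    (c : S.lf e' = S.lf e) : S.lev t y (S.rt e') = S.lev t y (S.rt e) :=
  lev_zero con (Rch.flat e e' (Rch.refl 0) a c b)

theorem lev_arc (con : ∀ q, ∃ i, S.Rch t y i q) {e e' : E} (a : S.col e ≠ t)
    (c : S.lf e' = S.lf e) : S.lev t y (S.rt e') ≤ S.lev t y (S.rt e) + 1 :=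
  lev_le (Rch.arc e e' (lev_spec (con _)) a c)

/-- a column of positive level is entered by an edge from the level below. -/
theorem entry {i : ℕ} {q : R} (h : S.Rch t y (i + 1) q) : S.Rch t y i q ∨
    ∃ f, S.RchL t y i (S.lf f) ∧ S.Rch t (S.rt f) 0 q := by
  generalize hj : i + 1 = j at h
  induction h with
  | refl j => exact Or.inl (Rch.refl _)
  | flat e e' _ a b c ih =>
    rcases ih hj with h | ⟨f, h1, h2⟩
    · exact Or.inl (Rch.flat e e' h a b c)
    · exact Or.inr ⟨f, h1, Rch.flat e e' h2 a b c⟩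
  | arc e e' h a b _ =>
    obtain rfl : i = _ := Nat.succ_injective hj
    exact Or.inr ⟨e', b ▸ h.row a, Rch.refl 0⟩

end Sys

end Pool.Agent.Lib.MP_cc2426_co
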