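import Pool.Agent.Lib.MP_cc2426_co.Frz2
import Pool.Agent.Lib.MP_cc2426_co.JayW
import Pool.Agent.Lib.MP_cc2426_co.Jex
import Pool.Agent.Lib.MP_cc2426_co.Ball
import Pool.Agent.Lib.MP_cc2426_co.Exit
import Pool.Agent.Lib.MP_cc2426_co.Star2

/-! The normal form is impossible. -/

set_option autoImplicit false
set_option linter.unusedSectionVars false

namespace Pool.Agent.Lib.MP_cc2426_co

open Finset

variable {E L R K : Type*} [DecidableEq E] [DecidableEq L] [DecidableEq R] [DecidableEq K]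
  [Fintype L] [Fintype R]

namespace Sys

variable {S : Sys E L R K} {s u t : K} {x : L} {y : R}

theorem as_mem {r r' : L} : r' ∈ S.cmp r ↔ S.Cn r r' := by simp [cmp]

theorem as_self (r : L) : r ∈ S.cmp r := as_mem.2 Relation.ReflTransGen.refl

theorem as_cd (r : L) : S.Cd (S.cmp r) := fun e e' h he =>
  as_mem.2 ((as_mem.1 he).tail ⟨e, e', rfl, rfl, h⟩)

theorem as_sub {A : Finset L} (cA : S.Cd A) {r : L} (h : r ∈ A) : S.cmp r ⊆ A := by
  intro r' hr
  have := as_mem.1 hr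
  induction this with
  | refl => exact h
  | tail a b ih =>
    obtain ⟨e, e', rfl, rfl, c⟩ := b
    exact cA e e' c (ih (as_mem.2 a))

theorem as_compl {A : Finset L} (cA : S.Cd A) : S.Cd Aᶜ := fun e e' h he =>
  mem_compl.2 (fun hh => mem_compl.1 he (cA e' e h.symm hh))

theorem as_out {A : Finset L} (cA : S.Cd A) {r : L} (h : r ∉ A) : Disjoint A (S.cmp r) :=
  Finset.disjoint_left.2 (fun _ a b => mem_compl.1 (as_sub (as_compl cA) (mem_compl.2 h) b) a)

/-- the rows that are reached from a row form a closed set. -/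
theorem as_rch {k c : K} (hc : c ≠ k) (x : L) :
    ∃ W : Finset L, S.Cd W ∧ ∀ r, r ∈ W ↔ ∃ i, S.swap.Rch k x i r := by
  classical
  refine ⟨univ.filter (fun r => ∃ i, S.swap.Rch k x i r), ?_, fun r => by simp⟩
  set W := univ.filter (fun r => ∃ i, S.swap.Rch k x i r) with hW
  have mW : ∀ r, r ∈ W ↔ ∃ i, S.swap.Rch k x i r := fun r => by simp [hW]
  have fw : ∀ e e', S.col e ≠ k → S.rt e = S.rt e' → S.lf e ∈ W → S.lf e' ∈ W :=
    fun e e' a b h => by
      obtain ⟨i, hi⟩ := (mW _).1 h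
      exact (mW _).2 ⟨i + 1, Rch.arc (S := S.swap) e e' hi a b.symm⟩
  set f : L → L := fun r => S.lf (S.eR k (S.rt (S.eL c r))) with hf
  have fi : Function.Injective f := fun a b h => by
    have h1 : S.eR k (S.rt (S.eL c a)) = S.eR k (S.rt (S.eL c b)) :=
      S.eq_of_lf h (by rw [S.col_eR, S.col_eR])
    have h2 := congrArg S.rt h1
    rw [S.rt_eR, S.rt_eR] at h2
    have h3 := congrArg S.lf (S.eq_of_rt h2 (by rw [S.col_eL, S.col_eL]))
    rwa [S.lf_eL, S.lf_eL] at h3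
  have im : W.image f = W := eq_of_subset_of_card_le (fun z hz => by
    obtain ⟨r, hr, rfl⟩ := mem_image.1 hz
    exact fw (S.eL c r) _ (by rwa [S.col_eL]) (S.rt_eR _ _).symm (by rwa [S.lf_eL]))
    (by rw [card_image_of_injective _ fi])
  intro e e' h he
  by_cases a : S.col e = k
  · rw [← im] at he
    obtain ⟨r, hr, h1⟩ := mem_image.1 he
    have h2 : S.eR k (S.rt (S.eL c r)) = e := S.eq_of_lf h1 (by rw [S.col_eR, a])
    have h3 := congrArg S.rt h2
    rw [S.rt_eR] at h3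
    exact fw (S.eL c r) e' (by rwa [S.col_eL]) (h3.trans h) (by rwa [S.lf_eL])
  · exact fw e e' a h he

theorem as_con {k c : K} (hc : c ≠ k) {r : L} (h : r ∈ S.cmp x) : ∃ i, S.swap.Rch k x i r := by
  obtain ⟨W, w1, w2⟩ := as_rch (S := S) hc x
  exact (w2 r).1 (as_sub w1 ((w2 x).2 ⟨0, Rch.refl 0⟩) h)

theorem as_eq {r r' : L} (h : r' ∈ S.cmp r) : S.cmp r' = S.cmp r := by
  refine Subset.antisymm (as_sub (as_cd r) h) (as_sub (as_cd r') ?_)
  by_contra hh
  exact Finset.disjoint_left.1 (as_out (as_cd r') hh) (as_self r') h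

theorem as_vec {B : Finset L} {M : Finset E} {c : K} (hM : S.IsM M)
    (h : ∀ r ∈ B, S.eL c r ∈ M) (k : K) :
    S.vec (M.filter fun e => S.lf e ∈ B) k = B.card * dl c k := by
  have e1 : (M.filter fun e => S.lf e ∈ B) = B.image (S.eL c) := by
    ext e
    rw [mem_filter, mem_image]
    constructor
    · exact fun a => ⟨_, a.2, hM.l _ (h _ a.2) e a.1 (S.lf_eL _ _)⟩
    · rintro ⟨r, hr, rfl⟩
      exact ⟨h r hr, by rwa [S.lf_eL]⟩
  rw [e1]
  unfold vec
  rw [sum_image (fun a _ b _ hh => by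
    have := congrArg S.lf hh
    rwa [S.lf_eL, S.lf_eL] at this)]
  simp [S.col_eL]

/-- the normal form is impossible, given the three cases. -/
theorem noNf0 (sim : ∀ e e', S.lf e = S.lf e' → S.rt e = S.rt e' → e = e') {τ : L → R}
    {T β : K → ℕ} {A : Finset L} {M : Finset E} (h : S.Nf τ T s u t A M β)
    (hI : ∀ x ∈ A, (∀ e, S.rt e = τ x → S.lf e ∈ A) → S.Good A t (β t) (β s - β t / 2) x →
      S.Good A u (β u) (β s - β u / 2) x → S.Good A s (β s) (β u - β s / 2) x →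
      ∃ N, S.Av x (τ x) N ∧ (∀ e ∈ N, S.lf e ∈ A) ∧ ∀ k, S.vec N k = β k)
    (hJ : ∀ x ∈ A, ∀ e j, S.rt e = τ x → S.lf e ∉ A → j ≠ t → β t < (S.cmp (S.lf e)).card →
      S.Good A t (β t) (β s - β t / 2) x → ∃ N, S.Av x (τ x) N ∧
        (∀ f ∈ N, S.lf f ∈ A ∪ S.cmp (S.lf e)) ∧
        ∀ k, S.vec N k = β k + (S.cmp (S.lf e)).card * dl j k)
    (hE : ∀ B D : Finset L, S.Cd B → Disjoint A B → D ⊆ A → β u + 1 ≤ D.card →
      (∀ x ∈ D, ∀ e, S.rt e = τ x → S.lf e ∈ B) →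
      (∀ x ∈ D, S.Good A u (β u) (β s - β u / 2) x) → ∃ x ∈ D, ∃ N, S.Av x (τ x) N ∧
        (∀ f ∈ N, S.lf f ∈ A ∪ B) ∧ ∀ k, S.vec N k = β k + B.card * dl t k)
    (no : ∀ x, ¬ S.Rl x (τ x) T) : False := by
  classical
  obtain ⟨x0, m0⟩ := h.neA
  have cA : S.Cd A := h.cmpA x0 m0 ▸ as_cd x0
  have con : ∀ k, ∀ x ∈ A, ∀ r ∈ A, ∃ i, S.swap.Rch k x i r := fun k x hx r hr => by
    by_cases a : s = k
    · exact as_con (c := u) (fun b => h.su (a.trans b.symm)) (by rwa [h.cmpA x hx])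
    · exact as_con a (by rwa [h.cmpA x hx])
  obtain ⟨D, d1, d2, d3⟩ := good3 h.st h.ut h.su sim cA con h.sum h.tu h.us
  have fin : ∀ (B : Finset L) (c : K) (x : L), S.Cd B → (∀ r ∈ B, S.eL c r ∈ M) → x ∈ A →
      (∀ e, S.rt e = τ x → S.lf e ∈ A ∪ B) → ∀ N, S.Av x (τ x) N → (∀ f ∈ N, S.lf f ∈ A ∪ B) →
      (∀ k, S.vec N k = β k + B.card * dl c k) → False := fun B c x cB pB hx hy N n1 n2 n3 =>
    no x (glueF cA cB h.pm (mem_union_left _ hx) hy n1 n2 (fun k => by
      rw [as_vec h.pm.1 pB, n3, ← h.bud k]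
      ring))
  have key : ∀ x ∈ D, S.lf (S.eR t (τ x)) ∉ A ∧
      ∀ r ∈ S.cmp (S.lf (S.eR t (τ x))), S.eL t r ∈ M := by
    intro x hx
    obtain ⟨g1, g2, g3⟩ := d3 x hx
    have na : S.lf (S.eR t (τ x)) ∉ A := fun a => by
      have hy : ∀ e, S.rt e = τ x → S.lf e ∈ A := fun e he =>
        cA _ e ((S.rt_eR _ _).trans he.symm) a
      obtain ⟨N, n1, n2, n3⟩ := hI x (d1 hx) hy g1 g2 g3
      exact fin ∅ t x (fun _ _ _ b => absurd b (notMem_empty _))
        (fun _ b => absurd b (notMem_empty _)) (d1 hx) (fun e he => mem_union_left _ (hy e he)) N n1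
        (fun f hf => mem_union_left _ (n2 f hf)) (fun k => by simp [n3])
    refine ⟨na, ?_⟩
    obtain ⟨c, c1, c2⟩ := (h.hit x (d1 hx) _ (S.rt_eR t _)).resolve_left na
    by_cases a : c = t
    · exact a ▸ c1
    · obtain ⟨N, n1, n2, n3⟩ := hJ x (d1 hx) _ c (S.rt_eR t _) na a (c2.resolve_left a) g1
      exact (fin _ c x (as_cd _) c1 (d1 hx) (fun e he => mem_union_right _
        (as_cd _ _ e ((S.rt_eR _ _).trans he.symm) (as_self _))) N n1 n2 n3).elim
  set B := D.biUnion (fun x => S.cmp (S.lf (S.eR t (τ x)))) with hB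
  have cB : S.Cd B := fun e e' a b => by
    obtain ⟨x, hx, c⟩ := mem_biUnion.1 b
    exact mem_biUnion.2 ⟨x, hx, as_cd _ e e' a c⟩
  have hit : ∀ x ∈ D, ∀ e, S.rt e = τ x → S.lf e ∈ B := fun x hx e he =>
    mem_biUnion.2 ⟨x, hx, as_cd _ _ e ((S.rt_eR _ _).trans he.symm) (as_self _)⟩
  obtain ⟨x, hx, N, n1, n2, n3⟩ := hE B D cB (Finset.disjoint_left.2 (fun r a b => by
    obtain ⟨x, hx, c⟩ := mem_biUnion.1 b
    exact Finset.disjoint_left.1 (as_out cA (key x hx).1) a c)) d1 d2 hit (fun x hx => (d3 x hx).2.1)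
  exact fin B t x cB (fun r b => by
    obtain ⟨x, hx, c⟩ := mem_biUnion.1 b
    exact (key x hx).2 r c) (d1 hx) (fun e he => mem_union_right _ (hit x hx e he)) N n1 n2 n3

/-- a row that is good in all three colours, in a connected system. -/
theorem as_ins (tri : ∀ k, k = s ∨ k = u ∨ k = t) (hsu : s ≠ u) (hs : s ≠ t) (hu : u ≠ t)
    (sim : ∀ e e', S.lf e = S.lf e' → S.rt e = S.rt e' → e = e')
    (con' : ∀ k r0 r, ∃ i, S.swap.Rch k r0 i r) {T : K → ℕ}
    (hL : T s + T u + T t + 2 = Fintype.card L)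
    (na : ∀ e, S.lf e = x → S.rt e ≠ y) (tu : T t ≤ T u) (us : T u ≤ T s)
    (gt : S.Good univ t (T t) (T s - T t / 2) x) (gu : S.Good univ u (T u) (T s - T u / 2) x)
    (gs : S.Good univ s (T s) (T u - T s / 2) x) : S.Rl x y T := by
  have hn : Fintype.card L = Fintype.card R := Fintype.card_congr (S.eqv s)
  have cv : ∀ {d c : K} {τ X : ℕ}, c ≠ d → S.Good univ d τ X x → S.swap.GoodC x d τ X :=
    fun hc ⟨_, _, z2, _, _, _, g3, g4⟩ => goodC hc z2 g3 (fun r hr => g4 r (mem_univ _) hr)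
  refine insideR tri hsu hs hu con' hL na tu us (fun d hd o ho M hM n b => ?_) (cv hs gt)
    (cv hsu gu) (cv hsu.symm gs)
  have sim' : ∀ e e', S.swap.lf e = S.swap.lf e' → S.swap.rt e = S.swap.rt e' → e = e' :=
    fun e e' a b => sim e e' b a
  have na' : ∀ e, S.swap.lf e = y → S.swap.rt e ≠ x := fun e a b => na e b a
  rcases tri d with rfl | rfl | rfl
  · exact exit (S := S.swap) (s := u) (u := t) (fun k => by have := tri k; tauto) hu hsu.symm
      hs.symm sim' (con' _ x) hn.symm na' hd hM ho b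
  · exact exit (S := S.swap) (s := s) (u := t) (fun k => by have := tri k; tauto) hs hsu
      hu.symm sim' (con' _ x) hn.symm na' hd hM ho b
  · exact exit (S := S.swap) tri hsu hs hu sim' (con' _ x) hn.symm na' hd hM ho b

/-- the normal form is impossible. -/
theorem noNf (sim : ∀ e e', S.lf e = S.lf e' → S.rt e = S.rt e' → e = e') {τ : L → R}
    (inj : Function.Injective τ) (na : ∀ e, S.rt e ≠ τ (S.lf e))
    {T β : K → ℕ} {A : Finset L} {M : Finset E} (h : S.Nf τ T s u t A M β)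
    (no : ∀ x, ¬ S.Rl x (τ x) T) : False := by
  classical
  obtain ⟨x0, m0⟩ := h.neA
  have cA : S.Cd A := h.cmpA x0 m0 ▸ as_cd x0
  have con0 : ∀ z k, ∀ x ∈ S.cmp z, ∀ r ∈ S.cmp z, ∃ i, S.swap.Rch k x i r :=
    fun z k x hx r hr => by
      by_cases a : s = k
      · exact as_con (c := u) (fun b => h.su (a.trans b.symm)) (by rwa [as_eq hx])
      · exact as_con a (by rwa [as_eq hx])
  have con : ∀ k, ∀ x ∈ A, ∀ r ∈ A, ∃ i, S.swap.Rch k x i r := h.cmpA x0 m0 ▸ con0 x0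
  refine noNf0 sim h (fun x hx hy g1 g2 g3 => ?_) (fun x hx e j a b c d g => ?_)
    (fun B D cB dj d1 d2 hit g => ?_) no
  · have yD : τ x ∈ S.cols s A := by
      have := (mem_cols cA s _).1 (hy _ (S.rt_eR s _))
      rwa [S.rt_eR] at this
    have e1 : A.subtype (fun r => r ∈ A) = univ := eq_univ_of_forall (fun r => mem_subtype.2 r.2)
    refine subW cA hx yD (as_ins h.tri h.su h.st h.ut (sim_sub sim)
      (fun k => con_sub' (con k)) (by rw [Fintype.card_coe]; exact h.sum) (fun e a b => ?_)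
      h.tu h.us (e1 ▸ good_sub Subset.rfl g1) (e1 ▸ good_sub Subset.rfl g2)
      (e1 ▸ good_sub Subset.rfl g3))
    have a1 : S.lf e.1 = x := congrArg Subtype.val a
    have b1 : S.rt e.1 = τ x := congrArg Subtype.val b
    exact na e.1 (a1 ▸ b1)
  · obtain ⟨N, n1, n2, n3⟩ := jayW h.tri h.su h.st h.ut sim cA (as_cd (S.lf e)) (as_out cA b) hx
      con (con0 _) (y := τ x) (fun f hf => as_cd _ e f (a.trans hf.symm) (as_self _)) h.sum h.tu
      h.us g d c
    refine ⟨N, n1, n2, fun k => ?_⟩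
    rw [n3]
    unfold dl
    rw [Pi.single_apply]
    split_ifs <;> simp
  · have mc := mem_cols cB s
    obtain ⟨x, hx, N1, N2, r1, r2, v⟩ := ext h.tri h.su h.st h.ut (A := A) (B := S.cols s B) cA
      (fun e e' a b => (mc e').1 ((show S.lf e = S.lf e' from a) ▸ (mc e).2 b))
      (fun e a b => Finset.disjoint_left.1 dj b ((mc e).2 a)) h.sum inj d1 d2
      (fun x hx => by
        have := (mc _).1 (hit x hx _ (S.rt_eR s _))
        rwa [S.rt_eR] at this) (Nat.sub_le _ _) g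
    have b2 : ∀ f ∈ N2, S.lf f ∈ B := fun f hf => (mc f).2 (r2.2.1 f hf).1
    have sep : ∀ e ∈ N1, ∀ f ∈ N2, S.lf e ≠ S.lf f ∧ S.rt e ≠ S.rt f := fun e he f hf =>
      ⟨fun a => Finset.disjoint_left.1 dj (a ▸ (r1.2.1 e he).1) (b2 f hf),
        fun a => Finset.disjoint_left.1 dj (cA e f a (r1.2.1 e he).1) (b2 f hf)⟩
    refine ⟨x, hx, N1 ∪ N2, ⟨⟨fun e he f hf a => ?_, fun e he f hf a => ?_⟩, fun e he => ?_⟩,
      fun f hf => (mem_union.1 hf).elim (fun a => mem_union_left _ (r1.2.1 f a).1)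
        (fun a => mem_union_right _ (b2 f a)), fun k => ?_⟩
    · rcases mem_union.1 he with b | b <;> rcases mem_union.1 hf with c | c
      exacts [r1.1.l e b f c a, absurd a (sep e b f c).1, absurd a.symm (sep f c e b).1,
        r2.1.r e b f c a]
    · rcases mem_union.1 he with b | b <;> rcases mem_union.1 hf with c | c
      exacts [r1.1.r e b f c a, absurd a (sep e b f c).2, absurd a.symm (sep f c e b).2,
        r2.1.l e b f c a]
    · rcases mem_union.1 he with b | b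
      · exact ⟨(r1.2.1 e b).2, fun a =>
          Finset.disjoint_left.1 dj (r1.2.1 e b).1 (hit x hx e a)⟩
      · exact ⟨fun a => Finset.disjoint_left.1 dj (a ▸ d1 hx) (b2 e b), (r2.2.1 e b).2⟩
    · rw [vec_union (disj_of sep), Pi.add_apply, v, card_cols]

/-- some deleted pair realises the vector. -/
theorem full {a b c : K} (ab : a ≠ b) (ac : a ≠ c) (bc : b ≠ c)
    (tri : ∀ k, k = a ∨ k = b ∨ k = c)
    (sim : ∀ e e', S.lf e = S.lf e' → S.rt e = S.rt e' → e = e') {τ : L → R}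
    (inj : Function.Injective τ) (na : ∀ e, S.rt e ≠ τ (S.lf e)) {T : K → ℕ}
    (hL : T a + T b + T c + 2 = Fintype.card L)
    (con4 : ∀ A : Finset L, S.Cd A → A.Nonempty → A ≠ univ →
      ∃ x ∈ A, ∀ e, S.rt e = τ x → S.lf e ∉ A) : ∃ x, S.Rl x (τ x) T := by
  by_contra no
  obtain ⟨s, u, t, A, M, β, h⟩ := normal ab ac bc tri τ hL con4
    (starC ab ac bc tri S.cmp (fun _ _ => as_mem)) (fun x hx => no ⟨x, hx⟩)
  exact noNf sim inj na h (fun x hx => no ⟨x, hx⟩)

end Sys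

end Pool.Agent.Lib.MP_cc2426_co
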