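import Pool.Agent.Lib.MP_cc2426_co.Frz
import Pool.Agent.Lib.MP_cc2426_co.Star2

/-! The normal form with the star lemma put in. -/

set_option autoImplicit false
set_option linter.unusedSectionVars false

namespace Pool.Agent.Lib.MP_cc2426_co

open Finset

variable {E L R K : Type*} [DecidableEq E] [DecidableEq L] [DecidableEq R] [DecidableEq K]
  [Fintype L] [Fintype R]

namespace Sys

variable {S : Sys E L R K}

theorem normal2 {a b c : K} (ab : a ≠ b) (ac : a ≠ c) (bc : b ≠ c)
    (tri : ∀ k, k = a ∨ k = b ∨ k = c) (τ : L → R) {T : K → ℕ}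
    (hL : T a + T b + T c + 2 = Fintype.card L)
    (con4 : ∀ A : Finset L, S.Cd A → A.Nonempty → A ≠ univ →
      ∃ x ∈ A, ∀ e, S.rt e = τ x → S.lf e ∉ A)
    (no : ∀ x, ¬ S.Rl x (τ x) T) : ∃ s u t A M β, S.Nf τ T s u t A M β :=
  normal ab ac bc tri τ hL con4 (starC ab ac bc tri S.cmp (fun _ _ => mem_cmp)) no

end Sys

end Pool.Agent.Lib.MP_cc2426_co
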