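import Mathlib
import Pool.Agent.Lib.MP_cc2426_co.Bridge
import Pool.Agent.Lib.MP_cc2426_co.Conn
import Pool.Agent.Lib.MP_cc2426_co.Comp

/-! One edge of the fourth colour when the first three colours form a connected graph. -/

set_option autoImplicit false

namespace Pool.Agent.Lib.MP_cc2426_co.One

open Finset

theorem conn (W : Type) [Fintype W] [DecidableEq W] (σ : Fin 4 → Equiv.Perm W)
    (hd : ∀ i j, i ≠ j → ∀ x, σ i x ≠ σ j x) (a : Fin 4 → ℕ)
    (hs : (∑ i, a i) + 1 = Fintype.card W) (h1 : a 3 = 1)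
    (conn : ∀ A : Finset W, A.Nonempty → A ≠ univ →
      ¬ (A.image (σ 0) = A.image (σ 1) ∧ A.image (σ 0) = A.image (σ 2))) : Comp.Sol σ a := by
  have ne3 : ∀ s : Fin 3, s.castSucc ≠ 3 := by decide
  have inj : ∀ s u : Fin 3, s ≠ u → s.castSucc ≠ u.castSucc := by decide
  have four : ∀ i : Fin 4, i = 3 ∨ ∃ t : Fin 3, i = t.castSucc := by decide
  rw [Fin.sum_univ_four] at hs
  have hs' : a (0 : Fin 3).castSucc + a (1 : Fin 3).castSucc + a (2 : Fin 3).castSucc + 2 =
      Fintype.card W := by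
    change a 0 + a 1 + a 2 + 2 = _
    omega
  obtain ⟨x, h⟩ := Pick.pick (fun t => σ t.castSucc) (fun s u h => hd _ _ (inj s u h)) (σ 3)
    (fun t => hd _ _ (ne3 t)) (fun t => a t.castSucc) hs' conn
  obtain ⟨S, c, hx, hy, hi, hc⟩ := h.elim id (Conn.hole2 (fun t => σ t.castSucc) x (σ 3 x)
    (fun t => hd _ _ (ne3 t) x) (fun t => a t.castSucc) hs' conn)
  have nx : ∀ r ∈ S, r ≠ x := fun r hr h => hx (h ▸ hr)
  refine ⟨insert x S, fun r => if r = x then 3 else (c r).castSucc, ?_, fun i => ?_⟩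
  · intro r hr r' hr' h
    rcases mem_insert.1 (mem_coe.1 hr) with e | e <;>
      rcases mem_insert.1 (mem_coe.1 hr') with e' | e'
    · rw [e, e']
    · simp only [e, if_pos, if_neg (nx _ e')] at h
      exact absurd h.symm (hy _ e')
    · simp only [e', if_pos, if_neg (nx _ e)] at h
      exact absurd h (hy _ e)
    · simp only [if_neg (nx _ e), if_neg (nx _ e')] at h
      exact hi _ e _ e' h
  · rw [filter_insert]
    rcases four i with rfl | ⟨t, rfl⟩
    · rw [if_pos (if_pos rfl), filter_eq_empty_iff.2 (fun r hr h =>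
        ne3 _ ((if_neg (nx r hr)).symm.trans h)), h1]
      rfl
    · rw [if_neg (fun h => ne3 t (h.symm.trans (if_pos rfl))), ← hc t]
      congr 1
      exact filter_congr (fun r hr => by simp only [if_neg (nx r hr), Fin.castSucc_inj])

end Pool.Agent.Lib.MP_cc2426_co.One
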