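import Pool.Agent.Lib.MP_cc2426_co.Flip

/-! Sliding towards a perfect matching until a colour count is reached. -/

set_option autoImplicit false
set_option linter.unusedSectionVars false

namespace Pool.Agent.Lib.MP_cc2426_co

open Finset

variable {E L R K : Type*} [DecidableEq E] [DecidableEq L] [DecidableEq R] [DecidableEq K]
  [Fintype L] [Fintype R]

namespace Sys

variable {S : Sys E L R K} {s u t : K} {x : L} {y : R}

theorem Ch.mono {Q Q' : Finset E → Prop} (h : ∀ N, Q N → Q' N) {N N' : Finset E}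
    (c : S.Ch x y Q N N') : S.Ch x y Q' N N' := by
  induction c with
  | refl => exact Relation.ReflTransGen.refl
  | tail _ a ih => exact Relation.ReflTransGen.tail ih ⟨a.1, h _ a.2.1, h _ a.2.2⟩

/-- what holds after some plays of edges of `P` at the uncovered row. -/
structure Ph (S : Sys E L R K) (x : L) (y : R) (c o : K) (D : K → Prop) (tg : K → ℕ) (a : L → ℤ)
    (P N0 : Finset E) (r0 : L) (N : Finset E) (r : L) (cnt : K → ℕ) : Prop where
  ch : S.Ch x y (fun N => (∀ d, D d → S.vec N d ≤ S.vec N0 d + tg d) ∧ ∀ e ∈ N, e ∈ N0 ∨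
    ∀ d, D d → S.RchL d y (tg d) (S.lf e) ∧ S.Rch d y (tg d) (S.rt e)) N0 N
  fr : S.FrL N r
  nx : r ≠ x
  vec : ∀ d, d ≠ c → S.vec N d = S.vec N0 d + cnt d
  le : ∀ d, D d → cnt d ≤ tg d ∧ S.RchL d y (cnt d) r
  lv : a r = cnt o
  new : ∀ e ∈ N, e ∉ N0 → e ∈ P ∧ (∀ d, D d → ∃ j < tg d, S.RchL d y j (S.lf e)) ∧
    a (S.lf e) + (if S.col e = o then 1 else 0) ≤ cnt o
  inj : ∀ e ∈ N, e ∉ N0 → ∀ e' ∈ N, e' ∉ N0 → S.col e = o → S.col e' = o →
    a (S.lf e) = a (S.lf e') → e = e'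
  covL : ∀ z, z ≠ r → (z = r0 ∨ ∃ e ∈ N0, S.lf e = z) → ∃ e ∈ N, S.lf e = z
  covR : ∀ z, (∃ e ∈ N0, S.rt e = z) → ∃ e ∈ N, S.rt e = z
  keep : ∀ z, S.FrR N0 z → S.FrR N z

theorem phase {c o : K} {D : K → Prop} {tg : K → ℕ} {a : L → ℤ} {b : R → ℤ} {P N0 : Finset E}
    {r0 : L} (hP : S.Av x y P) (cP : ∀ r, r ≠ x → ∃ h ∈ P, S.lf h = r) (hD : ∀ d, D d → c ≠ d)
    (a0 : S.Av x y N0) (s0 : ∀ e ∈ N0, S.col e = c ∨ e ∈ P) (f0 : S.FrL N0 r0) (x0 : r0 ≠ x)
    (l0 : ∀ d, D d → S.RchL d y 0 r0) (p0 : a r0 = 0)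
    (fl : ∀ e, S.col e = c → b (S.rt e) = a (S.lf e))
    (ti : ∀ e ∈ P, S.col e ≠ c → b (S.rt e) = a (S.lf e) + if S.col e = o then 1 else 0)
    (cov : ∀ q, (∀ d, D d → S.Rch d y (tg d) q) → (D o → b q ≤ tg o) → q ≠ y →
      ∃ g ∈ N0, S.rt g = q) :
    ∃ N r cnt, S.Ph x y c o D tg a P N0 r0 N r cnt ∧ ∃ d, D d ∧ cnt d = tg d := by
  have q0 : (∀ d, D d → S.vec N0 d ≤ S.vec N0 d + tg d) ∧ ∀ e ∈ N0, e ∈ N0 ∨
      ∀ d, D d → S.RchL d y (tg d) (S.lf e) ∧ S.Rch d y (tg d) (S.rt e) :=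
    ⟨fun d _ => by omega, fun e he => Or.inl he⟩
  have key : ∀ k N r cnt, S.Ph x y c o D tg a P N0 r0 N r cnt → (P \ N).card = k →
      ∃ N r cnt, S.Ph x y c o D tg a P N0 r0 N r cnt ∧ ∃ d, D d ∧ cnt d = tg d := by
    intro k
    induction k using Nat.strong_induction_on with
    | _ k ih =>
      intro N r cnt H hk
      by_cases st : ∃ d, D d ∧ cnt d = tg d
      · exact ⟨N, r, cnt, H, st⟩
      have lt : ∀ d, D d → cnt d < tg d := fun d hd =>
        lt_of_le_of_ne (H.le d hd).1 (fun hh => st ⟨d, hd, hh⟩)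
      obtain ⟨h, h1, rfl⟩ := cP r H.nx
      have aN := (H.ch.av a0).1
      have w : ∀ d, D d → S.Rch d y (tg d) (S.rt h) := fun d hd =>
        (RchL.arc (H.le d hd).2).mono (lt d hd)
      obtain ⟨g, g1, g2⟩ := H.covR _ (cov _ w (fun ho => by
        have := lt o ho
        have := H.lv
        by_cases hc : S.col h = c
        · rw [fl h hc]; omega
        · rw [ti h h1 hc]; split_ifs <;> omega) (hP.2 h h1).2)
      have hN : h ∉ N := fun hh => H.fr h hh rfl
      have gP : g ∉ P := fun hh => hN (hP.1.r g hh h h1 g2 ▸ g1)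
      have g0 : g ∈ N0 := by
        by_contra hh
        exact gP (H.new g g1 hh).1
      have gc : S.col g = c := (s0 g g0).resolve_right gP
      obtain ⟨m1, m2, m3, m4, m5, m6⟩ := aN.mvL H.nx H.fr g1 g2.symm
      have hc : S.col h ≠ c := fun hh => m6 (gc.trans hh.symm)
      have t1 := ti h h1 hc
      have t2 := fl g gc
      have t3 := H.lv
      have vv : ∀ d, d ≠ c → S.vec (insert h (N.erase g)) d =
          S.vec N0 d + ((cnt d + if S.col h = d then 1 else 0 : ℕ) : ℤ) := by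
        intro d hd
        have e1 := congrFun m3 d
        have e2 := H.vec d hd
        rw [Pi.add_apply, Pi.add_apply, dl_ne (gc ▸ hd.symm)] at e1
        by_cases e : S.col h = d
        · rw [e, dl_self] at e1; rw [if_pos e]; push_cast; omega
        · rw [dl_ne e] at e1; rw [if_neg e]; push_cast; omega
      have ll : ∀ d, D d → (cnt d + if S.col h = d then 1 else 0) ≤ tg d := fun d hd => by
        have := lt d hd
        split_ifs <;> omega
      refine ih _ (hk ▸ Ctx.lt_step h1 hN gP) _ (S.lf g)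
        (fun d => cnt d + if S.col h = d then 1 else 0) ⟨H.ch.snoc a0 q0 H.nx H.fr g1 g2.symm
          ⟨fun d hd => ?_, fun e he => ?_⟩, m4, (aN.2 g g1).1, vv, fun d hd => ⟨ll d hd, ?_⟩, ?_,
          fun e he h0 => ?_, fun e he h0 e' he' h0' c1 c2 c3 => ?_, fun z z1 z2 => ?_,
          fun z hz => ?_, fun z hz => m5 z (H.keep z hz)⟩ rfl
      · have := vv d (hD d hd).symm
        have := ll d hd
        omega
      · rcases mem_insert.1 he with rfl | he
        · exact Or.inr (fun d hd => ⟨(H.le d hd).2.mono (H.le d hd).1, w d hd⟩)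
        · exact (H.ch.last q0).2 e (mem_erase.1 he).2
      · refine Rch.row ?_ (gc ▸ hD d hd)
        rw [g2]
        split_ifs with e
        · exact RchL.arc (H.le d hd).2
        · exact RchL.flat (H.le d hd).2 e
      · rw [← t2, g2, t1, t3]; push_cast; rfl
      · rcases mem_insert.1 he with rfl | he
        · exact ⟨h1, fun d hd => ⟨_, lt d hd, (H.le d hd).2⟩, by rw [t3]; push_cast; rfl⟩
        · obtain ⟨b1, b2, b3⟩ := H.new e (mem_erase.1 he).2 h0
          exact ⟨b1, b2, b3.trans (by push_cast; split_ifs <;> omega)⟩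
      · rcases mem_insert.1 he with k1 | k1 <;> rcases mem_insert.1 he' with k2 | k2
        · rw [k1, k2]
        · have := (H.new e' (mem_erase.1 k2).2 h0').2.2
          rw [if_pos c2, ← c3, k1] at this
          omega
        · have := (H.new e (mem_erase.1 k1).2 h0).2.2
          rw [if_pos c1, c3, k2] at this
          omega
        · exact H.inj e (mem_erase.1 k1).2 h0 e' (mem_erase.1 k2).2 h0' c1 c2 c3
      · by_cases hz : z = S.lf h
        · exact ⟨h, mem_insert_self _ _, hz.symm⟩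
        · obtain ⟨e, e1, e2⟩ := H.covL z hz z2
          exact ⟨e, mem_insert_of_mem (mem_erase.2 ⟨fun hh => z1 (by rw [← e2, hh]), e1⟩), e2⟩
      · obtain ⟨e, e1, e2⟩ := H.covR z hz
        by_cases hh : e = g
        · exact ⟨h, mem_insert_self _ _, by rw [← g2, ← hh, e2]⟩
        · exact ⟨e, mem_insert_of_mem (mem_erase.2 ⟨hh, e1⟩), e2⟩
  exact key _ N0 r0 (fun _ => 0) ⟨Relation.ReflTransGen.refl, f0, x0, fun d _ => by simp,
    fun d hd => ⟨Nat.zero_le _, l0 d hd⟩, by simpa using p0, fun e a b => absurd a b,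
    fun e a b => absurd a b, fun z a b => b.resolve_left a, fun _ h => h, fun _ h => h⟩ rfl

open Classical in
/-- rows within `τ` edges of colour `t` from `y` or to `x`. -/
noncomputable def near (S : Sys E L R K) (x : L) (y : R) (t : K) (τ : ℕ) : Finset L :=
  univ.filter (fun r => S.RchL t y τ r ∨ S.swap.Rch t x τ r)

/-- both ends are near. -/
def Nb (S : Sys E L R K) (x : L) (y : R) (t : K) (τ : ℕ) (e : E) : Prop :=
  S.lf e ∈ S.near x y t τ ∧ (S.Rch t y τ (S.rt e) ∨ S.swap.RchL t x τ (S.rt e))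

/-- the edges of colour `c` at the rows of `Z`, without those at `x` and `y`. -/
def base (S : Sys E L R K) (x : L) (y : R) (c : K) (Z : Finset L) : Finset E :=
  S.cut x y (Z.image (S.eL c))

/-- from colour `c` on the near rows one reaches `τ` edges of colour `t` with at most `n` edges of
colour `o`, on the way to a perfect matching. -/
def Adm (S : Sys E L R K) (x : L) (y : R) (t : K) (τ : ℕ) (c o : K) (n : ℤ) : Prop :=
  ∃ X P, S.Ch x y (fun N => S.vec N t ≤ τ ∧ ∀ e ∈ N, S.Nb x y t τ e)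
    (S.base x y c (S.near x y t τ)) X ∧ S.Av x y P ∧ P.card + 1 = Fintype.card R ∧
    (∀ e ∈ X, S.col e = t → e ∈ P) ∧ S.vec X t = τ ∧ S.vec X o ≤ n

theorem mem_near {τ : ℕ} {r : L} :
    r ∈ S.near x y t τ ↔ S.RchL t y τ r ∨ S.swap.Rch t x τ r := by simp [near]

theorem mem_base {c : K} {Z : Finset L} {e : E} :
    e ∈ S.base x y c Z ↔ S.col e = c ∧ S.lf e ∈ Z ∧ S.lf e ≠ x ∧ S.rt e ≠ y := by
  unfold base cut
  rw [mem_filter, mem_image]
  constructor
  · rintro ⟨⟨r, hr, rfl⟩, h⟩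
    exact ⟨S.col_eL _ _, by rwa [S.lf_eL], h⟩
  · exact fun h => ⟨⟨_, h.2.1, eL_lf h.1⟩, h.2.2⟩

theorem av_base {c : K} {Z : Finset L} : S.Av x y (S.base x y c Z) :=
  ⟨⟨fun _ he _ hf hh => S.eq_of_lf hh ((mem_base.1 he).1.trans (mem_base.1 hf).1.symm),
    fun _ he _ hf hh => S.eq_of_rt hh ((mem_base.1 he).1.trans (mem_base.1 hf).1.symm)⟩,
    fun _ he => (mem_base.1 he).2.2⟩

theorem nb_iff {τ : ℕ} {e : E} (h : S.col e ≠ t) : S.lf e ∈ S.near x y t τ ↔
    S.Rch t y τ (S.rt e) ∨ S.swap.RchL t x τ (S.rt e) := by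
  rw [mem_near]
  exact or_congr ⟨fun a => a.flat h, fun a => a.row h⟩
    ⟨fun a => Rch.row (S := S.swap) a h, fun a => RchL.flat (S := S.swap) a h⟩

theorem Adm.mono {τ : ℕ} {c o : K} {n n' : ℤ} (h : S.Adm x y t τ c o n) (hn : n ≤ n') :
    S.Adm x y t τ c o n' := by
  obtain ⟨X, P, a1, a2, a3, a4, a5, a6⟩ := h
  exact ⟨X, P, a1, a2, a3, a4, a5, a6.trans hn⟩

theorem Av.cov {P : Finset E} (h : S.Av x y P) (hc : P.card + 1 = Fintype.card L) (r : L)
    (hr : r ≠ x) : ∃ e ∈ P, S.lf e = r := by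
  by_contra hne
  push Not at hne
  have := card_bound (S := S) (A := P.image S.col) (FL := {x}) (FR := {y}) h.1
    (fun e he => ⟨mem_image_of_mem _ he, by simpa using (h.2 e he).1, by simpa using (h.2 e he).2⟩)
    {r} (by
      intro z hz
      rw [mem_singleton.1 hz]; exact ⟨by simpa using hr, hne⟩)
  simp only [card_singleton] at this
  omega

/-- the first part of a slide, from one colour on the near rows. -/
theorem phase1 {c o : K} {τ i : ℕ} (hc : c ≠ t) (hx : ¬ S.RchL t y τ x) (hi : i ≤ τ)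
    {P : Finset E} (hP : S.Av x y P) (cP : P.card + 1 = Fintype.card L) {a : L → ℤ} {b : R → ℤ}
    (p0 : b y = 0) (fl : ∀ e, S.col e = c → b (S.rt e) = a (S.lf e))
    (ti : ∀ e ∈ P, S.col e ≠ c → b (S.rt e) = a (S.lf e) + if S.col e = o then 1 else 0) :
    ∃ N r cnt, S.Ph x y c o (· = t) (fun _ => i) a P (S.base x y c (S.near x y t τ))
      (S.lf (S.eR c y)) N r cnt ∧ cnt t = i ∧ S.vec N t = i ∧
      S.Ch x y (fun N => S.vec N t ≤ τ ∧ ∀ e ∈ N, S.Nb x y t τ e)
        (S.base x y c (S.near x y t τ)) N ∧ (∀ e ∈ N, S.col e = c ∨ e ∈ P) := by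
  have l0 : S.RchL t y 0 (S.lf (S.eR c y)) :=
    ⟨_, rfl, by rwa [S.col_eR], by rw [S.rt_eR]; exact Rch.refl 0⟩
  have v0 : S.vec (S.base x y c (S.near x y t τ)) t = 0 :=
    vec_zero (fun e he => (mem_base.1 he).1 ▸ hc)
  obtain ⟨N, r, cnt, H, d, rfl, h2⟩ := phase (D := (· = t)) (tg := fun _ => i) (o := o)
    (N0 := S.base x y c (S.near x y t τ)) (r0 := S.lf (S.eR c y)) hP (hP.cov cP)
    (fun d hd => hd ▸ hc) av_base (fun e he => Or.inl (mem_base.1 he).1)
    (fun e he hh => (mem_base.1 he).2.2.2 (by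
      rw [S.eq_of_lf hh ((mem_base.1 he).1.trans (S.col_eR _ _).symm), S.rt_eR]))
    (fun hh => hx (hh ▸ l0.mono (Nat.zero_le _))) (fun d hd => hd ▸ l0)
    (by rw [← fl _ (S.col_eR _ _), S.rt_eR, p0]) fl ti (fun q h1 _ h3 => by
      have h4 : S.RchL t y τ (S.lf (S.eR c q)) :=
        Rch.row (by rw [S.rt_eR]; exact (h1 t rfl).mono hi) (by rwa [S.col_eR])
      exact ⟨S.eR c q, mem_base.2 ⟨S.col_eR _ _, mem_near.2 (Or.inl h4), fun hh => hx (hh ▸ h4),
        by rwa [S.rt_eR]⟩, S.rt_eR _ _⟩)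
  have k1 : S.Ch x y (fun N => S.vec N d ≤ τ ∧ ∀ e ∈ N, S.Nb x y d τ e)
      (S.base x y c (S.near x y d τ)) N := by
    refine Ch.mono ?_ H.ch
    intro M hM
    refine ⟨?_, fun e he => ?_⟩
    · have := hM.1 d rfl
      simp only [v0] at this
      omega
    · rcases hM.2 e he with h | h
      · have := mem_base.1 h
        exact ⟨this.2.1, (nb_iff (this.1 ▸ hc)).1 this.2.1⟩
      · exact ⟨mem_near.2 (Or.inl ((h d rfl).1.mono hi)), Or.inl ((h d rfl).2.mono hi)⟩
  refine ⟨N, r, cnt, H, h2, by rw [H.vec d hc.symm, v0, h2, zero_add], k1, fun e he => ?_⟩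
  by_cases h : e ∈ S.base x y c (S.near x y d τ)
  · exact Or.inl (mem_base.1 h).1
  · exact Or.inr (H.new e he h).1

theorem vec_le {N P : Finset E} {o : K} (h : ∀ e ∈ N, S.col e = o → e ∈ P) :
    S.vec N o ≤ S.vec P o := by
  rw [vec_apply, vec_apply]
  exact_mod_cast card_le_card (fun e he => mem_filter.2
    ⟨h e (mem_filter.1 he).1 (mem_filter.1 he).2, (mem_filter.1 he).2⟩)

theorem admA {c o : K} {τ : ℕ} (hc : c ≠ t) (ho : o ≠ c) (hx : ¬ S.RchL t y τ x)
    (hn : Fintype.card L = Fintype.card R) {P : Finset E} (hP : S.Av x y P)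
    (cP : P.card + 1 = Fintype.card R) : S.Adm x y t τ c o (S.vec P o) := by
  obtain ⟨N, r, cnt, -, -, h2, h3, h4⟩ := phase1 (o := c) (a := fun _ => 0) (b := fun _ => 0) hc hx
    le_rfl hP (hn ▸ cP) rfl (fun _ _ => rfl) (fun e _ h => by rw [if_neg h]; rfl)
  exact ⟨N, P, h3, hP, cP, fun e he h => (h4 e he).resolve_left (fun hh => hc (hh.symm.trans h)),
    h2, vec_le (fun e he h => (h4 e he).resolve_left (fun hh => ho (h.symm.trans hh)))⟩

end Sys

end Pool.Agent.Lib.MP_cc2426_co
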