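import Pool.Agent.Lib.MP_cc2426_co.Fail

/-! Walks of colour vectors of matchings with one column deleted. -/

set_option autoImplicit false
set_option linter.unusedSectionVars false

namespace Pool.Agent.Lib.MP_cc2426_co

open Finset

variable {E L R K : Type*} [DecidableEq E] [DecidableEq L] [DecidableEq R] [DecidableEq K]
  [Fintype L] [Fintype R]

/-- joined by unit steps inside `P`. -/
def Wlk (P : (K → ℤ) → Prop) : (K → ℤ) → (K → ℤ) → Prop :=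
  Relation.ReflTransGen (fun v w => (∃ a b, w + dl a = v + dl b) ∧ P v ∧ P w)

namespace Wlk

variable {P Q : (K → ℤ) → Prop} {v w z : K → ℤ}

theorem rfl' : Wlk P v v := Relation.ReflTransGen.refl

theorem trans (h : Wlk P v w) (h' : Wlk P w z) : Wlk P v z := Relation.ReflTransGen.trans h h'

theorem snoc (h : Wlk P v w) {a b : K} (e : z + dl a = w + dl b) (p : P w) (q : P z) :
    Wlk P v z := Relation.ReflTransGen.tail h ⟨⟨a, b, e⟩, p, q⟩

theorem symm (h : Wlk P v w) : Wlk P w v := by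
  induction h with
  | refl => exact rfl'
  | tail _ b ih =>
    obtain ⟨⟨a, c, e⟩, p, q⟩ := b
    exact (rfl'.snoc e.symm q p).trans ih

theorem last (h : Wlk P v w) (p : P v) : P w := by
  induction h with
  | refl => exact p
  | tail _ b _ => exact b.2.2

theorem mono (hP : ∀ v, P v → Q v) (h : Wlk P v w) : Wlk Q v w := by
  induction h with
  | refl => exact rfl'
  | tail _ b ih => exact Relation.ReflTransGen.tail ih ⟨b.1, hP _ b.2.1, hP _ b.2.2⟩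

theorem ivt (h : Wlk P v w) (p : P v) {k : K} {c : ℤ} (h1 : v k ≤ c) (h2 : c ≤ w k) :
    ∃ z, Wlk P v z ∧ P z ∧ z k = c := by
  induction h with
  | refl => exact ⟨v, rfl', p, le_antisymm h1 h2⟩
  | @tail w z h b ih =>
    by_cases h3 : c ≤ w k
    · exact ih h3
    · obtain ⟨⟨a, d, e⟩, -, q⟩ := id b
      have e1 := congrFun e k
      have := Sys.dl_nn a k
      have := Sys.dl_le d k
      simp only [Pi.add_apply] at e1
      exact ⟨z, Relation.ReflTransGen.tail h b, q, by omega⟩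

theorem line {a b : K} (n : ℕ) (h : ∀ j ≤ n, P (v + (j : ℤ) • (dl a - dl b))) :
    Wlk P v (v + (n : ℤ) • (dl a - dl b)) := by
  induction n with
  | zero => simpa using rfl'
  | succ n ih =>
    refine (ih fun j hj => h j (by omega)).snoc (a := b) (b := a) ?_ (h n (by omega))
      (h (n + 1) le_rfl)
    push_cast
    module

end Wlk

namespace Sys

/-- colour vectors of the matchings that cover the columns of `Y` other than `y`. -/
def Hol (S : Sys E L R K) (Y : Finset R) (y : R) (v : K → ℤ) : Prop :=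
  ∃ N, S.IsM N ∧ (∀ e ∈ N, S.rt e ∈ Y ∧ S.rt e ≠ y) ∧ N.card + 1 = Y.card ∧ S.vec N = v

def St1 (S : Sys E L R K) (Y : Finset R) (y : R) (t : K) (τ : ℕ) (N : Finset E) : Prop :=
  S.IsM N ∧ (∀ e ∈ N, S.rt e ∈ Y ∧ S.rt e ≠ y) ∧ N.card + 1 = Y.card ∧ S.vec N t ≤ τ

def Lo1 (S : Sys E L R K) (Y : Finset R) (y : R) (t : K) (τ : ℕ) (v : K → ℤ) : Prop :=
  S.Hol Y y v ∧ v t ≤ τ

def bs1 (S : Sys E L R K) (Y : Finset R) (y : R) (s u : K) (Z : Finset R) : Finset E :=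
  (Y.erase y).image (fun q => S.eR (if q ∈ Z then u else s) q)

variable {S : Sys E L R K} {s u t : K} {y : R} {Y : Finset R} {τ : ℕ}

theorem St1.lo {N : Finset E} (h : S.St1 Y y t τ N) : S.Lo1 Y y t τ (S.vec N) :=
  ⟨⟨N, h.1, h.2.1, h.2.2.1, rfl⟩, h.2.2.2⟩

theorem St1.mv {N : Finset E} (h : S.St1 Y y t τ N) {f g : E} (h2 : S.FrL N (S.lf f)) (hg : g ∈ N)
    (h3 : S.rt f = S.rt g) (h4 : S.vec (insert f (N.erase g)) t ≤ τ) :
    S.St1 Y y t τ (insert f (N.erase g)) ∧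
      S.vec (insert f (N.erase g)) + dl (S.col g) = S.vec N + dl (S.col f) := by
  have m := mv0 h.1 h2 hg h3
  refine ⟨⟨m.1, fun e he => ?_, by rw [m.2.1, h.2.2.1], h4⟩, funext m.2.2.1⟩
  rcases mem_insert.1 he with rfl | he
  · rw [h3]; exact h.2.1 g hg
  · exact h.2.1 e (mem_erase.1 he).2

theorem eR_inj (c : K) : Function.Injective (S.eR c) := fun q q' hh => by
  rw [← S.rt_eR c q, hh, S.rt_eR]

theorem St1.flip (hs : s ≠ t) (hu : u ≠ t) {N : Finset E} (h : S.St1 Y y t τ N) {D : Finset R}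
    (cl : ∀ q ∈ D, ∀ q', S.Rch t q 0 q' → q' ∈ D) (hD : ∀ q ∈ D, S.eR s q ∈ N) :
    S.Lo1 Y y t τ (S.vec N + (D.card : ℤ) • (dl u - dl s)) := by
  have sub : D.image (S.eR s) ⊆ N := fun e he => by
    obtain ⟨q, hq, rfl⟩ := mem_image.1 he
    exact hD q hq
  have cu : ∀ e ∈ D.image (S.eR u), S.col e = u ∧ S.rt e ∈ D := fun e he => by
    obtain ⟨q, hq, rfl⟩ := mem_image.1 he
    exact ⟨S.col_eR _ _, by rwa [S.rt_eR]⟩
  have cs : ∀ e ∈ D.image (S.eR s), S.col e = s := fun e he => by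
    obtain ⟨q, hq, rfl⟩ := mem_image.1 he
    exact S.col_eR _ _
  have dj : ∀ e ∈ N \ D.image (S.eR s), ∀ f ∈ D.image (S.eR u),
      S.lf e ≠ S.lf f ∧ S.rt e ≠ S.rt f := by
    intro e he f hf
    obtain ⟨a, b⟩ := mem_sdiff.1 he
    obtain ⟨c, d⟩ := cu f hf
    constructor
    · intro hh
      have g1 : S.rt (S.eL s (S.lf f)) ∈ D := cl _ d _ (Rch.flat f _ (Rch.refl 0) (c ▸ hu)
        (S.lf_eL _ _) (by rwa [S.col_eL]))
      have g2 := eR_rt (S := S) (e := S.eL s (S.lf f)) (S.col_eL _ _)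
      refine b (mem_image.2 ⟨_, g1, ?_⟩)
      refine h.1.l _ (hD _ g1) e a ?_
      rw [g2, S.lf_eL, hh]
    · intro hh
      exact b (mem_image.2 ⟨_, d, h.1.r _ (hD _ d) e a (by rw [S.rt_eR, hh])⟩)
  have v : S.vec ((N \ D.image (S.eR s)) ∪ D.image (S.eR u)) =
      S.vec N + (D.card : ℤ) • (dl u - dl s) := by
    rw [vec_union (disj_of dj), ← vec_sdiff sub, vec_const cs, vec_const (fun e he => (cu e he).1),
      card_image_of_injective _ (eR_inj s), card_image_of_injective _ (eR_inj u)]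
    module
  refine ⟨⟨_, (h.1.mono sdiff_subset).union ⟨fun e he f hf hh => S.eq_of_lf hh
    ((cu e he).1.trans (cu f hf).1.symm), fun e he f hf hh => S.eq_of_rt hh
    ((cu e he).1.trans (cu f hf).1.symm)⟩ dj, fun e he => ?_, ?_, v⟩, ?_⟩
  · rcases mem_union.1 he with he | he
    · exact h.2.1 e (mem_sdiff.1 he).1
    · have := h.2.1 _ (hD _ (cu e he).2)
      rwa [S.rt_eR] at this
  · rw [card_union_of_disjoint (disj_of dj), card_image_of_injective _ (eR_inj u),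
      ← card_image_of_injective D (eR_inj (S := S) s), card_sdiff_add_card_eq_card sub, h.2.2.1]
  · have := h.2.2.2
    simp only [Pi.add_apply, Pi.smul_apply, Pi.sub_apply, dl_ne hs, dl_ne hu]
    simpa using this

theorem St1.slide (tri : ∀ k, k = s ∨ k = u ∨ k = t) (hsu : s ≠ u) (hs : s ≠ t) (hu : u ≠ t)
    {N : Finset E} (h : S.St1 Y y t τ N) {κ : R}
    (all : ∀ q, S.Rch t κ 0 q → q ≠ κ → S.eR s q ∈ N) (fr : S.FrL N (S.lf (S.eR s κ)))
    (no : ∀ g ∈ N, S.rt g = κ → S.col g = t) {j : ℕ} (hj : j + 1 ≤ (S.cy t κ).card) :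
    S.Lo1 Y y t τ (S.vec N + (j : ℤ) • (dl u - dl s)) := by
  obtain ⟨M, ⟨b1, b2, b3, b6, b7⟩, b4, b5⟩ := cyc (S := S) tri hs hu (κ := κ)
    (I := fun M => S.St1 Y y t τ M ∧ (∀ g ∈ M, S.rt g = κ → S.col g = t) ∧
      (∀ k ∈ N, ¬ (S.col k ≠ t ∧ S.Rch t κ 0 (S.rt k)) → k ∈ M) ∧
      Wlk (fun v => S.Lo1 Y y t τ v ∧ v t = S.vec N t ∧ v s + v u = S.vec N s + S.vec N u)
        (S.vec N) (S.vec M) ∧ S.vec M t = S.vec N t ∧
      S.vec M s + S.vec M u = S.vec N s + S.vec N u) (by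
      rintro M f g ⟨m1, m2, m3, m4, m5, m6⟩ c1 c2 c3 c4 c5 c6
      have m := mv0 m1.1 c1 c2 c3
      have w := m.2.2.1 t
      have w1 := m.2.2.1 s
      have w2 := m.2.2.1 u
      have w' := m1.2.2.2
      rw [dl_ne c4, dl_ne c5] at w
      have d : ∀ k, k ≠ t → dl k s + dl k u = 1 := fun k hk => by
        rcases tri k with rfl | rfl | rfl
        · rw [dl_self, dl_ne hsu]; rfl
        · rw [dl_self, dl_ne hsu.symm]; rfl
        · exact absurd rfl hk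
      have d1 := d _ c4
      have d2 := d _ c5
      obtain ⟨a1, a2⟩ := m1.mv c1 c2 c3 (by omega)
      refine ⟨⟨a1, fun k k1 k2 => ?_, fun k k1 hk => ?_, m4.snoc a2 ⟨m1.lo, m5, m6⟩
        ⟨a1.lo, by omega, by omega⟩, by omega, by omega⟩, m.2.2.2⟩
      · rcases mem_insert.1 k1 with rfl | k1
        · exact absurd (m2 g c2 (c3 ▸ k2)) c5
        · exact m2 k (mem_erase.1 k1).2 k2
      · exact mem_insert_of_mem (mem_erase.2 ⟨fun hh => hk (hh ▸ ⟨c5, c3 ▸ c6⟩), m3 k k1 hk⟩))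
    ⟨h, no, fun _ a _ => a, Wlk.rfl', rfl, rfl⟩ (e := S.eR s κ) (S.rt_eR _ _)
    (by rwa [S.col_eR]) fr (fun q a b => ⟨_, all q a b, S.rt_eR _ _, by rwa [S.col_eR]⟩)
    (r := S.lf (S.eR u κ)) ⟨_, rfl, by rwa [S.col_eR], by rw [S.rt_eR]; exact Rch.refl 0⟩
  have out : ∀ k ∈ N, S.col k = u → ¬ S.Rch t κ 0 (S.rt k) := fun k k1 k2 k3 => by
    by_cases hk : S.rt k = κ
    · exact hu (k2 ▸ no k k1 hk)
    · have := congrArg S.col (h.1.r k k1 _ (all _ k3 hk) (S.rt_eR _ _).symm)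
      rw [k2, S.col_eR] at this
      exact hsu this.symm
  have cnt : S.vec N u + (S.cy t κ).card ≤ S.vec M u + 1 := by
    have sub : N.filter (fun e => S.col e = u) ∪ ((S.cy t κ).erase κ).image (S.eR u) ⊆
        M.filter (fun e => S.col e = u) := fun e he => by
      rcases mem_union.1 he with he | he
      · obtain ⟨a, b⟩ := mem_filter.1 he
        exact mem_filter.2 ⟨b3 e a (fun hh => out e a b hh.2), b⟩
      · obtain ⟨q, hq, rfl⟩ := mem_image.1 he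
        obtain ⟨a, b⟩ := mem_erase.1 hq
        exact mem_filter.2 ⟨(cyc_end (s := u) (u := s) (fun k => by have := tri k; tauto) hu hs
          hsu.symm b1.1 b4 b5 (mem_cy.1 b)).resolve_left a, S.col_eR _ _⟩
    have dj : Disjoint (N.filter (fun e => S.col e = u)) (((S.cy t κ).erase κ).image (S.eR u)) :=
      disjoint_left.2 fun e he he' => by
        obtain ⟨q, hq, rfl⟩ := mem_image.1 he'
        refine out _ (mem_filter.1 he).1 (mem_filter.1 he).2 ?_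
        rw [S.rt_eR]
        exact mem_cy.1 (mem_erase.1 hq).2
    have c := card_le_card sub
    rw [card_union_of_disjoint dj, card_image_of_injective _ (eR_inj u)] at c
    have c2 := card_erase_add_one (mem_cy.2 (Rch.refl 0) : κ ∈ S.cy t κ)
    rw [vec_apply, vec_apply]
    omega
  obtain ⟨z, -, ⟨z1, z2, z3⟩, z4⟩ := b6.ivt ⟨h.lo, rfl, rfl⟩ (k := u) (c := S.vec N u + j)
    (by omega) (by omega)
  convert z1 using 1
  funext k
  simp only [Pi.add_apply, Pi.smul_apply, Pi.sub_apply, smul_eq_mul]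
  rcases tri k with rfl | rfl | rfl
  · rw [dl_self, dl_ne hsu.symm]; omega
  · rw [dl_self, dl_ne hsu]; omega
  · rw [dl_ne hs, dl_ne hu]; omega

theorem mem_bs1 {Z : Finset R} {e : E} : e ∈ S.bs1 Y y s u Z ↔
    (S.rt e ≠ y ∧ S.rt e ∈ Y) ∧ S.col e = if S.rt e ∈ Z then u else s := by
  unfold bs1
  rw [mem_image]
  constructor
  · rintro ⟨q, hq, rfl⟩
    rw [S.col_eR, S.rt_eR]
    exact ⟨mem_erase.1 hq, rfl⟩
  · intro h
    exact ⟨S.rt e, mem_erase.2 h.1, eR_rt h.2⟩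

theorem nt_bs1 (hs : s ≠ t) (hu : u ≠ t) {Z : Finset R} {e : E} (he : e ∈ S.bs1 Y y s u Z) :
    S.col e ≠ t := by
  rw [(mem_bs1.1 he).2]
  split_ifs
  exacts [hu, hs]

theorem s_bs1 {Z : Finset R} {q : R} (h1 : q ≠ y) (h2 : q ∈ Y) (h3 : q ∉ Z) :
    S.eR s q ∈ S.bs1 Y y s u Z :=
  mem_bs1.2 (by rw [S.rt_eR, S.col_eR, if_neg h3]; exact ⟨⟨h1, h2⟩, rfl⟩)

theorem inj_bs1 (Z : Finset R) :
    Function.Injective (fun q => S.eR (if q ∈ Z then u else s) q) := fun q q' hh => by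
  have := congrArg S.rt hh
  simpa only [S.rt_eR] using this

theorem st_bs1 (hs : s ≠ t) (hu : u ≠ t) (hy : y ∈ Y) {Z : Finset R}
    (cl : ∀ q ∈ Z, ∀ q', S.Rch t q 0 q' → q' ∈ Z) : S.St1 Y y t τ (S.bs1 Y y s u Z) := by
  refine ⟨⟨fun e he f hf h => S.eq_of_lf h ?_, fun e he f hf h => S.eq_of_rt h ?_⟩,
    fun e he => (mem_bs1.1 he).1.symm, ?_, ?_⟩
  · have i : S.rt e ∈ Z ↔ S.rt f ∈ Z :=
      ⟨fun a => cl _ a _ (Rch.flat e f (Rch.refl 0) (nt_bs1 hs hu he) h.symm (nt_bs1 hs hu hf)),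
        fun a => cl _ a _ (Rch.flat f e (Rch.refl 0) (nt_bs1 hs hu hf) h (nt_bs1 hs hu he))⟩
    rw [(mem_bs1.1 he).2, (mem_bs1.1 hf).2]
    simp only [i]
  · rw [(mem_bs1.1 he).2, (mem_bs1.1 hf).2, h]
  · rw [bs1, card_image_of_injective _ (inj_bs1 Z), card_erase_add_one hy]
  · rw [vec_zero fun e he => nt_bs1 hs hu he]
    omega

theorem vec_bs1 (hy : y ∈ Y) {Z : Finset R} (hZ : Z ⊆ Y.erase y) :
    S.vec (S.bs1 Y y s u Z) = ((Y.card : ℤ) - 1) • dl s + (Z.card : ℤ) • (dl u - dl s) := by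
  have e : ∀ q, dl (S.col (S.eR (if q ∈ Z then u else s) q)) =
      dl s + if q ∈ Z then dl u - dl s else 0 := fun q => by
    rw [S.col_eR]
    split_ifs <;> simp
  have c := card_erase_add_one hy
  unfold vec bs1
  rw [sum_image (fun q _ q' _ hh => inj_bs1 Z hh)]
  simp only [e]
  rw [sum_add_distrib, sum_ite_mem, inter_eq_right.2 hZ, sum_const, sum_const, ← c]
  push_cast
  module

theorem fr_bs1 (hs : s ≠ t) (hu : u ≠ t) {Z : Finset R}
    (cl : ∀ q ∈ Z, ∀ q', S.Rch t q 0 q' → q' ∈ Z) (hZ : y ∉ Z) :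
    S.FrL (S.bs1 Y y s u Z) (S.lf (S.eR s y)) := fun e he hh => by
  have a : S.rt e ∉ Z := fun b => hZ (by
    have := cl _ b _ (Rch.flat e (S.eR s y) (Rch.refl 0) (nt_bs1 hs hu he) hh.symm
      (by rwa [S.col_eR]))
    rwa [S.rt_eR] at this)
  have b := (mem_bs1.1 he).2
  rw [if_neg a] at b
  exact (mem_bs1.1 he).1.1 (by rw [S.eq_of_lf hh (b.trans (S.col_eR _ _).symm), S.rt_eR])

theorem slide0 (tri : ∀ k, k = s ∨ k = u ∨ k = t) (hsu : s ≠ u) (hs : s ≠ t) (hu : u ≠ t)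
    (hY : ∀ q, S.Rch t y τ q → q ∈ Y) {Z : Finset R}
    (cl : ∀ q ∈ Z, ∀ q', S.Rch t q 0 q' → q' ∈ Z) (hZ : y ∉ Z) {j : ℕ}
    (hj : j + 1 ≤ (S.cy t y).card) :
    S.Lo1 Y y t τ (S.vec (S.bs1 Y y s u Z) + (j : ℤ) • (dl u - dl s)) :=
  (st_bs1 hs hu (hY y (Rch.refl _)) cl).slide tri hsu hs hu (κ := y) (fun q a b =>
    s_bs1 b (hY q (a.mono (Nat.zero_le _))) fun c => hZ (cl q c y a.symm)) (fr_bs1 hs hu cl hZ)
    (fun _ a b => absurd b (mem_bs1.1 a).1.1) hj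

theorem flipD (tri : ∀ k, k = s ∨ k = u ∨ k = t) (hsu : s ≠ u) (hs : s ≠ t) (hu : u ≠ t)
    (hY : ∀ q, S.Rch t y τ q → q ∈ Y) {Z : Finset R}
    (cl : ∀ q ∈ Z, ∀ q', S.Rch t q 0 q' → q' ∈ Z) (hZ : y ∉ Z) {q0 q1 : R}
    (h0 : S.Rch t y τ q0) (n0 : q0 ∉ Z) (n1 : q1 ∉ Z) (y1 : ¬ S.Rch t y 0 q1)
    (hD : S.cy t q1 ⊆ Y)
    (h : q0 = q1 ∨ ¬ S.Rch t y τ q1 ∧ (S.cy t q1).card ≤ (S.cy t q0).card) :
    Wlk (S.Lo1 Y y t τ) (S.vec (S.bs1 Y y s u Z))
      (S.vec (S.bs1 Y y s u Z) + ((S.cy t q1).card : ℤ) • (dl u - dl s)) := by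
  have s0 : S.St1 Y y t τ (S.bs1 Y y s u Z) := st_bs1 hs hu (hY y (Rch.refl _)) cl
  have clD : ∀ q ∈ S.cy t q1, ∀ q', S.Rch t q 0 q' → q' ∈ S.cy t q1 := fun q a q' b =>
    mem_cy.2 ((mem_cy.1 a).trans b)
  have W0 : ∀ q ∈ S.cy t q1, S.eR s q ∈ S.bs1 Y y s u Z := fun q a =>
    s_bs1 (fun hh => y1 (hh ▸ (mem_cy.1 a).symm)) (hD a) fun c => n1 (cl q c _ (mem_cy.1 a).symm)
  rcases hi : S.lev t y q0 with _ | i
  · have l0 : S.Rch t y 0 q0 := hi ▸ lev_spec ⟨τ, h0⟩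
    obtain ⟨-, h2⟩ := h.resolve_left fun hh => y1 (hh ▸ l0)
    rw [cy_eq l0] at h2
    refine Wlk.line _ fun j hj => ?_
    rcases hj.eq_or_lt with rfl | hj
    · exact s0.flip hs hu clD W0
    · exact slide0 tri hsu hs hu hY cl hZ (by omega)
  have h1 : S.Rch t y (i + 1) q0 := hi ▸ lev_spec ⟨τ, h0⟩
  have h2 : i + 1 ≤ τ := hi ▸ lev_le h0
  have h3 : ¬ S.Rch t y i q0 := fun hh => by have := lev_le hh; omega
  obtain ⟨f, f1, f2⟩ := (entry h1).resolve_left h3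
  have far : ∀ q, S.Rch t (S.rt f) 0 q → ¬ S.Rch t y i q := fun q a b =>
    h3 ((b.trans a.symm).trans f2)
  have farD : ∀ q ∈ S.cy t q1, ¬ S.Rch t y i q := fun q a b => by
    have c : S.Rch t y i q1 := b.trans (mem_cy.1 a).symm
    rcases h with rfl | h
    · exact h3 c
    · exact h.1 (c.mono (by omega))
  have ft : S.col f = t := by
    by_contra hh
    exact far _ (Rch.refl 0) (f1.flat hh)
  obtain ⟨N, ⟨c1, c4, c5, c6⟩, c2, c3, c7⟩ := reach (S := S) (y := y) tri hs hu (i1 := i)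
    (N0 := S.bs1 Y y s u Z)
    (I := fun N => S.St1 Y y t τ N ∧ (∀ q ∈ S.cy t q1, S.eR s q ∈ N) ∧
      Wlk (S.Lo1 Y y t τ) (S.vec (S.bs1 Y y s u Z)) (S.vec N) ∧
      Wlk (S.Lo1 Y y t τ) (S.vec (S.bs1 Y y s u Z) + ((S.cy t q1).card : ℤ) • (dl u - dl s))
        (S.vec N + ((S.cy t q1).card : ℤ) • (dl u - dl s)))
    (fun _ h => h.1.1) (by
      rintro N f g ⟨a1, a2, a3, a4⟩ b1 b2 b3 - b5 b6
      obtain ⟨m1, m2⟩ := a1.mv b1 b2 b3 (by omega)
      have w : ∀ q ∈ S.cy t q1, S.eR s q ∈ insert f (N.erase g) := fun q a =>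
        mem_insert_of_mem (mem_erase.2 ⟨fun hh => farD q a (by
          rwa [b3, ← hh, S.rt_eR] at b5), a2 q a⟩)
      exact ⟨m1, w, a3.snoc m2 a1.lo m1.lo, a4.snoc (a := S.col g) (b := S.col f)
        (by rw [add_right_comm, m2, add_right_comm]) (a1.flip hs hu clD a2) (m1.flip hs hu clD w)⟩)
    ⟨s0, W0, Wlk.rfl', Wlk.rfl'⟩ (fun e he => nt_bs1 hs hu he) (e0 := S.eR s y) (S.rt_eR _ _)
    (by rwa [S.col_eR]) (fr_bs1 hs hu cl hZ) (fun q a b => ⟨_, mem_image_of_mem _ (mem_erase.2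
      ⟨b, hY q (a.mono (by omega))⟩), S.rt_eR _ _⟩) i le_rfl _ f1
  have cv : ∀ q, S.Rch t (S.rt f) 0 q → S.eR s q ∈ N := fun q a =>
    c7 _ (s_bs1 (fun hh => far q a (hh ▸ Rch.refl _)) (hY q (((RchL.arc f1).trans a).mono h2))
      fun c => n0 (cl q c _ (a.symm.trans f2))) (by rw [S.rt_eR]; exact far q a)
  have g1 := cv _ (Rch.refl 0)
  have v := (mv0 c1.1 c2 g1 (S.rt_eR _ _).symm).2.2.1 t
  have fr := (mv0 c1.1 c2 g1 (S.rt_eR _ _).symm).2.2.2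
  rw [S.col_eR, ft, dl_self, dl_ne hs] at v
  obtain ⟨m1, m2⟩ := c1.mv c2 g1 (S.rt_eR _ _).symm (by omega)
  rw [S.col_eR, ft] at m2
  have sl : ∀ j : ℕ, j + 1 ≤ (S.cy t q0).card → S.Lo1 Y y t τ
      (S.vec (insert f (N.erase (S.eR s (S.rt f)))) + (j : ℤ) • (dl u - dl s)) := fun j hj =>
    m1.slide tri hsu hs hu (fun q a b => mem_insert_of_mem (mem_erase.2
      ⟨fun hh => b (eR_inj s hh), cv q a⟩)) fr
      (fun k k1 k2 => by rw [m1.1.r k k1 f (mem_insert_self _ _) k2, ft]) (by rwa [← cy_eq f2])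
  have w1 := c5.snoc m2 c1.lo m1.lo
  refine Wlk.trans ?_ c6.symm
  rcases h with rfl | h
  · obtain ⟨n, hn⟩ : ∃ n, (S.cy t q0).card = n + 1 :=
      Nat.exists_eq_add_one.2 (card_pos.2 ⟨q0, mem_cy.2 (Rch.refl 0)⟩)
    refine (w1.trans (Wlk.line n fun j hj => sl j (by omega))).snoc (a := t) (b := u) ?_
      (sl n (by omega)) (c1.flip hs hu clD c4)
    rw [add_right_comm, ← m2, hn]
    push_cast
    module
  · have w : ∀ q ∈ S.cy t q1, S.eR s q ∈ insert f (N.erase (S.eR s (S.rt f))) := fun q a =>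
      mem_insert_of_mem (mem_erase.2 ⟨fun hh => h.1 (by
        rw [eR_inj s hh] at a
        exact (((RchL.arc f1).mono h2).trans (mem_cy.1 a).symm)), c4 q a⟩)
    refine (w1.trans (Wlk.line _ fun j hj => ?_)).snoc (a := t) (b := s) ?_
      (m1.flip hs hu clD w) (c1.flip hs hu clD c4)
    · rcases hj.eq_or_lt with rfl | hj
      · exact m1.flip hs hu clD w
      · exact sl j (by omega)
    · rw [add_right_comm, ← m2, add_right_comm]

theorem run1 {P : (K → ℤ) → Prop} {p : ℕ → K → ℤ} {Z1 Z2 : Finset R}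
    (cl2 : ∀ q ∈ Z2, ∀ q', S.Rch t q 0 q' → q' ∈ Z2)
    (h : ∀ Z, Z1 ⊆ Z → Z ⊆ Z2 → (∀ q ∈ Z, ∀ q', S.Rch t q 0 q' → q' ∈ Z) → ∀ q ∈ Z2, q ∉ Z →
      Wlk P (p Z.card) (p (Z.card + (S.cy t q).card))) (Z : Finset R) (h1 : Z1 ⊆ Z) (h2 : Z ⊆ Z2)
    (cl : ∀ q ∈ Z, ∀ q', S.Rch t q 0 q' → q' ∈ Z) : Wlk P (p Z.card) (p Z2.card) := by
  induction hk : (Z2 \ Z).card using Nat.strong_induction_on generalizing Z with
  | _ k ih =>
    by_cases h0 : Z2 ⊆ Z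
    · rw [Subset.antisymm h2 h0]
      exact Wlk.rfl'
    obtain ⟨q, a, b⟩ := not_subset.1 h0
    have dj : Disjoint Z (S.cy t q) := disjoint_left.2 fun z c d => b (cl z c q (mem_cy.1 d).symm)
    have := ih _ ?_ (Z ∪ S.cy t q) (h1.trans subset_union_left)
      (union_subset h2 fun z c => cl2 q a z (mem_cy.1 c)) (fun z c z' d =>
        (mem_union.1 c).elim (fun e => mem_union_left _ (cl z e z' d))
          fun e => mem_union_right _ (mem_cy.2 ((mem_cy.1 e).trans d))) rfl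
    · rw [card_union_of_disjoint dj] at this
      exact (h Z h1 h2 cl q a b).trans this
    · rw [← hk]
      refine card_lt_card ⟨sdiff_subset_sdiff subset_rfl subset_union_left, fun c => ?_⟩
      exact (mem_sdiff.1 (c (mem_sdiff.2 ⟨a, b⟩))).2 (mem_union_right _ (mem_cy.2 (Rch.refl 0)))

/-- from colour `s` everywhere to colour `u` on `Z`, inside at most `τ` edges of colour `t`. -/
theorem ramp1 (tri : ∀ k, k = s ∨ k = u ∨ k = t) (hsu : s ≠ u) (hs : s ≠ t) (hu : u ≠ t)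
    (hY : ∀ q, S.Rch t y τ q → q ∈ Y) {q0 : R} (h0 : S.Rch t y τ q0) {Z : Finset R} (hZ : Z ⊆ Y)
    (cl : ∀ q ∈ Z, ∀ q', S.Rch t q 0 q' → q' ∈ Z) (hy : y ∈ Z)
    (short : ∀ q ∈ Z, S.Rch t y τ q ∨ (S.cy t q).card ≤ (S.cy t q0).card) :
    S.Lo1 Y y t τ (((Y.card : ℤ) - 1) • dl s) ∧
      Wlk (S.Lo1 Y y t τ) (((Y.card : ℤ) - 1) • dl s)
        (((Y.card : ℤ) - Z.card) • dl s + ((Z.card : ℤ) - 1) • dl u) := by
  classical
  have yY := hZ hy
  have clf : ∀ i, ∀ q ∈ Z.filter (fun q => ¬ S.Rch t y i q), ∀ q', S.Rch t q 0 q' →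
      q' ∈ Z.filter (fun q => ¬ S.Rch t y i q) := fun i q a q' b =>
    mem_filter.2 ⟨cl q (mem_filter.1 a).1 q' b, fun c => (mem_filter.1 a).2 (c.trans b.symm)⟩
  have sb : ∀ i, ∀ Z' ⊆ Z.filter (fun q => ¬ S.Rch t y i q), y ∉ Z' ∧ Z' ⊆ Y.erase y :=
    fun i Z' a => ⟨fun b => (mem_filter.1 (a b)).2 (Rch.refl _), fun q b => mem_erase.2
      ⟨fun c => (mem_filter.1 (a b)).2 (c ▸ Rch.refl _), hZ (mem_filter.1 (a b)).1⟩⟩
  let p : ℕ → K → ℤ := fun n => ((Y.card : ℤ) - 1) • dl s + (n : ℤ) • (dl u - dl s)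
  have pa : ∀ m n : ℕ, p (m + n) = p m + (n : ℤ) • (dl u - dl s) := fun m n => by
    simp only [p]
    push_cast
    module
  have cyY : ∀ q ∈ Z, S.cy t q ⊆ Y := fun q a z b => hZ (cl q a z (mem_cy.1 b))
  have w1 := run1 (P := S.Lo1 Y y t τ) (p := p) (Z1 := ∅) (clf τ) (fun Z' _ a b q c d => by
    obtain ⟨c1, c2⟩ := mem_filter.1 c
    have := flipD tri hsu hs hu hY b (sb _ _ a).1 h0 (fun e => (mem_filter.1 (a e)).2 h0) d
      (fun e => c2 (e.mono (Nat.zero_le _))) (cyY q c1)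
      (Or.inr ⟨c2, (short q c1).resolve_left c2⟩)
    rwa [vec_bs1 yY (sb _ _ a).2, ← pa] at this) ∅ subset_rfl (empty_subset _) (by simp)
  have w2 := run1 (P := S.Lo1 Y y t τ) (p := p) (Z1 := Z.filter (fun q => ¬ S.Rch t y τ q))
    (clf 0) (fun Z' a0 a b q c d => by
    obtain ⟨c1, c2⟩ := mem_filter.1 c
    have := flipD tri hsu hs hu hY b (sb _ _ a).1 (q0 := q)
      (not_not.1 fun e => d (a0 (mem_filter.2 ⟨c1, e⟩))) d d c2 (cyY q c1) (Or.inl rfl)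
    rwa [vec_bs1 yY (sb _ _ a).2, ← pa] at this) _ subset_rfl (fun q a => mem_filter.2
      ⟨(mem_filter.1 a).1, fun e => (mem_filter.1 a).2 (e.mono (Nat.zero_le _))⟩) (clf τ)
  obtain ⟨n, hn⟩ : ∃ n, (S.cy t y).card = n + 1 :=
    Nat.exists_eq_add_one.2 (card_pos.2 ⟨y, mem_cy.2 (Rch.refl 0)⟩)
  have w3 := Wlk.line (P := S.Lo1 Y y t τ) n fun j hj =>
    slide0 tri hsu hs hu hY (clf 0) (sb 0 _ subset_rfl).1 (j := j) (by omega)
  rw [vec_bs1 yY (sb 0 _ subset_rfl).2] at w3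
  have c : (Z.filter (fun q => S.Rch t y 0 q)).card +
      (Z.filter (fun q => ¬ S.Rch t y 0 q)).card = Z.card := card_filter_add_card_filter_not _
  have e : Z.filter (fun q => S.Rch t y 0 q) = S.cy t y := by
    ext q
    rw [mem_filter, mem_cy]
    exact ⟨fun a => a.2, fun a => ⟨cl y hy q a, a⟩⟩
  rw [e, hn] at c
  have p0 : p (∅ : Finset R).card = ((Y.card : ℤ) - 1) • dl s := by simp [p]
  have l0 := (st_bs1 (S := S) (τ := τ) (s := s) (u := u) (Z := ∅) hs hu yY (by simp)).lo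
  rw [vec_bs1 yY (empty_subset _)] at l0
  rw [← p0]
  refine ⟨l0, ?_⟩
  convert (w1.trans w2).trans w3 using 1
  rw [← c]
  push_cast
  module

end Sys

end Pool.Agent.Lib.MP_cc2426_co
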