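import Mathlib
import Pool.Agent.Lib.MP_cc2426_co.Hex

/-! Two lattice paths whose sum must hit a given point. -/

set_option autoImplicit false

namespace Pool.Agent.Lib.MP_cc2426_co.Strip

open Relation

/-- unit step (or no step) of the triangular lattice. -/
def St (z z' : ℤ × ℤ) : Prop := st z.1 z.2 z'.1 z'.2

/-- a lattice path from `a` to `b` through points with `P`. -/
def Ch (P : ℤ × ℤ → Prop) (a b : ℤ × ℤ) : Prop :=
  P a ∧ ReflTransGen (fun z z' => St z z' ∧ P z') a b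

theorem Ch.refl {P : ℤ × ℤ → Prop} {a : ℤ × ℤ} (h : P a) : Ch P a a := ⟨h, ReflTransGen.refl⟩

theorem Ch.tail {P : ℤ × ℤ → Prop} {a b c : ℤ × ℤ} (h : Ch P a b) (h1 : St b c) (h2 : P c) :
    Ch P a c := ⟨h.1, h.2.tail ⟨h1, h2⟩⟩

theorem Ch.trans {P : ℤ × ℤ → Prop} {a b c : ℤ × ℤ} (h : Ch P a b) (h' : Ch P b c) : Ch P a c :=
  ⟨h.1, h.2.trans h'.2⟩

theorem Ch.last {P : ℤ × ℤ → Prop} {a b : ℤ × ℤ} (h : Ch P a b) : P b := by
  obtain ⟨h1, h2⟩ := h
  induction h2 with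
  | refl => exact h1
  | tail _ h _ => exact h.2

theorem Ch.mono {P Q : ℤ × ℤ → Prop} {a b : ℤ × ℤ} (h : Ch P a b) (hm : ∀ z, P z → Q z) :
    Ch Q a b := by
  obtain ⟨h1, h2⟩ := h
  induction h2 with
  | refl => exact Ch.refl (hm _ h1)
  | tail _ h ih => exact ih.tail h.1 (hm _ h.2)

theorem Ch.symm {P : ℤ × ℤ → Prop} {a b : ℤ × ℤ} (h : Ch P a b) : Ch P b a := by
  obtain ⟨h1, h2⟩ := h
  induction h2 with
  | refl => exact Ch.refl h1
  | @tail b c hb h ih =>
    exact ((Ch.refl h.2).tail (st_symm h.1) (Ch.last ⟨h1, hb⟩)).trans ih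

/-- image of a path under a map that keeps unit steps. -/
theorem Ch.map {P Q : ℤ × ℤ → Prop} {a b : ℤ × ℤ} (h : Ch P a b) (f : ℤ × ℤ → ℤ × ℤ)
    (hf : ∀ z z', P z → P z' → St z z' → St (f z) (f z')) (hm : ∀ z, P z → Q (f z)) :
    Ch Q (f a) (f b) := by
  obtain ⟨h1, h2⟩ := h
  induction h2 with
  | refl => exact Ch.refl (hm _ h1)
  | @tail b c hb h ih => exact ih.tail (hf _ _ (Ch.last ⟨h1, hb⟩) h.2 h.1) (hm _ h.2)

/-- signed crossing of a ray that starts at the origin. -/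
def ray (z z' : ℤ × ℤ) : ℤ :=
  (if z.1 = -1 ∧ z'.1 = 0 ∧ 0 < z'.2 then 1 else 0) -
    (if z'.1 = -1 ∧ z.1 = 0 ∧ 0 < z.2 then 1 else 0)

theorem ne0 {z : ℤ × ℤ} (h : z ≠ 0) : z.1 ≠ 0 ∨ z.2 ≠ 0 := by
  by_contra hh
  push Not at hh
  exact h (Prod.ext hh.1 hh.2)

theorem ray_tri {a b c : ℤ × ℤ} (h1 : St a b) (h2 : St b c) (h3 : St a c) (f1 : a ≠ 0)
    (f2 : b ≠ 0) (f3 : c ≠ 0) : ray a b + ray b c = ray a c := by
  have g1 := ne0 f1
  have g2 := ne0 f2
  have g3 := ne0 f3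
  unfold ray
  unfold St st at *
  split_ifs <;> omega

theorem ray_anti (a b : ℤ × ℤ) : ray b a = - ray a b := by
  unfold ray; ring

theorem ray_sq {z z' d d' : ℤ × ℤ} (h1 : St z z') (h2 : St d d') (f1 : z + d ≠ 0)
    (f2 : z' + d ≠ 0) (f3 : z + d' ≠ 0) (f4 : z' + d' ≠ 0) :
    ray (z + d) (z' + d) + ray (z' + d) (z' + d') =
      ray (z + d) (z + d') + ray (z + d') (z' + d') := by
  have a1 : St (z + d) (z' + d) := by
    unfold St st at *; simp only [Prod.fst_add, Prod.snd_add]; omega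
  have a2 : St (z' + d) (z' + d') := by
    unfold St st at *; simp only [Prod.fst_add, Prod.snd_add]; omega
  have a3 : St (z + d) (z + d') := by
    unfold St st at *; simp only [Prod.fst_add, Prod.snd_add]; omega
  have a4 : St (z + d') (z' + d') := by
    unfold St st at *; simp only [Prod.fst_add, Prod.snd_add]; omega
  have : St (z + d) (z' + d') ∨ St (z' + d) (z + d') := by
    unfold St st at *; simp only [Prod.fst_add, Prod.snd_add]; omega
  rcases this with h | h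
  · rw [ray_tri a1 a2 h f1 f2 f4, ray_tri a3 a4 h f1 f3 f4]
  · have b1 := ray_tri a1 h a3 f1 f2 f3
    have b2 := ray_tri h a4 a2 f2 f3 f4
    omega

/-- `φ` is a potential of the crossing number on the region `R`. -/
def Pot (R : ℤ × ℤ → Prop) (φ : ℤ × ℤ → ℤ) : Prop :=
  ∀ z z', R z → R z' → z ≠ 0 → z' ≠ 0 → St z z' → ray z z' = φ z' - φ z

theorem weight {P : ℤ × ℤ → Prop} {a a' : ℤ × ℤ} (h : Ch P a a') : ∃ W : ℤ × ℤ → ℤ,
    (∀ d R φ, Pot R φ → (∀ z, P z → z + d ≠ 0 ∧ R (z + d)) → W d = φ (a' + d) - φ (a + d)) ∧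
    ∀ d d', St d d' → (∀ z, P z → z + d ≠ 0) → (∀ z, P z → z + d' ≠ 0) →
      W d + ray (a' + d) (a' + d') = ray (a + d) (a + d') + W d' := by
  obtain ⟨h1, h2⟩ := h
  induction h2 with
  | refl => exact ⟨fun _ => 0, fun _ _ _ _ _ => by simp, fun _ _ _ _ _ => by simp⟩
  | @tail b c hb h ih =>
    obtain ⟨W, w1, w2⟩ := ih
    have pb : P b := Ch.last ⟨h1, hb⟩
    refine ⟨fun d => W d + ray (b + d) (c + d), fun d R φ hp hz => ?_, fun d d' s z1 z2 => ?_⟩
    · have s : St (b + d) (c + d) := by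
        have := h.1
        unfold St st at *; simp only [Prod.fst_add, Prod.snd_add]; omega
      have := hp _ _ (hz b pb).2 (hz c h.2).2 (hz b pb).1 (hz c h.2).1 s
      have := w1 d R φ hp hz
      simp only []
      omega
    · have := w2 d d' s z1 z2
      have := ray_sq h.1 s (z1 b pb) (z1 c h.2) (z2 b pb) (z2 c h.2)
      simp only []
      omega

theorem rect {P Q : ℤ × ℤ → Prop} {a a' c c' : ℤ × ℤ} (h1 : Ch P a a') (h2 : Ch Q c c')
    (nz : ∀ z w, P z → Q w → z + w ≠ 0) {R1 R2 R3 R4 : ℤ × ℤ → Prop} {φ1 φ2 φ3 φ4 : ℤ × ℤ → ℤ}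
    (p1 : Pot R1 φ1) (p2 : Pot R2 φ2) (p3 : Pot R3 φ3) (p4 : Pot R4 φ4)
    (e1 : ∀ z, P z → R1 (z + c)) (e2 : ∀ w, Q w → R2 (a' + w)) (e3 : ∀ z, P z → R3 (z + c'))
    (e4 : ∀ w, Q w → R4 (a + w)) :
    φ1 (a' + c) - φ1 (a + c) + (φ2 (a' + c') - φ2 (a' + c)) =
      φ4 (a + c') - φ4 (a + c) + (φ3 (a' + c') - φ3 (a + c')) := by
  obtain ⟨W, w1, w2⟩ := weight h1
  have b1 := w1 c R1 φ1 p1 (fun z hz => ⟨nz z c hz h2.1, e1 z hz⟩)
  have b3 := w1 c' R3 φ3 p3 (fun z hz => ⟨nz z c' hz h2.last, e3 z hz⟩)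
  have key : W c + (φ2 (a' + c') - φ2 (a' + c)) = φ4 (a + c') - φ4 (a + c) + W c' := by
    clear b3 e3
    obtain ⟨q1, q2⟩ := h2
    induction q2 with
    | refl => simp
    | @tail b d hb h ih =>
      have pb : Q b := Ch.last ⟨q1, hb⟩
      have sa : ∀ x : ℤ × ℤ, St (x + b) (x + d) := fun x => by
        have := h.1
        unfold St st at *; simp only [Prod.fst_add, Prod.snd_add]; omega
      have k1 := w2 b d h.1 (fun z hz => nz z b hz pb) (fun z hz => nz z d hz h.2)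
      have k2 := p2 _ _ (e2 b pb) (e2 d h.2) (nz _ _ h1.last pb) (nz _ _ h1.last h.2) (sa a')
      have k4 := p4 _ _ (e4 b pb) (e4 d h.2) (nz _ _ h1.1 pb) (nz _ _ h1.1 h.2) (sa a)
      omega
  omega

theorem pot1 : Pot (fun z => 0 ≤ z.1) (fun _ => 0) := by
  intro z z' a b c d e
  unfold ray; simp only []; split_ifs <;> omega

theorem pot2 : Pot (fun z => 0 ≤ z.2) (fun z => if 0 ≤ z.1 then 1 else 0) := by
  intro z z' a b c d e
  have := ne0 c
  have := ne0 d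
  unfold St st at e
  unfold ray; simp only []; split_ifs <;> omega

theorem pot3 : Pot (fun z => z.1 ≤ 0) (fun z => if z.1 = 0 ∧ 0 < z.2 then 1 else 0) := by
  intro z z' a b c d e
  have := ne0 c
  have := ne0 d
  unfold St st at e
  unfold ray; simp only []; split_ifs <;> omega

theorem pot4 : Pot (fun z => z.2 ≤ 0) (fun _ => 0) := by
  intro z z' a b c d e
  unfold ray; simp only []; split_ifs <;> omega

theorem pot5 : Pot (fun z => z.1 + z.2 ≤ 0) (fun _ => 0) := by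
  intro z z' a b c d e
  unfold ray; simp only []; split_ifs <;> omega

theorem shift {Q : ℤ × ℤ → Prop} {c c' : ℤ × ℤ} (h : Ch Q c c') (B : ℤ × ℤ) :
    Ch (fun w => Q (w + B)) (c - B) (c' - B) :=
  h.map (fun w => w - B) (fun z z' _ _ s => by
    unfold St st at *; simp only [Prod.fst_sub, Prod.snd_sub]; omega) (fun z hz => by simpa using hz)

theorem hit {P Q : ℤ × ℤ → Prop} {B : ℤ × ℤ} (h : ¬ ∃ z w, P z ∧ Q w ∧ z + w = B) :
    ∀ z w, P z → Q (w + B) → z + w ≠ 0 := fun z w hz hw e =>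
  h ⟨z, w + B, hz, hw, by rw [← add_assoc, e, zero_add]⟩

/-- first coordinate low on one side and high on the opposite side, second coordinate the same
for the two other sides. -/
theorem miranda {P Q : ℤ × ℤ → Prop} {a a' c c' : ℤ × ℤ} (h1 : Ch P a a') (h2 : Ch Q c c')
    (B : ℤ × ℤ) (e1 : ∀ z, P z → z.1 + c.1 ≤ B.1) (e2 : ∀ z, P z → B.1 ≤ z.1 + c'.1)
    (e3 : ∀ w, Q w → a.2 + w.2 ≤ B.2) (e4 : ∀ w, Q w → B.2 ≤ a'.2 + w.2) :
    ∃ z w, P z ∧ Q w ∧ z + w = B := by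
  by_contra no
  have nz := hit no
  have h := rect h1 (shift h2 B) nz pot3 pot2 pot1 pot4
    (fun z hz => by have := e1 z hz; simp only [Prod.fst_add, Prod.fst_sub]; omega)
    (fun w hw => by have := e4 _ hw; simp only [Prod.snd_add] at *; omega)
    (fun z hz => by have := e2 z hz; simp only [Prod.fst_add, Prod.fst_sub]; omega)
    (fun w hw => by have := e3 _ hw; simp only [Prod.snd_add] at *; omega)
  have n1 := ne0 (nz a' (c - B) h1.last (by simpa using h2.1))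
  have b1 := e1 a h1.1
  have b2 := e1 a' h1.last
  have b3 := e2 a' h1.last
  have b4 := e3 c h2.1
  have b5 := e4 c h2.1
  simp only [Prod.fst_add, Prod.fst_sub, Prod.snd_add, Prod.snd_sub] at h n1
  split_ifs at h <;> omega

/-- the boundary of the rectangle runs through the three half planes round `B`. -/
theorem star {P Q : ℤ × ℤ → Prop} {a a' c c' : ℤ × ℤ} (h1 : Ch P a a') (h2 : Ch Q c c')
    (B : ℤ × ℤ) (e1 : ∀ z, P z → B.1 ≤ z.1 + c.1) (e2 : ∀ w, Q w → B.2 ≤ a'.2 + w.2)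
    (e3 : ∀ z, P z → z.1 + z.2 + c'.1 + c'.2 ≤ B.1 + B.2)
    (e4 : ∀ w, Q w → a.1 + a.2 + w.1 + w.2 ≤ B.1 + B.2) :
    ∃ z w, P z ∧ Q w ∧ z + w = B := by
  by_contra no
  have nz := hit no
  have h := rect h1 (shift h2 B) nz pot1 pot2 pot5 pot5
    (fun z hz => by have := e1 z hz; simp only [Prod.fst_add, Prod.fst_sub]; omega)
    (fun w hw => by have := e2 _ hw; simp only [Prod.snd_add] at *; omega)
    (fun z hz => by
      have := e3 z hz
      simp only [Prod.fst_add, Prod.fst_sub, Prod.snd_add, Prod.snd_sub]; omega)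
    (fun w hw => by have := e4 _ hw; simp only [Prod.fst_add, Prod.snd_add] at *; omega)
  have n1 := ne0 (nz a' (c' - B) h1.last (by simpa using h2.last))
  have b1 := e1 a' h1.last
  have b2 := e2 c' h2.last
  have b3 := e3 a' h1.last
  simp only [Prod.fst_add, Prod.fst_sub, Prod.snd_add, Prod.snd_sub] at h n1
  split_ifs at h <;> omega

end Pool.Agent.Lib.MP_cc2426_co.Strip
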