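import Mathlib
import Pool.Agent.Lib.MP_cc2426_co.Basic
import Pool.Agent.Lib.MP_cc2426_co.Strip

/-! Two different components, each with one deleted vertex: every content inside the star occurs. -/

set_option autoImplicit false
set_option linter.unusedSectionVars false

namespace Pool.Agent.Lib.MP_cc2426_co

open Finset

variable {E L R K : Type*} [DecidableEq E] [DecidableEq L] [DecidableEq R] [DecidableEq K]

namespace Sys

/-- closed row sets. -/
def Clos (S : Sys E L R K) (A : Finset L) : Prop :=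
  ∀ e e', S.rt e = S.rt e' → S.lf e ∈ A → S.lf e' ∈ A

/-- closed row sets with no smaller nonempty closed subset. -/
def Cmp (S : Sys E L R K) (A : Finset L) : Prop :=
  S.Clos A ∧ ∀ B, B ⊆ A → B.Nonempty → S.Clos B → B = A

/-- matchings that cover exactly the rows of `A` other than `x`. -/
def Ro (S : Sys E L R K) (x : L) (A : Finset L) (N : Finset E) : Prop :=
  S.IsM N ∧ (∀ e ∈ N, S.lf e ∈ A ∧ S.lf e ≠ x) ∧ N.card + 1 = A.card

/-- joined by unit steps of the colour vector. -/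
def Tr (S : Sys E L R K) (x : L) (A : Finset L) : Finset E → Finset E → Prop :=
  Relation.ReflTransGen (fun N N' => S.Ro x A N ∧ S.Ro x A N' ∧
    ∃ a b, S.vec N' + dl a = S.vec N + dl b)

/-- from a column one reaches a row of an edge of `D` by alternating steps. -/
inductive Hit (S : Sys E L R K) (M D : Finset E) : ℕ → R → Prop
  | base (n : ℕ) (f g : E) : g ∈ D → S.lf f = S.lf g → Hit S M D n (S.rt f)
  | step (n : ℕ) (f g : E) : g ∈ M → S.lf f = S.lf g → Hit S M D n (S.rt g) →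
      Hit S M D (n + 1) (S.rt f)

variable {S : Sys E L R K} {x : L} {A : Finset L}

theorem Tr.symm {N N' : Finset E} (h : S.Tr x A N N') : S.Tr x A N' N := by
  induction h with
  | refl => exact Relation.ReflTransGen.refl
  | tail _ a ih =>
    obtain ⟨a1, a2, p, q, a3⟩ := a
    exact Relation.ReflTransGen.head ⟨a2, a1, q, p, a3.symm⟩ ih

theorem Tr.trans {N N' N'' : Finset E} (h : S.Tr x A N N') (h' : S.Tr x A N' N'') :
    S.Tr x A N N'' := Relation.ReflTransGen.trans h h'

theorem Hit.succ {M D : Finset E} {n : ℕ} {q : R} (h : S.Hit M D n q) : S.Hit M D (n + 1) q := by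
  induction h with
  | base n f g a b => exact Hit.base _ f g a b
  | step n f g a b _ ih => exact Hit.step _ f g a b ih

theorem Hit.cut {M M1 D : Finset E} {g1 : E} (hm : ∀ g ∈ M, g ≠ g1 → g ∈ M1) {n : ℕ} {q : R}
    (h : S.Hit M D n q) : S.Hit M1 D n q ∨ S.Hit M1 D n (S.rt g1) := by
  induction h with
  | base n f g a b => exact Or.inl (Hit.base _ f g a b)
  | step n f g a b _ ih =>
    rcases ih with ih | ih
    · by_cases e : g = g1
      · exact Or.inr (e ▸ ih.succ)
      · exact Or.inl (Hit.step _ f g (hm g a e) b ih)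
    · exact Or.inr ih.succ

theorem Ro.cov {N : Finset E} (h : S.Ro x A N) (hx : x ∈ A) {r : L} (hr : r ∈ A) (ne : r ≠ x) :
    ∃ g ∈ N, S.lf g = r := by
  have e : N.image S.lf = A.erase x := by
    apply eq_of_subset_of_card_le
    · intro z hz
      obtain ⟨e, he, rfl⟩ := mem_image.1 hz
      exact mem_erase.2 ⟨(h.2.1 e he).2, (h.2.1 e he).1⟩
    · rw [card_image_of_injOn (fun e he f hf hh => h.1.l e he f hf hh), card_erase_of_mem hx]
      have := h.2.2
      omega
  exact mem_image.1 (e ▸ mem_erase.2 ⟨ne, hr⟩)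

theorem Ro.mv {N : Finset E} (h : S.Ro x A N) {f g : E} (fr : S.FrR N (S.rt f)) (hg : g ∈ N)
    (e : S.lf f = S.lf g) : S.Ro x A (insert f (N.erase g)) ∧ S.Tr x A N (insert f (N.erase g)) ∧
      S.FrR (insert f (N.erase g)) (S.rt g) := by
  have a := S.mvR (A := insert (S.col f) (N.image S.col)) (FL := ∅) (FR := ∅) h.1
    (fun e he => ⟨mem_insert_of_mem (mem_image_of_mem _ he), by simp, by simp⟩)
    (mem_insert_self _ _) (by simp) fr hg e
  have b : S.Ro x A (insert f (N.erase g)) := by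
    refine ⟨a.isM.unswap, ?_, by rw [a.card]; exact h.2.2⟩
    intro k hk
    rcases mem_insert.1 hk with rfl | hk
    · rw [e]; exact h.2.1 g hg
    · exact h.2.1 k (mem_erase.1 hk).2
  exact ⟨b, Relation.ReflTransGen.single ⟨h, b, S.col g, S.col f, a.vec⟩, a.frL⟩

theorem Ro.hole {N : Finset E} (h : S.Ro x A N) (c : K) :
    ∃ e, S.lf e ∈ A ∧ S.FrR N (S.rt e) := by
  have inj : Function.Injective (fun r => S.rt (S.eL c r)) := by
    intro r r' hh
    have := S.eq_of_rt hh (by rw [S.col_eL, S.col_eL])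
    rw [← S.lf_eL c r, this, S.lf_eL]
  have : (N.image S.rt).card < (A.image (fun r => S.rt (S.eL c r))).card := by
    rw [card_image_of_injective _ inj]
    have := card_image_le (s := N) (f := S.rt)
    have := h.2.2
    omega
  obtain ⟨q, q1, q2⟩ := exists_mem_notMem_of_card_lt_card this
  obtain ⟨r, hr, rfl⟩ := mem_image.1 q1
  exact ⟨S.eL c r, by rwa [S.lf_eL], fun e he hh => q2 (mem_image.2 ⟨e, he, hh⟩)⟩

theorem Ro.hit (hA : S.Cmp A) (hx : x ∈ A) {M D : Finset E} (h : S.Ro x A M) {d : E} (hd : d ∈ D)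
    (dA : S.lf d ∈ A) {e0 : E} (e1 : S.lf e0 ∈ A) (fr : S.FrR M (S.rt e0)) :
    ∃ n, S.Hit M D n (S.rt e0) := by
  classical
  by_contra no
  set c := S.col e0 with hc
  set W := (A.image (fun r => S.rt (S.eL c r))).filter (fun q => ¬ ∃ n, S.Hit M D n q) with hW
  set G := A.filter (fun r => ∃ e, S.lf e = r ∧ S.rt e ∈ W) with hG
  have inW : ∀ e, S.lf e ∈ A → (¬ ∃ n, S.Hit M D n (S.rt e)) → S.rt e ∈ W := by
    intro e he hn
    refine mem_filter.2 ⟨mem_image.2 ⟨S.lf (S.eR c (S.rt e)),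
      hA.1 e _ (S.rt_eR _ _).symm he, ?_⟩, hn⟩
    have := S.eL_eq (S.eR c (S.rt e))
    rw [S.col_eR] at this
    rw [this, S.rt_eR]
  have WA : ∀ e, S.rt e ∈ W → S.lf e ∈ A := by
    intro e he
    obtain ⟨r, hr, e2⟩ := mem_image.1 (mem_filter.1 he).1
    exact hA.1 (S.eL c r) e e2 (by rwa [S.lf_eL])
  have inG : ∀ e, S.rt e ∈ W → S.lf e ∈ G := fun e he => mem_filter.2 ⟨WA e he, e, rfl, he⟩
  have w0 : S.rt e0 ∈ W := inW e0 e1 no
  have le1 : G.card ≤ W.card := by
    have s1 : G.erase x ⊆ (M.filter (fun g => S.rt g ∈ W.erase (S.rt e0))).image S.lf := by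
      intro r hr
      obtain ⟨r1, r2⟩ := mem_erase.1 hr
      obtain ⟨r3, e, rfl, e3⟩ := mem_filter.1 r2
      obtain ⟨g, g1, g2⟩ := h.cov hx r3 r1
      refine mem_image.2 ⟨g, mem_filter.2 ⟨g1, mem_erase.2 ⟨fr g g1, inW g (g2 ▸ r3) ?_⟩⟩, g2⟩
      rintro ⟨n, hn⟩
      exact (mem_filter.1 e3).2 ⟨n + 1, Hit.step n e g g1 g2.symm hn⟩
    have s2 := (card_le_card s1).trans card_image_le
    have s3 : (M.filter (fun g => S.rt g ∈ W.erase (S.rt e0))).card ≤ (W.erase (S.rt e0)).card :=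
      card_le_card_of_injOn S.rt (fun g hg => (mem_filter.1 hg).2)
        (fun g hg g' hg' hh => h.1.r g (mem_filter.1 hg).1 g' (mem_filter.1 hg').1 hh)
    have s4 := card_erase_add_one w0
    have s5 := pred_card_le_card_erase (s := G) (a := x)
    omega
  have cl : S.Clos G := by
    intro e e' hh he
    have im : W.image (fun q => S.lf (S.eR (S.col e) q)) = G := by
      apply eq_of_subset_of_card_le
      · intro r hr
        obtain ⟨q, hq, rfl⟩ := mem_image.1 hr
        exact inG _ (by rwa [S.rt_eR])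
      · rw [card_image_of_injective]
        · exact le1
        · intro q q' h2
          have := S.eq_of_lf h2 (by rw [S.col_eR, S.col_eR])
          rw [← S.rt_eR (S.col e) q, this, S.rt_eR]
    rw [← im] at he
    obtain ⟨q, hq, e2⟩ := mem_image.1 he
    have := S.eq_of_lf e2 (S.col_eR _ _)
    apply inG
    rw [← hh, ← this, S.rt_eR]
    exact hq
  have eq := hA.2 G (filter_subset _ _) ⟨_, inG e0 w0⟩ cl
  rw [← eq] at dA
  obtain ⟨-, e, e2, e3⟩ := mem_filter.1 dA
  exact (mem_filter.1 e3).2 ⟨0, Hit.base 0 e d hd e2⟩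

/-- all states of one component are joined by unit steps. -/
theorem tourAll (hA : S.Cmp A) (hx : x ∈ A) (c : K) : ∀ (d : ℕ) (M N : Finset E),
    S.Ro x A M → S.Ro x A N → (M \ N).card = d → S.Tr x A M N := by
  intro d
  induction d using Nat.strong_induction_on with
  | _ d ih =>
  intro M N hM hN hd
  have inner : ∀ (n : ℕ) (D : Finset E), D.card = d → ∀ (M N : Finset E) (q : R), S.Ro x A M →
      S.Ro x A N → M \ N = D → S.FrR M q → S.FrR N q → S.Hit M D n q → S.Tr x A M N := by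
    have bs : ∀ (D : Finset E), D.card = d → ∀ (M N : Finset E) (f g : E), S.Ro x A M →
        S.Ro x A N → M \ N = D → S.FrR M (S.rt f) → S.FrR N (S.rt f) → g ∈ D → S.lf f = S.lf g →
        S.Tr x A M N := by
      intro D hD M N f g hM hN e f1 f2 hg e2
      have g1 : g ∈ M \ N := e ▸ hg
      obtain ⟨g2, g3⟩ := mem_sdiff.1 g1
      obtain ⟨k, k1, k2⟩ := hN.cov hx (hM.2.1 g g2).1 (hM.2.1 g g2).2
      obtain ⟨a1, a2, -⟩ := hM.mv f1 g2 e2
      obtain ⟨b1, b2, -⟩ := hN.mv f2 k1 (e2.trans k2.symm)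
      refine a2.trans ((ih _ ?_ _ _ a1 b1 rfl).trans b2.symm)
      rw [← hD, ← e]
      apply card_lt_card
      rw [ssubset_iff_of_subset]
      · refine ⟨g, g1, fun hh => ?_⟩
        rcases mem_insert.1 (mem_sdiff.1 hh).1 with h3 | h3
        · exact f1 g g2 (by rw [h3])
        · exact (mem_erase.1 h3).1 rfl
      · intro z hz
        obtain ⟨z1, z2⟩ := mem_sdiff.1 hz
        rcases mem_insert.1 z1 with h3 | h3
        · exact absurd (h3 ▸ mem_insert_self _ _) z2
        · refine mem_sdiff.2 ⟨(mem_erase.1 h3).2, fun h4 => z2 (mem_insert_of_mem (mem_erase.2 ⟨?_, h4⟩))⟩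
          rintro rfl
          exact (mem_erase.1 h3).1 (hM.1.l z (mem_erase.1 h3).2 g g2 k2)
    intro n
    induction n with
    | zero =>
      intro D hD M N q hM hN e f1 f2 h
      cases h with
      | base _ f g a b => exact bs D hD M N f g hM hN e f1 f2 a b
    | succ n ih2 =>
      intro D hD M N q hM hN e f1 f2 h
      cases h with
      | base _ f g a b => exact bs D hD M N f g hM hN e f1 f2 a b
      | step _ f g a b h =>
        by_cases gD : g ∈ D
        · exact bs D hD M N f g hM hN e f1 f2 gD b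
        have gN : g ∈ N := by
          by_contra hh
          exact gD (e ▸ mem_sdiff.2 ⟨a, hh⟩)
        obtain ⟨a1, a2, a3⟩ := hM.mv f1 a b
        obtain ⟨b1, b2, b3⟩ := hN.mv f2 gN b
        have h' : S.Hit (insert f (M.erase g)) D n (S.rt g) :=
          (h.cut (g1 := g) (fun k hk ne => mem_insert_of_mem (mem_erase.2 ⟨ne, hk⟩))).elim id id
        refine a2.trans ((ih2 D hD _ _ _ a1 b1 ?_ a3 b3 h').trans b2.symm)
        rw [← e]
        ext z
        have n1 : f ∉ M := fun hh => f1 f hh rfl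
        simp only [mem_sdiff, mem_insert, mem_erase]
        by_cases z1 : z = f
        · simp [z1, n1]
        · by_cases z2 : z = g
          · subst z2; simp [z1, gN]
          · simp [z1, z2]
  obtain ⟨e0, e1, e2⟩ := hM.hole c
  by_cases fr : S.FrR N (S.rt e0)
  · rcases (M \ N).eq_empty_or_nonempty with em | ⟨g, hg⟩
    · have : M = N := eq_of_subset_of_card_le (sdiff_eq_empty_iff_subset.1 em) (by
        have := hM.2.2
        have := hN.2.2
        omega)
      rw [this]
      exact Relation.ReflTransGen.refl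
    · obtain ⟨n, hn⟩ := hM.hit hA hx hg (hM.2.1 g (mem_sdiff.1 hg).1).1 e1 e2
      exact inner n _ hd M N _ hM hN rfl e2 fr hn
  · simp only [FrR, not_forall, not_not] at fr
    obtain ⟨f, f1, f2⟩ := fr
    obtain ⟨g, g1, g2⟩ := hM.cov hx (hN.2.1 f f1).1 (hN.2.1 f f1).2
    have e3 : S.FrR M (S.rt f) := f2 ▸ e2
    obtain ⟨a1, a2, -⟩ := hM.mv e3 g1 g2.symm
    refine a2.trans (ih _ ?_ _ _ a1 hN rfl)
    rw [← hd]
    apply card_lt_card
    have gN : g ∉ N := fun hh => e3 g g1 (by rw [hN.1.l g hh f f1 g2])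
    rw [ssubset_iff_of_subset]
    · refine ⟨g, mem_sdiff.2 ⟨g1, gN⟩, fun hh => ?_⟩
      rcases mem_insert.1 (mem_sdiff.1 hh).1 with h3 | h3
      · exact gN (h3 ▸ f1)
      · exact (mem_erase.1 h3).1 rfl
    · intro z hz
      obtain ⟨z1, z2⟩ := mem_sdiff.1 hz
      rcases mem_insert.1 z1 with h3 | h3
      · exact absurd (h3 ▸ f1) z2
      · exact mem_sdiff.2 ⟨(mem_erase.1 h3).2, z2⟩

theorem Ro.tour (hA : S.Cmp A) (hx : x ∈ A) (c : K) {M N : Finset E} (hM : S.Ro x A M)
    (hN : S.Ro x A N) : S.Tr x A M N := tourAll hA hx c _ M N hM hN rfl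

theorem roPure (hx : x ∈ A) (c : K) : S.Ro x A ((A.erase x).image (S.eL c)) ∧
    S.vec ((A.erase x).image (S.eL c)) = ((A.card : ℤ) - 1) • dl c := by
  have mem : ∀ e ∈ (A.erase x).image (S.eL c), S.col e = c ∧ S.lf e ∈ A ∧ S.lf e ≠ x := by
    intro e he
    obtain ⟨r, hr, rfl⟩ := mem_image.1 he
    rw [S.lf_eL]
    exact ⟨S.col_eL _ _, (mem_erase.1 hr).2, (mem_erase.1 hr).1⟩
  have cd : ((A.erase x).image (S.eL c)).card + 1 = A.card := by
    rw [card_image_of_injective _ (Function.LeftInverse.injective (S.lf_eL c)),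
      card_erase_add_one hx]
  refine ⟨⟨⟨fun e he f hf hh => S.eq_of_lf hh ((mem e he).1.trans (mem f hf).1.symm),
    fun e he f hf hh => S.eq_of_rt hh ((mem e he).1.trans (mem f hf).1.symm)⟩,
    fun e he => (mem e he).2, cd⟩, ?_⟩
  rw [vec_const (fun e he => (mem e he).1), ← cd]
  push_cast
  rw [add_sub_cancel_right]

variable {s u t : K}

theorem vecSt3 (tri : ∀ k, k = s ∨ k = u ∨ k = t) (hsu : s ≠ u) (hst : s ≠ t) (hut : u ≠ t)
    (N : Finset E) : S.vec N s + S.vec N u + S.vec N t = N.card := by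
  have := sum_vec (S := S) (A := {s, u, t}) (M := N) (fun e _ => by simpa using tri (S.col e))
  rw [sum_insert (by simp [hsu, hst]), sum_insert (by simp [hut]), sum_singleton] at this
  omega

/-- a chain of states seen in two coordinates. -/
theorem Tr.ch (hut : u ≠ t) {M N : Finset E} (h : S.Tr x A M N) (hM : S.Ro x A M) :
    Strip.Ch (fun z => ∃ N, S.Ro x A N ∧ z = (S.vec N t, S.vec N u)) (S.vec M t, S.vec M u)
      (S.vec N t, S.vec N u) := by
  induction h with
  | refl => exact Strip.Ch.refl ⟨M, hM, rfl⟩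
  | @tail N1 N2 _ a ih =>
    obtain ⟨-, a2, p, q, a3⟩ := a
    refine ih.tail ?_ ⟨N2, a2, rfl⟩
    have b1 := congrFun a3 t
    have b2 := congrFun a3 u
    simp only [Pi.add_apply, dl, Pi.single_apply] at b1 b2
    simp only [Strip.St, st]
    have c1 : ¬ (t = p ∧ u = p) := fun hh => hut (hh.2.trans hh.1.symm)
    have c2 : ¬ (t = q ∧ u = q) := fun hh => hut (hh.2.trans hh.1.symm)
    split_ifs at b1 b2 <;> first | omega | exact absurd ⟨‹_›, ‹_›⟩ c1 | exact absurd ⟨‹_›, ‹_›⟩ c2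

/-- the star lemma: a row component without the row `x` and a column component without the
column `y` together show every content of the star. -/
theorem star (tri : ∀ k, k = s ∨ k = u ∨ k = t) (hsu : s ≠ u) (hst : s ≠ t) (hut : u ≠ t)
    (hA : S.Cmp A) (hx : x ∈ A) {B : Finset R} {y : R} (hB : S.swap.Cmp B) (hy : y ∈ B)
    {γ : K → ℤ} (hsum : γ s + γ u + γ t + 2 = A.card + B.card) (s1 : γ s + 1 ≤ A.card)
    (s2 : γ s + 1 ≤ B.card) (u1 : γ u + 1 ≤ A.card) (t2 : γ t + 1 ≤ B.card) :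
    ∃ N1 N2, S.Ro x A N1 ∧ S.swap.Ro y B N2 ∧ S.vec N1 + S.vec N2 = γ := by
  obtain ⟨p1, p2⟩ := roPure (S := S) hx s
  obtain ⟨p3, p4⟩ := roPure (S := S) hx u
  obtain ⟨q1, q2⟩ := roPure (S := S.swap) hy t
  obtain ⟨q3, q4⟩ := roPure (S := S.swap) hy s
  have c1 := (p1.tour hA hx s p3).ch hut p1
  have c2 := (q1.tour hB hy s q3).ch hut q1
  rw [p2, p4] at c1
  rw [q2, q4] at c2
  simp only [Pi.smul_apply, dl, Pi.single_apply, smul_eq_mul, if_neg hst.symm, if_neg hsu.symm,
    if_neg hut.symm, if_neg hut, if_true, mul_zero, mul_one] at c1 c2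
  have k1 : ∀ N, S.Ro x A N → 0 ≤ S.vec N t ∧ 0 ≤ S.vec N u ∧ 0 ≤ S.vec N s ∧
      S.vec N s + S.vec N u + S.vec N t + 1 = A.card := fun N h =>
    ⟨vec_nonneg _ _, vec_nonneg _ _, vec_nonneg _ _, by
      rw [vecSt3 tri hsu hst hut, ← h.2.2]; push_cast; rfl⟩
  have k2 : ∀ N, S.swap.Ro y B N → 0 ≤ S.swap.vec N t ∧ 0 ≤ S.swap.vec N u ∧ 0 ≤ S.swap.vec N s ∧
      S.swap.vec N s + S.swap.vec N u + S.swap.vec N t + 1 = B.card := fun N h =>
    ⟨vec_nonneg _ _, vec_nonneg _ _, vec_nonneg _ _, by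
      rw [vecSt3 tri hsu hst hut, ← h.2.2]; push_cast; rfl⟩
  obtain ⟨z, w, ⟨N1, a1, rfl⟩, ⟨N2, a2, rfl⟩, e⟩ := Strip.star c1 c2 (γ t, γ u)
    (by rintro z ⟨N, h, rfl⟩; have := k1 N h; simp only; omega)
    (by rintro z ⟨N, h, rfl⟩; have := k2 N h; simp only; omega)
    (by rintro z ⟨N, h, rfl⟩; have := k1 N h; simp only; omega)
    (by rintro z ⟨N, h, rfl⟩; have := k2 N h; simp only; omega)
  refine ⟨N1, N2, a1, a2, ?_⟩
  have e1 : S.vec N1 t + S.swap.vec N2 t = γ t := congrArg Prod.fst e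
  have e2 : S.vec N1 u + S.swap.vec N2 u = γ u := congrArg Prod.snd e
  have b1 := k1 N1 a1
  have b2 := k2 N2 a2
  funext k
  show S.vec N1 k + S.swap.vec N2 k = γ k
  rcases tri k with rfl | rfl | rfl <;> omega

end Sys

end Pool.Agent.Lib.MP_cc2426_co
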